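import Pool.Agent.Shared.Brouwer.Basic

/-! Invariance of domain. -/

namespace Pool.Agent.Lib.MP_ecd4e3_gt

open Set Metric Filter Topology MeasureTheory

theorem inv_domain_core {F : Type} [NormedAddCommGroup F] [InnerProductSpace ℝ F]
    [FiniteDimensional ℝ F] {R : ℝ} (hR : 0 < R) {f : F → F}
    (hc : ContinuousOn f (closedBall 0 R)) (hi : InjOn f (closedBall 0 R)) :
    f '' closedBall 0 R ∈ 𝓝 (f 0) := by
  by_contra hn
  have hB : IsCompact (closedBall (0 : F) R) := isCompact_closedBall 0 R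
  have h0B : (0 : F) ∈ closedBall (0 : F) R := mem_closedBall_self hR.le
  have : CompactSpace (closedBall (0 : F) R) := isCompact_iff_compactSpace.1 hB
  have : TietzeExtension.{0, 0} F := TietzeExtension.of_tvs ℝ
  have he : IsClosedEmbedding (fun x : closedBall (0 : F) R => f x) :=
    (continuousOn_iff_continuous_domRestrict.1 hc).isClosedEmbedding
      (fun x y hxy => Subtype.ext (hi x.2 y.2 hxy))
  obtain ⟨G, hG⟩ := ContinuousMap.exists_extension' he
    (⟨Subtype.val, continuous_subtype_val⟩ : C(closedBall (0 : F) R, F))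
  have hGf : ∀ x ∈ closedBall (0 : F) R, G (f x) = x := fun x hx => congrFun hG ⟨x, hx⟩
  obtain ⟨η, hη, hηG⟩ := Metric.continuousAt_iff.1 (G.continuous.continuousAt (x := f 0))
    (R / 10) (by positivity)
  have hsm : ∀ y, dist y (f 0) < η → ‖G y‖ < R / 10 := by
    intro y hy
    have := hηG hy
    rwa [hGf 0 h0B, dist_zero_right] at this
  set ε := η / 2 with hεd
  have hε : 0 < ε := by positivity
  obtain ⟨c, hc1, hc2⟩ : ∃ c, c ∈ ball (f 0) ε ∧ c ∉ f '' closedBall 0 R := by
    by_contra h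
    push Not at h
    exact hn (mem_of_superset (ball_mem_nhds _ hε) h)
  have hc1' : dist c (f 0) < ε := hc1
  have hK : IsCompact (f '' closedBall (0 : F) R) := hB.image_of_continuousOn hc
  have hS1 : IsCompact (f '' closedBall (0 : F) R ∩ {y | ε ≤ ‖y - c‖}) :=
    hK.inter_right (isClosed_le continuous_const (by fun_prop))
  obtain ⟨δ0, hδ0, hδ1⟩ : ∃ δ0 : ℝ, 0 < δ0 ∧
      ∀ y ∈ f '' closedBall (0 : F) R ∩ {y | ε ≤ ‖y - c‖}, δ0 ≤ ‖G y‖ := by
    refine hS1.exists_forall_le' (f := fun y => ‖G y‖) G.continuous.norm.continuousOn ?_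
    rintro y ⟨⟨x, hx, rfl⟩, hy⟩
    rw [hGf x hx, norm_pos_iff]
    rintro rfl
    have h1 : ε ≤ ‖f 0 - c‖ := hy
    rw [← dist_eq_norm, dist_comm] at h1
    linarith
  set δ := min δ0 (R / 10) with hδd
  have hδ : 0 < δ := by positivity
  have hδa : δ ≤ δ0 := min_le_left _ _
  have hδb : δ ≤ R / 10 := min_le_right _ _
  obtain ⟨Q, hQ1, hQ2, -⟩ := G.continuous.exists_contDiff_approx 1 (ε := fun _ => δ / 4)
    continuous_const (fun _ => by positivity)
  obtain ⟨a, ha1, ha2⟩ : ∃ a, a ∈ ball (0 : F) (δ / 4) ∧ a ∉ Q '' sphere c ε := by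
    let : MeasurableSpace F := borel F
    have : BorelSpace F := ⟨rfl⟩
    by_contra h
    push Not at h
    have h1 : (Measure.addHaar : Measure F) (Q '' sphere c ε) = 0 :=
      addHaar_image_eq_zero_of_differentiableOn_of_addHaar_eq_zero _
        (hQ1.differentiable (by simp)).differentiableOn
        (Measure.addHaar_sphere_of_ne_zero _ c hε.ne')
    exact (measure_ball_pos (Measure.addHaar : Measure F) (0 : F) (by positivity : 0 < δ / 4)).ne'
      (measure_mono_null h h1)
  have ha1' : ‖a‖ < δ / 4 := by simpa using ha1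
  have hQG : ∀ y, ‖Q y - a - G y‖ ≤ δ / 2 := by
    intro y
    have h1 : ‖Q y - G y‖ < δ / 4 := by rw [← dist_eq_norm]; exact hQ2 y
    have h2 : Q y - a - G y = (Q y - G y) - a := by abel
    rw [h2]
    linarith [norm_sub_le (Q y - G y) a]
  have hne : ∀ x ∈ closedBall (0 : F) R, 0 < ‖f x - c‖ := by
    intro x hx
    rw [norm_pos_iff, sub_ne_zero]
    intro h
    exact hc2 ⟨x, hx, h⟩
  set Φ : F → F := fun x => c + max (ε / ‖f x - c‖) 1 • (f x - c) with hΦ
  have hΦc : ContinuousOn Φ (closedBall (0 : F) R) := by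
    have h1 : ContinuousOn (fun x => f x - c) (closedBall (0 : F) R) := hc.sub continuousOn_const
    have h2 : ContinuousOn (fun x => ε / ‖f x - c‖) (closedBall (0 : F) R) :=
      continuousOn_const.div h1.norm (fun x hx => (hne x hx).ne')
    exact continuousOn_const.add ((h2.sup continuousOn_const).smul h1)
  have hΦ1 : ∀ x ∈ closedBall (0 : F) R, ε ≤ ‖f x - c‖ → Φ x = f x := by
    intro x hx h
    have h1 : ε / ‖f x - c‖ ≤ 1 := (div_le_one (hne x hx)).2 h
    simp only [hΦ, max_eq_right h1, one_smul, add_sub_cancel]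
  have hΦ2 : ∀ x ∈ closedBall (0 : F) R, ‖f x - c‖ < ε → Φ x ∈ sphere c ε := by
    intro x hx h
    have h0 := hne x hx
    have h1 : 1 ≤ ε / ‖f x - c‖ := (one_le_div h0).2 h.le
    rw [mem_sphere, dist_eq_norm]
    simp only [hΦ, max_eq_left h1, add_sub_cancel_left]
    rw [norm_smul, Real.norm_of_nonneg (by positivity)]
    field_simp
  obtain ⟨x, hx, hfx⟩ := Pool.Agent.Shared.Brouwer.brouwer hR (fun x => x - (Q (Φ x) - a))
    (continuousOn_id.sub ((hQ1.continuous.comp_continuousOn hΦc).sub continuousOn_const)) (by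
      intro x hx
      rw [mem_closedBall, dist_zero_right, norm_sub_rev]
      rcases le_or_gt ε ‖f x - c‖ with h | h
      · have := hQG (f x)
        rw [hGf x hx] at this
        rw [hΦ1 x hx h]
        linarith
      · have h1 : ‖x‖ < R / 10 := by
          rw [← hGf x hx]
          refine hsm _ ?_
          rw [← dist_eq_norm] at h
          linarith [dist_triangle (f x) c (f 0)]
        have h2 : ‖G (Φ x)‖ < R / 10 := by
          refine hsm _ ?_
          have := mem_sphere.1 (hΦ2 x hx h)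
          linarith [dist_triangle (Φ x) c (f 0)]
        have h3 := hQG (Φ x)
        have h4 : Q (Φ x) - a - x = (Q (Φ x) - a - G (Φ x)) + G (Φ x) - x := by abel
        rw [h4]
        linarith [norm_sub_le ((Q (Φ x) - a - G (Φ x)) + G (Φ x)) x,
          norm_add_le (Q (Φ x) - a - G (Φ x)) (G (Φ x))])
  have hz : Q (Φ x) - a = 0 := by simpa using hfx
  rcases le_or_gt ε ‖f x - c‖ with h | h
  · have h1 := hδ1 (f x) ⟨⟨x, hx, rfl⟩, h⟩
    have h2 := hQG (f x)
    rw [hΦ1 x hx h] at hz
    rw [hz, zero_sub, norm_neg] at h2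
    linarith
  · exact ha2 ⟨Φ x, hΦ2 x hx h, sub_eq_zero.1 hz⟩

theorem inv_domain {F : Type} [NormedAddCommGroup F] [InnerProductSpace ℝ F]
    [FiniteDimensional ℝ F]
    {V : Set F} (hV : IsOpen V) {f : F → F} (hc : ContinuousOn f V) (hi : InjOn f V) :
    IsOpen (f '' V) := by
  rw [isOpen_iff_mem_nhds]
  rintro _ ⟨x0, hx0, rfl⟩
  obtain ⟨R, hR, hRV⟩ := Metric.nhds_basis_closedBall.mem_iff.1 (hV.mem_nhds hx0)
  have hm : MapsTo (fun x => x0 + x) (closedBall (0 : F) R) V := by
    intro x hx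
    refine hRV ?_
    simpa [mem_closedBall, dist_eq_norm] using hx
  have h := inv_domain_core hR (f := fun x => f (x0 + x))
    (hc.comp (by fun_prop) hm) (fun x hx y hy hxy => add_left_cancel (hi (hm hx) (hm hy) hxy))
  simp only [add_zero] at h
  refine mem_of_superset h ?_
  rintro _ ⟨x, hx, rfl⟩
  exact ⟨x0 + x, hm hx, rfl⟩

end Pool.Agent.Lib.MP_ecd4e3_gt
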