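import Pool.Agent.Lib.MP_ecd4e3_gt.BoxG

/-! The area functional of boxes and straight cuts with prescribed area. -/

namespace Pool.Agent.Lib.MP_ecd4e3_gt

open Set Filter Topology

namespace AreaAux

theorem cont {g : ℝ → ℝ} (h : LipE g) : Continuous g :=
  (LipschitzWith.of_dist_le' (K := eps) fun u v => h u v).continuous

theorem int_map {g : ℝ → ℝ} (hg : Continuous g) {s : ℝ} (hs : s ≠ 0) (v c a b : ℝ) :
    ∫ u in (s * a + v)..(s * b + v), (s * g ((u - v) / s) + c) =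
      s ^ 2 * (∫ u in a..b, g u) + c * s * (b - a) := by
  rw [← intervalIntegral.smul_integral_comp_mul_add (fun u => s * g ((u - v) / s) + c) s v]
  simp only [add_sub_cancel_right, mul_div_cancel_left₀ _ hs]
  rw [intervalIntegral.integral_add ((hg.const_mul s).intervalIntegrable _ _)
    intervalIntegrable_const, intervalIntegral.integral_const_mul, intervalIntegral.integral_const]
  simp only [smul_eq_mul]
  ring

theorem abs_sub_le {g : ℝ → ℝ} (h : LipE g) {a b : ℝ} (hab : a ≤ b) :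
    |g b - g a| ≤ eps * (b - a) := by
  have := h b a
  rwa [abs_of_nonneg (sub_nonneg.2 hab)] at this

theorem trap {g : ℝ → ℝ} (h : LipE g) {a b : ℝ} (hab : a ≤ b) :
    |(∫ u in a..b, g u) - (b - a) * (g a + g b) / 2| ≤ eps * (b - a) ^ 2 / 2 := by
  have h1 := intervalIntegral.norm_integral_le_of_norm_le_const (a := a) (b := b)
    (f := fun u => g u - (g a + g b) / 2) (C := eps * (b - a) / 2) fun u hu => by
      rw [uIoc_of_le hab] at hu
      have h2 := abs_le.1 (abs_sub_le h hu.1.le)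
      have h3 := abs_le.1 (abs_sub_le h hu.2)
      rw [Real.norm_eq_abs, abs_le]
      constructor <;> linarith [h2.1, h2.2, h3.1, h3.2]
  rw [intervalIntegral.integral_sub ((cont h).intervalIntegrable _ _) intervalIntegrable_const,
    intervalIntegral.integral_const, abs_of_nonneg (sub_nonneg.2 hab), Real.norm_eq_abs,
    smul_eq_mul, ← mul_div_assoc] at h1
  linarith

theorem aff_int {g : ℝ → ℝ} {a b : ℝ} (h : Aff g a b) (hab : a < b) :
    ∫ u in a..b, g u = (b - a) * (g a + g b) / 2 := by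
  have h0 : b - a ≠ 0 := (sub_pos.2 hab).ne'
  rw [intervalIntegral.integral_congr
    (g := fun u => (g b - g a) / (b - a) * u + (b * g a - a * g b) / (b - a)) fun u hu => by
      rw [uIcc_of_le hab.le] at hu
      have := h u hu
      field_simp
      linarith]
  rw [intervalIntegral.integral_add ((continuous_id'.const_mul _).intervalIntegrable _ _)
    intervalIntegrable_const, intervalIntegral.integral_const_mul, intervalIntegral.integral_const,
    integral_id, smul_eq_mul]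
  field_simp
  ring

theorem flat_sub {g : ℝ → ℝ} {a b c d : ℝ} (h : Flat g a b) (hc : a ≤ c) (hd : d ≤ b) :
    Flat g c d := fun u hu =>
  (h u ⟨hc.trans hu.1, hu.2.trans hd⟩).trans (h c ⟨hc, hu.1.trans (hu.2.trans hd)⟩).symm

theorem ite_le {p q : Prop} [Decidable p] [Decidable q] (h : p → q) {X Y : ℝ} (hX : X ≤ Y)
    (hY : 0 ≤ Y) : (if q then 0 else X) ≤ if p then 0 else Y := by
  by_cases hq : q
  · rw [if_pos hq]; split_ifs <;> linarith
  · rw [if_neg hq, if_neg fun hp => hq (h hp)]; exact hX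

/-- The corner equations control the skew of a box. -/
theorem skew {R : Box} (h : R.Pre) :
    |R.a1 + R.b3| ≤ eps * R.l0 ∧ |R.a2 + R.b0| ≤ eps * R.l1 ∧ |R.a3 + R.b1| ≤ eps * R.l2 ∧
      |R.a0 + R.b2| ≤ eps * R.l3 := by
  have h0 := abs_sub_le h.e0 h.p0.le
  have h1 := abs_sub_le h.e1 h.p1.le
  have h2 := abs_sub_le h.e2 h.p2.le
  have h3 := abs_sub_le h.e3 h.p3.le
  rw [← h.d01, sub_eq_add_neg, ← h.c30] at h0
  rw [← h.d12, sub_eq_add_neg, ← h.c01] at h1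
  rw [← h.d23, sub_eq_add_neg, ← h.c12] at h2
  rw [← h.d30, sub_eq_add_neg, ← h.c23] at h3
  exact ⟨h0, h1, h2, h3⟩

theorem pos {R : Box} (h : R.Pre) : 0 < R.l0 ∧ 0 < R.l1 ∧ 0 < R.l2 ∧ 0 < R.l3 :=
  ⟨sub_pos.2 h.p0, sub_pos.2 h.p1, sub_pos.2 h.p2, sub_pos.2 h.p3⟩

theorem wh_pos {R : Box} (h : R.Pre) : 0 < R.w ∧ 0 < R.h := by
  obtain ⟨h0, h1, h2, h3⟩ := pos h
  exact ⟨by rw [Box.w]; linarith, by rw [Box.h]; linarith⟩

/-- Opposite sides have almost the same extent. -/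
theorem near {R : Box} (h : R.Pre) :
    |R.l1 - R.h| ≤ eps * R.w ∧ |R.l3 - R.h| ≤ eps * R.w := by
  obtain ⟨h0, -, h2, -⟩ := skew h
  rw [abs_le] at h0 h2
  simp only [Box.h, Box.w, Box.l1, Box.l3, abs_le]
  refine ⟨⟨?_, ?_⟩, ?_, ?_⟩ <;> linarith [h0.1, h0.2, h2.1, h2.2]

end AreaAux

open AreaAux

namespace Box

theorem rot_area (R : Box) : R.rot.area = R.area := by
  simp only [area, rot]
  ring

theorem rot_sz (R : Box) : R.rot.sz = R.sz := by
  rw [sz, rot_area, sz]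

theorem Pre.hom_area {R : Box} (h : R.Pre) {s : ℝ} (hs : 0 < s) :
    (R.hom s).area = s ^ 2 * R.area := by
  rw [Box.hom]
  generalize (1 - s) • R.ctr = v
  have h0 := int_map (cont h.e0) hs.ne' v.1 v.2 R.a0 R.b0
  have h1 := int_map (cont h.e1) hs.ne' v.2 (-v.1) R.a1 R.b1
  have h2 := int_map (cont h.e2) hs.ne' (-v.1) (-v.2) R.a2 R.b2
  have h3 := int_map (cont h.e3) hs.ne' (-v.2) v.1 R.a3 R.b3
  simp only [← sub_eq_add_neg, sub_neg_eq_add] at h1 h2 h3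
  simp only [area, map]
  rw [h0, h1, h2, h3]
  ring

theorem IsCut.area {R : Box} {c : ℝ → ℝ} {xb yb xt yt : ℝ} (hR : R.Pre)
    (h : R.IsCut c xb yb xt yt) :
    (R.cutL c xb yb xt yt).area + (R.cutR c xb yb xt yt).area = R.area := by
  have h0 := intervalIntegral.integral_add_adjacent_intervals
    ((cont hR.e0).intervalIntegrable (μ := MeasureTheory.volume) R.a0 xb)
    ((cont hR.e0).intervalIntegrable xb R.b0)
  have h2 := intervalIntegral.integral_add_adjacent_intervals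
    ((cont hR.e2).intervalIntegrable (μ := MeasureTheory.volume) R.a2 (-xt))
    ((cont hR.e2).intervalIntegrable (-xt) R.b2)
  simp only [Box.area, cutL, cutR, intervalIntegral.integral_neg,
    intervalIntegral.integral_comp_neg, neg_neg]
  rw [← h0, ← h2]
  ring

theorem Pre.area_err {R : Box} (h : R.Pre) :
    |R.area - R.w * R.h| ≤ eps * (R.l0 ^ 2 + R.l1 ^ 2 + R.l2 ^ 2 + R.l3 ^ 2) / 2
      + eps ^ 2 * (R.w * R.h) := by
  have h0 := abs_le.1 (trap h.e0 h.p0.le)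
  have h1 := abs_le.1 (trap h.e1 h.p1.le)
  have h2 := abs_le.1 (trap h.e2 h.p2.le)
  have h3 := abs_le.1 (trap h.e3 h.p3.le)
  rw [← h.d01, ← neg_neg (R.g0 R.a0), ← h.c30] at h0
  rw [← h.d12, ← neg_neg (R.g1 R.a1), ← h.c01] at h1
  rw [← h.d23, ← neg_neg (R.g2 R.a2), ← h.c12] at h2
  rw [← h.d30, ← neg_neg (R.g3 R.a3), ← h.c23] at h3
  obtain ⟨k0, k1, k2, k3⟩ := skew h
  have h4 : |(R.a1 + R.b3 + (R.a3 + R.b1)) * (R.a2 + R.b0 + (R.a0 + R.b2))| ≤
      (eps * R.l0 + eps * R.l2) * (eps * R.l1 + eps * R.l3) := by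
    rw [abs_mul]
    exact mul_le_mul ((abs_add_le _ _).trans (add_le_add k0 k2))
      ((abs_add_le _ _).trans (add_le_add k1 k3)) (abs_nonneg _)
      (add_nonneg ((abs_nonneg _).trans k0) ((abs_nonneg _).trans k2))
  rw [abs_le] at h4 ⊢
  simp only [area, Box.w, Box.h, l0, l1, l2, l3] at h4 ⊢
  constructor <;> linarith [h0.1, h0.2, h1.1, h1.2, h2.1, h2.2, h3.1, h3.2, h4.1, h4.2]

theorem Pre.area_err' {R : Box} (h : R.Pre) :
    |R.area - R.w * R.h| ≤ 2 * eps * (R.w ^ 2 + R.h ^ 2) + eps ^ 2 * (R.w * R.h) := by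
  refine h.area_err.trans (add_le_add ?_ le_rfl)
  obtain ⟨h0, h1, h2, h3⟩ := pos h
  have h4 := mul_pos h0 h2
  have h5 := mul_pos h1 h3
  rw [Box.w, Box.h, eps]
  linarith

theorem Valid.area {R : Box} (h : R.Valid) : |R.area - R.w * R.h| ≤ R.w * R.h / 1000 := by
  refine h.1.area_err'.trans ?_
  obtain ⟨hw, hh⟩ := wh_pos h.1
  have h1 := mul_le_mul_of_nonneg_left h.2.1 hw.le
  have h2 := mul_le_mul_of_nonneg_left h.2.2 hh.le
  have h3 := mul_pos hw hh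
  rw [eps]
  linarith

theorem Valid.sz_bd {R : Box} (h : R.Valid) :
    0 < R.sz ∧ 9 / 10 * R.mu ≤ R.sz ∧ R.sz ≤ 5 * R.mu ∧ R.sz ^ 2 = R.area := by
  obtain ⟨hw, hh⟩ := wh_pos h.1
  have h1 := abs_le.1 h.area
  have h2 := mul_pos hw hh
  have h3 : R.mu ^ 2 ≤ R.w * R.h := by
    rw [_root_.sq]
    exact mul_le_mul (min_le_left _ _) (min_le_right _ _) h.mu_pos.le hw.le
  have h4 : R.w * R.h ≤ 20 * R.mu ^ 2 := by
    rw [mu]
    rcases le_total R.w R.h with h5 | h5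
    · rw [min_eq_left h5]
      linarith [mul_le_mul_of_nonneg_left h.2.2 hw.le]
    · rw [min_eq_right h5]
      linarith [mul_le_mul_of_nonneg_left h.2.1 hh.le]
  have h5 := h.mu_pos
  have h6 := sq_nonneg R.mu
  exact ⟨Real.sqrt_pos.2 (by linarith [h1.1]), Real.le_sqrt_of_sq_le (by linarith [h1.1]),
    Real.sqrt_le_iff.2 ⟨by linarith, by linarith [h1.2]⟩, Real.sq_sqrt (by linarith [h1.1])⟩

theorem Valid.shr {R : Box} (h : R.Valid) {d : ℝ} (hd : 0 ≤ d) (hd' : 2 * d ≤ R.sz) :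
    (R.shr d).Valid ∧ (R.shr d).sz = R.sz - d ∧ (R.shr d).phi = R.phi ∧
      (R.shr d).drop = R.drop := by
  have h0 := h.sz_bd.1
  have hs : 0 < 1 - d / R.sz := by
    rw [sub_pos, div_lt_one h0]; linarith
  refine ⟨h.hom hs, ?_, hom_phi R hs, hom_drop R hs⟩
  rw [Box.shr, sz, h.1.hom_area hs, Real.sqrt_mul (sq_nonneg _), Real.sqrt_sq hs.le]
  change (1 - d / R.sz) * R.sz = R.sz - d
  field_simp

/-- The area of a pentagon. -/
theorem Pent.area {R : Box} (hR : R.Pre) (h : R.Pent) :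
    R.area = (R.l0 + R.l2) * (R.l1 + R.l3) / 4
      + (R.a1 + R.b1 + R.a3 + R.b3) * (R.a0 + R.b0 + R.a2 + R.b2) / 4 - R.kink * R.l0 / 2 := by
  have hp := hR.p0
  have h0 := intervalIntegral.integral_add_adjacent_intervals
    ((cont hR.e0).intervalIntegrable (μ := MeasureTheory.volume) R.a0 R.mid)
    ((cont hR.e0).intervalIntegrable R.mid R.b0)
  rw [aff_int h.1 (by rw [mid]; linarith), aff_int h.2.1 (by rw [mid]; linarith)] at h0
  have h1 := aff_int h.2.2.1 hR.p1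
  have h2 := aff_int h.2.2.2.1 hR.p2
  have h3 := aff_int h.2.2.2.2 hR.p3
  rw [← hR.d01, ← neg_neg (R.g0 R.a0), ← hR.c30] at h0
  rw [← hR.d12, ← neg_neg (R.g1 R.a1), ← hR.c01] at h1
  rw [← hR.d23, ← neg_neg (R.g2 R.a2), ← hR.c12] at h2
  rw [← hR.d30, ← neg_neg (R.g3 R.a3), ← hR.c23] at h3
  rw [Box.area, ← h0, h1, h2, h3, kink]
  generalize R.g0 R.mid = y
  simp only [l0, l1, l2, l3, mid]
  ring

/-- Dimensions of a piece of a wide box. -/
theorem Pre.piece {Q : Box} (hQ : Q.Pre) {w h l : ℝ} (h0 : 0 < h) (h1 : h ≤ w) (h2 : w ≤ 20 * h)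
    (h3 : Q.w ≤ w) (h4 : |l - h| ≤ eps * w) (h5 : |l - Q.h| ≤ eps * Q.w) :
    |Q.h - h| ≤ h / 2500 ∧ |Q.area - Q.w * h| ≤ w * h / 1000 := by
  obtain ⟨hw, hh⟩ := wh_pos hQ
  have h6 := hQ.area_err'
  rw [eps, abs_le] at h4 h5 h6
  have h7 : Q.h - h ≤ h / 2500 := by linarith [h4.2, h5.1]
  have h8 : -(h / 2500) ≤ Q.h - h := by linarith [h4.1, h5.2]
  refine ⟨abs_le.2 ⟨h8, h7⟩, ?_⟩
  have k1 : Q.w ^ 2 ≤ 20 * (w * h) := by
    rw [_root_.sq]
    linarith [mul_le_mul h3 (h3.trans h2) hw.le (by linarith)]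
  have k2 : Q.h ^ 2 ≤ 2 * (w * h) := by
    rw [_root_.sq]
    linarith [mul_le_mul (show Q.h ≤ 5 / 4 * w by linarith) (show Q.h ≤ 5 / 4 * h by linarith)
      hh.le (by linarith), mul_pos (h0.trans_le h1) h0]
  have k3 : Q.w * Q.h ≤ 2 * (w * h) := by
    linarith [mul_le_mul h3 (show Q.h ≤ 2 * h by linarith) hh.le (by linarith)]
  have k4 := mul_le_mul_of_nonneg_left h7 hw.le
  have k5 := mul_le_mul_of_nonneg_left h8 hw.le
  have k6 := mul_le_mul_of_nonneg_right h3 h0.le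
  have k7 := mul_pos (h0.trans_le h1) h0
  rw [abs_le]
  constructor <;> linarith [h6.1, h6.2]

/-- Shape of a piece whose area is not extreme. -/
theorem Pre.shape {Q : Box} (hQ : Q.Pre) {w h A : ℝ} (h0 : 0 < h) (h1 : h ≤ w) (h2 : w ≤ 20 * h)
    (h3 : |Q.h - h| ≤ h / 2500) (h4 : |Q.area - Q.w * h| ≤ w * h / 1000)
    (h5 : |A - w * h| ≤ w * h / 1000) (h6 : A / 16 ≤ Q.area) (h7 : Q.area ≤ 15 / 16 * A) :
    Q.Asp 19 ∧ Q.w / Q.h ≤ 19 / 20 * (w / h) ∧ Q.h / Q.w ≤ 20 := by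
  obtain ⟨hw, hh⟩ := wh_pos hQ
  rw [abs_le] at h3 h4 h5
  have k7 := mul_pos (h0.trans_le h1) h0
  have k1 : Q.w ≤ 47 / 50 * w := le_of_mul_le_mul_right (by linarith [h4.1, h5.2]) h0
  have k2 : 3 / 50 * w ≤ Q.w := le_of_mul_le_mul_right (by linarith [h4.2, h5.1]) h0
  refine ⟨⟨by linarith [h3.1], by linarith [h3.2]⟩, ?_, ?_⟩
  · rw [← mul_div_assoc, div_le_div_iff₀ hh h0]
    linarith [mul_le_mul_of_nonneg_right k1 h0.le,
      mul_le_mul_of_nonneg_left h3.1 (h0.trans_le h1).le]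
  · rw [div_le_iff₀ hw]
    linarith [h3.2]

theorem Valid.vcut {R : Box} (h : R.Valid) (hw : R.h ≤ R.w) {x : ℝ}
    (hx : x ∈ Icc (R.a0 + R.l0 / 40) (R.b0 - R.l0 / 40)) {L Q : Box}
    (hL : L = R.cutL (fun _ => x) x (R.g0 x) x (-R.g2 (-x)))
    (hQ : Q = R.cutR (fun _ => x) x (R.g0 x) x (-R.g2 (-x))) :
    R.IsCut (fun _ => x) x (R.g0 x) x (-R.g2 (-x)) ∧ L.Pre ∧ Q.Pre ∧ L.area + Q.area = R.area ∧
      (|L.h - R.h| ≤ R.h / 2500 ∧ |L.area - L.w * R.h| ≤ R.w * R.h / 1000) ∧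
      |Q.h - R.h| ≤ R.h / 2500 ∧ |Q.area - Q.w * R.h| ≤ R.w * R.h / 1000 := by
  have hc : R.IsCut (fun _ => x) x (R.g0 x) x (-R.g2 (-x)) :=
    ⟨fun u v => by rw [sub_self, abs_zero, eps]; positivity, rfl, rfl, rfl, neg_neg _, hx.1, hx.2⟩
  obtain ⟨p1, p2⟩ := hc.pre h
  have ha := hc.area h.1
  rw [← hL] at p1
  rw [← hQ] at p2
  rw [← hL, ← hQ] at ha
  have hs : L.w + Q.w = R.w := by
    simp only [hL, hQ, Box.w, l0, l2, cutL, cutR]
    ring
  have e3 : L.l3 = R.l3 := by rw [hL]; rfl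
  have e1 : Q.l1 = R.l1 := by rw [hQ]; rfl
  exact ⟨hc, p1, p2, ha,
    p1.piece (wh_pos h.1).2 hw h.2.1 (by linarith [(wh_pos p2).1]) (near h.1).2
      (e3 ▸ (near p1).2),
    p2.piece (wh_pos h.1).2 hw h.2.1 (by linarith [(wh_pos p1).1]) (near h.1).1
      (e1 ▸ (near p2).1)⟩

theorem Valid.exists_cut {R : Box} (h : R.Valid) (hw : R.h ≤ R.w) {a : ℝ} (h1 : R.area / 16 ≤ a)
    (h2 : a ≤ 15 / 16 * R.area) : ∃ x ∈ Icc (R.a0 + R.l0 / 40) (R.b0 - R.l0 / 40),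
      (R.cutL (fun _ => x) x (R.g0 x) x (-R.g2 (-x))).area = a := by
  obtain ⟨p0, p1, p2, p3⟩ := pos h.1
  obtain ⟨w0, h0⟩ := wh_pos h.1
  obtain ⟨-, k1, -, k3⟩ := skew h.1
  have hab : R.a0 + R.l0 / 40 ≤ R.b0 - R.l0 / 40 := by
    rw [l0] at p0 ⊢; linarith
  have c0 := cont h.1.e0
  have c2 := cont h.1.e2
  have i0 := intervalIntegral.continuous_primitive
    (fun a b => c0.intervalIntegrable (μ := MeasureTheory.volume) a b) R.a0
  have i2 := (intervalIntegral.continuous_primitive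
    (fun a b => c2.intervalIntegrable (μ := MeasureTheory.volume) a b) R.b2).comp continuous_neg
  have hc : Continuous fun x => (R.cutL (fun _ => x) x (R.g0 x) x (-R.g2 (-x))).area := by
    simp only [Box.area, cutL, intervalIntegral.integral_const,
      intervalIntegral.integral_symm R.b2]
    exact Continuous.sub (by fun_prop) (((i0.add (by fun_prop)).add i2.neg).add continuous_const)
  have hA := abs_le.1 h.area
  have hp := mul_pos w0 h0
  have hl : R.l0 ≤ 2 * R.w ∧ R.l1 ≤ 2 * R.w ∧ R.l3 ≤ 2 * R.w := by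
    rw [Box.h] at hw
    exact ⟨by rw [Box.w]; linarith, by linarith, by linarith⟩
  rw [eps, abs_le] at k1 k3
  refine intermediate_value_Icc hab hc.continuousOn ⟨le_trans ?_ h1, h2.trans ?_⟩
  · obtain ⟨-, -, -, -, ⟨-, q⟩, -⟩ := h.vcut hw (left_mem_Icc.2 hab) rfl rfl
    have q1 : (R.cutL (fun _ => R.a0 + R.l0 / 40) (R.a0 + R.l0 / 40) (R.g0 (R.a0 + R.l0 / 40))
        (R.a0 + R.l0 / 40) (-R.g2 (-(R.a0 + R.l0 / 40)))).w ≤ 3 / 50 * R.w := by
      change (R.a0 + R.l0 / 40 - R.a0 + (R.b2 - -(R.a0 + R.l0 / 40))) / 2 ≤ _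
      linarith [k3.2, hl.1, hl.2.2]
    linarith [(abs_le.1 q).2, mul_le_mul_of_nonneg_right q1 h0.le, hA.1]
  · obtain ⟨-, -, -, q0, -, -, q⟩ := h.vcut hw (right_mem_Icc.2 hab) rfl rfl
    have q1 : (R.cutR (fun _ => R.b0 - R.l0 / 40) (R.b0 - R.l0 / 40) (R.g0 (R.b0 - R.l0 / 40))
        (R.b0 - R.l0 / 40) (-R.g2 (-(R.b0 - R.l0 / 40)))).w ≤ 3 / 50 * R.w := by
      change (R.b0 - (R.b0 - R.l0 / 40) + (-(R.b0 - R.l0 / 40) - R.a2)) / 2 ≤ _
      linarith [k1.1, hl.1, hl.2.1]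
    linarith [(abs_le.1 q).2, mul_le_mul_of_nonneg_right q1 h0.le, hA.1]

/-- Vertical cuts with prescribed area. -/
theorem Valid.hcut {R : Box} (h : R.Valid) (hw : R.h ≤ R.w) :
    ∃ φ1 φ2 : ℝ, 0 ≤ φ1 ∧ φ1 ≤ 16 / 3 ∧ 0 ≤ φ2 ∧ φ2 ≤ 16 / 3 ∧
      (∀ X1 X2 : ℝ, 0 ≤ X1 → 0 ≤ X2 →
        φ1 * X1 + φ2 * X2 ≤ (R.phi - R.drop) * (X1 + X2) ∨
        φ1 * X2 + φ2 * X1 ≤ (R.phi - R.drop) * (X1 + X2)) ∧
      ∀ a, R.area / 16 ≤ a → a ≤ 15 / 16 * R.area → ∃ x yb yt,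
        R.IsCut (fun _ => x) x yb x yt ∧ (R.cutL (fun _ => x) x yb x yt).area = a ∧
        (R.cutL (fun _ => x) x yb x yt).Asp 19 ∧ (R.cutR (fun _ => x) x yb x yt).Asp 19 ∧
        (R.cutL (fun _ => x) x yb x yt).phi ≤ φ1 ∧ (R.cutR (fun _ => x) x yb x yt).phi ≤ φ2 := by
  classical
  obtain ⟨w0, h0⟩ := wh_pos h.1
  have t1 : 1 ≤ R.w / R.h := (one_le_div h0).2 hw
  have t2 : R.w / R.h ≤ 20 := (div_le_iff₀ h0).2 h.2.1
  have t3 : 0 < R.h / R.w := div_pos h0 w0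
  obtain ⟨B, hB⟩ : ∃ B : ℝ, B =
    (if Flat R.g0 R.a0 R.b0 then 0 else 1 + 19 / 20 * (R.w / R.h) / 60) +
      if Flat R.g2 R.a2 R.b2 then 0 else 1 + 19 / 20 * (R.w / R.h) / 60 := ⟨_, rfl⟩
  have B0 : 0 ≤ B ∧ B ≤ 4 := by
    rw [hB]; split_ifs <;> constructor <;> linarith
  refine ⟨B + if Flat R.g3 R.a3 R.b3 then 0 else 4 / 3,
    B + if Flat R.g1 R.a1 R.b1 then 0 else 4 / 3, ?_, ?_, ?_, ?_, fun X1 X2 x1 x2 => ?_,
    fun a h1 h2 => ?_⟩
  · split_ifs <;> linarith [B0.1]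
  · split_ifs <;> linarith [B0.2]
  · split_ifs <;> linarith [B0.1]
  · split_ifs <;> linarith [B0.2]
  · have k : B + (if Flat R.g1 R.a1 R.b1 then 0 else 2 / 3) +
        (if Flat R.g3 R.a3 R.b3 then 0 else 2 / 3) ≤ R.phi - R.drop := by
      rw [hB, phi, drop, Rect]
      by_cases f0 : Flat R.g0 R.a0 R.b0 <;> by_cases f1 : Flat R.g1 R.a1 R.b1 <;>
        by_cases f2 : Flat R.g2 R.a2 R.b2 <;> by_cases f3 : Flat R.g3 R.a3 R.b3 <;>
        simp only [f0, f1, f2, f3, if_true, if_false, and_self, and_true, and_false] <;> linarith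
    have k' := mul_le_mul_of_nonneg_right k (add_nonneg x1 x2)
    rcases le_total X1 X2 with hX | hX <;> split_ifs at k' ⊢ <;>
      first | (left; linarith) | (right; linarith)
  · obtain ⟨x, hx, ha⟩ := h.exists_cut hw h1 h2
    obtain ⟨hc, p1, p2, q0, ⟨q1, q2⟩, q3, q4⟩ := h.vcut hw hx rfl rfl
    obtain ⟨r1, r2, r3⟩ := p1.shape h0 hw h.2.1 q1 q2 h.area (by linarith) (by linarith)
    obtain ⟨r4, r5, r6⟩ := p2.shape h0 hw h.2.1 q3 q4 h.area (by linarith) (by linarith)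
    refine ⟨x, _, _, hc, ha, r1, r4, ?_, ?_⟩
    · rw [phi, hB, if_pos (show Flat (R.cutL _ _ _ _ _).g1 _ _ from fun _ _ => rfl), add_zero]
      exact add_le_add (add_le_add
        (ite_le (fun f => flat_sub f le_rfl p2.p0.le) (by linarith) (by linarith))
        (ite_le (fun f => flat_sub f p2.p2.le le_rfl) (by linarith) (by linarith)))
        (ite_le id (by linarith) (by norm_num))
    · rw [phi, hB, if_pos (show Flat (R.cutR _ _ _ _ _).g3 _ _ from fun _ _ => rfl), add_zero,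
        add_right_comm]
      exact add_le_add (add_le_add
        (ite_le (fun f => flat_sub f p1.p0.le le_rfl) (by linarith) (by linarith))
        (ite_le (fun f => flat_sub f le_rfl p1.p2.le) (by linarith) (by linarith)))
        (ite_le id (by linarith) (by norm_num))

end Box

theorem sbox_area (s : ℝ) : (sbox s).area = 4 * s ^ 2 := by
  simp only [Box.area, sbox, intervalIntegral.integral_const, smul_eq_mul]
  ring

end Pool.Agent.Lib.MP_ecd4e3_gt
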