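import Pool.Agent.Lib.MP_ecd4e3_gt.Lipc

/-! Geometry of boxes: loops, rotation, homotheties, the fan property, cuts. -/

namespace Pool.Agent.Lib.MP_ecd4e3_gt

open Set Filter Topology

theorem per4_add_one (s0 s1 s2 s3 : ℝ → P) (t : ℝ) :
    per4 s0 s1 s2 s3 (t + 1) = per4 s1 s2 s3 s0 t := by
  simp only [per4, Int.floor_add_one, Int.fract_add_one]
  have h : ⌊t⌋ % 4 = 0 ∨ ⌊t⌋ % 4 = 1 ∨ ⌊t⌋ % 4 = 2 ∨ ⌊t⌋ % 4 = 3 := by omega
  rcases h with h | h | h | h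
  · have h' : (⌊t⌋ + 1) % 4 = 1 := by omega
    simp [h, h']
  · have h' : (⌊t⌋ + 1) % 4 = 2 := by omega
    simp [h, h']
  · have h' : (⌊t⌋ + 1) % 4 = 3 := by omega
    simp [h, h']
  · have h' : (⌊t⌋ + 1) % 4 = 0 := by omega
    simp [h, h']

theorem per4_eval {s0 s1 s2 s3 : ℝ → P} (h : s0 1 = s1 (-1)) {u : ℝ} (hu : u ∈ Icc (-1 : ℝ) 1) :
    per4 s0 s1 s2 s3 ((u + 1) / 2) = s0 u := by
  rcases hu.2.eq_or_lt with h1 | h1
  · subst h1
    have e : ((1 : ℝ) + 1) / 2 = 1 := by norm_num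
    rw [e, h]
    simp [per4]
  · have hf : ⌊(u + 1) / 2⌋ = 0 := by
      rw [Int.floor_eq_iff]
      constructor <;> push_cast <;> linarith [hu.1]
    have hr : Int.fract ((u + 1) / 2) = (u + 1) / 2 := by
      rw [Int.fract, hf]; simp
    simp only [per4, hf, hr]
    rw [if_pos (by norm_num)]
    congr 1
    ring

theorem LipE.ab {g : ℝ → ℝ} (h : LipE g) (u v M : ℝ) (h1 : u - v ≤ M) (h2 : v - u ≤ M) :
    g u ≤ g v + M / 100000 ∧ g v ≤ g u + M / 100000 := by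
  have h3 : |u - v| ≤ M := abs_sub_le_iff.2 ⟨h1, h2⟩
  have h4 := abs_sub_le_iff.1 (h u v)
  simp only [eps] at h4
  constructor <;> linarith [h4.1, h4.2]

theorem J_add (p q : P) : J (p + q) = J p + J q := by
  simp only [J, Prod.fst_add, Prod.snd_add, Prod.mk_add_mk, neg_add]

theorem J_sub (p q : P) : J (p - q) = J p - J q := by
  simp only [J, Prod.fst_sub, Prod.snd_sub, Prod.mk_sub_mk]
  congr 1
  ring

theorem J_smul (s : ℝ) (p : P) : J (s • p) = s • J p := by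
  simp [J]

theorem le_dist_fst (p q : P) : p.1 - q.1 ≤ dist p q ∧ q.1 - p.1 ≤ dist p q := by
  have : |p.1 - q.1| ≤ dist p q := by
    rw [Prod.dist_eq, ← Real.dist_eq]; exact le_max_left _ _
  exact abs_sub_le_iff.1 this

theorem le_dist_snd (p q : P) : p.2 - q.2 ≤ dist p q ∧ q.2 - p.2 ≤ dist p q := by
  have : |p.2 - q.2| ≤ dist p q := by
    rw [Prod.dist_eq, ← Real.dist_eq]; exact le_max_right _ _
  exact abs_sub_le_iff.1 this

theorem dist_le_of {p q : P} {M : ℝ} (h1 : p.1 - q.1 ≤ M) (h2 : q.1 - p.1 ≤ M)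
    (h3 : p.2 - q.2 ≤ M) (h4 : q.2 - p.2 ≤ M) : dist p q ≤ M := by
  rw [Prod.dist_eq, Real.dist_eq, Real.dist_eq]
  exact max_le (abs_sub_le_iff.2 ⟨h1, h2⟩) (abs_sub_le_iff.2 ⟨h3, h4⟩)

theorem flat_map {g g' : ℝ → ℝ} {s c d a b a' b' : ℝ} (hs : 0 < s)
    (hg : ∀ u, g' (s * u + c) = s * g u + d) (ha : a' = s * a + c) (hb : b' = s * b + c) :
    Flat g' a' b' ↔ Flat g a b := by
  subst ha hb
  constructor
  · intro h u hu
    have := h (s * u + c) ⟨by nlinarith [hu.1], by nlinarith [hu.2]⟩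
    rw [hg, hg] at this
    exact mul_left_cancel₀ hs.ne' (by linarith)
  · intro h u hu
    have e : u = s * ((u - c) / s) + c := by field_simp; ring
    have hm : (u - c) / s ∈ Icc a b :=
      ⟨by rw [le_div_iff₀ hs]; linarith [hu.1], by rw [div_le_iff₀ hs]; linarith [hu.2]⟩
    rw [e, hg, hg, h _ hm]

theorem LipE.scale {g : ℝ → ℝ} (h : LipE g) {s : ℝ} (hs : 0 < s) (c d : ℝ) :
    LipE fun u => s * g ((u + c) / s) + d := by
  intro u v
  have h1 := h ((u + c) / s) ((v + c) / s)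
  have e1 : s * g ((u + c) / s) + d - (s * g ((v + c) / s) + d) =
      s * (g ((u + c) / s) - g ((v + c) / s)) := by ring
  have e2 : (u + c) / s - (v + c) / s = (u - v) / s := by ring
  rw [e2, abs_div, abs_of_pos hs] at h1
  rw [e1, abs_mul, abs_of_pos hs]
  calc _ ≤ s * (eps * (|u - v| / s)) := by gcongr
    _ = _ := by field_simp

namespace Box

theorem rot_four (R : Box) : R.rot.rot.rot.rot = R := rfl

theorem loop_add_one (R : Box) (t : ℝ) : R.loop (t + 1) = J (R.rot.loop t) := by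
  rw [loop, per4_add_one]
  simp only [loop, per4]
  split_ifs
  · rfl
  · rfl
  · rfl
  · rw [J_four]; rfl

theorem loop_add_four (R : Box) (t : ℝ) : R.loop (t + 4) = R.loop t := by
  have e : t + 4 = t + 1 + 1 + 1 + 1 := by ring
  rw [e, loop_add_one, loop_add_one, loop_add_one, loop_add_one, J_four, rot_four]

theorem loop_add_int (R : Box) (t : ℝ) (k : ℤ) : R.loop (t + 4 * k) = R.loop t := by
  have h : Function.Periodic R.loop 4 := R.loop_add_four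
  have := h.int_mul k t
  rwa [mul_comm] at this

theorem Pre.rot {R : Box} (h : R.Pre) : R.rot.Pre :=
  ⟨h.e1, h.e2, h.e3, h.e0, h.c12, h.d12, h.c23, h.d23, h.c30, h.d30, h.c01, h.d01, h.p1, h.p2,
    h.p3, h.p0⟩

theorem Pre.loop_eval0 {R : Box} (h : R.Pre) {u : ℝ} (hu : u ∈ Icc (-1 : ℝ) 1) :
    R.loop ((u + 1) / 2) = R.side u := by
  refine per4_eval ?_ hu
  have e1 : af R.a0 R.b0 1 = R.b0 := by simp [af]
  have e2 : af R.a1 R.b1 (-1) = R.a1 := by simp [af]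
  simp only [side, Box.rot, J, e1, e2]
  rw [← h.c01, ← h.d01]

theorem Pre.loop_eval {R : Box} (h : R.Pre) {u : ℝ} (hu : u ∈ Icc (-1 : ℝ) 1) :
    R.loop ((u + 1) / 2) = R.side u ∧ R.loop (1 + (u + 1) / 2) = J (R.rot.side u) ∧
      R.loop (2 + (u + 1) / 2) = J (J (R.rot.rot.side u)) ∧
      R.loop (3 + (u + 1) / 2) = J (J (J (R.rot.rot.rot.side u))) := by
  have e1 : 1 + (u + 1) / 2 = (u + 1) / 2 + 1 := by ring
  have e2 : 2 + (u + 1) / 2 = (u + 1) / 2 + 1 + 1 := by ring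
  have e3 : 3 + (u + 1) / 2 = (u + 1) / 2 + 1 + 1 + 1 := by ring
  refine ⟨h.loop_eval0 hu, ?_, ?_, ?_⟩
  · rw [e1, loop_add_one, h.rot.loop_eval0 hu]
  · rw [e2, loop_add_one, loop_add_one, h.rot.rot.loop_eval0 hu]
  · rw [e3, loop_add_one, loop_add_one, loop_add_one, h.rot.rot.rot.loop_eval0 hu]

theorem Pre.loop0 {R : Box} (h : R.Pre) {t : ℝ} (h0 : 0 ≤ t) (h1 : t ≤ 1) :
    R.loop t = (R.a0 + t * R.l0, R.g0 (R.a0 + t * R.l0)) := by
  have := h.loop_eval0 (u := 2 * t - 1) ⟨by linarith, by linarith⟩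
  have e : (2 * t - 1 + 1) / 2 = t := by ring
  rw [e] at this
  rw [this, side, af, e, l0]

theorem Pre.loop1 {R : Box} (h : R.Pre) {t : ℝ} (h0 : 0 ≤ t) (h1 : t ≤ 1) :
    R.loop (t + 1) = (-R.g1 (R.a1 + t * R.l1), R.a1 + t * R.l1) := by
  rw [loop_add_one, h.rot.loop0 h0 h1]; rfl

theorem Pre.loop2 {R : Box} (h : R.Pre) {t : ℝ} (h0 : 0 ≤ t) (h1 : t ≤ 1) :
    R.loop (t + 1 + 1) = (-(R.a2 + t * R.l2), -R.g2 (R.a2 + t * R.l2)) := by
  rw [loop_add_one, h.rot.loop1 h0 h1]; rfl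

/-- Reduction of statements about the loop to the bottom side. -/
theorem loop_ind {V : Box → Prop} (hV : ∀ R, V R → V R.rot) {Q : Box → (ℝ → P) → Prop}
    (h0 : ∀ R, V R → ∀ t, 0 ≤ t → t ≤ 1 → Q R fun d => R.loop (t + d))
    (h1 : ∀ R γ, V R → Q R.rot γ → Q R fun d => J (γ d)) (R : Box) (hR : V R) (t : ℝ) :
    Q R fun d => R.loop (t + d) := by
  have key : ∀ n : ℕ, ∀ R, V R → Q R fun d => R.loop (Int.fract t + n + d) := by
    intro n
    induction n with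
    | zero =>
      intro R hR
      simpa using h0 R hR _ (Int.fract_nonneg t) (Int.fract_lt_one t).le
    | succ n ih =>
      intro R hR
      have e : (fun d => R.loop (Int.fract t + (n + 1 : ℕ) + d)) =
          fun d => J (R.rot.loop (Int.fract t + n + d)) := by
        funext d
        rw [← loop_add_one]
        congr 1
        push_cast
        ring
      rw [e]
      exact h1 R _ hR (ih _ (hV R hR))
  obtain ⟨n, hn⟩ : ∃ n : ℕ, (n : ℤ) = ⌊t⌋ % 4 := ⟨(⌊t⌋ % 4).toNat, by omega⟩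
  have e : (fun d => R.loop (t + d)) = fun d => R.loop (Int.fract t + n + d) := by
    funext d
    rw [← R.loop_add_int (Int.fract t + n + d) (⌊t⌋ / 4)]
    congr 1
    have h2 : (n : ℤ) + 4 * (⌊t⌋ / 4) = ⌊t⌋ := by omega
    have h3 : (n : ℝ) + 4 * ((⌊t⌋ / 4 : ℤ) : ℝ) = ⌊t⌋ := by exact_mod_cast h2
    have h4 := Int.fract_add_floor t
    linarith
  rw [e]
  exact key n R hR

theorem mem_rot (R : Box) (p : P) : J p ∈ R.set ↔ p ∈ R.rot.set := by
  simp only [set, J, rot, mem_ofPred_eq, neg_neg]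
  tauto

theorem rot_w (R : Box) : R.rot.w = R.h := rfl

theorem rot_h (R : Box) : R.rot.h = R.w := by
  simp only [h, w, l0, l1, l2, l3, rot]; ring

theorem rot_mu (R : Box) : R.rot.mu = R.mu := by
  rw [mu, rot_w, rot_h, min_comm, mu]

theorem J_ctr (R : Box) : J R.rot.ctr = R.ctr := by
  simp only [J, ctr, rot]
  congr 1
  ring

theorem Asp.rot {R : Box} {k : ℝ} (h : R.Asp k) : R.rot.Asp k := by
  rw [Asp, rot_w, rot_h]; exact ⟨h.2, h.1⟩

theorem Valid.rot {R : Box} (h : R.Valid) : R.rot.Valid := ⟨h.1.rot, h.2.rot⟩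

theorem rot_phi (R : Box) : R.rot.phi = R.phi := by
  have key : ∀ a b c d : ℝ, b + c + d + a = a + b + c + d := fun a b c d => by ring
  unfold phi
  rw [rot_w, rot_h]
  exact key _ _ _ _

theorem rot_rect (R : Box) : R.rot.Rect ↔ R.Rect := by
  simp only [Rect, rot]; tauto

theorem rot_drop (R : Box) : R.rot.drop = R.drop := by
  unfold drop
  rw [propext (rot_rect R)]

theorem Pre.corners {R : Box} (h : R.Pre) :
    (R.a1 + R.b3 ≤ R.l0 / 100000 ∧ -(R.a1 + R.b3) ≤ R.l0 / 100000) ∧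
    (R.a2 + R.b0 ≤ R.l1 / 100000 ∧ -(R.a2 + R.b0) ≤ R.l1 / 100000) ∧
    (R.a3 + R.b1 ≤ R.l2 / 100000 ∧ -(R.a3 + R.b1) ≤ R.l2 / 100000) ∧
    (R.a0 + R.b2 ≤ R.l3 / 100000 ∧ -(R.a0 + R.b2) ≤ R.l3 / 100000) := by
  have key : ∀ {R : Box}, R.Pre →
      (R.a1 + R.b3 ≤ R.l0 / 100000 ∧ -(R.a1 + R.b3) ≤ R.l0 / 100000) := by
    intro R h
    have := h.e0.ab R.b0 R.a0 R.l0 le_rfl (by rw [l0]; linarith [h.p0])
    constructor <;> linarith [h.d01, h.c30, this.1, this.2]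
  exact ⟨key h, key h.rot, key h.rot.rot, key h.rot.rot.rot⟩

/-- The numerical facts used below. -/
structure Num (R : Box) : Prop where
  pos : 0 < R.mu
  x0 : R.l0 = R.b0 - R.a0
  x1 : R.l1 = R.b1 - R.a1
  x2 : R.l2 = R.b2 - R.a2
  x3 : R.l3 = R.b3 - R.a3
  lo0 : 999 / 1000 * R.mu ≤ R.l0
  lo1 : 999 / 1000 * R.mu ≤ R.l1
  lo2 : 999 / 1000 * R.mu ≤ R.l2
  lo3 : 999 / 1000 * R.mu ≤ R.l3
  hi0 : R.l0 ≤ 21 * R.mu
  hi1 : R.l1 ≤ 21 * R.mu
  hi2 : R.l2 ≤ 21 * R.mu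
  hi3 : R.l3 ≤ 21 * R.mu
  k0 : R.a1 + R.b3 ≤ R.mu / 4000
  m0 : -(R.a1 + R.b3) ≤ R.mu / 4000
  k1 : R.a2 + R.b0 ≤ R.mu / 4000
  m1 : -(R.a2 + R.b0) ≤ R.mu / 4000
  k2 : R.a3 + R.b1 ≤ R.mu / 4000
  m2 : -(R.a3 + R.b1) ≤ R.mu / 4000
  k3 : R.a0 + R.b2 ≤ R.mu / 4000
  m3 : -(R.a0 + R.b2) ≤ R.mu / 4000
  o1 : R.ctr.1 = (R.a0 + R.b0 - R.a2 - R.b2) / 4
  o2 : R.ctr.2 = (R.a1 + R.b1 - R.a3 - R.b3) / 4

theorem Valid.num {R : Box} (h : R.Valid) : R.Num := by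
  obtain ⟨hp, ha1, ha2⟩ := h
  obtain ⟨⟨c1, c2⟩, ⟨c3, c4⟩, ⟨c5, c6⟩, c7, c8⟩ := hp.corners
  have p0 := hp.p0
  have p1 := hp.p1
  have p2 := hp.p2
  have p3 := hp.p3
  have x0 : R.l0 = R.b0 - R.a0 := rfl
  have x1 : R.l1 = R.b1 - R.a1 := rfl
  have x2 : R.l2 = R.b2 - R.a2 := rfl
  have x3 : R.l3 = R.b3 - R.a3 := rfl
  have xw : R.w = (R.l0 + R.l2) / 2 := rfl
  have xh : R.h = (R.l1 + R.l3) / 2 := rfl
  have m1 : R.mu ≤ R.w := min_le_left _ _
  have m2 : R.mu ≤ R.h := min_le_right _ _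
  have m3 : R.w ≤ 20 * R.mu ∧ R.h ≤ 20 * R.mu ∧ 0 < R.mu := by
    rcases min_choice R.w R.h with e | e <;> rw [mu, e] <;> refine ⟨?_, ?_, ?_⟩ <;> linarith
  obtain ⟨m3, m4, m5⟩ := m3
  have hi0 : R.l0 ≤ 21 * R.mu := by linarith
  have hi1 : R.l1 ≤ 21 * R.mu := by linarith
  have hi2 : R.l2 ≤ 21 * R.mu := by linarith
  have hi3 : R.l3 ≤ 21 * R.mu := by linarith
  exact ⟨m5, x0, x1, x2, x3, by linarith, by linarith, by linarith, by linarith, hi0, hi1, hi2,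
    hi3, by linarith, by linarith, by linarith, by linarith, by linarith, by linarith,
    by linarith, by linarith, rfl, rfl⟩

theorem Valid.mu_pos {R : Box} (h : R.Valid) : 0 < R.mu := h.num.pos

theorem Valid.sides {R : Box} (h : R.Valid) :
    99 / 100 * R.mu ≤ R.l0 ∧ 99 / 100 * R.mu ≤ R.l1 ∧ 99 / 100 * R.mu ≤ R.l2 ∧
      99 / 100 * R.mu ≤ R.l3 := by
  have n := h.num
  refine ⟨?_, ?_, ?_, ?_⟩ <;> linarith [n.pos, n.lo0, n.lo1, n.lo2, n.lo3]

theorem Valid.phi_bd {R : Box} (h : R.Valid) : 0 ≤ R.phi ∧ R.phi ≤ 16 / 3 := by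
  have hw : 0 < R.w := h.mu_pos.trans_le (min_le_left _ _)
  have hh : 0 < R.h := h.mu_pos.trans_le (min_le_right _ _)
  have a1 : R.w / R.h ≤ 20 := by rw [div_le_iff₀ hh]; exact h.2.1
  have a2 : R.h / R.w ≤ 20 := by rw [div_le_iff₀ hw]; exact h.2.2
  have a3 : 0 < R.w / R.h := by positivity
  have a4 : 0 < R.h / R.w := by positivity
  unfold phi
  split_ifs <;> constructor <;> linarith

theorem Pre.lip0 {R : Box} (h : R.Pre) {L t t' : ℝ} (hL : R.l0 ≤ L) (h0 : 0 ≤ t) (h1 : t ≤ t')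
    (h2 : t' ≤ 1) : dist (R.loop t) (R.loop t') ≤ L * (t' - t) := by
  rw [h.loop0 h0 (h1.trans h2), h.loop0 (h0.trans h1) h2]
  have p : 0 < R.l0 := sub_pos.2 h.p0
  have a1 : 0 ≤ (t' - t) * R.l0 := mul_nonneg (sub_nonneg.2 h1) p.le
  have a2 : (t' - t) * R.l0 ≤ L * (t' - t) := by nlinarith
  have := h.e0.ab (R.a0 + t * R.l0) (R.a0 + t' * R.l0) ((t' - t) * R.l0) (by linarith)
    (by linarith)
  refine dist_le_of ?_ ?_ ?_ ?_ <;> dsimp only <;> linarith [this.1, this.2]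

theorem Pre.lip {R : Box} (h : R.Pre) {L : ℝ} (h0 : R.l0 ≤ L) (h1 : R.l1 ≤ L) (h2 : R.l2 ≤ L)
    (h3 : R.l3 ≤ L) (t t' : ℝ) : dist (R.loop t) (R.loop t') ≤ L * |t - t'| := by
  have key : ∀ t d, 0 ≤ d → d ≤ 1 → dist (R.loop t) (R.loop (t + d)) ≤ L * d := by
    intro t
    have := loop_ind (V := fun R => R.Pre ∧ R.l0 ≤ L ∧ R.l1 ≤ L ∧ R.l2 ≤ L ∧ R.l3 ≤ L)
      (fun R hR => ⟨hR.1.rot, hR.2.2.1, hR.2.2.2.1, hR.2.2.2.2, hR.2.1⟩)
      (Q := fun _ γ => ∀ d, 0 ≤ d → d ≤ 1 → dist (γ 0) (γ d) ≤ L * d) ?_ ?_ R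
      ⟨h, h0, h1, h2, h3⟩ t
    · simpa only [add_zero] using this
    · intro R hR t t0 t1 d d0 d1
      simp only [add_zero]
      by_cases hc : t + d ≤ 1
      · simpa using hR.1.lip0 hR.2.1 t0 (le_add_of_nonneg_right d0) hc
      · have a1 := hR.1.lip0 hR.2.1 t0 t1 le_rfl
        have a2 := hR.1.rot.lip0 (t := 0) (t' := t + d - 1) hR.2.2.1 le_rfl (by linarith)
          (by linarith)
        rw [← dist_J, ← loop_add_one, ← loop_add_one, zero_add, sub_add_cancel] at a2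
        linarith [dist_triangle (R.loop t) (R.loop 1) (R.loop (t + d))]
    · intro R γ _ hq d d0 d1
      simpa only [dist_J] using hq d d0 d1
  have key2 : ∀ n : ℕ, ∀ t d : ℝ, 0 ≤ d → d ≤ n → dist (R.loop t) (R.loop (t + d)) ≤ L * d := by
    intro n
    induction n with
    | zero => exact fun t d d0 d1 => key t d d0 (by simp at d1; linarith)
    | succ n ih =>
      intro t d d0 d1
      by_cases hc : d ≤ 1
      · exact key t d d0 hc
      · have a1 := key t 1 zero_le_one le_rfl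
        have a2 := ih (t + 1) (d - 1) (by linarith) (by push_cast at d1; linarith)
        have e : t + 1 + (d - 1) = t + d := by ring
        rw [e] at a2
        linarith [dist_triangle (R.loop t) (R.loop (t + 1)) (R.loop (t + d))]
  have key3 : ∀ t t', t ≤ t' → dist (R.loop t) (R.loop t') ≤ L * (t' - t) := by
    intro t t' ht
    obtain ⟨n, hn⟩ := exists_nat_ge (t' - t)
    simpa using key2 n t (t' - t) (sub_nonneg.2 ht) hn
  rcases le_total t t' with ht | ht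
  · rw [abs_sub_comm, abs_of_nonneg (sub_nonneg.2 ht)]; exact key3 t t' ht
  · rw [dist_comm, abs_of_nonneg (sub_nonneg.2 ht)]; exact key3 t' t ht

theorem Valid.low0 {R : Box} (h : R.Valid) {t d : ℝ} (t0 : 0 ≤ t) (t1 : t ≤ 1) (d0 : 0 ≤ d)
    (d1 : d ≤ 2) : R.mu / 4 * d ≤ dist (R.loop t) (R.loop (t + d)) := by
  have n := h.num
  have hp := h.1
  have pos := n.pos
  have lo0 := n.lo0
  have lo1 := n.lo1
  have lo2 := n.lo2
  have a1 := (le_dist_fst (R.loop t) (R.loop (t + d))).2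
  have a2 := (le_dist_snd (R.loop t) (R.loop (t + d))).2
  set D := dist (R.loop t) (R.loop (t + d))
  rw [hp.loop0 t0 t1] at a1 a2
  by_cases c1 : t + d ≤ 1
  · rw [hp.loop0 (by linarith) c1] at a1
    dsimp only at a1
    nlinarith
  by_cases c2 : t + d ≤ 2
  · obtain ⟨r, hr⟩ : ∃ r, t + d = r + 1 := ⟨t + d - 1, by ring⟩
    have r0 : 0 ≤ r := by linarith
    rw [hr, hp.loop1 r0 (by linarith)] at a1 a2
    dsimp only at a1 a2
    have b1 : 0 ≤ (1 - t) * R.l0 := mul_nonneg (by linarith) (by linarith)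
    have b2 : 0 ≤ r * R.l1 := mul_nonneg r0 (by linarith)
    have b3 := (hp.e0.ab (R.a0 + t * R.l0) R.b0 ((1 - t) * R.l0) (by linarith [n.x0])
      (by linarith [n.x0])).1
    have b4 := (hp.e1.ab (R.a1 + r * R.l1) R.a1 (r * R.l1) (by linarith) (by linarith)).1
    have b5 : (1 - t) * (999 / 1000 * R.mu) ≤ (1 - t) * R.l0 :=
      mul_le_mul_of_nonneg_left lo0 (by linarith)
    have b6 : r * (999 / 1000 * R.mu) ≤ r * R.l1 := mul_le_mul_of_nonneg_left lo1 r0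
    have b7 : d = (1 - t) + r := by linarith
    have b8 : 0 ≤ R.mu * d := by positivity
    have b9 : R.mu * d = (1 - t) * R.mu + r * R.mu := by rw [b7]; ring
    linarith [hp.c01, hp.d01, n.x0]
  · obtain ⟨r, hr⟩ : ∃ r, t + d = r + 1 + 1 := ⟨t + d - 2, by ring⟩
    have r0 : 0 ≤ r := by linarith
    have r1 : r ≤ 1 := by linarith
    rw [hr, hp.loop2 r0 r1] at a2
    dsimp only at a2
    have b1 : 0 ≤ t * R.l0 := mul_nonneg t0 (by linarith)
    have b1' : t * R.l0 ≤ R.l0 := mul_le_of_le_one_left (by linarith) t1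
    have b2 : 0 ≤ r * R.l2 := mul_nonneg r0 (by linarith)
    have b2' : r * R.l2 ≤ R.l2 := mul_le_of_le_one_left (by linarith) r1
    have b3 := (hp.e0.ab (R.a0 + t * R.l0) R.b0 (21 * R.mu) (by linarith [n.x0])
      (by linarith [n.x0, n.hi0])).1
    have b4 := (hp.e2.ab (R.a2 + r * R.l2) R.a2 (21 * R.mu) (by linarith [n.hi2])
      (by linarith)).1
    have b5 : R.mu * d ≤ R.mu * 2 := by gcongr
    linarith [hp.c12, hp.d01, n.x1]

theorem Valid.low {R : Box} (h : R.Valid) (t t' : ℝ) (hd : |t - t'| ≤ 2) :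
    R.mu / 4 * |t - t'| ≤ dist (R.loop t) (R.loop t') := by
  have key : ∀ t d, 0 ≤ d → d ≤ 2 → R.mu / 4 * d ≤ dist (R.loop t) (R.loop (t + d)) := by
    intro t
    have := loop_ind (V := Valid) (fun _ hR => hR.rot)
      (Q := fun R γ => ∀ d, 0 ≤ d → d ≤ 2 → R.mu / 4 * d ≤ dist (γ 0) (γ d)) ?_ ?_ R h t
    · simpa only [add_zero] using this
    · intro R hR t t0 t1 d d0 d1
      simpa only [add_zero] using hR.low0 t0 t1 d0 d1
    · intro R γ _ hq d d0 d1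
      simpa only [dist_J, rot_mu] using hq d d0 d1
  rcases le_total t t' with ht | ht
  · rw [abs_sub_comm, abs_of_nonneg (sub_nonneg.2 ht)] at hd ⊢
    simpa using key t (t' - t) (sub_nonneg.2 ht) hd
  · rw [abs_of_nonneg (sub_nonneg.2 ht)] at hd ⊢
    rw [dist_comm]
    simpa using key t' (t - t') (sub_nonneg.2 ht) hd

theorem Valid.bot {R : Box} (h : R.Valid) {x : ℝ} (h0 : R.a0 ≤ x) (h1 : x ≤ R.b0) :
    (x, R.g0 x) ∈ R.set ∧ dist (x, R.g0 x) R.ctr ≤ 25 * R.mu ∧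
      R.mu / 4 ≤ dist (x, R.g0 x) R.ctr := by
  obtain ⟨pos, x0, x1, x2, x3, lo0, lo1, lo2, lo3, hi0, hi1, hi2, hi3, k0, m0, k1, m1, k2, m2, k3,
    m3, o1, o2⟩ := h.num
  have hp := h.1
  obtain ⟨a1, a2⟩ := hp.e0.ab x R.b0 (R.b0 - x) (by linarith) le_rfl
  obtain ⟨a3, a4⟩ := hp.e0.ab x R.a0 (x - R.a0) le_rfl (by linarith)
  rw [← hp.d01] at a1 a2
  have c30 := hp.c30
  refine ⟨⟨le_rfl, ?_, ?_, ?_⟩, ?_, ?_⟩
  · have := (hp.e1.ab (R.g0 x) R.a1 (R.b0 - x) (by linarith) (by linarith)).1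
    dsimp only
    linarith [hp.c01]
  · have := (hp.e2.ab (-x) R.a2 (22 * R.mu) (by linarith) (by linarith)).1
    dsimp only
    linarith [hp.c12]
  · have := (hp.e3.ab (-R.g0 x) R.b3 (x - R.a0) (by linarith) (by linarith)).1
    dsimp only
    linarith [hp.d30]
  · refine dist_le_of ?_ ?_ ?_ ?_ <;> dsimp only <;> linarith
  · have := (le_dist_snd (x, R.g0 x) R.ctr).2
    dsimp only at this
    linarith

theorem Valid.loop_facts {R : Box} (h : R.Valid) (t : ℝ) :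
    R.loop t ∈ R.set ∧ dist (R.loop t) R.ctr ≤ 25 * R.mu ∧ R.mu / 4 ≤ dist (R.loop t) R.ctr := by
  have := loop_ind (V := Valid) (fun _ hR => hR.rot)
    (Q := fun R γ => γ 0 ∈ R.set ∧ dist (γ 0) R.ctr ≤ 25 * R.mu ∧ R.mu / 4 ≤ dist (γ 0) R.ctr)
    ?_ ?_ R h t
  · simpa only [add_zero] using this
  · intro R hR t t0 t1
    have p : 0 < R.l0 := sub_pos.2 hR.1.p0
    have b1 : t * R.l0 ≤ R.l0 := mul_le_of_le_one_left p.le t1
    have b2 : 0 ≤ t * R.l0 := mul_nonneg t0 p.le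
    simp only [add_zero, hR.1.loop0 t0 t1]
    exact hR.bot (by linarith) (by linarith [hR.num.x0])
  · intro R γ _ hq
    rw [← J_ctr, dist_J, mem_rot, ← rot_mu]
    exact hq

theorem Valid.set_bd {R : Box} (h : R.Valid) {p : P} (hp : p ∈ R.set) :
    |p.1 - R.ctr.1| ≤ 25 * R.mu := by
  obtain ⟨pos, x0, x1, x2, x3, lo0, lo1, lo2, lo3, hi0, hi1, hi2, hi3, k0, m0, k1, m1, k2, m2, k3,
    m3, o1, o2⟩ := h.num
  have hq := h.1
  obtain ⟨s0, s1, s2, s3⟩ := hp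
  have u1 := le_abs_self (p.1 - R.ctr.1)
  have u2 := neg_abs_le (p.1 - R.ctr.1)
  have v1 := le_abs_self (p.2 - R.ctr.2)
  have v2 := neg_abs_le (p.2 - R.ctr.2)
  have a0 := (hq.e0.ab p.1 R.a0 (|p.1 - R.ctr.1| + 11 * R.mu) (by linarith) (by linarith)).2
  have a1 := (hq.e1.ab p.2 R.a1 (|p.2 - R.ctr.2| + 11 * R.mu) (by linarith) (by linarith)).2
  have a2 := (hq.e2.ab (-p.1) R.a2 (|p.1 - R.ctr.1| + 11 * R.mu) (by linarith) (by linarith)).2
  have a3 := (hq.e3.ab (-p.2) R.a3 (|p.2 - R.ctr.2| + 11 * R.mu) (by linarith) (by linarith)).2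
  have b1 : |p.1 - R.ctr.1| ≤ 11 * R.mu + (|p.2 - R.ctr.2| + 11 * R.mu) / 100000 :=
    abs_sub_le_iff.2 ⟨by linarith [hq.c01], by linarith [hq.c23]⟩
  have b2 : |p.2 - R.ctr.2| ≤ 11 * R.mu + (|p.1 - R.ctr.1| + 11 * R.mu) / 100000 :=
    abs_sub_le_iff.2 ⟨by linarith [hq.c12], by linarith [hq.c30]⟩
  linarith

theorem Valid.near_ctr {R : Box} (h : R.Valid) {x : ℝ} (hx : |x - R.ctr.1| ≤ 25 * R.mu) :
    R.g0 x - R.ctr.2 ≤ -(9 / 20 * R.mu) := by
  obtain ⟨pos, x0, x1, x2, x3, lo0, lo1, lo2, lo3, hi0, hi1, hi2, hi3, k0, m0, k1, m1, k2, m2, k3,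
    m3, o1, o2⟩ := h.num
  obtain ⟨u1, u2⟩ := abs_sub_le_iff.1 hx
  have a0 := (h.1.e0.ab x R.a0 (40 * R.mu) (by linarith) (by linarith)).1
  linarith [h.1.c30]

theorem hs_rot (R : Box) (s : ℝ) (p : P) :
    J p ∈ hs R.ctr s R.set ↔ p ∈ hs R.rot.ctr s R.rot.set := by
  simp only [hs, mem_ofPred_eq]
  rw [← mem_rot, J_add, J_smul, J_sub, J_ctr]

theorem Valid.key0 {R : Box} (h : R.Valid) {s s' : ℝ} (h0 : 0 < s) (h1 : s ≤ s') {p : P}
    (hp : p ∈ hs R.ctr s R.set) :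
    s' * (R.g0 (R.ctr.1 + (p.1 - R.ctr.1) / s') - R.ctr.2) + 2 / 5 * R.mu * (s' - s) ≤
      p.2 - R.ctr.2 := by
  have h0' : 0 < s' := h0.trans_le h1
  have b1 := h.set_bd hp
  have b2 := h.near_ctr b1
  have b3 : R.g0 (R.ctr + s⁻¹ • (p - R.ctr)).1 ≤ (R.ctr + s⁻¹ • (p - R.ctr)).2 := hp.1
  simp only [Prod.fst_add, Prod.snd_add, Prod.smul_fst, Prod.smul_snd, Prod.fst_sub, Prod.snd_sub,
    smul_eq_mul, add_sub_cancel_left] at b1 b2 b3
  set q := s⁻¹ * (p.1 - R.ctr.1) with hq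
  have e1 : (p.1 - R.ctr.1) / s' = q * (s / s') := by rw [hq]; field_simp
  have r1 : s / s' ≤ 1 := (div_le_one h0').2 h1
  have r2 : s' * (1 - s / s') = s' - s := by field_simp
  obtain ⟨q1, q2⟩ := abs_le.1 b1
  have b4 := (h.1.e0.ab (R.ctr.1 + q * (s / s')) (R.ctr.1 + q) (25 * R.mu * (1 - s / s'))
    (by nlinarith) (by nlinarith)).1
  have b5 : s * (R.g0 (R.ctr.1 + q) - R.ctr.2) ≤ p.2 - R.ctr.2 := by
    have := mul_le_mul_of_nonneg_left (sub_le_iff_le_add'.2 b3) h0.le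
    rwa [← mul_assoc, mul_inv_cancel₀ h0.ne', one_mul] at this
  have b6 := mul_le_mul_of_nonneg_left b4 h0'.le
  have b7 := mul_le_mul_of_nonneg_left b2 (sub_nonneg.2 h1)
  have b8 : s' * (25 * R.mu * (1 - s / s') / 100000) = R.mu * (s' - s) / 4000 := by
    rw [← r2]; ring
  have b9 : 0 ≤ R.mu * (s' - s) := mul_nonneg h.mu_pos.le (sub_nonneg.2 h1)
  rw [e1]
  rw [mul_add, b8] at b6
  linarith

theorem Valid.sub {R : Box} (h : R.Valid) {s : ℝ} (h0 : 0 < s) (h1 : s ≤ 1) :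
    hs R.ctr s R.set ⊆ R.set := by
  have key : ∀ {R : Box}, R.Valid → ∀ {p : P}, p ∈ hs R.ctr s R.set → R.g0 p.1 ≤ p.2 := by
    intro R h p hp
    have := h.key0 h0 h1 hp
    have b9 : 0 ≤ R.mu * (1 - s) := mul_nonneg h.mu_pos.le (sub_nonneg.2 h1)
    rw [div_one, add_sub_cancel, one_mul] at this
    linarith
  have step : ∀ (R : Box) (p : P), p ∈ hs R.ctr s R.set →
      ((p.2, -p.1) : P) ∈ hs R.rot.ctr s R.rot.set := by
    intro R p hp
    rw [← hs_rot]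
    simpa [J] using hp
  intro p hp
  have p1 := step _ _ hp
  have p2 := step _ _ p1
  have p3 := step _ _ p2
  have a3 := key h.rot.rot.rot p3
  rw [neg_neg] at a3
  exact ⟨key h hp, key h.rot p1, key h.rot.rot p2, a3⟩

theorem Valid.ctr_mem {R : Box} (h : R.Valid) : R.ctr ∈ R.set := by
  have key : ∀ {R : Box}, R.Valid → R.g0 R.ctr.1 ≤ R.ctr.2 := by
    intro R h
    have := h.near_ctr (x := R.ctr.1) (by simpa using h.mu_pos.le)
    linarith [h.mu_pos]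
  have e : ∀ R : Box, R.rot.ctr = (R.ctr.2, -R.ctr.1) := by
    intro R
    rw [← J_ctr R]
    simp [J]
  have a1 := key h.rot
  have a2 := key h.rot.rot
  have a3 := key h.rot.rot.rot
  simp only [e, neg_neg] at a1 a2 a3
  exact ⟨key h, a1, a2, a3⟩

theorem Valid.sep {R : Box} (h : R.Valid) (t : ℝ) {s s' : ℝ} (h0 : 0 < s) (h1 : s ≤ s') :
    ∀ p ∈ hs R.ctr s R.set, R.mu / 4 * (s' - s) ≤ dist p (R.ctr + s' • (R.loop t - R.ctr)) := by
  have h0' : 0 < s' := h0.trans_le h1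
  have := loop_ind (V := Valid) (fun _ hR => hR.rot)
    (Q := fun R γ => ∀ p ∈ hs R.ctr s R.set,
      R.mu / 4 * (s' - s) ≤ dist p (R.ctr + s' • (γ 0 - R.ctr))) ?_ ?_ R h t
  · simpa only [add_zero] using this
  · intro R hR t t0 t1 p hp
    simp only [add_zero, hR.1.loop0 t0 t1]
    set x := R.a0 + t * R.l0
    have k := hR.key0 h0 h1 hp
    obtain ⟨a1, a2⟩ := le_dist_fst p (R.ctr + s' • ((x, R.g0 x) - R.ctr))
    have a3 := (le_dist_snd p (R.ctr + s' • ((x, R.g0 x) - R.ctr))).1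
    set D := dist p (R.ctr + s' • ((x, R.g0 x) - R.ctr))
    have D0 : 0 ≤ D := dist_nonneg
    simp only [Prod.fst_add, Prod.snd_add, Prod.smul_fst, Prod.smul_snd, Prod.fst_sub,
      Prod.snd_sub, smul_eq_mul] at a1 a2 a3
    have b := (hR.1.e0.ab (R.ctr.1 + (p.1 - R.ctr.1) / s') x (D / s') ?_ ?_).2
    · have b2 := mul_le_mul_of_nonneg_left b h0'.le
      have e : s' * (D / s' / 100000) = D / 100000 := by field_simp
      rw [mul_add, e] at b2
      have b9 : 0 ≤ R.mu * (s' - s) := mul_nonneg hR.mu_pos.le (sub_nonneg.2 h1)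
      linarith
    · rw [le_div_iff₀ h0']
      have e : (R.ctr.1 + (p.1 - R.ctr.1) / s' - x) * s' =
        p.1 - (R.ctr.1 + s' * (x - R.ctr.1)) := by field_simp; ring
      rw [e]; exact a1
    · rw [le_div_iff₀ h0']
      have e : (x - (R.ctr.1 + (p.1 - R.ctr.1) / s')) * s' =
        R.ctr.1 + s' * (x - R.ctr.1) - p.1 := by field_simp; ring
      rw [e]; exact a2
  · intro R γ _ hq p hp
    rw [← J_four p, hs_rot] at hp
    have := hq _ hp
    rwa [rot_mu, ← dist_J, J_four, J_add, J_smul, J_sub, J_ctr] at this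

theorem Valid.cone {R : Box} (h : R.Valid) (t s : ℝ) (h0 : 0 ≤ s) (h1 : s ≤ 1) :
    R.ctr + s • (R.loop t - R.ctr) ∈ R.set := by
  rcases h0.eq_or_lt with h0 | h0
  · subst h0
    simpa using h.ctr_mem
  · refine h.sub h0 h1 ?_
    simp only [hs, mem_ofPred_eq, add_sub_cancel_left, smul_smul, inv_mul_cancel₀ h0.ne',
      one_smul, add_sub_cancel]
    exact (h.loop_facts t).1

theorem Valid.fan {R : Box} (h : R.Valid) : Fan R.loop R.ctr R.set R.mu := by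
  have n := h.num
  refine ⟨n.pos, R.loop_add_four, ?_, h.low, fun t => (h.loop_facts t).2.1,
    fun t => (h.loop_facts t).2.2, ?_, fun s => h.sub, fun t s s' => h.sep t⟩
  · exact h.1.lip (by linarith [n.hi0, n.pos]) (by linarith [n.hi1, n.pos])
      (by linarith [n.hi2, n.pos]) (by linarith [n.hi3, n.pos])
  · intro t s h0 h1
    have := h.cone t (s : ℝ) (by exact_mod_cast h0) (by exact_mod_cast h1)
    simpa only [Nat.cast_smul_eq_nsmul] using this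

theorem Pre.map_pre {R : Box} (h : R.Pre) {s : ℝ} (hs : 0 < s) (v : P) : (R.map s v).Pre := by
  have e1 : ∀ a c : ℝ, (s * a + c - c) / s = a := fun a c => by field_simp; ring
  have e2 : ∀ a c : ℝ, (s * a - c + c) / s = a := fun a c => by field_simp; ring
  constructor
  · simpa only [Box.map, sub_eq_add_neg] using h.e0.scale hs (-v.1) v.2
  · simpa only [Box.map, sub_eq_add_neg] using h.e1.scale hs (-v.2) (-v.1)
  · simpa only [Box.map, sub_eq_add_neg] using h.e2.scale hs v.1 (-v.2)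
  · simpa only [Box.map, sub_eq_add_neg] using h.e3.scale hs v.2 v.1
  · simp only [Box.map, e1]; rw [h.c01]; ring
  · simp only [Box.map, e1]; rw [← h.d01]
  · simp only [Box.map, e2]; rw [h.c12]; ring
  · simp only [Box.map, e1]; rw [← h.d12]
  · simp only [Box.map, e2]; rw [h.c23]; ring
  · simp only [Box.map, e2]; rw [← h.d23]
  · simp only [Box.map, e1]; rw [h.c30]; ring
  · simp only [Box.map, e2]; rw [← h.d30]
  · simp only [Box.map]; nlinarith [h.p0]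
  · simp only [Box.map]; nlinarith [h.p1]
  · simp only [Box.map]; nlinarith [h.p2]
  · simp only [Box.map]; nlinarith [h.p3]

theorem Pre.hom {R : Box} (h : R.Pre) {s : ℝ} (hs : 0 < s) : (R.hom s).Pre := h.map_pre hs _

theorem hom_w (R : Box) (s : ℝ) : (R.hom s).w = s * R.w := by
  simp only [hom, map, w, l0, l2]; ring

theorem hom_h (R : Box) (s : ℝ) : (R.hom s).h = s * R.h := by
  simp only [hom, map, h, l1, l3]; ring

theorem Asp.hom {R : Box} {k s : ℝ} (h : R.Asp k) (hs : 0 < s) : (R.hom s).Asp k := by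
  rw [Asp, hom_w, hom_h]
  constructor <;> nlinarith [h.1, h.2]

theorem Valid.hom {R : Box} (h : R.Valid) {s : ℝ} (hs : 0 < s) : (R.hom s).Valid :=
  ⟨h.1.hom hs, h.2.hom hs⟩

theorem hom_set (R : Box) {s : ℝ} (h : 0 < s) : (R.hom s).set = hs R.ctr s R.set := by
  ext p
  have key : ∀ x y c d G : ℝ, y = s * d + c → (s * G + c ≤ y ↔ G ≤ d) := by
    intro x y c d G e
    rw [e, add_le_add_iff_right, mul_le_mul_iff_right₀ h]
  have e1 : (p.1 - (1 - s) * R.ctr.1) / s = R.ctr.1 + s⁻¹ * (p.1 - R.ctr.1) := by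
    field_simp; ring
  have e2 : (p.2 - (1 - s) * R.ctr.2) / s = R.ctr.2 + s⁻¹ * (p.2 - R.ctr.2) := by
    field_simp; ring
  have e3 : (-p.1 + (1 - s) * R.ctr.1) / s = -(R.ctr.1 + s⁻¹ * (p.1 - R.ctr.1)) := by
    field_simp; ring
  have e4 : (-p.2 + (1 - s) * R.ctr.2) / s = -(R.ctr.2 + s⁻¹ * (p.2 - R.ctr.2)) := by
    field_simp; ring
  simp only [hom, map, set, hs, mem_ofPred_eq, Prod.fst_add, Prod.snd_add, Prod.smul_fst,
    Prod.smul_snd, Prod.fst_sub, Prod.snd_sub, smul_eq_mul, e1, e2, e3, e4]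
  simp only [sub_eq_add_neg (s * _)]
  refine and_congr (key 0 _ _ _ _ ?_) (and_congr (key 0 _ _ _ _ ?_)
    (and_congr (key 0 _ _ _ _ ?_) (key 0 _ _ _ _ ?_))) <;> field_simp <;> ring

theorem map_rot (R : Box) (s : ℝ) (v : P) : (R.map s v).rot = R.rot.map s (v.2, -v.1) := by
  simp only [map, rot, sub_eq_add_neg, neg_neg]

theorem map_side (R : Box) {s : ℝ} (h : 0 < s) (v : P) (u : ℝ) :
    (R.map s v).side u = s • R.side u + v := by
  have e1 : af (s * R.a0 + v.1) (s * R.b0 + v.1) u = s * af R.a0 R.b0 u + v.1 := by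
    simp only [af]; ring
  have e2 : (s * af R.a0 R.b0 u + v.1 - v.1) / s = af R.a0 R.b0 u := by field_simp; ring
  simp only [side, map, e1, e2]
  rfl

theorem map_loop (R : Box) {s : ℝ} (h : 0 < s) (v : P) (t : ℝ) :
    (R.map s v).loop t = s • R.loop t + v := by
  simp only [loop, per4, map_rot, map_side _ h, J_add, J_smul]
  split_ifs <;> simp [J]

theorem hom_loop (R : Box) {s : ℝ} (h : 0 < s) (t : ℝ) :
    (R.hom s).loop t = R.ctr + s • (R.loop t - R.ctr) := by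
  rw [hom, map_loop _ h]
  module

theorem map_flat (R : Box) {s : ℝ} (h : 0 < s) (v : P) :
    Flat (R.map s v).g0 (R.map s v).a0 (R.map s v).b0 ↔ Flat R.g0 R.a0 R.b0 :=
  flat_map (c := v.1) (d := v.2) h
    (fun u => by simp only [map, add_sub_cancel_right, mul_div_cancel_left₀ _ h.ne']) rfl rfl

theorem hom_flat (R : Box) {s : ℝ} (h : 0 < s) :
    (Flat (R.hom s).g0 (R.hom s).a0 (R.hom s).b0 ↔ Flat R.g0 R.a0 R.b0) ∧
    (Flat (R.hom s).g1 (R.hom s).a1 (R.hom s).b1 ↔ Flat R.g1 R.a1 R.b1) ∧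
    (Flat (R.hom s).g2 (R.hom s).a2 (R.hom s).b2 ↔ Flat R.g2 R.a2 R.b2) ∧
    (Flat (R.hom s).g3 (R.hom s).a3 (R.hom s).b3 ↔ Flat R.g3 R.a3 R.b3) := by
  have a1 := map_flat R.rot h (((1 - s) • R.ctr).2, -((1 - s) • R.ctr).1)
  have a2 := map_flat R.rot.rot h (-((1 - s) • R.ctr).1, -((1 - s) • R.ctr).2)
  have a3 := map_flat R.rot.rot.rot h (-((1 - s) • R.ctr).2, -(-((1 - s) • R.ctr).1))
  have e1 := map_rot R s ((1 - s) • R.ctr)
  have e2 := map_rot R.rot s (((1 - s) • R.ctr).2, -((1 - s) • R.ctr).1)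
  have e3 := map_rot R.rot.rot s (-((1 - s) • R.ctr).1, -((1 - s) • R.ctr).2)
  dsimp only at e2 e3
  rw [← e3, ← e2, ← e1] at a3
  rw [← e2, ← e1] at a2
  rw [← e1] at a1
  exact ⟨map_flat R h _, a1, a2, a3⟩

theorem hom_phi (R : Box) {s : ℝ} (h : 0 < s) : (R.hom s).phi = R.phi := by
  obtain ⟨a0, a1, a2, a3⟩ := hom_flat R h
  unfold phi
  rw [propext a0, propext a1, propext a2, propext a3, hom_w, hom_h, mul_div_mul_left _ _ h.ne',
    mul_div_mul_left _ _ h.ne']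

theorem hom_rect (R : Box) {s : ℝ} (h : 0 < s) : (R.hom s).Rect ↔ R.Rect := by
  obtain ⟨a0, a1, a2, a3⟩ := hom_flat R h
  simp only [Rect, a0, a1, a2, a3]

theorem hom_drop (R : Box) {s : ℝ} (h : 0 < s) : (R.hom s).drop = R.drop := by
  unfold drop
  rw [propext (hom_rect R h)]

theorem IsCut.num {R : Box} {c : ℝ → ℝ} {xb yb xt yt : ℝ} (hR : R.Valid)
    (h : R.IsCut c xb yb xt yt) :
    (R.mu / 2 ≤ yt - yb ∧ yt - yb ≤ 22 * R.mu) ∧ (xt - xb ≤ R.mu / 4000 ∧ xb - xt ≤ R.mu / 4000) ∧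
      (yb - R.a1 ≤ R.mu / 4000 ∧ R.a1 - yb ≤ R.mu / 4000) := by
  obtain ⟨pos, x0, x1, x2, x3, lo0, lo1, lo2, lo3, hi0, hi1, hi2, hi3, k0, m0, k1, m1, k2, m2, k3,
    m3, o1, o2⟩ := hR.num
  have hp := hR.1
  have ml := h.ml
  have mr := h.mr
  have y1 := le_abs_self (yt - yb)
  have y2 := neg_abs_le (yt - yb)
  obtain ⟨a1, a2⟩ := h.e.ab yt yb |yt - yb| y1 (by linarith)
  rw [← h.cb, ← h.ct] at a1 a2
  obtain ⟨a3, a4⟩ := hp.e0.ab xb R.b0 (21 * R.mu) (by linarith) (by linarith)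
  rw [← h.db, ← hp.d01] at a3 a4
  obtain ⟨a5, a6⟩ := hp.e2.ab (-xt) R.a2 (22 * R.mu + |yt - yb| / 100000) (by linarith)
    (by linarith)
  rw [← h.dt] at a5 a6
  have c12 := hp.c12
  have b : |yt - yb| ≤ 43 / 2 * R.mu + |yt - yb| / 100000 :=
    abs_sub_le_iff.2 ⟨by linarith, by linarith⟩
  refine ⟨⟨?_, ?_⟩, ⟨?_, ?_⟩, ?_, ?_⟩ <;> linarith

theorem IsCut.pre {R : Box} {c : ℝ → ℝ} {xb yb xt yt : ℝ} (hR : R.Valid)
    (h : R.IsCut c xb yb xt yt) :
    (R.cutL c xb yb xt yt).Pre ∧ (R.cutR c xb yb xt yt).Pre := by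
  obtain ⟨⟨y1, y2⟩, ⟨z1, z2⟩, -⟩ := h.num hR
  have n := hR.num
  have hp := hR.1
  have pos := n.pos
  have lo0 := n.lo0
  have ml := h.ml
  have mr := h.mr
  constructor
  · refine ⟨hp.e0, ?_, hp.e2, hp.e3, ?_, h.db, ?_, ?_, hp.c23, hp.d23, hp.c30, hp.d30, ?_, ?_, ?_,
      hp.p3⟩ <;> simp only [cutL]
    · intro u v
      rw [neg_sub_neg, abs_sub_comm]
      exact h.e u v
    · rw [neg_neg]; exact h.cb
    · rw [← h.dt, neg_neg]
    · rw [← h.ct]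
    · linarith
    · linarith
    · linarith [n.m3]
  · refine ⟨hp.e0, hp.e1, hp.e2, ?_, hp.c01, hp.d01, hp.c12, hp.d12, ?_, h.dt, ?_, ?_, ?_, hp.p1,
      ?_, ?_⟩ <;> simp only [cutR]
    · intro u v
      have := h.e (-u) (-v)
      rwa [neg_sub_neg, abs_sub_comm v] at this
    · rw [neg_neg, ← h.ct]
    · rw [← h.db]
    · rw [neg_neg]; exact h.cb
    · linarith
    · linarith [n.k1]
    · linarith

theorem IsCut.sets {R : Box} {c : ℝ → ℝ} {xb yb xt yt : ℝ} (hR : R.Valid)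
    (h : R.IsCut c xb yb xt yt) :
    (R.cutL c xb yb xt yt).set ⊆ R.set ∧ (R.cutR c xb yb xt yt).set ⊆ R.set ∧
      ∀ p ∈ (R.cutL c xb yb xt yt).set, p ∈ (R.cutR c xb yb xt yt).set →
        ∃ y ∈ Icc yb yt, p = (c y, y) := by
  obtain ⟨⟨y1, y2⟩, ⟨z1, z2⟩, w1, w2⟩ := h.num hR
  obtain ⟨pos, x0, x1, x2, x3, lo0, lo1, lo2, lo3, hi0, hi1, hi2, hi3, k0, m0, k1, m1, k2, m2, k3,
    m3, o1, o2⟩ := hR.num
  have hp := hR.1
  have ml := h.ml
  have mr := h.mr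
  have com : ∀ p : P, R.g0 p.1 ≤ p.2 → R.g2 (-p.1) ≤ -p.2 →
      |p.2 - yb| ≤ 23 * R.mu + |p.1 - xb| / 100000 ∧
      (c p.2 ≤ xb + |p.2 - yb| / 100000 ∧ xb ≤ c p.2 + |p.2 - yb| / 100000) ∧
      (R.g1 p.2 ≤ -R.b0 + (|p.2 - yb| + R.mu) / 100000 ∧
        -R.b0 ≤ R.g1 p.2 + (|p.2 - yb| + R.mu) / 100000) ∧
      (R.g3 (-p.2) ≤ R.a0 + (|p.2 - yb| + R.mu) / 100000 ∧
        R.a0 ≤ R.g3 (-p.2) + (|p.2 - yb| + R.mu) / 100000) := by
    intro p s0 s2
    have u1 := le_abs_self (p.1 - xb)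
    have u2 := neg_abs_le (p.1 - xb)
    have v1 := le_abs_self (p.2 - yb)
    have v2 := neg_abs_le (p.2 - yb)
    have a0 := (hp.e0.ab p.1 xb |p.1 - xb| u1 (by linarith)).2
    have a2 := (hp.e2.ab (-p.1) (-xt) (|p.1 - xb| + R.mu) (by linarith) (by linarith)).2
    have a4 := h.e.ab p.2 yb |p.2 - yb| v1 (by linarith)
    have a1 := hp.e1.ab p.2 R.a1 (|p.2 - yb| + R.mu) (by linarith) (by linarith)
    have a3 := hp.e3.ab (-p.2) R.b3 (|p.2 - yb| + R.mu) (by linarith) (by linarith)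
    rw [← h.db] at a0
    rw [← h.dt] at a2
    rw [← h.cb] at a4
    rw [← hp.d30] at a3
    have c01 := hp.c01
    exact ⟨abs_sub_le_iff.2 ⟨by linarith, by linarith⟩, a4,
      ⟨by linarith [a1.1], by linarith [a1.2]⟩, a3⟩
  refine ⟨?_, ?_, ?_⟩
  · rintro p ⟨s0, s1, s2, s3⟩
    simp only [cutL] at s0 s1 s2 s3
    obtain ⟨b1, ⟨b2, -⟩, ⟨b3, -⟩, -, b4⟩ := com p s0 s2
    have b5 : |p.1 - xb| ≤ 22 * R.mu + |p.2 - yb| / 100000 :=
      abs_sub_le_iff.2 ⟨by linarith, by linarith⟩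
    exact ⟨s0, by linarith, s2, s3⟩
  · rintro p ⟨s0, s1, s2, s3⟩
    simp only [cutR, neg_neg] at s0 s1 s2 s3
    obtain ⟨b1, ⟨-, b2⟩, ⟨-, b3⟩, b4, -⟩ := com p s0 s2
    have b5 : |p.1 - xb| ≤ 22 * R.mu + |p.2 - yb| / 100000 :=
      abs_sub_le_iff.2 ⟨by linarith, by linarith⟩
    exact ⟨s0, s1, s2, by linarith⟩
  · rintro p ⟨s0, s1, s2, -⟩ ⟨-, -, -, s3⟩
    simp only [cutL] at s0 s1 s2
    simp only [cutR, neg_neg] at s3
    have e : p.1 = c p.2 := by linarith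
    refine ⟨p.2, ⟨?_, ?_⟩, Prod.ext e rfl⟩
    · by_contra hc
      rw [not_le] at hc
      obtain ⟨a1, a2⟩ := h.e.ab p.2 yb (yb - p.2) (by linarith) le_rfl
      rw [← h.cb, ← e] at a1 a2
      have a3 := (hp.e0.ab p.1 xb (yb - p.2) (by linarith) (by linarith)).2
      rw [← h.db] at a3
      linarith
    · by_contra hc
      rw [not_le] at hc
      obtain ⟨a1, a2⟩ := h.e.ab p.2 yt (p.2 - yt) le_rfl (by linarith)
      rw [← h.ct, ← e] at a1 a2
      have a3 := (hp.e2.ab (-p.1) (-xt) (p.2 - yt) (by linarith) (by linarith)).2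
      rw [← h.dt] at a3
      linarith

end Box

theorem sbox_valid {s : ℝ} (hs : 0 < s) : (sbox s).Valid ∧ (sbox s).Asp 19 ∧ (sbox s).Rect := by
  have hl : LipE fun _ => -s := fun u v => by
    rw [sub_self, abs_zero, eps]; positivity
  have hw : (sbox s).w = 2 * s := by simp only [Box.w, Box.l0, Box.l2, sbox]; ring
  have hh : (sbox s).h = 2 * s := by simp only [Box.h, Box.l1, Box.l3, sbox]; ring
  have hn : s = - -s := (neg_neg s).symm
  have hlt : -s < s := by linarith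
  refine ⟨⟨⟨hl, hl, hl, hl, hn, rfl, hn, rfl, hn, rfl, hn, rfl, hlt, hlt, hlt, hlt⟩, ?_⟩, ?_,
    fun _ _ => rfl, fun _ _ => rfl, fun _ _ => rfl, fun _ _ => rfl⟩ <;>
  · rw [Box.Asp, hw, hh]
    constructor <;> linarith

theorem sbox_set (s : ℝ) : (sbox s).set = {p | |p.1| ≤ s ∧ |p.2| ≤ s} := by
  ext p
  simp only [Box.set, sbox, mem_ofPred_eq, abs_le, neg_le_neg_iff]
  tauto

theorem Γ_add_one (t : ℝ) : Γ (t + 1) = J (Γ t) := (sbox 1).loop_add_one t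

theorem Γ_add_four (t : ℝ) : Γ (t + 4) = Γ t := (sbox 1).loop_add_four t

theorem Γ_add_int (t : ℝ) (k : ℤ) : Γ (t + 4 * k) = Γ t := (sbox 1).loop_add_int t k

theorem Γ_eval {u : ℝ} (hu : u ∈ Icc (-1 : ℝ) 1) :
    Γ ((u + 1) / 2) = (u, -1) ∧ Γ (1 + (u + 1) / 2) = (1, u) ∧ Γ (2 + (u + 1) / 2) = (-u, 1) ∧
      Γ (3 + (u + 1) / 2) = (-1, -u) := by
  obtain ⟨a0, a1, a2, a3⟩ := (sbox_valid one_pos).1.1.loop_eval hu
  have e : (sbox 1).side u = (u, -1) := by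
    have : af (-1) 1 u = u := by simp only [af]; ring
    simp only [Box.side, sbox, this]
  have er : (sbox 1).rot = sbox 1 := rfl
  simp only [er, e, J, neg_neg] at a0 a1 a2 a3
  exact ⟨a0, a1, a2, a3⟩

theorem norm_Γ (t : ℝ) : ‖Γ t‖ = 1 := by
  have := Box.loop_ind (V := fun R => R = sbox 1) (fun R hR => by rw [hR]; rfl)
    (Q := fun _ γ => ‖γ 0‖ = 1) ?_ ?_ (sbox 1) rfl t
  · simpa only [add_zero, Γ] using this
  · rintro R rfl t t0 t1
    have h := (Γ_eval (u := 2 * t - 1) ⟨by linarith, by linarith⟩).1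
    have e : (2 * t - 1 + 1) / 2 = t := by ring
    rw [e, Γ] at h
    have : |2 * t - 1| ≤ 1 := abs_le.2 ⟨by linarith, by linarith⟩
    simp only [add_zero, h, Prod.norm_def, Real.norm_eq_abs, abs_neg, abs_one]
    exact max_eq_right this
  · intro R γ _ hq
    simpa only [norm_J] using hq

theorem Γ_mem (t : ℝ) : Γ t ∈ sq := mem_sq.2 (norm_Γ t).le

theorem exists_Γ {p : P} (hp : ‖p‖ = 1) (a : ℝ) : ∃ t ∈ Ico a (a + 4), Γ t = p := by
  obtain ⟨h1, h2⟩ := mem_sq.2 hp.le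
  have h1' := abs_le.1 h1
  have h2' := abs_le.1 h2
  have : ∃ t, Γ t = p := by
    rw [Prod.norm_def, Real.norm_eq_abs, Real.norm_eq_abs] at hp
    rcases max_choice |p.1| |p.2| with e | e <;> rw [hp] at e <;>
      rcases (abs_eq zero_le_one).1 e.symm with e | e
    · exact ⟨_, (Γ_eval h2').2.1.trans (Prod.ext e.symm rfl)⟩
    · exact ⟨_, (Γ_eval (u := -p.2) ⟨by linarith [h2'.2], by linarith [h2'.1]⟩).2.2.2.trans
        (Prod.ext e.symm (neg_neg _))⟩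
    · exact ⟨_, (Γ_eval (u := -p.1) ⟨by linarith [h1'.2], by linarith [h1'.1]⟩).2.2.1.trans
        (Prod.ext (neg_neg _) e.symm)⟩
    · exact ⟨_, (Γ_eval h1').1.trans (Prod.ext rfl e.symm)⟩
  obtain ⟨t, ht⟩ := this
  refine ⟨t + 4 * (⌈(a - t) / 4⌉ : ℤ), ⟨?_, ?_⟩, by rw [Γ_add_int, ht]⟩
  · linarith [Int.le_ceil ((a - t) / 4)]
  · linarith [Int.ceil_lt_add_one ((a - t) / 4)]

theorem Γ_lip (t t' : ℝ) : dist (Γ t) (Γ t') ≤ 2 * |t - t'| := by
  have e : (1 : ℝ) - -1 ≤ 2 := by norm_num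
  exact (sbox_valid one_pos).1.1.lip e e e e t t'

theorem Γ_low {t t' : ℝ} (h : |t - t'| ≤ 2) : 1 / 2 * |t - t'| ≤ dist (Γ t) (Γ t') := by
  have := (sbox_valid one_pos).1.low t t' h
  have e : (sbox 1).mu / 4 = 1 / 2 := by
    simp only [Box.mu, Box.w, Box.h, Box.l0, Box.l1, Box.l2, Box.l3, sbox]; norm_num
  rwa [e] at this

theorem continuous_Γ : Continuous Γ :=
  (LipschitzWith.of_dist_le_mul (K := 2) fun t t' => by
    rw [Real.dist_eq]; exact_mod_cast Γ_lip t t').continuous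

theorem Fan.inj {γ : ℝ → P} {o : P} {S : Set P} {μ : ℝ} (h : Fan γ o S μ) {t t' : ℝ}
    (he : γ t = γ t') : ∃ k : ℤ, t' = t + 4 * k := by
  have hp : Function.Periodic γ 4 := h.per
  refine ⟨round ((t' - t) / 4), ?_⟩
  set k := round ((t' - t) / 4) with hk
  have a1 := abs_le.1 (abs_sub_round ((t' - t) / 4))
  rw [← hk] at a1
  have a2 : |t' - (t + 4 * k)| ≤ 2 := abs_le.2 ⟨by linarith [a1.1], by linarith [a1.2]⟩
  have a3 := h.low _ _ a2
  have a4 : γ (t + 4 * k) = γ t := by rw [mul_comm]; exact hp.int_mul k t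
  rw [a4, he, dist_self] at a3
  have a5 : |t' - (t + 4 * k)| ≤ 0 := by
    by_contra hc
    have := mul_pos (div_pos h.pos four_pos) (not_le.1 hc)
    linarith
  exact sub_eq_zero.1 (abs_nonpos_iff.1 a5)

theorem Γ_inj {t t' : ℝ} (he : Γ t = Γ t') : ∃ k : ℤ, t' = t + 4 * k :=
  (sbox_valid one_pos).1.fan.inj he

/-- Side traces bound the trace of the boundary loop. -/
theorem STr.loop {U : Set P} {Λ : P → P} {τ : ℝ} (h : STr U Λ τ) :
    Tr U (fun t => Λ (Γ t)) 0 4 (4 * τ) ∧ Tr U (fun t => Λ (Γ t)) 4 8 (4 * τ) := by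
  have key : ∀ (m : ℝ → P) (a b : ℝ), b = a + 1 → Tr U m (-1) 1 τ →
      (∀ u ∈ Icc (-1 : ℝ) 1, m u = Λ (Γ (a + (u + 1) / 2))) → Tr U (fun t => Λ (Γ t)) a b τ := by
    intro m a b hb hm he
    subst hb
    have hmap : MapsTo (fun t : ℝ => 2 * (t - a) - 1) (Icc a (a + 1)) (Icc (-1) 1) :=
      fun t ht => ⟨by linarith [ht.1], by linarith [ht.2]⟩
    refine (hm.comp (by linarith) (by fun_prop) (fun x _ y _ hxy => by linarith)
      hmap).congr fun t ht => ?_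
    dsimp only
    rw [he _ (hmap ht)]
    congr 2
    ring
  have t0 := key _ 0 1 (by norm_num) h.1 fun u hu => by rw [zero_add, (Γ_eval hu).1, s0]
  have t1 := key _ 1 2 (by norm_num) h.2.1 fun u hu => by rw [(Γ_eval hu).2.1, s1]
  have t2 := key _ 2 3 (by norm_num) h.2.2.1 fun u hu => by rw [(Γ_eval hu).2.2.1, s2]
  have t3 := key _ 3 4 (by norm_num) h.2.2.2 fun u hu => by rw [(Γ_eval hu).2.2.2, s3]
  have tt : Tr U (fun t => Λ (Γ t)) 0 4 (4 * τ) :=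
    (Tr.add (by norm_num) (by norm_num) (Tr.add (by norm_num) (by norm_num)
      (Tr.add (by norm_num) (by norm_num) t0 t1) t2) t3).le (by linarith)
  refine ⟨tt, ?_⟩
  refine (tt.comp (α := fun t => t - 4) (by norm_num) (by fun_prop)
    (fun x _ y _ hxy => by dsimp only; linarith)
    fun t ht => ⟨by linarith [ht.1], by linarith [ht.2]⟩).congr fun t _ => ?_
  dsimp only
  rw [← Γ_add_four, sub_add_cancel]

theorem Γ_int (i : ℤ) : |(Γ i).1| = 1 ∧ |(Γ i).2| = 1 := by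
  induction i using Int.induction_on with
  | zero =>
    have := (Γ_eval (u := -1) ⟨le_rfl, by norm_num⟩).1
    rw [neg_add_cancel, zero_div] at this
    simp [this]
  | succ n ih =>
    rw [Int.cast_add, Int.cast_one, Γ_add_one]
    simp only [J, abs_neg]
    exact ⟨ih.2, ih.1⟩
  | pred n ih =>
    have e : ((-(n : ℤ) : ℤ) : ℝ) = ((-(n : ℤ) - 1 : ℤ) : ℝ) + 1 := by push_cast; ring
    rw [e, Γ_add_one] at ih
    simp only [J, abs_neg] at ih
    exact ⟨ih.2, ih.1⟩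

/-- Near a corner the boundary loop of a fibred chart is constant. -/
theorem Fib.corner {Λ : P → P} (h : Fib Λ) (i : ℤ) :
    ∀ᶠ t in 𝓝 (i : ℝ), Λ (Γ t) = Λ (Γ i) := by
  obtain ⟨z, z0, z1, hz⟩ := h
  have key : ∀ x y : ℝ, |y| = 1 → x - y ≤ z → y - x ≤ z →
      cl (z - 1) (1 - z) x = cl (z - 1) (1 - z) y := by
    intro x y hy h1 h2
    rcases (abs_eq zero_le_one).1 hy with e | e <;> subst e <;> unfold cl
    · rw [min_eq_left (by linarith), min_eq_left (by linarith)]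
    · rw [max_eq_left (min_le_of_right_le (by linarith)),
        max_eq_left (min_le_of_right_le (by linarith))]
  filter_upwards [continuous_Γ.continuousAt.eventually (Metric.closedBall_mem_nhds (Γ i) z0)]
    with t ht
  have hd : dist (Γ t) (Γ i) ≤ z := ht
  obtain ⟨a1, a2⟩ := le_dist_fst (Γ t) (Γ i)
  obtain ⟨a3, a4⟩ := le_dist_snd (Γ t) (Γ i)
  rw [hz _ (Γ_mem t), hz _ (Γ_mem i), key _ _ (Γ_int i).1 (a1.trans hd) (a2.trans hd),
    key _ _ (Γ_int i).2 (a3.trans hd) (a4.trans hd)]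

end Pool.Agent.Lib.MP_ecd4e3_gt
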