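import Pool.Agent.Lib.MP_ecd4e3_gt.Defs

/-! Elementary inequalities for the gain factor and the credits. -/

namespace Pool.Agent.Lib.MP_ecd4e3_gt

lemma gain_C0 : 0 < C0 := by
  unfold C0
  positivity

lemma gain_nonneg (m : ℕ) {ν : ℝ} (h : 0 ≤ ν) : 0 ≤ gn m ν := Real.rpow_nonneg (by positivity) _

lemma gain_mul (m : ℕ) {a c : ℝ} (ha : 0 ≤ a) (hc : 0 ≤ c) :
    gn m (c * a) = c ^ (1 / 16 : ℝ) * gn m a := by
  rw [gn, gn, mul_div_assoc, Real.mul_rpow hc (by positivity)]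

lemma gain_mul_le (m : ℕ) {a c : ℝ} (ha : 0 ≤ a) (hc : 1 ≤ c) : gn m (c * a) ≤ c * gn m a := by
  rw [gain_mul m ha (by linarith)]
  exact mul_le_mul_of_nonneg_right (Real.rpow_le_self_of_one_le hc (by norm_num)) (gain_nonneg m ha)

lemma gain_pow {d : ℝ} (h1 : -1 < d) (h2 : d ≤ 1) :
    1 + 17 / 16 * d + d ^ 2 / 64 - d ^ 3 / 128 ≤ (1 + d) * (1 + d) ^ (1 / 16 : ℝ) := by
  have p : 0 < 1 + d := by linarith
  have q := Real.sqrt_pos.2 p
  have a1 : √(1 + d) ≤ 1 + d / 2 - d ^ 2 / 8 + d ^ 3 / 16 := by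
    have b1 : d ^ 2 ≤ 1 := by nlinarith
    have b2 : 0 ≤ d ^ 2 * (1 + d) := by positivity
    refine Real.sqrt_le_iff.2 ⟨by linarith, ?_⟩
    have b3 : 0 ≤ d ^ 4 * (1 - d) := mul_nonneg (by positivity) (by linarith)
    have b4 : 0 ≤ d ^ 4 := by positivity
    have b5 : 0 ≤ d ^ 6 := by positivity
    linarith
  have a2 := Real.one_sub_inv_le_log_of_pos q
  rw [Real.log_sqrt p.le] at a2
  have a3 := Real.add_one_le_exp (Real.log (1 + d) * (1 / 16))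
  rw [← Real.rpow_def_of_pos p] at a3
  have a4 := mul_le_mul_of_nonneg_left a2 p.le
  have a5 := mul_le_mul_of_nonneg_left a3 p.le
  rw [mul_sub, ← div_eq_mul_inv, Real.div_sqrt] at a4
  linarith

lemma gain_sq {x s : ℝ} (hx : 0 ≤ x) (h : x ≤ 121 / 125 * s) : x ^ 2 ≤ 15 / 16 * s ^ 2 := by
  have := pow_le_pow_left₀ hx h 2
  linarith [sq_nonneg s]

theorem gn_pos (m : ℕ) {ν : ℝ} (h : 0 < ν) : 0 < gn m ν := by
  exact Real.rpow_pos_of_pos (by positivity) _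

theorem gn_le_one {m : ℕ} {ν : ℝ} (h : 0 ≤ ν) (h' : ν ≤ 2 ^ m) : gn m ν ≤ 1 := by
  exact Real.rpow_le_one (by positivity) ((div_le_one (by positivity)).2 h') (by norm_num)

theorem gn_mono (m : ℕ) {a b : ℝ} (ha : 0 ≤ a) (h : a ≤ b) : gn m a ≤ gn m b := by
  exact Real.rpow_le_rpow (by positivity) (by gcongr) (by norm_num)

theorem gn_mul_le (m : ℕ) {a c : ℝ} (ha : 0 ≤ a) (hc : 0 ≤ c) (hc' : c ≤ 16) :
    gn m (c * a) ≤ 2 * gn m a := by
  rw [gain_mul m ha hc]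
  refine mul_le_mul_of_nonneg_right ?_ (gain_nonneg m ha)
  calc c ^ (1 / 16 : ℝ) ≤ ((2 : ℝ) ^ (16 : ℕ)) ^ (1 / 16 : ℝ) :=
        Real.rpow_le_rpow hc (hc'.trans (by norm_num)) (by norm_num)
    _ = 2 := by
        rw [← Real.rpow_natCast, ← Real.rpow_mul (by norm_num)]
        norm_num

theorem gn_half (m : ℕ) (a : ℝ) : gn m (a / 2) = gn (m + 1) a := by
  rw [gn, gn, div_div, pow_succ']

lemma gain_child (m : ℕ) {a b S : ℝ} (ha : 0 ≤ a) (hb : 0 ≤ b) (h : a + b ≤ S) :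
    gn m a ≤ 2 * gn (m + 1) S := by
  rw [← gn_half]
  exact (gn_mono m ha (by linarith)).trans (gain_mul_le m (by linarith) one_le_two)

theorem ta_mul (m : ℕ) {ν : ℝ} (h : 0 ≤ ν) : ta m ν * √ν = 32 * xx m ν := by
  rw [ta, xx, mul_right_comm, mul_assoc 32, Real.mul_self_sqrt h, mul_assoc]

/-- Jensen gain under halving. -/
theorem xx_gain (m : ℕ) {a b : ℝ} (ha : 0 < a) (hb : 0 < b) :
    xx (m + 1) (a + b) * (1 + ((a - b) / (a + b)) ^ 2 / 64) ≤ xx m a + xx m b := by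
  have hS : 0 < a + b := by positivity
  obtain ⟨d, hd⟩ : ∃ d, d = (a - b) / (a + b) := ⟨_, rfl⟩
  have e1 : a = (1 + d) * ((a + b) / 2) := by
    rw [hd]
    field_simp
    ring
  have e2 : b = (1 + -d) * ((a + b) / 2) := by
    rw [hd]
    field_simp
    ring
  have p1 : 0 < 1 + d := pos_of_mul_pos_left (e1 ▸ ha) (by positivity)
  have p2 : 0 < 1 + -d := pos_of_mul_pos_left (e2 ▸ hb) (by positivity)
  have h1 := gain_pow (d := d) (by linarith) (by linarith)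
  have h2 := gain_pow (d := -d) (by linarith) (by linarith)
  have g0 := gain_nonneg (m + 1) hS.le
  rw [← hd]
  generalize a + b = S at *
  rw [e1, e2]
  simp only [xx]
  rw [gain_mul m (by positivity) p1.le, gain_mul m (by positivity) p2.le, gn_half]
  have h3 := mul_le_mul_of_nonneg_left (add_le_add h1 h2) (by positivity : 0 ≤ S / 2 * gn (m + 1) S)
  linarith

theorem xx_sum_le (m : ℕ) {a b : ℝ} (ha : 0 < a) (hb : 0 < b) :
    xx m a + xx m b ≤ 2 * xx (m + 1) (a + b) := by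
  have h1 := mul_le_mul_of_nonneg_left (gain_child m ha.le hb.le le_rfl) ha.le
  have h2 := mul_le_mul_of_nonneg_left (gain_child m hb.le ha.le (add_comm b a).le) hb.le
  simp only [xx]
  linarith

theorem ta_child (m : ℕ) {a b : ℝ} (ha : 0 < a) (hb : 0 < b) :
    ta m a ≤ 2 * ta (m + 1) (a + b) ∧ ta m b ≤ 2 * ta (m + 1) (a + b) := by
  have key : ∀ x y, 0 < x → 0 < y → x + y ≤ a + b → ta m x ≤ 2 * ta (m + 1) (a + b) := by
    intro x y hx hy h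
    have := mul_le_mul (Real.sqrt_le_sqrt (show x ≤ a + b by linarith))
      (gain_child m hx.le hy.le h) (gain_nonneg m hx.le) (Real.sqrt_nonneg _)
    simp only [ta]
    linarith
  exact ⟨key a b ha hb le_rfl, key b a hb ha (add_comm b a).le⟩

theorem xx_bal (m : ℕ) {a b : ℝ} (ha : 0 < a) (hb : 0 < b) (h : |a - b| ≤ d0 * (a + b)) :
    xx (m + 1) (a + b) / 4 ≤ xx m a ∧ xx (m + 1) (a + b) / 4 ≤ xx m b := by
  have key : ∀ x, 0 < x → (a + b) / 2 ≤ 5 / 4 * x → xx (m + 1) (a + b) / 4 ≤ xx m x := by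
    intro x hx h
    have h1 := (gn_mono m (by positivity) h).trans (gain_mul_le m hx.le (by norm_num))
    rw [gn_half] at h1
    have h2 := mul_le_mul h h1 (gain_nonneg _ (by positivity)) (by positivity)
    have h3 := mul_pos hx (gn_pos m hx)
    simp only [xx]
    linarith
  obtain ⟨h1, h2⟩ := abs_le.1 h
  simp only [d0] at h1 h2
  exact ⟨key a ha (by linarith), key b hb (by linarith)⟩

theorem cr_diff (m : ℕ) {a b : ℝ} (ha : 0 < a) (hb : 0 < b) (ha' : a ≤ 2 ^ m) (hb' : b ≤ 2 ^ m) :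
    |cr m a - cr m b| ≤ 2 * C0 * |a - b| := by
  have key : ∀ x y : ℝ, 0 < y → y ≤ x → x ≤ 2 ^ m → |cr m x - cr m y| ≤ 2 * C0 * |x - y| := by
    intro x y hy h hx
    have h1 := gain_mul_le m hy.le ((one_le_div hy).2 h)
    rw [div_mul_cancel₀ _ hy.ne'] at h1
    have h2 := mul_le_mul_of_nonneg_left h1 hy.le
    rw [← mul_assoc, mul_div_cancel₀ _ hy.ne'] at h2
    have h3 := mul_le_mul h (gn_mono m hy.le h) (gain_nonneg m hy.le) (hy.le.trans h)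
    have h4 := mul_le_mul_of_nonneg_left (gn_le_one (hy.le.trans h) hx) (sub_nonneg.2 h)
    have h5 := mul_le_mul_of_nonneg_left (gn_le_one hy.le (h.trans hx)) (sub_nonneg.2 h)
    rw [cr, cr, ← mul_sub, abs_mul, abs_of_pos gain_C0, abs_of_nonneg (sub_nonneg.2 h),
      mul_comm 2 C0, mul_assoc]
    refine mul_le_mul_of_nonneg_left (abs_le.2 ⟨?_, ?_⟩) gain_C0.le <;> simp only [xx] <;> linarith
  rcases le_total b a with h | h
  · exact key a b hb h ha'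
  · rw [abs_sub_comm, abs_sub_comm a]
    exact key b a ha h hb'

theorem cr_bd (m : ℕ) {ν : ℝ} (h : 0 < ν) (h' : ν ≤ 2 ^ m) :
    C0 * ν ≤ cr m ν ∧ cr m ν ≤ 2 * C0 * ν ∧ 0 < xx m ν ∧ xx m ν ≤ ν ∧ 0 < ta m ν ∧
      ta m ν ≤ 32 * √ν := by
  have g0 := gn_pos m h
  have g1 := gn_le_one h.le h'
  have h1 : 0 < xx m ν := mul_pos h g0
  have h2 : xx m ν ≤ ν := mul_le_of_le_one_right h.le g1
  refine ⟨mul_le_mul_of_nonneg_left (by linarith) gain_C0.le, ?_, h1, h2, by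
    unfold ta; positivity, mul_le_of_le_one_right (by positivity) g1⟩
  have := mul_pos gain_C0 h1
  rw [cr]
  linarith

theorem base_bd (m : ℕ) {ν : ℝ} (h : 0 < ν) (h' : ν ≤ 2 ^ m) :
    C0 * ν / 10 ≤ base m ν ∧ 0 ≤ bonus m ν ∧ ∀ j : ℝ, 0 ≤ j → j ≤ 2 →
      base m ν + j * bonus m ν ≤ cr m ν + (1 + j) * (k1 * C0 * xx m ν) := by
  obtain ⟨h1, -, h2, -⟩ := cr_bd m h h'
  have h3 := mul_pos gain_C0 h
  have h4 : 0 < k1 * C0 * xx m ν := mul_pos (mul_pos (by unfold k1; positivity) gain_C0) h2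
  unfold base bonus
  split_ifs
  · refine ⟨le_rfl, by linarith, fun j j0 j2 => ?_⟩
    have := mul_le_mul_of_nonneg_right j2 h3.le
    have := mul_nonneg j0 h4.le
    linarith
  · exact ⟨by linarith, h4.le, fun j _ _ => by linarith⟩

/-- Cut numerics when the trace term is small. -/
theorem num1 {W τ W1 W2 τ1 τ2 s : ℝ} (h1 : 0 ≤ W1) (h2 : 0 ≤ W2) (t1 : 0 ≤ τ1) (t2 : 0 ≤ τ2)
    (hW : W1 + W2 ≤ W) (w1 : W1 ≤ 7 / 8 * W) (w2 : W2 ≤ 7 / 8 * W) (ht : τ1 + τ2 ≤ τ)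
    (hs : BB * τ ≤ 3 / 5 * √W) (h : √W + BB * τ ≤ s) :
    (√W1 + (BB + 1000) * τ1) ^ 2 + (√W2 + (BB + 1000) * τ2) ^ 2 ≤ s ^ 2 ∧
      (√W1 + (BB + 1000) * τ1) ^ 2 ≤ 15 / 16 * s ^ 2 ∧
      (√W2 + (BB + 1000) * τ2) ^ 2 ≤ 15 / 16 * s ^ 2 := by
  have r0 := Real.sqrt_nonneg W
  have e0 := Real.sq_sqrt (show 0 ≤ W by linarith)
  have b1 : √W1 ≤ 117 / 125 * √W := Real.sqrt_le_iff.2 ⟨by positivity, by nlinarith⟩
  have b2 : √W2 ≤ 117 / 125 * √W := Real.sqrt_le_iff.2 ⟨by positivity, by nlinarith⟩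
  have e1 := Real.sq_sqrt h1
  have e2 := Real.sq_sqrt h2
  have r1 := Real.sqrt_nonneg W1
  have r2 := Real.sqrt_nonneg W2
  unfold BB at *
  refine ⟨le_trans ?_ (pow_le_pow_left₀ (by nlinarith) h 2), gain_sq (by positivity) (by linarith),
    gain_sq (by positivity) (by linarith)⟩
  have c1 := mul_le_mul_of_nonneg_right b1 t1
  have c2 := mul_le_mul_of_nonneg_right b2 t2
  have c3 := mul_le_mul_of_nonneg_left ht r0
  have c4 := pow_le_pow_left₀ (by positivity) ht 2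
  have c5 := mul_nonneg t1 t2
  have c6 := mul_le_mul_of_nonneg_right hs (show 0 ≤ τ by linarith)
  have c7 := mul_nonneg r0 (show 0 ≤ τ by linarith)
  linarith

/-- Cut numerics when the trace term is large. -/
theorem num2 {W τ W1 W2 τ1 τ2 s : ℝ} (h1 : 0 ≤ W1) (h2 : 0 ≤ W2) (t1 : 0 ≤ τ1) (t2 : 0 ≤ τ2)
    (hW : W1 + W2 ≤ W) (w1 : τ1 ≤ 11 / 20 * τ) (w2 : τ2 ≤ 11 / 20 * τ) (ht : τ1 + τ2 ≤ τ)
    (hs : √W ≤ 2 * (BB * τ)) (h : √W + BB * τ ≤ s) :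
    (√W1 + (BB + 1000) * τ1) ^ 2 + (√W2 + (BB + 1000) * τ2) ^ 2 ≤ s ^ 2 ∧
      (√W1 + (BB + 1000) * τ1) ^ 2 ≤ 15 / 16 * s ^ 2 ∧
      (√W2 + (BB + 1000) * τ2) ^ 2 ≤ 15 / 16 * s ^ 2 := by
  have r0 := Real.sqrt_nonneg W
  have e0 := Real.sq_sqrt (show 0 ≤ W by linarith)
  have b1 : √W1 ≤ √W := Real.sqrt_le_sqrt (by linarith)
  have b2 : √W2 ≤ √W := Real.sqrt_le_sqrt (by linarith)
  have e1 := Real.sq_sqrt h1
  have e2 := Real.sq_sqrt h2
  have r1 := Real.sqrt_nonneg W1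
  have r2 := Real.sqrt_nonneg W2
  have b3 : √W1 + √W2 ≤ 3 / 2 * √W :=
    le_of_sq_le_sq (by nlinarith [sq_nonneg (√W1 - √W2)]) (by positivity)
  unfold BB at *
  refine ⟨le_trans ?_ (pow_le_pow_left₀ (by nlinarith) h 2), gain_sq (by positivity) (by linarith),
    gain_sq (by positivity) (by linarith)⟩
  have t0 : 0 ≤ τ := by linarith
  have c1 := mul_le_mul_of_nonneg_left w1 r1
  have c2 := mul_le_mul_of_nonneg_left w2 r2
  have c3 := mul_le_mul_of_nonneg_left b3 t0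
  have c4 := mul_le_mul_of_nonneg_left w1 t1
  have c5 := mul_le_mul_of_nonneg_left w2 t2
  have c6 := mul_le_mul_of_nonneg_left ht t0
  have c7 := mul_nonneg r0 t0
  have c8 := mul_nonneg t0 t0
  linarith

/-- A gain proportional to `xx` pays for the boundary terms of the refined cell. -/
theorem num3 (m : ℕ) {ν W W' : ℝ} (h : 0 < ν) (hW : W ≤ 4 * C0 * ν) (hW' : 0 ≤ W')
    (hg : W' ≤ W - C0 * xx m ν / 10 ^ 33) : √W' + 5 * BB * ta m ν ≤ √W := by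
  have x0 : 0 < xx m ν := mul_pos h (gn_pos m h)
  have t0 : 0 ≤ ta m ν := mul_nonneg (by positivity) (gn_pos m h).le
  have h1 := ta_mul m h.le
  unfold C0 BB at *
  have w0 : 0 < W := by linarith
  have h2 : √W ≤ 2 * 10 ^ 50 * √ν := Real.sqrt_le_iff.2 ⟨by positivity, by
    rw [mul_pow, Real.sq_sqrt h.le]
    linarith⟩
  have h3 := mul_le_mul_of_nonneg_left h2 t0
  have h4 := Real.mul_self_sqrt w0.le
  have h5 : 5 * 10 ^ 8 * ta m ν ≤ √W :=
    le_of_mul_le_mul_right (by linarith) (Real.sqrt_pos.2 w0)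
  rw [← le_sub_iff_add_le]
  refine Real.sqrt_le_iff.2 ⟨by linarith, ?_⟩
  have h6 := mul_nonneg t0 t0
  linarith

/-- Median decomposition of a list. -/
theorem exists_median {α : Type} (S S' : List α → ℝ) (T : ℝ) (l : List α) (hl : l ≠ [])
    (h0 : S [] ≤ T / 2) (h0' : S' [] ≤ T / 2)
    (h : ∀ l1 l2, l1 ≠ [] → l2 ≠ [] → l = l1 ++ l2 → S l1 + S' l2 ≤ T) :
    ∃ l1 b l2, l = l1 ++ b :: l2 ∧ S l1 ≤ T / 2 ∧ S' l2 ≤ T / 2 := by
  suffices ∀ t : List α, t ≠ [] → ∀ p, l = p ++ t → S p ≤ T / 2 →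
      ∃ l1 b l2, l = l1 ++ b :: l2 ∧ S l1 ≤ T / 2 ∧ S' l2 ≤ T / 2 from this l hl [] rfl h0
  intro t
  induction t with
  | nil => exact fun h => absurd rfl h
  | cons b t ih =>
    intro _ p e hp
    by_cases h1 : S' t ≤ T / 2
    · exact ⟨p, b, t, e, hp, h1⟩
    have h2 : t ≠ [] := fun h3 => h1 (h3 ▸ h0')
    have h3 : l = (p ++ [b]) ++ t := by simpa using e
    exact ih h2 _ h3 (by linarith [h _ _ (by simp) h2 h3, not_le.1 h1])

end Pool.Agent.Lib.MP_ecd4e3_gt
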