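import Pool.Agent.Lib.MP_ecd4e3_gt.Zip
import Pool.Agent.Lib.MP_ecd4e3_gt.Gain

/-! Chains of blocks: basic properties, refinement in Hilbert order, cutting. -/

namespace Pool.Agent.Lib.MP_ecd4e3_gt

open Set Filter Topology

namespace Env

theorem ch_rot (E : Env) (F : Fr) : E.ch F.rot = E.ch F ∘ J := by
  funext p
  have : F.rot.W p = F.W (J p) := by
    simp only [Fr.W, Fr.rot, J]
    module
  simp only [Env.ch, Function.comp, this]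

theorem ch_left (E : Env) (F : Fr) : E.ch F.left = E.ch F ∘ A (-1) 0 := by
  funext p
  have : F.left.W p = F.W (A (-1) 0 p) := by
    simp only [Fr.W, Fr.left, A, af]
    module
  simp only [Env.ch, Function.comp, this]

theorem ch_right (E : Env) (F : Fr) : E.ch F.right = E.ch F ∘ A 0 1 := by
  funext p
  have : F.right.W p = F.W (A 0 1 p) := by
    simp only [Fr.W, Fr.right, A, af]
    module
  simp only [Env.ch, Function.comp, this]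

theorem ch_up (E : Env) (F : Fr) : Up sq (E.ch F) := by
  obtain ⟨K, hK⟩ := E.lip
  refine up_of_lip (K := max K 0 * (‖F.e1‖ + ‖F.e2‖)) fun x _ y _ => ?_
  have h1 : dist (F.W x) (F.W y) ≤ (‖F.e1‖ + ‖F.e2‖) * dist x y := by
    have e : F.W x - F.W y = (x.1 - y.1) • F.e1 + (x.2 - y.2) • F.e2 := by
      simp only [Fr.W]
      module
    have a1 : |x.1 - y.1| ≤ dist x y := by
      rw [← Real.dist_eq, Prod.dist_eq]; exact le_max_left _ _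
    have a2 : |x.2 - y.2| ≤ dist x y := by
      rw [← Real.dist_eq, Prod.dist_eq]; exact le_max_right _ _
    rw [dist_eq_norm, e]
    refine (norm_add_le _ _).trans ?_
    rw [norm_smul, norm_smul, Real.norm_eq_abs, Real.norm_eq_abs]
    nlinarith [norm_nonneg F.e1, norm_nonneg F.e2]
  calc dist (E.ch F x) (E.ch F y) ≤ K * dist (F.W x) (F.W y) := hK _ _
    _ ≤ max K 0 * dist (F.W x) (F.W y) :=
        mul_le_mul_of_nonneg_right (le_max_left _ _) dist_nonneg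
    _ ≤ max K 0 * ((‖F.e1‖ + ‖F.e2‖) * dist x y) :=
        mul_le_mul_of_nonneg_left h1 (le_max_right _ _)
    _ = _ := by ring

theorem ch_fib (E : Env) {m : ℕ} {F : Fr} (h : E.cell m F) : Fib (E.ch F) := E.fib m F h

theorem ch_tr0 (E : Env) {m : ℕ} {F : Fr} (h : E.cell m F) :
    Tr E.U (s0 (E.ch F)) (-1) 1 (ta m (E.nu F) / 8) := by
  have := E.tr m F h
  have e : ta m (E.nu F) / 8 = 4 * √(E.nu F) * gn m (E.nu F) := by unfold ta; ring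
  rw [e]; exact this

end Env

theorem s0_J (Λ : P → P) : s0 (Λ ∘ J) = s1 Λ := by
  funext u; simp [s0, s1, J]

theorem s1_J (Λ : P → P) : s1 (Λ ∘ J) = s2 Λ := by
  funext u; simp [s1, s2, J]

theorem s2_J (Λ : P → P) : s2 (Λ ∘ J) = s3 Λ := by
  funext u; simp [s2, s3, J]

theorem s3_J (Λ : P → P) : s3 (Λ ∘ J) = s0 Λ := by
  funext u; simp [s3, s0, J]

namespace Env

theorem ch_str (E : Env) {m : ℕ} {F : Fr} (h : E.cell m F) :
    STr E.U (E.ch F) (ta m (E.nu F) / 8) := by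
  obtain ⟨c1, n1⟩ := E.rot m F h
  obtain ⟨c2, n2⟩ := E.rot m _ c1
  obtain ⟨c3, n3⟩ := E.rot m _ c2
  have t0 := E.ch_tr0 h
  have t1 := E.ch_tr0 c1
  have t2 := E.ch_tr0 c2
  have t3 := E.ch_tr0 c3
  rw [n1, E.ch_rot, s0_J] at t1
  rw [n2, n1, E.ch_rot, s0_J, E.ch_rot, s1_J] at t2
  rw [n3, n2, n1, E.ch_rot, s0_J, E.ch_rot, s1_J, E.ch_rot, s2_J] at t3
  exact ⟨t0, t1, t2, t3⟩

theorem wd_half (E : Env) {m : ℕ} {F : Fr} (h : E.cell m F) :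
    ‖(1 / 2 : ℝ) • F.e1‖ ≤ ‖F.e2‖ := by
  have := E.asp m F h
  rw [norm_smul, Real.norm_eq_abs, abs_of_pos (by norm_num : (0 : ℝ) < 1 / 2)]
  linarith

/-- After halving, the rotated halves can be halved again. -/
theorem wd_child (E : Env) {m : ℕ} {F : Fr} (h : E.cell (m + 1) F) :
    F.left.rot.Wd ∧ F.right.rot.rot.rot.Wd := by
  have := E.wd_half h
  constructor
  · simpa only [Fr.Wd, Fr.rot, Fr.left, norm_neg] using this
  · simpa only [Fr.Wd, Fr.rot, Fr.right, norm_neg] using this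

theorem wd_child' (E : Env) {m : ℕ} {F : Fr} (h : E.cell (m + 1) F) :
    F.left.rot.rot.rot.Wd ∧ F.right.rot.Wd := by
  have := E.wd_half h
  constructor
  · simpa only [Fr.Wd, Fr.rot, Fr.left, norm_neg] using this
  · simpa only [Fr.Wd, Fr.rot, Fr.right, norm_neg] using this

theorem wd_even (E : Env) {m : ℕ} {F : Fr} (h : E.cell m F) (he : Even m) : F.Wd :=
  (E.evn m F h he).ge

end Env

theorem Blk.congr {E : Env} {i : It} {K K' : P → P} (h : Blk E i K) (he : EqOn K K' sq) :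
    Blk E i K' := by
  obtain ⟨hf, χ, hχ, hr⟩ := h
  exact ⟨hf.congr he, χ, hχ.congr he (fun _ _ => rfl), hr⟩

theorem Chain.le {E : Env} {Λ : P → P} {a b : ℝ} {l : List It} (h : Chain E Λ a b l) : a ≤ b := by
  induction l generalizing a with
  | nil => exact le_of_eq h
  | cons i l ih =>
    obtain ⟨x, hx, -, hc⟩ := h
    exact hx.le.trans (ih hc)

theorem Chain.lt {E : Env} {Λ : P → P} {a b : ℝ} {l : List It} (h : Chain E Λ a b l)
    (hl : l ≠ []) : a < b := by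
  cases l with
  | nil => exact absurd rfl hl
  | cons i l =>
    obtain ⟨x, hx, -, hc⟩ := h
    exact hx.trans_le hc.le

theorem chain_append {E : Env} {Λ : P → P} {a b : ℝ} {l1 l2 : List It} :
    Chain E Λ a b (l1 ++ l2) ↔ ∃ x, Chain E Λ a x l1 ∧ Chain E Λ x b l2 := by
  induction l1 generalizing a with
  | nil =>
    constructor
    · intro h; exact ⟨a, rfl, h⟩
    · rintro ⟨x, hx, h⟩
      have : a = x := hx
      subst this; exact h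
  | cons i l ih =>
    constructor
    · rintro ⟨x, hx, hb, hc⟩
      obtain ⟨y, h1, h2⟩ := ih.1 hc
      exact ⟨y, ⟨x, hx, hb, h1⟩, h2⟩
    · rintro ⟨y, ⟨x, hx, hb, h1⟩, h2⟩
      exact ⟨x, hx, hb, ih.2 ⟨y, h1, h2⟩⟩

theorem Chain.congr {E : Env} {Λ Λ' : P → P} {a b : ℝ} {l : List It} (h : Chain E Λ a b l)
    (he : ∀ p : P, p.1 ∈ Icc a b → |p.2| ≤ 1 → Λ p = Λ' p) : Chain E Λ' a b l := by
  induction l generalizing a with
  | nil => exact h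
  | cons i l ih =>
    obtain ⟨x, hx, hb, hc⟩ := h
    refine ⟨x, hx, hb.congr fun p hp => ?_, ih hc fun p hp => he p ⟨hx.le.trans hp.1, hp.2⟩⟩
    have h1 : af a x p.1 ∈ Icc a x := af_mem hx.le (abs_le.1 hp.1)
    exact he (A a x p) ⟨h1.1, h1.2.trans hc.le⟩ hp.2

theorem Chain.scale_aux {E : Env} {Λ : P → P} {a b : ℝ} (hab : a < b) {a' b' : ℝ} {l : List It}
    (h : Chain E Λ a' b' l) : Chain E (Λ ∘ A a b) (ia a b a') (ia a b b') l := by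
  induction l generalizing a' with
  | nil =>
    have : a' = b' := h
    subst this; rfl
  | cons i l ih =>
    obtain ⟨x, hx, hb, hc⟩ := h
    refine ⟨ia a b x, ?_, ?_, ih hc⟩
    · unfold ia
      have : 2 * (a' - a) / (b - a) < 2 * (x - a) / (b - a) :=
        div_lt_div_of_pos_right (by linarith) (by linarith)
      linarith
    · have e : (Λ ∘ A a b) ∘ A (ia a b a') (ia a b x) = Λ ∘ A a' x := by
        funext p
        simp only [Function.comp, A_A, af_ia hab]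
      rw [e]; exact hb

theorem Chain.scale {E : Env} {Λ : P → P} {a b : ℝ} {l : List It} (h : Chain E Λ a b l)
    (hl : l ≠ []) : Chain E (Λ ∘ A a b) (-1) 1 l := by
  have hab := h.lt hl
  have h' := h.scale_aux hab
  have e1 : ia a b a = -1 := by simp [ia]
  have e2 : ia a b b = 1 := by
    unfold ia
    rw [mul_div_assoc, div_self (by linarith)]; norm_num
  rwa [e1, e2] at h'

theorem comp_A_one (Λ : P → P) : Λ ∘ A (-1) 1 = Λ := by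
  funext p; simp only [Function.comp, A_one]

theorem chain_single {E : Env} {Λ : P → P} {i : It} : Chain E Λ (-1) 1 [i] ↔ Blk E i Λ := by
  constructor
  · rintro ⟨x, -, hb, hc⟩
    have : x = 1 := hc
    subst this
    rwa [comp_A_one] at hb
  · intro h
    exact ⟨1, by norm_num, by rwa [comp_A_one], rfl⟩

theorem Ok.ta_pos {E : Env} {i : It} (h : Ok E i) : 0 < ta i.m (E.nu i.F) :=
  (cr_bd i.m (E.pos _ _ h.1).1 (E.pos _ _ h.1).2).2.2.2.2.1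

theorem Blk.props {E : Env} {i : It} {K : P → P} (h : Blk E i K) (ho : Ok E i) :
    Fib K ∧ Up sq K ∧ STr E.U K (ta i.m (E.nu i.F)) := by
  obtain ⟨hf, χ, hχ, -⟩ := h
  refine ⟨hf, hχ.up (E.ch_up _), (hχ.str (E.ch_str ho.1)).le (le_of_eq (by ring))⟩

theorem ts_nonneg {E : Env} {l : List It} (ho : ∀ i ∈ l, Ok E i) : 0 ≤ E.ts l := by
  unfold Env.ts
  refine List.sum_nonneg fun x hx => ?_
  obtain ⟨i, hi, rfl⟩ := List.mem_map.1 hx
  exact (ho i hi).ta_pos.le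

theorem Chain.props {E : Env} {Λ : P → P} {l : List It} (h : Chain E Λ (-1) 1 l)
    (ho : ∀ i ∈ l, Ok E i) : Fib Λ ∧ Up sq Λ ∧ STr E.U Λ (E.ts l) := by
  induction l generalizing Λ with
  | nil =>
    have : (-1 : ℝ) = 1 := h
    norm_num at this
  | cons i l ih =>
    have hi := ho i (List.mem_cons_self)
    have hts : E.ts (i :: l) = ta i.m (E.nu i.F) + E.ts l := by simp [Env.ts]
    by_cases hl : l = []
    · subst hl
      have := (chain_single.1 h).props hi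
      have e : E.ts [i] = ta i.m (E.nu i.F) := by simp [Env.ts]
      rwa [e]
    · obtain ⟨x, hx, hb, hc⟩ := h
      have hx' := hc.lt hl
      have ho' : ∀ j ∈ l, Ok E j := fun j hj => ho j (List.mem_cons_of_mem _ hj)
      obtain ⟨f1, u1, t1⟩ := hb.props hi
      obtain ⟨f2, u2, t2⟩ := ih (hc.scale hl) ho'
      rw [hts]
      exact ⟨Fib.glue hx hx' f1 f2, Up.glue hx hx' u1 u2,
        STr.glue hx hx' hi.ta_pos.le (ts_nonneg ho') t1 t2⟩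

/-! ### Flat zones -/

theorem flat_of_const {Y : Type} {g : ℝ → Y} {α β y : ℝ} {v : Y}
    (h : ∀ t ∈ Icc α β, g t = v) (h1 : α < y) (h2 : y < β) : ∀ᶠ t in 𝓝 y, g t = g y := by
  filter_upwards [Icc_mem_nhds h1 h2] with t ht
  rw [h t ht, h y ⟨h1.le, h2.le⟩]

theorem cl_lo {a b x : ℝ} (_hab : a ≤ b) (h : x ≤ a) : cl a b x = a := by
  unfold cl
  exact max_eq_left ((min_le_right _ _).trans h)

theorem cl_hi {a b x : ℝ} (hab : a ≤ b) (h : b ≤ x) : cl a b x = b := by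
  unfold cl
  rw [min_eq_left h, max_eq_right hab]

/-- Along the horizontal sides a fibred chart is constant near the corners. -/
theorem Fib.hzone {K : P → P} (h : Fib K) : ∃ z : ℝ, 0 < z ∧ z ≤ 1 / 2 ∧
    ∀ y : ℝ, |y| ≤ 1 → (∀ x ∈ Icc (-1 : ℝ) (z - 1), K (x, y) = K (-1, y)) ∧
      (∀ x ∈ Icc (1 - z) (1 : ℝ), K (x, y) = K (1, y)) ∧
      (∀ x ∈ Icc (-1 : ℝ) (z - 1), K (y, x) = K (y, -1)) ∧
      (∀ x ∈ Icc (1 - z) (1 : ℝ), K (y, x) = K (y, 1)) := by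
  obtain ⟨z, hz, hz', h⟩ := h
  have hab : z - 1 ≤ 1 - z := by linarith
  have m1 : |(-1 : ℝ)| ≤ 1 := by simp
  have p1 : |(1 : ℝ)| ≤ 1 := by simp
  refine ⟨z, hz, hz', fun y hy => ⟨fun x hx => ?_, fun x hx => ?_, fun x hx => ?_, fun x hx => ?_⟩⟩
  · have hx' : |x| ≤ 1 := abs_le.2 ⟨hx.1, by linarith [hx.2]⟩
    rw [h (x, y) ⟨hx', hy⟩, h (-1, y) ⟨m1, hy⟩]
    simp only [cl_lo hab hx.2, cl_lo hab (by linarith : (-1 : ℝ) ≤ z - 1)]
  · have hx' : |x| ≤ 1 := abs_le.2 ⟨by linarith [hx.1], hx.2⟩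
    rw [h (x, y) ⟨hx', hy⟩, h (1, y) ⟨p1, hy⟩]
    simp only [cl_hi hab hx.1, cl_hi hab (by linarith : 1 - z ≤ (1 : ℝ))]
  · have hx' : |x| ≤ 1 := abs_le.2 ⟨hx.1, by linarith [hx.2]⟩
    rw [h (y, x) ⟨hy, hx'⟩, h (y, -1) ⟨hy, m1⟩]
    simp only [cl_lo hab hx.2, cl_lo hab (by linarith : (-1 : ℝ) ≤ z - 1)]
  · have hx' : |x| ≤ 1 := abs_le.2 ⟨by linarith [hx.1], hx.2⟩
    rw [h (y, x) ⟨hy, hx'⟩, h (y, 1) ⟨hy, p1⟩]
    simp only [cl_hi hab hx.1, cl_hi hab (by linarith : 1 - z ≤ (1 : ℝ))]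

/-- A chart with prescribed flat corner points. -/
theorem exists_twist {Λ : P → P} (hf : Fib Λ) {a1 a2 a3 a4 : ℝ} (h12 : a1 < a2) (h23 : a2 < a3)
    (h34 : a3 < a4) (h41 : a4 < a1 + 4)
    (f1 : ∀ᶠ t in 𝓝 a1, Λ (Γ t) = Λ (Γ a1)) (f2 : ∀ᶠ t in 𝓝 a2, Λ (Γ t) = Λ (Γ a2))
    (f3 : ∀ᶠ t in 𝓝 a3, Λ (Γ t) = Λ (Γ a3)) (f4 : ∀ᶠ t in 𝓝 a4, Λ (Γ t) = Λ (Γ a4)) :
    ∃ K χ, Fib K ∧ Eqv K Λ χ ∧ χ 1 = a1 ∧ χ 2 = a2 ∧ χ 3 = a3 ∧ χ 4 = a4 := by
  obtain ⟨χ, hχ, e1, e2⟩ := exists_lift_two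
    (u := fun x => (a2 - a1) * x + (2 * a1 - a2)) (v := fun x => (a4 - a3) * x + (4 * a3 - 3 * a4))
    (incOn_affine (by linarith) _) (incOn_affine (by linarith) _) (by linarith) (by linarith)
  have c1 : χ 1 = a1 := by rw [e1 ⟨le_rfl, by norm_num⟩]; ring
  have c2 : χ 2 = a2 := by rw [e1 ⟨by norm_num, le_rfl⟩]; ring
  have c3 : χ 3 = a3 := by rw [e2 ⟨le_rfl, by norm_num⟩]; ring
  have c4 : χ 4 = a4 := by rw [e2 ⟨by norm_num, le_rfl⟩]; ring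
  obtain ⟨K, hK, hE⟩ := twist hf hχ (by
    intro x hx
    simp only [mem_insert_iff, mem_singleton_iff] at hx
    rcases hx with rfl | rfl | rfl | rfl
    · rwa [c1]
    · rwa [c2]
    · rwa [c3]
    · rwa [c4])
  exact ⟨K, χ, hK, hE, c1, c2, c3, c4⟩

theorem Fib.corner_zone {Λ : P → P} (hf : Fib Λ) (i : ℤ) :
    ∃ δ : ℝ, 0 < δ ∧ ∀ t ∈ Icc ((i : ℝ) - δ) (i + δ), Λ (Γ t) = Λ (Γ i) := by
  obtain ⟨ε, hε, h⟩ := Metric.eventually_nhds_iff.1 (hf.corner i)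
  refine ⟨ε / 2, by linarith, fun t ht => h ?_⟩
  rw [Real.dist_eq, abs_lt]
  constructor <;> linarith [ht.1, ht.2]

theorem rho_pos (m : ℕ) : (0 : ℝ) < 1 / 4 / 2 ^ m := by positivity

theorem rho_le (m : ℕ) : (1 : ℝ) / 4 / 2 ^ m ≤ 1 / 4 :=
  div_le_self (by norm_num) (one_le_pow₀ (by norm_num))

theorem rho_succ (m : ℕ) : (1 : ℝ) / 4 / 2 ^ m = 2 * (1 / 4 / 2 ^ (m + 1)) := by
  rw [pow_succ]; field_simp

theorem blk_exists {E : Env} {m : ℕ} {F : Fr} (h : E.cell m F) (hw : F.Wd) :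
    ∃ p q K, Ty m p q ∧ Blk E ⟨m, F, p, q⟩ K := by
  have hf := E.ch_fib h
  have r0 := rho_pos m
  have r1 := rho_le m
  obtain ⟨δ4, d4, z4⟩ := hf.corner_zone 4
  push_cast at z4
  rcases Nat.even_or_odd m with he | ho
  · obtain ⟨δ1, d1, z1⟩ := hf.corner_zone 1
    push_cast at z1
    obtain ⟨δ, hδ, a1, a2, a3⟩ : ∃ δ : ℝ, 0 < δ ∧ δ < δ1 ∧ δ < δ4 ∧ δ < 1 / 4 / 2 ^ m := by
      refine ⟨min (min δ1 δ4) (1 / 4 / 2 ^ m) / 2, by positivity, ?_, ?_, ?_⟩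
      · linarith [min_le_left (min δ1 δ4) (1 / 4 / 2 ^ m), min_le_left δ1 δ4]
      · linarith [min_le_left (min δ1 δ4) (1 / 4 / 2 ^ m), min_le_right δ1 δ4]
      · linarith [min_le_right (min δ1 δ4) (1 / 4 / 2 ^ m)]
    obtain ⟨K, χ, hK, hE, c1, c2, c3, c4⟩ := exists_twist hf (a1 := 1 - δ) (a2 := 1 + δ)
      (a3 := 4 - δ) (a4 := 4 + δ) (by linarith) (by linarith) (by linarith) (by linarith)
      (flat_of_const (g := fun t => E.ch F (Γ t)) z1 (by linarith) (by linarith))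
      (flat_of_const (g := fun t => E.ch F (Γ t)) z1 (by linarith) (by linarith))
      (flat_of_const (g := fun t => E.ch F (Γ t)) z4 (by linarith) (by linarith))
      (flat_of_const (g := fun t => E.ch F (Γ t)) z4 (by linarith) (by linarith))
    refine ⟨4, 1, K, Or.inl ⟨he, Or.inl ⟨rfl, rfl⟩⟩, hK, χ, hE, ?_⟩
    simp only [c1, c2, c3, c4]
    refine ⟨?_, ?_, ?_, ?_, ?_, ?_, ?_, ?_⟩ <;> linarith
  · obtain ⟨k, hk⟩ := ho
    have hc : E.cell (2 * k) F.right := (E.half (2 * k) F (hk ▸ h) hw).2.1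
    obtain ⟨z, hz, hz', hzone⟩ := (E.ch_fib hc).hzone
    have z1 : ∀ t ∈ Icc (5 / 2 - z / 4) (5 / 2), E.ch F (Γ t) = E.ch F.right (-1, 1) := by
      intro t ht
      have hu : 2 * t - 5 ∈ Icc (-1 : ℝ) 1 := ⟨by linarith [ht.1], by linarith [ht.2]⟩
      have e := (Γ_eval hu).2.2.1
      have e' : 2 + (2 * t - 5 + 1) / 2 = t := by ring
      rw [e'] at e
      rw [e, ← (hzone 1 (by simp)).1 (9 - 4 * t) ⟨by linarith [ht.2], by linarith [ht.1]⟩,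
        E.ch_right]
      simp only [Function.comp, A, af]
      refine congrArg _ (Prod.ext ?_ rfl)
      simp only
      ring
    obtain ⟨δ, hδ, a1, a2, a3⟩ : ∃ δ : ℝ, 0 < δ ∧ δ < z / 4 ∧ δ < δ4 ∧ δ < 1 / 4 / 2 ^ m := by
      refine ⟨min (min (z / 4) δ4) (1 / 4 / 2 ^ m) / 2, by positivity, ?_, ?_, ?_⟩
      · linarith [min_le_left (min (z / 4) δ4) (1 / 4 / 2 ^ m), min_le_left (z / 4) δ4]
      · linarith [min_le_left (min (z / 4) δ4) (1 / 4 / 2 ^ m), min_le_right (z / 4) δ4]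
      · linarith [min_le_right (min (z / 4) δ4) (1 / 4 / 2 ^ m)]
    obtain ⟨K, χ, hK, hE, c1, c2, c3, c4⟩ := exists_twist hf (a1 := 5 / 2 - δ)
      (a2 := 5 / 2 - δ / 2) (a3 := 4 - δ) (a4 := 4 + δ) (by linarith) (by linarith) (by linarith)
      (by linarith)
      (flat_of_const (g := fun t => E.ch F (Γ t)) z1 (by linarith) (by linarith))
      (flat_of_const (g := fun t => E.ch F (Γ t)) z1 (by linarith) (by linarith))
      (flat_of_const (g := fun t => E.ch F (Γ t)) z4 (by linarith) (by linarith))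
      (flat_of_const (g := fun t => E.ch F (Γ t)) z4 (by linarith) (by linarith))
    refine ⟨4, 5 / 2, K, Or.inr ⟨⟨k, hk⟩, Or.inl ⟨rfl, rfl⟩⟩, hK, χ, hE, ?_⟩
    simp only [c1, c2, c3, c4]
    refine ⟨?_, ?_, ?_, ?_, ?_, ?_, ?_, ?_⟩ <;> linarith

/-! ### Refinement -/

theorem blk_mk0 {E : Env} {m : ℕ} {G : Fr} {p q : ℝ} {K : P → P} {ψ : ℝ → ℝ} (hK : Fib K)
    (h : Eqv K (E.ch G) ψ)
    (hn : 1 / 2 < ψ 1 ∧ ψ 2 < 5 / 2 ∧ 5 / 2 < ψ 3 ∧ ψ 4 < 9 / 2 ∧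
      q - 1 / 4 / 2 ^ m < ψ 1 ∧ ψ 2 < q + 1 / 4 / 2 ^ m ∧
      p - 1 / 4 / 2 ^ m < ψ 3 ∧ ψ 4 < p + 1 / 4 / 2 ^ m) : Blk E ⟨m, G, p, q⟩ K :=
  ⟨hK, ψ, h, hn⟩

theorem blk_mk1 {E : Env} {m : ℕ} {G : Fr} {p q : ℝ} {K : P → P} {ψ : ℝ → ℝ} (hK : Fib K)
    (h : Eqv K (E.ch G) ψ)
    (hn : 1 / 2 < ψ 1 - 1 ∧ ψ 2 - 1 < 5 / 2 ∧ 5 / 2 < ψ 3 - 1 ∧ ψ 4 - 1 < 9 / 2 ∧
      q - 1 / 4 / 2 ^ m < ψ 1 - 1 ∧ ψ 2 - 1 < q + 1 / 4 / 2 ^ m ∧
      p - 1 / 4 / 2 ^ m < ψ 3 - 1 ∧ ψ 4 - 1 < p + 1 / 4 / 2 ^ m) : Blk E ⟨m, G.rot, p, q⟩ K := by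
  have h' := h.trans (eqv_rot' (E.ch G))
  rw [← E.ch_rot] at h'
  exact ⟨hK, _, h', hn⟩

theorem blk_mk3 {E : Env} {m : ℕ} {G : Fr} {p q : ℝ} {K : P → P} {ψ : ℝ → ℝ} (hK : Fib K)
    (h : Eqv K (E.ch G) ψ)
    (hn : 1 / 2 < ψ 1 + 1 ∧ ψ 2 + 1 < 5 / 2 ∧ 5 / 2 < ψ 3 + 1 ∧ ψ 4 + 1 < 9 / 2 ∧
      q - 1 / 4 / 2 ^ m < ψ 1 + 1 ∧ ψ 2 + 1 < q + 1 / 4 / 2 ^ m ∧
      p - 1 / 4 / 2 ^ m < ψ 3 + 1 ∧ ψ 4 + 1 < p + 1 / 4 / 2 ^ m) :
    Blk E ⟨m, G.rot.rot.rot, p, q⟩ K := by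
  have h1 := h.trans (eqv_rot' (E.ch G))
  rw [← E.ch_rot] at h1
  have h2 := h1.trans (eqv_rot' (E.ch G.rot))
  rw [← E.ch_rot] at h2
  have h3 := h2.trans (eqv_rot' (E.ch G.rot.rot))
  rw [← E.ch_rot] at h3
  have h4 := h3.shift 1
  have e : (fun t => ψ t - 1 - 1 - 1 + 4 * ((1 : ℤ) : ℝ)) = fun t => ψ t + 1 := by
    funext t; push_cast; ring
  rw [e] at h4
  exact ⟨hK, _, h4, hn⟩

/-- Flat zones of the middle chord of a cell near its ends. -/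
theorem end_zone {E : Env} {m : ℕ} {F : Fr} (h : E.cell m F.left) : ∃ z : ℝ, 0 < z ∧ z ≤ 1 / 2 ∧
    (∀ y ∈ Icc (-1 : ℝ) (z - 1), E.ch F (0, y) = E.ch F.left (1, -1)) ∧
      ∀ y ∈ Icc (1 - z) (1 : ℝ), E.ch F (0, y) = E.ch F.left (1, 1) := by
  obtain ⟨z, hz, hz', hzone⟩ := (E.ch_fib h).hzone
  have e : ∀ y, E.ch F (0, y) = E.ch F.left (1, y) := by
    intro y
    rw [E.ch_left]
    simp only [Function.comp, A, af]
    norm_num
  refine ⟨z, hz, hz', fun y hy => ?_, fun y hy => ?_⟩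
  · rw [e, (hzone 1 (by simp)).2.2.1 y hy]
  · rw [e, (hzone 1 (by simp)).2.2.2 y hy]

/-- Flat zones of the middle chord of a cell near its midpoint. -/
theorem mid_zone {E : Env} {m : ℕ} {F : Fr} (h : E.cell (m + 1) F.left) (hw : F.left.rot.Wd) :
    ∃ z : ℝ, 0 < z ∧ z ≤ 1 / 2 ∧ ∃ v w : P,
      (∀ y ∈ Icc (0 : ℝ) z, E.ch F (0, y) = v) ∧ ∀ y ∈ Icc (-z) (0 : ℝ), E.ch F (0, y) = w := by
  obtain ⟨c1, c2, -⟩ := E.half m _ (E.rot _ _ h).1 hw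
  obtain ⟨z1, hz1, hz1', hzone1⟩ := (E.ch_fib c1).hzone
  obtain ⟨z2, hz2, hz2', hzone2⟩ := (E.ch_fib c2).hzone
  have e : ∀ y, E.ch F (0, y) = E.ch F.left.rot (y, -1) := by
    intro y
    rw [E.ch_rot, E.ch_left]
    simp only [Function.comp, A, af, J]
    norm_num
  have m1 := min_le_left z1 z2
  have m2 := min_le_right z1 z2
  have m0 : 0 < min z1 z2 := lt_min hz1 hz2
  refine ⟨min z1 z2 / 2, by linarith, by linarith, E.ch F.left.rot.right (-1, -1),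
    E.ch F.left.rot.left (1, -1), fun y hy => ?_, fun y hy => ?_⟩
  · rw [e, ← (hzone2 (-1) (by simp)).1 (2 * y - 1) ⟨by linarith [hy.1], by linarith [hy.2]⟩,
      E.ch_right]
    simp only [Function.comp, A, af]
    refine congrArg _ (Prod.ext ?_ rfl)
    simp only
    ring
  · rw [e, ← (hzone1 (-1) (by simp)).2.1 (2 * y + 1) ⟨by linarith [hy.1], by linarith [hy.2]⟩,
      E.ch_left (F := F.left.rot)]
    simp only [Function.comp, A, af]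
    refine congrArg _ (Prod.ext ?_ rfl)
    simp only
    ring

/-- Two flat points in a prescribed short interval. -/
theorem flat_pair {g : ℝ → P} {α β r : ℝ} {v : P} (hab : α < β) (hr : 0 < r)
    (h : ∀ y ∈ Icc α β, g y = v) :
    (∃ y1 y2, α < y1 ∧ y1 < y2 ∧ y2 < β ∧ y2 < α + r ∧ (∀ᶠ y in 𝓝 y1, g y = g y1) ∧
      ∀ᶠ y in 𝓝 y2, g y = g y2) ∧
    ∃ y1 y2, α < y1 ∧ y1 < y2 ∧ y2 < β ∧ β - r < y1 ∧ (∀ᶠ y in 𝓝 y1, g y = g y1) ∧
      ∀ᶠ y in 𝓝 y2, g y = g y2 := by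
  have m1 := min_le_left (β - α) r
  have m2 := min_le_right (β - α) r
  have m0 : 0 < min (β - α) r := lt_min (by linarith) hr
  constructor
  · exact ⟨α + min (β - α) r / 4, α + min (β - α) r / 2, by linarith, by linarith, by linarith,
      by linarith, flat_of_const h (by linarith) (by linarith),
      flat_of_const h (by linarith) (by linarith)⟩
  · exact ⟨β - min (β - α) r / 2, β - min (β - α) r / 4, by linarith, by linarith, by linarith,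
      by linarith, flat_of_const h (by linarith) (by linarith),
      flat_of_const h (by linarith) (by linarith)⟩

theorem refine_core {E : Env} {Λ : P → P} {l1 l2 : List It} {m : ℕ} {F : Fr} {p q : ℝ}
    (h : Chain E Λ (-1) 1 (l1 ++ ⟨m + 1, F, p, q⟩ :: l2))
    (ho : ∀ i ∈ l1 ++ ⟨m + 1, F, p, q⟩ :: l2, Ok E i) {y1 y2 : ℝ} (h1 : -1 < y1) (h12 : y1 < y2)
    (h2 : y2 < 1) (f1 : ∀ᶠ y in 𝓝 y1, E.ch F (0, y) = E.ch F (0, y1))
    (f2 : ∀ᶠ y in 𝓝 y2, E.ch F (0, y) = E.ch F (0, y2)) :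
    ∃ (Λ' K1 K2 : P → P) (χ1 χ2 : ℝ → ℝ) (t1 t2 t3 t4 : ℝ), t1 < t2 ∧ t3 < t4 ∧
      1 / 2 < t1 ∧ t2 < 5 / 2 ∧ 5 / 2 < t3 ∧ t4 < 9 / 2 ∧
      q - 1 / 4 / 2 ^ (m + 1) < t1 ∧ t2 < q + 1 / 4 / 2 ^ (m + 1) ∧
      p - 1 / 4 / 2 ^ (m + 1) < t3 ∧ t4 < p + 1 / 4 / 2 ^ (m + 1) ∧
      Fib K1 ∧ Eqv K1 (E.ch F.left) χ1 ∧
      χ1 1 = 1 + (y1 + 1) / 2 ∧ χ1 2 = 1 + (y2 + 1) / 2 ∧ χ1 3 = al1 t3 ∧ χ1 4 = al1 t4 ∧
      Fib K2 ∧ Eqv K2 (E.ch F.right) χ2 ∧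
      χ2 1 = al2 t1 ∧ χ2 2 = al2 t2 ∧ χ2 3 = 3 + (1 - y2) / 2 ∧ χ2 4 = 3 + (1 - y1) / 2 ∧
      (∀ i1 i2, Blk E i1 K1 → Blk E i2 K2 → Chain E Λ' (-1) 1 (l1 ++ i1 :: i2 :: l2)) ∧
      ∀ R : Box, R.Valid → 2000 * ta m (E.nu F.left) ≤ R.sz →
        EC E.U Λ' (R.shr (1000 * ta m (E.nu F.left))) → EC E.U Λ R := by
  have hΛ := (h.props ho).1
  obtain ⟨xa, c1, xb, hab, ⟨hK, χ, he, n1, n2, n3, n4, n5, n6, n7, n8⟩, c2⟩ := chain_append.1 h
  obtain ⟨hc, hw, -⟩ := ho _ (List.mem_append_right _ List.mem_cons_self)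
  obtain ⟨cl, cr, -⟩ := E.half m F hc hw
  have hτ : 0 < ta m (E.nu F.left) := (cr_bd m (E.pos _ _ cl).1 (E.pos _ _ cl).2).2.2.2.2.1
  have ht : Tr E.U (fun y => E.ch F (0, y)) (-1) 1 (ta m (E.nu F.left)) := by
    refine ((E.ch_str cl).2.1.le (by linarith)).congr fun y _ => ?_
    rw [E.ch_left]
    simp only [s1, Function.comp, A, af]
    norm_num
  have g1 := E.ch_fib cl
  have g2 := E.ch_fib cr
  rw [E.ch_left] at g1
  rw [E.ch_right] at g2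
  obtain ⟨Λ', xm, χ1, χ2, a1, a2, hout, k1, e1, v1, v2, v3, v4, k2, e2, w1, w2, w3, w4, hec⟩ :=
    zip E.hU c1.le hab c2.le hΛ hK (E.ch_up F) g1 g2 he n1 n2 n3 n4 h1 h12 h2 f1 f2 ht hτ
  rw [← E.ch_left] at e1
  rw [← E.ch_right] at e2
  have sm := he.isLift.strictMono
  refine ⟨Λ', Λ' ∘ A xa xm, Λ' ∘ A xm xb, χ1, χ2, χ 1, χ 2, χ 3, χ 4, sm (by norm_num),
    sm (by norm_num), n1, n2, n3, n4, n5, n6, n7, n8, k1, e1, v1, v2, v3, v4, k2, e2, w1, w2, w3,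
    w4, fun i1 i2 b1 b2 => ?_, hec⟩
  refine chain_append.2 ⟨xa, c1.congr fun z hz hz' => ?_, xm, a1, b1, xb, a2, b2,
    c2.congr fun z hz hz' => ?_⟩
  · refine (hout z ⟨abs_le.2 ⟨hz.1, ?_⟩, hz'⟩ (Or.inl hz.2)).symm
    linarith [hz.2, c2.le]
  · refine (hout z ⟨abs_le.2 ⟨?_, hz.2⟩, hz'⟩ (Or.inr hz.1)).symm
    linarith [hz.1, c1.le]

theorem al1_cases (t : ℝ) : (t ≤ 3 ∧ al1 t = 2 * t - 3) ∨ (3 ≤ t ∧ t ≤ 4 ∧ al1 t = t) ∨
    (4 ≤ t ∧ al1 t = 2 * t - 4) := by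
  unfold al1
  rcases le_total t 3 with h | h
  · left
    rw [min_eq_left (by linarith), max_eq_right (by linarith)]
    exact ⟨h, by ring⟩
  · rcases le_total t 4 with h' | h'
    · right; left
      rw [min_eq_right (by linarith), max_eq_right (by linarith)]
      exact ⟨h, h', by ring⟩
    · right; right
      rw [min_eq_right (by linarith), max_eq_left (by linarith)]
      exact ⟨h', by ring⟩

theorem al2_cases (t : ℝ) : (t ≤ 1 ∧ al2 t = 2 * t - 1) ∨ (1 ≤ t ∧ t ≤ 2 ∧ al2 t = t) ∨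
    (2 ≤ t ∧ al2 t = 2 * t - 2) := by
  unfold al2
  rcases le_total t 1 with h | h
  · left
    rw [min_eq_left (by linarith), max_eq_right (by linarith)]
    exact ⟨h, by ring⟩
  · rcases le_total t 2 with h' | h'
    · right; left
      rw [min_eq_right (by linarith), max_eq_right (by linarith)]
      exact ⟨h, h', by ring⟩
    · right; right
      rw [min_eq_right (by linarith), max_eq_left (by linarith)]
      exact ⟨h', by ring⟩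

theorem al1_bd {t : ℝ} : (∀ a, a < t → a < 2 * t - 3 → a < al1 t) ∧
    (∀ a, a < 2 * t - 4 → 3 < t → a < al1 t) ∧
    (∀ a, t < a → 2 * t - 4 < a → al1 t < a) ∧ (∀ a, 2 * t - 3 < a → t < 4 → al1 t < a) := by
  rcases al1_cases t with ⟨h, e⟩ | ⟨h, h', e⟩ | ⟨h, e⟩ <;> rw [e] <;>
    refine ⟨fun a _ _ => ?_, fun a _ _ => ?_, fun a _ _ => ?_, fun a _ _ => ?_⟩ <;> linarith

theorem al2_bd {t : ℝ} : (∀ a, a < t → a < 2 * t - 1 → a < al2 t) ∧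
    (∀ a, a < 2 * t - 2 → 1 < t → a < al2 t) ∧
    (∀ a, t < a → 2 * t - 2 < a → al2 t < a) ∧ (∀ a, 2 * t - 1 < a → t < 2 → al2 t < a) := by
  rcases al2_cases t with ⟨h, e⟩ | ⟨h, h', e⟩ | ⟨h, e⟩ <;> rw [e] <;>
    refine ⟨fun a _ _ => ?_, fun a _ _ => ?_, fun a _ _ => ?_, fun a _ _ => ?_⟩ <;> linarith

/-- Refinement of a block in Hilbert order. -/
theorem refine_chain {E : Env} {Λ : P → P} {l1 l2 : List It} {b : It} {m : ℕ}
    (h : Chain E Λ (-1) 1 (l1 ++ b :: l2)) (ho : ∀ i ∈ l1 ++ b :: l2, Ok E i)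
    (hm : b.m = m + 1) :
    ∃ (i1 i2 : It) (Λ' : P → P), Ok E i1 ∧ Ok E i2 ∧ i1.m = m ∧ i2.m = m ∧
      E.nu i1.F = E.nu b.F.left ∧ E.nu i2.F = E.nu b.F.right ∧
      Chain E Λ' (-1) 1 (l1 ++ i1 :: i2 :: l2) ∧
      ∀ R : Box, R.Valid → 2000 * ta m (E.nu b.F.left) ≤ R.sz →
        EC E.U Λ' (R.shr (1000 * ta m (E.nu b.F.left))) → EC E.U Λ R := by
  obtain ⟨m', F, p, q⟩ := b
  simp only at hm ⊢
  subst hm
  obtain ⟨hc, hw, hty⟩ := ho _ (List.mem_append_right _ List.mem_cons_self)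
  simp only at hc hw hty
  obtain ⟨cl, cr, -⟩ := E.half m F hc hw
  obtain ⟨cl1, nl1⟩ := E.rot _ _ cl
  obtain ⟨cl2, nl2⟩ := E.rot _ _ cl1
  obtain ⟨cl3, nl3⟩ := E.rot _ _ cl2
  obtain ⟨cr1, nr1⟩ := E.rot _ _ cr
  obtain ⟨cr2, nr2⟩ := E.rot _ _ cr1
  obtain ⟨cr3, nr3⟩ := E.rot _ _ cr2
  rw [nl2, nl1] at nl3
  rw [nr2, nr1] at nr3
  obtain ⟨wl1, wr3⟩ := E.wd_child hc
  obtain ⟨wl3, wr1⟩ := E.wd_child' hc
  have r0 := rho_pos (m + 1)
  have r1 := rho_le m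
  have r2 := rho_succ m
  rcases hty with ⟨hev, hty⟩ | ⟨hod, hty⟩
  · have hod : Odd m := by
      rcases Nat.even_or_odd m with h' | h'
      · exact absurd hev (Nat.not_even_iff_odd.2 h'.add_one)
      · exact h'
    obtain ⟨k, hk⟩ := hod
    obtain ⟨z, hz, hz', v, w, zv, zw⟩ := mid_zone (m := 2 * k) (hk ▸ cl) wl1
    rcases hty with ⟨rfl, rfl⟩ | ⟨rfl, rfl⟩
    · obtain ⟨y1, y2, a1, a2, a3, a4, f1, f2⟩ := (flat_pair hz r0 zv).1
      obtain ⟨Λ', K1, K2, χ1, χ2, t1, t2, t3, t4, s1, s2, n1, n2, n3, n4, n5, n6, n7, n8, k1, e1,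
        v1, v2, v3, v4, k2, e2, w1, w2, w3, w4, hch, hec⟩ :=
        refine_core h ho (by linarith only [a1, hz']) a2 (by linarith only [a3, hz']) f1 f2
      have b3 := (al1_bd (t := t3)).1 (4 - 1 / 4 / 2 ^ m)
        (by linarith only [n1, n2, n3, n4, n5, n6, n7, n8, r0, r1, r2])
        (by linarith only [n1, n2, n3, n4, n5, n6, n7, n8, r0, r1, r2])
      have b4 := (al1_bd (t := t4)).2.2.1 (4 + 1 / 4 / 2 ^ m)
        (by linarith only [n1, n2, n3, n4, n5, n6, n7, n8, r0, r1, r2])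
        (by linarith only [n1, n2, n3, n4, n5, n6, n7, n8, r0, r1, r2])
      have b1 := (al2_bd (t := t1)).1 (1 - 1 / 4 / 2 ^ m)
        (by linarith only [n1, n2, n3, n4, n5, n6, n7, n8, r0, r1, r2])
        (by linarith only [n1, n2, n3, n4, n5, n6, n7, n8, r0, r1, r2])
      have b2 := (al2_bd (t := t2)).2.2.1 (1 + 1 / 4 / 2 ^ m)
        (by linarith only [n1, n2, n3, n4, n5, n6, n7, n8, r0, r1, r2])
        (by linarith only [n1, n2, n3, n4, n5, n6, n7, n8, r0, r1, r2])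
      refine ⟨⟨m, F.left.rot, 3, 1 / 2⟩, ⟨m, F.right.rot.rot.rot, 9 / 2, 2⟩, Λ',
        ⟨cl1, wl1, Or.inr ⟨⟨k, hk⟩, Or.inr (Or.inl ⟨rfl, rfl⟩)⟩⟩,
        ⟨cr3, wr3, Or.inr ⟨⟨k, hk⟩, Or.inr (Or.inr (Or.inr ⟨rfl, rfl⟩))⟩⟩, rfl, rfl, nl1, nr3,
        hch _ _ (blk_mk1 k1 e1 ?_) (blk_mk3 k2 e2 ?_), hec⟩
      · rw [v1, v2, v3, v4]
        refine ⟨?_, ?_, ?_, ?_, ?_, ?_, ?_, ?_⟩ <;>
          linarith only [a1, a2, a3, a4, b1, b2, b3, b4, r0, r1, r2, hz']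
      · rw [w1, w2, w3, w4]
        refine ⟨?_, ?_, ?_, ?_, ?_, ?_, ?_, ?_⟩ <;>
          linarith only [a1, a2, a3, a4, b1, b2, b3, b4, r0, r1, r2, hz']
    · obtain ⟨y1, y2, a1, a2, a3, a4, f1, f2⟩ := (flat_pair (by linarith) r0 zw).2
      obtain ⟨Λ', K1, K2, χ1, χ2, t1, t2, t3, t4, s1, s2, n1, n2, n3, n4, n5, n6, n7, n8, k1, e1,
        v1, v2, v3, v4, k2, e2, w1, w2, w3, w4, hch, hec⟩ :=
        refine_core h ho (by linarith only [a1, hz']) a2 (by linarith only [a3, hz']) f1 f2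
      have b3 := (al1_bd (t := t3)).1 (3 - 1 / 4 / 2 ^ m)
        (by linarith only [n1, n2, n3, n4, n5, n6, n7, n8, r0, r1, r2])
        (by linarith only [n1, n2, n3, n4, n5, n6, n7, n8, r0, r1, r2])
      have b4 := (al1_bd (t := t4)).2.2.1 (3 + 1 / 4 / 2 ^ m)
        (by linarith only [n1, n2, n3, n4, n5, n6, n7, n8, r0, r1, r2])
        (by linarith only [n1, n2, n3, n4, n5, n6, n7, n8, r0, r1, r2])
      have b1 := (al2_bd (t := t1)).1 (2 - 1 / 4 / 2 ^ m)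
        (by linarith only [n1, n2, n3, n4, n5, n6, n7, n8, r0, r1, r2])
        (by linarith only [n1, n2, n3, n4, n5, n6, n7, n8, r0, r1, r2])
      have b2 := (al2_bd (t := t2)).2.2.1 (2 + 1 / 4 / 2 ^ m)
        (by linarith only [n1, n2, n3, n4, n5, n6, n7, n8, r0, r1, r2])
        (by linarith only [n1, n2, n3, n4, n5, n6, n7, n8, r0, r1, r2])
      refine ⟨⟨m, F.left.rot.rot.rot, 4, 5 / 2⟩, ⟨m, F.right.rot, 5 / 2, 1⟩, Λ',
        ⟨cl3, wl3, Or.inr ⟨⟨k, hk⟩, Or.inl ⟨rfl, rfl⟩⟩⟩,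
        ⟨cr1, wr1, Or.inr ⟨⟨k, hk⟩, Or.inr (Or.inr (Or.inl ⟨rfl, rfl⟩))⟩⟩, rfl, rfl, nl3, nr1,
        hch _ _ (blk_mk3 k1 e1 ?_) (blk_mk1 k2 e2 ?_), hec⟩
      · rw [v1, v2, v3, v4]
        refine ⟨?_, ?_, ?_, ?_, ?_, ?_, ?_, ?_⟩ <;>
          linarith only [a1, a2, a3, a4, b1, b2, b3, b4, r0, r1, r2, hz']
      · rw [w1, w2, w3, w4]
        refine ⟨?_, ?_, ?_, ?_, ?_, ?_, ?_, ?_⟩ <;>
          linarith only [a1, a2, a3, a4, b1, b2, b3, b4, r0, r1, r2, hz']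
  · have hev : Even m := by
      rcases Nat.even_or_odd m with h' | h'
      · exact h'
      · exact absurd h'.add_one (Nat.not_even_iff_odd.2 hod)
    have wl := E.wd_even cl hev
    have wr := E.wd_even cr hev
    obtain ⟨z, hz, hz', zv, zw⟩ := end_zone cl
    rcases hty with ⟨rfl, rfl⟩ | ⟨rfl, rfl⟩ | ⟨rfl, rfl⟩ | ⟨rfl, rfl⟩
    · obtain ⟨y1, y2, a1, a2, a3, a4, f1, f2⟩ := (flat_pair (by linarith) r0 zv).1
      obtain ⟨Λ', K1, K2, χ1, χ2, t1, t2, t3, t4, s1, s2, n1, n2, n3, n4, n5, n6, n7, n8, k1, e1,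
        v1, v2, v3, v4, k2, e2, w1, w2, w3, w4, hch, hec⟩ :=
        refine_core h ho (by linarith only [a1, hz']) a2 (by linarith only [a3, hz']) f1 f2
      have b3 := (al1_bd (t := t3)).1 (4 - 1 / 4 / 2 ^ m)
        (by linarith only [n1, n2, n3, n4, n5, n6, n7, n8, r0, r1, r2])
        (by linarith only [n1, n2, n3, n4, n5, n6, n7, n8, r0, r1, r2])
      have b4 := (al1_bd (t := t4)).2.2.1 (4 + 1 / 4 / 2 ^ m)
        (by linarith only [n1, n2, n3, n4, n5, n6, n7, n8, r0, r1, r2])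
        (by linarith only [n1, n2, n3, n4, n5, n6, n7, n8, r0, r1, r2])
      have b1 := (al2_bd (t := t1)).2.1 (3 - 1 / 4 / 2 ^ m)
        (by linarith only [n1, n2, n3, n4, n5, n6, n7, n8, r0, r1, r2])
        (by linarith only [n1, n2, n3, n4, n5, n6, n7, n8, r0, r1, r2])
      have b2 := (al2_bd (t := t2)).2.2.1 3
        (by linarith only [n1, n2, n3, n4, n5, n6, n7, n8, r0, r1, r2])
        (by linarith only [n1, n2, n3, n4, n5, n6, n7, n8, r0, r1, r2])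
      refine ⟨⟨m, F.left, 4, 1⟩, ⟨m, F.right.rot, 3, 2⟩, Λ',
        ⟨cl, wl, Or.inl ⟨hev, Or.inl ⟨rfl, rfl⟩⟩⟩,
        ⟨cr1, wr1, Or.inl ⟨hev, Or.inr ⟨rfl, rfl⟩⟩⟩, rfl, rfl, rfl, nr1,
        hch _ _ (blk_mk0 k1 e1 ?_) (blk_mk1 k2 e2 ?_), hec⟩
      · rw [v1, v2, v3, v4]
        refine ⟨?_, ?_, ?_, ?_, ?_, ?_, ?_, ?_⟩ <;>
          linarith only [a1, a2, a3, a4, b1, b2, b3, b4, r0, r1, r2, hz']
      · rw [w1, w2, w3, w4]
        refine ⟨?_, ?_, ?_, ?_, ?_, ?_, ?_, ?_⟩ <;>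
          linarith only [a1, a2, a3, a4, b1, b2, b3, b4, r0, r1, r2, hz']
    · obtain ⟨y1, y2, a1, a2, a3, a4, f1, f2⟩ := (flat_pair (by linarith) r0 zw).2
      obtain ⟨Λ', K1, K2, χ1, χ2, t1, t2, t3, t4, s1, s2, n1, n2, n3, n4, n5, n6, n7, n8, k1, e1,
        v1, v2, v3, v4, k2, e2, w1, w2, w3, w4, hch, hec⟩ :=
        refine_core h ho (by linarith only [a1, hz']) a2 (by linarith only [a3, hz']) f1 f2
      have b3 := (al1_bd (t := t3)).1 (3 - 1 / 4 / 2 ^ m)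
        (by linarith only [n1, n2, n3, n4, n5, n6, n7, n8, r0, r1, r2])
        (by linarith only [n1, n2, n3, n4, n5, n6, n7, n8, r0, r1, r2])
      have b4 := (al1_bd (t := t4)).2.2.1 (3 + 1 / 4 / 2 ^ m)
        (by linarith only [n1, n2, n3, n4, n5, n6, n7, n8, r0, r1, r2])
        (by linarith only [n1, n2, n3, n4, n5, n6, n7, n8, r0, r1, r2])
      have b1 := (al2_bd (t := t1)).1 0
        (by linarith only [n1, n2, n3, n4, n5, n6, n7, n8, r0, r1, r2])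
        (by linarith only [n1, n2, n3, n4, n5, n6, n7, n8, r0, r1, r2])
      have b2 := (al2_bd (t := t2)).2.2.2 (1 / 4 / 2 ^ m)
        (by linarith only [n1, n2, n3, n4, n5, n6, n7, n8, r0, r1, r2])
        (by linarith only [n1, n2, n3, n4, n5, n6, n7, n8, r0, r1, r2])
      refine ⟨⟨m, F.left, 3, 2⟩, ⟨m, F.right.rot.rot.rot, 4, 1⟩, Λ',
        ⟨cl, wl, Or.inl ⟨hev, Or.inr ⟨rfl, rfl⟩⟩⟩,
        ⟨cr3, wr3, Or.inl ⟨hev, Or.inl ⟨rfl, rfl⟩⟩⟩, rfl, rfl, rfl, nr3,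
        hch _ _ (blk_mk0 k1 e1 ?_) (blk_mk3 k2 e2 ?_), hec⟩
      · rw [v1, v2, v3, v4]
        refine ⟨?_, ?_, ?_, ?_, ?_, ?_, ?_, ?_⟩ <;>
          linarith only [a1, a2, a3, a4, b1, b2, b3, b4, r0, r1, r2, hz']
      · rw [w1, w2, w3, w4]
        refine ⟨?_, ?_, ?_, ?_, ?_, ?_, ?_, ?_⟩ <;>
          linarith only [a1, a2, a3, a4, b1, b2, b3, b4, r0, r1, r2, hz']
    · obtain ⟨y1, y2, a1, a2, a3, a4, f1, f2⟩ := (flat_pair (by linarith) r0 zv).1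
      obtain ⟨Λ', K1, K2, χ1, χ2, t1, t2, t3, t4, s1, s2, n1, n2, n3, n4, n5, n6, n7, n8, k1, e1,
        v1, v2, v3, v4, k2, e2, w1, w2, w3, w4, hch, hec⟩ :=
        refine_core h ho (by linarith only [a1, hz']) a2 (by linarith only [a3, hz']) f1 f2
      have b3 := (al1_bd (t := t3)).1 2
        (by linarith only [n1, n2, n3, n4, n5, n6, n7, n8, r0, r1, r2])
        (by linarith only [n1, n2, n3, n4, n5, n6, n7, n8, r0, r1, r2])
      have b4 := (al1_bd (t := t4)).2.2.2 (2 + 1 / 4 / 2 ^ m)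
        (by linarith only [n1, n2, n3, n4, n5, n6, n7, n8, r0, r1, r2])
        (by linarith only [n1, n2, n3, n4, n5, n6, n7, n8, r0, r1, r2])
      have b1 := (al2_bd (t := t1)).1 (1 - 1 / 4 / 2 ^ m)
        (by linarith only [n1, n2, n3, n4, n5, n6, n7, n8, r0, r1, r2])
        (by linarith only [n1, n2, n3, n4, n5, n6, n7, n8, r0, r1, r2])
      have b2 := (al2_bd (t := t2)).2.2.1 (1 + 1 / 4 / 2 ^ m)
        (by linarith only [n1, n2, n3, n4, n5, n6, n7, n8, r0, r1, r2])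
        (by linarith only [n1, n2, n3, n4, n5, n6, n7, n8, r0, r1, r2])
      refine ⟨⟨m, F.left.rot.rot.rot, 3, 2⟩, ⟨m, F.right, 4, 1⟩, Λ',
        ⟨cl3, wl3, Or.inl ⟨hev, Or.inr ⟨rfl, rfl⟩⟩⟩,
        ⟨cr, wr, Or.inl ⟨hev, Or.inl ⟨rfl, rfl⟩⟩⟩, rfl, rfl, nl3, rfl,
        hch _ _ (blk_mk3 k1 e1 ?_) (blk_mk0 k2 e2 ?_), hec⟩
      · rw [v1, v2, v3, v4]
        refine ⟨?_, ?_, ?_, ?_, ?_, ?_, ?_, ?_⟩ <;>
          linarith only [a1, a2, a3, a4, b1, b2, b3, b4, r0, r1, r2, hz']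
      · rw [w1, w2, w3, w4]
        refine ⟨?_, ?_, ?_, ?_, ?_, ?_, ?_, ?_⟩ <;>
          linarith only [a1, a2, a3, a4, b1, b2, b3, b4, r0, r1, r2, hz']
    · obtain ⟨y1, y2, a1, a2, a3, a4, f1, f2⟩ := (flat_pair (by linarith) r0 zw).2
      obtain ⟨Λ', K1, K2, χ1, χ2, t1, t2, t3, t4, s1, s2, n1, n2, n3, n4, n5, n6, n7, n8, k1, e1,
        v1, v2, v3, v4, k2, e2, w1, w2, w3, w4, hch, hec⟩ :=
        refine_core h ho (by linarith only [a1, hz']) a2 (by linarith only [a3, hz']) f1 f2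
      have b3 := (al1_bd (t := t3)).2.1 (5 - 1 / 4 / 2 ^ m)
        (by linarith only [n1, n2, n3, n4, n5, n6, n7, n8, r0, r1, r2])
        (by linarith only [n1, n2, n3, n4, n5, n6, n7, n8, r0, r1, r2])
      have b4 := (al1_bd (t := t4)).2.2.1 5
        (by linarith only [n1, n2, n3, n4, n5, n6, n7, n8, r0, r1, r2])
        (by linarith only [n1, n2, n3, n4, n5, n6, n7, n8, r0, r1, r2])
      have b1 := (al2_bd (t := t1)).1 (2 - 1 / 4 / 2 ^ m)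
        (by linarith only [n1, n2, n3, n4, n5, n6, n7, n8, r0, r1, r2])
        (by linarith only [n1, n2, n3, n4, n5, n6, n7, n8, r0, r1, r2])
      have b2 := (al2_bd (t := t2)).2.2.1 (2 + 1 / 4 / 2 ^ m)
        (by linarith only [n1, n2, n3, n4, n5, n6, n7, n8, r0, r1, r2])
        (by linarith only [n1, n2, n3, n4, n5, n6, n7, n8, r0, r1, r2])
      refine ⟨⟨m, F.left.rot, 4, 1⟩, ⟨m, F.right, 3, 2⟩, Λ',
        ⟨cl1, wl1, Or.inl ⟨hev, Or.inl ⟨rfl, rfl⟩⟩⟩,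
        ⟨cr, wr, Or.inl ⟨hev, Or.inr ⟨rfl, rfl⟩⟩⟩, rfl, rfl, nl1, rfl,
        hch _ _ (blk_mk1 k1 e1 ?_) (blk_mk0 k2 e2 ?_), hec⟩
      · rw [v1, v2, v3, v4]
        refine ⟨?_, ?_, ?_, ?_, ?_, ?_, ?_, ?_⟩ <;>
          linarith only [a1, a2, a3, a4, b1, b2, b3, b4, r0, r1, r2, hz']
      · rw [w1, w2, w3, w4]
        refine ⟨?_, ?_, ?_, ?_, ?_, ?_, ?_, ?_⟩ <;>
          linarith only [a1, a2, a3, a4, b1, b2, b3, b4, r0, r1, r2, hz']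

end Pool.Agent.Lib.MP_ecd4e3_gt
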