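import Pool.Agent.Lib.MP_ecd4e3_gt.Eqv

/-! Gluing of solutions and of changes of coordinates along vertical chords. -/

namespace Pool.Agent.Lib.MP_ecd4e3_gt

open Set Filter Topology

namespace Gl

theorem msq {p : P} : p ∈ sq ↔ (-1 ≤ p.1 ∧ p.1 ≤ 1) ∧ (-1 ≤ p.2 ∧ p.2 ≤ 1) := by
  simp only [sq, mem_ofPred_eq, abs_le]

theorem mk_sq {a b : ℝ} (ha : a ∈ Icc (-1 : ℝ) 1) (hb : b ∈ Icc (-1 : ℝ) 1) : (a, b) ∈ sq :=
  msq.2 ⟨ha, hb⟩

theorem m1 : (1 : ℝ) ∈ Icc (-1 : ℝ) 1 := ⟨by norm_num, le_rfl⟩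

theorem m1' : (-1 : ℝ) ∈ Icc (-1 : ℝ) 1 := ⟨le_rfl, by norm_num⟩

theorem mneg {u : ℝ} (h : u ∈ Icc (-1 : ℝ) 1) : -u ∈ Icc (-1 : ℝ) 1 :=
  ⟨by linarith [h.2], by linarith [h.1]⟩

theorem af_l (a b : ℝ) : af a b (-1) = a := by simp [af]

theorem af_r (a b : ℝ) : af a b 1 = b := by simp [af]

theorem ia_l (a b : ℝ) : ia a b a = -1 := by simp [ia]

theorem ia_r {a b : ℝ} (h : a < b) : ia a b b = 1 := by
  have : b - a ≠ 0 := (sub_pos.2 h).ne'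
  unfold ia
  field_simp
  ring

theorem af_neg (a b u : ℝ) : af (-b) (-a) (-u) = -af a b u := by
  unfold af
  ring

theorem ia_lt {a b x y : ℝ} (h : a < b) (hxy : x < y) : ia a b x < ia a b y := by
  have := sub_pos.2 h
  unfold ia
  gcongr

theorem ia_le {a b x y : ℝ} (h : a < b) (hxy : x ≤ y) : ia a b x ≤ ia a b y := by
  have := sub_pos.2 h
  unfold ia
  gcongr

theorem af_sub_l (a b s : ℝ) {κ : ℝ} (h : -1 < κ) :
    af a (af a b κ) (ia (-1) κ s) = af a b s := by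
  have := af_af a b (-1) κ (ia (-1) κ s)
  rw [af_ia h, af_l] at this
  exact this.symm

theorem af_sub_r (a b s : ℝ) {κ : ℝ} (h : κ < 1) :
    af (af a b κ) b (ia κ 1 s) = af a b s := by
  have := af_af a b κ 1 (ia κ 1 s)
  rw [af_ia h, af_r] at this
  exact this.symm

/-- The inverse of `A a b`. -/
noncomputable def B (a b : ℝ) (p : P) : P := (ia a b p.1, p.2)

theorem B_A {a b : ℝ} (h : a < b) (p : P) : B a b (A a b p) = p := by
  simp only [A, B, ia_af h]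

theorem A_B {a b : ℝ} (h : a < b) (p : P) : A a b (B a b p) = p := by
  simp only [A, B, af_ia h]

theorem B_mem {a b : ℝ} (h : a < b) {p : P} (hp : p ∈ sq) (h1 : a ≤ p.1) (h2 : p.1 ≤ b) :
    B a b p ∈ sq := mk_sq (ia_mem h ⟨h1, h2⟩) (msq.1 hp).2

theorem up_B (a b : ℝ) (S : Set P) : Up S (B a b) := by
  refine up_of_lip (K := |2 / (b - a)| + 1) fun p _ q _ => ?_
  have e : ia a b p.1 - ia a b q.1 = 2 / (b - a) * (p.1 - q.1) := by
    unfold ia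
    ring
  have h1 : |p.1 - q.1| ≤ dist p q := by
    rw [Prod.dist_eq]
    exact le_max_left _ _
  have h2 : dist p.2 q.2 ≤ dist p q := by
    rw [Prod.dist_eq]
    exact le_max_right _ _
  have h3 := abs_nonneg (2 / (b - a))
  have h4 := dist_nonneg (x := p) (y := q)
  rw [Prod.dist_eq]
  refine max_le ?_ ?_
  · change |ia a b p.1 - ia a b q.1| ≤ _
    rw [e, abs_mul]
    nlinarith [mul_le_mul_of_nonneg_left h1 h3]
  · change dist p.2 q.2 ≤ _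
    nlinarith [mul_nonneg h3 h4]

theorem low_B {a b : ℝ} (h : a < b) (S : Set P) : Low S (B a b) :=
  low_of_inv (up_A a b univ) (up_B a b S).continuousOn (mapsTo_univ _ _) fun p _ => A_B h p

/-- The left part of the square. -/
def SL (x : ℝ) : Set P := {p | p ∈ sq ∧ p.1 ≤ x}

/-- The right part of the square. -/
def SR (x : ℝ) : Set P := {p | p ∈ sq ∧ x ≤ p.1}

theorem SL_closed (x : ℝ) : IsClosed (SL x) :=
  isCompact_sq.isClosed.inter (isClosed_le continuous_fst continuous_const)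

theorem SR_closed (x : ℝ) : IsClosed (SR x) :=
  isCompact_sq.isClosed.inter (isClosed_le continuous_const continuous_fst)

theorem SL_SR (x : ℝ) : SL x ∪ SR x = sq := by
  ext p
  refine ⟨fun h => h.elim (fun h => h.1) fun h => h.1, fun h => ?_⟩
  rcases le_total p.1 x with h' | h'
  exacts [Or.inl ⟨h, h'⟩, Or.inr ⟨h, h'⟩]

theorem B_SL {x : ℝ} (hx : -1 < x) : MapsTo (B (-1) x) (SL x) sq :=
  fun _ h => B_mem hx h.1 (msq.1 h.1).1.1 h.2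

theorem B_SR {x : ℝ} (hx : x < 1) : MapsTo (B x 1) (SR x) sq :=
  fun _ h => B_mem hx h.1 h.2 (msq.1 h.1).1.2

theorem A_SL {x : ℝ} (hx : -1 < x) (hx' : x < 1) : MapsTo (A (-1) x) sq (SL x) :=
  fun _ h => ⟨A_mem le_rfl hx.le hx'.le h, (af_mem hx.le (msq.1 h).1).2⟩

theorem A_SR {x : ℝ} (hx : -1 < x) (hx' : x < 1) : MapsTo (A x 1) sq (SR x) :=
  fun _ h => ⟨A_mem hx.le hx'.le le_rfl h, (af_mem hx'.le (msq.1 h).1).1⟩

theorem sq_cases {x : ℝ} (hx : -1 < x) (hx' : x < 1) {p : P} (hp : p ∈ sq) :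
    (∃ q ∈ sq, p = A (-1) x q) ∨ ∃ q ∈ sq, p = A x 1 q := by
  rcases le_total p.1 x with h | h
  · exact Or.inl ⟨_, B_SL hx ⟨hp, h⟩, (A_B hx p).symm⟩
  · exact Or.inr ⟨_, B_SR hx' ⟨hp, h⟩, (A_B hx' p).symm⟩

open Classical in
/-- Two maps side by side. -/
noncomputable def jn (x : ℝ) (f1 f2 : P → P) (p : P) : P :=
  if p.1 ≤ x then f1 (B (-1) x p) else f2 (B x 1 p)

theorem jn_l {x : ℝ} (f1 f2 : P → P) {p : P} (h : p ∈ SL x) : jn x f1 f2 p = f1 (B (-1) x p) :=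
  if_pos h.2

theorem jn_r {x : ℝ} (hx : -1 < x) {f1 f2 : P → P}
    (hi : ∀ y ∈ Icc (-1 : ℝ) 1, f1 (1, y) = f2 (-1, y)) {p : P} (h : p ∈ SR x) :
    jn x f1 f2 p = f2 (B x 1 p) := by
  unfold jn
  split_ifs with h'
  · have e : p.1 = x := le_antisymm h' h.2
    simp only [B, e, ia_l, ia_r hx]
    exact hi _ (msq.1 h.1).2
  · rfl

theorem jn_A {x : ℝ} (hx : -1 < x) (hx' : x < 1) {f1 f2 : P → P}
    (hi : ∀ y ∈ Icc (-1 : ℝ) 1, f1 (1, y) = f2 (-1, y)) {p : P} (hp : p ∈ sq) :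
    jn x f1 f2 (A (-1) x p) = f1 p ∧ jn x f1 f2 (A x 1 p) = f2 p :=
  ⟨by rw [jn_l _ _ (A_SL hx hx' hp), B_A hx], by rw [jn_r hx hi (A_SR hx hx' hp), B_A hx']⟩

end Gl

open Gl

theorem glue_emb {U : Set P} {Λ : P → P} {x : ℝ} (hx : -1 < x) (hx' : x < 1) {S1 S2 S : Set P}
    {f1 f2 : P → P} (h1 : Emb U (Λ ∘ A (-1) x) S1 f1) (h2 : Emb U (Λ ∘ A x 1) S2 f2)
    (hi : ∀ y ∈ Icc (-1 : ℝ) 1, f1 (1, y) = f2 (-1, y))
    (hS : ∀ p ∈ S1, p ∈ S2 → ∃ y ∈ Icc (-1 : ℝ) 1, p = f1 (1, y)) (s1 : S1 ⊆ S) (s2 : S2 ⊆ S) :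
    ∃ f, Emb U Λ S f ∧ ∀ p ∈ sq, f (A (-1) x p) = f1 p ∧ f (A x 1 p) = f2 p := by
  have eL : EqOn (fun p => f1 (B (-1) x p)) (jn x f1 f2) (SL x) := fun p h => (jn_l _ _ h).symm
  have eR : EqOn (fun p => f2 (B x 1 p)) (jn x f1 f2) (SR x) := fun p h => (jn_r hx hi h).symm
  have iL : InjOn (jn x f1 f2) (SL x) := fun p hp q hq e => by
    rw [← eL hp, ← eL hq] at e
    rw [← A_B hx p, h1.inj (B_SL hx hp) (B_SL hx hq) e, A_B hx]
  have iR : InjOn (jn x f1 f2) (SR x) := fun p hp q hq e => by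
    rw [← eR hp, ← eR hq] at e
    rw [← A_B hx' p, h2.inj (B_SR hx' hp) (B_SR hx' hq) e, A_B hx']
  have iM : ∀ p ∈ SL x, ∀ q ∈ SR x, jn x f1 f2 p = jn x f1 f2 q → p = q := fun p hp q hq e => by
    have m : f1 (B (-1) x p) ∈ S2 := by
      have := h2.maps (B_SR hx' hq)
      rwa [show f2 (B x 1 q) = _ from eR hq, ← e, ← eL hp] at this
    obtain ⟨y, hy, e'⟩ := hS _ (h1.maps (B_SL hx hp)) m
    have e1 := h1.inj (B_SL hx hp) (mk_sq m1 hy) e'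
    have e2 : p.1 = x := by
      rw [← A_B hx p, e1]
      exact af_r _ _
    exact iR ⟨hp.1, e2.ge⟩ hq e
  refine ⟨jn x f1 f2, ⟨?_, ?_, ?_, ?_, ?_⟩, fun p hp => jn_A hx hx' hi hp⟩
  · rw [← SL_SR x]
    exact Up.union (SL_closed x) (SR_closed x) ((h1.up.comp (up_B _ _ _) (B_SL hx)).congr eL)
      ((h2.up.comp (up_B _ _ _) (B_SR hx')).congr eR)
  · rw [← SL_SR x]
    exact Low.union (SL_closed x) (SR_closed x)
      ((h1.low.comp (low_B hx _) (up_B _ _ _).continuousOn (B_SL hx)).congr eL)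
      ((h2.low.comp (low_B hx' _) (up_B _ _ _).continuousOn (B_SR hx')).congr eR)
  · rw [← SL_SR x]
    rintro p (hp | hp) q (hq | hq) e
    exacts [iL hp hq e, iM p hp q hq e, (iM q hq p hp e.symm).symm, iR hp hq e]
  · rw [← SL_SR x]
    rintro p (hp | hp)
    · rw [← eL hp]
      exact s1 (h1.maps (B_SL hx hp))
    · rw [← eR hp]
      exact s2 (h2.maps (B_SR hx' hp))
  · rw [← SL_SR x]
    exact Dom.union (SL_closed x) (SR_closed x)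
      ((h1.dom.comp (up_B _ _ _).continuousOn (B_SL hx)).congr
        (fun p _ => congrArg Λ (A_B hx p)) eL)
      ((h2.dom.comp (up_B _ _ _).continuousOn (B_SR hx')).congr
        (fun p _ => congrArg Λ (A_B hx' p)) eR)

theorem cp_glue {U : Set P} {Λ : P → P} {R : Box} (hR : R.Valid) {c : ℝ → ℝ} {xb yb xt yt : ℝ}
    (hc : R.IsCut c xb yb xt yt) {x : ℝ} (hx : -1 < x) (hx' : x < 1)
    {σ0 σ1 σ2 σ3 σc : ℝ → ℝ} (p0 : Par σ0) (p2 : Par σ2) (pc : Par σc)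
    (e0 : σ0 x = ia R.a0 R.b0 xb) (e2 : σ2 (-x) = ia R.a2 R.b2 (-xt))
    (h1 : CP U (Λ ∘ A (-1) x) (R.cutL c xb yb xt yt) (rs (-1) x (-1) (σ0 x) σ0) σc
      (rs (-x) 1 (σ2 (-x)) 1 σ2) σ3)
    (h2 : CP U (Λ ∘ A x 1) (R.cutR c xb yb xt yt) (rs x 1 (σ0 x) 1 σ0) σ1
      (rs (-1) (-x) (-1) (σ2 (-x)) σ2) (rv σc)) :
    CP U Λ R σ0 σ1 σ2 σ3 := by
  obtain ⟨f1, E1, b1⟩ := h1
  obtain ⟨f2, E2, b2⟩ := h2
  have hy : yb < yt := (hc.pre hR).1.p1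
  obtain ⟨s1, s2, s3⟩ := hc.sets hR
  have mx : x ∈ Icc (-1 : ℝ) 1 := ⟨hx.le, hx'.le⟩
  have c1 : ∀ y ∈ Icc (-1 : ℝ) 1, f1 (1, y) = (c (af yb yt (σc y)), af yb yt (σc y)) :=
    fun y h => by
      rw [(b1 y h).2.1]
      simp only [J, Box.side, Box.rot, Box.cutL, neg_neg]
  have c2 : ∀ y ∈ Icc (-1 : ℝ) 1, f2 (-1, y) = (c (af yb yt (σc y)), af yb yt (σc y)) :=
    fun y h => by
      have := (b2 (-y) (mneg h)).2.2.2
      rw [neg_neg] at this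
      rw [this]
      simp only [J, Box.side, Box.rot, Box.cutR, rv, neg_neg, af_neg]
  obtain ⟨f, E, hf⟩ := glue_emb hx hx' E1 E2 (fun y h => (c1 y h).trans (c2 y h).symm)
    (fun p h h' => by
      obtain ⟨y, hy', rfl⟩ := s3 p h h'
      obtain ⟨u, hu, e⟩ := pc.surj (ia_mem hy hy')
      exact ⟨u, hu, by rw [c1 u hu, e, af_ia hy]⟩) s1 s2
  have k0 : -1 < σ0 x := p0.2.1 ▸ p0.1.strictMonoOn m1' mx hx
  have k0' : σ0 x < 1 := p0.2.2 ▸ p0.1.strictMonoOn mx m1 hx'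
  have k2 : -1 < σ2 (-x) := p2.2.1 ▸ p2.1.strictMonoOn m1' (mneg mx) (by linarith)
  have k2' : σ2 (-x) < 1 := p2.2.2 ▸ p2.1.strictMonoOn (mneg mx) m1 (by linarith)
  have x0 : xb = af R.a0 R.b0 (σ0 x) := by rw [e0, af_ia hR.1.p0]
  have x2 : -xt = af R.a2 R.b2 (σ2 (-x)) := by rw [e2, af_ia hR.1.p2]
  refine ⟨f, E, fun u hu => ⟨?_, ?_, ?_, ?_⟩⟩
  · rcases le_total u x with h | h
    · have m := ia_mem hx ⟨hu.1, h⟩
      have := (hf _ (mk_sq m m1')).1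
      rw [(b1 _ m).1] at this
      simp only [A, af_ia hx, Box.side, Box.cutL, rs] at this
      rw [this]
      simp only [Box.side]
      rw [← af_sub_l R.a0 R.b0 (σ0 u) k0, ← x0]
    · have m := ia_mem hx' ⟨h, hu.2⟩
      have := (hf _ (mk_sq m m1')).2
      rw [(b2 _ m).1] at this
      simp only [A, af_ia hx', Box.side, Box.cutR, rs] at this
      rw [this]
      simp only [Box.side]
      rw [← af_sub_r R.a0 R.b0 (σ0 u) k0', ← x0]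
  · have := (hf _ (mk_sq m1 hu)).2
    rw [(b2 _ hu).2.1] at this
    simp only [A, af_r] at this
    exact this
  · rcases le_total u (-x) with h | h
    · have hx2 : -1 < -x := by linarith
      have m := ia_mem hx2 ⟨hu.1, h⟩
      have := (hf _ (mk_sq (mneg m) m1)).2
      rw [(b2 _ m).2.2.1] at this
      have e := af_neg (-1) (-x) (ia (-1) (-x) u)
      rw [neg_neg, neg_neg, af_ia hx2] at e
      simp only [A, e, af_ia hx2, Box.side, Box.rot, Box.cutR, rs] at this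
      rw [this]
      simp only [Box.side, Box.rot]
      rw [← af_sub_l R.a2 R.b2 (σ2 u) k2, ← x2]
    · have hx2 : -x < 1 := by linarith
      have m := ia_mem hx2 ⟨h, hu.2⟩
      have := (hf _ (mk_sq (mneg m) m1)).1
      rw [(b1 _ m).2.2.1] at this
      have e := af_neg (-x) 1 (ia (-x) 1 u)
      rw [neg_neg, af_ia hx2] at e
      simp only [A, e, af_ia hx2, Box.side, Box.rot, Box.cutL, rs] at this
      rw [this]
      simp only [Box.side, Box.rot]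
      rw [← af_sub_r R.a2 R.b2 (σ2 u) k2', ← x2]
  · have := (hf _ (mk_sq m1' (mneg hu))).1
    rw [(b1 _ hu).2.2.2] at this
    simp only [A, af_l] at this
    exact this

theorem Gl.room {U : Set P} (hU : IsOpen U) {m : ℝ → P} {τ ℓ μ : ℝ} (hm : LipC m (-1) 1)
    (ht : Tr U m (-1) 1 τ) (hμ : 0 < μ) (h1 : 10 ^ 6 * τ ≤ μ) (h2 : 99 / 100 * μ ≤ ℓ) :
    Room U m ℓ :=
  room_of_tr hU hm ht (by linarith) (by unfold lam; linarith)

/-- Cutting: both parts are solved for data chosen admissible on all seven arcs. -/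
theorem cut_ec {U : Set P} (hU : IsOpen U) {Λ : P → P} {R : Box} (hR : R.Valid) {c : ℝ → ℝ}
    {xb yb xt yt : ℝ} (hc : R.IsCut c xb yb xt yt) {x τ1 τ2 : ℝ} (hx : -1 < x) (hx' : x < 1)
    (v1 : (R.cutL c xb yb xt yt).Valid) (v2 : (R.cutR c xb yb xt yt).Valid)
    (u1 : Up sq (Λ ∘ A (-1) x)) (u2 : Up sq (Λ ∘ A x 1))
    (t1 : STr U (Λ ∘ A (-1) x) τ1) (t2 : STr U (Λ ∘ A x 1) τ2)
    (r1 : 10 ^ 6 * τ1 ≤ (R.cutL c xb yb xt yt).mu) (r2 : 10 ^ 6 * τ2 ≤ (R.cutR c xb yb xt yt).mu)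
    (g1 : GC U (Λ ∘ A (-1) x) (R.cutL c xb yb xt yt))
    (g2 : GC U (Λ ∘ A x 1) (R.cutR c xb yb xt yt)) : EC U Λ R := by
  obtain ⟨α0, a0⟩ := room hU u1.sides.1 t1.1 v1.mu_pos r1 v1.sides.1
  obtain ⟨σc, ac⟩ := room hU u1.sides.2.1 t1.2.1 v1.mu_pos r1 v1.sides.2.1
  obtain ⟨α2, a2⟩ := room hU u1.sides.2.2.1 t1.2.2.1 v1.mu_pos r1 v1.sides.2.2.1
  obtain ⟨σ3, a3⟩ := room hU u1.sides.2.2.2 t1.2.2.2 v1.mu_pos r1 v1.sides.2.2.2
  obtain ⟨β0, b0⟩ := room hU u2.sides.1 t2.1 v2.mu_pos r2 v2.sides.1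
  obtain ⟨σ1, b1⟩ := room hU u2.sides.2.1 t2.2.1 v2.mu_pos r2 v2.sides.2.1
  obtain ⟨β2, b2⟩ := room hU u2.sides.2.2.1 t2.2.2.1 v2.mu_pos r2 v2.sides.2.2.1
  have b3 : SAdm U (s3 (Λ ∘ A x 1)) (R.cutR c xb yb xt yt).l3 (rv σc) := by
    have e : (R.cutR c xb yb xt yt).l3 = (R.cutL c xb yb xt yt).l1 := by
      simp only [Box.l3, Box.l1, Box.cutL, Box.cutR]
      ring
    rw [e]
    refine ac.rv.congr (fun u _ => ?_) fun _ _ => rfl
    simp only [s1, s3, Function.comp, A, af_l, af_r]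
  have q0 : R.a0 < xb := v1.1.p0
  have q0' : xb < R.b0 := v2.1.p0
  have q2 : R.a2 < -xt := v2.1.p2
  have q2' : -xt < R.b2 := v1.1.p2
  have n0 : R.b0 - R.a0 ≠ 0 := (sub_pos.2 hR.1.p0).ne'
  have n2 : R.b2 - R.a2 ≠ 0 := (sub_pos.2 hR.1.p2).ne'
  obtain ⟨σ0, c0, e0, l0, r0⟩ := sadm_cat (U := U) (m := s0 Λ) (κ := ia R.a0 R.b0 xb) (ℓ := R.l0)
    (σ1 := α0) (σ2 := β0) hx hx' (ia_l R.a0 R.b0 ▸ ia_lt hR.1.p0 q0)
    (ia_r hR.1.p0 ▸ ia_lt hR.1.p0 q0') (sub_pos.2 hR.1.p0)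
    (by
      have e : R.l0 * ((ia R.a0 R.b0 xb + 1) / 2) = (R.cutL c xb yb xt yt).l0 := by
        simp only [Box.l0, Box.cutL, ia]
        field_simp
        ring
      rw [e]
      exact a0)
    (by
      have e : R.l0 * ((1 - ia R.a0 R.b0 xb) / 2) = (R.cutR c xb yb xt yt).l0 := by
        simp only [Box.l0, Box.cutR, ia]
        field_simp
        ring
      rw [e]
      exact b0)
  obtain ⟨σ2, c2, e2, l2, r2⟩ := sadm_cat (U := U) (m := s2 Λ) (x := -x)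
    (κ := ia R.a2 R.b2 (-xt)) (ℓ := R.l2) (σ1 := β2) (σ2 := α2) (by linarith) (by linarith)
    (ia_l R.a2 R.b2 ▸ ia_lt hR.1.p2 q2) (ia_r hR.1.p2 ▸ ia_lt hR.1.p2 q2') (sub_pos.2 hR.1.p2)
    (by
      have e : R.l2 * ((ia R.a2 R.b2 (-xt) + 1) / 2) = (R.cutR c xb yb xt yt).l2 := by
        simp only [Box.l2, Box.cutR, ia]
        field_simp
        ring
      rw [e]
      refine b2.congr (fun u _ => ?_) fun _ _ => rfl
      have e := af_neg (-1) (-x) u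
      rw [neg_neg, neg_neg] at e
      simp only [s2, Function.comp, A, e])
    (by
      have e : R.l2 * ((1 - ia R.a2 R.b2 (-xt)) / 2) = (R.cutL c xb yb xt yt).l2 := by
        simp only [Box.l2, Box.cutL, ia]
        field_simp
        ring
      rw [e]
      refine a2.congr (fun u _ => ?_) fun _ _ => rfl
      have e := af_neg (-x) 1 u
      rw [neg_neg] at e
      simp only [s2, Function.comp, A, e])
  rw [← e0] at l0 r0
  rw [← e2] at l2 r2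
  refine cp_ec hR.1 c0 (b1.congr (fun u _ => ?_) fun _ _ => rfl) c2
    (a3.congr (fun u _ => ?_) fun _ _ => rfl)
    (cp_glue hR hc hx hx' c0.1 c2.1 ac.1 e0 e2
      (gc_cp v1.1 (a0.congr (fun _ _ => rfl) l0.symm) ac (a2.congr (fun _ _ => rfl) r2.symm) a3 g1)
      (gc_cp v2.1 (b0.congr (fun _ _ => rfl) r0.symm) b1 (b2.congr (fun _ _ => rfl) l2.symm) b3 g2))
  · simp only [s1, Function.comp, A, af_r]
  · simp only [s3, Function.comp, A, af_l]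

namespace Gl

theorem norm_one {p : P} : ‖p‖ = 1 ↔ p ∈ sq ∧ (|p.1| = 1 ∨ |p.2| = 1) := by
  rw [Prod.norm_def, Real.norm_eq_abs, Real.norm_eq_abs]
  refine ⟨fun h => ⟨⟨h ▸ le_max_left _ _, h ▸ le_max_right _ _⟩, ?_⟩, ?_⟩
  · rcases max_choice |p.1| |p.2| with e | e
    exacts [Or.inl (e ▸ h), Or.inr (e ▸ h)]
  · rintro ⟨⟨h1, h2⟩, h | h⟩
    · rw [h, max_eq_left h2]
    · rw [h, max_eq_right h1]

theorem G0 {t : ℝ} (h : t ∈ Icc (0 : ℝ) 1) : Γ t = (2 * t - 1, -1) := by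
  have := (Γ_eval (u := 2 * t - 1) ⟨by linarith [h.1], by linarith [h.2]⟩).1
  rwa [show (2 * t - 1 + 1) / 2 = t by ring] at this

theorem G1 {t : ℝ} (h : t ∈ Icc (1 : ℝ) 2) : Γ t = (1, 2 * t - 3) := by
  have := (Γ_eval (u := 2 * t - 3) ⟨by linarith [h.1], by linarith [h.2]⟩).2.1
  rwa [show 1 + (2 * t - 3 + 1) / 2 = t by ring] at this

theorem G2 {t : ℝ} (h : t ∈ Icc (2 : ℝ) 3) : Γ t = (5 - 2 * t, 1) := by
  have := (Γ_eval (u := 2 * t - 5) ⟨by linarith [h.1], by linarith [h.2]⟩).2.2.1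
  rwa [show 2 + (2 * t - 5 + 1) / 2 = t by ring, neg_sub] at this

theorem G3 {t : ℝ} (h : t ∈ Icc (3 : ℝ) 4) : Γ t = (-1, 7 - 2 * t) := by
  have := (Γ_eval (u := 2 * t - 7) ⟨by linarith [h.1], by linarith [h.2]⟩).2.2.2
  rwa [show 3 + (2 * t - 7 + 1) / 2 = t by ring, neg_sub] at this

theorem G4 {t : ℝ} (h : t ∈ Icc (4 : ℝ) 5) : Γ t = (2 * t - 9, -1) := by
  have := G0 (t := t - 4) ⟨by linarith [h.1], by linarith [h.2]⟩
  rwa [← Γ_add_four, sub_add_cancel, show 2 * (t - 4) - 1 = 2 * t - 9 by ring] at this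

theorem arcR {x : ℝ} (hx : -1 < x) (hx' : x < 1) {p : P} :
    (∃ u ∈ Icc ((x + 1) / 2) ((5 - x) / 2), p = Γ u) ↔ ‖p‖ = 1 ∧ x ≤ p.1 := by
  constructor
  · rintro ⟨u, ⟨h1, h2⟩, rfl⟩
    refine ⟨norm_Γ u, ?_⟩
    rcases le_total u 1 with h | h
    · rw [G0 ⟨by linarith, h⟩]
      linarith
    rcases le_total u 2 with h' | h'
    · rw [G1 ⟨h, h'⟩]
      exact hx'.le
    · rw [G2 ⟨h', by linarith⟩]
      linarith
  · rintro ⟨h, h'⟩
    obtain ⟨hp, h⟩ := norm_one.1 h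
    obtain ⟨⟨a1, a2⟩, a3, a4⟩ := msq.1 hp
    rcases h with h | h <;> rcases eq_or_eq_neg_of_abs_eq h with h | h
    · refine ⟨(p.2 + 3) / 2, ⟨by linarith, by linarith⟩, ?_⟩
      rw [G1 ⟨by linarith, by linarith⟩]
      exact Prod.ext h (by simp only; ring)
    · linarith
    · refine ⟨(5 - p.1) / 2, ⟨by linarith, by linarith⟩, ?_⟩
      rw [G2 ⟨by linarith, by linarith⟩]
      exact Prod.ext (by simp only; ring) h
    · refine ⟨(p.1 + 1) / 2, ⟨by linarith, by linarith⟩, ?_⟩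
      rw [G0 ⟨by linarith, by linarith⟩]
      exact Prod.ext (by simp only; ring) h

theorem arcL {x : ℝ} (hx : -1 < x) (hx' : x < 1) {p : P} :
    (∃ u ∈ Icc ((5 - x) / 2) ((x + 1) / 2 + 4), p = Γ u) ↔ ‖p‖ = 1 ∧ p.1 ≤ x := by
  constructor
  · rintro ⟨u, ⟨h1, h2⟩, rfl⟩
    refine ⟨norm_Γ u, ?_⟩
    rcases le_total u 3 with h | h
    · rw [G2 ⟨by linarith, h⟩]
      linarith
    rcases le_total u 4 with h' | h'
    · rw [G3 ⟨h, h'⟩]
      exact hx.le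
    · rw [G4 ⟨h', by linarith⟩]
      linarith
  · rintro ⟨h, h'⟩
    obtain ⟨hp, h⟩ := norm_one.1 h
    obtain ⟨⟨a1, a2⟩, a3, a4⟩ := msq.1 hp
    rcases h with h | h <;> rcases eq_or_eq_neg_of_abs_eq h with h | h
    · linarith
    · refine ⟨(7 - p.2) / 2, ⟨by linarith, by linarith⟩, ?_⟩
      rw [G3 ⟨by linarith, by linarith⟩]
      exact Prod.ext h (by simp only; ring)
    · refine ⟨(5 - p.1) / 2, ⟨by linarith, by linarith⟩, ?_⟩
      rw [G2 ⟨by linarith, by linarith⟩]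
      exact Prod.ext (by simp only; ring) h
    · refine ⟨(p.1 + 9) / 2, ⟨by linarith, by linarith⟩, ?_⟩
      rw [G4 ⟨by linarith, by linarith⟩]
      exact Prod.ext (by simp only; ring) h

/-- A boundary point off the open side `{e} x (-1,1)` is mapped to such a point when the side is
fixed. -/
theorem off_side {h g : P → P} (H : Hm h g) {ψ : ℝ → ℝ} (hb : ∀ t, h (Γ t) = Γ (ψ t)) {e : ℝ}
    (he : |e| = 1) (hf : ∀ y ∈ Icc (-1 : ℝ) 1, h (e, y) = (e, y)) {q : P} (hq : q ∈ sq)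
    (h1 : q.1 = -e ∨ |q.2| = 1) : (h q).1 = -e ∨ |(h q).2| = 1 := by
  have n : ‖q‖ = 1 := norm_one.2 ⟨hq, h1.imp_left fun h => by rw [h, abs_neg, he]⟩
  obtain ⟨t, -, rfl⟩ := exists_Γ n 0
  obtain ⟨m, h2 | h2⟩ := norm_one.1 (hb t ▸ norm_Γ (ψ t) : ‖h (Γ t)‖ = 1)
  · rcases abs_eq_abs.1 (h2.trans he.symm) with h3 | h3
    · have me : e ∈ Icc (-1 : ℝ) 1 := abs_le.1 he.le
      have e1 : h (Γ t) = h (e, (h (Γ t)).2) := by
        rw [hf _ (msq.1 m).2, ← h3]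
      have e2 : Γ t = (e, (h (Γ t)).2) := by
        rw [← H.gh _ (mk_sq me (msq.1 m).2), ← e1, H.gh _ hq]
      rw [e2] at h1
      rcases h1 with h1 | h1
      · have : e = 0 := by
          simp only at h1
          linarith
        simp [this] at he
      · exact Or.inr h1
    · exact Or.inl h3
  · exact Or.inr h2

theorem hm_jn {x : ℝ} (hx : -1 < x) (hx' : x < 1) {h1 g1 h2 g2 h g : P → P} (H1 : Hm h1 g1)
    (H2 : Hm h2 g2)
    (hh : ∀ p ∈ sq, h (A (-1) x p) = A (-1) x (h1 p) ∧ h (A x 1 p) = A x 1 (h2 p))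
    (hg : ∀ p ∈ sq, g (A (-1) x p) = A (-1) x (g1 p) ∧ g (A x 1 p) = A x 1 (g2 p)) :
    MapsTo h sq sq ∧ (∀ p ∈ sq, g (h p) = p) ∧ Up sq h := by
  refine ⟨fun p hp => ?_, fun p hp => ?_, Up.glue hx hx' ?_ ?_⟩
  · rcases sq_cases hx hx' hp with ⟨q, hq, rfl⟩ | ⟨q, hq, rfl⟩
    · rw [(hh q hq).1]
      exact (A_SL hx hx' (H1.mh hq)).1
    · rw [(hh q hq).2]
      exact (A_SR hx hx' (H2.mh hq)).1
  · rcases sq_cases hx hx' hp with ⟨q, hq, rfl⟩ | ⟨q, hq, rfl⟩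
    · rw [(hh q hq).1, (hg _ (H1.mh hq)).1, H1.gh q hq]
    · rw [(hh q hq).2, (hg _ (H2.mh hq)).2, H2.gh q hq]
  · exact ((up_A (-1) x univ).comp H1.uh (mapsTo_univ _ _)).congr fun p hp => (hh p hp).1.symm
  · exact ((up_A x 1 univ).comp H2.uh (mapsTo_univ _ _)).congr fun p hp => (hh p hp).2.symm

theorem A_side {x y : ℝ} : A (-1) x (1, y) = A x 1 (-1, y) := by
  simp only [A, af_l, af_r]

end Gl

theorem eqv_glue {Λ Λ' : P → P} {x : ℝ} (hx : -1 < x) (hx' : x < 1) {ψ1 ψ2 : ℝ → ℝ}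
    (h1 : Eqv (Λ ∘ A (-1) x) (Λ' ∘ A (-1) x) ψ1) (h2 : Eqv (Λ ∘ A x 1) (Λ' ∘ A x 1) ψ2)
    (f1 : ∀ t ∈ Icc (1 : ℝ) 2, Γ (ψ1 t) = Γ t) (f2 : ∀ t ∈ Icc (3 : ℝ) 4, Γ (ψ2 t) = Γ t) :
    ∃ Ψ, Eqv Λ Λ' Ψ ∧ (∀ t ∈ Icc (3 : ℝ) 4, Γ (Ψ t) = A (-1) x (Γ (ψ1 t))) ∧
      ∀ t ∈ Icc (1 : ℝ) 2, Γ (Ψ t) = A x 1 (Γ (ψ2 t)) := by
  obtain ⟨h1, g1, H1, e1, -, b1⟩ := h1
  obtain ⟨h2, g2, H2, e2, -, b2⟩ := h2
  have x1 : ∀ y ∈ Icc (-1 : ℝ) 1, h1 (1, y) = (1, y) := fun y hy => by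
    have m : (y + 3) / 2 ∈ Icc (1 : ℝ) 2 := ⟨by linarith [hy.1], by linarith [hy.2]⟩
    have := (b1 _).trans (f1 _ m)
    rwa [G1 m, show 2 * ((y + 3) / 2) - 3 = y by ring] at this
  have x2 : ∀ y ∈ Icc (-1 : ℝ) 1, h2 (-1, y) = (-1, y) := fun y hy => by
    have m : (7 - y) / 2 ∈ Icc (3 : ℝ) 4 := ⟨by linarith [hy.2], by linarith [hy.1]⟩
    have := (b2 _).trans (f2 _ m)
    rwa [G3 m, show 7 - 2 * ((7 - y) / 2) = y by ring] at this
  have y1 : ∀ y ∈ Icc (-1 : ℝ) 1, g1 (1, y) = (1, y) := fun y hy => by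
    have := H1.gh _ (mk_sq m1 hy)
    rwa [x1 y hy] at this
  have y2 : ∀ y ∈ Icc (-1 : ℝ) 1, g2 (-1, y) = (-1, y) := fun y hy => by
    have := H2.gh _ (mk_sq m1' hy)
    rwa [x2 y hy] at this
  obtain ⟨h, hh⟩ : ∃ h : P → P, ∀ p ∈ sq,
      h (A (-1) x p) = A (-1) x (h1 p) ∧ h (A x 1 p) = A x 1 (h2 p) :=
    ⟨jn x (fun p => A (-1) x (h1 p)) fun p => A x 1 (h2 p), fun p hp =>
      jn_A hx hx' (fun y hy => by rw [x1 y hy, x2 y hy, A_side]) hp⟩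
  obtain ⟨g, hg⟩ : ∃ g : P → P, ∀ p ∈ sq,
      g (A (-1) x p) = A (-1) x (g1 p) ∧ g (A x 1 p) = A x 1 (g2 p) :=
    ⟨jn x (fun p => A (-1) x (g1 p)) fun p => A x 1 (g2 p), fun p hp =>
      jn_A hx hx' (fun y hy => by rw [y1 y hy, y2 y hy, A_side]) hp⟩
  obtain ⟨j1, j2, j3⟩ := hm_jn hx hx' H1 H2 hh hg
  obtain ⟨j4, j5, j6⟩ := hm_jn hx hx' H1.symm H2.symm hg hh
  have H : Hm h g := ⟨j1, j4, j2, j5, j3, j6⟩
  have fx : ∀ y ∈ Icc (-1 : ℝ) 1, h (x, y) = (x, y) := fun y hy => by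
    have := (hh _ (mk_sq m1 hy)).1
    rw [x1 y hy] at this
    simpa only [A, af_r] using this
  obtain ⟨Ψ, l, b, -, -⟩ := exists_lift_arcs H (k := (x + 1) / 2) (k' := (5 - x) / 2)
    (by linarith) (by linarith)
    (by
      rw [G0 ⟨by linarith, by linarith⟩, show 2 * ((x + 1) / 2) - 1 = x by ring]
      exact fx _ m1')
    (by
      rw [G2 ⟨by linarith, by linarith⟩, show 5 - 2 * ((5 - x) / 2) = x by ring]
      exact fx _ m1)
    (fun t ht => by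
      obtain ⟨n, hl⟩ := (arcR hx hx').1 ⟨t, ht, rfl⟩
      obtain ⟨m, hb⟩ := norm_one.1 n
      have mq := B_SR hx' ⟨m, hl⟩
      have o := off_side H2 b2 (e := -1) (by simp) x2 mq (hb.imp_left fun h => by
        have : (Γ t).1 = 1 := by
          rcases eq_or_eq_neg_of_abs_eq h with h | h
          exacts [h, by linarith]
        simp only [B, this, ia_r hx', neg_neg])
      rw [← A_B hx' (Γ t), (hh _ mq).2]
      have m' := A_SR hx hx' (H2.mh mq)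
      refine (arcR hx hx').2 ⟨norm_one.2 ⟨m'.1, o.imp_left fun h => ?_⟩, m'.2⟩
      simp only [A, h, neg_neg, af_r, abs_one])
    (fun t ht => by
      obtain ⟨n, hl⟩ := (arcL hx hx').1 ⟨t, ht, rfl⟩
      obtain ⟨m, hb⟩ := norm_one.1 n
      have mq := B_SL hx ⟨m, hl⟩
      have o := off_side H1 b1 (e := 1) (by simp) x1 mq (hb.imp_left fun h => by
        have : (Γ t).1 = -1 := by
          rcases eq_or_eq_neg_of_abs_eq h with h | h
          exacts [by linarith, h]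
        simp only [B, this, ia_l])
      rw [← A_B hx (Γ t), (hh _ mq).1]
      have m' := A_SL hx hx' (H1.mh mq)
      refine (arcL hx hx').2 ⟨norm_one.2 ⟨m'.1, o.imp_left fun h => ?_⟩, m'.2⟩
      simp only [A, h, af_l, abs_neg, abs_one])
  refine ⟨Ψ, ⟨h, g, H, fun p hp => ?_, l, b⟩, fun t ht => ?_, fun t ht => ?_⟩
  · rcases sq_cases hx hx' hp with ⟨q, hq, rfl⟩ | ⟨q, hq, rfl⟩
    · rw [(hh q hq).1]
      exact e1 q hq
    · rw [(hh q hq).2]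
      exact e2 q hq
  · rw [← b, ← b1, ← (hh _ (Γ_mem t)).1, G3 ht]
    simp only [A, af_l]
  · rw [← b, ← b2, ← (hh _ (Γ_mem t)).2, G1 ht]
    simp only [A, af_r]

theorem eqv_ctx {Λ Λ' : P → P} {xa xb : ℝ} (ha : -1 ≤ xa) (hab : xa < xb) (hb : xb ≤ 1)
    (ho : ∀ p ∈ sq, p.1 ≤ xa ∨ xb ≤ p.1 → Λ p = Λ' p) {ψ : ℝ → ℝ}
    (h : Eqv (Λ ∘ A xa xb) (Λ' ∘ A xa xb) ψ) (f1 : ∀ t ∈ Icc (1 : ℝ) 2, Γ (ψ t) = Γ t)
    (f2 : ∀ t ∈ Icc (3 : ℝ) 4, Γ (ψ t) = Γ t) : ∃ Ψ, Eqv Λ Λ' Ψ := by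
  have ha1 : xa < 1 := hab.trans_le hb
  obtain ⟨ψ', h', f'⟩ : ∃ ψ', Eqv (Λ ∘ A xa 1) (Λ' ∘ A xa 1) ψ' ∧
      ∀ t ∈ Icc (3 : ℝ) 4, Γ (ψ' t) = Γ t := by
    rcases hb.eq_or_lt with rfl | hb'
    · exact ⟨ψ, h, f2⟩
    have e1 : ∀ (L : P → P) (p : P),
        (L ∘ A xa xb) p = ((L ∘ A xa 1) ∘ A (-1) (ia xa 1 xb)) p := fun L p => by
      simp only [Function.comp, A_A, af_l, af_ia ha1]
    have e2 : ∀ (L : P → P) (p : P),
        ((L ∘ A xa 1) ∘ A (ia xa 1 xb) 1) p = L (A xb 1 p) := fun L p => by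
      simp only [Function.comp, A_A, af_r, af_ia ha1]
    obtain ⟨Ψ, j1, j2, -⟩ := eqv_glue (Λ := Λ ∘ A xa 1) (Λ' := Λ' ∘ A xa 1)
      ((ia_l xa 1).ge.trans_lt (ia_lt ha1 hab)) ((ia_lt ha1 hb').trans_eq (ia_r ha1))
      (h.congr (fun p _ => e1 Λ p) fun p _ => e1 Λ' p)
      (eqv_of_eqOn fun p hp => by
        rw [e2, e2]
        exact ho _ (A_mem (ha.trans hab.le) hb le_rfl hp) (Or.inr (af_mem hb (msq.1 hp).1).1))
      f1 fun _ _ => rfl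
    refine ⟨Ψ, j1, fun t ht => ?_⟩
    rw [j2 t ht, f2 t ht, G3 ht]
    simp only [A, af_l]
  rcases ha.eq_or_lt with rfl | ha'
  · exact ⟨ψ', h'.congr (fun p _ => congrArg Λ (A_one p)) fun p _ => congrArg Λ' (A_one p)⟩
  obtain ⟨Ψ, j, -⟩ := eqv_glue ha' ha1
    (eqv_of_eqOn fun p hp => ho _ (A_SL ha' ha1 hp).1 (Or.inl (A_SL ha' ha1 hp).2)) h'
    (fun _ _ => rfl) f'
  exact ⟨Ψ, j⟩

/-- Replacing the part of a chart over a strip. -/
theorem exists_patch (Λ K : P → P) {xa xb : ℝ} (hab : xa < xb)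
    (hl : ∀ y ∈ Icc (-1 : ℝ) 1, K (-1, y) = Λ (xa, y))
    (hr : ∀ y ∈ Icc (-1 : ℝ) 1, K (1, y) = Λ (xb, y)) :
    ∃ Λ' : P → P, (∀ p : P, |p.2| ≤ 1 → p.1 ≤ xa ∨ xb ≤ p.1 → Λ' p = Λ p) ∧
      EqOn (Λ' ∘ A xa xb) K sq := by
  classical
  refine ⟨fun p => if p.1 ∈ Icc xa xb then K (B xa xb p) else Λ p, fun p hp h => ?_,
    fun p hp => ?_⟩
  · dsimp only
    split_ifs with h'
    · rcases h with h | h
      · have e : p.1 = xa := le_antisymm h h'.1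
        rw [B, e, ia_l, hl _ (abs_le.1 hp), ← e]
      · have e : p.1 = xb := le_antisymm h'.2 h
        rw [B, e, ia_r hab, hr _ (abs_le.1 hp), ← e]
    · rfl
  · exact (if_pos (af_mem hab.le (msq.1 hp).1)).trans (congrArg K (B_A hab p))

theorem Fib.patch {Λ Λ' : P → P} {xa xb : ℝ} (ha : -1 ≤ xa) (hab : xa < xb) (hb : xb ≤ 1)
    (hf : Fib Λ) (hk : Fib (Λ' ∘ A xa xb))
    (ho : ∀ p ∈ sq, p.1 ≤ xa ∨ xb ≤ p.1 → Λ' p = Λ p) : Fib Λ' := by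
  obtain ⟨z1, p1, q1, H1⟩ := hf.small
  obtain ⟨w, pw, qw, H2⟩ := hk
  have hd := sub_pos.2 hab
  obtain ⟨z, pz, c1, c2, c3, c4⟩ : ∃ z : ℝ, 0 < z ∧ z ≤ z1 ∧ z ≤ w * ((xb - xa) / 2) ∧
      (xa = -1 ∨ z ≤ xa + 1) ∧ (xb = 1 ∨ z ≤ 1 - xb) := by
    obtain ⟨a, pa, ca⟩ : ∃ a : ℝ, 0 < a ∧ (xa = -1 ∨ a ≤ xa + 1) :=
      ha.eq_or_lt.elim (fun h => ⟨1, one_pos, Or.inl h.symm⟩)
        fun h => ⟨xa + 1, by linarith, Or.inr le_rfl⟩
    obtain ⟨b, pb, cb⟩ : ∃ b : ℝ, 0 < b ∧ (xb = 1 ∨ b ≤ 1 - xb) :=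
      hb.eq_or_lt.elim (fun h => ⟨1, one_pos, Or.inl h⟩)
        fun h => ⟨1 - xb, by linarith, Or.inr le_rfl⟩
    exact ⟨min (min z1 (w * ((xb - xa) / 2))) (min a b), by positivity,
      (min_le_left _ _).trans (min_le_left _ _), (min_le_left _ _).trans (min_le_right _ _),
      ca.imp_right ((min_le_right _ _).trans (min_le_left _ _)).trans,
      cb.imp_right ((min_le_right _ _).trans (min_le_right _ _)).trans⟩
  have zw : z ≤ w := c2.trans (by nlinarith)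
  have z2 : z ≤ 1 / 2 := c1.trans q1
  have zd : 4 * z ≤ xb - xa := by nlinarith
  have cm : ∀ u, cl (z - 1) (1 - z) u ∈ Icc (-1 : ℝ) 1 := fun u =>
    ⟨le_max_of_le_left (by linarith), max_le (by linarith) (min_le_of_left_le (by linarith))⟩
  have lo : ∀ u, u ≤ w - 1 → cl (w - 1) (1 - w) u = w - 1 := fun u h =>
    max_eq_left (min_le_of_right_le h)
  have hi : ∀ u, 1 - w ≤ u → cl (w - 1) (1 - w) u = 1 - w := fun u h => by
    rw [cl, min_eq_left h, max_eq_right (by linarith)]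
  have cc : ∀ u, cl (z - 1) (1 - z) u = u ∨ (u < z - 1 ∧ cl (z - 1) (1 - z) u = z - 1) ∨
      (1 - z < u ∧ cl (z - 1) (1 - z) u = 1 - z) := fun u => by
    rcases lt_or_ge u (z - 1) with h | h
    · exact Or.inr (Or.inl ⟨h, max_eq_left (min_le_of_right_le h.le)⟩)
    rcases lt_or_ge (1 - z) u with h' | h'
    · exact Or.inr (Or.inr ⟨h', by rw [cl, min_eq_left h'.le, max_eq_right (by linarith)]⟩)
    · exact Or.inl (by rw [cl, min_eq_right h', max_eq_right h])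
  refine ⟨z, pz, z2, fun p hp => ?_⟩
  have mp : (cl (z - 1) (1 - z) p.1, cl (z - 1) (1 - z) p.2) ∈ sq := mk_sq (cm _) (cm _)
  obtain ⟨⟨a1, a2⟩, -⟩ := msq.1 hp
  rcases lt_or_ge p.1 xa with h | h
  · rw [ho p hp (Or.inl h.le), ho _ mp (Or.inl ?_), ← H1 z pz c1 p hp]
    exact max_le (by rcases c3 with c | c <;> linarith) (min_le_of_right_le h.le)
  rcases lt_or_ge xb p.1 with h' | h'
  · rw [ho p hp (Or.inr h'.le), ho _ mp (Or.inr ?_), ← H1 z pz c1 p hp]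
    exact le_max_of_le_right (le_min (by rcases c4 with c | c <;> linarith) h'.le)
  have k : (xa ≤ cl (z - 1) (1 - z) p.1 ∧ cl (z - 1) (1 - z) p.1 ≤ xb) ∧
      cl (w - 1) (1 - w) (ia xa xb (cl (z - 1) (1 - z) p.1)) =
        cl (w - 1) (1 - w) (ia xa xb p.1) := by
    rcases cc p.1 with e | ⟨l, e⟩ | ⟨l, e⟩ <;> rw [e]
    · exact ⟨⟨h, h'⟩, rfl⟩
    · have ea : xa = -1 := c3.resolve_right (by linarith)
      have i : ia xa xb (z - 1) ≤ w - 1 := by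
        rw [ia, sub_le_sub_iff_right, div_le_iff₀ hd]
        linarith
      exact ⟨⟨by linarith, by linarith⟩, by rw [lo _ i, lo _ ((ia_le hab l.le).trans i)]⟩
    · have eb : xb = 1 := c4.resolve_right (by linarith)
      have i : 1 - w ≤ ia xa xb (1 - z) := by
        rw [ia, le_sub_iff_add_le, le_div_iff₀ hd]
        linarith
      exact ⟨⟨by linarith, by linarith⟩, by rw [hi _ i, hi _ (i.trans (ia_le hab l.le))]⟩
  have k2 : cl (w - 1) (1 - w) (cl (z - 1) (1 - z) p.2) = cl (w - 1) (1 - w) p.2 := by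
    rcases cc p.2 with e | ⟨l, e⟩ | ⟨l, e⟩ <;> rw [e]
    · rw [lo _ (by linarith), lo _ (by linarith)]
    · rw [hi _ (by linarith), hi _ (by linarith)]
  have e1 := H2 _ (B_mem hab hp h h')
  have e2 := H2 _ (B_mem hab mp k.1.1 k.1.2)
  simp only [Function.comp, A_B hab] at e1 e2
  rw [e1, e2]
  simp only [B, k.2, k2]

/-- Putting two charts side by side. -/
theorem exists_join (K1 K2 : P → P) {x : ℝ} (hx : -1 < x) (hx' : x < 1)
    (h : ∀ y ∈ Icc (-1 : ℝ) 1, K1 (1, y) = K2 (-1, y)) :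
    ∃ K : P → P, EqOn (K ∘ A (-1) x) K1 sq ∧ EqOn (K ∘ A x 1) K2 sq :=
  ⟨jn x K1 K2, fun _ hp => (jn_A hx hx' h hp).1, fun _ hp => (jn_A hx hx' h hp).2⟩

end Pool.Agent.Lib.MP_ecd4e3_gt
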