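import Pool.Agent.Lib.MP_ecd4e3_gt.Frame
import Pool.Agent.Lib.MP_ecd4e3_gt.Glue

/-! The cutting step and the topological part of the martingale step. -/

namespace Pool.Agent.Lib.MP_ecd4e3_gt

open Set Filter Topology

namespace CutA

theorem asp20 {R : Box} (h : R.Pre) (ha : R.Asp 19) : R.Valid := by
  have h0 := h.p0
  have h1 := h.p1
  have h2 := h.p2
  have h3 := h.p3
  have hw : 0 < R.w := by
    unfold Box.w Box.l0 Box.l2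
    linarith
  have hh : 0 < R.h := by
    unfold Box.h Box.l1 Box.l3
    linarith
  exact ⟨h, by linarith [ha.1], by linarith [ha.2]⟩

theorem piece {U : Set P} (hU : IsOpen U) {Λ : P → P} {τ X C φ : ℝ} (f : Fib Λ) (u : Up sq Λ)
    (t : STr U Λ τ) (p : 0 < τ) (x : 0 ≤ X)
    (i : ∀ R' : Box, R'.Valid → R'.Asp 19 → √(C + k2 * C0 * X * R'.phi) + BB * τ ≤ R'.sz →
      EC U Λ R')
    {R : Box} (hR : R.Pre) (ha : R.Asp 19) (hφ : R.phi ≤ φ)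
    (hn : (√(C + k2 * C0 * X * φ) + (BB + 1000) * τ) ^ 2 ≤ R.area) :
    R.Valid ∧ 10 ^ 6 * τ ≤ R.mu ∧ GC U Λ R := by
  have v := asp20 hR ha
  have s : √(C + k2 * C0 * X * φ) + (BB + 1000) * τ ≤ R.sz := Real.le_sqrt_of_sq_le hn
  have s0 := Real.sqrt_nonneg (C + k2 * C0 * X * φ)
  have hB : BB = 10 ^ 8 := rfl
  rw [hB] at s
  obtain ⟨z0, -, z1, -⟩ := v.sz_bd
  obtain ⟨w1, w2, w3, -⟩ := v.shr (d := 1000 * τ) (by linarith) (by linarith)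
  refine ⟨v, by linarith, frame hU v f u t p (by linarith) (i _ w1 (ha.hom ?_) ?_)⟩
  · rw [sub_pos, div_lt_one z0]
    linarith
  · have : √(C + k2 * C0 * X * R.phi) ≤ √(C + k2 * C0 * X * φ) := by
      have : 0 ≤ k2 * C0 * X := by
        unfold k2 C0
        positivity
      gcongr
    rw [w2, w3, hB]
    linarith

theorem one {U : Set P} (hU : IsOpen U) {Λ : P → P} {x : ℝ} (hx : -1 < x) (hx' : x < 1)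
    {τ1 τ2 X1 X2 C1 C2 φ1 φ2 : ℝ} (f1 : Fib (Λ ∘ A (-1) x)) (f2 : Fib (Λ ∘ A x 1))
    (u1 : Up sq (Λ ∘ A (-1) x)) (u2 : Up sq (Λ ∘ A x 1)) (t1 : STr U (Λ ∘ A (-1) x) τ1)
    (t2 : STr U (Λ ∘ A x 1) τ2) (p1 : 0 < τ1) (p2 : 0 < τ2) (x1 : 0 ≤ X1) (x2 : 0 ≤ X2)
    (i1 : ∀ R' : Box, R'.Valid → R'.Asp 19 → √(C1 + k2 * C0 * X1 * R'.phi) + BB * τ1 ≤ R'.sz →
      EC U (Λ ∘ A (-1) x) R')
    (i2 : ∀ R' : Box, R'.Valid → R'.Asp 19 → √(C2 + k2 * C0 * X2 * R'.phi) + BB * τ2 ≤ R'.sz →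
      EC U (Λ ∘ A x 1) R')
    {R : Box} (hR : R.Valid)
    (hc : ∀ a, R.area / 16 ≤ a → a ≤ 15 / 16 * R.area → ∃ x yb yt,
      R.IsCut (fun _ => x) x yb x yt ∧ (R.cutL (fun _ => x) x yb x yt).area = a ∧
      (R.cutL (fun _ => x) x yb x yt).Asp 19 ∧ (R.cutR (fun _ => x) x yb x yt).Asp 19 ∧
      (R.cutL (fun _ => x) x yb x yt).phi ≤ φ1 ∧ (R.cutR (fun _ => x) x yb x yt).phi ≤ φ2)
    (n0 : (√(C1 + k2 * C0 * X1 * φ1) + (BB + 1000) * τ1) ^ 2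
      + (√(C2 + k2 * C0 * X2 * φ2) + (BB + 1000) * τ2) ^ 2 ≤ R.sz ^ 2)
    (n1 : (√(C1 + k2 * C0 * X1 * φ1) + (BB + 1000) * τ1) ^ 2 ≤ 15 / 16 * R.sz ^ 2)
    (n2 : (√(C2 + k2 * C0 * X2 * φ2) + (BB + 1000) * τ2) ^ 2 ≤ 15 / 16 * R.sz ^ 2) :
    EC U Λ R := by
  obtain ⟨z0, -, -, z⟩ := hR.sz_bd
  have z1 : 0 < R.area := z ▸ pow_pos z0 2
  rw [z] at n0 n1 n2
  obtain ⟨y, yb, yt, c, a, s1, s2, g1, g2⟩ := hc
    (max ((√(C1 + k2 * C0 * X1 * φ1) + (BB + 1000) * τ1) ^ 2) (R.area / 16)) (le_max_right _ _)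
    (max_le n1 (by linarith))
  have ar := c.area hR.1
  obtain ⟨v1, r1, e1⟩ := piece hU f1 u1 t1 p1 x1 i1 (c.pre hR).1 s1 g1 (a ▸ le_max_left _ _)
  obtain ⟨v2, r2, e2⟩ := piece hU f2 u2 t2 p2 x2 i2 (c.pre hR).2 s2 g2 (by
    rw [a] at ar
    rcases max_choice ((√(C1 + k2 * C0 * X1 * φ1) + (BB + 1000) * τ1) ^ 2) (R.area / 16) with
      e | e <;> rw [e] at ar <;> linarith)
  exact cut_ec hU hR c hx hx' v1 v2 u1 u2 t1 t2 r1 r2 e1 e2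

theorem flip (Λ : P → P) (a b : ℝ) :
    ((Λ ∘ J) ∘ J) ∘ A (-b) (-a) = ((Λ ∘ A a b) ∘ J) ∘ J := by
  funext p
  have e := Gl.af_neg a b (-p.1)
  rw [neg_neg] at e
  simp only [Function.comp, A, J, e, neg_neg]

end CutA

theorem cut_step {U : Set P} (hU : IsOpen U) {Λ : P → P} {x : ℝ} (hx : -1 < x) (hx' : x < 1)
    {τ1 τ2 X1 X2 C1 C2 : ℝ} (f1 : Fib (Λ ∘ A (-1) x)) (f2 : Fib (Λ ∘ A x 1))
    (u1 : Up sq (Λ ∘ A (-1) x)) (u2 : Up sq (Λ ∘ A x 1)) (t1 : STr U (Λ ∘ A (-1) x) τ1)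
    (t2 : STr U (Λ ∘ A x 1) τ2) (p1 : 0 < τ1) (p2 : 0 < τ2) (x1 : 0 ≤ X1) (x2 : 0 ≤ X2)
    (i1 : ∀ R' : Box, R'.Valid → R'.Asp 19 → √(C1 + k2 * C0 * X1 * R'.phi) + BB * τ1 ≤ R'.sz →
      EC U (Λ ∘ A (-1) x) R')
    (i2 : ∀ R' : Box, R'.Valid → R'.Asp 19 → √(C2 + k2 * C0 * X2 * R'.phi) + BB * τ2 ≤ R'.sz →
      EC U (Λ ∘ A x 1) R')
    {R : Box} (hR : R.Valid)
    (hn : ∀ φ1 φ2 : ℝ, 0 ≤ φ1 → φ1 ≤ 16 / 3 → 0 ≤ φ2 → φ2 ≤ 16 / 3 →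
      φ1 * X1 + φ2 * X2 ≤ (R.phi - R.drop) * (X1 + X2) →
      (√(C1 + k2 * C0 * X1 * φ1) + (BB + 1000) * τ1) ^ 2
          + (√(C2 + k2 * C0 * X2 * φ2) + (BB + 1000) * τ2) ^ 2 ≤ R.sz ^ 2 ∧
        (√(C1 + k2 * C0 * X1 * φ1) + (BB + 1000) * τ1) ^ 2 ≤ 15 / 16 * R.sz ^ 2 ∧
        (√(C2 + k2 * C0 * X2 * φ2) + (BB + 1000) * τ2) ^ 2 ≤ 15 / 16 * R.sz ^ 2) :
    EC U Λ R := by
  wlog hw : R.h ≤ R.w generalizing R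
  · refine EC.of_rot (this hR.rot ?_ ?_)
    · rwa [Box.rot_phi, Box.rot_drop, Box.rot_sz]
    · rw [Box.rot_w, Box.rot_h]
      exact (not_le.1 hw).le
  obtain ⟨φ1, φ2, a1, a2, a3, a4, alt, hc⟩ := hR.hcut hw
  rcases alt X1 X2 x1 x2 with h | h
  · obtain ⟨n0, n1, n2⟩ := hn φ1 φ2 a1 a2 a3 a4 h
    exact CutA.one hU hx hx' f1 f2 u1 u2 t1 t2 p1 p2 x1 x2 i1 i2 hR hc n0 n1 n2
  · obtain ⟨n0, n1, n2⟩ := hn φ2 φ1 a3 a4 a1 a2 (by linarith)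
    have e1 := CutA.flip Λ x 1
    have e2 := CutA.flip Λ (-1) x
    rw [neg_neg] at e2
    refine (eqv_rot' Λ).ec ((eqv_rot' (Λ ∘ J)).ec (CutA.one hU (x := -x) (τ1 := τ2) (τ2 := τ1)
      (X1 := X2) (X2 := X1) (C1 := C2) (C2 := C1) (by linarith) (by linarith) ?_ ?_ ?_ ?_ ?_ ?_
      p2 p1 x2 x1 ?_ ?_ hR hc (by linarith) n2 n1))
    · exact e1 ▸ f2.rot.rot
    · exact e2 ▸ f1.rot.rot
    · exact e1 ▸ (eqv_rot _).up ((eqv_rot _).up u2)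
    · exact e2 ▸ (eqv_rot _).up ((eqv_rot _).up u1)
    · exact e1 ▸ t2.rot.rot
    · exact e2 ▸ t1.rot.rot
    · exact fun R' v s n => e1 ▸ (eqv_rot _).ec ((eqv_rot _).ec (i2 R' v s n))
    · exact fun R' v s n => e2 ▸ (eqv_rot _).ec ((eqv_rot _).ec (i1 R' v s n))

end Pool.Agent.Lib.MP_ecd4e3_gt
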