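import Mathlib

/-! Planar sponge problem: definitions used by the proof (not by the final statement). -/

namespace Pool.Agent.Lib.MP_ecd4e3_gt

open Set Filter Topology

/-- The plane with the sup norm. -/
abbrev P := ℝ × ℝ

/-- The model square. -/
def sq : Set P := {p | |p.1| ≤ 1 ∧ |p.2| ≤ 1}

/-- Rotation by a quarter turn, counterclockwise. -/
def J (p : P) : P := (-p.2, p.1)

/-- Clamp to an interval. -/
def cl (a b x : ℝ) : ℝ := max a (min b x)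

/-- The increasing affine map from `[-1,1]` onto `[a,b]`. -/
noncomputable def af (a b u : ℝ) : ℝ := a + (u + 1) / 2 * (b - a)

/-- The inverse of `af a b`. -/
noncomputable def ia (a b x : ℝ) : ℝ := 2 * (x - a) / (b - a) - 1

/-- The affine map from the model square onto the vertical strip `[a,b] x [-1,1]`. -/
noncomputable def A (a b : ℝ) (p : P) : P := (af a b p.1, p.2)

/-! ### One-dimensional notions -/

/-- Increasing and bi-Lipschitz on `s`. -/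
def IncOn (σ : ℝ → ℝ) (s : Set ℝ) : Prop :=
  ∃ θ K : ℝ, 0 < θ ∧ ∀ t ∈ s, ∀ t' ∈ s, t ≤ t' →
    θ * (t' - t) ≤ σ t' - σ t ∧ σ t' - σ t ≤ K * (t' - t)

/-- Lift of an orientation preserving bi-Lipschitz homeomorphism of the circle of length 4. -/
def IsLift (σ : ℝ → ℝ) : Prop := IncOn σ univ ∧ ∀ t, σ (t + 4) = σ t + 4

/-- Increasing bi-Lipschitz self-map of `[-1,1]`. -/
def Par (σ : ℝ → ℝ) : Prop := IncOn σ (Icc (-1) 1) ∧ σ (-1) = -1 ∧ σ 1 = 1

/-- A Lipschitz curve on `[a,b]`. -/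
def LipC (m : ℝ → P) (a b : ℝ) : Prop :=
  ∃ K : ℝ, ∀ t ∈ Icc a b, ∀ t' ∈ Icc a b, dist (m t) (m t') ≤ K * |t - t'|

/-- The monotone function `T` dominates the motion of `m` inside `U` on `[a,b]`. -/
def DomOn (U : Set P) (m : ℝ → P) (T : ℝ → ℝ) (a b : ℝ) : Prop :=
  MonotoneOn T (Icc a b) ∧
    ∀ t ∈ Icc a b, m t ∈ U → ∀ᶠ t' in 𝓝[Icc a b] t, dist (m t') (m t) ≤ |T t' - T t|

/-- The trace (length inside `U`) of `m` on `[a,b]` is at most `τ`. -/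
def Tr (U : Set P) (m : ℝ → P) (a b τ : ℝ) : Prop := ∃ T, DomOn U m T a b ∧ T b - T a ≤ τ

/-- The admissibility constant. -/
noncomputable def lam : ℝ := 1 / 10 ^ 5

/-- Admissible parametrisation of a side of extent `ℓ`. -/
def SAdm (U : Set P) (m : ℝ → P) (ℓ : ℝ) (σ : ℝ → ℝ) : Prop :=
  Par σ ∧ DomOn U m (fun u => lam * (ℓ / 2) * σ u) (-1) 1

/-- There is an admissible parametrisation. -/
def Room (U : Set P) (m : ℝ → P) (ℓ : ℝ) : Prop := ∃ σ, SAdm U m ℓ σ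

/-- Restriction of `σ` to `[a,b]`, with values in `[c,d]`, renormalised. -/
noncomputable def rs (a b c d : ℝ) (σ : ℝ → ℝ) (u : ℝ) : ℝ := ia c d (σ (af a b u))

/-- Reversed parametrisation. -/
def rv (σ : ℝ → ℝ) (u : ℝ) : ℝ := -σ (-u)

/-- Admissible and dyadically affine as long as both halves have room, down to depth `k`. -/
def Can (U : Set P) : ℕ → (ℝ → P) → ℝ → (ℝ → ℝ) → Prop
  | 0, m, ℓ, σ => SAdm U m ℓ σ
  | k + 1, m, ℓ, σ => SAdm U m ℓ σ ∧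
      (Room U (m ∘ af (-1) 0) (ℓ / 2) → Room U (m ∘ af 0 1) (ℓ / 2) →
        σ 0 = 0 ∧ Can U k (m ∘ af (-1) 0) (ℓ / 2) (rs (-1) 0 (-1) 0 σ) ∧
          Can U k (m ∘ af 0 1) (ℓ / 2) (rs 0 1 0 1 σ))

/-! ### Pointwise Lipschitz notions -/

/-- Uniform pointwise upper Lipschitz bound on `S`. -/
def Up {X Y : Type} [PseudoMetricSpace X] [PseudoMetricSpace Y] (S : Set X) (f : X → Y) : Prop :=
  ∃ K : ℝ, ∀ z ∈ S, ∀ᶠ z' in 𝓝[S] z, dist (f z') (f z) ≤ K * dist z' z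

/-- Uniform pointwise lower Lipschitz bound on `S`. -/
def Low {X Y : Type} [PseudoMetricSpace X] [PseudoMetricSpace Y] (S : Set X) (f : X → Y) : Prop :=
  ∃ θ : ℝ, 0 < θ ∧ ∀ z ∈ S, ∀ᶠ z' in 𝓝[S] z, θ * dist z' z ≤ dist (f z') (f z)

/-- `f` expands the chart `Λ` at the points mapped into `U`. -/
def Dom (U : Set P) (S : Set P) (Λ f : P → P) : Prop :=
  ∀ z ∈ S, Λ z ∈ U → ∀ᶠ z' in 𝓝[S] z, dist (Λ z') (Λ z) ≤ dist (f z') (f z)

/-- An embedding of the model square into `S` which expands `Λ` over `U`. -/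
structure Emb (U : Set P) (Λ : P → P) (S : Set P) (f : P → P) : Prop where
  up : Up sq f
  low : Low sq f
  inj : InjOn f sq
  maps : MapsTo f sq S
  dom : Dom U sq Λ f

/-- The chart does not depend on the normal coordinate near the sides. -/
def Fib (Λ : P → P) : Prop :=
  ∃ z : ℝ, 0 < z ∧ z ≤ 1 / 2 ∧
    ∀ p ∈ sq, Λ p = Λ (cl (z - 1) (1 - z) p.1, cl (z - 1) (1 - z) p.2)

/-! ### Boxes bounded by four graphs -/

/-- Side `i`, seen after rotating by `-i` quarter turns, is the graph of `gi` over `[ai, bi]`. -/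
structure Box where
  g0 : ℝ → ℝ
  g1 : ℝ → ℝ
  g2 : ℝ → ℝ
  g3 : ℝ → ℝ
  a0 : ℝ
  b0 : ℝ
  a1 : ℝ
  b1 : ℝ
  a2 : ℝ
  b2 : ℝ
  a3 : ℝ
  b3 : ℝ

/-- A 4-periodic loop made of four sides, each parametrised by `[-1,1]`. -/
noncomputable def per4 (s0 s1 s2 s3 : ℝ → P) (t : ℝ) : P :=
  if ⌊t⌋ % 4 = 0 then s0 (2 * Int.fract t - 1)
  else if ⌊t⌋ % 4 = 1 then s1 (2 * Int.fract t - 1)
  else if ⌊t⌋ % 4 = 2 then s2 (2 * Int.fract t - 1)
  else s3 (2 * Int.fract t - 1)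

/-- The slope bound. -/
noncomputable def eps : ℝ := 1 / 10 ^ 5

/-- `eps`-Lipschitz real function. -/
def LipE (g : ℝ → ℝ) : Prop := ∀ u v, |g u - g v| ≤ eps * |u - v|

/-- Constant on an interval. -/
def Flat (g : ℝ → ℝ) (a b : ℝ) : Prop := ∀ u ∈ Icc a b, g u = g a

/-- Affine on an interval. -/
def Aff (g : ℝ → ℝ) (a b : ℝ) : Prop :=
  ∀ u ∈ Icc a b, (b - a) * g u = (b - u) * g a + (u - a) * g b

namespace Box

/-- The box rotated clockwise by a quarter turn. -/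
def rot (R : Box) : Box := ⟨R.g1, R.g2, R.g3, R.g0, R.a1, R.b1, R.a2, R.b2, R.a3, R.b3, R.a0, R.b0⟩

/-- The closed region. -/
def set (R : Box) : Set P :=
  {p | R.g0 p.1 ≤ p.2 ∧ R.g1 p.2 ≤ -p.1 ∧ R.g2 (-p.1) ≤ -p.2 ∧ R.g3 (-p.2) ≤ p.1}

/-- The bottom side. -/
noncomputable def side (R : Box) (u : ℝ) : P := (af R.a0 R.b0 u, R.g0 (af R.a0 R.b0 u))

/-- The boundary loop, counterclockwise, starting at the bottom left corner. -/
noncomputable def loop (R : Box) : ℝ → P :=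
  per4 R.side (fun u => J (R.rot.side u)) (fun u => J (J (R.rot.rot.side u)))
    (fun u => J (J (J (R.rot.rot.rot.side u))))

/-- Extents of the sides. -/
def l0 (R : Box) : ℝ := R.b0 - R.a0
def l1 (R : Box) : ℝ := R.b1 - R.a1
def l2 (R : Box) : ℝ := R.b2 - R.a2
def l3 (R : Box) : ℝ := R.b3 - R.a3

/-- Mean width and height. -/
noncomputable def w (R : Box) : ℝ := (R.l0 + R.l2) / 2
noncomputable def h (R : Box) : ℝ := (R.l1 + R.l3) / 2
noncomputable def mu (R : Box) : ℝ := min R.w R.h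

/-- The area, as a boundary integral. -/
noncomputable def area (R : Box) : ℝ :=
  R.b0 * R.a1 + R.b1 * R.a2 + R.b2 * R.a3 + R.b3 * R.a0
    - ((∫ u in R.a0..R.b0, R.g0 u) + (∫ u in R.a1..R.b1, R.g1 u)
      + (∫ u in R.a2..R.b2, R.g2 u) + (∫ u in R.a3..R.b3, R.g3 u))

/-- The size. -/
noncomputable def sz (R : Box) : ℝ := √R.area

/-- Small slopes, matching corners, positive extents. -/
structure Pre (R : Box) : Prop where
  e0 : LipE R.g0
  e1 : LipE R.g1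
  e2 : LipE R.g2
  e3 : LipE R.g3
  c01 : R.b0 = -R.g1 R.a1
  d01 : R.a1 = R.g0 R.b0
  c12 : R.b1 = -R.g2 R.a2
  d12 : R.a2 = R.g1 R.b1
  c23 : R.b2 = -R.g3 R.a3
  d23 : R.a3 = R.g2 R.b2
  c30 : R.b3 = -R.g0 R.a0
  d30 : R.a0 = R.g3 R.b3
  p0 : R.a0 < R.b0
  p1 : R.a1 < R.b1
  p2 : R.a2 < R.b2
  p3 : R.a3 < R.b3

/-- Aspect ratio at most `k`. -/
def Asp (R : Box) (k : ℝ) : Prop := R.w ≤ k * R.h ∧ R.h ≤ k * R.w

/-- Admissible target shape. -/
def Valid (R : Box) : Prop := R.Pre ∧ R.Asp 20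

/-- The mean of the corners. -/
noncomputable def ctr (R : Box) : P :=
  ((R.a0 + R.b0 - R.a2 - R.b2) / 4, (R.a1 + R.b1 - R.a3 - R.b3) / 4)

/-- Image under `p ↦ s • p + v`. -/
noncomputable def map (R : Box) (s : ℝ) (v : P) : Box :=
  ⟨fun u => s * R.g0 ((u - v.1) / s) + v.2, fun u => s * R.g1 ((u - v.2) / s) - v.1,
    fun u => s * R.g2 ((u + v.1) / s) - v.2, fun u => s * R.g3 ((u + v.2) / s) + v.1,
    s * R.a0 + v.1, s * R.b0 + v.1, s * R.a1 + v.2, s * R.b1 + v.2,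
    s * R.a2 - v.1, s * R.b2 - v.1, s * R.a3 - v.2, s * R.b3 - v.2⟩

/-- Homothetic copy about the centre. -/
noncomputable def hom (R : Box) (s : ℝ) : Box := R.map s ((1 - s) • R.ctr)

/-- The homothetic copy whose size is smaller by `d`. -/
noncomputable def shr (R : Box) (d : ℝ) : Box := R.hom (1 - d / R.sz)

/-- The part to the left of the graph `x = c y`. -/
def cutL (R : Box) (c : ℝ → ℝ) (xb yb xt yt : ℝ) : Box :=
  ⟨R.g0, fun y => -c y, R.g2, R.g3, R.a0, xb, yb, yt, -xt, R.b2, R.a3, R.b3⟩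

/-- The part to the right of the graph `x = c y`. -/
def cutR (R : Box) (c : ℝ → ℝ) (xb yb xt yt : ℝ) : Box :=
  ⟨R.g0, R.g1, R.g2, fun u => c (-u), xb, R.b0, R.a1, R.b1, R.a2, -xt, -yt, -yb⟩

/-- The graph `x = c y` cuts the box from `(xb, yb)` to `(xt, yt)`, away from the ends. -/
structure IsCut (R : Box) (c : ℝ → ℝ) (xb yb xt yt : ℝ) : Prop where
  e : LipE c
  cb : xb = c yb
  db : yb = R.g0 xb
  ct : xt = c yt
  dt : -yt = R.g2 (-xt)
  ml : R.a0 + R.l0 / 40 ≤ xb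
  mr : xb ≤ R.b0 - R.l0 / 40

/-- All four sides are axis parallel segments. -/
def Rect (R : Box) : Prop :=
  Flat R.g0 R.a0 R.b0 ∧ Flat R.g1 R.a1 R.b1 ∧ Flat R.g2 R.a2 R.b2 ∧ Flat R.g3 R.a3 R.b3

open Classical in
/-- Shape potential. -/
noncomputable def phi (R : Box) : ℝ :=
  (if Flat R.g0 R.a0 R.b0 then 0 else 1 + R.w / R.h / 60)
    + (if Flat R.g1 R.a1 R.b1 then 0 else 1 + R.h / R.w / 60)
    + (if Flat R.g2 R.a2 R.b2 then 0 else 1 + R.w / R.h / 60)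
    + (if Flat R.g3 R.a3 R.b3 then 0 else 1 + R.h / R.w / 60)

open Classical in
/-- Guaranteed drop of the shape potential under a cut. -/
noncomputable def drop (R : Box) : ℝ := if R.Rect then 0 else 1 / 1200

/-- Midpoint of the bottom range. -/
noncomputable def mid (R : Box) : ℝ := (R.a0 + R.b0) / 2

/-- Pentagon: straight sides, the bottom side possibly bent at its midpoint. -/
def Pent (R : Box) : Prop :=
  Aff R.g0 R.a0 R.mid ∧ Aff R.g0 R.mid R.b0 ∧ Aff R.g1 R.a1 R.b1 ∧ Aff R.g2 R.a2 R.b2 ∧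
    Aff R.g3 R.a3 R.b3

/-- The bend of the bottom side. -/
noncomputable def kink (R : Box) : ℝ := R.g0 R.mid - (R.a1 - R.b3) / 2

/-- Martingale energy plus twist potential relative to the nominal half-sizes `w0, h0`. -/
noncomputable def pot (R : Box) (w0 h0 : ℝ) : ℝ :=
  ((R.l0 + R.l2) / (4 * w0) - 1) ^ 2 + ((R.l1 + R.l3 - R.kink) / (4 * h0) - 1) ^ 2
    + 4 * ((R.a0 + R.b0 + R.a2 + R.b2) / (4 * w0)) ^ 2
    + ((R.a1 + R.b1 + R.a3 + R.b3) / (4 * h0)) ^ 2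
    + 20 * (((R.l2 - R.l0) / (4 * w0)) ^ 2 + 4 / 5 * ((R.l1 - R.l3) / (4 * h0)) ^ 2
      + 9 / 100 * (R.kink / h0) ^ 2)

end Box

/-- The square box with half-side `s` centred at the origin. -/
def sbox (s : ℝ) : Box :=
  ⟨fun _ => -s, fun _ => -s, fun _ => -s, fun _ => -s, -s, s, -s, s, -s, s, -s, s⟩

/-- The boundary loop of the model square. -/
noncomputable def Γ : ℝ → P := (sbox 1).loop

/-- Homothetic image of a set. -/
def hs (o : P) (s : ℝ) (S : Set P) : Set P := {p | o + s⁻¹ • (p - o) ∈ S}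

/-- What the ring constructions need to know about a target shape. -/
structure Fan (γ : ℝ → P) (o : P) (S : Set P) (μ : ℝ) : Prop where
  pos : 0 < μ
  per : ∀ t, γ (t + 4) = γ t
  lip : ∀ t t', dist (γ t) (γ t') ≤ 25 * μ * |t - t'|
  low : ∀ t t', |t - t'| ≤ 2 → μ / 4 * |t - t'| ≤ dist (γ t) (γ t')
  bdd : ∀ t, dist (γ t) o ≤ 25 * μ
  rad : ∀ t, μ / 4 ≤ dist (γ t) o
  mem : ∀ t s, 0 ≤ s → s ≤ 1 → o + s • (γ t - o) ∈ S
  sub : ∀ s, 0 < s → s ≤ 1 → hs o s S ⊆ S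
  sep : ∀ t s s', 0 < s → s ≤ s' → ∀ p ∈ hs o s S,
    μ / 4 * (s' - s) ≤ dist p (o + s' • (γ t - o))

/-! ### Claims -/

/-- Admissible boundary values. -/
def Adm (U : Set P) (Λ : P → P) (β : ℝ → P) : Prop :=
  ∀ t, Λ (Γ t) ∈ U → ∀ᶠ t' in 𝓝 t, dist (Λ (Γ t')) (Λ (Γ t)) ≤ lam * dist (β t') (β t)

/-- A solution with boundary values `R.loop ∘ σ`. -/
def Sol (U : Set P) (Λ : P → P) (R : Box) (σ : ℝ → ℝ) : Prop :=
  ∃ f, Emb U Λ R.set f ∧ ∀ t, f (Γ t) = R.loop (σ t)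

/-- Solvable for some admissible boundary values. -/
def EC (U : Set P) (Λ : P → P) (R : Box) : Prop :=
  ∃ σ, IsLift σ ∧ Adm U Λ (fun t => R.loop (σ t)) ∧ Sol U Λ R σ

/-- Solvable for all admissible boundary values. -/
def GC (U : Set P) (Λ : P → P) (R : Box) : Prop :=
  ∀ σ, IsLift σ → Adm U Λ (fun t => R.loop (σ t)) → Sol U Λ R σ

/-- A solution with corner preserving boundary values. -/
def CP (U : Set P) (Λ : P → P) (R : Box) (σ0 σ1 σ2 σ3 : ℝ → ℝ) : Prop :=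
  ∃ f, Emb U Λ R.set f ∧ ∀ u ∈ Icc (-1 : ℝ) 1,
    f (u, -1) = R.side (σ0 u) ∧ f (1, u) = J (R.rot.side (σ1 u)) ∧
      f (-u, 1) = J (J (R.rot.rot.side (σ2 u))) ∧
      f (-1, -u) = J (J (J (R.rot.rot.rot.side (σ3 u))))

/-- The four sides of a chart, counterclockwise. -/
def s0 (Λ : P → P) (u : ℝ) : P := Λ (u, -1)
def s1 (Λ : P → P) (u : ℝ) : P := Λ (1, u)
def s2 (Λ : P → P) (u : ℝ) : P := Λ (-u, 1)
def s3 (Λ : P → P) (u : ℝ) : P := Λ (-1, -u)

/-- All four sides have trace at most `τ`. -/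
def STr (U : Set P) (Λ : P → P) (τ : ℝ) : Prop :=
  Tr U (s0 Λ) (-1) 1 τ ∧ Tr U (s1 Λ) (-1) 1 τ ∧ Tr U (s2 Λ) (-1) 1 τ ∧ Tr U (s3 Λ) (-1) 1 τ

/-- A pair of mutually inverse Lipschitz self-maps of the model square. -/
structure Hm (h g : P → P) : Prop where
  mh : MapsTo h sq sq
  mg : MapsTo g sq sq
  gh : ∀ p ∈ sq, g (h p) = p
  hg : ∀ p ∈ sq, h (g p) = p
  uh : Up sq h
  ug : Up sq g

/-- The chart `Λ` is the chart `Λ'` up to a bi-Lipschitz change of coordinates with boundary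
lift `χ`. -/
def Eqv (Λ Λ' : P → P) (χ : ℝ → ℝ) : Prop :=
  ∃ h g, Hm h g ∧ (∀ p ∈ sq, Λ p = Λ' (h p)) ∧ IsLift χ ∧ ∀ t, h (Γ t) = Γ (χ t)

/-- Partial compression of the end zones of `[-1,1]`. -/
noncomputable def xi (z s x : ℝ) : ℝ :=
  cl (z - 1) (1 - z) x + (1 + s) / 2 * (x - cl (z - 1) (1 - z) x)

/-- Product compression. -/
noncomputable def X2 (z s : ℝ) (p : P) : P := (xi z s p.1, xi z s p.2)

/-! ### Cells -/

/-- An affine frame: centre and two half-side vectors. -/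
structure Fr where
  c : P
  e1 : P
  e2 : P

namespace Fr

def W (F : Fr) (p : P) : P := F.c + p.1 • F.e1 + p.2 • F.e2
def rot (F : Fr) : Fr := ⟨F.c, F.e2, -F.e1⟩
noncomputable def left (F : Fr) : Fr := ⟨F.c - (1 / 2 : ℝ) • F.e1, (1 / 2 : ℝ) • F.e1, F.e2⟩
noncomputable def right (F : Fr) : Fr := ⟨F.c + (1 / 2 : ℝ) • F.e1, (1 / 2 : ℝ) • F.e1, F.e2⟩
/-- The first side is a longest one. -/
def Wd (F : Fr) : Prop := ‖F.e2‖ ≤ ‖F.e1‖

end Fr

/-- The summable gain factor: density to the power 1/16. -/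
noncomputable def gn (m : ℕ) (ν : ℝ) : ℝ := (ν / 2 ^ m) ^ (1 / 16 : ℝ)

/-- A dyadic system of cells with masses and trace bounds. -/
structure Env where
  U : Set P
  pi : P → P
  cell : ℕ → Fr → Prop
  nu : Fr → ℝ
  hU : IsOpen U
  lip : ∃ K : ℝ, ∀ p q, dist (pi p) (pi q) ≤ K * dist p q
  rot : ∀ m F, cell m F → cell m F.rot ∧ nu F.rot = nu F
  asp : ∀ m F, cell m F → ‖F.e1‖ ≤ 2 * ‖F.e2‖
  evn : ∀ m F, cell m F → Even m → ‖F.e1‖ = ‖F.e2‖
  half : ∀ m F, cell (m + 1) F → F.Wd →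
    cell m F.left ∧ cell m F.right ∧ nu F = nu F.left + nu F.right
  pos : ∀ m F, cell m F → 0 < nu F ∧ nu F ≤ 2 ^ m
  fib : ∀ m F, cell m F → Fib (fun p => pi (F.W p))
  term : ∀ F, cell 0 F → ∀ p ∈ sq, pi (F.W p) ∈ U →
    ∀ᶠ p' in 𝓝[sq] p, dist (pi (F.W p')) (pi (F.W p)) ≤ √(nu F) * dist p' p
  tr : ∀ m F, cell m F → Tr U (s0 fun p => pi (F.W p)) (-1) 1 (4 * √(nu F) * gn m (nu F))

/-- The standard chart of a cell. -/
def Env.ch (E : Env) (F : Fr) (p : P) : P := E.pi (F.W p)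

/-- A cell with its level and the positions of the entry and exit points on its boundary loop. -/
structure It where
  m : ℕ
  F : Fr
  p : ℝ
  q : ℝ

/-- The Hilbert curve types. -/
def Ty (m : ℕ) (p q : ℝ) : Prop :=
  (Even m ∧ ((p = 4 ∧ q = 1) ∨ (p = 3 ∧ q = 2))) ∨
    (Odd m ∧ ((p = 4 ∧ q = 5 / 2) ∨ (p = 3 ∧ q = 1 / 2) ∨ (p = 5 / 2 ∧ q = 1) ∨
      (p = 9 / 2 ∧ q = 2)))

def Ok (E : Env) (i : It) : Prop := E.cell i.m i.F ∧ i.F.Wd ∧ Ty i.m i.p i.q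

/-- `K` is a chart of the cell whose left side sits near the entry point and whose right side
sits near the exit point. -/
def Blk (E : Env) (i : It) (K : P → P) : Prop :=
  Fib K ∧ ∃ χ, Eqv K (E.ch i.F) χ ∧ 1 / 2 < χ 1 ∧ χ 2 < 5 / 2 ∧ 5 / 2 < χ 3 ∧ χ 4 < 9 / 2 ∧
    i.q - 1 / 4 / 2 ^ i.m < χ 1 ∧ χ 2 < i.q + 1 / 4 / 2 ^ i.m ∧
    i.p - 1 / 4 / 2 ^ i.m < χ 3 ∧ χ 4 < i.p + 1 / 4 / 2 ^ i.m

/-- The strip `[a,b] x [-1,1]` of `Λ` consists of consecutive blocks. -/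
def Chain (E : Env) (Λ : P → P) : ℝ → ℝ → List It → Prop
  | a, b, [] => a = b
  | a, b, i :: l => ∃ x, a < x ∧ Blk E i (Λ ∘ A a x) ∧ Chain E Λ x b l

/-! ### Credits -/

noncomputable def sC : ℝ := 10 ^ 50
noncomputable def C0 : ℝ := 10 ^ 100
noncomputable def BB : ℝ := 10 ^ 8
noncomputable def k1 : ℝ := 1 / 10 ^ 26
noncomputable def k2 : ℝ := 1 / 10 ^ 28
noncomputable def eta : ℝ := 1 / 10 ^ 8
noncomputable def P0 : ℝ := 1 / 10 ^ 16
noncomputable def P1 : ℝ := 1 / 10 ^ 13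
noncomputable def d0 : ℝ := 1 / 10 ^ 9

/-- Mass times gain factor. -/
noncomputable def xx (m : ℕ) (ν : ℝ) : ℝ := ν * gn m ν
/-- Bound for the boundary trace of a block. -/
noncomputable def ta (m : ℕ) (ν : ℝ) : ℝ := 32 * √ν * gn m ν
/-- Basic credit. -/
noncomputable def cr (m : ℕ) (ν : ℝ) : ℝ := C0 * (2 * ν - xx m ν)
noncomputable def base (m : ℕ) (ν : ℝ) : ℝ :=
  if m = 0 then C0 * ν / 10 else cr m ν + k1 * C0 * xx m ν
noncomputable def bonus (m : ℕ) (ν : ℝ) : ℝ := if m = 0 then C0 * ν / 5 else k1 * C0 * xx m ν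

namespace Env

noncomputable def xs (E : Env) (l : List It) : ℝ := (l.map fun i => xx i.m (E.nu i.F)).sum
noncomputable def ts (E : Env) (l : List It) : ℝ := (l.map fun i => ta i.m (E.nu i.F)).sum
noncomputable def cs (E : Env) (l : List It) : ℝ :=
  (l.map fun i => base i.m (E.nu i.F) + 2 * bonus i.m (E.nu i.F)).sum
noncomputable def hb (E : Env) : List It → ℝ
  | [] => 0
  | i :: _ => bonus i.m (E.nu i.F)
noncomputable def lb (E : Env) (l : List It) : ℝ := E.hb l.reverse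
/-- Credit of a list. -/
noncomputable def Cr (E : Env) (l : List It) : ℝ := E.cs l - E.hb l - E.lb l
/-- Required size of the target. -/
noncomputable def need (E : Env) (l : List It) (φ : ℝ) : ℝ :=
  √(E.Cr l + k2 * C0 * E.xs l * φ) + BB * E.ts l

/-- The claim for lists. -/
def HC (E : Env) (l : List It) : Prop :=
  ∀ Λ R, Chain E Λ (-1) 1 l → R.Valid → (l.length = 1 → R.Rect → R.Asp 19) →
    E.need l R.phi ≤ R.sz → EC E.U Λ R

/-- Canonical boundary values can be filled. -/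
def Fill (E : Env) (m : ℕ) (F : Fr) (R : Box) : Prop :=
  ∀ σ0 σ1 σ2 σ3, Can E.U ((m + 1) / 2) (s0 (E.ch F)) R.l0 σ0 →
    Can E.U (m / 2) (s1 (E.ch F)) R.l1 σ1 → Can E.U ((m + 1) / 2) (s2 (E.ch F)) R.l2 σ2 →
    Can E.U (m / 2) (s3 (E.ch F)) R.l3 σ3 → CP E.U (E.ch F) R σ0 σ1 σ2 σ3

end Env

/-- Weight of the potential in the martingale mode. -/
noncomputable def et (m : ℕ) (a0 : ℝ) : ℝ := eta * gn m (a0 / C0)

/-- State of the martingale mode. -/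
structure FSt (m : ℕ) (ν : ℝ) (R : Box) (w0 h0 : ℝ) : Prop where
  pre : R.Pre
  pent : R.Pent
  pw : 0 < w0
  ph : 0 < h0
  n1 : w0 ≤ 19 * h0
  n2 : 2 * h0 ≤ 19 * w0
  pot : R.pot w0 h0 ≤ P1
  need : cr m ν + et m (4 * w0 * h0) * (4 * w0 * h0) * R.pot w0 h0 ≤ R.area

/-- The claim for the martingale mode. -/
def Env.FC (E : Env) (m : ℕ) : Prop :=
  ∀ F R w0 h0, E.cell m F → F.Wd → FSt m (E.nu F) R w0 h0 → E.Fill m F R

end Pool.Agent.Lib.MP_ecd4e3_gt
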