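import Pool.Agent.Lib.MP_ecd4e3_gt.Real1

/-! Admissible and canonical parametrisations of sides. -/

namespace Pool.Agent.Lib.MP_ecd4e3_gt

open Set Filter Topology

theorem SAdm.congr {U : Set P} {m m' : ℝ → P} {ℓ : ℝ} {σ σ' : ℝ → ℝ} (h : SAdm U m ℓ σ)
    (hm : EqOn m m' (Icc (-1) 1)) (hσ : EqOn σ σ' (Icc (-1) 1)) : SAdm U m' ℓ σ' := by
  have a : (-1 : ℝ) ≤ 1 := by norm_num
  refine ⟨⟨h.1.1.congr hσ, ?_, ?_⟩, h.2.congr hm fun u hu => ?_⟩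
  · rw [← hσ (left_mem_Icc.2 a), h.1.2.1]
  · rw [← hσ (right_mem_Icc.2 a), h.1.2.2]
  · beta_reduce
    rw [hσ hu]

theorem SAdm.rv {U : Set P} {m : ℝ → P} {ℓ : ℝ} {σ : ℝ → ℝ} (h : SAdm U m ℓ σ) :
    SAdm U (fun u => m (-u)) ℓ (rv σ) := by
  refine ⟨h.1.rv, (h.2.comp_anti (α := fun u => -u) (a := -1) (b := 1) continuousOn_neg
    (fun x _ y _ hxy => neg_le_neg hxy) fun u hu => ⟨by linarith [hu.2], by linarith [hu.1]⟩).congr
    (fun _ _ => rfl) fun u _ => ?_⟩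
  simp only [MP_ecd4e3_gt.rv]
  ring

theorem room_of_tr {U : Set P} (hU : IsOpen U) {m : ℝ → P} {τ ℓ : ℝ} (hm : LipC m (-1) 1)
    (ht : Tr U m (-1) 1 τ) (hℓ : 0 < ℓ) (h : τ ≤ lam * ℓ / 2) : Room U m ℓ := by
  obtain ⟨T, K, h1, h2, h3, h4⟩ := exists_min_on hU (by norm_num) hm
  obtain ⟨S, hS, hτ⟩ := ht
  have hD : T 1 - T (-1) ≤ lam * (ℓ / 2) := by
    linarith [h4 (-1) 1 S le_rfl (by norm_num) le_rfl hS]
  have hc : 0 < lam * (ℓ / 2) := by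
    unfold lam
    positivity
  generalize hcc : lam * (ℓ / 2) = c at hD hc
  have hD' : (T 1 - T (-1)) / c ≤ 1 := (div_le_one hc).2 hD
  refine ⟨fun u => -1 + (T u - T (-1)) / c + (2 - (T 1 - T (-1)) / c) / 2 * (u + 1),
    ⟨⟨(2 - (T 1 - T (-1)) / c) / 2, K / c + (2 - (T 1 - T (-1)) / c) / 2, by linarith,
      fun x _ y _ hxy => ?_⟩, by simp, by ring⟩, h3.of_le fun x _ y _ hxy => ?_⟩
  · have a1 : 0 ≤ (T y - T x) / c := div_nonneg (sub_nonneg.2 (h1 hxy)) hc.le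
    have a2 : (T y - T x) / c ≤ K * (y - x) / c := div_le_div_of_nonneg_right (h2 x y hxy) hc.le
    have a3 : (T y - T x) / c = (T y - T (-1)) / c - (T x - T (-1)) / c := by ring
    have a4 : K * (y - x) / c = K / c * (y - x) := by ring
    constructor <;> linarith
  · rw [hcc]
    have a1 : 0 ≤ c * ((2 - (T 1 - T (-1)) / c) / 2 * (y - x)) :=
      mul_nonneg hc.le (mul_nonneg (by linarith) (by linarith))
    have a2 : c * ((T y - T (-1)) / c) = T y - T (-1) := by field_simp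
    have a3 : c * ((T x - T (-1)) / c) = T x - T (-1) := by field_simp
    linarith

theorem sd_ia_af {a b : ℝ} (hab : a < b) (u : ℝ) : ia a b (af a b u) = u := by
  have : b - a ≠ 0 := by linarith
  unfold ia af
  field_simp
  ring

theorem sd_af_ia {a b : ℝ} (hab : a < b) (u : ℝ) : af a b (ia a b u) = u := by
  have : b - a ≠ 0 := by linarith
  unfold ia af
  field_simp
  ring

/-- An admissible parametrisation of a piece, in the coordinates of the whole side. -/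
theorem sd_piece {U : Set P} {m : ℝ → P} {a b c d ℓ : ℝ} {σ : ℝ → ℝ} (hab : a < b) (hcd : c < d)
    (h : SAdm U (m ∘ af a b) (ℓ * ((d - c) / 2)) σ) :
    IncOn (fun u => af c d (σ (ia a b u))) (Icc a b) ∧ af c d (σ (ia a b a)) = c ∧
      af c d (σ (ia a b b)) = d ∧
      DomOn U m (fun u => lam * (ℓ / 2) * af c d (σ (ia a b u))) a b := by
  have hm : MapsTo (ia a b) (Icc a b) (Icc (-1) 1) := fun u hu => r1_mem_ia hab hu
  have hi := r1_inc_ia hab (Icc a b)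
  have e1 : ia a b a = -1 := by simp [ia]
  have e2 : ia a b b = 1 := by
    have : b - a ≠ 0 := by linarith
    unfold ia
    field_simp
    ring
  refine ⟨(r1_inc_af hcd univ).comp (h.1.1.comp hi hm) (mapsTo_univ _ _), ?_, ?_, ?_⟩
  · rw [e1, h.1.2.1]
    simp [af]
  · rw [e2, h.1.2.2]
    simp [af]
  · refine ((h.2.comp hi.continuousOn hi.strictMonoOn.monotoneOn hm).congr (fun u _ => ?_)
      fun _ _ => rfl).of_le fun s _ t _ _ => le_of_eq ?_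
    · simp only [Function.comp, sd_af_ia hab]
    · unfold af
      ring

/-- Concatenation of admissible parametrisations. -/
theorem sadm_cat {U : Set P} {m : ℝ → P} {x κ ℓ : ℝ} {σ1 σ2 : ℝ → ℝ} (hx : -1 < x) (hx' : x < 1)
    (hκ : -1 < κ) (hκ' : κ < 1) (hℓ : 0 < ℓ)
    (h1 : SAdm U (m ∘ af (-1) x) (ℓ * ((κ + 1) / 2)) σ1)
    (h2 : SAdm U (m ∘ af x 1) (ℓ * ((1 - κ) / 2)) σ2) :
    ∃ σ, SAdm U m ℓ σ ∧ σ x = κ ∧ EqOn (rs (-1) x (-1) κ σ) σ1 (Icc (-1) 1) ∧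
      EqOn (rs x 1 κ 1 σ) σ2 (Icc (-1) 1) := by
  obtain ⟨a1, a2, a3, a4⟩ := sd_piece hx hκ (ℓ := ℓ) (by rwa [sub_neg_eq_add])
  obtain ⟨b1, b2, b3, b4⟩ := sd_piece hx' hκ' h2
  obtain ⟨σ, s1, s2, s3⟩ := r1_glue a1 b1 (a3.trans b2.symm)
  refine ⟨σ, ⟨⟨s1, (s2 _ hx.le).trans a2, (s3 _ hx'.le).trans b3⟩, DomOn.union hx.le hx'.le
    (a4.congr (fun _ _ => rfl) fun u hu => ?_) (b4.congr (fun _ _ => rfl) fun u hu => ?_)⟩,
    (s2 _ le_rfl).trans a3, fun u hu => ?_, fun u hu => ?_⟩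
  · beta_reduce
    rw [s2 u hu.2]
  · beta_reduce
    rw [s3 u hu.1]
  · rw [rs, s2 _ (r1_mem_af hx.le hu).2, sd_ia_af hκ, sd_ia_af hx]
  · rw [rs, s3 _ (r1_mem_af hx'.le hu).1, sd_ia_af hκ', sd_ia_af hx']

theorem Can.sadm {U : Set P} {k : ℕ} {m : ℝ → P} {ℓ : ℝ} {σ : ℝ → ℝ} (h : Can U k m ℓ σ) :
    SAdm U m ℓ σ := by
  cases k with
  | zero => exact h
  | succ k => exact h.1

theorem Can.congr {U : Set P} {k : ℕ} {m m' : ℝ → P} {ℓ : ℝ} {σ σ' : ℝ → ℝ} (h : Can U k m ℓ σ)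
    (hm : EqOn m m' (Icc (-1) 1)) (hσ : EqOn σ σ' (Icc (-1) 1)) : Can U k m' ℓ σ' := by
  induction k generalizing m m' ℓ σ σ' with
  | zero => exact SAdm.congr h hm hσ
  | succ k ih =>
    have m1 : MapsTo (af (-1) 0) (Icc (-1) 1) (Icc (-1) 1) := fun u hu =>
      Icc_subset_Icc le_rfl zero_le_one (r1_mem_af (by norm_num) hu)
    have m2 : MapsTo (af 0 1) (Icc (-1) 1) (Icc (-1) 1) := fun u hu =>
      Icc_subset_Icc (by norm_num) le_rfl (r1_mem_af (by norm_num) hu)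
    have e1 : EqOn (m ∘ af (-1) 0) (m' ∘ af (-1) 0) (Icc (-1) 1) := fun u hu => hm (m1 hu)
    have e2 : EqOn (m ∘ af 0 1) (m' ∘ af 0 1) (Icc (-1) 1) := fun u hu => hm (m2 hu)
    refine ⟨h.1.congr hm hσ, fun ⟨τ1, r1⟩ ⟨τ2, r2⟩ => ?_⟩
    obtain ⟨a1, a2, a3⟩ := h.2 ⟨τ1, r1.congr e1.symm fun _ _ => rfl⟩
      ⟨τ2, r2.congr e2.symm fun _ _ => rfl⟩
    refine ⟨by rw [← hσ (by norm_num), a1], ih a2 e1 fun u hu => ?_, ih a3 e2 fun u hu => ?_⟩
    · rw [rs, rs, hσ (m1 hu)]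
    · rw [rs, rs, hσ (m2 hu)]

theorem Can.rv {U : Set P} {k : ℕ} {m : ℝ → P} {ℓ : ℝ} {σ : ℝ → ℝ} (h : Can U k m ℓ σ) :
    Can U k (fun u => m (-u)) ℓ (rv σ) := by
  induction k generalizing m ℓ σ with
  | zero => exact SAdm.rv h
  | succ k ih =>
    have f1 : ∀ u, -af (-1) 0 u = af 0 1 (-u) := fun u => by
      unfold af
      ring
    have f2 : ∀ u, -af 0 1 u = af (-1) 0 (-u) := fun u => by
      unfold af
      ring
    refine ⟨h.1.rv, fun ⟨τ1, r1⟩ ⟨τ2, r2⟩ => ?_⟩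
    obtain ⟨a1, a2, a3⟩ := h.2
      ⟨_, r2.rv.congr (fun u _ => by simp only [Function.comp, f2, neg_neg]) fun _ _ => rfl⟩
      ⟨_, r1.rv.congr (fun u _ => by simp only [Function.comp, f1, neg_neg]) fun _ _ => rfl⟩
    refine ⟨by simp [MP_ecd4e3_gt.rv, a1],
      (ih a3).congr (fun u _ => by simp only [Function.comp, f1]) fun u _ => ?_,
      (ih a2).congr (fun u _ => by simp only [Function.comp, f2]) fun u _ => ?_⟩
    · simp only [MP_ecd4e3_gt.rv, rs, ia, f1]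
      ring
    · simp only [MP_ecd4e3_gt.rv, rs, ia, f2]
      ring

theorem can_exists {U : Set P} (k : ℕ) {m : ℝ → P} {ℓ : ℝ} (hℓ : 0 < ℓ) (h : Room U m ℓ) :
    ∃ σ, Can U k m ℓ σ := by
  induction k generalizing m ℓ with
  | zero => exact h
  | succ k ih =>
    by_cases hr : Room U (m ∘ af (-1) 0) (ℓ / 2) ∧ Room U (m ∘ af 0 1) (ℓ / 2)
    · obtain ⟨σ1, h1⟩ := ih (half_pos hℓ) hr.1
      obtain ⟨σ2, h2⟩ := ih (half_pos hℓ) hr.2
      obtain ⟨σ, a1, a2, a3, a4⟩ := sadm_cat (x := 0) (κ := 0) (σ1 := σ1) (σ2 := σ2) (m := m) (U := U)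
        (by norm_num) (by norm_num) (by norm_num) (by norm_num) hℓ
        (by rw [show ℓ * ((0 + 1) / 2) = ℓ / 2 by ring]; exact h1.sadm)
        (by rw [show ℓ * ((1 - 0) / 2) = ℓ / 2 by ring]; exact h2.sadm)
      exact ⟨σ, a1, fun _ _ => ⟨a2, h1.congr (fun _ _ => rfl) a3.symm,
        h2.congr (fun _ _ => rfl) a4.symm⟩⟩
    · obtain ⟨σ, hσ⟩ := h
      exact ⟨σ, hσ, fun r1 r2 => absurd ⟨r1, r2⟩ hr⟩

end Pool.Agent.Lib.MP_ecd4e3_gt
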