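import Pool.Agent.Lib.MP_ecd4e3_gt.BoxG
import Pool.Agent.Lib.MP_ecd4e3_gt.Side

/-! Changes of coordinates of charts, transfer of claims, rotation. -/

namespace Pool.Agent.Lib.MP_ecd4e3_gt

open Set Filter Topology

theorem Hm.symm {h g : P → P} (H : Hm h g) : Hm g h :=
  ⟨H.mg, H.mh, H.hg, H.gh, H.ug, H.uh⟩

theorem Hm.comp {h g h' g' : P → P} (H : Hm h g) (H' : Hm h' g') :
    Hm (fun p => h' (h p)) (fun p => g (g' p)) :=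
  ⟨fun _ hp => H'.mh (H.mh hp), fun _ hp => H.mg (H'.mg hp),
    fun p hp => by rw [H'.gh _ (H.mh hp), H.gh p hp],
    fun p hp => by rw [H.hg _ (H'.mg hp), H'.hg p hp],
    H'.uh.comp H.uh H.mh, H.ug.comp H'.ug H'.mg⟩

theorem Emb.comp {U : Set P} {Λ Λ' : P → P} {S : Set P} {f h g : P → P} (hf : Emb U Λ' S f)
    (H : Hm h g) (he : ∀ p ∈ sq, Λ p = Λ' (h p)) : Emb U Λ S (fun p => f (h p)) := by
  have hc := H.uh.continuousOn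
  refine ⟨hf.up.comp H.uh H.mh, hf.low.comp (low_of_inv H.ug hc H.mh H.gh) hc H.mh,
    fun p hp q hq hpq => ?_, fun _ hp => hf.maps (H.mh hp),
    (hf.dom.comp hc H.mh).congr (fun p hp => (he p hp).symm) fun _ _ => rfl⟩
  rw [← H.gh p hp, hf.inj (H.mh hp) (H.mh hq) hpq, H.gh q hq]

theorem Emb.congr {U : Set P} {Λ Λ' : P → P} {S : Set P} {f : P → P} (hf : Emb U Λ S f)
    (h : EqOn Λ Λ' sq) : Emb U Λ' S f :=
  ⟨hf.up, hf.low, hf.inj, hf.maps, hf.dom.congr h fun _ _ => rfl⟩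

theorem Emb.mono {U : Set P} {Λ : P → P} {S S' : Set P} {f : P → P} (hf : Emb U Λ S f)
    (h : S ⊆ S') : Emb U Λ S' f :=
  ⟨hf.up, hf.low, hf.inj, fun _ hp => h (hf.maps hp), hf.dom⟩

theorem eqv_hm_id : Hm (fun p => p) (fun p => p) :=
  have h : Up sq (fun p : P => p) := up_of_lip (K := 1) fun _ _ _ _ => by rw [one_mul]
  ⟨fun _ hp => hp, fun _ hp => hp, fun _ _ => rfl, fun _ _ => rfl, h, h⟩

theorem eqv_hm_J : Hm J (fun p => J (J (J p))) :=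
  ⟨fun _ hp => J_mem_sq.2 hp, fun _ hp => J_mem_sq.2 (J_mem_sq.2 (J_mem_sq.2 hp)),
    fun p _ => J_four p, fun p _ => J_four p,
    up_of_lip (K := 1) fun _ _ _ _ => by rw [one_mul, dist_J],
    up_of_lip (K := 1) fun _ _ _ _ => by rw [one_mul, dist_J, dist_J, dist_J]⟩

theorem eqv_of_eqOn {Λ Λ' : P → P} (h : EqOn Λ Λ' sq) : Eqv Λ Λ' (fun t => t) :=
  ⟨_, _, eqv_hm_id, h, isLift_id, fun _ => rfl⟩

theorem Eqv.isLift {Λ Λ' : P → P} {χ : ℝ → ℝ} (h : Eqv Λ Λ' χ) : IsLift χ := by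
  obtain ⟨_, _, _, _, h, _⟩ := h
  exact h

theorem Eqv.loop {Λ Λ' : P → P} {χ : ℝ → ℝ} (h : Eqv Λ Λ' χ) (t : ℝ) :
    Λ (Γ t) = Λ' (Γ (χ t)) := by
  obtain ⟨_, _, _, h1, _, h2⟩ := h
  rw [h1 _ (Γ_mem t), h2]

theorem Eqv.trans {Λ Λ' Λ'' : P → P} {χ ψ : ℝ → ℝ} (h : Eqv Λ Λ' χ) (h' : Eqv Λ' Λ'' ψ) :
    Eqv Λ Λ'' (fun t => ψ (χ t)) := by
  obtain ⟨k, g, H, h1, h2, h3⟩ := h
  obtain ⟨k', g', H', h1', h2', h3'⟩ := h'
  exact ⟨_, _, H.comp H', fun p hp => by rw [h1 p hp, h1' _ (H.mh hp)], h2'.comp h2,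
    fun t => by rw [h3, h3']⟩

theorem Eqv.symm {Λ Λ' : P → P} {χ : ℝ → ℝ} (h : Eqv Λ Λ' χ) :
    ∃ ψ, Eqv Λ' Λ ψ ∧ (∀ t, ψ (χ t) = t) ∧ ∀ t, χ (ψ t) = t := by
  obtain ⟨k, g, H, h1, h2, h3⟩ := h
  obtain ⟨ψ, a1, a2, a3⟩ := h2.inv
  refine ⟨ψ, ⟨g, k, H.symm, fun p hp => by rw [h1 _ (H.mg hp), H.hg p hp], a1, fun t => ?_⟩,
    a2, a3⟩
  rw [← H.gh _ (Γ_mem (ψ t)), h3, a3]

theorem Eqv.shift {Λ Λ' : P → P} {χ : ℝ → ℝ} (h : Eqv Λ Λ' χ) (k : ℤ) :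
    Eqv Λ Λ' (fun t => χ t + 4 * k) := by
  obtain ⟨f, g, H, h1, h2, h3⟩ := h
  exact ⟨f, g, H, h1, (isLift_add (4 * k)).comp h2, fun t => by rw [h3, Γ_add_int]⟩

theorem Eqv.congr {Λ Λ' Λ1 Λ1' : P → P} {χ : ℝ → ℝ} (h : Eqv Λ Λ' χ) (h1 : EqOn Λ Λ1 sq)
    (h2 : EqOn Λ' Λ1' sq) : Eqv Λ1 Λ1' χ := by
  obtain ⟨f, g, H, a1, a2, a3⟩ := h
  exact ⟨f, g, H, fun p hp => by rw [← h1 hp, a1 p hp, h2 (H.mh hp)], a2, a3⟩

/-- Two charts equivalent to the same chart. -/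
theorem Eqv.rel {Λ Λ' C : P → P} {χ ψ : ℝ → ℝ} (h : Eqv Λ C χ) (h' : Eqv Λ' C ψ) :
    ∃ ρ, Eqv Λ Λ' ρ ∧ ∀ t, Γ (χ t) = Γ (ψ t) → Γ (ρ t) = Γ t := by
  obtain ⟨φ, a1, a2, -⟩ := h'.symm
  refine ⟨_, h.trans a1, fun t ht => ?_⟩
  obtain ⟨k, hk⟩ := Γ_inj ht.symm
  rw [hk, a1.isLift.add_int, a2, Γ_add_int]

theorem eqv_rot (Λ : P → P) : Eqv (Λ ∘ J) Λ (fun t => t + 1) :=
  ⟨_, _, eqv_hm_J, fun _ _ => rfl, isLift_add 1, fun t => (Γ_add_one t).symm⟩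

theorem eqv_rot' (Λ : P → P) : Eqv Λ (Λ ∘ J) (fun t => t - 1) := by
  refine ⟨_, _, eqv_hm_J.symm, fun p _ => by rw [Function.comp_apply, J_four], ?_, fun t => ?_⟩
  · simpa only [sub_eq_add_neg] using isLift_add (-1)
  · have := Γ_add_one (t - 1)
    rw [sub_add_cancel] at this
    rw [this, J_four]

theorem Eqv.up {Λ Λ' : P → P} {χ : ℝ → ℝ} (h : Eqv Λ Λ' χ) (hu : Up sq Λ') : Up sq Λ := by
  obtain ⟨f, g, H, a1, -, -⟩ := h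
  exact (hu.comp H.uh H.mh).congr fun p hp => (a1 p hp).symm

theorem eqv_split (a t : ℝ) : ∃ (k : ℤ) (t0 : ℝ), t0 ∈ Ico a (a + 4) ∧ t = t0 + 4 * k := by
  have h1 := Int.floor_le ((t - a) / 4)
  have h2 := Int.lt_floor_add_one ((t - a) / 4)
  exact ⟨⌊(t - a) / 4⌋, t - 4 * ⌊(t - a) / 4⌋, ⟨by linarith, by linarith⟩, by ring⟩

theorem Eqv.str {U : Set P} {Λ Λ' : P → P} {χ : ℝ → ℝ} {τ : ℝ} (h : Eqv Λ Λ' χ)
    (ht : STr U Λ' τ) : STr U Λ (8 * τ) := by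
  have h8 : Tr U (fun t => Λ' (Γ t)) 0 8 (8 * τ) :=
    (Tr.add (by norm_num) (by norm_num) ht.loop.1 ht.loop.2).le (by linarith)
  have hχ := h.isLift
  have key : ∀ a : ℝ, Tr U (fun u => Λ (Γ (a + (u + 1) / 2))) (-1) 1 (8 * τ) := fun a => by
    obtain ⟨k, t0, h0, hk⟩ := eqv_split 0 (χ a)
    have hm : Monotone fun u : ℝ => χ (a + (u + 1) / 2) - 4 * k := fun u v huv =>
      sub_le_sub_right (hχ.strictMono.monotone (by linarith)) _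
    have hc : Continuous fun u : ℝ => χ (a + (u + 1) / 2) - 4 * k := by
      have := hχ.continuous
      fun_prop
    refine (h8.comp (by norm_num) hc.continuousOn (hm.monotoneOn _) fun u hu => ?_).congr
      fun u _ => ?_
    · have b1 : χ a ≤ χ (a + (u + 1) / 2) := hχ.strictMono.monotone (by linarith [hu.1])
      have b2 : χ (a + (u + 1) / 2) ≤ χ (a + 4) := hχ.strictMono.monotone (by linarith [hu.2])
      rw [hχ.2] at b2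
      exact ⟨by linarith [h0.1], by linarith [h0.2]⟩
    · simp only
      rw [h.loop, ← Γ_add_int _ k, sub_add_cancel]
  refine ⟨(key 0).congr fun u hu => ?_, (key 1).congr fun u hu => ?_,
    (key 2).congr fun u hu => ?_, (key 3).congr fun u hu => ?_⟩
  · simp only [zero_add, (Γ_eval hu).1, s0]
  · simp only [(Γ_eval hu).2.1, s1]
  · simp only [(Γ_eval hu).2.2.1, s2]
  · simp only [(Γ_eval hu).2.2.2, s3]

theorem Eqv.adm {U : Set P} {Λ Λ' : P → P} {χ : ℝ → ℝ} {β : ℝ → P} (h : Eqv Λ Λ' χ)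
    (ha : Adm U Λ' β) : Adm U Λ (fun t => β (χ t)) := fun t ht => by
  simp only [h.loop] at ht ⊢
  exact (h.isLift.continuous.tendsto t).eventually (ha _ ht)

theorem Eqv.sol {U : Set P} {Λ Λ' : P → P} {χ σ : ℝ → ℝ} {R : Box} (h : Eqv Λ Λ' χ)
    (hs : Sol U Λ' R σ) : Sol U Λ R (fun t => σ (χ t)) := by
  obtain ⟨k, g, H, a1, -, a3⟩ := h
  obtain ⟨f, b1, b2⟩ := hs
  exact ⟨_, b1.comp H a1, fun t => by rw [a3, b2]⟩

theorem Eqv.ec {U : Set P} {Λ Λ' : P → P} {χ : ℝ → ℝ} {R : Box} (h : Eqv Λ Λ' χ)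
    (hc : EC U Λ' R) : EC U Λ R := by
  obtain ⟨σ, h1, h2, h3⟩ := hc
  exact ⟨_, h1.comp h.isLift, h.adm h2, h.sol h3⟩

theorem Eqv.gc {U : Set P} {Λ Λ' : P → P} {χ : ℝ → ℝ} {R : Box} (h : Eqv Λ Λ' χ)
    (hc : GC U Λ' R) : GC U Λ R := by
  intro σ h1 h2
  obtain ⟨ψ, a1, a2, -⟩ := h.symm
  simpa only [a2] using h.sol (hc _ (h1.comp a1.isLift) (a1.adm h2))

theorem Emb.rot {U : Set P} {Λ : P → P} {R : Box} {f : P → P} (h : Emb U Λ R.rot.set f) :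
    Emb U Λ R.set (fun p => J (f p)) := by
  refine ⟨?_, ?_, fun p hp q hq hpq => h.inj hp hq ?_, fun p hp => (R.mem_rot _).2 (h.maps hp), ?_⟩
  · simpa only [Up, dist_J] using h.up
  · simpa only [Low, dist_J] using h.low
  · have hpq' : J (f p) = J (f q) := hpq
    rw [← J_four (f p), hpq', J_four]
  · simpa only [Dom, dist_J] using h.dom

/-- Rotating the target. -/
theorem EC.of_rot {U : Set P} {Λ : P → P} {R : Box} (h : EC U Λ R.rot) : EC U Λ R := by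
  obtain ⟨σ, h1, h2, f, h3, h4⟩ := h
  refine ⟨fun t => σ t + 1, (isLift_add 1).comp h1, fun t ht => ?_, _, h3.rot, fun t => ?_⟩
  · simpa only [Box.loop_add_one, dist_J] using h2 t ht
  · rw [Box.loop_add_one, h4]

/-- Rotating source and target. -/
theorem CP.of_rot {U : Set P} {Λ : P → P} {R : Box} {σ0 σ1 σ2 σ3 : ℝ → ℝ}
    (h : CP U (Λ ∘ J) R.rot σ1 σ2 σ3 σ0) : CP U Λ R σ0 σ1 σ2 σ3 := by
  obtain ⟨f, h1, h2⟩ := h
  refine ⟨_, h1.rot.comp eqv_hm_J.symm fun p _ => by rw [Function.comp_apply, J_four],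
    fun u hu => ?_⟩
  obtain ⟨a0, a1, a2, a3⟩ := h2 u hu
  have e : ∀ x y : ℝ, J (J (J (x, y))) = (y, -x) := fun x y => by simp [J]
  exact ⟨by rw [e, a3, J_four]; rfl, by rw [e, a0], by rw [e, neg_neg, a1],
    by rw [e, neg_neg, a2]⟩

theorem CP.congr {U : Set P} {Λ Λ' : P → P} {R : Box} {σ0 σ1 σ2 σ3 : ℝ → ℝ}
    (h : CP U Λ R σ0 σ1 σ2 σ3) (he : EqOn Λ Λ' sq) : CP U Λ' R σ0 σ1 σ2 σ3 := by
  obtain ⟨f, h1, h2⟩ := h
  exact ⟨f, h1.congr he, h2⟩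

theorem eqv_loop_int (R : Box) (t : ℝ) (k : ℤ) : R.loop (t + 4 * k) = R.loop t := by
  have h : Function.Periodic R.loop 4 := R.loop_add_four
  rw [mul_comm]
  exact h.int_mul k t

theorem eqv_side_low {R : Box} (hR : R.Pre) (v v' : ℝ) :
    R.l0 / 2 * |v' - v| ≤ dist (R.side v') (R.side v) := by
  have h0 : 0 ≤ R.l0 / 2 := by have := hR.p0; unfold Box.l0; linarith
  refine le_trans (le_of_eq ?_) (le_max_left _ _)
  rw [Real.dist_eq, ← abs_of_nonneg h0, ← abs_mul]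
  congr 1
  simp only [Box.side, af, Box.l0]
  ring

/-- Admissibility on one side. -/
theorem eqv_piece {U : Set P} {F G m : ℝ → P} {ℓ a : ℝ} {σ : ℝ → ℝ} (h : SAdm U m ℓ σ)
    (hℓ : 0 ≤ ℓ) (hF : ∀ u ∈ Icc (-1 : ℝ) 1, F (a + (u + 1) / 2) = m u)
    (hG : ∀ u ∈ Icc (-1 : ℝ) 1, ∀ u' ∈ Icc (-1 : ℝ) 1,
      ℓ / 2 * |σ u' - σ u| ≤ dist (G (a + (u' + 1) / 2)) (G (a + (u + 1) / 2))) :
    ∀ t ∈ Icc a (a + 1), F t ∈ U →
      ∀ᶠ t' in 𝓝[Icc a (a + 1)] t, dist (F t') (F t) ≤ lam * dist (G t') (G t) := by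
  intro t ht hU
  have hm : MapsTo (fun t : ℝ => 2 * (t - a) - 1) (Icc a (a + 1)) (Icc (-1) 1) :=
    fun x hx => ⟨by linarith [hx.1], by linarith [hx.2]⟩
  have he : ∀ x : ℝ, a + (2 * (x - a) - 1 + 1) / 2 = x := fun x => by ring
  have hc : ContinuousWithinAt (fun t : ℝ => 2 * (t - a) - 1) (Icc a (a + 1)) t := by fun_prop
  have h1 := hF _ (hm ht)
  rw [he] at h1
  filter_upwards [(hc.tendsto_nhdsWithin hm).eventually (h.2.2 _ (hm ht) (h1 ▸ hU)),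
    self_mem_nhdsWithin] with t' h2 ht'
  have h3 := hF _ (hm ht')
  have h4 := hG _ (hm ht) _ (hm ht')
  rw [he] at h3
  rw [he, he] at h4
  have h5 : 0 ≤ lam := by unfold lam; positivity
  rw [h1, h3]
  refine h2.trans (le_trans (le_of_eq ?_) (mul_le_mul_of_nonneg_left h4 h5))
  rw [← mul_sub, abs_mul, abs_of_nonneg (by positivity), mul_assoc]

/-- The corner preserving lift and its admissibility. -/
theorem eqv_four {U : Set P} {Λ : P → P} {R : Box} {σ0 σ1 σ2 σ3 : ℝ → ℝ} (hR : R.Pre)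
    (h0 : SAdm U (s0 Λ) R.l0 σ0) (h1 : SAdm U (s1 Λ) R.l1 σ1) (h2 : SAdm U (s2 Λ) R.l2 σ2)
    (h3 : SAdm U (s3 Λ) R.l3 σ3) : ∃ χ, IsLift χ ∧ Adm U Λ (fun t => R.loop (χ t)) ∧
      ∀ u ∈ Icc (-1 : ℝ) 1, R.loop (χ ((u + 1) / 2)) = R.side (σ0 u) ∧
        R.loop (χ (1 + (u + 1) / 2)) = J (R.rot.side (σ1 u)) ∧
        R.loop (χ (2 + (u + 1) / 2)) = J (J (R.rot.rot.side (σ2 u))) ∧
        R.loop (χ (3 + (u + 1) / 2)) = J (J (J (R.rot.rot.rot.side (σ3 u)))) := by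
  obtain ⟨χ, a1, a2⟩ := exists_lift_four h0.1 h1.1 h2.1 h3.1
  have a3 : ∀ u ∈ Icc (-1 : ℝ) 1, R.loop (χ ((u + 1) / 2)) = R.side (σ0 u) ∧
      R.loop (χ (1 + (u + 1) / 2)) = J (R.rot.side (σ1 u)) ∧
      R.loop (χ (2 + (u + 1) / 2)) = J (J (R.rot.rot.side (σ2 u))) ∧
      R.loop (χ (3 + (u + 1) / 2)) = J (J (J (R.rot.rot.rot.side (σ3 u)))) := fun u hu => by
    obtain ⟨b0, b1, b2, b3⟩ := a2 u hu
    rw [b0, b1, b2, b3]
    exact ⟨(hR.loop_eval (h0.1.mem hu)).1, (hR.loop_eval (h1.1.mem hu)).2.1,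
      (hR.loop_eval (h2.1.mem hu)).2.2.1, (hR.loop_eval (h3.1.mem hu)).2.2.2⟩
  refine ⟨χ, a1, ?_, a3⟩
  have pF : ∀ (k : ℤ) (j x : ℝ), Λ (Γ (4 * k + j + x)) = Λ (Γ (j + x)) := fun k j x => by
    rw [← Γ_add_int (j + x) k]; congr 2; ring
  have pG : ∀ (k : ℤ) (j x : ℝ), R.loop (χ (4 * k + j + x)) = R.loop (χ (j + x)) :=
    fun k j x => by
      rw [← eqv_loop_int R (χ (j + x)) k, ← a1.add_int]; congr 2; ring
  have key : ∀ i : ℤ, ∀ t ∈ Icc (i : ℝ) (i + 1), Λ (Γ t) ∈ U → ∀ᶠ t' in 𝓝[Icc (i : ℝ) (i + 1)] t,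
      dist (Λ (Γ t')) (Λ (Γ t)) ≤ lam * dist (R.loop (χ t')) (R.loop (χ t)) := fun i => by
    obtain ⟨k, hk⟩ : ∃ k : ℤ, i = 4 * k + 0 ∨ i = 4 * k + 1 ∨ i = 4 * k + 2 ∨ i = 4 * k + 3 :=
      ⟨i / 4, by omega⟩
    rcases hk with rfl | rfl | rfl | rfl <;> rw [Int.cast_add, Int.cast_mul, Int.cast_ofNat]
    · refine eqv_piece (F := fun t => Λ (Γ t)) (G := fun t => R.loop (χ t)) h0
        (sub_nonneg.2 hR.p0.le) (fun u hu => ?_) fun u hu u' hu' => ?_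
      · simp only [pF, Int.cast_zero, zero_add, (Γ_eval hu).1, s0]
      · simp only [pG, Int.cast_zero, zero_add, (a3 u hu).1, (a3 u' hu').1]
        exact eqv_side_low hR _ _
    · refine eqv_piece (F := fun t => Λ (Γ t)) (G := fun t => R.loop (χ t)) h1
        (sub_nonneg.2 hR.p1.le) (fun u hu => ?_) fun u hu u' hu' => ?_
      · simp only [pF, Int.cast_one, (Γ_eval hu).2.1, s1]
      · simp only [pG, Int.cast_one, (a3 u hu).2.1, (a3 u' hu').2.1, dist_J]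
        exact eqv_side_low hR.rot _ _
    · refine eqv_piece (F := fun t => Λ (Γ t)) (G := fun t => R.loop (χ t)) h2
        (sub_nonneg.2 hR.p2.le) (fun u hu => ?_) fun u hu u' hu' => ?_
      · simp only [pF, Int.cast_ofNat, (Γ_eval hu).2.2.1, s2]
      · simp only [pG, Int.cast_ofNat, (a3 u hu).2.2.1, (a3 u' hu').2.2.1, dist_J]
        exact eqv_side_low hR.rot.rot _ _
    · refine eqv_piece (F := fun t => Λ (Γ t)) (G := fun t => R.loop (χ t)) h3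
        (sub_nonneg.2 hR.p3.le) (fun u hu => ?_) fun u hu u' hu' => ?_
      · simp only [pF, Int.cast_ofNat, (Γ_eval hu).2.2.2, s3]
      · simp only [pG, Int.cast_ofNat, (a3 u hu).2.2.2, (a3 u' hu').2.2.2, dist_J]
        exact eqv_side_low hR.rot.rot.rot _ _
  intro t ht
  rw [← nhdsLE_sup_nhdsGE, eventually_sup]
  constructor
  · have b : t ∈ Ioc ((⌈t⌉ - 1 : ℤ) : ℝ) ((⌈t⌉ - 1 : ℤ) + 1) := by
      push_cast
      exact ⟨by linarith [Int.ceil_lt_add_one t], by linarith [Int.le_ceil t]⟩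
    exact (key _ t (Ioc_subset_Icc_self b) ht).filter_mono
      (nhdsWithin_le_iff.2 (Icc_mem_nhdsLE_of_mem b))
  · have b : t ∈ Ico (⌊t⌋ : ℝ) (⌊t⌋ + 1) := ⟨Int.floor_le t, Int.lt_floor_add_one t⟩
    exact (key _ t (Ico_subset_Icc_self b) ht).filter_mono
      (nhdsWithin_le_iff.2 (Icc_mem_nhdsGE_of_mem b))

theorem cp_ec {U : Set P} {Λ : P → P} {R : Box} {σ0 σ1 σ2 σ3 : ℝ → ℝ} (hR : R.Pre)
    (h0 : SAdm U (s0 Λ) R.l0 σ0) (h1 : SAdm U (s1 Λ) R.l1 σ1) (h2 : SAdm U (s2 Λ) R.l2 σ2)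
    (h3 : SAdm U (s3 Λ) R.l3 σ3) (h : CP U Λ R σ0 σ1 σ2 σ3) : EC U Λ R := by
  obtain ⟨χ, a1, a2, a3⟩ := eqv_four hR h0 h1 h2 h3
  obtain ⟨f, b1, b2⟩ := h
  refine ⟨χ, a1, a2, f, b1, fun t => ?_⟩
  obtain ⟨k, t0, ⟨c1, c2⟩, rfl⟩ := eqv_split 0 t
  rw [Γ_add_int, a1.add_int, eqv_loop_int]
  have key : ∀ a : ℝ, a ≤ t0 → t0 ≤ a + 1 → ∃ u ∈ Icc (-1 : ℝ) 1, t0 = a + (u + 1) / 2 :=
    fun a d1 d2 => ⟨2 * (t0 - a) - 1, ⟨by linarith, by linarith⟩, by ring⟩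
  rcases le_total t0 1 with d1 | d1
  · obtain ⟨u, hu, rfl⟩ := key 0 c1 (by linarith)
    rw [zero_add, (Γ_eval hu).1, (b2 u hu).1, (a3 u hu).1]
  rcases le_total t0 2 with d2 | d2
  · obtain ⟨u, hu, rfl⟩ := key 1 d1 (by linarith)
    rw [(Γ_eval hu).2.1, (b2 u hu).2.1, (a3 u hu).2.1]
  rcases le_total t0 3 with d3 | d3
  · obtain ⟨u, hu, rfl⟩ := key 2 d2 (by linarith)
    rw [(Γ_eval hu).2.2.1, (b2 u hu).2.2.1, (a3 u hu).2.2.1]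
  · obtain ⟨u, hu, rfl⟩ := key 3 d3 (by linarith)
    rw [(Γ_eval hu).2.2.2, (b2 u hu).2.2.2, (a3 u hu).2.2.2]

theorem gc_cp {U : Set P} {Λ : P → P} {R : Box} {σ0 σ1 σ2 σ3 : ℝ → ℝ} (hR : R.Pre)
    (h0 : SAdm U (s0 Λ) R.l0 σ0) (h1 : SAdm U (s1 Λ) R.l1 σ1) (h2 : SAdm U (s2 Λ) R.l2 σ2)
    (h3 : SAdm U (s3 Λ) R.l3 σ3) (h : GC U Λ R) : CP U Λ R σ0 σ1 σ2 σ3 := by
  obtain ⟨χ, a1, a2, a3⟩ := eqv_four hR h0 h1 h2 h3
  obtain ⟨f, b1, b2⟩ := h χ a1 a2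
  refine ⟨f, b1, fun u hu => ?_⟩
  obtain ⟨c0, c1, c2, c3⟩ := Γ_eval hu
  rw [← c0, ← c1, ← c2, ← c3, b2, b2, b2, b2]
  exact a3 u hu

theorem eqv_arc_low {a b u v : ℝ} (hb : b < a + 4) (hu : u ∈ Icc a b) (hv : v ∈ Icc a b) :
    (a + 4 - b) / 8 * |u - v| ≤ dist (Γ u) (Γ v) := by
  wlog huv : v ≤ u generalizing u v
  · rw [abs_sub_comm, dist_comm]
    exact this hv hu (le_of_not_ge huv)
  have h0 : 0 ≤ u - v := sub_nonneg.2 huv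
  rcases le_total (u - v) 2 with h | h
  · refine le_trans ?_ (Γ_low (by rwa [abs_of_nonneg h0]))
    exact mul_le_mul_of_nonneg_right (by linarith [hu.1, hu.2]) (abs_nonneg _)
  · have h1 : u - (v + 4) ≤ 0 := by linarith [hu.2, hv.1]
    have h2 := Γ_low (t := u) (t' := v + 4) (by rw [abs_of_nonpos h1]; linarith)
    rw [Γ_add_four, abs_of_nonpos h1] at h2
    rw [abs_of_nonneg h0]
    have h3 : (a + 4 - b) / 8 * (u - v) ≤ (a + 4 - b) / 8 * 4 :=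
      mul_le_mul_of_nonneg_left (by linarith) (by linarith)
    linarith [hu.2, hv.1]

/-- The boundary lift on one arc. -/
theorem eqv_arc {h g : P → P} (H : Hm h g) {a b : ℝ} (hab : a < b) (hb : b < a + 4)
    (h1 : h (Γ a) = Γ a) (h2 : h (Γ b) = Γ b)
    (ha : ∀ t ∈ Icc a b, ∃ u ∈ Icc a b, h (Γ t) = Γ u) :
    ∃ χ, IncOn χ (Icc a b) ∧ χ a = a ∧ χ b = b ∧ ∀ t ∈ Icc a b, h (Γ t) = Γ (χ t) := by
  choose! χ b1 b2 using ha
  obtain ⟨K, hK, c1⟩ := H.uh.lip convex_sq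
  obtain ⟨K', hK', c2⟩ := H.ug.lip convex_sq
  obtain ⟨c, hc⟩ : ∃ c, c = (a + 4 - b) / 8 := ⟨_, rfl⟩
  have hc0 : 0 < c := by rw [hc]; linarith
  have low : ∀ u ∈ Icc a b, ∀ v ∈ Icc a b, c * |u - v| ≤ dist (Γ u) (Γ v) :=
    fun u hu v hv => hc ▸ eqv_arc_low hb hu hv
  have fix : ∀ t ∈ Icc a b, h (Γ t) = Γ t → χ t = t := fun t ht he => by
    have := low _ (b1 t ht) _ ht
    rw [← b2 t ht, he, dist_self] at this
    exact sub_eq_zero.1 (abs_nonpos_iff.1 (le_of_mul_le_mul_left (by rwa [mul_zero]) hc0))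
  have up : ∀ t ∈ Icc a b, ∀ t' ∈ Icc a b, |χ t - χ t'| ≤ 2 * K / c * |t - t'| :=
    fun t ht t' ht' => by
      have d1 := low _ (b1 t ht) _ (b1 t' ht')
      rw [← b2 t ht, ← b2 t' ht'] at d1
      have d2 := (c1 _ (Γ_mem t) _ (Γ_mem t')).trans (mul_le_mul_of_nonneg_left (Γ_lip t t') hK)
      rw [div_mul_eq_mul_div, le_div_iff₀ hc0]
      linarith
  have lo : ∀ t ∈ Icc a b, ∀ t' ∈ Icc a b, c / (2 * K' + 1) * |t - t'| ≤ |χ t - χ t'| :=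
    fun t ht t' ht' => by
      have d1 := low _ ht _ ht'
      have d2 := (c2 _ (Γ_mem (χ t)) _ (Γ_mem (χ t'))).trans
        (mul_le_mul_of_nonneg_left (Γ_lip (χ t) (χ t')) hK')
      rw [← b2 t ht, ← b2 t' ht', H.gh _ (Γ_mem t), H.gh _ (Γ_mem t')] at d2
      rw [div_mul_eq_mul_div, div_le_iff₀ (by linarith)]
      linarith [abs_nonneg (χ t - χ t')]
  have hθ : 0 < c / (2 * K' + 1) := by positivity
  have fa := fix a ⟨le_rfl, hab.le⟩ h1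
  have fb := fix b ⟨hab.le, le_rfl⟩ h2
  have hcont : ContinuousOn χ (Icc a b) :=
    (up_of_lip (K := 2 * K / c) fun t ht t' ht' => by
      simpa only [Real.dist_eq] using up t ht t' ht').continuousOn
  have hmono := hcont.strictMonoOn_of_injOn_Icc hab.le (by rw [fa, fb]; exact hab.le)
    fun t ht t' ht' he => by
      have := lo t ht t' ht'
      rw [he, sub_self, abs_zero] at this
      exact sub_eq_zero.1 (abs_nonpos_iff.1 (le_of_mul_le_mul_left (by rwa [mul_zero]) hθ))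
  refine ⟨χ, ⟨_, 2 * K / c, hθ, fun t ht t' ht' htt => ?_⟩, fa, fb, b2⟩
  have d1 := up t' ht' t ht
  have d2 := lo t' ht' t ht
  rw [abs_of_nonneg (sub_nonneg.2 htt),
    abs_of_nonneg (sub_nonneg.2 (hmono.monotoneOn ht ht' htt))] at d1 d2
  exact ⟨d2, d1⟩

/-- Existence of the boundary lift of a change of coordinates fixing two boundary points. -/
theorem exists_lift_arcs {h g : P → P} (H : Hm h g) {k k' : ℝ} (hk : k < k') (hk' : k' < k + 4)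
    (h1 : h (Γ k) = Γ k) (h2 : h (Γ k') = Γ k')
    (a1 : ∀ t ∈ Icc k k', ∃ u ∈ Icc k k', h (Γ t) = Γ u)
    (a2 : ∀ t ∈ Icc k' (k + 4), ∃ u ∈ Icc k' (k + 4), h (Γ t) = Γ u) :
    ∃ χ, IsLift χ ∧ (∀ t, h (Γ t) = Γ (χ t)) ∧ χ k = k ∧ χ k' = k' := by
  obtain ⟨χ1, b1, b2, b3, b4⟩ := eqv_arc H hk hk' h1 h2 a1
  obtain ⟨χ2, c1, c2, c3, c4⟩ :=
    eqv_arc H hk' (by linarith) h2 (by rw [Γ_add_four, h1]) a2
  obtain ⟨σ, hσ⟩ : ∃ σ : ℝ → ℝ, ∀ t, σ t = if t ≤ k' then χ1 t else χ2 t := ⟨_, fun _ => rfl⟩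
  have e1 : EqOn χ1 σ (Icc k k') := fun t ht => by rw [hσ, if_pos ht.2]
  have e2 : EqOn χ2 σ (Icc k' (k + 4)) := fun t ht => by
    rcases ht.1.eq_or_lt with rfl | hlt
    · rw [hσ, if_pos le_rfl, b3, c2]
    · rw [hσ, if_neg hlt.not_ge]
  have m1 : k ∈ Icc k k' := ⟨le_rfl, hk.le⟩
  have m2 : k' ∈ Icc k k' := ⟨hk.le, le_rfl⟩
  obtain ⟨χ, d1, d2⟩ := exists_lift_ext ((b1.congr e1).union (c1.congr e2))
    (by rw [← e1 m1, ← e2 ⟨hk'.le, le_rfl⟩, b2, c3])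
  refine ⟨χ, d1, fun t => ?_, by rw [d2 ⟨le_rfl, by linarith⟩, ← e1 m1, b2],
    by rw [d2 ⟨hk.le, hk'.le⟩, ← e1 m2, b3]⟩
  obtain ⟨j, t0, f1, rfl⟩ := eqv_split k t
  rw [Γ_add_int, d1.add_int, Γ_add_int, d2 (Ico_subset_Icc_self f1)]
  rcases le_total t0 k' with f2 | f2
  · rw [← e1 ⟨f1.1, f2⟩, b4 _ ⟨f1.1, f2⟩]
  · rw [← e2 ⟨f2, f1.2.le⟩, c4 _ ⟨f2, f1.2.le⟩]

end Pool.Agent.Lib.MP_ecd4e3_gt
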