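import Pool.Agent.Lib.MP_ecd4e3_gt.Area
import Pool.Agent.Lib.MP_ecd4e3_gt.Gain

/-! The martingale step: choice of the bent cut. -/

namespace Pool.Agent.Lib.MP_ecd4e3_gt

open Set Filter Topology

namespace FA

/-- The potential in normalised coordinates. -/
noncomputable def qp (x y s t ox oy k : ℝ) : ℝ :=
  x ^ 2 + y ^ 2 + 4 * s ^ 2 + t ^ 2 + 20 * (ox ^ 2 + 4 / 5 * oy ^ 2 + 9 / 100 * k ^ 2)

/-- The area in normalised coordinates. -/
def qa (x y s t ox k : ℝ) : ℝ := 4 * (1 + x) * (1 + y) + 4 * t * s + k * ox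

/-- Normalised coordinates of a box. -/
structure Nm (R : Box) (w h x y s t ox oy k : ℝ) : Prop where
  e1 : R.b0 - R.a0 + (R.b2 - R.a2) = 4 * w * (1 + x)
  e2 : R.b1 - R.a1 + (R.b3 - R.a3) - R.kink = 4 * h * (1 + y)
  e3 : R.a0 + R.b0 + R.a2 + R.b2 = 4 * w * s
  e4 : R.a1 + R.b1 + R.a3 + R.b3 = 4 * h * t
  e5 : R.b2 - R.a2 - (R.b0 - R.a0) = 4 * w * ox
  e6 : R.b1 - R.a1 - (R.b3 - R.a3) = 4 * h * oy
  e7 : R.kink = h * k

lemma exists_nm (R : Box) {w h : ℝ} (hw : 0 < w) (hh : 0 < h) :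
    ∃ x y s t ox oy k, Nm R w h x y s t ox oy k := by
  refine ⟨(R.b0 - R.a0 + (R.b2 - R.a2)) / (4 * w) - 1,
    (R.b1 - R.a1 + (R.b3 - R.a3) - R.kink) / (4 * h) - 1, (R.a0 + R.b0 + R.a2 + R.b2) / (4 * w),
    (R.a1 + R.b1 + R.a3 + R.b3) / (4 * h), (R.b2 - R.a2 - (R.b0 - R.a0)) / (4 * w),
    (R.b1 - R.a1 - (R.b3 - R.a3)) / (4 * h), R.kink / h, ?_, ?_, ?_, ?_, ?_, ?_, ?_⟩ <;>
  field_simp <;> ring

variable {R : Box} {w h x y s t ox oy k : ℝ}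

lemma Nm.pot (n : Nm R w h x y s t ox oy k) (hw : 0 < w) (hh : 0 < h) :
    R.pot w h = qp x y s t ox oy k := by
  have h4 : ∀ {v : ℝ}, 0 < v → ∀ z, 4 * v * z / (4 * v) = z := fun hv z =>
    mul_div_cancel_left₀ _ (by positivity)
  simp only [Box.pot, Box.l0, Box.l1, Box.l2, Box.l3]
  rw [n.e1, n.e2, n.e3, n.e4, n.e5, n.e6, n.e7, h4 hw, h4 hw, h4 hw, h4 hh, h4 hh, h4 hh,
    mul_div_cancel_left₀ _ hh.ne', qp]
  ring

lemma Nm.area (n : Nm R w h x y s t ox oy k) (hR : R.Pre) (hp : R.Pent) :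
    R.area = w * h * qa x y s t ox k := by
  rw [hp.area hR]
  simp only [Box.l0, Box.l1, Box.l2, Box.l3, qa]
  have f0 : R.b0 - R.a0 = 2 * w * (1 + x - ox) := by linarith [n.e1, n.e5]
  have f1 : R.b1 - R.a1 + (R.b3 - R.a3) = 4 * h * (1 + y) + h * k := by linarith [n.e2, n.e7]
  rw [n.e1, f1, n.e3, n.e4, n.e7, f0]
  ring

lemma qp_nonneg (x y s t ox oy k : ℝ) : 0 ≤ qp x y s t ox oy k := by
  unfold qp; positivity

lemma abs_le_of_qp {r : ℝ} (hr : 0 ≤ r) (hq : qp x y s t ox oy k ≤ r ^ 2) :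
    |x| ≤ r ∧ |y| ≤ r ∧ |s| ≤ r ∧ |t| ≤ r ∧ |ox| ≤ r ∧ |oy| ≤ r ∧ |k| ≤ r := by
  unfold qp at hq
  have := sq_nonneg x; have := sq_nonneg y; have := sq_nonneg s; have := sq_nonneg t
  have := sq_nonneg ox; have := sq_nonneg oy; have := sq_nonneg k
  refine ⟨?_, ?_, ?_, ?_, ?_, ?_, ?_⟩ <;> exact abs_le_of_sq_le_sq' (by linarith) hr |> abs_le.2

lemma abs_mul_le {a b r : ℝ} (ha : |a| ≤ r) : |a * b| ≤ r * |b| := by
  rw [abs_mul]; exact mul_le_mul_of_nonneg_right ha (abs_nonneg _)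

lemma qa_bd (hq : qp x y s t ox oy k ≤ P1) : 2 ≤ qa x y s t ox k ∧ qa x y s t ox k ≤ 8 := by
  obtain ⟨hx, hy, hs, ht, hox, -, hk⟩ := abs_le_of_qp (r := 1 / 10 ^ 6) (by norm_num)
    (hq.trans (by norm_num [P1]))
  have h1 := abs_le.1 ((abs_mul_le (b := y) hx).trans (mul_le_mul_of_nonneg_left hy (by norm_num)))
  have h2 := abs_le.1 ((abs_mul_le (b := s) ht).trans (mul_le_mul_of_nonneg_left hs (by norm_num)))
  have h3 := abs_le.1
    ((abs_mul_le (b := ox) hk).trans (mul_le_mul_of_nonneg_left hox (by norm_num)))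
  have h4 := abs_le.1 hx
  have h5 := abs_le.1 hy
  unfold qa
  constructor <;> nlinarith

/-- The algebraic core of the martingale step. -/
lemma alg {η dc : ℝ} (hq : qp x y s t ox oy k ≤ P0) (η0 : 0 ≤ η) (η1 : η ≤ 2 / 10 ^ 8)
    (hdc : |dc| ≤ 16 / 10 ^ 9) : ∃ d, |d| ≤ 3 / 10 ^ 8 ∧
      qa (y - oy / 2) (x + d / 2) (t / 2 + k / 4) (2 * s + ox) (k / 4 - oy / 2) (-2 * d) / 2 -
        qa (y + oy / 2) (x - d / 2) (t / 2 - k / 4) (2 * s - ox) (oy / 2 + k / 4) (2 * d) / 2 =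
        dc + 2 * η *
          (qp (y - oy / 2) (x + d / 2) (t / 2 + k / 4) (2 * s + ox) (k / 4 - oy / 2) ox (-2 * d) -
          qp (y + oy / 2) (x - d / 2) (t / 2 - k / 4) (2 * s - ox) (oy / 2 + k / 4) (-ox) (2 * d)) ∧
      qp (y - oy / 2) (x + d / 2) (t / 2 + k / 4) (2 * s + ox) (k / 4 - oy / 2) ox (-2 * d) +
        qp (y + oy / 2) (x - d / 2) (t / 2 - k / 4) (2 * s - ox) (oy / 2 + k / 4) (-ox) (2 * d) ≤
        2 * qp x y s t ox oy k + 160 * dc ^ 2 := by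
  obtain ⟨hx, hy, hs, ht, hox, hoy, hk⟩ := abs_le_of_qp (r := 1 / 10 ^ 8) (by norm_num)
    (hq.trans (by norm_num [P0]))
  have hη : |η| ≤ 2 / 10 ^ 8 := by rwa [abs_of_nonneg η0]
  have sm : ∀ {z : ℝ}, |z| ≤ 1 / 10 ^ 8 → |η * z| ≤ 1 / 10 ^ 8 := fun hz =>
    (abs_mul_le hη).trans (by linarith)
  obtain ⟨κ, hκ⟩ : ∃ κ, κ = 2 * (1 + y - k / 4) - 4 * (η * x) := ⟨_, rfl⟩
  obtain ⟨c1, hc1⟩ : ∃ c, c = 2 * t - 16 * (η * s) := ⟨_, rfl⟩
  obtain ⟨c2, hc2⟩ : ∃ c, c = 2 * (y - k / 4 - x) + 4 * (η * y) - 4 * (η * x) + 20 * (η * k) :=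
    ⟨_, rfl⟩
  obtain ⟨c3, hc3⟩ : ∃ c, c = 2 * s - 4 * (η * t) := ⟨_, rfl⟩
  have a1 := abs_le.1 hx; have a2 := abs_le.1 hy; have a3 := abs_le.1 hs; have a4 := abs_le.1 ht
  have a5 := abs_le.1 hk
  have b1 := abs_le.1 (sm hx); have b2 := abs_le.1 (sm hy); have b3 := abs_le.1 (sm hs)
  have b4 := abs_le.1 (sm ht); have b5 := abs_le.1 (sm hk)
  have hκ1 : 1 ≤ κ := by linarith [a2.1, a5.2, b1.2]
  have hb1 : |c1| ≤ 1 / 10 ^ 6 := abs_le.2 ⟨by linarith [a4.1, b3.2], by linarith [a4.2, b3.1]⟩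
  have hb2 : |c2| ≤ 1 / 10 ^ 6 := abs_le.2 ⟨by linarith [a1.2, a2.1, a5.2, b1.2, b2.1, b5.1],
    by linarith [a1.1, a2.2, a5.1, b1.1, b2.2, b5.2]⟩
  have hb3 : |c3| ≤ 1 / 10 ^ 6 := abs_le.2 ⟨by linarith [a3.1, b4.2], by linarith [a3.2, b4.1]⟩
  obtain ⟨e, he⟩ : ∃ e, κ * e = dc - (c1 * ox + c2 * oy + c3 * k) :=
    ⟨(dc - (c1 * ox + c2 * oy + c3 * k)) / κ, mul_div_cancel₀ _ (by linarith)⟩
  have he1 : |e| ≤ |dc| + 1 / 10 ^ 6 * (|ox| + |oy| + |k|) := by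
    have h1 : |e| ≤ |κ * e| := by
      rw [abs_mul, abs_of_nonneg (by linarith : 0 ≤ κ)]
      exact le_mul_of_one_le_left (abs_nonneg _) hκ1
    have h2 := abs_sub dc (c1 * ox + c2 * oy + c3 * k)
    have h3 := abs_add_three (c1 * ox) (c2 * oy) (c3 * k)
    have h4 := abs_mul_le (b := ox) hb1
    have h5 := abs_mul_le (b := oy) hb2
    have h6 := abs_mul_le (b := k) hb3
    rw [he] at h1
    linarith
  have he2 : e ^ 2 ≤ 2 * dc ^ 2 + 1 / 10 ^ 3 * (ox ^ 2 + oy ^ 2 + k ^ 2) := by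
    have h1 : |e| ^ 2 ≤ (|dc| + 1 / 10 ^ 6 * (|ox| + |oy| + |k|)) ^ 2 := by gcongr
    have h2 : (|ox| + |oy| + |k|) ^ 2 ≤ 3 * (|ox| ^ 2 + |oy| ^ 2 + |k| ^ 2) := by
      nlinarith [sq_nonneg (|ox| - |oy|), sq_nonneg (|ox| - |k|), sq_nonneg (|oy| - |k|)]
    have h3 : (|dc| + 1 / 10 ^ 6 * (|ox| + |oy| + |k|)) ^ 2 ≤
        2 * |dc| ^ 2 + 2 / 10 ^ 12 * (|ox| + |oy| + |k|) ^ 2 := by
      nlinarith [sq_nonneg (|dc| - 1 / 10 ^ 6 * (|ox| + |oy| + |k|))]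
    simp only [sq_abs] at h1 h2 h3
    have := sq_nonneg ox; have := sq_nonneg oy; have := sq_nonneg k
    linarith
  refine ⟨oy + e, (abs_add_le _ _).trans (by linarith), ?_, ?_⟩
  · unfold qa qp
    rw [hκ, hc1, hc2, hc3] at he
    linear_combination he
  · unfold qp
    have := sq_nonneg ox; have := sq_nonneg oy; have := sq_nonneg k; have := sq_nonneg e
    nlinarith [sq_nonneg (2 * oy - 5 * e)]

lemma Aff.sub {g : ℝ → ℝ} {a b a' b' : ℝ} (h : Aff g a b) (hab : a < b) (ha : a ≤ a')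
    (hb : b' ≤ b) : Aff g a' b' := by
  intro u hu
  have h1 := h u ⟨ha.trans hu.1, hu.2.trans hb⟩
  have h2 := h a' ⟨ha, (hu.1.trans hu.2).trans hb⟩
  have h3 := h b' ⟨ha.trans (hu.1.trans hu.2), hb⟩
  refine mul_left_cancel₀ (sub_pos.2 hab).ne' ?_
  linear_combination (b' - a') * h1 - (b' - u) * h2 - (u - a') * h3

lemma Flat.aff {g : ℝ → ℝ} {a b : ℝ} (h : Flat g a b) : Aff g a b := by
  intro u hu
  rw [h u hu, h b ⟨hu.1.trans hu.2, le_rfl⟩]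
  ring

lemma aff_of_eq {g : ℝ → ℝ} {a b p q : ℝ} (h : ∀ u ∈ Icc a b, g u = p + q * u) : Aff g a b := by
  intro u hu
  have hab := hu.1.trans hu.2
  rw [h u hu, h a ⟨le_rfl, hab⟩, h b ⟨hab, le_rfl⟩]
  ring

/-- The bent cut. -/
noncomputable def bent (xm ym s1 s2 u : ℝ) : ℝ := xm + s1 * min (u - ym) 0 + s2 * max (u - ym) 0

lemma bent_le {xm ym s1 s2 u : ℝ} (h : u ≤ ym) : bent xm ym s1 s2 u = xm + s1 * (u - ym) := by
  rw [bent, min_eq_left (by linarith), max_eq_right (by linarith)]; ring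

lemma bent_ge {xm ym s1 s2 u : ℝ} (h : ym ≤ u) : bent xm ym s1 s2 u = xm + s2 * (u - ym) := by
  rw [bent, min_eq_right (by linarith), max_eq_left (by linarith)]; ring

lemma bent_lip {xm ym s1 s2 : ℝ} (h1 : |s1| ≤ eps) (h2 : |s2| ≤ eps) :
    LipE (bent xm ym s1 s2) := by
  have key : ∀ u v, v ≤ u → |bent xm ym s1 s2 u - bent xm ym s1 s2 v| ≤ eps * |u - v| := by
    intro u v huv
    have m1 : 0 ≤ min (u - ym) 0 - min (v - ym) 0 :=
      sub_nonneg.2 (min_le_min (by linarith) le_rfl)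
    have m2 : 0 ≤ max (u - ym) 0 - max (v - ym) 0 :=
      sub_nonneg.2 (max_le_max (by linarith) le_rfl)
    have m3 := min_add_max (u - ym) 0
    have m4 := min_add_max (v - ym) 0
    have e : bent xm ym s1 s2 u - bent xm ym s1 s2 v =
        s1 * (min (u - ym) 0 - min (v - ym) 0) + s2 * (max (u - ym) 0 - max (v - ym) 0) := by
      unfold bent; ring
    rw [e, abs_of_nonneg (sub_nonneg.2 huv)]
    refine (abs_add_le _ _).trans ((add_le_add (abs_mul_le h1) (abs_mul_le h2)).trans ?_)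
    rw [abs_of_nonneg m1, abs_of_nonneg m2, ← mul_add]
    exact le_of_eq (by congr 1; linarith)
  intro u v
  rcases le_total v u with huv | huv
  · exact key u v huv
  · rw [abs_sub_comm, abs_sub_comm u]; exact key v u huv

lemma gn_nonneg (m : ℕ) {ν : ℝ} (h : 0 ≤ ν) : 0 ≤ gn m ν := by
  unfold gn; positivity

lemma C0_pos : 0 < C0 := by norm_num [C0]

lemma et_nonneg (m : ℕ) {a : ℝ} (h : 0 ≤ a) : 0 ≤ et m a :=
  mul_nonneg (by norm_num [eta]) (gn_nonneg m (div_nonneg h C0_pos.le))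

end FA

open FA

theorem FSt.valid {m : ℕ} {ν : ℝ} {R : Box} {w0 h0 : ℝ} (h : FSt m ν R w0 h0) :
    R.Valid ∧ 2 * w0 * h0 ≤ R.area ∧ R.area ≤ 8 * w0 * h0 := by
  obtain ⟨x, y, s, t, ox, oy, k, n⟩ := exists_nm R h.pw h.ph
  have hq := h.pot
  rw [n.pot h.pw h.ph] at hq
  have hw := h.pw
  have hh := h.ph
  obtain ⟨hx, hy, -, -, -, -, hk⟩ := abs_le_of_qp (r := 1 / 10 ^ 6) (by norm_num)
    (hq.trans (by norm_num [P1]))
  have h1 := abs_le.1 ((abs_mul_le (b := w0) hx).trans_eq (by rw [abs_of_pos hw]))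
  have h2 := abs_le.1 ((abs_mul_le (b := h0) hy).trans_eq (by rw [abs_of_pos hh]))
  have h3 := abs_le.1 ((abs_mul_le (b := h0) hk).trans_eq (by rw [abs_of_pos hh]))
  have h4 := qa_bd hq
  have h5 : 0 < w0 * h0 := mul_pos hw hh
  refine ⟨⟨h.pre, ?_, ?_⟩, ?_, ?_⟩
  · simp only [Box.w, Box.h, Box.l0, Box.l1, Box.l2, Box.l3]
    linarith [n.e1, n.e2, n.e7, h.n1, h1.2, h2.1, h3.1]
  · simp only [Box.w, Box.h, Box.l0, Box.l1, Box.l2, Box.l3]
    linarith [n.e1, n.e2, n.e7, h.n2, h1.1, h2.2, h3.2]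
  · rw [n.area h.pre h.pent]
    linarith [mul_le_mul_of_nonneg_left h4.1 h5.le]
  · rw [n.area h.pre h.pent]
    linarith [mul_le_mul_of_nonneg_left h4.2 h5.le]

theorem fst_entry {m : ℕ} {ν : ℝ} {R : Box} (hR : R.Valid) (hr : R.Rect) (ha : R.Asp 19)
    (hw : R.h ≤ R.w) (hn : cr m ν ≤ R.area) : FSt m ν R (R.w / 2) (R.h / 2) := by
  have p := hR.1
  obtain ⟨f0, f1, f2, f3⟩ := hr
  have p0 := p.p0; have p1 := p.p1; have p2 := p.p2; have p3 := p.p3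
  have hm : R.a0 ≤ R.mid ∧ R.mid ≤ R.b0 := by unfold Box.mid; constructor <;> linarith
  have e0 : R.a1 = -R.b3 := by rw [p.d01, f0 _ ⟨p0.le, le_rfl⟩, p.c30, neg_neg]
  have e1 : R.a2 = -R.b0 := by rw [p.d12, f1 _ ⟨p1.le, le_rfl⟩, p.c01, neg_neg]
  have e2 : R.a3 = -R.b1 := by rw [p.d23, f2 _ ⟨p2.le, le_rfl⟩, p.c12, neg_neg]
  have e3 : R.a0 = -R.b2 := by rw [p.d30, f3 _ ⟨p3.le, le_rfl⟩, p.c23, neg_neg]
  have ek : R.kink = 0 := by
    have := p.c30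
    rw [Box.kink, f0 _ hm]; linarith
  have hw0 : 0 < R.w / 2 := by simp only [Box.w, Box.l0, Box.l2]; linarith
  have hh0 : 0 < R.h / 2 := by simp only [Box.h, Box.l1, Box.l3]; linarith
  have n : Nm R (R.w / 2) (R.h / 2) 0 0 0 0 0 0 0 := by
    constructor <;> simp only [Box.w, Box.h, Box.l0, Box.l1, Box.l2, Box.l3] <;> linarith
  have hpot : R.pot (R.w / 2) (R.h / 2) = 0 := by rw [n.pot hw0 hh0]; simp [qp]
  refine ⟨p, ⟨Aff.sub (Flat.aff f0) p0 le_rfl hm.2, Aff.sub (Flat.aff f0) p0 hm.1 le_rfl,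
    Flat.aff f1, Flat.aff f2, Flat.aff f3⟩, hw0, hh0, by linarith [ha.1], by linarith, ?_, ?_⟩
  · rw [hpot]; norm_num [P1]
  · rw [hpot]; linarith

theorem FSt.cr_le {m : ℕ} {ν : ℝ} {R : Box} {w0 h0 : ℝ} (h : FSt m ν R w0 h0) :
    cr m ν ≤ R.area := by
  obtain ⟨x, y, s, t, ox, oy, k, n⟩ := exists_nm R h.pw h.ph
  have h1 := h.need
  have hw := h.pw
  have hh := h.ph
  have h2 : 0 ≤ 4 * w0 * h0 := by positivity
  have h3 : 0 ≤ R.pot w0 h0 := by rw [n.pot hw hh]; exact qp_nonneg ..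
  have := mul_nonneg (mul_nonneg (et_nonneg m h2) h2) h3
  linarith

theorem fst_step {m : ℕ} {a b : ℝ} {R : Box} {w0 h0 : ℝ} (h : FSt (m + 1) (a + b) R w0 h0)
    (hp : R.pot w0 h0 ≤ P0) (hs : 4 * w0 * h0 ≤ 8 * C0 * (a + b)) (ha : 0 < a) (hb : 0 < b)
    (ha' : a ≤ 2 ^ m) (hb' : b ≤ 2 ^ m) (hd : |a - b| ≤ d0 * (a + b)) :
    ∃ c yb yt, R.IsCut c R.mid yb (-((R.a2 + R.b2) / 2)) yt ∧
      FSt m a (R.cutL c R.mid yb (-((R.a2 + R.b2) / 2)) yt).rot h0 (w0 / 2) ∧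
      FSt m b (R.cutR c R.mid yb (-((R.a2 + R.b2) / 2)) yt).rot.rot.rot h0 (w0 / 2) := by
  obtain ⟨x, y, s, t, ox, oy, k, n⟩ := exists_nm R h.pw h.ph
  have hw := h.pw
  have hh := h.ph
  have hC := C0_pos
  have p := h.pre
  obtain ⟨hV, -, hA2⟩ := h.valid
  have hW : 0 < w0 * h0 := mul_pos hw hh
  have hab : 0 < a + b := by linarith
  have hab' : a + b ≤ 2 ^ (m + 1) := by rw [pow_succ]; linarith
  have hneed := h.need
  rw [n.pot hw hh] at hp hneed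
  rw [n.area p h.pent] at hneed
  -- the weight
  obtain ⟨η, hη⟩ : ∃ η, η = et (m + 1) (4 * w0 * h0) := ⟨_, rfl⟩
  have hη' : et m (4 * h0 * (w0 / 2)) = η := by
    rw [hη, et, et, ← gn_half]; congr 2; ring
  have η0 : 0 ≤ η := hη ▸ et_nonneg _ (by positivity)
  have hg : gn (m + 1) (4 * w0 * h0 / C0) ≤ 2 * gn (m + 1) (a + b) := by
    refine (gn_mono _ (by positivity) ?_).trans (gn_mul_le (m + 1) (c := 8) hab.le
      (by norm_num) (by norm_num))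
    rw [div_le_iff₀ hC]; linarith
  have hg0 := gn_pos (m + 1) hab
  have hg1 := gn_le_one hab.le hab'
  have η2 : η ≤ 2 / 10 ^ 8 * gn (m + 1) (a + b) := by
    rw [hη, et, eta]; linarith
  have η1 : η ≤ 2 / 10 ^ 8 := by linarith
  rw [← hη] at hneed
  -- the credits
  obtain ⟨δ, hδ⟩ : ∃ δ, δ = (a - b) / (a + b) := ⟨_, rfl⟩
  have hδ1 : |a - b| = |δ| * (a + b) := by
    rw [hδ, abs_div, abs_of_pos hab, div_mul_cancel₀ _ hab.ne']
  have hδ2 : |δ| ≤ 1 / 10 ^ 9 := by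
    rw [hδ1, d0] at hd; exact le_of_mul_le_mul_right hd hab
  have hlow : C0 * (a + b) ≤ 8 * (w0 * h0) := by
    linarith [(cr_bd (m + 1) hab hab').1, h.cr_le]
  obtain ⟨dc, hdc⟩ : ∃ dc, dc = (cr m a - cr m b) / (w0 * h0) := ⟨_, rfl⟩
  have hdc0 : w0 * h0 * dc = cr m a - cr m b := by rw [hdc, mul_div_cancel₀ _ hW.ne']
  have hdc1 : |dc| ≤ 16 * |δ| := by
    rw [hdc, abs_div, abs_of_pos hW, div_le_iff₀ hW]
    have h1 := cr_diff m ha hb ha' hb'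
    rw [hδ1] at h1
    have h2 := mul_le_mul_of_nonneg_left hlow (abs_nonneg δ)
    linarith
  obtain ⟨d, hd1, hbal, hsum⟩ := alg hp η0 η1 (dc := dc) (by linarith)
  have hdc2 : dc ^ 2 ≤ 256 * δ ^ 2 := by
    have : |dc| ^ 2 ≤ (16 * |δ|) ^ 2 := by gcongr
    rw [mul_pow, sq_abs, sq_abs] at this; linarith
  have hδ3 : δ ^ 2 ≤ 1 / 10 ^ 18 := by
    have : |δ| ^ 2 ≤ (1 / 10 ^ 9) ^ 2 := by gcongr
    rw [sq_abs] at this; linarith
  obtain ⟨-, hy, hs1, -, -, -, hk⟩ := abs_le_of_qp (r := 1 / 10 ^ 8) (by norm_num)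
    (hp.trans (by norm_num [P0]))
  -- the cut
  obtain ⟨H, hH⟩ : ∃ H, H = h0 * (1 + y - k / 4) := ⟨_, rfl⟩
  have hH1 : 9 / 10 * h0 ≤ H := by
    have h1 := abs_le.1 hy
    have h2 := abs_le.1 hk
    have : 9 / 10 ≤ 1 + y - k / 4 := by linarith [h1.1, h2.2]
    rw [hH, mul_comm]; gcongr
  have hH0 : 0 < H := by linarith
  have sl : ∀ z : ℝ, |z| ≤ 4 / 10 ^ 8 → |w0 * z / H| ≤ eps := by
    intro z hz
    rw [abs_div, abs_of_pos hH0, div_le_iff₀ hH0, abs_mul, abs_of_pos hw, eps]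
    have := mul_le_mul h.n1 hz (abs_nonneg _) (by positivity)
    linarith
  obtain ⟨yb, hyb⟩ : ∃ yb, yb = R.g0 R.mid := ⟨_, rfl⟩
  obtain ⟨yt, hyt⟩ : ∃ yt, yt = (R.b1 - R.a3) / 2 := ⟨_, rfl⟩
  have hmid : R.mid = (R.a0 + R.b0) / 2 := rfl
  have hkink : R.kink = yb - (R.a1 - R.b3) / 2 := by rw [hyb]; rfl
  have hy2 : yt - yb = 2 * H := by rw [hH]; linarith [n.e2, n.e7]
  obtain ⟨xm, hxm⟩ : ∃ xm, xm = R.mid + w0 * (d - s) := ⟨_, rfl⟩
  obtain ⟨c, hc⟩ : ∃ c, c = bent xm ((yb + yt) / 2) (w0 * (d - s) / H) (w0 * (-s - d) / H) :=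
    ⟨_, rfl⟩
  have c1 : ∀ u, u ≤ (yb + yt) / 2 → c u = xm + w0 * (d - s) / H * (u - (yb + yt) / 2) :=
    fun u hu => hc ▸ bent_le hu
  have c2 : ∀ u, (yb + yt) / 2 ≤ u → c u = xm + w0 * (-s - d) / H * (u - (yb + yt) / 2) :=
    fun u hu => hc ▸ bent_ge hu
  have cm : c ((yb + yt) / 2) = xm := by rw [c1 _ le_rfl]; ring
  have p0 := p.p0
  have p2 := p.p2
  have hcut : R.IsCut c R.mid yb (-((R.a2 + R.b2) / 2)) yt := by
    refine ⟨hc ▸ bent_lip (sl _ ?_) (sl _ ?_), ?_, hyb, ?_, ?_, ?_, ?_⟩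
    · exact (abs_sub d s).trans (by linarith)
    · exact (abs_sub (-s) d).trans (by rw [abs_neg]; linarith)
    · rw [c1 yb (by linarith), show yb - (yb + yt) / 2 = -H by linarith, mul_neg,
        div_mul_cancel₀ _ hH0.ne', hxm]
      ring
    · rw [c2 yt (by linarith), show yt - (yb + yt) / 2 = H by linarith,
        div_mul_cancel₀ _ hH0.ne', hxm]
      linarith [n.e3]
    · have h1 := h.pent.2.2.2.1 ((R.a2 + R.b2) / 2) ⟨by linarith, by linarith⟩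
      rw [neg_neg]
      refine mul_left_cancel₀ (sub_pos.2 p2).ne' ?_
      rw [h1, hyt, ← p.d23, p.c12]
      ring
    · simp only [Box.l0]; linarith
    · simp only [Box.l0]; linarith
  obtain ⟨pL, pR⟩ := hcut.pre hV
  obtain ⟨q0, q0', q1, q2, q3⟩ := h.pent
  have kL : (R.cutL c R.mid yb (-((R.a2 + R.b2) / 2)) yt).rot.kink = -(w0 * d) := by
    change -c ((yb + yt) / 2) - (- -((R.a2 + R.b2) / 2) - R.mid) / 2 = _
    rw [cm]; linarith [n.e3]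
  have kR : (R.cutR c R.mid yb (-((R.a2 + R.b2) / 2)) yt).rot.rot.rot.kink = w0 * d := by
    change c (-((-yt + -yb) / 2)) - (R.mid - - -((R.a2 + R.b2) / 2)) / 2 = _
    rw [show -((-yt + -yb) / 2) = (yb + yt) / 2 by ring, cm]; linarith [n.e3]
  have nL : Nm (R.cutL c R.mid yb (-((R.a2 + R.b2) / 2)) yt).rot h0 (w0 / 2) (y - oy / 2)
      (x + d / 2) (t / 2 + k / 4) (2 * s + ox) (k / 4 - oy / 2) ox (-2 * d) := by
    constructor <;> (try rw [kL]) <;> (try simp only [Box.rot, Box.cutL]) <;>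
      linarith [n.e1, n.e2, n.e3, n.e4, n.e5, n.e6, n.e7]
  have nR : Nm (R.cutR c R.mid yb (-((R.a2 + R.b2) / 2)) yt).rot.rot.rot h0 (w0 / 2) (y + oy / 2)
      (x - d / 2) (t / 2 - k / 4) (2 * s - ox) (oy / 2 + k / 4) (-ox) (2 * d) := by
    constructor <;> (try rw [kR]) <;> (try simp only [Box.rot, Box.cutR]) <;>
      linarith [n.e1, n.e2, n.e3, n.e4, n.e5, n.e6, n.e7]
  have tL : (R.cutL c R.mid yb (-((R.a2 + R.b2) / 2)) yt).rot.Pent := by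
    refine ⟨?_, ?_, ?_, q3, q0⟩
    · change Aff (fun u => -c u) yb ((yb + yt) / 2)
      exact aff_of_eq (p := -(xm - w0 * (d - s) / H * ((yb + yt) / 2)))
        (q := -(w0 * (d - s) / H)) fun u hu => by simp only [c1 u hu.2]; ring
    · change Aff (fun u => -c u) ((yb + yt) / 2) yt
      exact aff_of_eq (p := -(xm - w0 * (-s - d) / H * ((yb + yt) / 2)))
        (q := -(w0 * (-s - d) / H)) fun u hu => by simp only [c2 u hu.1]; ring
    · change Aff R.g2 (- -((R.a2 + R.b2) / 2)) R.b2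
      exact Aff.sub q2 p2 (by linarith) le_rfl
  have tR : (R.cutR c R.mid yb (-((R.a2 + R.b2) / 2)) yt).rot.rot.rot.Pent := by
    refine ⟨?_, ?_, q0', q1, ?_⟩
    · change Aff (fun u => c (-u)) (-yt) ((-yt + -yb) / 2)
      exact aff_of_eq (p := xm - w0 * (-s - d) / H * ((yb + yt) / 2))
        (q := -(w0 * (-s - d) / H)) fun u hu => by
          simp only [c2 (-u) (by linarith [hu.2])]; ring
    · change Aff (fun u => c (-u)) ((-yt + -yb) / 2) (-yb)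
      exact aff_of_eq (p := xm - w0 * (d - s) / H * ((yb + yt) / 2))
        (q := -(w0 * (d - s) / H)) fun u hu => by
          simp only [c1 (-u) (by linarith [hu.1])]; ring
    · change Aff R.g2 R.a2 (- -((R.a2 + R.b2) / 2))
      exact Aff.sub q2 p2 le_rfl (by linarith)
  have hw2 : 0 < w0 / 2 := by positivity
  have hadd : qa (y - oy / 2) (x + d / 2) (t / 2 + k / 4) (2 * s + ox) (k / 4 - oy / 2) (-2 * d) +
      qa (y + oy / 2) (x - d / 2) (t / 2 - k / 4) (2 * s - ox) (oy / 2 + k / 4) (2 * d) =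
      2 * qa x y s t ox k := by
    unfold qa; ring
  have uL := qp_nonneg (y - oy / 2) (x + d / 2) (t / 2 + k / 4) (2 * s + ox) (k / 4 - oy / 2) ox
    (-2 * d)
  have uR := qp_nonneg (y + oy / 2) (x - d / 2) (t / 2 - k / 4) (2 * s - ox) (oy / 2 + k / 4) (-ox)
    (2 * d)
  have eL := nL.pot hh hw2
  have eR := nR.pot hh hw2
  have aL := nL.area pL.rot tL
  have aR := nR.area pR.rot.rot.rot tR
  generalize qa (y - oy / 2) (x + d / 2) (t / 2 + k / 4) (2 * s + ox) (k / 4 - oy / 2) (-2 * d) =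
    AL at hbal hadd aL
  generalize qa (y + oy / 2) (x - d / 2) (t / 2 - k / 4) (2 * s - ox) (oy / 2 + k / 4) (2 * d) =
    AR at hbal hadd aR
  generalize qp (y - oy / 2) (x + d / 2) (t / 2 + k / 4) (2 * s + ox) (k / 4 - oy / 2) ox
    (-2 * d) = QL at hbal hsum uL eL
  generalize qp (y + oy / 2) (x - d / 2) (t / 2 - k / 4) (2 * s - ox) (oy / 2 + k / 4) (-ox)
    (2 * d) = QR at hbal hsum uR eR
  generalize qa x y s t ox k = A0 at hneed hadd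
  generalize qp x y s t ox oy k = Q0 at hneed hsum hp
  have hP : QL + QR ≤ P1 := by rw [P0] at hp; rw [P1]; linarith
  -- the surplus
  have hgain := xx_gain m ha hb
  rw [← hδ] at hgain
  have hx0 : 0 ≤ C0 * xx (m + 1) (a + b) := mul_nonneg hC.le (cr_bd (m + 1) hab hab').2.2.1.le
  have s1 : η * (4 * w0 * h0) ≤ 16 / 10 ^ 8 * (C0 * xx (m + 1) (a + b)) := by
    calc _ ≤ 2 / 10 ^ 8 * gn (m + 1) (a + b) * (8 * C0 * (a + b)) :=
          mul_le_mul η2 hs (by positivity) (by positivity)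
      _ = _ := by rw [xx]; ring
  have s2 : η * (4 * w0 * h0) * dc ^ 2 ≤
      16 / 10 ^ 8 * (C0 * xx (m + 1) (a + b)) * (256 * δ ^ 2) :=
    mul_le_mul s1 hdc2 (sq_nonneg _) (mul_nonneg (by norm_num) hx0)
  have s3 : cr m a + cr m b + C0 * xx (m + 1) (a + b) * δ ^ 2 / 64 ≤ cr (m + 1) (a + b) := by
    have := mul_le_mul_of_nonneg_left hgain hC.le
    unfold cr; linarith
  have s4 := mul_le_mul_of_nonneg_left hsum (show 0 ≤ η * (2 * w0 * h0) by positivity)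
  have s5 : 0 ≤ C0 * xx (m + 1) (a + b) * δ ^ 2 := mul_nonneg hx0 (sq_nonneg _)
  have s6 : w0 * h0 * (AL / 2 - AR / 2) = w0 * h0 * (dc + 2 * η * (QL - QR)) := by rw [hbal]
  have s7 : w0 * h0 * (AL + AR) = w0 * h0 * (2 * A0) := by rw [hadd]
  refine ⟨c, yb, yt, hcut,
    ⟨pL.rot, tL, hh, hw2, by linarith [h.n2], by linarith [h.n1], by rw [eL]; linarith, ?_⟩,
    ⟨pR.rot.rot.rot, tR, hh, hw2, by linarith [h.n2], by linarith [h.n1], by rw [eR]; linarith, ?_⟩⟩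
  · rw [hη', eL, aL]; linarith
  · rw [hη', eR, aR]; linarith

theorem fst_exit {m : ℕ} {ν : ℝ} {R : Box} {w0 h0 : ℝ} (h : FSt m ν R w0 h0) (hν : 0 < ν)
    (hν' : ν ≤ 2 ^ m) (hp : P0 ≤ R.pot w0 h0 ∨ 8 * C0 * ν ≤ 4 * w0 * h0) :
    cr m ν + 10 * (k1 * C0 * xx m ν) ≤ R.area := by
  obtain ⟨-, hA1, hA2⟩ := h.valid
  obtain ⟨c1, c2, x0, x1, -, -⟩ := cr_bd m hν hν'
  have hC := C0_pos
  have hw := h.pw
  have hh := h.ph
  have hx := mul_le_mul_of_nonneg_left x1 hC.le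
  have hx0 := mul_pos hC x0
  rcases hp with hp | hp
  · have hlow : C0 * ν / 2 ≤ 4 * w0 * h0 := by linarith [h.cr_le]
    have hg : gn m ν ≤ 2 * gn m (4 * w0 * h0 / C0) := by
      have h1 := gn_mul_le m (a := ν / 2) (c := 2) (by positivity) (by norm_num) (by norm_num)
      rw [mul_div_cancel₀ _ two_ne_zero] at h1
      have h2 := gn_mono m (a := ν / 2) (b := 4 * w0 * h0 / C0) (by positivity)
        (by rw [le_div_iff₀ hC]; linarith)
      linarith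
    have hg0 := gn_pos m hν
    have h1 : 1 / 10 ^ 8 * (gn m ν / 2) ≤ et m (4 * w0 * h0) := by rw [et, eta]; linarith
    have h2 : 1 / 10 ^ 8 * (gn m ν / 2) * (C0 * ν / 2) * P0 ≤
        et m (4 * w0 * h0) * (4 * w0 * h0) * R.pot w0 h0 := by
      have h3 := et_nonneg m (show 0 ≤ 4 * w0 * h0 by positivity)
      have h4 := mul_pos hC hν
      exact mul_le_mul (mul_le_mul h1 hlow (by linarith) h3) hp (by norm_num [P0])
        (mul_nonneg h3 (by linarith))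
    have h3 := h.need
    rw [xx] at hx0 ⊢
    rw [P0] at h2
    rw [k1]
    linarith
  · rw [k1]
    linarith

end Pool.Agent.Lib.MP_ecd4e3_gt
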