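import Pool.Agent.Lib.MP_ecd4e3_gt.Chain

/-! The topological part of the martingale mode. -/

namespace Pool.Agent.Lib.MP_ecd4e3_gt

open Set Filter Topology

theorem Env.ta_pos (E : Env) {m : ℕ} {F : Fr} (h : E.cell m F) : 0 < ta m (E.nu F) :=
  (cr_bd m (E.pos _ _ h).1 (E.pos _ _ h).2).2.2.2.2.1

theorem side_big {R : Box} (hR : R.Valid) {τ : ℝ} (r0 : 10 ^ 7 * τ ≤ R.sz) :
    10 ^ 6 * τ ≤ R.l0 ∧ 10 ^ 6 * τ ≤ R.l1 ∧ 10 ^ 6 * τ ≤ R.l2 ∧ 10 ^ 6 * τ ≤ R.l3 := by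
  obtain ⟨h0, h1, h2, h3⟩ := hR.sides
  obtain ⟨-, -, h5, -⟩ := hR.sz_bd
  have := hR.mu_pos
  refine ⟨?_, ?_, ?_, ?_⟩ <;> linarith

theorem room_big {U : Set P} (hU : IsOpen U) {m : ℝ → P} {τ ℓ : ℝ} (hm : LipC m (-1) 1)
    (ht : Tr U m (-1) 1 (τ / 8)) (hτ : 0 < τ) (h : 10 ^ 6 * τ ≤ 2 * ℓ) : Room U m ℓ := by
  refine room_of_tr hU hm ht (by linarith) ?_
  unfold lam
  linarith

theorem tr_af {U : Set P} {m : ℝ → P} {τ a b : ℝ} (ht : Tr U m (-1) 1 τ) (ha : -1 ≤ a)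
    (hab : a ≤ b) (hb : b ≤ 1) : Tr U (m ∘ af a b) (-1) 1 τ := by
  refine ht.comp (α := af a b) (by norm_num) ?_ ?_ ?_
  · unfold af; fun_prop
  · intro u _ v _ huv
    unfold af
    nlinarith
  · intro u hu
    have := af_mem hab hu
    exact ⟨ha.trans this.1, this.2.trans hb⟩

theorem s0_left (E : Env) (F : Fr) : s0 (E.ch F) ∘ af (-1) 0 = s0 (E.ch F.left) := by
  rw [E.ch_left]; rfl

theorem s0_right (E : Env) (F : Fr) : s0 (E.ch F) ∘ af 0 1 = s0 (E.ch F.right) := by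
  rw [E.ch_right]; rfl

theorem s2_right (E : Env) (F : Fr) : s2 (E.ch F) ∘ af (-1) 0 = s2 (E.ch F.right) := by
  rw [E.ch_right]
  funext u
  simp only [s2, Function.comp, A, af]
  refine congrArg _ (Prod.ext ?_ rfl)
  simp only
  ring

theorem s2_left (E : Env) (F : Fr) : s2 (E.ch F) ∘ af 0 1 = s2 (E.ch F.left) := by
  rw [E.ch_left]
  funext u
  simp only [s2, Function.comp, A, af]
  refine congrArg _ (Prod.ext ?_ rfl)
  simp only
  ring

theorem s3_left (E : Env) (F : Fr) : s3 (E.ch F.left) = s3 (E.ch F) := by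
  rw [E.ch_left]
  funext u
  simp only [s3, Function.comp, A, af]
  norm_num

theorem s1_right (E : Env) (F : Fr) : s1 (E.ch F.right) = s1 (E.ch F) := by
  rw [E.ch_right]
  funext u
  simp only [s1, Function.comp, A, af]
  norm_num

theorem s3_right (E : Env) (F : Fr) : s3 (E.ch F.right) = fun u => s1 (E.ch F.left) (-u) := by
  rw [E.ch_right, E.ch_left]
  funext u
  simp only [s1, s3, Function.comp, A, af]
  norm_num

theorem fill_step {E : Env} {m : ℕ} {F : Fr} {R : Box} (hc : E.cell (m + 1) F) (hw : F.Wd)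
    (hR : R.Valid) {c : ℝ → ℝ} {yb yt : ℝ}
    (hcut : R.IsCut c R.mid yb (-((R.a2 + R.b2) / 2)) yt)
    (v1 : (R.cutL c R.mid yb (-((R.a2 + R.b2) / 2)) yt).Valid)
    (r0 : 10 ^ 7 * ta (m + 1) (E.nu F) ≤ R.sz)
    (r1 : 10 ^ 7 * ta m (E.nu F.left) ≤ (R.cutL c R.mid yb (-((R.a2 + R.b2) / 2)) yt).sz)
    (h1 : E.Fill m F.left.rot (R.cutL c R.mid yb (-((R.a2 + R.b2) / 2)) yt).rot)
    (h2 : E.Fill m F.right.rot.rot.rot
      (R.cutR c R.mid yb (-((R.a2 + R.b2) / 2)) yt).rot.rot.rot) :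
    E.Fill (m + 1) F R := by
  intro σ0 σ1 σ2 σ3 k0 k1 k2 k3
  have e : (m + 1 + 1) / 2 = m / 2 + 1 := by omega
  rw [e] at k0 k2
  obtain ⟨cl, cr, -⟩ := E.half m F hc hw
  have hτ := E.ta_pos hc
  obtain ⟨b0, -, b2, -⟩ := side_big hR r0
  obtain ⟨t0, -, t2, -⟩ := E.ch_str hc
  obtain ⟨ll0, ll1, ll2, -⟩ := (E.ch_up F.left).sides
  obtain ⟨lr0, -, lr2, -⟩ := (E.ch_up F.right).sides
  obtain ⟨a0, k0⟩ := k0
  obtain ⟨a2, k2⟩ := k2
  obtain ⟨z0, k0l, k0r⟩ := k0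
    (room_big E.hU (by rw [s0_left]; exact ll0) (tr_af t0 le_rfl (by norm_num) (by norm_num)) hτ
      (by linarith))
    (room_big E.hU (by rw [s0_right]; exact lr0) (tr_af t0 (by norm_num) (by norm_num) le_rfl) hτ
      (by linarith))
  obtain ⟨z2, k2r, k2l⟩ := k2
    (room_big E.hU (by rw [s2_right]; exact lr2) (tr_af t2 le_rfl (by norm_num) (by norm_num)) hτ
      (by linarith))
    (room_big E.hU (by rw [s2_left]; exact ll2) (tr_af t2 (by norm_num) (by norm_num) le_rfl) hτ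
      (by linarith))
  rw [s0_left] at k0l
  rw [s0_right] at k0r
  rw [s2_right] at k2r
  rw [s2_left] at k2l
  have hτl := E.ta_pos cl
  have bc := (side_big v1 r1).2.1
  obtain ⟨σc, kc⟩ := can_exists ((m + 1) / 2) (by linarith)
    (room_big E.hU ll1 (E.ch_str cl).2.1 hτl
      (ℓ := (R.cutL c R.mid yb (-((R.a2 + R.b2) / 2)) yt).l1) (by linarith))
  have p1 := h1 σc (rs 0 1 0 1 σ2) σ3 (rs (-1) 0 (-1) 0 σ0)
    (by rw [E.ch_rot, s0_J]; exact kc)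
    (by
      rw [E.ch_rot, s1_J]
      have : (R.cutL c R.mid yb (-((R.a2 + R.b2) / 2)) yt).rot.l1 = R.l2 / 2 := by
        simp only [Box.rot, Box.cutL, Box.l1, Box.l2]; ring
      rw [this]; exact k2l)
    (by rw [E.ch_rot, s2_J, s3_left]; exact k3)
    (by
      rw [E.ch_rot, s3_J]
      have : (R.cutL c R.mid yb (-((R.a2 + R.b2) / 2)) yt).rot.l3 = R.l0 / 2 := by
        simp only [Box.rot, Box.cutL, Box.l3, Box.l0, Box.mid]; ring
      rw [this]; exact k0l)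
  have p2 := h2 (rv σc) (rs 0 1 0 1 σ0) σ1 (rs (-1) 0 (-1) 0 σ2)
    (by
      rw [E.ch_rot, s0_J, E.ch_rot, s1_J, E.ch_rot, s2_J, s3_right]
      have : (R.cutR c R.mid yb (-((R.a2 + R.b2) / 2)) yt).rot.rot.rot.l0 =
          (R.cutL c R.mid yb (-((R.a2 + R.b2) / 2)) yt).l1 := by
        simp only [Box.rot, Box.cutL, Box.cutR, Box.l1, Box.l0]; ring
      rw [this]; exact kc.rv)
    (by
      rw [E.ch_rot, s1_J, E.ch_rot, s2_J, E.ch_rot, s3_J]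
      have : (R.cutR c R.mid yb (-((R.a2 + R.b2) / 2)) yt).rot.rot.rot.l1 = R.l0 / 2 := by
        simp only [Box.rot, Box.cutR, Box.l1, Box.l0, Box.mid]; ring
      rw [this]; exact k0r)
    (by rw [E.ch_rot, s2_J, E.ch_rot, s3_J, E.ch_rot, s0_J, s1_right]; exact k1)
    (by
      rw [E.ch_rot, s3_J, E.ch_rot, s0_J, E.ch_rot, s1_J]
      have : (R.cutR c R.mid yb (-((R.a2 + R.b2) / 2)) yt).rot.rot.rot.l3 = R.l2 / 2 := by
        simp only [Box.rot, Box.cutR, Box.l3, Box.l2]; ring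
      rw [this]; exact k2r)
  rw [E.ch_rot] at p1
  rw [E.ch_rot, E.ch_rot, E.ch_rot] at p2
  have q1 := p1.of_rot
  have q2 := p2.of_rot.of_rot.of_rot
  rw [E.ch_left] at q1
  rw [E.ch_right] at q2
  have g0 := hR.1.p0
  have g2 := hR.1.p2
  refine cp_glue hR hcut (x := 0) (by norm_num) (by norm_num) a0.1 a2.1 kc.sadm.1 ?_ ?_ ?_ ?_
  · rw [z0]
    unfold ia Box.mid
    have : R.b0 - R.a0 ≠ 0 := by linarith [sub_pos.2 g0]
    field_simp
    ring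
  · rw [neg_zero, z2]
    unfold ia
    have : R.b2 - R.a2 ≠ 0 := by linarith [sub_pos.2 g2]
    field_simp
    ring
  · rw [neg_zero, z0, z2]; exact q1
  · rw [neg_zero, z0, z2]; exact q2

theorem fill_of_gc {E : Env} {m : ℕ} {F : Fr} {R : Box} (hR : R.Pre)
    (h : GC E.U (E.ch F) R) : E.Fill m F R :=
  fun _ _ _ _ k0 k1 k2 k3 => gc_cp hR k0.sadm k1.sadm k2.sadm k3.sadm h

theorem ec_of_fill {E : Env} {m : ℕ} {F : Fr} {R : Box} (hc : E.cell m F) (hR : R.Valid)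
    (r0 : 10 ^ 7 * ta m (E.nu F) ≤ R.sz) (h : E.Fill m F R) : EC E.U (E.ch F) R := by
  have hτ := E.ta_pos hc
  obtain ⟨b0, b1, b2, b3⟩ := side_big hR r0
  obtain ⟨t0, t1, t2, t3⟩ := E.ch_str hc
  obtain ⟨l0, l1, l2, l3⟩ := (E.ch_up F).sides
  obtain ⟨σ0, k0⟩ := can_exists ((m + 1) / 2) (by linarith)
    (room_big E.hU l0 t0 hτ (ℓ := R.l0) (by linarith))
  obtain ⟨σ1, k1⟩ := can_exists (m / 2) (by linarith)
    (room_big E.hU l1 t1 hτ (ℓ := R.l1) (by linarith))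
  obtain ⟨σ2, k2⟩ := can_exists ((m + 1) / 2) (by linarith)
    (room_big E.hU l2 t2 hτ (ℓ := R.l2) (by linarith))
  obtain ⟨σ3, k3⟩ := can_exists (m / 2) (by linarith)
    (room_big E.hU l3 t3 hτ (ℓ := R.l3) (by linarith))
  exact cp_ec hR.1 k0.sadm k1.sadm k2.sadm k3.sadm (h σ0 σ1 σ2 σ3 k0 k1 k2 k3)

end Pool.Agent.Lib.MP_ecd4e3_gt
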