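import Pool.Agent.Lib.MP_ecd4e3_gt.Real1

/-! Calculus of pointwise Lipschitz bounds; fibred inverses; the model square. -/

namespace Pool.Agent.Lib.MP_ecd4e3_gt

open Set Filter Topology

section General

variable {X Y Z : Type} [PseudoMetricSpace X] [PseudoMetricSpace Y] [PseudoMetricSpace Z]

omit [PseudoMetricSpace Y] [PseudoMetricSpace Z] in
theorem lipc_union {S T : Set X} {Q : X → X → Prop} (hS : IsClosed S) (hT : IsClosed T)
    (h1 : ∀ z ∈ S, ∀ᶠ z' in 𝓝[S] z, Q z z') (h2 : ∀ z ∈ T, ∀ᶠ z' in 𝓝[T] z, Q z z') :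
    ∀ z ∈ S ∪ T, ∀ᶠ z' in 𝓝[S ∪ T] z, Q z z' := by
  have key : ∀ {S : Set X}, IsClosed S → (∀ z ∈ S, ∀ᶠ z' in 𝓝[S] z, Q z z') →
      ∀ z, ∀ᶠ z' in 𝓝[S] z, Q z z' := fun {S} hS h z => by
    by_cases hz : z ∈ S
    · exact h z hz
    · rw [notMem_closure_iff_nhdsWithin_eq_bot.1 (by rwa [hS.closure_eq])]
      exact eventually_bot
  intro z _
  rw [nhdsWithin_union, eventually_sup]
  exact ⟨key hS h1 z, key hT h2 z⟩

theorem Up.continuousOn {S : Set X} {f : X → Y} (h : Up S f) : ContinuousOn f S := by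
  obtain ⟨K, hK⟩ := h
  intro z hz
  rw [ContinuousWithinAt, tendsto_iff_dist_tendsto_zero]
  refine squeeze_zero' (Eventually.of_forall fun _ => dist_nonneg) (hK z hz) ?_
  have h1 : Tendsto (fun z' => dist z' z) (𝓝[S] z) (𝓝 0) :=
    tendsto_iff_dist_tendsto_zero.1 nhdsWithin_le_nhds
  simpa using h1.const_mul K

theorem Up.mono {S T : Set X} {f : X → Y} (h : Up S f) (hT : T ⊆ S) : Up T f := by
  obtain ⟨K, hK⟩ := h
  exact ⟨K, fun z hz => (hK z (hT hz)).filter_mono (nhdsWithin_mono _ hT)⟩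

theorem Up.congr {S : Set X} {f g : X → Y} (h : Up S f) (he : EqOn f g S) : Up S g := by
  obtain ⟨K, hK⟩ := h
  refine ⟨K, fun z hz => ?_⟩
  filter_upwards [hK z hz, self_mem_nhdsWithin] with z' h1 h2
  rwa [← he h2, ← he hz]

theorem Up.comp {S : Set X} {T : Set Y} {f : X → Y} {g : Y → Z} (hg : Up T g) (hf : Up S f)
    (hm : MapsTo f S T) : Up S (fun x => g (f x)) := by
  have hc := hf.continuousOn
  obtain ⟨K, hK⟩ := hg
  obtain ⟨L, hL⟩ := hf
  refine ⟨max K 0 * L, fun z hz => ?_⟩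
  filter_upwards [((hc z hz).tendsto_nhdsWithin hm).eventually (hK _ (hm hz)), hL z hz]
    with z' h1 h2
  calc _ ≤ K * dist (f z') (f z) := h1
    _ ≤ max K 0 * dist (f z') (f z) := mul_le_mul_of_nonneg_right (le_max_left _ _) dist_nonneg
    _ ≤ max K 0 * (L * dist z' z) := mul_le_mul_of_nonneg_left h2 (le_max_right _ _)
    _ = _ := by ring

theorem Up.union {S T : Set X} {f : X → Y} (hS : IsClosed S) (hT : IsClosed T) (h1 : Up S f)
    (h2 : Up T f) : Up (S ∪ T) f := by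
  obtain ⟨K, hK⟩ := h1
  obtain ⟨L, hL⟩ := h2
  refine ⟨max K L, lipc_union hS hT (fun z hz => (hK z hz).mono fun z' h => h.trans ?_)
    fun z hz => (hL z hz).mono fun z' h => h.trans ?_⟩
  · exact mul_le_mul_of_nonneg_right (le_max_left _ _) dist_nonneg
  · exact mul_le_mul_of_nonneg_right (le_max_right _ _) dist_nonneg

theorem Up.prodMk {S : Set X} {f : X → Y} {g : X → Z} (hf : Up S f) (hg : Up S g) :
    Up S (fun x => (f x, g x)) := by
  obtain ⟨K, hK⟩ := hf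
  obtain ⟨L, hL⟩ := hg
  refine ⟨max K L, fun z hz => ?_⟩
  filter_upwards [hK z hz, hL z hz] with z' h1 h2
  rw [Prod.dist_eq]
  exact max_le (h1.trans (mul_le_mul_of_nonneg_right (le_max_left _ _) dist_nonneg))
    (h2.trans (mul_le_mul_of_nonneg_right (le_max_right _ _) dist_nonneg))

theorem up_of_lip {S : Set X} {f : X → Y} {K : ℝ}
    (h : ∀ x ∈ S, ∀ y ∈ S, dist (f x) (f y) ≤ K * dist x y) : Up S f := by
  refine ⟨K, fun z hz => ?_⟩
  filter_upwards [self_mem_nhdsWithin] with z' hz'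
  exact h z' hz' z hz

theorem up_of_locallyLipschitz {S : Set X} {f : X → Y} (hS : IsCompact S)
    (hf : LocallyLipschitz f) : Up S f := by
  obtain ⟨K, hK⟩ := hf.locallyLipschitzOn.exists_lipschitzOnWith_of_compact hS
  exact up_of_lip (K := K) fun x hx y hy => hK.dist_le_mul x hx y hy

theorem Low.mono {S T : Set X} {f : X → Y} (h : Low S f) (hT : T ⊆ S) : Low T f := by
  obtain ⟨θ, h0, hK⟩ := h
  exact ⟨θ, h0, fun z hz => (hK z (hT hz)).filter_mono (nhdsWithin_mono _ hT)⟩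

theorem Low.congr {S : Set X} {f g : X → Y} (h : Low S f) (he : EqOn f g S) : Low S g := by
  obtain ⟨θ, h0, hK⟩ := h
  refine ⟨θ, h0, fun z hz => ?_⟩
  filter_upwards [hK z hz, self_mem_nhdsWithin] with z' h1 h2
  rwa [← he h2, ← he hz]

theorem Low.comp {S : Set X} {T : Set Y} {f : X → Y} {g : Y → Z} (hg : Low T g) (hf : Low S f)
    (hc : ContinuousOn f S) (hm : MapsTo f S T) : Low S (fun x => g (f x)) := by
  obtain ⟨K, h0, hK⟩ := hg
  obtain ⟨L, h1, hL⟩ := hf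
  refine ⟨K * L, mul_pos h0 h1, fun z hz => ?_⟩
  filter_upwards [((hc z hz).tendsto_nhdsWithin hm).eventually (hK _ (hm hz)), hL z hz]
    with z' h2 h3
  calc _ = K * (L * dist z' z) := by ring
    _ ≤ K * dist (f z') (f z) := mul_le_mul_of_nonneg_left h3 h0.le
    _ ≤ _ := h2

theorem Low.union {S T : Set X} {f : X → Y} (hS : IsClosed S) (hT : IsClosed T) (h1 : Low S f)
    (h2 : Low T f) : Low (S ∪ T) f := by
  obtain ⟨K, k0, hK⟩ := h1
  obtain ⟨L, l0, hL⟩ := h2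
  refine ⟨min K L, lt_min k0 l0, lipc_union hS hT
    (fun z hz => (hK z hz).mono fun z' h => le_trans ?_ h)
    fun z hz => (hL z hz).mono fun z' h => le_trans ?_ h⟩
  · exact mul_le_mul_of_nonneg_right (min_le_left _ _) dist_nonneg
  · exact mul_le_mul_of_nonneg_right (min_le_right _ _) dist_nonneg

theorem low_of_inv {S : Set X} {T : Set Y} {h : X → Y} {g : Y → X} (hg : Up T g)
    (hc : ContinuousOn h S) (hm : MapsTo h S T) (hgh : ∀ x ∈ S, g (h x) = x) : Low S h := by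
  obtain ⟨K, hK⟩ := hg
  have h0 : 0 < max K 1 := lt_max_of_lt_right one_pos
  refine ⟨1 / max K 1, by positivity, fun z hz => ?_⟩
  filter_upwards [((hc z hz).tendsto_nhdsWithin hm).eventually (hK _ (hm hz)),
    self_mem_nhdsWithin] with z' h1 h2
  rw [hgh z' h2, hgh z hz] at h1
  rw [one_div, inv_mul_le_iff₀ h0]
  exact h1.trans (mul_le_mul_of_nonneg_right (le_max_left _ _) dist_nonneg)

theorem locallyLipschitz_mul {f g : X → ℝ} (hf : LocallyLipschitz f) (hg : LocallyLipschitz g) :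
    LocallyLipschitz (fun x => f x * g x) := by
  have h : LocallyLipschitz fun p : ℝ × ℝ => p.1 * p.2 :=
    ContDiff.locallyLipschitz (𝕂 := ℝ) (contDiff_fst.mul contDiff_snd)
  exact h.comp (hf.prodMk hg)

theorem locallyLipschitz_div {f g : X → ℝ} (hf : LocallyLipschitz f) (hg : LocallyLipschitz g)
    (h0 : ∀ x, g x ≠ 0) : LocallyLipschitz (fun x => f x / g x) := by
  have h : LocallyLipschitz fun x => (g x)⁻¹ := by
    intro x
    obtain ⟨Kg, t, ht, hgL⟩ := hg x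
    obtain ⟨Kf, u, hu, hfL⟩ :=
      (contDiffAt_inv ℝ (n := 1) (h0 x)).exists_lipschitzOnWith (𝕂 := ℝ)
    refine ⟨Kf * Kg, t ∩ g ⁻¹' u, inter_mem ht (hg.continuous.continuousAt hu), ?_⟩
    exact hfL.comp (hgL.mono inter_subset_left)
      ((mapsTo_preimage g u).mono_left inter_subset_right)
  simpa only [div_eq_mul_inv] using locallyLipschitz_mul hf h

end General

/-- Pointwise bounds on a convex set are global. -/
theorem lip_of_pw {V Y : Type} [NormedAddCommGroup V] [NormedSpace ℝ V] [PseudoMetricSpace Y]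
    {S : Set V} (hS : Convex ℝ S) {f : V → Y} {K : ℝ} (hK : 0 ≤ K)
    (h : ∀ z ∈ S, ∀ᶠ z' in 𝓝[S] z, dist (f z') (f z) ≤ K * dist z' z) :
    ∀ x ∈ S, ∀ y ∈ S, dist (f x) (f y) ≤ K * dist x y := by
  intro x hx y hy
  have hm : MapsTo (fun t : ℝ => y + t • (x - y)) (Icc 0 1) S := fun t ht =>
    hS.add_smul_sub_mem hy hx ht
  have hc : Continuous fun t : ℝ => y + t • (x - y) := by fun_prop
  have hd : 0 ≤ K * dist x y := mul_nonneg hK dist_nonneg
  have := chain_le (m := fun t : ℝ => f (y + t • (x - y))) (T := fun t => K * dist x y * t)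
    zero_le_one (fun s _ t _ hst => mul_le_mul_of_nonneg_left hst hd) fun t ht => by
      filter_upwards [(hc.continuousWithinAt.tendsto_nhdsWithin hm).eventually (h _ (hm ht))]
        with t' h1
      refine h1.trans (le_of_eq ?_)
      rw [dist_add_left, dist_eq_norm, ← sub_smul, norm_smul, ← mul_sub, abs_mul, abs_of_nonneg hd,
        dist_eq_norm, Real.norm_eq_abs]
      ring
  simpa using this

theorem Up.lip {V Y : Type} [NormedAddCommGroup V] [NormedSpace ℝ V] [PseudoMetricSpace Y]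
    {S : Set V} (hS : Convex ℝ S) {f : V → Y} (h : Up S f) :
    ∃ K : ℝ, 0 ≤ K ∧ ∀ x ∈ S, ∀ y ∈ S, dist (f x) (f y) ≤ K * dist x y := by
  obtain ⟨K, hK⟩ := h
  refine ⟨max K 0, le_max_right _ _, lip_of_pw hS (le_max_right _ _) fun z hz => ?_⟩
  exact (hK z hz).mono fun z' h =>
    h.trans (mul_le_mul_of_nonneg_right (le_max_left _ _) dist_nonneg)

theorem Dom.union {U S T : Set P} {Λ f : P → P} (hS : IsClosed S) (hT : IsClosed T)
    (h1 : Dom U S Λ f) (h2 : Dom U T Λ f) : Dom U (S ∪ T) Λ f := by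
  intro z hz hU
  have := lipc_union (Q := fun z z' => Λ z ∈ U → dist (Λ z') (Λ z) ≤ dist (f z') (f z)) hS hT
    (fun z hz => eventually_imp_distrib_left.2 (h1 z hz))
    (fun z hz => eventually_imp_distrib_left.2 (h2 z hz)) z hz
  exact this.mono fun z' h => h hU

theorem Dom.congr {U S : Set P} {Λ Λ' f f' : P → P} (h : Dom U S Λ f) (h1 : EqOn Λ Λ' S)
    (h2 : EqOn f f' S) : Dom U S Λ' f' := by
  intro z hz hU
  rw [← h1 hz] at hU
  filter_upwards [h z hz hU, self_mem_nhdsWithin] with z' h3 h4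
  rwa [← h1 h4, ← h1 hz, ← h2 h4, ← h2 hz]

theorem Dom.comp {U S T : Set P} {Λ f h : P → P} (hd : Dom U T Λ f) (hc : ContinuousOn h S)
    (hm : MapsTo h S T) : Dom U S (fun p => Λ (h p)) (fun p => f (h p)) := by
  intro z hz hU
  exact ((hc z hz).tendsto_nhdsWithin hm).eventually (hd _ (hm hz) hU)

/-- Inverse of a fibred map `(t, s) ↦ (φ (t, s), s)`. -/
theorem fib_inv {φ : P → ℝ} {K θ : ℝ} (hK : ∀ z z', |φ z - φ z'| ≤ K * dist z z') (hθ : 0 < θ)
    (he : ∀ t t' s, t ≤ t' → θ * (t' - t) ≤ φ (t', s) - φ (t, s)) :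
    ∃ (ψ : P → ℝ) (K' θ' : ℝ), 0 < θ' ∧ (∀ z z', |ψ z - ψ z'| ≤ K' * dist z z') ∧
      (∀ t t' s, t ≤ t' → θ' * (t' - t) ≤ ψ (t', s) - ψ (t, s)) ∧
      (∀ t s, ψ (φ (t, s), s) = t) ∧ ∀ t s, φ (ψ (t, s), s) = t := by
  have hK1 : ∀ z z', |φ z - φ z'| ≤ |K| * dist z z' := fun z z' =>
    (hK z z').trans (mul_le_mul_of_nonneg_right (le_abs_self K) dist_nonneg)
  have hK0 := abs_nonneg K
  have d1 : ∀ t t' s : ℝ, dist ((t, s) : P) (t', s) = |t - t'| := fun t t' s => by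
    simp [Prod.dist_eq, Real.dist_eq]
  have d2 : ∀ t s s' : ℝ, dist ((t, s) : P) (t, s') = |s - s'| := fun t s s' => by
    simp [Prod.dist_eq, Real.dist_eq]
  have up : ∀ t t' s, t ≤ t' → φ (t', s) - φ (t, s) ≤ |K| * (t' - t) := fun t t' s h => by
    have h1 := hK1 (t', s) (t, s)
    rw [d1, abs_of_nonneg (sub_nonneg.2 h)] at h1
    exact (le_abs_self _).trans h1
  have hI : ∀ s, IncOn (fun t => φ (t, s)) univ := fun s =>
    ⟨θ, |K|, hθ, fun t _ t' _ h => ⟨he t t' s h, up t t' s h⟩⟩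
  choose τ hτ h1 h2 using fun s => (hI s).exists_inv
  have lo : ∀ t t' s, θ * |t - t'| ≤ |φ (t, s) - φ (t', s)| := fun t t' s => by
    rcases le_total t t' with h | h
    · rw [abs_sub_comm t, abs_of_nonneg (sub_nonneg.2 h), abs_sub_comm]
      exact (he t t' s h).trans (le_abs_self _)
    · rw [abs_of_nonneg (sub_nonneg.2 h)]
      exact (he t' t s h).trans (le_abs_self _)
  refine ⟨fun z => τ z.2 z.1, (1 + |K|) / θ, 1 / (|K| + 1), by positivity, ?_, ?_,
    fun t s => h1 s t, fun t s => h2 s t⟩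
  · rintro ⟨y, s⟩ ⟨y', s'⟩
    have a1 := lo (τ s y) (τ s' y') s
    have a2 := abs_sub_le (φ (τ s y, s)) (φ (τ s' y', s')) (φ (τ s' y', s))
    have a3 := hK1 (τ s' y', s') (τ s' y', s)
    rw [d2, abs_sub_comm s' s] at a3
    have a4 : |y - y'| ≤ dist ((y, s) : P) (y', s') := by
      rw [Prod.dist_eq, ← Real.dist_eq]; exact le_max_left _ _
    have a5 : |s - s'| ≤ dist ((y, s) : P) (y', s') := by
      rw [Prod.dist_eq, ← Real.dist_eq]; exact le_max_right _ _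
    have a6 := mul_le_mul_of_nonneg_left a5 hK0
    have a7 : |φ (τ s y, s) - φ (τ s' y', s')| = |y - y'| := by rw [h2 s y, h2 s' y']
    rw [div_mul_eq_mul_div, le_div_iff₀ hθ]
    change |τ s y - τ s' y'| * θ ≤ _
    linarith
  · intro t t' s h
    have a1 : τ s t ≤ τ s t' := (hτ s).strictMonoOn.monotoneOn (mem_univ _) (mem_univ _) h
    have a2 := up _ _ s a1
    rw [h2 s t, h2 s t'] at a2
    rw [one_div, inv_mul_le_iff₀ (by positivity)]
    change t' - t ≤ (|K| + 1) * (τ s t' - τ s t)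
    nlinarith

theorem mem_sq {p : P} : p ∈ sq ↔ ‖p‖ ≤ 1 := by
  rw [Prod.norm_def, max_le_iff]
  rfl

theorem lipc_sq_eq : sq = Metric.closedBall 0 1 := by
  ext p
  rw [mem_sq, mem_closedBall_zero_iff]

theorem isCompact_sq : IsCompact sq := by
  rw [lipc_sq_eq]
  exact isCompact_closedBall _ _

theorem convex_sq : Convex ℝ sq := by
  rw [lipc_sq_eq]
  exact convex_closedBall _ _

theorem J_four (p : P) : J (J (J (J p))) = p := by
  simp [J]

theorem dist_J (p q : P) : dist (J p) (J q) = dist p q := by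
  simp only [J, Prod.dist_eq, dist_neg_neg, max_comm]

theorem norm_J (p : P) : ‖J p‖ = ‖p‖ := by
  simp only [J, Prod.norm_def, norm_neg, max_comm]

theorem J_mem_sq {p : P} : J p ∈ sq ↔ p ∈ sq := by
  rw [mem_sq, mem_sq, norm_J]

theorem af_mem {a b u : ℝ} (hab : a ≤ b) (hu : u ∈ Icc (-1 : ℝ) 1) : af a b u ∈ Icc a b := by
  obtain ⟨h1, h2⟩ := hu
  unfold af
  constructor <;> nlinarith

theorem ia_mem {a b x : ℝ} (hab : a < b) (hx : x ∈ Icc a b) : ia a b x ∈ Icc (-1 : ℝ) 1 := by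
  obtain ⟨h1, h2⟩ := hx
  have h0 : 0 < b - a := sub_pos.2 hab
  unfold ia
  constructor
  · have : 0 ≤ 2 * (x - a) / (b - a) := div_nonneg (by linarith) h0.le
    linarith
  · have : 2 * (x - a) / (b - a) ≤ 2 := by rw [div_le_iff₀ h0]; linarith
    linarith

theorem ia_af {a b : ℝ} (hab : a < b) (u : ℝ) : ia a b (af a b u) = u := by
  have h0 : b - a ≠ 0 := (sub_pos.2 hab).ne'
  unfold ia af
  field_simp
  ring

theorem af_ia {a b : ℝ} (hab : a < b) (x : ℝ) : af a b (ia a b x) = x := by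
  have h0 : b - a ≠ 0 := (sub_pos.2 hab).ne'
  unfold ia af
  field_simp
  ring

theorem af_af (a b c d u : ℝ) : af a b (af c d u) = af (af a b c) (af a b d) u := by
  unfold af
  ring

theorem A_A (a b c d : ℝ) (p : P) : A a b (A c d p) = A (af a b c) (af a b d) p := by
  simp only [A, af_af]

theorem A_one (p : P) : A (-1) 1 p = p := by
  refine Prod.ext ?_ rfl
  simp only [A, af]
  ring

theorem A_mem {a b : ℝ} (ha : -1 ≤ a) (hab : a ≤ b) (hb : b ≤ 1) : MapsTo (A a b) sq sq := by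
  intro p hp
  have := af_mem hab (abs_le.1 hp.1)
  exact ⟨abs_le.2 ⟨ha.trans this.1, this.2.trans hb⟩, hp.2⟩

theorem up_A (a b : ℝ) (S : Set P) : Up S (A a b) := by
  refine up_of_lip (K := max |(b - a) / 2| 1) fun p _ q _ => ?_
  rw [Prod.dist_eq]
  refine max_le ?_ ?_
  · have h1 : dist (A a b p).1 (A a b q).1 = |(b - a) / 2| * dist p.1 q.1 := by
      rw [Real.dist_eq, Real.dist_eq, ← abs_mul]
      congr 1
      simp only [A, af]
      ring
    rw [h1]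
    exact mul_le_mul (le_max_left _ _) (le_max_left _ _) dist_nonneg
      (le_max_of_le_right zero_le_one)
  · calc dist p.2 q.2 = 1 * dist p.2 q.2 := (one_mul _).symm
      _ ≤ _ := mul_le_mul (le_max_right _ _) (le_max_right _ _) dist_nonneg
          (le_max_of_le_right zero_le_one)

theorem lipc_ia_mono {a b x y : ℝ} (hab : a < b) (h : x ≤ y) : ia a b x ≤ ia a b y := by
  have h0 : 0 < b - a := sub_pos.2 hab
  unfold ia
  gcongr

theorem lipc_abs_cl {z : ℝ} (h0 : 0 < z) (h1 : z ≤ 1 / 2) (x : ℝ) :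
    |cl (z - 1) (1 - z) x| ≤ 1 := by
  unfold cl
  exact abs_le.2 ⟨le_max_of_le_left (by linarith),
    max_le (by linarith) (min_le_of_left_le (by linarith))⟩

theorem lipc_cl_cl {z z' : ℝ} (h : z' ≤ z) (h1 : z ≤ 1 / 2) (x : ℝ) :
    cl (z - 1) (1 - z) (cl (z' - 1) (1 - z') x) = cl (z - 1) (1 - z) x := by
  unfold cl
  simp only [max_def, min_def]
  split_ifs <;> linarith

theorem lipc_cl_neg {z : ℝ} (h1 : z ≤ 1 / 2) (x : ℝ) :
    cl (z - 1) (1 - z) (-x) = -cl (z - 1) (1 - z) x := by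
  unfold cl
  simp only [max_def, min_def]
  split_ifs <;> linarith

theorem lipc_cl_left {a b x : ℝ} (h : x ≤ a) : cl a b x = a :=
  max_eq_left (min_le_of_right_le h)

theorem lipc_cl_right {a b x : ℝ} (h : b ≤ x) : cl a b x = max a b := by
  rw [cl, min_eq_left h]

theorem lipc_side {t : ℝ} (ht : t ∈ Icc (-1 : ℝ) 1) :
    ((t, -1) : P) ∈ sq ∧ ((1, t) : P) ∈ sq ∧ ((-t, 1) : P) ∈ sq ∧ ((-1, -t) : P) ∈ sq := by
  have := abs_le.2 ht
  simp [sq, this]

theorem Fib.congr {Λ Λ' : P → P} (h : Fib Λ) (he : EqOn Λ Λ' sq) : Fib Λ' := by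
  obtain ⟨z, h0, h1, h⟩ := h
  refine ⟨z, h0, h1, fun p hp => ?_⟩
  rw [← he hp, h p hp]
  exact he ⟨lipc_abs_cl h0 h1 _, lipc_abs_cl h0 h1 _⟩

/-- The zone width may be decreased. -/
theorem Fib.small {Λ : P → P} (h : Fib Λ) : ∃ z : ℝ, 0 < z ∧ z ≤ 1 / 2 ∧ ∀ z', 0 < z' → z' ≤ z →
    ∀ p ∈ sq, Λ p = Λ (cl (z' - 1) (1 - z') p.1, cl (z' - 1) (1 - z') p.2) := by
  obtain ⟨z, h0, h1, h⟩ := h
  refine ⟨z, h0, h1, fun z' h2 h3 p hp => ?_⟩
  rw [h p hp, h (cl (z' - 1) (1 - z') p.1, cl (z' - 1) (1 - z') p.2)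
    ⟨lipc_abs_cl h2 (h3.trans h1) _, lipc_abs_cl h2 (h3.trans h1) _⟩]
  simp only [lipc_cl_cl h3 h1]

theorem Fib.rot {Λ : P → P} (h : Fib Λ) : Fib (Λ ∘ J) := by
  obtain ⟨z, h0, h1, h⟩ := h
  refine ⟨z, h0, h1, fun p hp => ?_⟩
  simp only [Function.comp, h _ (J_mem_sq.2 hp)]
  simp only [J, lipc_cl_neg h1]

theorem Fib.glue {Λ : P → P} {x : ℝ} (hx : -1 < x) (hx' : x < 1) (h1 : Fib (Λ ∘ A (-1) x))
    (h2 : Fib (Λ ∘ A x 1)) : Fib Λ := by
  obtain ⟨z1, a0, a1, h1⟩ := h1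
  obtain ⟨z2, b0, b1, h2⟩ := h2
  have e1 := min_le_left (z1 * (x + 1) / 2) (z2 * (1 - x) / 2)
  have e2 := min_le_right (z1 * (x + 1) / 2) (z2 * (1 - x) / 2)
  have e0 : 0 < min (z1 * (x + 1) / 2) (z2 * (1 - x) / 2) :=
    lt_min (by nlinarith) (by nlinarith)
  generalize min (z1 * (x + 1) / 2) (z2 * (1 - x) / 2) = z at e0 e1 e2
  have c1 : z ≤ z1 := by nlinarith
  have c2 : z ≤ z2 := by nlinarith
  have c3 : z - 1 ≤ x := by nlinarith
  have c4 : x ≤ 1 - z := by nlinarith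
  have c5 : z ≤ 1 / 2 := c1.trans a1
  refine ⟨z, e0, c5, fun p hp => ?_⟩
  obtain ⟨p1, p2⟩ := abs_le.1 hp.1
  have hq2 := lipc_abs_cl e0 c5 p.2
  rcases le_total p.1 x with h | h
  · have q1 : cl (z - 1) (1 - z) p.1 = max (z - 1) p.1 := by
      rw [cl, min_eq_right (h.trans c4)]
    have m1 := ia_mem hx (x := p.1) ⟨p1, h⟩
    have m2 := ia_mem hx (x := max (z - 1) p.1) ⟨le_max_of_le_right p1, max_le c3 h⟩
    have r1 := h1 (ia (-1) x p.1, p.2) ⟨abs_le.2 m1, hp.2⟩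
    have r2 := h1 (ia (-1) x (max (z - 1) p.1), cl (z - 1) (1 - z) p.2) ⟨abs_le.2 m2, hq2⟩
    simp only [Function.comp, A, af_ia hx, lipc_cl_cl c1 a1] at r1 r2
    rw [q1, r2, ← Prod.mk.eta (p := p), r1]
    rcases le_total (z - 1) p.1 with h' | h'
    · rw [max_eq_right h']
    · have k1 : ia (-1) x (z - 1) ≤ z1 - 1 := by
        have : 2 * (z - 1 - -1) / (x - -1) ≤ z1 := by
          rw [div_le_iff₀ (by linarith)]; linarith
        unfold ia; linarith
      have k2 := lipc_ia_mono hx h'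
      rw [max_eq_left h', lipc_cl_left k1, lipc_cl_left (k2.trans k1)]
  · have q1 : cl (z - 1) (1 - z) p.1 = min (1 - z) p.1 := by
      rw [cl, max_eq_right (le_min (by linarith) (c3.trans h))]
    have m1 := ia_mem hx' (x := p.1) ⟨h, p2⟩
    have m2 := ia_mem hx' (x := min (1 - z) p.1) ⟨le_min c4 h, min_le_of_right_le p2⟩
    have r1 := h2 (ia x 1 p.1, p.2) ⟨abs_le.2 m1, hp.2⟩
    have r2 := h2 (ia x 1 (min (1 - z) p.1), cl (z - 1) (1 - z) p.2) ⟨abs_le.2 m2, hq2⟩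
    simp only [Function.comp, A, af_ia hx', lipc_cl_cl c2 b1] at r1 r2
    rw [q1, r2, ← Prod.mk.eta (p := p), r1]
    rcases le_total p.1 (1 - z) with h' | h'
    · rw [min_eq_right h']
    · have k1 : 1 - z2 ≤ ia x 1 (1 - z) := by
        have : 2 - z2 ≤ 2 * (1 - z - x) / (1 - x) := by
          rw [le_div_iff₀ (by linarith)]; linarith
        unfold ia; linarith
      have k2 := lipc_ia_mono hx' h'
      rw [min_eq_left h', lipc_cl_right k1, lipc_cl_right (k1.trans k2)]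

theorem Up.glue {Λ : P → P} {x : ℝ} (hx : -1 < x) (hx' : x < 1) (h1 : Up sq (Λ ∘ A (-1) x))
    (h2 : Up sq (Λ ∘ A x 1)) : Up sq Λ := by
  have key : ∀ a b : ℝ, a < b → Up sq (Λ ∘ A a b) → Up (sq ∩ {p | p.1 ∈ Icc a b}) Λ := by
    intro a b hab h
    have u1 : Up (sq ∩ {p : P | p.1 ∈ Icc a b}) (A (ia a b (-1)) (ia a b 1)) := up_A _ _ _
    have e1 : ∀ p : P, A (ia a b (-1)) (ia a b 1) p = (ia a b p.1, p.2) := fun p => by
      refine Prod.ext ?_ rfl
      simp only [A, af, ia]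
      ring
    refine (h.comp u1 fun p hp => ?_).congr fun p _ => ?_
    · rw [e1]
      exact ⟨abs_le.2 (ia_mem hab hp.2), hp.1.2⟩
    · simp only [e1]
      simp only [Function.comp, A, af_ia hab]
  have hc : ∀ a b : ℝ, IsClosed (sq ∩ {p : P | p.1 ∈ Icc a b}) := fun a b =>
    isCompact_sq.isClosed.inter (isClosed_Icc.preimage continuous_fst)
  refine (Up.union (hc _ _) (hc _ _) (key _ _ hx h1) (key _ _ hx' h2)).mono fun p hp => ?_
  obtain ⟨p1, p2⟩ := abs_le.1 hp.1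
  rcases le_total p.1 x with h | h
  · exact Or.inl ⟨hp, p1, h⟩
  · exact Or.inr ⟨hp, h, p2⟩

theorem Up.sides {Λ : P → P} (h : Up sq Λ) :
    LipC (s0 Λ) (-1) 1 ∧ LipC (s1 Λ) (-1) 1 ∧ LipC (s2 Λ) (-1) 1 ∧ LipC (s3 Λ) (-1) 1 := by
  obtain ⟨K, -, hK⟩ := h.lip convex_sq
  refine ⟨⟨K, fun t ht t' ht' => ?_⟩, ⟨K, fun t ht t' ht' => ?_⟩, ⟨K, fun t ht t' ht' => ?_⟩,
    ⟨K, fun t ht t' ht' => ?_⟩⟩
  · refine (hK _ (lipc_side ht).1 _ (lipc_side ht').1).trans (le_of_eq ?_)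
    simp [Prod.dist_eq, Real.dist_eq]
  · refine (hK _ (lipc_side ht).2.1 _ (lipc_side ht').2.1).trans (le_of_eq ?_)
    simp [Prod.dist_eq, Real.dist_eq]
  · refine (hK _ (lipc_side ht).2.2.1 _ (lipc_side ht').2.2.1).trans (le_of_eq ?_)
    rw [Prod.dist_eq, dist_neg_neg]
    simp [Real.dist_eq]
  · refine (hK _ (lipc_side ht).2.2.2 _ (lipc_side ht').2.2.2).trans (le_of_eq ?_)
    rw [Prod.dist_eq, dist_neg_neg, dist_neg_neg]
    simp [Real.dist_eq]

theorem STr.le {U : Set P} {Λ : P → P} {τ τ' : ℝ} (h : STr U Λ τ) (hτ : τ ≤ τ') :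
    STr U Λ τ' := by
  exact ⟨h.1.le hτ, h.2.1.le hτ, h.2.2.1.le hτ, h.2.2.2.le hτ⟩

theorem STr.congr {U : Set P} {Λ Λ' : P → P} {τ : ℝ} (h : STr U Λ τ) (he : EqOn Λ Λ' sq) :
    STr U Λ' τ := by
  exact ⟨h.1.congr fun _ ht => he (lipc_side ht).1,
    h.2.1.congr fun _ ht => he (lipc_side ht).2.1,
    h.2.2.1.congr fun _ ht => he (lipc_side ht).2.2.1,
    h.2.2.2.congr fun _ ht => he (lipc_side ht).2.2.2⟩

theorem STr.rot {U : Set P} {Λ : P → P} {τ : ℝ} (h : STr U Λ τ) : STr U (Λ ∘ J) τ := by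
  refine ⟨h.2.1.congr fun t _ => ?_, h.2.2.1.congr fun t _ => ?_, h.2.2.2.congr fun t _ => ?_,
    h.1.congr fun t _ => ?_⟩ <;> simp [s0, s1, s2, s3, J]

theorem STr.glue {U : Set P} {Λ : P → P} {x τ1 τ2 : ℝ} (hx : -1 < x) (hx' : x < 1) (h1 : 0 ≤ τ1)
    (h2 : 0 ≤ τ2) (t1 : STr U (Λ ∘ A (-1) x) τ1) (t2 : STr U (Λ ∘ A x 1) τ2) :
    STr U Λ (τ1 + τ2) := by
  have ci : ∀ a b : ℝ, Continuous (ia a b) := fun a b => by unfold ia; fun_prop
  have k0 : ∀ a b τ : ℝ, a < b → Tr U (s0 (Λ ∘ A a b)) (-1) 1 τ → Tr U (s0 Λ) a b τ := by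
    intro a b τ hab h
    refine (h.comp hab.le (ci a b).continuousOn (fun s _ t _ hst => lipc_ia_mono hab hst)
      fun t ht => ia_mem hab ht).congr fun t _ => ?_
    simp only [s0, Function.comp, A, af_ia hab]
  have k2 : ∀ a b τ : ℝ, a < b → Tr U (s2 (Λ ∘ A a b)) (-1) 1 τ → Tr U (s2 Λ) (-b) (-a) τ := by
    intro a b τ hab h
    refine (h.comp (α := fun t => -ia a b (-t)) (neg_le_neg hab.le)
      ((ci a b).comp continuous_neg).neg.continuousOn
      (fun s _ t _ hst => neg_le_neg (lipc_ia_mono hab (neg_le_neg hst))) fun t ht => ?_).congr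
        fun t _ => ?_
    · have := ia_mem hab (x := -t) ⟨by linarith [ht.2], by linarith [ht.1]⟩
      exact ⟨by linarith [this.2], by linarith [this.1]⟩
    · simp only [s2, Function.comp, A, neg_neg, af_ia hab]
  refine ⟨(k0 _ _ _ hx t1.1).add hx.le hx'.le (k0 _ _ _ hx' t2.1), ?_, ?_, ?_⟩
  · refine (t2.2.1.congr fun t _ => ?_).le (by linarith)
    simp [s1, A, af]
  · have a1 := k2 _ _ _ hx t1.2.2.1
    rw [neg_neg] at a1
    rw [add_comm]
    exact (k2 _ _ _ hx' t2.2.2.1).add (by linarith) (by linarith) a1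
  · refine (t1.2.2.2.congr fun t _ => ?_).le (by linarith)
    simp [s3, A, af]

end Pool.Agent.Lib.MP_ecd4e3_gt
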