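import Pool.Agent.Lib.MP_ecd4e3_gt.InvDom
import Pool.Agent.Lib.MP_ecd4e3_gt.Lipc

/-! From pointwise bounds to local bounds, embeddings and lengths of curves. -/

namespace Pool.Agent.Lib.MP_ecd4e3_gt

open Set Filter Topology

theorem evar_add {Y : Type} [PseudoMetricSpace Y] (g : ℝ → Y) {s p q : ℝ} (h1 : s ≤ p)
    (h2 : p ≤ q) :
    eVariationOn g (Icc s p) + eVariationOn g (Icc p q) = eVariationOn g (Icc s q) := by
  simpa using eVariationOn.Icc_add_Icc g (s := univ) h1 h2 (mem_univ p)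

theorem dist_le_evar_sub {Y : Type} [PseudoMetricSpace Y] (g : ℝ → Y) {s p q : ℝ} (h1 : s ≤ p)
    (h2 : p ≤ q) (hf : eVariationOn g (Icc s q) ≠ ⊤) :
    dist (g q) (g p) ≤ (eVariationOn g (Icc s q)).toReal - (eVariationOn g (Icc s p)).toReal := by
  have ha := evar_add g h1 h2
  rw [← ha] at hf
  obtain ⟨hf1, hf2⟩ := ENNReal.add_ne_top.1 hf
  rw [← ha, ENNReal.toReal_add hf1 hf2, add_sub_cancel_left]
  exact BoundedVariationOn.dist_le hf2 (right_mem_Icc.2 h2) (left_mem_Icc.2 h2)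

theorem edist_le_evar {X Y : Type} [PseudoMetricSpace X] [PseudoMetricSpace Y] {γ : ℝ → X}
    {g : ℝ → Y} {s t : ℝ} (hst : s ≤ t)
    (h : ∀ τ ∈ Icc s t, ∀ᶠ τ' in 𝓝[Icc s t] τ, dist (γ τ') (γ τ) ≤ dist (g τ') (g τ)) :
    edist (γ t) (γ s) ≤ eVariationOn g (Icc s t) := by
  by_cases hf : eVariationOn g (Icc s t) = ⊤
  · rw [hf]; exact le_top
  have hfin : ∀ q, q ≤ t → eVariationOn g (Icc s q) ≠ ⊤ := fun q hq =>
    ne_top_of_le_ne_top hf (eVariationOn.mono g (Icc_subset_Icc_right hq))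
  have key := chain_le (m := γ) (T := fun τ => (eVariationOn g (Icc s τ)).toReal) hst
    (fun p _ q hq hpq => ENNReal.toReal_mono (hfin q hq.2)
      (eVariationOn.mono g (Icc_subset_Icc_right hpq))) (by
      intro τ hτ
      filter_upwards [h τ hτ, self_mem_nhdsWithin] with τ' h1 h2
      refine h1.trans ?_
      rcases le_total τ τ' with h3 | h3
      · exact (dist_le_evar_sub g hτ.1 h3 (hfin _ h2.2)).trans (le_abs_self _)
      · rw [dist_comm, abs_sub_comm]
        exact (dist_le_evar_sub g h2.1 h3 (hfin _ hτ.2)).trans (le_abs_self _))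
  have h0 : (0 : ℝ) ≤ (eVariationOn g (Icc s s)).toReal := ENNReal.toReal_nonneg
  rw [edist_dist, ← ENNReal.ofReal_toReal hf]
  exact ENNReal.ofReal_le_ofReal (by linarith)

theorem local_of_pw {F : Type} [NormedAddCommGroup F] [InnerProductSpace ℝ F]
    [FiniteDimensional ℝ F]
    {V : Set F} (hV : IsOpen V) {f : F → F} {L : ℝ} (hi : InjOn f V)
    (h : ∀ z ∈ V, ∀ᶠ z' in 𝓝 z,
      dist z' z ≤ dist (f z') (f z) ∧ dist (f z') (f z) ≤ L * dist z' z) :
    IsEmbedding (V.domRestrict f) ∧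
      (∀ x ∈ V, ∃ r > 0, ∀ y ∈ Metric.ball x r, ∀ z ∈ Metric.ball x r,
        dist y z ≤ dist (f y) (f z) ∧ dist (f y) (f z) ≤ L * dist y z) ∧
      ∀ (γ : ℝ → F) (a b : ℝ), ContinuousOn γ (Icc a b) → MapsTo γ (Icc a b) V →
        eVariationOn γ (Icc a b) ≤ eVariationOn (f ∘ γ) (Icc a b) := by
  have hca : ∀ z ∈ V, ContinuousAt f z := by
    intro z hz
    rw [ContinuousAt, tendsto_iff_dist_tendsto_zero]
    have h1 : Tendsto (fun z' => L * dist z' z) (𝓝 z) (𝓝 (L * dist z z)) :=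
      Continuous.tendsto (by fun_prop) z
    rw [dist_self, mul_zero] at h1
    exact squeeze_zero' (Eventually.of_forall fun _ => dist_nonneg)
      ((h z hz).mono fun _ hz' => hz'.2) h1
  have hc : ContinuousOn f V := fun z hz => (hca z hz).continuousWithinAt
  have hop : ∀ U, IsOpen U → U ⊆ V → IsOpen (f '' U) := fun U hU hUV =>
    inv_domain hU (hc.mono hUV) (hi.mono hUV)
  refine ⟨?_, ?_, ?_⟩
  · refine (IsOpenEmbedding.of_continuous_injective_isOpenMap
      (continuousOn_iff_continuous_domRestrict.1 hc)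
      (fun x y hxy => Subtype.ext (hi x.2 y.2 hxy)) (fun U hU => ?_)).isEmbedding
    have e : V.domRestrict f '' U = f '' (Subtype.val '' U) := by
      rw [image_image]; rfl
    rw [e]
    exact hop _ (hV.isOpenMap_subtype_val U hU) (by rintro _ ⟨x, -, rfl⟩; exact x.2)
  · intro x hx
    rcases lt_or_ge L 0 with hL | hL
    · obtain ⟨r, hr, hrb⟩ := Metric.eventually_nhds_iff_ball.1 (h x hx)
      have hxx : ∀ y ∈ Metric.ball x r, y = x := by
        intro y hy
        have h1 := hrb y hy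
        have h2 : dist y x ≤ L * dist y x := h1.1.trans h1.2
        have h3 : 0 ≤ dist y x := dist_nonneg
        exact dist_le_zero.1 (by nlinarith)
      refine ⟨r, hr, fun y hy z hz => ?_⟩
      rw [hxx y hy, hxx z hz]
      simp
    · have hg : ∀ z ∈ V, Function.invFunOn f V (f z) = z := fun z hz => hi.leftInvOn_invFunOn hz
      obtain ⟨ρ, hρ, hρW⟩ := Metric.isOpen_iff.1 (hop V hV subset_rfl) (f x) ⟨x, hx, rfl⟩
      have hlow := lip_of_pw (convex_ball (f x) ρ) (f := Function.invFunOn f V) (K := 1)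
        zero_le_one (by
        intro w hw
        obtain ⟨z, hz, rfl⟩ := hρW hw
        obtain ⟨U, hU1, hU2, hU3⟩ := eventually_nhds_iff.1 ((h z hz).and (hV.mem_nhds hz))
        have hUV : U ⊆ V := fun u hu => (hU1 u hu).2
        refine Eventually.filter_mono nhdsWithin_le_nhds ?_
        filter_upwards [(hop U hU2 hUV).mem_nhds ⟨z, hU3, rfl⟩]
        rintro _ ⟨u, hu, rfl⟩
        rw [hg u (hUV hu), hg z hz, one_mul]
        exact (hU1 u hu).1.1)
      obtain ⟨r, hr, hrb⟩ := Metric.eventually_nhds_iff_ball.1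
        ((hV.eventually_mem hx).and ((hca x hx).eventually (Metric.ball_mem_nhds (f x) hρ)))
      have hup := lip_of_pw (convex_ball x r) (f := f) hL (fun z hz =>
        ((h z (hrb z hz).1).mono fun _ hz' => hz'.2).filter_mono nhdsWithin_le_nhds)
      refine ⟨r, hr, fun y hy z hz => ⟨?_, hup y hy z hz⟩⟩
      have := hlow (f y) (hrb y hy).2 (f z) (hrb z hz).2
      rwa [hg y (hrb y hy).1, hg z (hrb z hz).1, one_mul] at this
  · intro γ a b hγ hm
    refine iSup_le ?_
    rintro ⟨n, u, hu, hus⟩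
    calc ∑ i ∈ Finset.range n, edist (γ (u (i + 1))) (γ (u i))
        ≤ ∑ i ∈ Finset.range n, eVariationOn (f ∘ γ) (Icc (u i) (u (i + 1))) := by
          refine Finset.sum_le_sum fun i _ => edist_le_evar (hu (Nat.le_succ i)) fun τ hτ => ?_
          have hsub : Icc (u i) (u (i + 1)) ⊆ Icc a b := Icc_subset_Icc (hus i).1 (hus (i + 1)).2
          have h1 := ((hγ.mono hsub) τ hτ).tendsto.eventually (h (γ τ) (hm (hsub hτ)))
          exact h1.mono fun _ h2 => h2.1
      _ = eVariationOn (f ∘ γ) (Icc (u 0) (u n)) := eVariationOn.sum' _ hu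
      _ ≤ _ := eVariationOn.mono _ (Icc_subset_Icc (hus 0).1 (hus n).2)

end Pool.Agent.Lib.MP_ecd4e3_gt
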