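import Pool.Agent.Lib.MP_ecd4e3_gt.Plane
import Pool.Agent.Lib.MP_ecd4e3_gt.Local

/-! Transfer to the Euclidean plane. -/

namespace Pool.Agent.Lib.MP_ecd4e3_gt

open Set Filter Topology MeasureTheory

/-- Coordinates. -/
def toP (x : EuclideanSpace ℝ (Fin 2)) : P := (x 0, x 1)

/-- Inverse coordinates. -/
noncomputable def ofP (p : P) : EuclideanSpace ℝ (Fin 2) := !₂[p.1, p.2]

theorem toP_ofP (p : P) : toP (ofP p) = p := by simp [toP, ofP]

theorem ofP_toP (x : EuclideanSpace ℝ (Fin 2)) : ofP (toP x) = x := by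
  ext i; fin_cases i <;> simp [toP, ofP]

theorem dist_toP (x y : EuclideanSpace ℝ (Fin 2)) :
    dist (toP x) (toP y) ≤ dist x y ∧ dist x y ≤ 2 * dist (toP x) (toP y) := by
  have h := EuclideanSpace.dist_eq x y
  rw [Fin.sum_univ_two] at h
  have m1 : dist (x 0) (y 0) ≤ dist (toP x) (toP y) := le_max_left _ _
  have m2 : dist (x 1) (y 1) ≤ dist (toP x) (toP y) := le_max_right _ _
  have p1 : 0 ≤ dist (x 0) (y 0) := dist_nonneg
  have p2 : 0 ≤ dist (x 1) (y 1) := dist_nonneg
  constructor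
  · rw [h]
    refine max_le (Real.le_sqrt_of_sq_le ?_) (Real.le_sqrt_of_sq_le ?_)
    · change dist (x 0) (y 0) ^ 2 ≤ _
      nlinarith
    · change dist (x 1) (y 1) ^ 2 ≤ _
      nlinarith
  · rw [h]
    refine Real.sqrt_le_iff.mpr ⟨by positivity, ?_⟩
    nlinarith

theorem continuous_toP : Continuous toP := by unfold toP; fun_prop

theorem volume_toP {K : Set (EuclideanSpace ℝ (Fin 2))} (hK : IsCompact K) :
    volume (toP '' K) = volume K := by
  have h : MeasurePreserving toP volume volume :=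
    (volume_preserving_finTwoArrow ℝ).comp (PiLp.volume_preserving_ofLp (Fin 2))
  have inj : Function.Injective toP := fun x y e => by rw [← ofP_toP x, e, ofP_toP]
  rw [← h.measure_preimage (hK.image continuous_toP).measurableSet.nullMeasurableSet,
    preimage_image_eq _ inj]

theorem euclid_small : ∃ ε : ℝ, 0 < ε ∧ ∀ K : Set (EuclideanSpace ℝ (Fin 2)), IsCompact K →
    volume K ≤ ENNReal.ofReal ε →
    ∃ (f : EuclideanSpace ℝ (Fin 2) → EuclideanSpace ℝ (Fin 2)) (L : ℝ), InjOn f K ∧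
      MapsTo f K (Metric.closedBall 0 1) ∧ ∀ z ∈ K, ∀ᶠ z' in 𝓝 z,
        dist z' z ≤ dist (f z') (f z) ∧ dist (f z') (f z) ≤ L * dist z' z := by
  obtain ⟨C, hC, h⟩ := plane_small
  refine ⟨(1 / (4 * C)) ^ 2, by positivity, fun K hK hv => ?_⟩
  obtain ⟨g, L, g1, g2, g3⟩ := h (toP '' K) ((1 / (4 * C)) ^ 2) (hK.image continuous_toP)
    (by positivity)
    (by rw [volume_toP hK]; exact hv)
  rw [Real.sqrt_sq (by positivity)] at g2
  have ds : ∀ p q : P, dist ((2 : ℝ) • p) ((2 : ℝ) • q) = 2 * dist p q := fun p q => by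
    rw [dist_smul₀, Real.norm_eq_abs, abs_of_pos (by positivity)]
  have dd : ∀ p q : P, dist p q ≤ dist (ofP p) (ofP q) ∧ dist (ofP p) (ofP q) ≤ 2 * dist p q := by
    intro p q
    have := dist_toP (ofP p) (ofP q)
    rwa [toP_ofP, toP_ofP] at this
  refine ⟨fun x => ofP ((2 : ℝ) • g (toP x)), 4 * |L|, ?_, ?_, ?_⟩
  · intro x hx y hy e
    have e1 := congrArg toP e
    rw [toP_ofP, toP_ofP] at e1
    have e2 := g1 (mem_image_of_mem _ hx) (mem_image_of_mem _ hy)
      (smul_right_injective P (by norm_num) e1)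
    rw [← ofP_toP x, e2, ofP_toP]
  · intro x hx
    have a1 := g2 _ (mem_image_of_mem _ hx)
    have a2 := (dd ((2 : ℝ) • g (toP x)) ((2 : ℝ) • 0)).2
    have a3 : ofP ((2 : ℝ) • 0) = 0 := by ext i; fin_cases i <;> simp [ofP]
    rw [a3, ds, dist_zero_right (g (toP x))] at a2
    have a4 : C * (1 / (4 * C)) = 1 / 4 := by field_simp
    rw [Metric.mem_closedBall]
    linarith
  · intro x hx
    filter_upwards [continuous_toP.continuousAt.eventually (g3 _ (mem_image_of_mem _ hx))]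
      with y hy
    obtain ⟨a1, a2⟩ := dd ((2 : ℝ) • g (toP y)) ((2 : ℝ) • g (toP x))
    obtain ⟨b1, b2⟩ := dist_toP y x
    rw [ds] at a1 a2
    refine ⟨by linarith [hy.1], ?_⟩
    have c1 := mul_le_mul_of_nonneg_right (le_abs_self L) (dist_nonneg (x := toP y) (y := toP x))
    have c2 := mul_le_mul_of_nonneg_left b1 (abs_nonneg L)
    linarith [hy.2]

end Pool.Agent.Lib.MP_ecd4e3_gt
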