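import Pool.Agent.Lib.MP_ecd4e3_gt.Ring
import Pool.Agent.Lib.MP_ecd4e3_gt.Eqv
import Pool.Agent.Lib.MP_ecd4e3_gt.Area

/-! The frame lemma, the twist lemma and the terminal lemma. -/

namespace Pool.Agent.Lib.MP_ecd4e3_gt

open Set Filter Topology

namespace FrameA

theorem cl_cases {a b : ℝ} (h : a ≤ b) (x : ℝ) :
    (x ≤ a ∧ cl a b x = a) ∨ (a ≤ x ∧ x ≤ b ∧ cl a b x = x) ∨ (b ≤ x ∧ cl a b x = b) := by
  unfold cl
  rcases le_total x a with h1 | h1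
  · exact Or.inl ⟨h1, max_eq_left ((min_le_right _ _).trans h1)⟩
  rcases le_total x b with h2 | h2
  · exact Or.inr (Or.inl ⟨h1, h2, by rw [min_eq_right h2, max_eq_right h1]⟩)
  · exact Or.inr (Or.inr ⟨h2, by rw [min_eq_left h2, max_eq_right h]⟩)

theorem cl_lo {a b x : ℝ} (h : x ≤ a) : cl a b x = a := max_eq_left ((min_le_right _ _).trans h)

theorem cl_mid {a b x : ℝ} (h : a ≤ x) (h' : x ≤ b) : cl a b x = x := by
  rw [cl, min_eq_right h', max_eq_right h]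

theorem cl_hi {a b x : ℝ} (h : a ≤ b) (h' : b ≤ x) : cl a b x = b := by
  rw [cl, min_eq_left h', max_eq_right h]

theorem cl_lip (a b x y : ℝ) : |cl a b x - cl a b y| ≤ |x - y| :=
  (abs_max_sub_max_le_max _ _ _ _).trans (max_le (by simp)
    ((abs_min_sub_min_le_max _ _ _ _).trans (max_le (by simp) le_rfl)))

theorem cl_mem (x : ℝ) : 0 ≤ cl 0 1 x ∧ cl 0 1 x ≤ 1 :=
  ⟨le_max_left _ _, max_le zero_le_one (min_le_left _ _)⟩

variable {z : ℝ}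

theorem cl_xi (hz : z ≤ 1) {s : ℝ} (hs : -1 ≤ s) (x : ℝ) :
    cl (z - 1) (1 - z) (xi z s x) = cl (z - 1) (1 - z) x := by
  have h : z - 1 ≤ 1 - z := by linarith
  rcases cl_cases h x with ⟨h1, h2⟩ | ⟨h1, h1', h2⟩ | ⟨h1, h2⟩ <;> rw [xi, h2]
  · exact cl_lo (by nlinarith)
  · rw [sub_self, mul_zero, add_zero, h2]
  · exact cl_hi h (by nlinarith)

theorem xi_abs (_ : 0 ≤ z) (hz : z ≤ 1) {s x d : ℝ} (hs : -1 ≤ s) (hd : 0 ≤ d)
    (hx : |x| ≤ 1 - z + d) : |xi z s x| ≤ 1 - z + (1 + s) / 2 * d := by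
  have h : z - 1 ≤ 1 - z := by linarith
  obtain ⟨h3, h4⟩ := abs_le.1 hx
  rcases cl_cases h x with ⟨h1, h2⟩ | ⟨h1, h1', h2⟩ | ⟨h1, h2⟩ <;> rw [xi, h2, abs_le] <;>
    constructor <;> nlinarith

theorem xi_one (x : ℝ) : xi z 1 x = x := by
  rw [xi]
  ring

theorem xi_inv (hz : z ≤ 1) (x : ℝ) : xi z (1 / 2) (xi z (5 / 3) x) = x := by
  rw [xi, cl_xi hz (by norm_num), xi]
  ring

theorem cl_cl (h0 : 0 ≤ z) (hz : z ≤ 1) (x : ℝ) :
    cl (z - 1) (1 - z) (cl (z / 4 - 1) (1 - z / 4) x) = cl (z - 1) (1 - z) x := by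
  have h : z / 4 - 1 ≤ 1 - z / 4 := by linarith
  rcases cl_cases h x with ⟨h1, h2⟩ | ⟨h1, h1', h2⟩ | ⟨h1, h2⟩ <;> rw [h2]
  · rw [cl_lo (by linarith), cl_lo (by linarith)]
  · rw [cl_hi (by linarith) (by linarith), cl_hi (by linarith) (by linarith)]

theorem abs_cl (hz : z ≤ 1) (x : ℝ) : |cl (z / 4 - 1) (1 - z / 4) x| ≤ 1 - z / 4 := by
  have h : z / 4 - 1 ≤ 1 - z / 4 := by linarith
  rcases cl_cases h x with ⟨h1, h2⟩ | ⟨h1, h1', h2⟩ | ⟨h1, h2⟩ <;> rw [h2, abs_le] <;>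
    constructor <;> linarith

theorem xi_end (h0 : 0 ≤ z) (hz : z ≤ 1) {x : ℝ} (hx : 1 - z / 4 ≤ |x|) :
    |xi z (5 / 3) (cl (z / 4 - 1) (1 - z / 4) x)| = 1 := by
  rcases le_abs.1 hx with h | h
  · rw [cl_hi (by linarith) h, xi, cl_hi (by linarith) (by linarith), abs_eq zero_le_one]
    left
    ring
  · rw [cl_lo (by linarith), xi, cl_lo (by linarith), abs_eq zero_le_one]
    right
    ring

theorem X2_mem (h0 : 0 ≤ z) (hz : z ≤ 1) {s : ℝ} (hs : s ∈ Icc (0 : ℝ) 1) {p : P} (hp : p ∈ sq) :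
    X2 z s p ∈ sq := by
  have h : ∀ x : ℝ, |x| ≤ 1 → |xi z s x| ≤ 1 := fun x hx =>
    (xi_abs h0 hz (by linarith [hs.1]) h0 (by linarith)).trans (by nlinarith [hs.2])
  exact ⟨h _ hp.1, h _ hp.2⟩

theorem X2_one (p : P) : X2 z 1 p = p := by
  rw [X2, xi_one, xi_one]

/-- A fibred chart is unchanged by the product compression. -/
theorem fib_X2 {Λ : P → P} (hf : Fib Λ) : ∃ z : ℝ, 0 < z ∧ z ≤ 1 / 2 ∧
    ∀ s ∈ Icc (0 : ℝ) 1, ∀ p ∈ sq, Λ (X2 z s p) = Λ p := by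
  obtain ⟨z, h0, h1, h⟩ := hf
  refine ⟨z, h0, h1, fun s hs p hp => ?_⟩
  rw [h _ (X2_mem h0.le (by linarith) hs hp), h p hp, X2, cl_xi (by linarith) (by linarith [hs.1]),
    cl_xi (by linarith) (by linarith [hs.1])]

/-- The straightening of the collar fixes the boundary. -/
theorem exists_hz' {z : ℝ} (hz : 0 < z) (hz' : z ≤ 1 / 2) :
    ∃ H G, Hm H G ∧ (∀ t, G (Γ t) = Γ t) ∧
      (∀ t, ∀ s ∈ Icc (0 : ℝ) 1, H (((1 + s) / 2) • Γ t) = X2 z s (Γ t)) ∧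
      ∀ p ∈ sq, H ((1 / 2 : ℝ) • p) = X2 z 0 p := by
  obtain ⟨H, G, h1, h2, h3⟩ := exists_hz hz hz'
  refine ⟨H, G, h1, fun t => ?_, h2, h3⟩
  have := h2 t 1 ⟨zero_le_one, le_rfl⟩
  rw [X2_one, add_self_div_two, one_smul] at this
  rw [← this, h1.gh _ (Γ_mem t), this]

/-- Interpolation between two increasing functions. -/
theorem interp {a b c : ℝ → ℝ} {θ L D M : ℝ}
    (ha : ∀ t t', t ≤ t' → θ * (t' - t) ≤ a t' - a t ∧ a t' - a t ≤ L * (t' - t))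
    (hb : ∀ t t', t ≤ t' → θ * (t' - t) ≤ b t' - b t ∧ b t' - b t ≤ L * (t' - t))
    (hθ : 0 ≤ θ) (hD : ∀ t, |b t - a t| ≤ D) (hc : ∀ s, 0 ≤ c s ∧ c s ≤ 1)
    (hM : ∀ s s', |c s - c s'| ≤ M * |s - s'|) {F : P → ℝ}
    (hF : ∀ p, F p = a p.1 + c p.2 * (b p.1 - a p.1)) :
    (∀ p q, |F p - F q| ≤ L * |p.1 - q.1| + D * M * |p.2 - q.2|) ∧
      ∀ t t' s, t ≤ t' → θ * (t' - t) ≤ F (t', s) - F (t, s) := by
  have key : ∀ t t' s, t ≤ t' →
      θ * (t' - t) ≤ F (t', s) - F (t, s) ∧ F (t', s) - F (t, s) ≤ L * (t' - t) := by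
    intro t t' s h
    obtain ⟨h1, h2⟩ := ha t t' h
    obtain ⟨h3, h4⟩ := hb t t' h
    obtain ⟨h5, h6⟩ := hc s
    simp only [hF]
    constructor <;> nlinarith
  refine ⟨fun p q => ?_, fun t t' s h => (key t t' s h).1⟩
  have h1 : |F (p.1, p.2) - F (q.1, p.2)| ≤ L * |p.1 - q.1| := by
    rcases le_total p.1 q.1 with h | h
    · obtain ⟨h1, h2⟩ := key _ _ p.2 h
      rw [abs_sub_comm, abs_sub_comm p.1, abs_of_nonneg (sub_nonneg.2 h),
        abs_of_nonneg (le_trans (mul_nonneg hθ (sub_nonneg.2 h)) h1)]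
      exact h2
    · obtain ⟨h1, h2⟩ := key _ _ p.2 h
      rw [abs_of_nonneg (sub_nonneg.2 h),
        abs_of_nonneg (le_trans (mul_nonneg hθ (sub_nonneg.2 h)) h1)]
      exact h2
  have h2 : |F (q.1, p.2) - F q| ≤ D * M * |p.2 - q.2| := by
    rw [show F (q.1, p.2) - F q = (b q.1 - a q.1) * (c p.2 - c q.2) by simp only [hF]; ring,
      abs_mul, mul_assoc]
    exact mul_le_mul (hD _) (hM _ _) (abs_nonneg _) ((abs_nonneg _).trans (hD 0))
  exact (abs_sub_le _ (F (q.1, p.2)) _).trans (add_le_add h1 h2)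

theorem lip_of_sum {F : P → ℝ} {L M : ℝ}
    (h : ∀ p q, |F p - F q| ≤ L * |p.1 - q.1| + M * |p.2 - q.2|) (p q : P) :
    |F p - F q| ≤ (|L| + |M|) * dist p q := by
  have h1 : |p.1 - q.1| ≤ dist p q := le_max_left _ _
  have h2 : |p.2 - q.2| ≤ dist p q := le_max_right _ _
  refine (h p q).trans ?_
  rw [add_mul]
  exact add_le_add (mul_le_mul (le_abs_self _) h1 (abs_nonneg _) (abs_nonneg _))
    (mul_le_mul (le_abs_self _) h2 (abs_nonneg _) (abs_nonneg _))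

/-- Two lifts stay at bounded distance. -/
theorem lift_le {σ σ' : ℝ → ℝ} (h : IsLift σ) (h' : IsLift σ') (t : ℝ) :
    σ t - σ' t ≤ σ 0 - σ' 0 + 4 := by
  have h1 := Int.floor_le (t / 4)
  have h2 := Int.lt_floor_add_one (t / 4)
  have h3 := h.strictMono.monotone (show t ≤ 0 + 4 * ((⌊t / 4⌋ + 1 : ℤ) : ℝ) by
    push_cast; linarith)
  have h4 := h'.strictMono.monotone (show 0 + 4 * (⌊t / 4⌋ : ℝ) ≤ t by linarith)
  rw [h.add_int] at h3
  rw [h'.add_int] at h4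
  push_cast at h3
  linarith

theorem near_end (hz : z ≤ 1 / 2) {x x' : ℝ} (hx : |x| ≤ 1) (hx' : |x'| ≤ 1)
    (h : cl (z - 1) (1 - z) x = cl (z - 1) (1 - z) x') (h0 : 0 ≤ z) (hn : x ≠ x' ∨ |x| = 1) :
    ∃ ε : ℝ, (ε = 1 ∨ ε = -1) ∧ |x - ε| ≤ z ∧ |x' - ε| ≤ z := by
  have h1 : z - 1 ≤ 1 - z := by linarith
  obtain ⟨h3, h4⟩ := abs_le.1 hx
  obtain ⟨h5, h6⟩ := abs_le.1 hx'
  have hn' : x < x' ∨ x' < x ∨ x = 1 ∨ x = -1 := by
    rcases hn with hn | hn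
    · rcases lt_or_gt_of_ne hn with hn | hn <;> simp [hn]
    · rcases (abs_eq zero_le_one).1 hn with hn | hn <;> simp [hn]
  by_cases hp : 0 ≤ x
  · refine ⟨1, Or.inl rfl, ?_⟩
    simp only [abs_le]
    rcases cl_cases h1 x with ⟨a1, a2⟩ | ⟨a1, a1', a2⟩ | ⟨a1, a2⟩ <;>
      rcases cl_cases h1 x' with ⟨b1, b2⟩ | ⟨b1, b1', b2⟩ | ⟨b1, b2⟩ <;> rw [a2, b2] at h <;>
      rcases hn' with hn | hn | hn | hn <;> refine ⟨⟨?_, ?_⟩, ?_, ?_⟩ <;> linarith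
  · refine ⟨-1, Or.inr rfl, ?_⟩
    simp only [abs_le]
    rcases cl_cases h1 x with ⟨a1, a2⟩ | ⟨a1, a1', a2⟩ | ⟨a1, a2⟩ <;>
      rcases cl_cases h1 x' with ⟨b1, b2⟩ | ⟨b1, b1', b2⟩ | ⟨b1, b2⟩ <;> rw [a2, b2] at h <;>
      rcases hn' with hn | hn | hn | hn <;> refine ⟨⟨?_, ?_⟩, ?_, ?_⟩ <;> linarith

/-- Boundary points with the same clamp coincide or lie near the same corner. -/
theorem near_corner (h0 : 0 ≤ z) (hz : z ≤ 1 / 2) {w w' : P} (hw : ‖w‖ = 1) (hw' : ‖w'‖ = 1)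
    (h1 : cl (z - 1) (1 - z) w.1 = cl (z - 1) (1 - z) w'.1)
    (h2 : cl (z - 1) (1 - z) w.2 = cl (z - 1) (1 - z) w'.2) (hn : w ≠ w') :
    ∃ x ∈ ({1, 2, 3, 4} : Set ℝ), dist w (Γ x) ≤ z ∧ dist w' (Γ x) ≤ z := by
  obtain ⟨a1, a2⟩ := mem_sq.2 hw.le
  obtain ⟨b1, b2⟩ := mem_sq.2 hw'.le
  have key : ∀ x x' y : ℝ, max |x| |y| = 1 → max |x'| |y| = 1 → x ≠ x' →
      cl (z - 1) (1 - z) x = cl (z - 1) (1 - z) x' → |y| = 1 := by
    intro x x' y k1 k2 k3 k4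
    by_contra k5
    have k6 : |x| = 1 := (max_eq_iff.1 k1).elim And.left fun k => absurd k.1 k5
    have k7 : |x'| = 1 := (max_eq_iff.1 k2).elim And.left fun k => absurd k.1 k5
    obtain ⟨ε, -, k8, k9⟩ := near_end hz k6.le k7.le k4 h0 (Or.inl k3)
    rw [abs_le] at k8 k9
    rcases (abs_eq zero_le_one).1 k6 with k6 | k6 <;>
      rcases (abs_eq zero_le_one).1 k7 with k7 | k7
    · exact k3 (k6.trans k7.symm)
    · linarith [k8.2, k9.1]
    · linarith [k8.1, k9.2]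
    · exact k3 (k6.trans k7.symm)
  have n1 : max |w.1| |w.2| = 1 := hw
  have n2 : max |w'.1| |w'.2| = 1 := hw'
  have c1 : w.1 ≠ w'.1 ∨ |w.1| = 1 := by
    by_cases e : w.1 = w'.1
    · exact Or.inr (key w.2 w'.2 w.1 (by rwa [max_comm]) (by rwa [max_comm, e])
        (fun e' => hn (Prod.ext e e')) h2)
    · exact Or.inl e
  have c2 : w.2 ≠ w'.2 ∨ |w.2| = 1 := by
    by_cases e : w.2 = w'.2
    · exact Or.inr (key w.1 w'.1 w.2 n1 (by rwa [e]) (fun e' => hn (Prod.ext e' e)) h1)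
    · exact Or.inl e
  obtain ⟨ε, e1, e2, e3⟩ := near_end hz a1 b1 h1 h0 c1
  obtain ⟨δ, d1, d2, d3⟩ := near_end hz a2 b2 h2 h0 c2
  obtain ⟨g1, g2, g3, g4⟩ := Γ_eval (u := 1) ⟨by norm_num, le_rfl⟩
  norm_num at g1 g2 g3 g4
  have : ∃ x ∈ ({1, 2, 3, 4} : Set ℝ), Γ x = (ε, δ) := by
    rcases e1 with rfl | rfl <;> rcases d1 with rfl | rfl
    exacts [⟨2, by simp, g2⟩, ⟨1, by simp, g1⟩, ⟨3, by simp, g3⟩, ⟨4, by simp, g4⟩]
  obtain ⟨x, hx, e⟩ := this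
  exact ⟨x, hx, by rw [e]; exact max_le e2 d2, by rw [e]; exact max_le e3 d3⟩

/-- A chart that is radially constant near the boundary and constant near the corners of the
boundary loop becomes fibred. -/
theorem fib_of_radial {N : P → P} (hr : ∀ t, ∀ r ∈ Icc (3 / 4 : ℝ) 1, N (r • Γ t) = N (Γ t))
    (hc : ∀ x ∈ ({1, 2, 3, 4} : Set ℝ), ∀ᶠ t in 𝓝 x, N (Γ t) = N (Γ x)) :
    ∃ H G, Hm H G ∧ (∀ t, G (Γ t) = Γ t) ∧ Fib fun p => N (G p) := by
  have h1 : ∀ᶠ z in 𝓝 (0 : ℝ), ∀ x ∈ ({1, 2, 3, 4} : Set ℝ), ∀ w : P, ‖w‖ = 1 →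
      dist w (Γ x) ≤ z → N w = N (Γ x) := by
    refine (eventually_all_finite (toFinite _)).2 fun x hx => ?_
    obtain ⟨δ, h1, h2⟩ := Metric.eventually_nhds_iff.1 (hc x hx)
    filter_upwards [gt_mem_nhds (half_pos h1)] with z hz w hw hd
    obtain ⟨t, ht, rfl⟩ := exists_Γ hw (x - 2)
    have := Γ_low (t := t) (t' := x) (abs_le.2 ⟨by linarith [ht.1], by linarith [ht.2]⟩)
    exact h2 (by rw [Real.dist_eq]; linarith)
  obtain ⟨z, ⟨h2, hz⟩, h0⟩ := (((h1.and (ge_mem_nhds (show (0 : ℝ) < 1 / 2 by norm_num))).filter_mono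
    nhdsWithin_le_nhds).and (self_mem_nhdsWithin (s := Ioi 0))).exists
  replace h0 : 0 < z := h0
  have hz1 : z ≤ 1 := by linarith
  obtain ⟨H, G, hm, hG, hH, hH0⟩ := exists_hz' h0 hz
  refine ⟨H, G, hm, hG, z / 4, by positivity, by linarith, fun p hp => ?_⟩
  by_cases hs : |p.1| ≤ 1 - z / 4 ∧ |p.2| ≤ 1 - z / 4
  · obtain ⟨a1, a2⟩ := abs_le.1 hs.1
    obtain ⟨a3, a4⟩ := abs_le.1 hs.2
    rw [cl_mid (by linarith) a2, cl_mid (by linarith) a4]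
  have hq := mem_sq.1 (hm.mg hp)
  have bd : ∀ s w, w ∈ sq → 0 ≤ s → s ≤ 1 / 2 → p ≠ X2 z s w := by
    rintro s w hw s0 s1 rfl
    have h : ∀ x : ℝ, |x| ≤ 1 → |xi z s x| ≤ 1 - z / 4 := fun x hx =>
      (xi_abs h0.le hz1 (by linarith) h0.le (by linarith)).trans (by nlinarith)
    exact hs ⟨h _ hw.1, h _ hw.2⟩
  have hq1 : 1 / 2 < ‖G p‖ := by
    by_contra! hq1
    have hw : (2 : ℝ) • G p ∈ sq := mem_sq.2 (by rw [norm_smul, Real.norm_two]; linarith)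
    refine bd 0 _ hw le_rfl (by norm_num) ?_
    rw [← hH0 _ hw, smul_smul, one_div, inv_mul_cancel₀ two_ne_zero, one_smul, hm.hg p hp]
  obtain ⟨t, -, ht⟩ := exists_Γ (p := ‖G p‖⁻¹ • G p)
    (by rw [norm_smul, norm_inv, norm_norm, inv_mul_cancel₀ (by linarith)]) 0
  replace ht : G p = ‖G p‖ • Γ t := by rw [ht, smul_inv_smul₀ (by linarith)]
  have e : p = X2 z (2 * ‖G p‖ - 1) (Γ t) := by
    rw [← hH t _ ⟨by linarith, by linarith⟩, show (1 + (2 * ‖G p‖ - 1)) / 2 = ‖G p‖ by ring, ← ht,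
      hm.hg p hp]
  have hq2 : 3 / 4 ≤ ‖G p‖ := by
    by_contra! hq2
    exact bd _ _ (Γ_mem t) (by linarith) (by linarith) e
  set p' : P := (cl (z / 4 - 1) (1 - z / 4) p.1, cl (z / 4 - 1) (1 - z / 4) p.2) with hp'
  have hw : ‖X2 z (5 / 3) p'‖ = 1 := by
    have h : ∀ x : ℝ, |xi z (5 / 3) (cl (z / 4 - 1) (1 - z / 4) x)| ≤ 1 := fun x =>
      (xi_abs (d := 3 / 4 * z) h0.le hz1 (by norm_num) (by positivity)
        ((abs_cl hz1 x).trans (by linarith))).trans (by linarith)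
    rcases not_and_or.1 hs with k | k
    · exact max_eq_iff.2 (Or.inl ⟨xi_end h0.le hz1 (not_le.1 k).le,
        (h _).trans (xi_end h0.le hz1 (not_le.1 k).le).ge⟩)
    · exact max_eq_iff.2 (Or.inr ⟨xi_end h0.le hz1 (not_le.1 k).le,
        (h _).trans (xi_end h0.le hz1 (not_le.1 k).le).ge⟩)
  obtain ⟨t', -, ht'⟩ := exists_Γ hw 0
  have e' : G p' = (3 / 4 : ℝ) • Γ t' := by
    have k := hH t' (1 / 2) ⟨by norm_num, by norm_num⟩
    rw [show ((1 + 1 / 2) / 2 : ℝ) = 3 / 4 by norm_num] at k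
    rw [← hm.gh ((3 / 4 : ℝ) • Γ t') (mem_sq.2 (by rw [norm_smul, norm_Γ]; norm_num)), k, ht', X2,
      X2, xi_inv hz1, xi_inv hz1]
  change N (G p) = N (G p')
  rw [ht, e', hr t _ ⟨hq2, hq⟩, hr t' _ ⟨le_rfl, by norm_num⟩]
  by_cases hn : Γ t = Γ t'
  · rw [hn]
  have c : ∀ x y : ℝ, x = xi z (2 * ‖G p‖ - 1) y → cl (z - 1) (1 - z) y =
      cl (z - 1) (1 - z) (xi z (5 / 3) (cl (z / 4 - 1) (1 - z / 4) x)) := fun x y k => by
    rw [cl_xi hz1 (by norm_num), cl_cl h0.le hz1, k, cl_xi hz1 (by linarith)]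
  obtain ⟨x, hx, d1, d2⟩ := near_corner h0.le hz (norm_Γ t) (norm_Γ t')
    (by rw [ht']; exact c _ _ (congrArg Prod.fst e)) (by rw [ht']; exact c _ _ (congrArg Prod.snd e))
    hn
  rw [h2 x hx _ (norm_Γ t) d1, h2 x hx _ (norm_Γ t') d2]

end FrameA

open FrameA

/-- A thin collar turns a solution for some admissible data into solutions for all data. -/
theorem frame {U : Set P} (hU : IsOpen U) {Λ : P → P} {R : Box} {τ : ℝ} (hR : R.Valid)
    (hf : Fib Λ) (hu : Up sq Λ) (ht : STr U Λ τ) (hτ : 0 < τ) (hs : 2000 * τ ≤ R.sz)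
    (h : EC U Λ (R.shr (1000 * τ))) : GC U Λ R := by
  intro σ hσ hA
  obtain ⟨s0, -, s5, -⟩ := hR.sz_bd
  have hF := hR.fan
  have hμ := hF.pos
  obtain ⟨e, he⟩ : ∃ e, e = 1000 * τ / R.sz := ⟨_, rfl⟩
  have e0 : 0 < e := by rw [he]; positivity
  have e1 : e ≤ 1 / 2 := by rw [he, div_le_iff₀ s0]; linarith
  have e2 : 25 * τ ≤ e * R.mu / 8 := by
    have : e * R.sz = 1000 * τ := by rw [he]; field_simp
    nlinarith
  have e3 : 0 < 1 - e := by linarith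
  rw [Box.shr, ← he] at h
  obtain ⟨σ', hσ', hA', hd, f0, hf0, hb0⟩ : ∃ σ', IsLift σ' ∧
      Adm U Λ (fun t => (R.hom (1 - e)).loop (σ' t)) ∧ |σ 0 - σ' 0| ≤ 4 ∧
      Sol U Λ (R.hom (1 - e)) σ' := by
    obtain ⟨σ', h1, h2, h3⟩ := h
    have hp : ∀ t (k : ℤ), (R.hom (1 - e)).loop (t + k * 4) = (R.hom (1 - e)).loop t :=
      fun t k => Function.Periodic.int_mul (Box.loop_add_four _) k t
    refine ⟨fun t => σ' t + ⌊(σ 0 - σ' 0) / 4⌋ * 4, (isLift_add _).comp h1,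
      by simpa only [hp] using h2, abs_le.2 ⟨?_, ?_⟩, by simpa only [Sol, hp] using h3⟩
    · linarith [Int.floor_le ((σ 0 - σ' 0) / 4)]
    · linarith [Int.lt_floor_add_one ((σ 0 - σ' 0) / 4)]
  rw [Box.hom_set _ e3] at hf0
  simp only [Box.hom_loop _ e3] at hb0
  obtain ⟨K, K0, hK⟩ := hu.lip convex_sq
  obtain ⟨T, tm, tl, td, tmin⟩ := exists_min hU (m := fun t => Λ (Γ t)) (K := K * 2) fun t t' =>
    (hK _ (Γ_mem _) _ (Γ_mem _)).trans
      (by rw [mul_assoc]; exact mul_le_mul_of_nonneg_left (Γ_lip t t') K0)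
  have tsh : ∀ c, (∀ t, Γ (t + c) = Γ t) → ∀ a b, a ≤ b → T b - T a ≤ T (b + c) - T (a + c) :=
    fun c hc a b hab => tmin a b (fun t => T (t + c)) hab
      ⟨fun _ _ _ _ h => tm (by linarith), fun t _ ht => by
        have := ((continuous_add_const c).tendsto t).eventually (td (t + c) (by rwa [hc]))
        simp only [hc] at this
        exact this.filter_mono nhdsWithin_le_nhds⟩
  have tper : ∀ t, T (t + 4) = T t + (T 4 - T 0) := by
    have h1 : ∀ a b, a ≤ b → T (b + 4) - T (a + 4) = T b - T a := fun a b hab => by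
      have := tsh (-4) (fun t => by rw [← Γ_add_four (t + -4)]; simp) (a + 4) (b + 4) (by linarith)
      simp only [add_neg_cancel_right] at this
      exact le_antisymm this (tsh 4 Γ_add_four a b hab)
    intro t
    rcases le_total 0 t with h | h
    · have := h1 _ _ h
      rw [zero_add] at this
      linarith
    · have := h1 _ _ h
      rw [zero_add] at this
      linarith
  have t4 : T 4 - T 0 ≤ 4 * τ := by
    obtain ⟨S, h1, h2⟩ := ht.loop.1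
    exact (tmin 0 4 S (by norm_num) h1).trans h2
  have tinc : ∀ ρ : ℝ → ℝ, IsLift ρ → ∀ β : ℝ → P, Adm U Λ β →
      (∀ t t', dist (β t) (β t') ≤ 25 * R.mu * |ρ t - ρ t'|) →
      ∀ a b, a ≤ b → T b - T a ≤ R.mu / 4000 * (ρ b - ρ a) := fun ρ h1 β h2 h3 a b hab => by
    rw [mul_sub]
    refine tmin a b (fun t => R.mu / 4000 * ρ t) hab ⟨fun _ _ _ _ h =>
      mul_le_mul_of_nonneg_left (h1.strictMono.monotone h) (by positivity), fun t _ ht => ?_⟩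
    refine ((h2 t ht).mono fun t' h => h.trans ?_).filter_mono nhdsWithin_le_nhds
    rw [← mul_sub, abs_mul, abs_of_pos (show 0 < R.mu / 4000 by positivity), lam]
    linarith [h3 t' t]
  have i1 := tinc σ hσ _ hA fun t t' => hF.lip _ _
  have i2 := tinc σ' hσ' _ hA' fun t t' => by
    rw [Box.hom_loop _ e3, Box.hom_loop _ e3, dist_add_left, dist_smul₀, dist_sub_right,
      Real.norm_of_nonneg e3.le]
    exact (mul_le_of_le_one_left dist_nonneg (by linarith)).trans (hF.lip _ _)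
  obtain ⟨θ1, K1, p1, q1⟩ := hσ.1
  obtain ⟨θ2, K2, p2, q2⟩ := hσ'.1
  obtain ⟨θ, θ0, θτ, θa, θb⟩ : ∃ θ, 0 < θ ∧ θ ≤ τ ∧ θ ≤ R.mu / 4000 * θ1 ∧ θ ≤ R.mu / 4000 * θ2 :=
    ⟨min τ (min (R.mu / 4000 * θ1) (R.mu / 4000 * θ2)), by positivity, min_le_left _ _,
      (min_le_right _ _).trans (min_le_left _ _), (min_le_right _ _).trans (min_le_right _ _)⟩
  obtain ⟨V, hV⟩ : ∃ V : ℝ → ℝ, ∀ t, V t = T t + θ * t := ⟨_, fun _ => rfl⟩
  have vi : IncOn V univ := ⟨θ, K * 2 + θ, θ0, fun t _ t' _ h => by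
    have := tm h
    have := tl _ _ h
    simp only [hV]
    constructor <;> linarith⟩
  have vm : Monotone V := monotoneOn_univ.1 vi.strictMonoOn.monotoneOn
  have vp : ∀ t, V (t + 4) = V t + (T 4 - T 0 + 4 * θ) := fun t => by
    rw [hV, hV, tper]
    ring
  have vinc : ∀ (ρ ρ' : ℝ → ℝ) (θ' K' : ℝ), IsLift ρ' → (∀ t, ρ (ρ' t) = t) →
      θ ≤ R.mu / 4000 * θ' → (∀ a b, a ≤ b → T b - T a ≤ R.mu / 4000 * (ρ b - ρ a)) →
      (∀ t ∈ univ, ∀ t' ∈ univ, t ≤ t' → θ' * (t' - t) ≤ ρ t' - ρ t ∧ ρ t' - ρ t ≤ K' * (t' - t)) →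
      ∃ η, 0 < η ∧ ∀ η' ≤ η, ∀ t t', t ≤ t' → η' * (t' - t) ≤ V (ρ' t') - V (ρ' t) ∧
        V (ρ' t') - V (ρ' t) ≤ R.mu / 2000 * (t' - t) := fun ρ ρ' θ' K' h1 h2 h3 h4 h5 => by
    obtain ⟨η, _, h6, h7⟩ := vi.comp h1.1 (mapsTo_univ _ _)
    refine ⟨η, h6, fun η' hη t t' h => ⟨le_trans (by nlinarith) (h7 t trivial t' trivial h).1, ?_⟩⟩
    have h8 := h1.strictMono.monotone h
    have h9 := h4 _ _ h8
    have h10 := mul_le_mul_of_nonneg_left (h5 _ trivial _ trivial h8).1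
      (show 0 ≤ R.mu / 4000 by positivity)
    have h11 := mul_le_mul_of_nonneg_right h3 (sub_nonneg.2 h8)
    rw [h2, h2] at h9 h10
    simp only [hV]
    linarith
  obtain ⟨u, hu, u1, u2⟩ := hσ.inv
  obtain ⟨u', hu', u1', u2'⟩ := hσ'.inv
  obtain ⟨η1, r1, v1⟩ := vinc σ u θ1 K1 hu u2 θa i1 q1
  obtain ⟨η2, r2, v2⟩ := vinc σ' u' θ2 K2 hu' u2' θb i2 q2
  have vd : ∀ ρ ρ' w w' : ℝ → ℝ, IsLift ρ → IsLift ρ' → ρ 0 - ρ' 0 ≤ 4 → (∀ t, ρ (w t) = t) →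
      (∀ t, ρ' (w' t) = t) → ∀ y, V (w' y) - V (w y) ≤ 16 * τ := fun ρ ρ' w w' a b c d d' y => by
    have h1 : w' y ≤ w y + 4 + 4 := b.strictMono.le_iff_le.1 (by
      have := lift_le a b (w y)
      rw [d] at this
      rw [d', b.2, b.2]
      linarith)
    have h2 := vm h1
    rw [vp, vp] at h2
    linarith
  obtain ⟨F, hFe⟩ : ∃ F : P → ℝ, ∀ p, F p = V (u' p.1) + cl 0 1 p.2 * (V (u p.1) - V (u' p.1)) :=
    ⟨_, fun _ => rfl⟩
  obtain ⟨l1, l2⟩ := interp (a := fun t => V (u' t)) (b := fun t => V (u t)) (c := cl 0 1)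
    (D := 16 * τ) (M := 1) (v2 _ (min_le_right η1 η2)) (v1 _ (min_le_left η1 η2)) (by positivity)
    (fun t => abs_le.2 ⟨by linarith [vd _ _ _ _ hσ hσ' (abs_le.1 hd).2 u2 u2' t],
      vd _ _ _ _ hσ' hσ (by linarith [(abs_le.1 hd).1]) u2' u2 t⟩)
    cl_mem (fun s s' => by rw [one_mul]; exact cl_lip _ _ _ _) hFe
  have l3 := lip_of_sum l1
  obtain ⟨ψ, K', -, -, l4, -, j1, j2⟩ := fib_inv l3 (by positivity) l2
  obtain ⟨W, wi, w1, -⟩ := vi.exists_inv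
  have upi : ∀ X : ℝ → ℝ, IncOn X univ → Up univ X := fun X ⟨a, b, h1, h2⟩ =>
    up_of_lip (K := b) fun x _ y _ => by
      rcases le_total x y with h | h
      · obtain ⟨h3, h4⟩ := h2 x trivial y trivial h
        rw [dist_comm, dist_comm x, Real.dist_eq, Real.dist_eq, abs_of_nonneg (sub_nonneg.2 h),
          abs_of_nonneg (le_trans (mul_nonneg h1.le (sub_nonneg.2 h)) h3)]
        exact h4
      · obtain ⟨h3, h4⟩ := h2 y trivial x trivial h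
        rw [Real.dist_eq, Real.dist_eq, abs_of_nonneg (sub_nonneg.2 h),
          abs_of_nonneg (le_trans (mul_nonneg h1.le (sub_nonneg.2 h)) h3)]
        exact h4
  have up1 : Up univ (Prod.fst : P → ℝ) :=
    up_of_lip (K := 1) fun _ _ _ _ => (le_max_left _ _).trans_eq (one_mul _).symm
  have up2 : Up univ (Prod.snd : P → ℝ) :=
    up_of_lip (K := 1) fun _ _ _ _ => (le_max_right _ _).trans_eq (one_mul _).symm
  have upa : Up univ fun p : P => (ψ (V p.1, p.2), p.2) :=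
    ((up_of_lip (S := univ) fun p _ q _ => l4 p q).comp
      (((upi V vi).comp up1 (mapsTo_univ _ _)).prodMk up2) (mapsTo_univ _ _)).prodMk up2
  have upb : Up univ fun p : P => (W (F p), p.2) :=
    ((upi W wi).comp (up_of_lip fun p _ q _ => l3 p q) (mapsTo_univ _ _)).prodMk up2
  have inv : ∀ p : P, (W (F (ψ (V p.1, p.2), p.2)), p.2) = p := fun p => by rw [j2, w1]
  obtain ⟨z, z0, z1, hz⟩ := fib_X2 hf
  obtain ⟨H, G, hm, hG, hH, hH0⟩ := exists_hz' z0 z1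
  have hΛ : ∀ t, ∀ s ∈ Icc (0 : ℝ) 1, Λ (H (((1 + s) / 2) • Γ t)) = Λ (Γ t) := fun t s hs => by
    rw [hH t s hs, hz s hs _ (Γ_mem t)]
  obtain ⟨f, g1, g2, -⟩ := ring_emb (Λ := fun p => Λ (H p)) hF e0 e1
    (hf0.congr fun p hp => by
      simp only [hH0 p hp, hz 0 ⟨le_rfl, zero_le_one⟩ p hp]) hσ'.surjective hb0
    (φ := fun p => ψ (V p.1, p.2)) (ϑ := Prod.snd) (upa.mono (subset_univ _))
    ((low_of_inv upb upa.continuousOn (mapsTo_univ _ _) fun p _ => inv p).mono (subset_univ _))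
    (fun p _ q _ h => by
      rw [← inv p, ← inv q]
      exact congrArg (fun p : P => (W (F p), p.2)) h)
    (fun t s => ⟨by
      rw [← j1 (ψ (V t, s) + 4) s]
      have := j2 (V t) s
      simp only [hFe, hu.2, hu'.2, vp] at this ⊢
      congr 2
      linear_combination -this, rfl⟩)
    (fun _ _ h => h)
    (fun t => ⟨by
      rw [← j1 (σ' t) 0, hFe, cl_lo le_rfl, u1']
      simp, rfl⟩)
    (fun _ => rfl)
    (fun t _ s hs hU => by
      rw [hΛ t s hs] at hU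
      filter_upwards [self_mem_nhdsWithin, ((continuous_fst.tendsto ((t, s) : P)).eventually
        (td t hU)).filter_mono nhdsWithin_le_nhds] with p hp h1
      rw [hΛ t s hs, hΛ _ _ hp.2]
      have h2 := l1 (ψ (V p.1, p.2), p.2) (ψ (V t, s), s)
      rw [j2, j2] at h2
      have h3 : |T p.1 - T t| ≤ |V p.1 - V t| := by
        rw [hV, hV]
        rcases le_total p.1 t with h | h
        · have := tm h
          rw [abs_of_nonpos (by linarith), abs_of_nonpos (by nlinarith)]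
          nlinarith
        · have := tm h
          rw [abs_of_nonneg (by linarith), abs_of_nonneg (by nlinarith)]
          nlinarith
      refine h1.trans (h3.trans (h2.trans (add_le_add ?_ ?_))) <;>
        exact mul_le_mul_of_nonneg_right (by linarith) (abs_nonneg _))
  refine ⟨_, g1.comp hm.symm fun p hp => by rw [hm.hg p hp], fun t => ?_⟩
  rw [hG, g2, ← j1 (σ t) 1, hFe, cl_hi zero_le_one le_rfl, u1]
  simp

/-- Every boundary lift sending corners to flat points is realised by a fibred chart. -/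
theorem twist {Λ : P → P} (hf : Fib Λ) {χ : ℝ → ℝ} (hχ : IsLift χ)
    (hc : ∀ x ∈ ({1, 2, 3, 4} : Set ℝ), ∀ᶠ t in 𝓝 (χ x), Λ (Γ t) = Λ (Γ (χ x))) :
    ∃ Λ', Fib Λ' ∧ Eqv Λ' Λ χ := by
  obtain ⟨z, h0, h1, hz⟩ := fib_X2 hf
  obtain ⟨H, G, hm, -, hH, -⟩ := exists_hz' h0 h1
  obtain ⟨θ, K, hθ, hi⟩ := hχ.1
  obtain ⟨F, hF⟩ : ∃ F : P → ℝ, ∀ p, F p = p.1 + cl 0 1 (4 * p.2 - 2) * (χ p.1 - p.1) :=
    ⟨_, fun _ => rfl⟩
  obtain ⟨l1, l2⟩ := interp (a := fun t => t) (b := χ) (c := fun s => cl 0 1 (4 * s - 2))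
    (θ := min θ 1) (L := max K 1) (D := |χ 0| + 4) (M := 4)
    (fun t t' h => ⟨by nlinarith [min_le_right θ 1], by nlinarith [le_max_right K 1]⟩)
    (fun t t' h => by
      obtain ⟨a, b⟩ := hi t trivial t' trivial h
      exact ⟨by nlinarith [min_le_left θ 1], by nlinarith [le_max_left K 1]⟩)
    (by positivity)
    (fun t => abs_le.2 ⟨by linarith [lift_le isLift_id hχ t, neg_abs_le (χ 0)],
      by linarith [lift_le hχ isLift_id t, le_abs_self (χ 0)]⟩)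
    (fun _ => cl_mem _)
    (fun s s' => (cl_lip _ _ _ _).trans (by
      rw [show 4 * s - 2 - (4 * s' - 2) = 4 * (s - s') by ring, abs_mul, Nat.abs_ofNat])) hF
  have l3 := lip_of_sum l1
  obtain ⟨ψ, K', -, -, l4, -, i1, i2⟩ := fib_inv l3 (by positivity) l2
  obtain ⟨k, k', hk, hk1, -⟩ := polar_hm (φ := F) (ψ := ψ)
    (fun p q => (l3 p q).trans (mul_le_mul_of_nonneg_right (le_max_left _ K') dist_nonneg))
    (fun p q => (l4 p q).trans (mul_le_mul_of_nonneg_right (le_max_right _ _) dist_nonneg))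
    (fun t s => by simp only [hF, hχ.2]; ring) i1 i2
    (fun t => by rw [hF, cl_lo (by norm_num)]; simp)
  have e : ∀ t, ∀ r ∈ Icc (3 / 4 : ℝ) 1, H (k (r • Γ t)) = X2 z (2 * r - 1) (Γ (χ t)) := by
    intro t r hr
    rw [hk1 t r ⟨by linarith [hr.1], hr.2⟩, hF, cl_hi zero_le_one (by linarith [hr.1]),
      ← hH _ _ ⟨by linarith [hr.1], by linarith [hr.2]⟩]
    congr 3 <;> ring
  have e1 : ∀ t, H (k (Γ t)) = Γ (χ t) := fun t => by
    have := e t 1 ⟨by norm_num, le_rfl⟩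
    rwa [one_smul, show (2 * 1 - 1 : ℝ) = 1 by norm_num, X2_one] at this
  obtain ⟨H', G', hm', hG', hfib⟩ := fib_of_radial (N := fun p => Λ (H (k p)))
    (fun t r hr => by
      rw [e t r hr, e1, hz _ ⟨by linarith [hr.1], by linarith [hr.2]⟩ _ (Γ_mem _)])
    (fun x hx => by
      simp only [e1]
      exact (hχ.continuous.tendsto x).eventually (hc x hx))
  exact ⟨_, hfib, _, _, (hm'.symm.comp hk).comp hm, fun _ _ => rfl, hχ, fun t => by
    rw [hG', e1]⟩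

theorem term_ec {U : Set P} {Λ : P → P} {R : Box} {K : ℝ} (hR : R.Valid) (hK0 : 0 ≤ K)
    (hK : 10 ^ 7 * K ≤ R.sz)
    (hΛ : ∀ p ∈ sq, Λ p ∈ U → ∀ᶠ p' in 𝓝[sq] p, dist (Λ p') (Λ p) ≤ K * dist p' p) :
    EC U Λ R := by
  have h1 := hR.sz_bd.2.2.1
  refine ⟨fun t => t, isLift_id, fun t ht => ?_, fan_emb hR.fan hK0 (by linarith) hΛ⟩
  have h2 : Tendsto Γ (𝓝 t) (𝓝[sq] Γ t) :=
    tendsto_nhdsWithin_iff.2 ⟨continuous_Γ.tendsto t, Eventually.of_forall Γ_mem⟩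
  filter_upwards [h2.eventually (hΛ _ (Γ_mem t) ht), Metric.closedBall_mem_nhds t two_pos]
    with t' h3 h4
  have h5 := hR.fan.low t' t h4
  have h6 := mul_le_mul_of_nonneg_left (Γ_lip t' t) hK0
  have h7 := abs_nonneg (t' - t)
  rw [lam]
  nlinarith

end Pool.Agent.Lib.MP_ecd4e3_gt
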