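import Pool.Agent.Lib.MP_ecd4e3_gt.Defs

/-! Marked cells and weights on a dyadic grid. -/

namespace Pool.Agent.Lib.MP_ecd4e3_gt

open Set

/-- Collapse of the quarter neighbourhoods of the integers. -/
noncomputable def pc (x : ℝ) : ℝ := ⌊x⌋ + cl 0 1 (2 * Int.fract x - 1 / 2)

/-- The closed unit cell with lower left corner `z`. -/
def uc (z : ℤ × ℤ) : Set P := Icc (z.1 : ℝ) (z.1 + 1) ×ˢ Icc (z.2 : ℝ) (z.2 + 1)

/-- The interior of the union of the marked cells. -/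
def uo (M : Finset (ℤ × ℤ)) : Set P := interior (⋃ z ∈ M, uc z)

/-- Cells of the dyadic square of side `2 ^ k` and index `(i, j)`. -/
noncomputable def dq (k : ℕ) (i j : ℤ) : Finset (ℤ × ℤ) :=
  Finset.Ico (2 ^ k * i) (2 ^ k * (i + 1)) ×ˢ Finset.Ico (2 ^ k * j) (2 ^ k * (j + 1))

/-- Weights dominating the marked cells and the traces on the sides of dyadic squares. -/
structure Wts (n : ℕ) (M : Finset (ℤ × ℤ)) (w : ℤ × ℤ → ℝ) : Prop where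
  pos : ∀ z, 0 < w z
  le : ∀ z, w z ≤ 1
  mark : ∀ z ∈ M, w z = 1
  tr : ∀ k ≤ n, ∀ i j : ℤ, dq k i j ⊆ dq n 0 0 → ∀ x : ℤ,
    ((x = 2 ^ k * i ∨ x = 2 ^ k * (i + 1) - 1) →
      (((dq k i j).filter fun z => z.1 = x ∧ z ∈ M).card : ℝ) ≤
        2 ^ k * ((∑ z ∈ dq k i j, w z) / 4 ^ k) ^ (9 / 16 : ℝ)) ∧
    ((x = 2 ^ k * j ∨ x = 2 ^ k * (j + 1) - 1) →
      (((dq k i j).filter fun z => z.2 = x ∧ z ∈ M).card : ℝ) ≤
        2 ^ k * ((∑ z ∈ dq k i j, w z) / 4 ^ k) ^ (9 / 16 : ℝ))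

/-- The frame of the root square `[0, 2 ^ n] ^ 2`. -/
noncomputable def root (n : ℕ) : Fr := ⟨(2 ^ n / 2, 2 ^ n / 2), (2 ^ n / 2, 0), (0, 2 ^ n / 2)⟩

/-- Shear followed by a translation. -/
def shear (a b : ℝ) (v p : P) : P := (p.1 + a * p.2 + v.1, p.2 + b * p.1 + v.2)

end Pool.Agent.Lib.MP_ecd4e3_gt
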