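import Pool.Agent.Lib.MP_ecd4e3_gt.GridA

/-! The dyadic system of cells attached to weights on a grid. -/

namespace Pool.Agent.Lib.MP_ecd4e3_gt

open Set Filter Topology

/-- The cells of an integer rectangle. -/
noncomputable def grc (x0 x1 y0 y1 : ℤ) : Finset (ℤ × ℤ) := Finset.Ico x0 x1 ×ˢ Finset.Ico y0 y1

theorem mem_grc {x0 x1 y0 y1 : ℤ} {z : ℤ × ℤ} :
    z ∈ grc x0 x1 y0 y1 ↔ (x0 ≤ z.1 ∧ z.1 < x1) ∧ y0 ≤ z.2 ∧ z.2 < y1 := by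
  simp only [grc, Finset.mem_product, Finset.mem_Ico]

theorem grc_sub {x0 x1 y0 y1 a0 a1 b0 b1 : ℤ} (h1 : a0 ≤ x0) (h2 : x1 ≤ a1) (h3 : b0 ≤ y0)
    (h4 : y1 ≤ b1) : grc x0 x1 y0 y1 ⊆ grc a0 a1 b0 b1 := by
  intro z hz
  rw [mem_grc] at hz ⊢
  omega

theorem gr_dq_eq (k : ℕ) (i j : ℤ) :
    dq k i j = grc (2 ^ k * i) (2 ^ k * (i + 1)) (2 ^ k * j) (2 ^ k * (j + 1)) := rfl

theorem gr_dq_root (n : ℕ) : dq n 0 0 = grc 0 (2 ^ n) 0 (2 ^ n) := by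
  simp [gr_dq_eq]

theorem grc_card {x0 x1 y0 y1 : ℤ} (hx : x0 ≤ x1) (hy : y0 ≤ y1) :
    ((grc x0 x1 y0 y1).card : ℝ) = ((x1 - x0 : ℤ) : ℝ) * ((y1 - y0 : ℤ) : ℝ) := by
  rw [grc, Finset.card_product, Nat.cast_mul]
  have h1 := Int.card_Ico_of_le x0 x1 hx
  have h2 := Int.card_Ico_of_le y0 y1 hy
  rw [← h1, ← h2, Int.cast_natCast, Int.cast_natCast]

theorem grc_sum_x (w : ℤ × ℤ → ℝ) {x0 x1 x2 : ℤ} (y0 y1 : ℤ) (h1 : x0 ≤ x1) (h2 : x1 ≤ x2) :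
    ∑ z ∈ grc x0 x2 y0 y1, w z = ∑ z ∈ grc x0 x1 y0 y1, w z + ∑ z ∈ grc x1 x2 y0 y1, w z := by
  rw [← Finset.sum_union]
  · refine Finset.sum_congr ?_ fun _ _ => rfl
    ext z
    simp only [Finset.mem_union, mem_grc]
    omega
  · rw [Finset.disjoint_left]
    intro z hz hz'
    rw [mem_grc] at hz hz'
    omega

theorem grc_sum_y (w : ℤ × ℤ → ℝ) {y0 y1 y2 : ℤ} (x0 x1 : ℤ) (h1 : y0 ≤ y1) (h2 : y1 ≤ y2) :
    ∑ z ∈ grc x0 x1 y0 y2, w z = ∑ z ∈ grc x0 x1 y0 y1, w z + ∑ z ∈ grc x0 x1 y1 y2, w z := by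
  rw [← Finset.sum_union]
  · refine Finset.sum_congr ?_ fun _ _ => rfl
    ext z
    simp only [Finset.mem_union, mem_grc]
    omega
  · rw [Finset.disjoint_left]
    intro z hz hz'
    rw [mem_grc] at hz hz'
    omega

open Classical in
/-- The mass of the cells under a frame. -/
noncomputable def gnu (n : ℕ) (w : ℤ × ℤ → ℝ) (F : Fr) : ℝ :=
  ∑ z ∈ (dq n 0 0).filter fun z => |(z.1 : ℝ) + 1 / 2 - F.c.1| < |F.e1.1| + |F.e2.1| ∧
    |(z.2 : ℝ) + 1 / 2 - F.c.2| < |F.e1.2| + |F.e2.2|, w z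

theorem gr_abs_iff (a b x : ℤ) :
    |(x : ℝ) + 1 / 2 - (a + b) / 2| < (b - a) / 2 ↔ a ≤ x ∧ x < b := by
  rw [abs_lt]
  constructor
  · rintro ⟨h1, h2⟩
    have a1 : (a : ℝ) < x + 1 := by linarith
    have a2 : (x : ℝ) < b := by linarith
    have a1' : a < x + 1 := by exact_mod_cast a1
    have a2' : x < b := by exact_mod_cast a2
    omega
  · rintro ⟨h1, h2⟩
    have a1 : (a : ℝ) ≤ x := by exact_mod_cast h1
    have a2 : (x : ℝ) + 1 ≤ b := by exact_mod_cast h2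
    constructor <;> linarith

theorem GSp.gnu {n : ℕ} (w : ℤ × ℤ → ℝ) {F : Fr} {x0 x1 y0 y1 : ℤ} (h : GSp F x0 x1 y0 y1)
    (hx : x0 ≤ x1) (hy : y0 ≤ y1) (hsub : grc x0 x1 y0 y1 ⊆ dq n 0 0) :
    gnu n w F = ∑ z ∈ grc x0 x1 y0 y1, w z := by
  have e := h.ext (by exact_mod_cast hx) (by exact_mod_cast hy)
  unfold MP_ecd4e3_gt.gnu
  refine Finset.sum_congr ?_ fun _ _ => rfl
  ext z
  rw [Finset.mem_filter, e.1, e.2, h.1]
  simp only [gr_abs_iff]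
  constructor
  · intro hz
    exact mem_grc.2 hz.2
  · intro hz
    exact ⟨hsub hz, mem_grc.1 hz⟩

theorem gr_rpow_mono {k : ℕ} {a b : ℝ} (ha : 0 ≤ a) (hab : a ≤ b) :
    2 ^ k * (a / 4 ^ k) ^ (9 / 16 : ℝ) ≤ 2 ^ k * (b / 4 ^ k) ^ (9 / 16 : ℝ) := by
  gcongr

theorem gr_final {k m : ℕ} {ν : ℝ} (hν : 0 < ν) (hm : m ≤ 2 * k + 1) :
    2 * (2 ^ k * (ν / 4 ^ k) ^ (9 / 16 : ℝ)) ≤ 4 * √ν * gn m ν := by
  have h4 : (0 : ℝ) < 4 ^ k := by positivity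
  have hr : 0 < ν / 4 ^ k := by positivity
  have e1 : √ν = 2 ^ k * (ν / 4 ^ k) ^ (1 / 2 : ℝ) := by
    rw [← Real.sqrt_eq_rpow]
    have : ν = (2 ^ k) ^ 2 * (ν / 4 ^ k) := by
      rw [← pow_mul, mul_comm k 2, pow_mul]
      norm_num
      field_simp
    conv_lhs => rw [this]
    rw [Real.sqrt_mul (by positivity), Real.sqrt_sq (by positivity)]
  have e2 : (ν / 4 ^ k) ^ (9 / 16 : ℝ) = (ν / 4 ^ k) ^ (1 / 2 : ℝ) * (ν / 4 ^ k) ^ (1 / 16 : ℝ) := by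
    rw [← Real.rpow_add hr]
    norm_num
  have e3 : (ν / 4 ^ k) ^ (1 / 16 : ℝ) ≤ 2 * gn m ν := by
    unfold gn
    have a1 : ν / 4 ^ k ≤ 2 * (ν / 2 ^ m) := by
      have : (2 : ℝ) ^ m ≤ 2 * 4 ^ k := by
        calc (2 : ℝ) ^ m ≤ 2 ^ (2 * k + 1) := pow_le_pow_right₀ (by norm_num) hm
          _ = 2 * 4 ^ k := by rw [pow_succ, pow_mul]; norm_num; ring
      rw [← mul_div_assoc, div_le_div_iff₀ h4 (by positivity)]
      nlinarith
    calc (ν / 4 ^ k) ^ (1 / 16 : ℝ) ≤ (2 * (ν / 2 ^ m)) ^ (1 / 16 : ℝ) := by gcongr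
      _ = 2 ^ (1 / 16 : ℝ) * (ν / 2 ^ m) ^ (1 / 16 : ℝ) :=
          Real.mul_rpow (by norm_num) (by positivity)
      _ ≤ 2 * (ν / 2 ^ m) ^ (1 / 16 : ℝ) := by
          gcongr
          calc (2 : ℝ) ^ (1 / 16 : ℝ) ≤ 2 ^ (1 : ℝ) :=
                Real.rpow_le_rpow_of_exponent_le (by norm_num) (by norm_num)
            _ = 2 := Real.rpow_one 2
  rw [e1, e2]
  have : 0 ≤ 2 ^ k * (ν / 4 ^ k) ^ (1 / 2 : ℝ) := by positivity
  nlinarith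

section Count

variable {n : ℕ} {M : Finset (ℤ × ℤ)} {w : ℤ × ℤ → ℝ}

theorem Wts.grRow (h : Wts n M w) {k : ℕ} (hk : k ≤ n) {i j : ℤ} {R : Finset (ℤ × ℤ)}
    (h1 : dq k i j ⊆ R) (h2 : R ⊆ dq n 0 0) {y : ℤ}
    (hy : y = 2 ^ k * j ∨ y = 2 ^ k * (j + 1) - 1) :
    ((((Finset.Ico (2 ^ k * i) (2 ^ k * (i + 1))).filter fun x => (x, y) ∈ M).card : ℕ) : ℝ) ≤
      2 ^ k * ((∑ z ∈ R, w z) / 4 ^ k) ^ (9 / 16 : ℝ) := by
  have a := ((h.tr k hk i j (h1.trans h2) y).2 hy).trans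
    (gr_rpow_mono (Finset.sum_nonneg fun z _ => (h.pos z).le)
      (Finset.sum_le_sum_of_subset_of_nonneg h1 fun z _ _ => (h.pos z).le))
  refine le_trans ?_ a
  have hp : (0 : ℤ) < 2 ^ k := by positivity
  have hy' : 2 ^ k * j ≤ y ∧ y < 2 ^ k * (j + 1) := by
    rw [mul_add, mul_one] at hy ⊢
    omega
  refine Nat.cast_le.2 (Finset.card_le_card_of_injOn (fun x => (x, y)) ?_ ?_)
  · intro x hx
    rw [Finset.mem_coe, Finset.mem_filter, Finset.mem_Ico] at hx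
    rw [Finset.mem_coe, Finset.mem_filter, gr_dq_eq, mem_grc]
    exact ⟨⟨hx.1, hy'⟩, rfl, hx.2⟩
  · intro x _ x' _ e
    exact (Prod.ext_iff.1 e).1

theorem Wts.grCol (h : Wts n M w) {k : ℕ} (hk : k ≤ n) {i j : ℤ} {R : Finset (ℤ × ℤ)}
    (h1 : dq k i j ⊆ R) (h2 : R ⊆ dq n 0 0) {x : ℤ}
    (hx : x = 2 ^ k * i ∨ x = 2 ^ k * (i + 1) - 1) :
    ((((Finset.Ico (2 ^ k * j) (2 ^ k * (j + 1))).filter fun y => (x, y) ∈ M).card : ℕ) : ℝ) ≤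
      2 ^ k * ((∑ z ∈ R, w z) / 4 ^ k) ^ (9 / 16 : ℝ) := by
  have a := ((h.tr k hk i j (h1.trans h2) x).1 hx).trans
    (gr_rpow_mono (Finset.sum_nonneg fun z _ => (h.pos z).le)
      (Finset.sum_le_sum_of_subset_of_nonneg h1 fun z _ _ => (h.pos z).le))
  refine le_trans ?_ a
  have hp : (0 : ℤ) < 2 ^ k := by positivity
  have hx' : 2 ^ k * i ≤ x ∧ x < 2 ^ k * (i + 1) := by
    rw [mul_add, mul_one] at hx ⊢
    omega
  refine Nat.cast_le.2 (Finset.card_le_card_of_injOn (fun y => (x, y)) ?_ ?_)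
  · intro y hy
    rw [Finset.mem_coe, Finset.mem_filter, Finset.mem_Ico] at hy
    rw [Finset.mem_coe, Finset.mem_filter, gr_dq_eq, mem_grc]
    exact ⟨⟨hx', hy.1⟩, rfl, hy.2⟩
  · intro y _ y' _ e
    exact (Prod.ext_iff.1 e).2

theorem gr_card_split (p : ℤ → Prop) [DecidablePred p] (a b c : ℤ) :
    (((Finset.Ico a c).filter p).card : ℝ) ≤
      ((Finset.Ico a b).filter p).card + ((Finset.Ico b c).filter p).card := by
  have : (Finset.Ico a c).filter p ⊆ (Finset.Ico a b).filter p ∪ (Finset.Ico b c).filter p := by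
    intro x hx
    simp only [Finset.mem_union, Finset.mem_filter, Finset.mem_Ico] at hx ⊢
    rcases lt_or_ge x b with h | h
    · exact Or.inl ⟨⟨hx.1.1, h⟩, hx.2⟩
    · exact Or.inr ⟨⟨h, hx.1.2⟩, hx.2⟩
  exact_mod_cast (Finset.card_le_card this).trans (Finset.card_union_le _ _)

/-- Marked cells in a boundary row of an aligned rectangle. -/
theorem Wts.grRowR (h : Wts n M w) {a b : ℕ} (ha : a ≤ n) (hb : b ≤ n) (hab : a ≤ b + 1)
    (hba : b ≤ a + 1) {i j : ℤ}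
    (h2 : grc (2 ^ a * i) (2 ^ a * (i + 1)) (2 ^ b * j) (2 ^ b * (j + 1)) ⊆ dq n 0 0) {y : ℤ}
    (hy : y = 2 ^ b * j ∨ y = 2 ^ b * (j + 1) - 1) : ∃ k : ℕ, a + b ≤ 2 * k + 1 ∧
    ((((Finset.Ico (2 ^ a * i) (2 ^ a * (i + 1))).filter fun x => (x, y) ∈ M).card : ℕ) : ℝ) ≤
      2 * (2 ^ k * ((∑ z ∈ grc (2 ^ a * i) (2 ^ a * (i + 1)) (2 ^ b * j) (2 ^ b * (j + 1)), w z) /
        4 ^ k) ^ (9 / 16 : ℝ)) := by
  set R := grc (2 ^ a * i) (2 ^ a * (i + 1)) (2 ^ b * j) (2 ^ b * (j + 1)) with hR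
  have hs : 0 ≤ ∑ z ∈ R, w z := Finset.sum_nonneg fun z _ => (h.pos z).le
  have pos : ∀ k : ℕ, 0 ≤ 2 ^ k * ((∑ z ∈ R, w z) / 4 ^ k) ^ (9 / 16 : ℝ) := fun k => by positivity
  obtain e | e | e : b = a ∨ a = b + 1 ∨ b = a + 1 := by omega
  · subst e
    have := h.grRow ha (i := i) (j := j) (R := R) (by rw [hR, gr_dq_eq]) h2 hy
    exact ⟨b, by omega, by linarith [pos b]⟩
  · subst e
    have hp : (0 : ℤ) < 2 ^ b := by positivity
    have t1 := h.grRow hb (i := 2 * i) (j := j) (R := R)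
      (by rw [hR, gr_dq_eq, pow_succ]; exact grc_sub (by linarith) (by linarith) le_rfl le_rfl) h2 hy
    have t2 := h.grRow hb (i := 2 * i + 1) (j := j) (R := R)
      (by rw [hR, gr_dq_eq, pow_succ]; exact grc_sub (by linarith) (by linarith) le_rfl le_rfl) h2 hy
    have t3 := gr_card_split (fun x => (x, y) ∈ M) (2 ^ b * (2 * i)) (2 ^ b * (2 * i + 1))
      (2 ^ b * (2 * i + 1 + 1))
    refine ⟨b, by omega, ?_⟩
    rw [show (2 : ℤ) ^ (b + 1) * i = 2 ^ b * (2 * i) by ring,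
      show (2 : ℤ) ^ (b + 1) * (i + 1) = 2 ^ b * (2 * i + 1 + 1) by ring]
    linarith
  · subst e
    have hp : (0 : ℤ) < 2 ^ a := by positivity
    refine ⟨a, by omega, ?_⟩
    rcases hy with hy | hy
    · have := h.grRow ha (i := i) (j := 2 * j) (R := R) (y := y)
        (by rw [hR, gr_dq_eq, pow_succ]; exact grc_sub le_rfl le_rfl (by linarith) (by linarith)) h2
        (Or.inl (by rw [hy]; ring))
      linarith [pos a]
    · have := h.grRow ha (i := i) (j := 2 * j + 1) (R := R) (y := y)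
        (by rw [hR, gr_dq_eq, pow_succ]; exact grc_sub le_rfl le_rfl (by linarith) (by linarith)) h2
        (Or.inr (by rw [hy]; ring))
      linarith [pos a]

/-- Marked cells in a boundary column of an aligned rectangle. -/
theorem Wts.grColR (h : Wts n M w) {a b : ℕ} (ha : a ≤ n) (hb : b ≤ n) (hab : a ≤ b + 1)
    (hba : b ≤ a + 1) {i j : ℤ}
    (h2 : grc (2 ^ a * i) (2 ^ a * (i + 1)) (2 ^ b * j) (2 ^ b * (j + 1)) ⊆ dq n 0 0) {x : ℤ}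
    (hx : x = 2 ^ a * i ∨ x = 2 ^ a * (i + 1) - 1) : ∃ k : ℕ, a + b ≤ 2 * k + 1 ∧
    ((((Finset.Ico (2 ^ b * j) (2 ^ b * (j + 1))).filter fun y => (x, y) ∈ M).card : ℕ) : ℝ) ≤
      2 * (2 ^ k * ((∑ z ∈ grc (2 ^ a * i) (2 ^ a * (i + 1)) (2 ^ b * j) (2 ^ b * (j + 1)), w z) /
        4 ^ k) ^ (9 / 16 : ℝ)) := by
  set R := grc (2 ^ a * i) (2 ^ a * (i + 1)) (2 ^ b * j) (2 ^ b * (j + 1)) with hR
  have hs : 0 ≤ ∑ z ∈ R, w z := Finset.sum_nonneg fun z _ => (h.pos z).le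
  have pos : ∀ k : ℕ, 0 ≤ 2 ^ k * ((∑ z ∈ R, w z) / 4 ^ k) ^ (9 / 16 : ℝ) := fun k => by positivity
  obtain e | e | e : b = a ∨ b = a + 1 ∨ a = b + 1 := by omega
  · subst e
    have := h.grCol ha (i := i) (j := j) (R := R) (by rw [hR, gr_dq_eq]) h2 hx
    exact ⟨b, by omega, by linarith [pos b]⟩
  · subst e
    have hp : (0 : ℤ) < 2 ^ a := by positivity
    have t1 := h.grCol ha (i := i) (j := 2 * j) (R := R)
      (by rw [hR, gr_dq_eq, pow_succ]; exact grc_sub le_rfl le_rfl (by linarith) (by linarith)) h2 hx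
    have t2 := h.grCol ha (i := i) (j := 2 * j + 1) (R := R)
      (by rw [hR, gr_dq_eq, pow_succ]; exact grc_sub le_rfl le_rfl (by linarith) (by linarith)) h2 hx
    have t3 := gr_card_split (fun y => (x, y) ∈ M) (2 ^ a * (2 * j)) (2 ^ a * (2 * j + 1))
      (2 ^ a * (2 * j + 1 + 1))
    refine ⟨a, by omega, ?_⟩
    rw [show (2 : ℤ) ^ (a + 1) * j = 2 ^ a * (2 * j) by ring,
      show (2 : ℤ) ^ (a + 1) * (j + 1) = 2 ^ a * (2 * j + 1 + 1) by ring]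
    linarith
  · subst e
    have hp : (0 : ℤ) < 2 ^ b := by positivity
    refine ⟨b, by omega, ?_⟩
    rcases hx with hx | hx
    · have := h.grCol hb (i := 2 * i) (j := j) (R := R) (x := x)
        (by rw [hR, gr_dq_eq, pow_succ]; exact grc_sub (by linarith) (by linarith) le_rfl le_rfl) h2
        (Or.inl (by rw [hx]; ring))
      linarith [pos b]
    · have := h.grCol hb (i := 2 * i + 1) (j := j) (R := R) (x := x)
        (by rw [hR, gr_dq_eq, pow_succ]; exact grc_sub (by linarith) (by linarith) le_rfl le_rfl) h2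
        (Or.inr (by rw [hx]; ring))
      linarith [pos b]

end Count

/-- Frames of aligned dyadic rectangles inside the root square. -/
def gcell (n m : ℕ) (F : Fr) : Prop :=
  ∃ (a b : ℕ) (i j : ℤ), a + b = m ∧ a ≤ b + 1 ∧ b ≤ a + 1 ∧ a ≤ n ∧ b ≤ n ∧
    grc (2 ^ a * i) (2 ^ a * (i + 1)) (2 ^ b * j) (2 ^ b * (j + 1)) ⊆ dq n 0 0 ∧
    GSp F (2 ^ a * i : ℤ) (2 ^ a * (i + 1) : ℤ) (2 ^ b * j : ℤ) (2 ^ b * (j + 1) : ℤ)

theorem gr_lt (a : ℕ) (i : ℤ) : 2 ^ a * i < 2 ^ a * (i + 1) := by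
  have hp : (0 : ℤ) < 2 ^ a := by positivity
  linarith

theorem gr_le (a : ℕ) (i : ℤ) : ((2 ^ a * i : ℤ) : ℝ) ≤ ((2 ^ a * (i + 1) : ℤ) : ℝ) := by
  exact_mod_cast (gr_lt a i).le

theorem gr_len (a : ℕ) (i : ℤ) : ((2 ^ a * (i + 1) : ℤ) : ℝ) - ((2 ^ a * i : ℤ) : ℝ) = 2 ^ a := by
  push_cast
  ring

theorem gr_pow_le {a b : ℕ} (h : a ≤ b + 1) : (2 : ℝ) ^ a / 2 ≤ 2 * (2 ^ b / 2) := by
  have : (2 : ℝ) ^ a ≤ 2 ^ (b + 1) := pow_le_pow_right₀ (by norm_num) h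
  rw [pow_succ] at this
  linarith

theorem gcell.half {n m : ℕ} (w : ℤ × ℤ → ℝ) {F : Fr} (h : gcell n (m + 1) F) (hw : F.Wd) :
    gcell n m F.left ∧ gcell n m F.right ∧ gnu n w F = gnu n w F.left + gnu n w F.right := by
  obtain ⟨a, b, i, j, hm, hab, hba, ha, hb, hsub, hs⟩ := h
  have hnu := hs.gnu w (gr_lt a i).le (gr_lt b j).le hsub
  rcases hs.half (gr_le a i) (gr_le b j) hw with ⟨hl, h⟩ | ⟨hl, h⟩
  · rw [gr_len, gr_len] at hl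
    have hba' : b ≤ a := (pow_le_pow_iff_right₀ (by norm_num : (1 : ℝ) < 2)).1 hl
    obtain ⟨c, rfl⟩ : ∃ c, a = c + 1 := ⟨a - 1, by omega⟩
    have hp : (0 : ℤ) < 2 ^ c := by positivity
    have e0 : (2 : ℤ) ^ (c + 1) * i = 2 ^ c * (2 * i) := by ring
    have e2 : (2 : ℤ) ^ (c + 1) * (i + 1) = 2 ^ c * (2 * i + 1 + 1) := by ring
    rw [e0, e2] at h hnu hsub
    have e1 : (((2 ^ c * (2 * i) : ℤ) : ℝ) + ((2 ^ c * (2 * i + 1 + 1) : ℤ) : ℝ)) / 2 =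
        ((2 ^ c * (2 * i + 1) : ℤ) : ℝ) := by
      push_cast
      ring
    rw [e1] at h
    have s1 := (grc_sub (x0 := 2 ^ c * (2 * i)) (x1 := 2 ^ c * (2 * i + 1)) le_rfl
      (gr_lt c (2 * i + 1)).le le_rfl le_rfl).trans hsub
    have s2 := (grc_sub (x0 := 2 ^ c * (2 * i + 1)) (x1 := 2 ^ c * (2 * i + 1 + 1))
      (gr_lt c (2 * i)).le le_rfl le_rfl le_rfl).trans hsub
    rw [grc_sum_x w _ _ (gr_lt c (2 * i)).le (gr_lt c (2 * i + 1)).le] at hnu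
    have c1 : ∀ G : Fr, GSp G (2 ^ c * (2 * i) : ℤ) (2 ^ c * (2 * i + 1) : ℤ) (2 ^ b * j : ℤ)
        (2 ^ b * (j + 1) : ℤ) → gcell n m G := fun G hG =>
      ⟨c, b, 2 * i, j, by omega, by omega, by omega, by omega, hb, s1, hG⟩
    have c2 : ∀ G : Fr, GSp G (2 ^ c * (2 * i + 1) : ℤ) (2 ^ c * (2 * i + 1 + 1) : ℤ) (2 ^ b * j : ℤ)
        (2 ^ b * (j + 1) : ℤ) → gcell n m G := fun G hG =>
      ⟨c, b, 2 * i + 1, j, by omega, by omega, by omega, by omega, hb, s2, hG⟩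
    rcases h with ⟨h1, h2⟩ | ⟨h1, h2⟩
    · refine ⟨c1 _ h1, c2 _ h2, ?_⟩
      rw [hnu, h1.gnu w (gr_lt _ _).le (gr_lt _ _).le s1, h2.gnu w (gr_lt _ _).le (gr_lt _ _).le s2]
    · refine ⟨c2 _ h2, c1 _ h1, ?_⟩
      rw [hnu, h1.gnu w (gr_lt _ _).le (gr_lt _ _).le s1, h2.gnu w (gr_lt _ _).le (gr_lt _ _).le s2,
        add_comm]
  · rw [gr_len, gr_len] at hl
    have hab' : a ≤ b := (pow_le_pow_iff_right₀ (by norm_num : (1 : ℝ) < 2)).1 hl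
    obtain ⟨c, rfl⟩ : ∃ c, b = c + 1 := ⟨b - 1, by omega⟩
    have hp : (0 : ℤ) < 2 ^ c := by positivity
    have e0 : (2 : ℤ) ^ (c + 1) * j = 2 ^ c * (2 * j) := by ring
    have e2 : (2 : ℤ) ^ (c + 1) * (j + 1) = 2 ^ c * (2 * j + 1 + 1) := by ring
    rw [e0, e2] at h hnu hsub
    have e1 : (((2 ^ c * (2 * j) : ℤ) : ℝ) + ((2 ^ c * (2 * j + 1 + 1) : ℤ) : ℝ)) / 2 =
        ((2 ^ c * (2 * j + 1) : ℤ) : ℝ) := by
      push_cast
      ring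
    rw [e1] at h
    have s1 := (grc_sub (y0 := 2 ^ c * (2 * j)) (y1 := 2 ^ c * (2 * j + 1)) le_rfl le_rfl le_rfl
      (gr_lt c (2 * j + 1)).le).trans hsub
    have s2 := (grc_sub (y0 := 2 ^ c * (2 * j + 1)) (y1 := 2 ^ c * (2 * j + 1 + 1)) le_rfl le_rfl
      (gr_lt c (2 * j)).le le_rfl).trans hsub
    rw [grc_sum_y w _ _ (gr_lt c (2 * j)).le (gr_lt c (2 * j + 1)).le] at hnu
    have c1 : ∀ G : Fr, GSp G (2 ^ a * i : ℤ) (2 ^ a * (i + 1) : ℤ) (2 ^ c * (2 * j) : ℤ)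
        (2 ^ c * (2 * j + 1) : ℤ) → gcell n m G := fun G hG =>
      ⟨a, c, i, 2 * j, by omega, by omega, by omega, ha, by omega, s1, hG⟩
    have c2 : ∀ G : Fr, GSp G (2 ^ a * i : ℤ) (2 ^ a * (i + 1) : ℤ) (2 ^ c * (2 * j + 1) : ℤ)
        (2 ^ c * (2 * j + 1 + 1) : ℤ) → gcell n m G := fun G hG =>
      ⟨a, c, i, 2 * j + 1, by omega, by omega, by omega, ha, by omega, s2, hG⟩
    rcases h with ⟨h1, h2⟩ | ⟨h1, h2⟩
    · refine ⟨c1 _ h1, c2 _ h2, ?_⟩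
      rw [hnu, h1.gnu w (gr_lt _ _).le (gr_lt _ _).le s1, h2.gnu w (gr_lt _ _).le (gr_lt _ _).le s2]
    · refine ⟨c2 _ h2, c1 _ h1, ?_⟩
      rw [hnu, h1.gnu w (gr_lt _ _).le (gr_lt _ _).le s1, h2.gnu w (gr_lt _ _).le (gr_lt _ _).le s2,
        add_comm]

theorem gcell.pos {n m : ℕ} {M : Finset (ℤ × ℤ)} {w : ℤ × ℤ → ℝ} (hw : Wts n M w) {F : Fr}
    (h : gcell n m F) : 0 < gnu n w F ∧ gnu n w F ≤ 2 ^ m := by
  obtain ⟨a, b, i, j, hm, -, -, -, -, hsub, hs⟩ := h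
  rw [hs.gnu w (gr_lt a i).le (gr_lt b j).le hsub]
  constructor
  · refine Finset.sum_pos (fun z _ => hw.pos z) ⟨(2 ^ a * i, 2 ^ b * j), ?_⟩
    exact mem_grc.2 ⟨⟨le_rfl, gr_lt a i⟩, le_rfl, gr_lt b j⟩
  · refine (Finset.sum_le_sum fun z _ => hw.le z).trans ?_
    rw [Finset.sum_const, nsmul_eq_mul, mul_one, grc_card (gr_lt a i).le (gr_lt b j).le, ← hm]
    push_cast
    exact le_of_eq (by ring)

theorem gcell.term {n : ℕ} {M : Finset (ℤ × ℤ)} {w : ℤ × ℤ → ℝ} (hw : Wts n M w) {F : Fr}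
    (h : gcell n 0 F) {p : P} (hp : p ∈ sq) (hU : ((pc (F.W p).1, pc (F.W p).2) : P) ∈ uo M)
    (q : P) : dist ((pc (F.W q).1, pc (F.W q).2) : P) (pc (F.W p).1, pc (F.W p).2) ≤
      √(gnu n w F) * dist q p := by
  obtain ⟨a, b, i, j, hm, -, -, -, -, hsub, hs⟩ := h
  obtain rfl : a = 0 := by omega
  obtain rfl : b = 0 := by omega
  simp only [pow_zero, one_mul] at hsub hs
  have hi : i ≤ i + 1 := by omega
  have hj : j ≤ j + 1 := by omega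
  have hmem := hs.mem (by exact_mod_cast hi) (by exact_mod_cast hj) hp
  have hM : (i, j) ∈ M := by
    refine gr_mark_of_mem hU ?_
    have h1 := gr_pc_mem hmem.1.1 hmem.1.2
    have h2 := gr_pc_mem hmem.2.1 hmem.2.2
    push_cast at h1 h2
    exact ⟨h1, h2⟩
  have e : grc i (i + 1) j (j + 1) = {(i, j)} := by
    ext z
    rw [mem_grc, Finset.mem_singleton, Prod.ext_iff]
    simp only
    omega
  rw [hs.gnu w hi hj hsub, e, Finset.sum_singleton, hw.mark _ hM, Real.sqrt_one, one_mul]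
  push_cast at hs
  have h1 := gr_pi_lip (F.W q) (F.W p)
  have h2 := hs.dist q p
  linarith

theorem gcell.tr {n m : ℕ} {M : Finset (ℤ × ℤ)} {w : ℤ × ℤ → ℝ} (hw : Wts n M w) {F : Fr}
    (h : gcell n m F) : Tr (uo M) (s0 fun p => ((pc (F.W p).1, pc (F.W p).2) : P)) (-1) 1
      (4 * √(gnu n w F) * gn m (gnu n w F)) := by
  have hpos := (h.pos hw).1
  obtain ⟨a, b, i, j, hm, hab, hba, ha, hb, hsub, hs⟩ := h
  have hnu := hs.gnu w (gr_lt a i).le (gr_lt b j).le hsub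
  rcases hs.tr (M := M) (gr_lt a i) (gr_lt b j) with ⟨y, hy, T, hT, hT'⟩ | ⟨x, hx, T, hT, hT'⟩
  · obtain ⟨k, hk, h1⟩ := hw.grRowR ha hb hab hba hsub hy
    rw [← hnu] at h1
    exact ⟨T, hT, hT'.trans (h1.trans (gr_final hpos (by omega)))⟩
  · obtain ⟨k, hk, h1⟩ := hw.grColR ha hb hab hba hsub hx
    rw [← hnu] at h1
    exact ⟨T, hT, hT'.trans (h1.trans (gr_final hpos (by omega)))⟩

theorem gr_sp_root (n : ℕ) :
    GSp (root n) (2 ^ n * 0 : ℤ) (2 ^ n * (0 + 1) : ℤ) (2 ^ n * 0 : ℤ) (2 ^ n * (0 + 1) : ℤ) := by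
  refine ⟨?_, 1, 1, Or.inl rfl, Or.inl rfl, Or.inl ⟨?_, ?_⟩⟩ <;> simp [root]

theorem grid {n : ℕ} {M : Finset (ℤ × ℤ)} {w : ℤ × ℤ → ℝ} (h : Wts n M w) :
    ∃ E : Env, E.U = uo M ∧ (E.pi = fun p => (pc p.1, pc p.2)) ∧ E.cell (2 * n) (root n) ∧
      E.nu (root n) = ∑ z ∈ dq n 0 0, w z := by
  refine ⟨{ U := uo M
            pi := fun p => (pc p.1, pc p.2)
            cell := gcell n
            nu := gnu n w
            hU := isOpen_interior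
            lip := ⟨2, gr_pi_lip⟩
            rot := ?_
            asp := ?_
            evn := ?_
            half := fun m F hF hw => hF.half w hw
            pos := fun m F hF => hF.pos h
            fib := ?_
            term := fun F hF p hp hU => Eventually.of_forall fun q => hF.term h hp hU q
            tr := fun m F hF => hF.tr h }, rfl, rfl, ?_, ?_⟩
  · rintro m F ⟨a, b, i, j, hm, hab, hba, ha, hb, hsub, hs⟩
    refine ⟨⟨a, b, i, j, hm, hab, hba, ha, hb, hsub, hs.rot⟩, ?_⟩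
    rw [hs.gnu w (gr_lt a i).le (gr_lt b j).le hsub, hs.rot.gnu w (gr_lt a i).le (gr_lt b j).le hsub]
  · rintro m F ⟨a, b, i, j, -, hab, hba, -, -, -, hs⟩
    rcases hs.norm (gr_le a i) (gr_le b j) with ⟨h1, h2⟩ | ⟨h1, h2⟩
    · rw [h1, h2, gr_len, gr_len]
      exact gr_pow_le hab
    · rw [h1, h2, gr_len, gr_len]
      exact gr_pow_le hba
  · rintro m F ⟨a, b, i, j, hm, hab, hba, -, -, -, hs⟩ ⟨r, hr⟩
    obtain rfl : a = b := by omega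
    rcases hs.norm (gr_le a i) (gr_le a j) with ⟨h1, h2⟩ | ⟨h1, h2⟩
    · rw [h1, h2, gr_len, gr_len]
    · rw [h1, h2, gr_len, gr_len]
  · rintro m F ⟨a, b, i, j, -, -, -, -, -, -, hs⟩
    exact hs.fib (gr_le a i) (gr_le b j)
  · exact ⟨n, n, 0, 0, by omega, by omega, by omega, le_rfl, le_rfl, Finset.Subset.refl _, gr_sp_root n⟩
  · exact (gr_sp_root n).gnu w (gr_lt n 0).le (gr_lt n 0).le (Finset.Subset.refl _)

end Pool.Agent.Lib.MP_ecd4e3_gt
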