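import Pool.Agent.Lib.MP_ecd4e3_gt.GDefs
import Pool.Agent.Lib.MP_ecd4e3_gt.Lipc

/-! The collapse map, traces along grid lines, and axis parallel frames. -/

namespace Pool.Agent.Lib.MP_ecd4e3_gt

open Set Filter Topology

theorem gr_cl_mono (a b : ℝ) {x y : ℝ} (h : x ≤ y) :
    0 ≤ cl a b y - cl a b x ∧ cl a b y - cl a b x ≤ y - x := by
  unfold cl
  simp only [max_def, min_def]
  constructor <;> split_ifs <;> linarith

theorem gr_cl_mem {a b : ℝ} (hab : a ≤ b) (x : ℝ) : a ≤ cl a b x ∧ cl a b x ≤ b := by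
  unfold cl
  simp only [max_def, min_def]
  constructor <;> split_ifs <;> linarith

theorem gr_cl_eq {a b x : ℝ} (ha : a ≤ x) (hb : x ≤ b) : cl a b x = x := by
  unfold cl
  rw [min_eq_right hb, max_eq_right ha]

theorem pc_mono {x y : ℝ} (h : x ≤ y) : 0 ≤ pc y - pc x ∧ pc y - pc x ≤ 2 * (y - x) := by
  have hfl : ⌊x⌋ ≤ ⌊y⌋ := Int.floor_le_floor h
  have hx := Int.floor_add_fract x
  have hy := Int.floor_add_fract y
  have x0 := Int.fract_nonneg x
  have x1 := Int.fract_lt_one x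
  have y0 := Int.fract_nonneg y
  have y1 := Int.fract_lt_one y
  unfold pc
  rcases hfl.eq_or_lt with he | hl
  · have he' : (⌊x⌋ : ℝ) = ⌊y⌋ := by exact_mod_cast he
    have h2 : 2 * Int.fract x - 1 / 2 ≤ 2 * Int.fract y - 1 / 2 := by linarith
    have := gr_cl_mono 0 1 h2
    constructor <;> linarith [this.1, this.2]
  · have hl' : (⌊x⌋ : ℝ) + 1 ≤ ⌊y⌋ := by exact_mod_cast hl
    have a1 := gr_cl_mem (zero_le_one' ℝ) (2 * Int.fract x - 1 / 2)
    have a2 := gr_cl_mem (zero_le_one' ℝ) (2 * Int.fract y - 1 / 2)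
    have a3 : cl 0 1 (2 * Int.fract y - 1 / 2) ≤ 2 * Int.fract y := by
      unfold cl
      simp only [max_def, min_def]
      split_ifs <;> linarith
    have a4 : 2 * Int.fract x - 1 ≤ cl 0 1 (2 * Int.fract x - 1 / 2) := by
      unfold cl
      simp only [max_def, min_def]
      split_ifs <;> linarith
    constructor <;> linarith [a1.1, a1.2, a2.1, a2.2]

theorem pc_sub (x : ℝ) : |pc x - x| ≤ 1 / 4 := by
  have hx := Int.floor_add_fract x
  have x0 := Int.fract_nonneg x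
  have x1 := Int.fract_lt_one x
  have a : |cl 0 1 (2 * Int.fract x - 1 / 2) - Int.fract x| ≤ 1 / 4 := by
    unfold cl
    simp only [max_def, min_def]
    rw [abs_le]
    constructor <;> split_ifs <;> linarith
  have e : pc x - x = cl 0 1 (2 * Int.fract x - 1 / 2) - Int.fract x := by
    unfold pc
    linarith
  rw [e]
  exact a

theorem gr_pc_monotone : Monotone pc := fun _ _ h => by linarith [(pc_mono h).1]

theorem gr_pc_lip (x y : ℝ) : |pc x - pc y| ≤ 2 * |x - y| := by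
  rcases le_total x y with h | h
  · have := pc_mono h
    rw [abs_sub_comm, abs_of_nonneg this.1, abs_sub_comm, abs_of_nonneg (by linarith)]
    exact this.2
  · have := pc_mono h
    rw [abs_of_nonneg this.1, abs_of_nonneg (by linarith)]
    exact this.2

theorem gr_pc_continuous : Continuous pc := by
  have : LipschitzWith 2 pc := LipschitzWith.of_dist_le_mul fun x y => by
    simpa [Real.dist_eq] using gr_pc_lip x y
  exact this.continuous

theorem gr_pc_near {x : ℝ} {k : ℤ} (h : |x - k| ≤ 1 / 4) : pc x = k := by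
  rw [abs_le] at h
  have hx := Int.floor_add_fract x
  rcases le_or_gt (k : ℝ) x with h1 | h1
  · have hf : ⌊x⌋ = k := Int.floor_eq_iff.2 ⟨h1, by linarith [h.2]⟩
    unfold pc
    rw [hf] at hx ⊢
    have : cl 0 1 (2 * Int.fract x - 1 / 2) = 0 := by
      unfold cl
      simp only [max_def, min_def]
      split_ifs <;> linarith [h.2]
    rw [this, add_zero]
  · have hf : ⌊x⌋ = k - 1 := Int.floor_eq_iff.2 ⟨by push_cast; linarith [h.1], by push_cast; linarith⟩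
    unfold pc
    rw [hf] at hx ⊢
    push_cast at hx ⊢
    have : cl 0 1 (2 * Int.fract x - 1 / 2) = 1 := by
      unfold cl
      simp only [max_def, min_def]
      split_ifs <;> linarith [h.1]
    rw [this]
    ring

theorem gr_pc_int (k : ℤ) : pc k = k := gr_pc_near (by simp)

theorem gr_pc_mem {a b : ℤ} {x : ℝ} (ha : (a : ℝ) ≤ x) (hb : x ≤ b) : (a : ℝ) ≤ pc x ∧ pc x ≤ b := by
  have h1 := gr_pc_monotone ha
  have h2 := gr_pc_monotone hb
  rw [gr_pc_int] at h1 h2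
  exact ⟨h1, h2⟩

theorem gr_pi_lip (p q : P) : dist ((pc p.1, pc p.2) : P) (pc q.1, pc q.2) ≤ 2 * dist p q := by
  rw [Prod.dist_eq, Prod.dist_eq, Real.dist_eq, Real.dist_eq, Real.dist_eq, Real.dist_eq]
  have h1 := gr_pc_lip p.1 q.1
  have h2 := gr_pc_lip p.2 q.2
  have h3 := le_max_left |p.1 - q.1| |p.2 - q.2|
  have h4 := le_max_right |p.1 - q.1| |p.2 - q.2|
  exact max_le (by linarith) (by linarith)

/-- A point of the open union lying in a closed cell forces that cell to be marked. -/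
theorem gr_mark_of_mem {M : Finset (ℤ × ℤ)} {p : P} {z : ℤ × ℤ} (hp : p ∈ uo M) (hz : p ∈ uc z) :
    z ∈ M := by
  have hc : uc z = closure (Ioo (z.1 : ℝ) (z.1 + 1) ×ˢ Ioo (z.2 : ℝ) (z.2 + 1)) := by
    rw [closure_prod_eq, closure_Ioo (by linarith), closure_Ioo (by linarith)]
    rfl
  rw [hc, mem_closure_iff] at hz
  obtain ⟨q, hq, hq1, hq2⟩ := hz _ isOpen_interior hp
  have hq' := interior_subset hq
  simp only [mem_iUnion] at hq'
  obtain ⟨z', hz', h1, h2⟩ := hq'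
  have e1 : z'.1 = z.1 := by
    have a : (z'.1 : ℝ) < z.1 + 1 := lt_of_le_of_lt h1.1 hq1.2
    have b : (z.1 : ℝ) < z'.1 + 1 := lt_of_lt_of_le hq1.1 h1.2
    have a' : z'.1 < z.1 + 1 := by exact_mod_cast a
    have b' : z.1 < z'.1 + 1 := by exact_mod_cast b
    omega
  have e2 : z'.2 = z.2 := by
    have a : (z'.2 : ℝ) < z.2 + 1 := lt_of_le_of_lt h2.1 hq2.2
    have b : (z.2 : ℝ) < z'.2 + 1 := lt_of_lt_of_le hq2.1 h2.2
    have a' : z'.2 < z.2 + 1 := by exact_mod_cast a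
    have b' : z.2 < z'.2 + 1 := by exact_mod_cast b
    omega
  have : z' = z := Prod.ext e1 e2
  exact this ▸ hz'

/-- Total length of the unit intervals of `S` to the left of `x`, up to a constant. -/
noncomputable def grsum (S : Finset ℤ) (x : ℝ) : ℝ := ∑ j ∈ S, cl j (j + 1) x

theorem grsum_mono (S : Finset ℤ) : Monotone (grsum S) := fun _ _ h =>
  Finset.sum_le_sum fun j _ => by linarith [(gr_cl_mono (j : ℝ) (j + 1) h).1]

theorem grsum_sub_le (S : Finset ℤ) (x y : ℝ) : grsum S y - grsum S x ≤ S.card := by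
  unfold grsum
  rw [← Finset.sum_sub_distrib]
  calc ∑ j ∈ S, (cl j (j + 1) y - cl j (j + 1) x) ≤ ∑ _j ∈ S, (1 : ℝ) := by
        refine Finset.sum_le_sum fun j _ => ?_
        have h1 := gr_cl_mem (show (j : ℝ) ≤ j + 1 by linarith) x
        have h2 := gr_cl_mem (show (j : ℝ) ≤ j + 1 by linarith) y
        linarith [h1.1, h2.2]
    _ = S.card := by simp

theorem grsum_ge {S : Finset ℤ} {j : ℤ} (hj : j ∈ S) {x y : ℝ} (h : x ≤ y) (hx : (j : ℝ) ≤ x)
    (hy : y ≤ j + 1) : y - x ≤ grsum S y - grsum S x := by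
  unfold grsum
  rw [← Finset.sum_sub_distrib]
  have := Finset.single_le_sum (f := fun i : ℤ => cl i (i + 1) y - cl i (i + 1) x)
    (fun i _ => (gr_cl_mono (i : ℝ) (i + 1) h).1) hj
  rw [gr_cl_eq (by linarith) hy, gr_cl_eq hx (by linarith)] at this
  exact this

theorem grsum_dom {S : Finset ℤ} {lo hi : ℤ} {x : ℝ} (h1 : (lo : ℝ) ≤ x) (h2 : x ≤ hi)
    (hS : ∀ j : ℤ, lo ≤ j → j < hi → (j : ℝ) ≤ x → x ≤ j + 1 → j ∈ S) :
    ∀ᶠ y in 𝓝 x, (lo : ℝ) ≤ y → y ≤ hi → |y - x| ≤ |grsum S y - grsum S x| := by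
  have a1 : x < (⌊x⌋ : ℝ) + 1 := Int.lt_floor_add_one x
  have a2 : (⌈x⌉ : ℝ) - 1 < x := by linarith [Int.ceil_lt_add_one x]
  filter_upwards [Ioo_mem_nhds a2 a1] with y hy hy1 hy2
  rcases lt_trichotomy x y with h | h | h
  · have hj : ⌊x⌋ ∈ S := by
      refine hS _ (Int.le_floor.2 h1) ?_ (Int.floor_le x) a1.le
      have : (⌊x⌋ : ℝ) < hi := by linarith [Int.floor_le x]
      exact_mod_cast this
    have := grsum_ge hj h.le (Int.floor_le x) hy.2.le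
    rw [abs_of_nonneg (by linarith)]
    exact this.trans (le_abs_self _)
  · simp [h]
  · have hj : ⌈x⌉ - 1 ∈ S := by
      refine hS _ ?_ ?_ (by push_cast; linarith) (by push_cast; linarith [Int.le_ceil x])
      · have : lo < ⌈x⌉ := Int.lt_ceil.2 (by linarith)
        omega
      · have : ⌈x⌉ ≤ hi := Int.ceil_le.2 h2
        omega
    have := grsum_ge hj h.le (by push_cast; linarith [hy.1]) (by push_cast; linarith [Int.le_ceil x])
    rw [abs_sub_comm, abs_of_nonneg (by linarith), abs_sub_comm]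
    exact this.trans (le_abs_self _)

/-- Trace bound for a curve moving monotonically along a grid line. -/
theorem gr_tr_core {U : Set P} {m : ℝ → P} {α : ℝ → ℝ} {S : Finset ℤ} {lo hi : ℤ}
    (hc : Continuous α) (hm : Monotone α ∨ Antitone α)
    (hr : ∀ u ∈ Icc (-1 : ℝ) 1, (lo : ℝ) ≤ α u ∧ α u ≤ hi)
    (hd : ∀ u u', dist (m u) (m u') ≤ |α u - α u'|)
    (hS : ∀ u ∈ Icc (-1 : ℝ) 1, m u ∈ U →
      ∀ j : ℤ, lo ≤ j → j < hi → (j : ℝ) ≤ α u → α u ≤ j + 1 → j ∈ S) :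
    Tr U m (-1) 1 S.card := by
  have key : ∀ t ∈ Icc (-1 : ℝ) 1, m t ∈ U → ∀ᶠ t' in 𝓝[Icc (-1 : ℝ) 1] t,
      dist (m t') (m t) ≤ |grsum S (α t') - grsum S (α t)| := by
    intro t ht hU
    have h1 := (hc.tendsto t).eventually (grsum_dom (hr t ht).1 (hr t ht).2 (hS t ht hU))
    filter_upwards [mem_nhdsWithin_of_mem_nhds h1, self_mem_nhdsWithin] with t' h2 ht'
    exact (hd t' t).trans (h2 (hr t' ht').1 (hr t' ht').2)
  rcases hm with hm | hm
  · exact ⟨fun u => grsum S (α u), ⟨((grsum_mono S).comp hm).monotoneOn _, key⟩, grsum_sub_le _ _ _⟩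
  · refine ⟨fun u => -grsum S (α u), ⟨?_, ?_⟩, ?_⟩
    · intro a _ b _ hab
      have := grsum_mono S (hm hab)
      simp only
      linarith
    · intro t ht hU
      filter_upwards [key t ht hU] with t' h2
      rw [show -grsum S (α t') - -grsum S (α t) = -(grsum S (α t') - grsum S (α t)) by ring, abs_neg]
      exact h2
    · have := grsum_sub_le S (α 1) (α (-1))
      simp only
      linarith

/-- The frame `F` spans the rectangle `[x0, x1] x [y0, y1]`. -/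
def GSp (F : Fr) (x0 x1 y0 y1 : ℝ) : Prop :=
  F.c = ((x0 + x1) / 2, (y0 + y1) / 2) ∧ ∃ s t : ℝ, (s = 1 ∨ s = -1) ∧ (t = 1 ∨ t = -1) ∧
    ((F.e1 = (s * ((x1 - x0) / 2), 0) ∧ F.e2 = (0, t * ((y1 - y0) / 2))) ∨
      (F.e1 = (0, s * ((y1 - y0) / 2)) ∧ F.e2 = (t * ((x1 - x0) / 2), 0)))

theorem GSp.rot {F : Fr} {x0 x1 y0 y1 : ℝ} (h : GSp F x0 x1 y0 y1) : GSp F.rot x0 x1 y0 y1 := by
  obtain ⟨hc, s, t, hs, ht, h⟩ := h
  refine ⟨hc, t, -s, ht, ?_, ?_⟩
  · rcases hs with rfl | rfl <;> simp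
  · rcases h with ⟨h1, h2⟩ | ⟨h1, h2⟩
    · right
      refine ⟨h2, ?_⟩
      simp [Fr.rot, h1]
    · left
      refine ⟨h2, ?_⟩
      simp [Fr.rot, h1]

theorem gr_abs_sign {s X : ℝ} (hs : s = 1 ∨ s = -1) (hX : 0 ≤ X) : |s * X| = X := by
  rcases hs with rfl | rfl <;> simp [abs_of_nonneg hX]

theorem GSp.ext {F : Fr} {x0 x1 y0 y1 : ℝ} (h : GSp F x0 x1 y0 y1) (hx : x0 ≤ x1) (hy : y0 ≤ y1) :
    |F.e1.1| + |F.e2.1| = (x1 - x0) / 2 ∧ |F.e1.2| + |F.e2.2| = (y1 - y0) / 2 := by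
  obtain ⟨-, s, t, hs, ht, h⟩ := h
  have hX : 0 ≤ (x1 - x0) / 2 := by linarith
  have hY : 0 ≤ (y1 - y0) / 2 := by linarith
  rcases h with ⟨h1, h2⟩ | ⟨h1, h2⟩
  · rw [h1, h2]
    simp only [gr_abs_sign hs hX, gr_abs_sign ht hY, abs_zero, add_zero, zero_add, and_self]
  · rw [h1, h2]
    simp only [gr_abs_sign hs hY, gr_abs_sign ht hX, abs_zero, add_zero, zero_add, and_self]

theorem gr_norm_fst {s X : ℝ} (hs : s = 1 ∨ s = -1) (hX : 0 ≤ X) : ‖((s * X, 0) : P)‖ = X := by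
  rw [Prod.norm_def, Real.norm_eq_abs, Real.norm_eq_abs, gr_abs_sign hs hX, abs_zero,
    max_eq_left hX]

theorem gr_norm_snd {s X : ℝ} (hs : s = 1 ∨ s = -1) (hX : 0 ≤ X) : ‖((0, s * X) : P)‖ = X := by
  rw [Prod.norm_def, Real.norm_eq_abs, Real.norm_eq_abs, gr_abs_sign hs hX, abs_zero,
    max_eq_right hX]

theorem GSp.norm {F : Fr} {x0 x1 y0 y1 : ℝ} (h : GSp F x0 x1 y0 y1) (hx : x0 ≤ x1) (hy : y0 ≤ y1) :
    (‖F.e1‖ = (x1 - x0) / 2 ∧ ‖F.e2‖ = (y1 - y0) / 2) ∨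
      (‖F.e1‖ = (y1 - y0) / 2 ∧ ‖F.e2‖ = (x1 - x0) / 2) := by
  obtain ⟨-, s, t, hs, ht, h⟩ := h
  have hX : 0 ≤ (x1 - x0) / 2 := by linarith
  have hY : 0 ≤ (y1 - y0) / 2 := by linarith
  rcases h with ⟨h1, h2⟩ | ⟨h1, h2⟩
  · left
    rw [h1, h2]
    exact ⟨gr_norm_fst hs hX, gr_norm_snd ht hY⟩
  · right
    rw [h1, h2]
    exact ⟨gr_norm_snd hs hY, gr_norm_fst ht hX⟩

/-- The chart of a frame in coordinates. -/
theorem GSp.W {F : Fr} {x0 x1 y0 y1 : ℝ} (h : GSp F x0 x1 y0 y1) :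
    ∃ s t : ℝ, (s = 1 ∨ s = -1) ∧ (t = 1 ∨ t = -1) ∧
      ((∀ p : P, F.W p = ((x0 + x1) / 2 + p.1 * (s * ((x1 - x0) / 2)),
          (y0 + y1) / 2 + p.2 * (t * ((y1 - y0) / 2)))) ∨
        (∀ p : P, F.W p = ((x0 + x1) / 2 + p.2 * (t * ((x1 - x0) / 2)),
          (y0 + y1) / 2 + p.1 * (s * ((y1 - y0) / 2))))) := by
  obtain ⟨hc, s, t, hs, ht, h⟩ := h
  refine ⟨s, t, hs, ht, ?_⟩
  rcases h with ⟨h1, h2⟩ | ⟨h1, h2⟩
  · left
    intro p
    simp [Fr.W, hc, h1, h2]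
  · right
    intro p
    simp [Fr.W, hc, h1, h2]

/-- Halving along the first side. -/
theorem GSp.half {F : Fr} {x0 x1 y0 y1 : ℝ} (h : GSp F x0 x1 y0 y1) (hx : x0 ≤ x1) (hy : y0 ≤ y1)
    (hw : F.Wd) :
    (y1 - y0 ≤ x1 - x0 ∧
      ((GSp F.left x0 ((x0 + x1) / 2) y0 y1 ∧ GSp F.right ((x0 + x1) / 2) x1 y0 y1) ∨
        (GSp F.right x0 ((x0 + x1) / 2) y0 y1 ∧ GSp F.left ((x0 + x1) / 2) x1 y0 y1))) ∨
    (x1 - x0 ≤ y1 - y0 ∧
      ((GSp F.left x0 x1 y0 ((y0 + y1) / 2) ∧ GSp F.right x0 x1 ((y0 + y1) / 2) y1) ∨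
        (GSp F.right x0 x1 y0 ((y0 + y1) / 2) ∧ GSp F.left x0 x1 ((y0 + y1) / 2) y1))) := by
  obtain ⟨hc, s, t, hs, ht, h⟩ := h
  have hX : 0 ≤ (x1 - x0) / 2 := by linarith
  have hY : 0 ≤ (y1 - y0) / 2 := by linarith
  unfold Fr.Wd at hw
  rcases h with ⟨h1, h2⟩ | ⟨h1, h2⟩
  · left
    rw [h1, h2, gr_norm_fst hs hX, gr_norm_snd ht hY] at hw
    refine ⟨by linarith, ?_⟩
    rcases hs with rfl | rfl
    · left
      refine ⟨⟨?_, 1, t, Or.inl rfl, ht, Or.inl ⟨?_, h2⟩⟩, ⟨?_, 1, t, Or.inl rfl, ht, Or.inl ⟨?_, h2⟩⟩⟩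
      all_goals simp only [Fr.left, Fr.right, hc, h1]
      all_goals ext <;> simp <;> ring
    · right
      refine ⟨⟨?_, -1, t, Or.inr rfl, ht, Or.inl ⟨?_, h2⟩⟩,
        ⟨?_, -1, t, Or.inr rfl, ht, Or.inl ⟨?_, h2⟩⟩⟩
      all_goals simp only [Fr.left, Fr.right, hc, h1]
      all_goals ext <;> simp <;> ring
  · right
    rw [h1, h2, gr_norm_snd hs hY, gr_norm_fst ht hX] at hw
    refine ⟨by linarith, ?_⟩
    rcases hs with rfl | rfl
    · left
      refine ⟨⟨?_, 1, t, Or.inl rfl, ht, Or.inr ⟨?_, h2⟩⟩, ⟨?_, 1, t, Or.inl rfl, ht, Or.inr ⟨?_, h2⟩⟩⟩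
      all_goals simp only [Fr.left, Fr.right, hc, h1]
      all_goals ext <;> simp <;> ring
    · right
      refine ⟨⟨?_, -1, t, Or.inr rfl, ht, Or.inr ⟨?_, h2⟩⟩,
        ⟨?_, -1, t, Or.inr rfl, ht, Or.inr ⟨?_, h2⟩⟩⟩
      all_goals simp only [Fr.left, Fr.right, hc, h1]
      all_goals ext <;> simp <;> ring

theorem gr_aff_mem {x0 x1 s u : ℝ} (hx : x0 ≤ x1) (hs : s = 1 ∨ s = -1) (hu : |u| ≤ 1) :
    x0 ≤ (x0 + x1) / 2 + u * (s * ((x1 - x0) / 2)) ∧
      (x0 + x1) / 2 + u * (s * ((x1 - x0) / 2)) ≤ x1 := by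
  rw [abs_le] at hu
  rcases hs with rfl | rfl <;> constructor <;> nlinarith [hu.1, hu.2]

/-- The collapse makes the chart constant near the end points. -/
theorem gr_pc_fib {x0 x1 : ℤ} {s u z : ℝ} (hx : (x0 : ℝ) ≤ x1) (hs : s = 1 ∨ s = -1) (hu : |u| ≤ 1)
    (hz : 0 < z) (hz1 : z ≤ 1 / 2) (hz2 : z * ((x1 - x0) / 2) ≤ 1 / 4) :
    pc ((x0 + x1) / 2 + u * (s * ((x1 - x0) / 2))) =
      pc ((x0 + x1) / 2 + cl (z - 1) (1 - z) u * (s * ((x1 - x0) / 2))) := by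
  rw [abs_le] at hu
  have hX : 0 ≤ ((x1 : ℝ) - x0) / 2 := by linarith
  have near : ∀ v : ℝ, 1 - z ≤ v → v ≤ 1 →
      pc ((x0 + x1) / 2 + v * ((x1 - x0) / 2)) = x1 := by
    intro v h1 h2
    refine gr_pc_near ?_
    rw [abs_le]
    constructor <;> nlinarith
  have near' : ∀ v : ℝ, -1 ≤ v → v ≤ z - 1 →
      pc ((x0 + x1) / 2 + v * ((x1 - x0) / 2)) = x0 := by
    intro v h1 h2
    refine gr_pc_near ?_
    rw [abs_le]
    constructor <;> nlinarith
  rcases le_total u (z - 1) with h1 | h1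
  · have e : cl (z - 1) (1 - z) u = z - 1 := by
      unfold cl
      rw [min_eq_right (by linarith), max_eq_left h1]
    rw [e]
    rcases hs with rfl | rfl
    · rw [one_mul, near' u hu.1 h1, near' (z - 1) (by linarith) le_rfl]
    · rw [← mul_assoc, ← mul_assoc, near _ (by linarith) (by linarith),
        near _ (by linarith) (by linarith)]
  rcases le_total u (1 - z) with h2 | h2
  · rw [gr_cl_eq h1 h2]
  · have e : cl (z - 1) (1 - z) u = 1 - z := by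
      unfold cl
      rw [min_eq_left h2, max_eq_right (by linarith)]
    rw [e]
    rcases hs with rfl | rfl
    · rw [one_mul, near u h2 hu.2, near (1 - z) le_rfl (by linarith)]
    · rw [← mul_assoc, ← mul_assoc, near' _ (by linarith) (by linarith),
        near' _ (by linarith) (by linarith)]

theorem GSp.fib {F : Fr} {x0 x1 y0 y1 : ℤ} (h : GSp F x0 x1 y0 y1) (hx : (x0 : ℝ) ≤ x1)
    (hy : (y0 : ℝ) ≤ y1) : Fib (fun p => ((pc (F.W p).1, pc (F.W p).2) : P)) := by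
  obtain ⟨s, t, hs, ht, h⟩ := h.W
  set X : ℝ := ((x1 : ℝ) - x0) / 2 with hX
  set Y : ℝ := ((y1 : ℝ) - y0) / 2 with hY
  have hX0 : 0 ≤ X := by linarith
  have hY0 : 0 ≤ Y := by linarith
  have hd : 0 < 4 * (X + Y) + 2 := by linarith
  have hz : 0 < 1 / (4 * (X + Y) + 2) := by positivity
  have hz1 : 1 / (4 * (X + Y) + 2) ≤ 1 / 2 := one_div_le_one_div_of_le (by norm_num) (by linarith)
  have hzX : 1 / (4 * (X + Y) + 2) * X ≤ 1 / 4 := by
    rw [div_mul_eq_mul_div, div_le_iff₀ hd]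
    linarith
  have hzY : 1 / (4 * (X + Y) + 2) * Y ≤ 1 / 4 := by
    rw [div_mul_eq_mul_div, div_le_iff₀ hd]
    linarith
  refine ⟨1 / (4 * (X + Y) + 2), hz, hz1, fun p hp => ?_⟩
  rcases h with h | h
  · simp only [h]
    exact Prod.ext (gr_pc_fib hx hs hp.1 hz hz1 hzX) (gr_pc_fib hy ht hp.2 hz hz1 hzY)
  · simp only [h]
    exact Prod.ext (gr_pc_fib hx ht hp.2 hz hz1 hzX) (gr_pc_fib hy hs hp.1 hz hz1 hzY)

theorem GSp.mem {F : Fr} {x0 x1 y0 y1 : ℝ} (h : GSp F x0 x1 y0 y1) (hx : x0 ≤ x1) (hy : y0 ≤ y1)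
    {p : P} (hp : p ∈ sq) :
    (x0 ≤ (F.W p).1 ∧ (F.W p).1 ≤ x1) ∧ y0 ≤ (F.W p).2 ∧ (F.W p).2 ≤ y1 := by
  obtain ⟨s, t, hs, ht, h⟩ := h.W
  rcases h with h | h
  · rw [h]
    exact ⟨gr_aff_mem hx hs hp.1, gr_aff_mem hy ht hp.2⟩
  · rw [h]
    exact ⟨gr_aff_mem hx ht hp.2, gr_aff_mem hy hs hp.1⟩

theorem GSp.dist {F : Fr} {x0 y0 : ℝ} (h : GSp F x0 (x0 + 1) y0 (y0 + 1)) (p q : P) :
    dist (F.W p) (F.W q) ≤ 1 / 2 * dist p q := by
  obtain ⟨s, t, hs, ht, h⟩ := h.W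
  have key : ∀ c u v r d : ℝ, (r = 1 ∨ r = -1) →
      |c + u * (r * ((d + 1 - d) / 2)) - (c + v * (r * ((d + 1 - d) / 2)))| = 1 / 2 * |u - v| := by
    intro c u v r d hr
    rw [show c + u * (r * ((d + 1 - d) / 2)) - (c + v * (r * ((d + 1 - d) / 2))) =
      (r * (1 / 2)) * (u - v) by ring, abs_mul, gr_abs_sign hr (by norm_num)]
  have h3 := le_max_left |p.1 - q.1| |p.2 - q.2|
  have h4 := le_max_right |p.1 - q.1| |p.2 - q.2|
  rcases h with h | h
  · rw [h, h, Prod.dist_eq, Prod.dist_eq, Real.dist_eq, Real.dist_eq, Real.dist_eq, Real.dist_eq,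
      key _ _ _ _ _ hs, key _ _ _ _ _ ht]
    exact max_le (by linarith) (by linarith)
  · rw [h, h, Prod.dist_eq, Prod.dist_eq, Real.dist_eq, Real.dist_eq, Real.dist_eq, Real.dist_eq,
      key _ _ _ _ _ hs, key _ _ _ _ _ ht]
    exact max_le (by linarith) (by linarith)

theorem gr_aff_mono (c s X : ℝ) :
    Monotone (fun u : ℝ => pc (c + u * (s * X))) ∨ Antitone (fun u : ℝ => pc (c + u * (s * X))) := by
  rcases le_total 0 (s * X) with h | h
  · left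
    intro u v huv
    exact gr_pc_monotone (by nlinarith)
  · right
    intro u v huv
    exact gr_pc_monotone (by nlinarith)

/-- The trace on the first side is at most the number of marked cells along it. -/
theorem GSp.tr {M : Finset (ℤ × ℤ)} {F : Fr} {x0 x1 y0 y1 : ℤ} (h : GSp F x0 x1 y0 y1)
    (hx : x0 < x1) (hy : y0 < y1) :
    (∃ y : ℤ, (y = y0 ∨ y = y1 - 1) ∧
      Tr (uo M) (s0 fun p => ((pc (F.W p).1, pc (F.W p).2) : P)) (-1) 1
        (((Finset.Ico x0 x1).filter fun x => (x, y) ∈ M).card : ℕ)) ∨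
    (∃ x : ℤ, (x = x0 ∨ x = x1 - 1) ∧
      Tr (uo M) (s0 fun p => ((pc (F.W p).1, pc (F.W p).2) : P)) (-1) 1
        (((Finset.Ico y0 y1).filter fun y => (x, y) ∈ M).card : ℕ)) := by
  obtain ⟨s, t, hs, ht, h⟩ := h.W
  have hx' : (x0 : ℝ) ≤ x1 := by exact_mod_cast hx.le
  have hy' : (y0 : ℝ) ≤ y1 := by exact_mod_cast hy.le
  have line : ∀ a b : ℤ, ∃ c : ℤ, (c = a ∨ c = b - 1) ∧
      (c : ℝ) ≤ pc ((a + b) / 2 + -1 * (t * ((b - a) / 2))) ∧
        pc ((a + b) / 2 + -1 * (t * ((b - a) / 2))) ≤ c + 1 := by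
    intro a b
    rcases ht with rfl | rfl
    · refine ⟨a, Or.inl rfl, ?_⟩
      rw [show ((a : ℝ) + b) / 2 + -1 * (1 * ((b - a) / 2)) = a by ring, gr_pc_int]
      constructor <;> linarith
    · refine ⟨b - 1, Or.inr rfl, ?_⟩
      rw [show ((a : ℝ) + b) / 2 + -1 * (-1 * ((b - a) / 2)) = b by ring, gr_pc_int]
      push_cast
      constructor <;> linarith
  rcases h with h | h
  · left
    obtain ⟨y, hy1, hy2⟩ := line y0 y1
    refine ⟨y, hy1, gr_tr_core (α := fun u => pc ((x0 + x1) / 2 + u * (s * ((x1 - x0) / 2))))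
      (lo := x0) (hi := x1) (gr_pc_continuous.comp (by fun_prop)) (gr_aff_mono _ _ _) ?_ ?_ ?_⟩
    · intro u hu
      have := gr_aff_mem hx' hs (abs_le.2 hu)
      exact gr_pc_mem this.1 this.2
    · intro u u'
      simp only [s0, h]
      rw [Prod.dist_eq, dist_self, Real.dist_eq]
      exact max_le le_rfl (abs_nonneg _)
    · intro u _ hU j h1 h2 h3 h4
      rw [Finset.mem_filter, Finset.mem_Ico]
      refine ⟨⟨h1, h2⟩, gr_mark_of_mem hU ?_⟩
      simp only [s0, h]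
      exact ⟨⟨h3, h4⟩, hy2⟩
  · right
    obtain ⟨x, hx1, hx2⟩ := line x0 x1
    refine ⟨x, hx1, gr_tr_core (α := fun u => pc ((y0 + y1) / 2 + u * (s * ((y1 - y0) / 2))))
      (lo := y0) (hi := y1) (gr_pc_continuous.comp (by fun_prop)) (gr_aff_mono _ _ _) ?_ ?_ ?_⟩
    · intro u hu
      have := gr_aff_mem hy' hs (abs_le.2 hu)
      exact gr_pc_mem this.1 this.2
    · intro u u'
      simp only [s0, h]
      rw [Prod.dist_eq, dist_self, Real.dist_eq]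
      exact max_le (abs_nonneg _) le_rfl
    · intro u _ hU j h1 h2 h3 h4
      rw [Finset.mem_filter, Finset.mem_Ico]
      refine ⟨⟨h1, h2⟩, gr_mark_of_mem hU ?_⟩
      simp only [s0, h]
      exact ⟨hx2, ⟨h3, h4⟩⟩

end Pool.Agent.Lib.MP_ecd4e3_gt
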