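import Pool.Agent.Lib.MP_ecd4e3_gt.Chain
import Pool.Agent.Lib.MP_ecd4e3_gt.Cut

/-! Bookkeeping for lists of cells and the cutting step for chains. -/

namespace Pool.Agent.Lib.MP_ecd4e3_gt

open Set Filter Topology

open Classical in
/-- Indicator of a nonempty list. -/
noncomputable def ne (l : List It) : ℝ := if l = [] then 0 else 1

theorem ne_nil : ne [] = 0 := by simp [ne]

theorem ne_of {l : List It} (h : l ≠ []) : ne l = 1 := by simp [ne, h]

theorem ne_bd (l : List It) : 0 ≤ ne l ∧ ne l ≤ 1 := by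
  unfold ne; split_ifs <;> norm_num

/-- The induction measure. -/
def ms (l : List It) : ℕ := (l.map fun i => 4 ^ i.m).sum

theorem ms_append (l1 l2 : List It) : ms (l1 ++ l2) = ms l1 + ms l2 := by simp [ms]

theorem ms_cons (i : It) (l : List It) : ms (i :: l) = 4 ^ i.m + ms l := by simp [ms]

theorem ms_pos {l : List It} (h : l ≠ []) : 0 < ms l := by
  cases l with
  | nil => exact absurd rfl h
  | cons i l => rw [ms_cons]; positivity

namespace Env

variable (E : Env)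

noncomputable def Sl (l : List It) : ℝ := E.cs l - E.hb l
noncomputable def Sr (l : List It) : ℝ := E.cs l - E.lb l
noncomputable def bs (l : List It) : ℝ := (l.map fun i => bonus i.m (E.nu i.F)).sum
noncomputable def as (l : List It) : ℝ := (l.map fun i => base i.m (E.nu i.F)).sum

theorem xs_append (l1 l2 : List It) : E.xs (l1 ++ l2) = E.xs l1 + E.xs l2 := by simp [xs]
theorem ts_append (l1 l2 : List It) : E.ts (l1 ++ l2) = E.ts l1 + E.ts l2 := by simp [ts]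
theorem cs_append (l1 l2 : List It) : E.cs (l1 ++ l2) = E.cs l1 + E.cs l2 := by simp [cs]
theorem xs_cons (i : It) (l : List It) : E.xs (i :: l) = xx i.m (E.nu i.F) + E.xs l := by
  simp [xs]
theorem ts_cons (i : It) (l : List It) : E.ts (i :: l) = ta i.m (E.nu i.F) + E.ts l := by
  simp [ts]
theorem cs_cons (i : It) (l : List It) :
    E.cs (i :: l) = base i.m (E.nu i.F) + 2 * bonus i.m (E.nu i.F) + E.cs l := by simp [cs]
theorem xs_nil : E.xs [] = 0 := by simp [xs]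
theorem ts_nil : E.ts [] = 0 := by simp [ts]
theorem cs_nil : E.cs [] = 0 := by simp [cs]
theorem Sl_nil : E.Sl [] = 0 := by simp [Sl, cs, hb]
theorem Sr_nil : E.Sr [] = 0 := by simp [Sr, cs, lb, hb]

theorem hb_append {l1 : List It} (h : l1 ≠ []) (l2 : List It) : E.hb (l1 ++ l2) = E.hb l1 := by
  cases l1 with
  | nil => exact absurd rfl h
  | cons i l => rfl

theorem lb_append (l1 : List It) {l2 : List It} (h : l2 ≠ []) : E.lb (l1 ++ l2) = E.lb l2 := by
  unfold lb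
  rw [List.reverse_append, E.hb_append (by simpa using h)]

theorem lb_single (i : It) : E.lb [i] = bonus i.m (E.nu i.F) := rfl

theorem Sl_snoc (l : List It) (i : It) :
    E.Sl (l ++ [i]) = E.Sl l + base i.m (E.nu i.F) + (1 + ne l) * bonus i.m (E.nu i.F) := by
  by_cases h : l = []
  · subst h
    simp only [List.nil_append, Sl, cs_cons, cs_nil, hb, ne_nil]; ring
  · simp only [Sl, cs_append, cs_cons, cs_nil, E.hb_append h, ne_of h]; ring

theorem Sr_cons (l : List It) (i : It) :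
    E.Sr (i :: l) = E.Sr l + base i.m (E.nu i.F) + (1 + ne l) * bonus i.m (E.nu i.F) := by
  by_cases h : l = []
  · subst h
    have := E.Sr_nil
    simp only [Sr, cs_cons, cs_nil, lb_single, ne_nil] at this ⊢; linarith
  · have : E.lb (i :: l) = E.lb l := E.lb_append [i] h
    simp only [Sr, cs_cons, this, ne_of h]; ring

theorem Cr_append {l1 l2 : List It} (h1 : l1 ≠ []) (h2 : l2 ≠ []) :
    E.Cr (l1 ++ l2) = E.Sl l1 + E.Sr l2 := by
  simp only [Cr, Sl, Sr, cs_append, E.hb_append h1, E.lb_append l1 h2]; ring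

theorem Cr_split (l1 l2 : List It) (b : It) : E.Cr (l1 ++ b :: l2) =
    E.Sl l1 + E.Sr l2 + base b.m (E.nu b.F) + (ne l1 + ne l2) * bonus b.m (E.nu b.F) := by
  by_cases h : l1 = []
  · subst h
    have h1 := E.Sr_cons l2 b
    have h2 : E.hb (b :: l2) = bonus b.m (E.nu b.F) := rfl
    simp only [List.nil_append, Cr, Sl_nil, ne_nil, h2]
    simp only [Sr] at h1 ⊢
    linarith
  · rw [E.Cr_append h (List.cons_ne_nil _ _), E.Sr_cons, ne_of h]; ring

theorem cs_eq (l : List It) : E.cs l = E.as l + 2 * E.bs l := by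
  induction l with
  | nil => simp [cs, as, bs]
  | cons i l ih =>
    rw [cs_cons, ih]; simp only [as, bs, List.map_cons, List.sum_cons]; ring

variable {E}

theorem ok_nu {i : It} (h : Ok E i) : 0 < E.nu i.F ∧ E.nu i.F ≤ 2 ^ i.m := E.pos _ _ h.1

theorem sums_bd {l : List It} (h : ∀ i ∈ l, Ok E i) :
    0 ≤ E.bs l ∧ 0 ≤ E.xs l ∧ 0 ≤ E.ts l ∧ C0 / 10 * E.xs l ≤ E.as l := by
  induction l with
  | nil => simp [bs, xs, ts, as]
  | cons i l ih =>
    obtain ⟨h1, h2, h3, h4⟩ := ih fun j hj => h j (List.mem_cons_of_mem _ hj)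
    obtain ⟨p, q⟩ := ok_nu (h i List.mem_cons_self)
    obtain ⟨-, -, c3, c4, c5, -⟩ := cr_bd i.m p q
    obtain ⟨b1, b2, -⟩ := base_bd i.m p q
    have hC : 0 < C0 := by unfold C0; positivity
    rw [xs_cons, ts_cons]
    simp only [bs, as, List.map_cons, List.sum_cons] at h1 h4 ⊢
    refine ⟨by linarith, by linarith, by linarith, ?_⟩
    nlinarith

theorem hb_bd {l : List It} (h : ∀ i ∈ l, Ok E i) : 0 ≤ E.hb l ∧ E.hb l ≤ E.bs l := by
  cases l with
  | nil => simp [hb, bs]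
  | cons i l =>
    obtain ⟨h1, -⟩ := sums_bd fun j hj => h j (List.mem_cons_of_mem _ hj)
    obtain ⟨p, q⟩ := ok_nu (h i List.mem_cons_self)
    obtain ⟨-, b2, -⟩ := base_bd i.m p q
    simp only [hb, bs, List.map_cons, List.sum_cons] at h1 ⊢
    exact ⟨b2, by linarith⟩

theorem lb_bd {l : List It} (h : ∀ i ∈ l, Ok E i) : 0 ≤ E.lb l ∧ E.lb l ≤ E.bs l := by
  have := hb_bd (l := l.reverse) fun i hi => h i (List.mem_reverse.mp hi)
  have e : E.bs l.reverse = E.bs l := by simp [bs, List.map_reverse, List.sum_reverse]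
  rw [e] at this
  exact this

theorem cred_bd {l : List It} (h : ∀ i ∈ l, Ok E i) :
    0 ≤ E.xs l ∧ 0 ≤ E.ts l ∧ C0 / 10 * E.xs l ≤ E.Cr l ∧ E.Cr l ≤ E.Sl l ∧ E.Cr l ≤ E.Sr l ∧
      E.Sl l = E.Cr l + E.lb l ∧ E.Sr l = E.Cr l + E.hb l ∧ 0 ≤ E.lb l ∧ 0 ≤ E.hb l := by
  obtain ⟨h1, h2, h3, h4⟩ := sums_bd h
  obtain ⟨a1, a2⟩ := hb_bd h
  obtain ⟨b1, b2⟩ := lb_bd h
  have := E.cs_eq l
  simp only [Cr, Sl, Sr]
  refine ⟨h2, h3, by linarith, by linarith, by linarith, by ring, by ring, b1, a1⟩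

theorem ts_pos {l : List It} (h : ∀ i ∈ l, Ok E i) (hl : l ≠ []) : 0 < E.ts l := by
  cases l with
  | nil => exact absurd rfl hl
  | cons i l =>
    obtain ⟨-, -, h3, -⟩ := sums_bd fun j hj => h j (List.mem_cons_of_mem _ hj)
    obtain ⟨p, q⟩ := ok_nu (h i List.mem_cons_self)
    obtain ⟨-, -, -, -, c5, -⟩ := cr_bd i.m p q
    rw [ts_cons]; linarith

end Env

theorem cut_lists {E : Env} {Λ : P → P} {l1 l2 : List It} (n1 : l1 ≠ []) (n2 : l2 ≠ [])
    (hc : Chain E Λ (-1) 1 (l1 ++ l2)) (ho : ∀ i ∈ l1 ++ l2, Ok E i) (h1 : E.HC l1)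
    (h2 : E.HC l2) {R : Box} (hR : R.Valid)
    (hn : ∀ φ1 φ2 : ℝ, 0 ≤ φ1 → φ1 ≤ 16 / 3 → 0 ≤ φ2 → φ2 ≤ 16 / 3 →
      φ1 * E.xs l1 + φ2 * E.xs l2 ≤ (R.phi - R.drop) * (E.xs l1 + E.xs l2) →
      (√(E.Cr l1 + k2 * C0 * E.xs l1 * φ1) + (BB + 1000) * E.ts l1) ^ 2
          + (√(E.Cr l2 + k2 * C0 * E.xs l2 * φ2) + (BB + 1000) * E.ts l2) ^ 2 ≤ R.sz ^ 2 ∧
        (√(E.Cr l1 + k2 * C0 * E.xs l1 * φ1) + (BB + 1000) * E.ts l1) ^ 2 ≤ 15 / 16 * R.sz ^ 2 ∧
        (√(E.Cr l2 + k2 * C0 * E.xs l2 * φ2) + (BB + 1000) * E.ts l2) ^ 2 ≤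
          15 / 16 * R.sz ^ 2) :
    EC E.U Λ R := by
  obtain ⟨x, c1, c2⟩ := chain_append.mp hc
  have o1 : ∀ i ∈ l1, Ok E i := fun i hi => ho i (List.mem_append_left _ hi)
  have o2 : ∀ i ∈ l2, Ok E i := fun i hi => ho i (List.mem_append_right _ hi)
  have s1 := c1.scale n1
  have s2 := c2.scale n2
  obtain ⟨f1, u1, t1⟩ := s1.props o1
  obtain ⟨f2, u2, t2⟩ := s2.props o2
  exact cut_step E.hU (c1.lt n1) (c2.lt n2) f1 f2 u1 u2 t1 t2 (Env.ts_pos o1 n1)
    (Env.ts_pos o2 n2) (Env.cred_bd o1).1 (Env.cred_bd o2).1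
    (fun R' v a hs => h1 _ R' s1 v (fun _ _ => a) hs)
    (fun R' v a hs => h2 _ R' s2 v (fun _ _ => a) hs) hR hn

end Pool.Agent.Lib.MP_ecd4e3_gt
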