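import Pool.Agent.Lib.MP_ecd4e3_gt.Refine
import Pool.Agent.Lib.MP_ecd4e3_gt.FAlg
import Pool.Agent.Lib.MP_ecd4e3_gt.FTop

/-! The main induction. -/

namespace Pool.Agent.Lib.MP_ecd4e3_gt

open Set Filter Topology

theorem drop_nonneg (R : Box) : 0 ≤ R.drop := by unfold Box.drop; split_ifs <;> norm_num

theorem piece_num {C c x φ : ℝ} (hC : 0 < C) (hx : 0 ≤ x) (h : C / 10 * x ≤ c) (f0 : 0 ≤ φ)
    (f1 : φ ≤ 16 / 3) :
    0 ≤ c ∧ 0 ≤ k2 * C * x * φ ∧ k2 * C * x * φ ≤ c / 10 ^ 20 := by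
  have p := mul_nonneg hC.le hx
  have q := mul_nonneg p f0
  have r := mul_le_mul_of_nonneg_left f1 p
  rw [hk2]
  refine ⟨by linarith, by linarith, by linarith⟩

/-- All lists of smaller measure are solved. -/
def Below (E : Env) (n : ℕ) : Prop :=
  ∀ l, l ≠ [] → (∀ i ∈ l, Ok E i) → ms l < n → E.HC l

theorem cut_go {E : Env} {Λ : P → P} {l1 l2 : List It} (n1 : l1 ≠ []) (n2 : l2 ≠ [])
    (hc : Chain E Λ (-1) 1 (l1 ++ l2)) (ho : ∀ i ∈ l1 ++ l2, Ok E i)
    (ih : Below E (ms (l1 ++ l2))) {R : Box} (hR : R.Valid)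
    (hs : E.need (l1 ++ l2) R.phi ≤ R.sz)
    (h : (2 * (BB * E.ts (l1 ++ l2)) ≤ √(E.Cr (l1 ++ l2) + k2 * C0 * E.xs (l1 ++ l2) * R.phi) ∧
        E.Cr l1 ≤ 86 / 100 * E.Cr (l1 ++ l2) ∧ E.Cr l2 ≤ 86 / 100 * E.Cr (l1 ++ l2)) ∨
      (√(E.Cr (l1 ++ l2) + k2 * C0 * E.xs (l1 ++ l2) * R.phi) ≤ 2 * (BB * E.ts (l1 ++ l2)) ∧
        E.ts l1 ≤ 11 / 20 * E.ts (l1 ++ l2) ∧ E.ts l2 ≤ 11 / 20 * E.ts (l1 ++ l2))) :
    EC E.U Λ R := by
  have o1 : ∀ i ∈ l1, Ok E i := fun i hi => ho i (List.mem_append_left _ hi)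
  have o2 : ∀ i ∈ l2, Ok E i := fun i hi => ho i (List.mem_append_right _ hi)
  have z1 := ms_pos n1
  have z2 := ms_pos n2
  have hms := ms_append l1 l2
  refine cut_lists n1 n2 hc ho (ih _ n1 o1 (by omega)) (ih _ n2 o2 (by omega)) hR ?_
  intro φ1 φ2 f1 f1' f2 f2' hφ
  obtain ⟨x1, t1, c1, d1, -⟩ := Env.cred_bd o1
  obtain ⟨x2, t2, c2, -, d2, -⟩ := Env.cred_bd o2
  obtain ⟨x, -, c, -⟩ := Env.cred_bd ho
  obtain ⟨ph0, ph1⟩ := hR.phi_bd
  obtain ⟨a1, a2, a3⟩ := piece_num C0_pos x1 c1 f1 f1'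
  obtain ⟨b1, b2, b3⟩ := piece_num C0_pos x2 c2 f2 f2'
  obtain ⟨g1, g2, -⟩ := piece_num C0_pos x c ph0 ph1
  have hC := E.Cr_append n1 n2
  have hX := E.xs_append l1 l2
  have hT := E.ts_append l1 l2
  have hW : E.Cr l1 + k2 * C0 * E.xs l1 * φ1 + (E.Cr l2 + k2 * C0 * E.xs l2 * φ2) ≤
      E.Cr (l1 ++ l2) + k2 * C0 * E.xs (l1 ++ l2) * R.phi := by
    have h1 := mul_le_mul_of_nonneg_left hφ (mul_pos k2_pos C0_pos).le
    have h2 := mul_nonneg (mul_nonneg (mul_pos k2_pos C0_pos).le (add_nonneg x1 x2))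
      (drop_nonneg R)
    rw [hX]
    linarith only [h1, h2, hC, d1, d2]
  unfold Env.need at hs
  rcases h with ⟨h1, h2, h3⟩ | ⟨h1, h2, h3⟩
  · refine num1 (by linarith only [a1, a2]) (by linarith only [b1, b2]) t1 t2 hW
      (by linarith only [a3, h2, g1, g2]) (by linarith only [b3, h3, g1, g2]) hT.ge ?_ hs
    have := Real.sqrt_nonneg (E.Cr (l1 ++ l2) + k2 * C0 * E.xs (l1 ++ l2) * R.phi)
    linarith only [this, h1]
  · exact num2 (by linarith only [a1, a2]) (by linarith only [b1, b2]) t1 t2 hW h2 h3 hT.ge h1 hs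

theorem Sl_nonneg {E : Env} {l : List It} (h : ∀ i ∈ l, Ok E i) : 0 ≤ E.Sl l ∧ 0 ≤ E.Sr l := by
  obtain ⟨x, -, c, d1, d2, -⟩ := Env.cred_bd h
  have := mul_nonneg C0_pos.le x
  constructor <;> linarith

theorem sqrt_le_sz {R : Box} {W : ℝ} (h : W ≤ R.area) : √W ≤ R.sz := Real.sqrt_le_sqrt h

theorem le_area {R : Box} (hR : R.Valid) {W : ℝ} (h : √W ≤ R.sz) : W ≤ R.area := by
  obtain ⟨h0, -, -, h1⟩ := hR.sz_bd
  rw [← h1]
  exact (Real.sqrt_le_left h0.le).mp h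

/-- A single rectangular target is handled by the martingale mode. -/
theorem single_rect {E : Env} {m : ℕ} {F : Fr} (hc : E.cell m F) (hw : F.Wd) (fc : E.FC m)
    {R : Box} (hR : R.Valid) (hr : R.Rect) (ha : R.Asp 19) (hn : cr m (E.nu F) ≤ R.area) :
    EC E.U (E.ch F) R := by
  obtain ⟨p, q⟩ := E.pos _ _ hc
  obtain ⟨c1, -, -, -, c5, -⟩ := cr_bd m p q
  have hCν := mul_pos C0_pos p
  have key : ∀ R : Box, R.Valid → R.Rect → R.Asp 19 → cr m (E.nu F) ≤ R.area → R.h ≤ R.w →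
      EC E.U (E.ch F) R := by
    intro R hR hr ha hn hh
    have sm := ta_small (W := R.area) p q (by linarith)
    refine ec_of_fill hc hR ?_ (fc F R _ _ hc hw (fst_entry hR hr ha hh hn))
    unfold Box.sz
    linarith
  rcases le_total R.h R.w with hh | hh
  · exact key R hR hr ha hn hh
  · refine EC.of_rot (key R.rot hR.rot ((Box.rot_rect R).mpr hr) ha.rot ?_ ?_)
    · rw [Box.rot_area]; exact hn
    · rw [Box.rot_h, Box.rot_w]; exact hh

theorem blk_ec {E : Env} {i : It} {K : P → P} (h : Blk E i K) (R : Box) :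
    EC E.U K R ↔ EC E.U (E.ch i.F) R := by
  obtain ⟨-, χ, he, -⟩ := h
  obtain ⟨ψ, he', -⟩ := he.symm
  exact ⟨fun h => he'.ec h, fun h => he.ec h⟩

theorem fc_step {E : Env} {m : ℕ} (ih : Below E (4 ^ m)) (ifc : ∀ k, m = k + 1 → E.FC k) :
    E.FC m := by
  intro F R w0 h0 hc hw hs
  obtain ⟨hR, -, -⟩ := hs.valid
  have hcr := hs.cr_le
  obtain ⟨p, q⟩ := E.pos _ _ hc
  obtain ⟨c1, c2, c3, c4, c5, c6⟩ := cr_bd m p q
  have hCν := mul_pos C0_pos p
  have hCx := mul_pos C0_pos c3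
  have hCx' := mul_le_mul_of_nonneg_left c4 C0_pos.le
  have sm : 10 ^ 40 * ta m (E.nu F) ≤ R.sz := ta_small (W := R.area) p q (by linarith)
  have sm' : 10 ^ 49 * √(E.nu F) ≤ R.sz := rt_small (W := R.area) p (by linarith)
  obtain ⟨v', s', p', d'⟩ := hR.shr (d := 1000 * ta m (E.nu F)) (by positivity) (by linarith)
  have exit : EC E.U (E.ch F) (R.shr (1000 * ta m (E.nu F))) → E.Fill m F R := fun h =>
    fill_of_gc hR.1 (frame E.hU hR (E.ch_fib hc) (E.ch_up F)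
      ((E.ch_str hc).le (by linarith)) c5 (by linarith) h)
  cases m with
  | zero =>
    refine exit (term_ec v' (Real.sqrt_nonneg _) ?_ (E.term F hc))
    have := Real.sqrt_nonneg (E.nu F)
    rw [s']; linarith
  | succ k =>
    obtain ⟨cl, cr', hsum⟩ := E.half k F hc hw
    obtain ⟨pp, qq, K, ty, bk⟩ := blk_exists hc hw
    have go : ∀ W0 : ℝ, W0 ≤ R.area → C0 * E.nu F ≤ W0 → W0 ≤ 4 * C0 * E.nu F →
        ((d0 * E.nu F ≤ |E.nu F.left - E.nu F.right| ∧ cr (k + 1) (E.nu F) ≤ W0) ∨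
          (|E.nu F.left - E.nu F.right| ≤ d0 * E.nu F ∧
            cr (k + 1) (E.nu F) + 10 * (k1 * C0 * xx (k + 1) (E.nu F)) ≤ W0)) →
        E.Fill (k + 1) F R := by
      intro W0 h1 h2 h3 h4
      refine exit ((blk_ec bk _).mp ?_)
      have hW := Real.sqrt_nonneg W0
      refine refine_go (l1 := []) (l2 := []) (b := ⟨k + 1, F, pp, qq⟩) (m := k) (W0 := W0) rfl
        (chain_single.mpr bk) ?_ ?_ v' ?_ ?_ h2 h3 ?_ ?_
      · intro i hi
        rw [List.nil_append, List.mem_singleton] at hi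
        subst hi
        exact ⟨hc, hw, ty⟩
      · intro l a b c
        exact ih l a b (by simpa [ms] using c)
      · have := sqrt_le_sz h1
        rw [s', E.ts_nil]; linarith
      · rw [E.ts_nil]; linarith
      · rw [E.Sl_nil, E.Sr_nil]; linarith
      · rw [E.Sl_nil, E.Sr_nil, E.xs_nil, ne_nil]
        obtain ⟨ph0, ph1⟩ := v'.phi_bd
        rcases h4 with ⟨h4, h5⟩ | ⟨h4, h5⟩
        · exact Or.inl ⟨h4, by linarith⟩
        · have a1 := mul_le_mul_of_nonneg_left ph1 hCx.le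
          have a2 := mul_nonneg hCx.le (drop_nonneg (R.shr (1000 * ta (k + 1) (E.nu F))))
          refine Or.inr ⟨h4, 8 * (k1 * C0 * xx (k + 1) (E.nu F)), ?_, ?_, ?_⟩
          · rw [hk1]; linarith only [hCx]
          · rw [hk1] at h5 ⊢
            rw [hk2]
            linarith only [h5, a1, hCx]
          · rw [hk1, hk2]
            linarith only [a2, hCx]
    rcases le_total (d0 * E.nu F) |E.nu F.left - E.nu F.right| with hd | hd
    · exact go _ hcr c1 (by linarith) (Or.inl ⟨hd, le_rfl⟩)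
    by_cases hx : P0 ≤ R.pot w0 h0 ∨ 8 * C0 * E.nu F ≤ 4 * w0 * h0
    · refine go _ (fst_exit hs p q hx) ?_ ?_ (Or.inr ⟨hd, le_rfl⟩)
      · rw [hk1]; linarith
      · rw [hk1]; linarith
    push Not at hx
    obtain ⟨pa, qa⟩ := E.pos _ _ cl
    obtain ⟨pb, qb⟩ := E.pos _ _ cr'
    rw [hsum] at hs hd
    obtain ⟨c, yb, yt, hcut, s1, s2⟩ :=
      fst_step hs hx.1.le (by rw [← hsum]; exact hx.2.le) pa pb qa qb hd
    obtain ⟨wl, wr⟩ := E.wd_child hc
    obtain ⟨l1, l2⟩ := E.rot _ _ cl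
    obtain ⟨r1, r2⟩ := E.rot _ _ cr'
    obtain ⟨r3, r4⟩ := E.rot _ _ r1
    obtain ⟨r5, r6⟩ := E.rot _ _ r3
    have v1 := s1.valid.1.rot.rot.rot
    rw [Box.rot_four] at v1
    refine fill_step hc hw hR hcut v1 (by linarith) ?_
      (ifc k rfl _ _ _ _ l1 wl (by rw [l2]; exact s1))
      (ifc k rfl _ _ _ _ r5 wr (by rw [r6, r4, r2]; exact s2))
    obtain ⟨a1, -, -, -, a5, -⟩ := cr_bd k pa qa
    have a2 := s1.cr_le
    rw [Box.rot_area] at a2
    have a3 := mul_pos C0_pos pa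
    have := ta_small (W := (R.cutL c R.mid yb (-((R.a2 + R.b2) / 2)) yt).area) pa qa
      (by linarith only [a1, a2, a3])
    unfold Box.sz
    linarith only [this, a5]

theorem fc_all {E : Env} : ∀ m, Below E (4 ^ m) → E.FC m := by
  intro m
  induction m with
  | zero => exact fun h => fc_step h fun k hk => by omega
  | succ m ih =>
    intro h
    refine fc_step h fun k hk => ?_
    obtain rfl : m = k := by omega
    refine ih fun l a b c => h l a b (lt_trans c ?_)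
    exact Nat.pow_lt_pow_right (by norm_num) (Nat.lt_succ_self _)

theorem hc_step {E : Env} {l : List It} (hl : l ≠ []) (ho : ∀ i ∈ l, Ok E i)
    (ih : Below E (ms l)) : E.HC l := by
  intro Λ R hc hR hA hs
  obtain ⟨ph0, ph1⟩ := hR.phi_bd
  obtain ⟨x0, -, c0, -⟩ := Env.cred_bd ho
  obtain ⟨g1, g2, g3⟩ := piece_num C0_pos x0 c0 ph0 ph1
  have τ0 := Env.ts_pos ho hl
  have hs' := hs
  unfold Env.need at hs'
  have hBτ := mul_pos BB_pos τ0
  rcases le_total (√(E.Cr l + k2 * C0 * E.xs l * R.phi)) (2 * (BB * E.ts l)) with hA' | hB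
  · obtain ⟨l1, b, l2, rfl, m1, m2⟩ := exists_median E.ts E.ts (E.ts l) l hl
      (by rw [E.ts_nil]; linarith) (by rw [E.ts_nil]; linarith)
      (fun l1 l2 _ _ h => by rw [h, E.ts_append])
    have ob : Ok E b := ho b (by simp)
    have o1 : ∀ i ∈ l1, Ok E i := fun i hi => ho i (by simp [hi])
    have o2 : ∀ i ∈ l2, Ok E i := fun i hi => ho i (by simp [hi])
    obtain ⟨p, q⟩ := Env.ok_nu ob
    obtain ⟨b1, b2, -⟩ := base_bd b.m p q
    have sp := E.Cr_split l1 l2 b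
    have a1 := (Sl_nonneg o1).1
    have a2 := (Sl_nonneg o2).2
    have a3 := mul_nonneg (add_nonneg (ne_bd l1).1 (ne_bd l2).1) b2
    have sm := ta_small (W := E.Cr (l1 ++ b :: l2) + k2 * C0 * E.xs (l1 ++ b :: l2) * R.phi) p q
      (by linarith only [b1, sp, a1, a2, a3, g2])
    have hT : E.ts (l1 ++ b :: l2) = E.ts l1 + (ta b.m (E.nu b.F) + E.ts l2) := by
      rw [E.ts_append, E.ts_cons]
    have sm' : ta b.m (E.nu b.F) ≤ E.ts (l1 ++ b :: l2) / 100 := by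
      rw [hBB] at hA'; linarith only [hA', sm, τ0]
    have n1 : l1 ≠ [] := by
      rintro rfl
      rw [E.ts_nil] at hT
      linarith only [hT, sm', m2, τ0]
    refine cut_go n1 (List.cons_ne_nil _ _) hc ho ih hR hs (Or.inr ⟨hA', ?_, ?_⟩)
    · linarith only [m1, τ0]
    · rw [E.ts_cons]; linarith only [m2, sm', τ0]
  obtain ⟨l1, b, l2, rfl, m1, m2⟩ := exists_median E.Sl E.Sr (E.Cr l) l hl
    (by rw [E.Sl_nil]; linarith) (by rw [E.Sr_nil]; linarith)
    (fun l1 l2 a b h => by rw [h, E.Cr_append a b])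
  have ob : Ok E b := ho b (by simp)
  have o1 : ∀ i ∈ l1, Ok E i := fun i hi => ho i (by simp [hi])
  have o2 : ∀ i ∈ l2, Ok E i := fun i hi => ho i (by simp [hi])
  have o3 : ∀ i ∈ b :: l2, Ok E i := fun i hi => ho i (List.mem_append_right _ hi)
  have o4 : ∀ i ∈ l1 ++ [b], Ok E i := fun i hi => ho i (by
    simp only [List.mem_append, List.mem_cons, List.not_mem_nil, or_false] at hi ⊢; tauto)
  obtain ⟨p, q⟩ := Env.ok_nu ob
  obtain ⟨b1, b2, b3⟩ := base_bd b.m p q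
  obtain ⟨c1, c2, c3, c4, c5, c6⟩ := cr_bd b.m p q
  have sp := E.Cr_split l1 l2 b
  have a1 := (Sl_nonneg o1).1
  have a2 := (Sl_nonneg o2).2
  obtain ⟨n1, n1'⟩ := ne_bd l1
  obtain ⟨n2, n2'⟩ := ne_bd l2
  have a3 := mul_nonneg (add_nonneg n1 n2) b2
  have hCν := mul_pos C0_pos p
  have hCx := mul_pos C0_pos c3
  have hCx' := mul_le_mul_of_nonneg_left c4 C0_pos.le
  obtain ⟨x1, t1, -, d1, -⟩ := Env.cred_bd o1
  obtain ⟨x2, t2, -, -, d2, -⟩ := Env.cred_bd o2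
  have e3 : E.Cr (b :: l2) =
      E.Sr l2 + base b.m (E.nu b.F) + ne l2 * bonus b.m (E.nu b.F) := by
    have := E.Cr_split [] l2 b
    rw [List.nil_append, E.Sl_nil, ne_nil] at this
    rw [this]; ring
  have e4 : E.Cr (l1 ++ [b]) =
      E.Sl l1 + base b.m (E.nu b.F) + ne l1 * bonus b.m (E.nu b.F) := by
    rw [E.Cr_split, E.Sr_nil, ne_nil]; ring
  have hsp : l1 ++ b :: l2 = (l1 ++ [b]) ++ l2 := by simp
  have cutL : l1 ≠ [] →
      15 / 100 * E.Cr (l1 ++ b :: l2) ≤ E.Sl l1 + bonus b.m (E.nu b.F) → EC E.U Λ R := by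
    intro n h
    refine cut_go n (List.cons_ne_nil _ _) hc ho ih hR hs (Or.inl ⟨hB, ?_, ?_⟩)
    · linarith only [d1, m1, g1]
    · rw [ne_of n] at sp
      linarith only [sp, e3, h, g1]
  have cutR : l2 ≠ [] →
      15 / 100 * E.Cr (l1 ++ b :: l2) ≤ E.Sr l2 + bonus b.m (E.nu b.F) → EC E.U Λ R := by
    intro n h
    rw [ne_of n] at sp
    rw [hsp] at hc ho ih hs hB sp h m2 g1
    refine cut_go (by simp) n hc ho ih hR hs (Or.inl ⟨hB, ?_, ?_⟩)
    · linarith only [sp, e4, h, g1]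
    · linarith only [d2, m2, g1]
  rcases le_total (3 / 10 * E.Cr (l1 ++ b :: l2)) (E.Sl l1 + E.Sr l2) with hl | hh
  · rcases le_total (E.Sl l1) (E.Sr l2) with h | h
    · refine cutR ?_ (by linarith only [hl, h, b2])
      rintro rfl
      rw [E.Sr_nil] at hl h
      linarith only [hl, h, sp, a1, a2, a3, b1, hCν]
    · refine cutL ?_ (by linarith only [hl, h, b2])
      rintro rfl
      rw [E.Sl_nil] at hl h
      linarith only [hl, h, sp, a1, a2, a3, b1, hCν]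
  have hT : E.ts (l1 ++ b :: l2) = E.ts l1 + (ta b.m (E.nu b.F) + E.ts l2) := by
    rw [E.ts_append, E.ts_cons]
  have hX : E.xs (l1 ++ b :: l2) = E.xs l1 + (xx b.m (E.nu b.F) + E.xs l2) := by
    rw [E.xs_append, E.xs_cons]
  have single : l1 = [] → l2 = [] → EC E.U (E.ch b.F) R → EC E.U Λ R := by
    rintro rfl rfl h
    exact (blk_ec (chain_single.mp hc) R).mpr h
  obtain hm | ⟨m, hm⟩ : b.m = 0 ∨ ∃ m, b.m = m + 1 := by
    cases b.m with
    | zero => exact Or.inl rfl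
    | succ m => exact Or.inr ⟨m, rfl⟩
  · have eb : base b.m (E.nu b.F) = C0 * E.nu b.F / 10 := by rw [hm]; simp [base]
    have eo : bonus b.m (E.nu b.F) = C0 * E.nu b.F / 5 := by rw [hm]; simp [bonus]
    have a4 := mul_le_mul_of_nonneg_right (add_le_add n1' n2') b2
    by_cases h1 : l1 = []
    · by_cases h2 : l2 = []
      · refine single h1 h2 (term_ec hR (Real.sqrt_nonneg _) ?_ (E.term b.F (hm ▸ ob.1)))
        have := rt_small (W := E.Cr (l1 ++ b :: l2) + k2 * C0 * E.xs (l1 ++ b :: l2) * R.phi) p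
          (by linarith only [b1, sp, a1, a2, a3, g2])
        have h0 := Real.sqrt_nonneg (E.nu b.F)
        linarith only [this, h0, hs', hBτ]
      · exact cutR h2 (by linarith only [sp, hh, eb, eo, a4, a2, hCν])
    · exact cutL h1 (by linarith only [sp, hh, eb, eo, a4, a1, hCν])
  have eb : base b.m (E.nu b.F) = cr b.m (E.nu b.F) + k1 * C0 * xx b.m (E.nu b.F) := by
    rw [hm]; simp [base]
  have eo : bonus b.m (E.nu b.F) = k1 * C0 * xx b.m (E.nu b.F) := by rw [hm]; simp [bonus]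
  have a4 := mul_le_mul_of_nonneg_right (add_le_add n1' n2') b2
  have a5 : 0 < k1 * C0 * xx b.m (E.nu b.F) := mul_pos (mul_pos k1_pos C0_pos) c3
  have a6 : k1 * C0 * xx b.m (E.nu b.F) ≤ C0 * E.nu b.F / 1000 := by
    rw [hk1]; linarith only [hCx', hCν]
  by_cases hF : l1 = [] ∧ l2 = [] ∧ R.Rect
  · obtain ⟨h1, h2, hr⟩ := hF
    refine single h1 h2 (single_rect ob.1 ob.2.1 (fc_all _ ?_) hR hr (hA ?_ hr) ?_)
    · subst h1 h2
      simpa [ms] using ih
    · subst h1 h2; rfl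
    · refine le_trans ?_ (le_area hR (le_trans (le_add_of_nonneg_right hBτ.le) hs'))
      linarith only [sp, a1, a2, a3, eb, a5, g2]
  have hBt := mul_pos BB_pos c5
  rw [hm] at c5 hBt hT
  refine refine_go (W0 := E.Cr (l1 ++ b :: l2) + k2 * C0 * E.xs (l1 ++ b :: l2) * R.phi) hm hc ho
    ih hR ?_ ?_ ?_ ?_ ?_ ?_
  · rw [hT] at hs'
    linarith only [hs', hBt, c5]
  · rw [hT] at hB
    linarith only [hB, hBt]
  · linarith only [sp, a1, a2, a3, eb, a5, g2, c1]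
  · linarith only [sp, hh, eb, eo, a4, a6, c2, g3, hCν]
  · linarith only [hh, g1, g2]
  · rw [← hm]
    have a7 := mul_nonneg (mul_pos (mul_pos k2_pos C0_pos) c3).le ph0
    rcases le_total (d0 * E.nu b.F) |E.nu b.F.left - E.nu b.F.right| with hd | hd
    · refine Or.inl ⟨hd, ?_⟩
      rw [hX]
      linarith only [sp, a3, eb, a5, a7]
    · refine Or.inr ⟨hd, 0, le_rfl, ?_, ?_⟩
      · rw [hX, sp, eb, eo]
        linarith only []
      · have a8 := mul_nonneg hCx.le (drop_nonneg R)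
        have a9 := mul_nonneg n1 hCx.le
        have a10 := mul_nonneg n2 hCx.le
        by_cases h1 : l1 = []
        · by_cases h2 : l2 = []
          · have hr : ¬ R.Rect := fun hr => hF ⟨h1, h2, hr⟩
            have : R.drop = 1 / 1200 := by simp [Box.drop, hr]
            rw [this, hk1, hk2]
            linarith only [a9, a10, hCx]
          · rw [ne_of h2, hk1, hk2]
            linarith only [a8, a9, hCx]
        · rw [ne_of h1, hk1, hk2]
          linarith only [a8, a10, hCx]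

theorem hc_all {E : Env} : ∀ n, Below E n := by
  intro n
  induction n with
  | zero => exact fun l _ _ h => absurd h (Nat.not_lt_zero _)
  | succ n ih => exact fun l a b c => hc_step a b fun l' a' b' c' => ih l' a' b' (by omega)

theorem root_emb {E : Env} {m : ℕ} {F : Fr} (hc : E.cell m F) (hw : F.Wd) :
    ∃ f, Emb E.U (E.ch F) (sbox (sC * √(E.nu F))).set f := by
  obtain ⟨pp, qq, K, ty, bk⟩ := blk_exists hc hw
  obtain ⟨p, q⟩ := E.pos _ _ hc
  have hr : 0 < √(E.nu F) := Real.sqrt_pos.mpr p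
  have hs : 0 < sC * √(E.nu F) := mul_pos (by unfold sC; positivity) hr
  obtain ⟨v, a, -⟩ := sbox_valid hs
  have ho : ∀ i ∈ [(⟨m, F, pp, qq⟩ : It)], Ok E i := by
    intro i hi
    rw [List.mem_singleton] at hi
    subst hi
    exact ⟨hc, hw, ty⟩
  have h := hc_all _ _ (List.cons_ne_nil _ _) ho (Nat.lt_succ_self _) K _ (chain_single.mpr bk) v
    (fun _ _ => a) ?_
  · obtain ⟨σ, -, -, f, hf, -⟩ := (blk_ec bk _).mp h
    exact ⟨f, hf⟩
  obtain ⟨ph0, ph1⟩ := v.phi_bd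
  obtain ⟨x0, -, c0, -⟩ := Env.cred_bd ho
  obtain ⟨g1, g2, g3⟩ := piece_num C0_pos x0 c0 ph0 ph1
  obtain ⟨-, c2, c3, c4, c5, c6⟩ := cr_bd m p q
  obtain ⟨-, -, b3⟩ := base_bd m p q
  have b4 := b3 0 le_rfl (by norm_num)
  have hCν := mul_pos C0_pos p
  have hCx' := mul_le_mul_of_nonneg_left c4 C0_pos.le
  have sp := E.Cr_split [] [] ⟨m, F, pp, qq⟩
  rw [List.nil_append, E.Sl_nil, E.Sr_nil, ne_nil] at sp
  have hT : E.ts [(⟨m, F, pp, qq⟩ : It)] = ta m (E.nu F) := by rw [E.ts_cons, E.ts_nil, add_zero]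
  have hz : (sbox (sC * √(E.nu F))).sz = 2 * (sC * √(E.nu F)) := by
    unfold Box.sz
    rw [sbox_area, show 4 * (sC * √(E.nu F)) ^ 2 = (2 * (sC * √(E.nu F))) ^ 2 by ring,
      Real.sqrt_sq (by linarith)]
  have hW : E.Cr [(⟨m, F, pp, qq⟩ : It)] + k2 * C0 * E.xs [(⟨m, F, pp, qq⟩ : It)] *
      (sbox (sC * √(E.nu F))).phi ≤ (3 / 2) ^ 2 * (C0 * E.nu F) := by
    rw [hk1] at b4
    simp only at sp
    linarith only [g3, sp, b4, c2, hCx', hCν]
  have h2 := Real.sqrt_le_sqrt hW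
  rw [Real.sqrt_mul (by positivity), Real.sqrt_sq (by norm_num), sqrt_C0] at h2
  unfold Env.need
  rw [hT, hz, hBB]
  have e : sC = 10 ^ 50 := by rw [sC]
  have h3 : 10 ^ 8 * ta m (E.nu F) ≤ 1 / 2 * (sC * √(E.nu F)) := by
    rw [e]; linarith only [c6, hr]
  linarith only [h2, h3]

end Pool.Agent.Lib.MP_ecd4e3_gt
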