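import Pool.Agent.Lib.MP_ecd4e3_gt.NotchA

/-! Opening two notches along a collapsed vertical band: the ring part. -/

namespace Pool.Agent.Lib.MP_ecd4e3_gt

open Set Filter Topology

open NotchAux in
/-- The ring part: a solution for the pinched chart extends over the notches. -/
theorem notch_ec {U : Set P} (hU : IsOpen U) {Z : P → P} {μ : ℝ → P} {z x0 d y1 y2 τ : ℝ}
    (hz : 0 < z) (hz' : z ≤ 1 / 2)
    (hf : ∀ p ∈ sq, Z p = Z (cl (z - 1) (1 - z) p.1, cl (z - 1) (1 - z) p.2))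
    (hd : 0 < d) (hl : z - 1 < x0 - 2 * d) (hr : x0 + 2 * d < 1 - z)
    (hμ : ∀ p ∈ sq, |p.1 - x0| ≤ 2 * d → Z p = μ p.2) (hm : LipC μ (-1) 1)
    (h1 : z - 1 < y1) (h12 : y1 < y2) (h2 : y2 < 1 - z) (ht : Tr U μ (-1) 1 τ) (hτ : 0 < τ)
    {R : Box} (hR : R.Valid) (hs : 2000 * τ ≤ R.sz)
    (h : EC U (fun p => Z (p.1, om z x0 d y1 y2 p)) (R.shr (1000 * τ))) : EC U Z R := by
  obtain ⟨σ, hσ, hA, fi, hfi, hb⟩ := h
  obtain ⟨c, hc⟩ : ∃ c : ℝ, c = 1 - z / 2 := ⟨_, rfl⟩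
  have c0 : 0 < c := by linarith
  have c1 : c < 1 := by linarith
  have z1 : z ≤ 1 := by linarith
  have yU : y2 < c := by linarith
  have yL : -y1 < c := by linarith
  have hF := hR.fan
  have hmu := hF.pos
  obtain ⟨s0, -, s1, -⟩ := hR.sz_bd
  obtain ⟨e, he⟩ : ∃ e : ℝ, e = 1000 * τ / R.sz := ⟨_, rfl⟩
  have e0 : 0 < e := by rw [he]; positivity
  have e1 : e ≤ 1 / 2 := by rw [he, div_le_iff₀ s0]; linarith
  have e2 : 2 * τ ≤ e * R.mu / 8 := by
    have h3 : e * R.sz = 1000 * τ := by rw [he]; field_simp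
    have h4 := mul_le_mul_of_nonneg_left s1 e0.le
    linarith
  have e3 : 0 < 1 - e := by linarith
  rw [Box.shr, ← he] at hA hfi hb
  rw [Box.hom_set R e3] at hfi
  simp only [Box.hom_loop R e3] at hA hb
  have hom : ∀ p : P, om z x0 d y1 y2 p =
      af (-nU c x0 d (-y1) p.1) (nU c x0 d y2 p.1) (xi z 0 p.2 / c) := fun p => by
    rw [om, ← hc, nL_eq]
  have dsc : ∀ t t', dist (R.ctr + (1 - e) • (R.loop (σ t') - R.ctr))
      (R.ctr + (1 - e) • (R.loop (σ t) - R.ctr)) ≤ dist (R.loop (σ t')) (R.loop (σ t)) := by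
    intro t t'
    rw [dist_add_left, dist_smul₀, dist_sub_right, Real.norm_of_nonneg e3.le]
    exact mul_le_of_le_one_left dist_nonneg (by linarith)
  have lam0 : 0 < lam := by unfold lam; norm_num
  have hA' : ∀ t, Z ((Γ t).1, om z x0 d y1 y2 (Γ t)) ∈ U → ∀ᶠ t' in 𝓝 t,
      dist (Z ((Γ t').1, om z x0 d y1 y2 (Γ t'))) (Z ((Γ t).1, om z x0 d y1 y2 (Γ t))) ≤
        lam * (25 * R.mu) * |σ t' - σ t| := fun t ht => (hA t ht).mono fun t' k => by
    rw [mul_assoc]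
    exact k.trans (mul_le_mul_of_nonneg_left ((dsc t t').trans (hF.lip _ _)) lam0.le)
  obtain ⟨gσ, θ, hθ, lo⟩ := lift_bounds hσ
  have x0m : |x0| ≤ 1 := abs_le.2 ⟨by linarith, by linarith⟩
  have μeq : ∀ v, |v| ≤ 1 → μ v = Z (cl (z - 1) (1 - z) x0, cl (z - 1) (1 - z) v) := fun v hv => by
    rw [← hμ (x0, v) ⟨x0m, hv⟩ (by simp only [sub_self, abs_zero]; linarith), hf _ ⟨x0m, hv⟩]
  obtain ⟨ΘU, HU⟩ := exists_half hU (x0 := x0) (θ0 := R.mu * θ / 10 ^ 5) hm ht hτ (by linarith) yU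
    c1 hd (by positivity) fun v hv => by
      rw [μeq v (abs_le.2 ⟨by linarith [hv.1], hv.2⟩), μeq 1 (by simp),
        cl_of_ge (x := v) (by linarith) (by linarith [hv.1]),
        cl_of_ge (x := 1) (by linarith) (by linarith)]
  obtain ⟨ΘL, HL⟩ := exists_half hU (ν := fun v => μ (-v)) (x0 := x0) (θ0 := R.mu * θ / 10 ^ 5)
    (by
      obtain ⟨K, hK⟩ := hm
      refine ⟨K, fun t ht t' ht' => ?_⟩
      have := hK (-t) ⟨by linarith [ht.2], by linarith [ht.1]⟩ (-t')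
        ⟨by linarith [ht'.2], by linarith [ht'.1]⟩
      rwa [neg_sub_neg, abs_sub_comm] at this)
    (ht.comp_anti (α := fun v => -v) (by norm_num) (by fun_prop)
      (fun _ _ _ _ h => neg_le_neg h) fun v hv => ⟨by linarith [hv.2], by linarith [hv.1]⟩)
    hτ (by linarith) yL c1 hd (by positivity) fun v hv => by
      rw [μeq (-v) (abs_le.2 ⟨by linarith [hv.2], by linarith [hv.1]⟩), μeq (-1) (by simp),
        cl_of_le (x := -v) (by linarith [hv.1]), cl_of_le (x := -1) (by linarith)]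
  have bU : ∀ x, y2 ≤ nU c x0 d y2 x := le_nU yU.le hd x0
  have bL : ∀ x, -y1 ≤ nU c x0 d (-y1) x := le_nU yL.le hd x0
  have bU' := nU_le c x0 d y2
  have bL' := nU_le c x0 d (-y1)
  obtain ⟨φ, hφ⟩ : ∃ φ : P → ℝ, ∀ w, φ w =
    vv c (-nU c x0 d (-y1) w.2) (nU c x0 d y2 w.2) w.1 := ⟨_, fun _ => rfl⟩
  have φ1 : ∀ x, φ (1, x) = 1 := fun x => by
    have := vv_top (l := -nU c x0 d (-y1) x) (u := nU c x0 d y2 x) c0 c1 zero_le_one le_rfl
    rwa [one_mul, one_mul, add_sub_cancel, add_sub_cancel, ← hφ (1, x)] at this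
  have φ2 : ∀ x, φ (-1, x) = -1 := fun x => by
    have := vv_bot (l := nU c x0 d (-y1) x) (u := nU c x0 d y2 x) c1 c0 zero_le_one le_rfl
    rwa [one_mul, one_mul, add_sub_cancel, add_sub_cancel, ← hφ (-1, x)] at this
  have φ3 : ∀ x y, d ≤ |x - x0| → φ (y, x) = y := fun x y k => by
    rw [hφ, nU_far yU.le hd k, nU_far yL.le hd k, vv_id c0 c1]
  obtain ⟨g, hg⟩ := exists_hm (φ := φ) (θ := (y2 - y1) / 2) (by
      rw [show φ = _ from funext hφ]
      exact gl_vv c0 c1 ((gl_nU _ _ _ _).after gl_snd).neg ((gl_nU _ _ _ _).after gl_snd)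
        (fun w => abs_le.2 ⟨by linarith [bL' w.2], by linarith [bL w.2]⟩)
        fun w => abs_le.2 ⟨by linarith [bU w.2], by linarith [bU' w.2]⟩) (by linarith)
    (fun t t' s k => by
      rw [hφ, hφ]
      refine vv_exp c0 c1 (by linarith) (by linarith [bL' s]) (bU' s) ?_ k
      have := mul_le_of_le_one_right (sub_nonneg.2 h12.le) c1.le
      linarith [bU s, bL s]) φ1 φ2
  obtain ⟨H, G, hH, H1, H0⟩ := exists_hz hz hz'
  have band : ∀ {x : ℝ} (s : ℝ), |x - x0| ≤ 2 * d → xi z s x = x ∧ |x| < 1 := fun s k =>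
    ⟨xi_of_mem (by linarith [(abs_le.1 k).1]) (by linarith [(abs_le.1 k).2]),
      abs_lt.2 ⟨by linarith [(abs_le.1 k).1], by linarith [(abs_le.1 k).2]⟩⟩
  have tri : ∀ t, d < |(Γ t).1 - x0| ∨ (Γ t).2 = 1 ∨ (Γ t).2 = -1 := fun t => by
    rcases lt_or_ge d |(Γ t).1 - x0| with k | k
    · exact Or.inl k
    · exact Or.inr (Γ_snd (band 0 (by linarith)).2)
  have vA : ∀ p ∈ sq, d ≤ |p.1 - x0| → ∀ s ∈ Icc (0 : ℝ) 1,
      Z ((X2 z s p).1, φ ((X2 z s p).2, (X2 z s p).1)) = Z p := fun p hp k s hs => by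
    have k' : d ≤ |xi z s p.1 - x0| := by
      rcases xi_cases z1 hs.1 hs.2 p.1 with j | j | j
      · rwa [j.2.2]
      · exact le_abs.2 (Or.inl (by linarith [j.1]))
      · exact le_abs.2 (Or.inr (by linarith [j.1]))
    simp only [X2]
    rw [φ3 _ _ k', hf _ ⟨abs_xi z1 hs.1 hs.2 hp.1, abs_xi z1 hs.1 hs.2 hp.2⟩, hf p hp,
      cl_xi z1 hs.1 hs.2, cl_xi z1 hs.1 hs.2]
  have iA : ∀ p ∈ sq, d ≤ |p.1 - x0| → Z (p.1, om z x0 d y1 y2 p) = Z p := fun p hp k => by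
    have : af (-c) c (xi z 0 p.2 / c) = xi z 0 p.2 := by
      rw [af]
      field_simp
      ring
    rw [hom, nU_far yU.le hd k, nU_far yL.le hd k, this,
      hf (p.1, xi z 0 p.2) ⟨hp.1, abs_xi z1 le_rfl zero_le_one hp.2⟩, hf p hp,
      cl_xi z1 le_rfl zero_le_one]
  have v0 : ∀ p ∈ sq, Z (p.1, om z x0 d y1 y2 p) =
      Z ((X2 z 0 p).1, φ ((X2 z 0 p).2, (X2 z 0 p).1)) := fun p hp => by
    rcases le_total d |p.1 - x0| with k | k
    · rw [iA p hp k, vA p hp k 0 ⟨le_rfl, zero_le_one⟩]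
    · obtain ⟨k1, k2⟩ := xi_zero_mem hz.le z1 hp.2
      simp only [X2]
      rw [(band 0 (by linarith)).1, hφ, hom, vv_mid c0 c1 (hc ▸ k1) (hc ▸ k2)]
  have vU : ∀ x, |x - x0| ≤ 2 * d → ∀ s ∈ Icc (0 : ℝ) 1,
      Z ((X2 z s (x, 1)).1, φ ((X2 z s (x, 1)).2, (X2 z s (x, 1)).1)) =
        μ (YY (nU c x0 d y2 x) s) := fun x k s hs => by
    have k1 : xi z s 1 = c + s * (1 - c) := by
      rw [xi_of_ge z1 (by linarith), hc]; ring
    obtain ⟨k2, k3⟩ := YY_mem ((bU' x).trans c1.le) hs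
    simp only [X2]
    rw [(band s k).1, hφ, k1, vv_top c0 c1 hs.1 hs.2]
    exact hμ (x, YY _ s) ⟨(band s k).2.le, abs_le.2 ⟨by linarith [bU x], k3⟩⟩ k
  have vL : ∀ x, |x - x0| ≤ 2 * d → ∀ s ∈ Icc (0 : ℝ) 1,
      Z ((X2 z s (x, -1)).1, φ ((X2 z s (x, -1)).2, (X2 z s (x, -1)).1)) =
        μ (-YY (nU c x0 d (-y1) x) s) := fun x k s hs => by
    have k1 : xi z s (-1) = -(c + s * (1 - c)) := by
      rw [xi_of_le (by linarith), hc]; ring
    obtain ⟨k2, k3⟩ := YY_mem ((bL' x).trans c1.le) hs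
    simp only [X2]
    rw [(band s k).1, hφ, k1, vv_bot c1 c0 hs.1 hs.2]
    exact hμ (x, -YY _ s) ⟨(band s k).2.le,
      abs_le.2 ⟨neg_le_neg k3, by simp only; linarith [bL x]⟩⟩ k
  obtain ⟨ϑ, hϑ⟩ : ∃ ϑ : P → ℝ, ∀ w, ϑ w =
    ΘU (min c (nU c x0 d y2 (Γ w.1).1 + 2 * (1 - (Γ w.1).2)), w.2) +
      ΘL (min c (nU c x0 d (-y1) (Γ w.1).1 + 2 * (1 + (Γ w.1).2)), w.2) - w.2 := ⟨_, fun _ => rfl⟩
  have ϑU : ∀ t, (Γ t).2 = 1 → ∀ s ∈ Icc (0 : ℝ) 1, ϑ (t, s) = ΘU (nU c x0 d y2 (Γ t).1, s) := by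
    intro t k s hs
    rw [hϑ]
    simp only [k]
    rw [min_eq_right (by linarith [bU' (Γ t).1]), min_eq_left (by linarith [bL (Γ t).1]),
      HL.top s hs, sub_self, mul_zero, add_zero, add_sub_cancel_right]
  have ϑL : ∀ t, (Γ t).2 = -1 → ∀ s ∈ Icc (0 : ℝ) 1,
      ϑ (t, s) = ΘL (nU c x0 d (-y1) (Γ t).1, s) := by
    intro t k s hs
    rw [hϑ]
    simp only [k]
    rw [min_eq_left (by linarith [bU (Γ t).1]), min_eq_right (by linarith [bL' (Γ t).1]),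
      HU.top s hs, add_neg_cancel, mul_zero, add_zero, add_sub_cancel_left]
  have ϑA : ∀ t, d ≤ |(Γ t).1 - x0| → ∀ s ∈ Icc (0 : ℝ) 1, ϑ (t, s) = s := by
    intro t k s hs
    obtain ⟨k1, k2⟩ := abs_le.1 (Γ_mem t).2
    rw [hϑ]
    simp only
    rw [nU_far yU.le hd k, nU_far yL.le hd k, min_eq_left (by linarith),
      min_eq_left (by linarith), HU.top s hs, HL.top s hs, add_sub_cancel_right]
  have ϑ0 : ∀ t, ϑ (t, 0) = 0 := fun t => by rw [hϑ, HU.zero, HL.zero]; norm_num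
  have ϑ1 : ∀ t, ϑ (t, 1) = 1 := fun t => by rw [hϑ, HU.one, HL.one]; norm_num
  have gΓ : ∀ w w' : P, dist (Γ w.1) (Γ w'.1) ≤ 2 * dist w w' := fun w w' =>
    (Γ_lip _ _).trans (mul_le_mul_of_nonneg_left (le_max_left _ _) zero_le_two)
  have gϑ : Gl ϑ := by
    rw [show ϑ = _ from funext hϑ]
    have g1 := gl_fst.comp zero_le_two gΓ
    have g2 := gl_snd.comp zero_le_two gΓ
    exact ((HU.gl.pair ((((gl_nU _ _ _ _).after g1).add
      (((Gl.const 1).sub g2).cmul 2)).cmin c) gl_snd).add (HL.gl.pair ((((gl_nU _ _ _ _).after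
        g1).add (((Gl.const 1).add g2).cmul 2)).cmin c) gl_snd)).sub gl_snd
  obtain ⟨θ1, hθ1, ex⟩ : ∃ θ1 : ℝ, 0 < θ1 ∧ ∀ t, ∀ s ∈ Icc (0 : ℝ) 1, ∀ s' ∈ Icc (0 : ℝ) 1,
      s ≤ s' → θ1 * (s' - s) ≤ ϑ (t, s') - ϑ (t, s) := by
    obtain ⟨a, a0, ha⟩ := HU.ex
    obtain ⟨b, b0, hb⟩ := HL.ex
    refine ⟨min 1 (min a b), lt_min one_pos (lt_min a0 b0), fun t s hs s' hs' k => ?_⟩
    have k0 := sub_nonneg.2 k
    rcases tri t with j | j | j
    · rw [ϑA t j.le s hs, ϑA t j.le s' hs']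
      exact mul_le_of_le_one_left k0 (min_le_left _ _)
    · rw [ϑU t j s hs, ϑU t j s' hs']
      exact (mul_le_mul_of_nonneg_right ((min_le_right _ _).trans (min_le_left _ _)) k0).trans
        (ha _ s hs s' hs' k)
    · rw [ϑL t j s hs, ϑL t j s' hs']
      exact (mul_le_mul_of_nonneg_right ((min_le_right _ _).trans (min_le_right _ _)) k0).trans
        (hb _ s hs s' hs' k)
  obtain ⟨up, low, inj⟩ := fib_pair hθ hθ1 lo gσ gϑ ex
  have far : ∀ t, d < |(Γ t).1 - x0| → ∀ᶠ t' in 𝓝 t, d < |(Γ t').1 - x0| := fun t k =>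
    ContinuousAt.eventually_lt (g := fun t => |(Γ t).1 - x0|) continuousAt_const
      (((continuous_fst.comp continuous_Γ).sub continuous_const).abs.continuousAt) k
  obtain ⟨Λ, hΛ⟩ : ∃ Λ : P → P, ∀ p, Λ p = Z ((H p).1, φ ((H p).2, (H p).1)) := ⟨_, fun _ => rfl⟩
  have fin : ∀ {t s : ℝ} {w : P} {D : ℝ}, D ≤ lam * (25 * R.mu) * |σ w.1 - σ t| +
      2 * (R.mu * θ / 10 ^ 5) * |w.1 - t| + 2 * τ * |ϑ w - ϑ (t, s)| →
      D ≤ R.mu / 1616 * |σ w.1 - σ t| + e * R.mu / 8 * |ϑ w - ϑ (t, s)| := by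
    intro t s w D k
    have k1 := mul_le_mul_of_nonneg_right e2 (abs_nonneg (ϑ w - ϑ (t, s)))
    have k2 := mul_le_mul_of_nonneg_left (lo t w.1) hmu.le
    have k3 := mul_nonneg hmu.le (abs_nonneg (σ w.1 - σ t))
    unfold lam at k
    linarith
  obtain ⟨f0, hf0, fb, -⟩ := ring_emb (U := U) (Λ := Λ) hF e0 e1
    (hfi.congr fun p hp => by simp only; rw [hΛ, H0 p hp, v0 p hp]) hσ.surjective hb
    (φ := fun w => σ w.1) up low inj
    (fun t s => ⟨hσ.2 t, by rw [hϑ, hϑ]; simp only [Γ_add_four]⟩)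
    (fun t s hs => by
      have k1 := ex t 0 ⟨le_rfl, zero_le_one⟩ s hs hs.1
      have k2 := ex t s hs 1 ⟨zero_le_one, le_rfl⟩ hs.2
      have k3 := mul_nonneg hθ1.le (sub_nonneg.2 hs.1)
      have k4 := mul_nonneg hθ1.le (sub_nonneg.2 hs.2)
      rw [ϑ0] at k1
      rw [ϑ1] at k2
      exact ⟨by linarith, by linarith⟩)
    (fun t => ⟨rfl, ϑ0 t⟩) ϑ1 fun t ht s hs hUt => by
      rcases lt_or_ge d |(Γ t).1 - x0| with k | k
      · have vv' : ∀ t', d < |(Γ t').1 - x0| → ∀ s ∈ Icc (0 : ℝ) 1,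
            Λ (((1 + s) / 2) • Γ t') = Z ((Γ t').1, om z x0 d y1 y2 (Γ t')) := fun t' k' s hs => by
          rw [hΛ, H1 t' s hs, vA _ (Γ_mem t') k'.le s hs, iA _ (Γ_mem t') k'.le]
        rw [vv' t k s hs] at hUt ⊢
        have k1 := (continuous_fst.tendsto ((t, s) : P)).eventually ((hA' t hUt).and (far t k))
        filter_upwards [nhdsWithin_le_nhds k1, self_mem_nhdsWithin] with w k2 k3
        rw [vv' w.1 k2.2 w.2 k3.2]
        refine fin (k2.1.trans ?_)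
        have : 0 ≤ 2 * (R.mu * θ / 10 ^ 5) * |w.1 - t| + 2 * τ * |ϑ w - ϑ (t, s)| := by positivity
        linarith
      have k1 := (band 0 (k.trans (by linarith))).2
      have hC : 0 ≤ lam * (25 * R.mu) := by positivity
      rcases le_total t 1 with t1 | t1
      · rw [Γ_bot ht.1 t1] at k
        refine (HL.side (V := fun w => Λ (((1 + w.2) / 2) • Γ w.1)) (ϑ := ϑ) (Or.inl rfl)
          hσ.strictMono.monotone hC hA' (fun t' k' => ?_) (k.trans_lt (by linarith)) hs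
          hUt).mono fun w => fin
        obtain ⟨j1, j2⟩ := abs_lt.1 (band 0 k').2
        have j := Γ_bot (t := t') (by linarith) (by linarith)
        refine ⟨?_, fun s hs => ⟨?_, ?_⟩⟩
        · rw [v0 _ (Γ_mem t'), j, vL _ k' 0 ⟨le_rfl, zero_le_one⟩, YY, zero_mul, add_zero]
        · simp only
          rw [hΛ, H1 t' s hs, j, vL _ k' s hs]
        · rw [ϑL t' (by rw [j]) s hs, j]
      rcases le_total t 2 with t2 | t2
      · rw [Γ_right t1 t2] at k1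
        norm_num at k1
      rcases le_total t 3 with t3 | t3
      · rw [Γ_top t2 t3] at k
        refine (HU.side (V := fun w => Λ (((1 + w.2) / 2) • Γ w.1)) (ϑ := ϑ) (Or.inr rfl)
          hσ.strictMono.monotone hC hA' (fun t' k' => ?_) (k.trans_lt (by linarith)) hs
          hUt).mono fun w => fin
        obtain ⟨j1, j2⟩ := abs_lt.1 (band 0 k').2
        have j := Γ_top (t := t') (by linarith) (by linarith)
        refine ⟨?_, fun s hs => ⟨?_, ?_⟩⟩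
        · rw [v0 _ (Γ_mem t'), j, vU _ k' 0 ⟨le_rfl, zero_le_one⟩, YY, zero_mul, add_zero]
        · simp only
          rw [hΛ, H1 t' s hs, j, vU _ k' s hs]
        · rw [ϑU t' (by rw [j]) s hs, j]
      · rw [Γ_left t3 ht.2.le] at k1
        norm_num at k1
  refine ⟨σ, hσ, fun t hUt => ?_, fun p => f0 (G (g p)),
    hf0.comp (hg.symm.comp hH.symm) fun p hp => ?_, fun t => ?_⟩
  · rcases lt_or_ge d |(Γ t).1 - x0| with k | k
    · rw [← iA _ (Γ_mem t) k.le] at hUt ⊢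
      filter_upwards [hA t hUt, far t k] with t' k1 k2
      rw [← iA _ (Γ_mem t') k2.le]
      exact k1.trans (mul_le_mul_of_nonneg_left (dsc t t') lam0.le)
    · have k1 : ∀ᶠ t' in 𝓝 t, |(Γ t').1 - x0| < 2 * d :=
        ContinuousAt.eventually_lt (f := fun t => |(Γ t).1 - x0|)
          (((continuous_fst.comp continuous_Γ).sub continuous_const).abs.continuousAt)
          continuousAt_const (k.trans_lt (by linarith))
      have k2 : ∀ᶠ t' in 𝓝 t, |(Γ t').2 - (Γ t).2| < 1 :=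
        ContinuousAt.eventually_lt (f := fun t' => |(Γ t').2 - (Γ t).2|)
          (((continuous_snd.comp continuous_Γ).sub continuous_const).abs.continuousAt)
          continuousAt_const (by simp)
      filter_upwards [k1, k2] with t' k3 k4
      have k5 : (Γ t').2 = (Γ t).2 := by
        obtain ⟨j1, j2⟩ := abs_lt.1 k4
        rcases Γ_snd (band 0 k3.le).2 with j | j <;>
          rcases Γ_snd (band 0 (k.trans (by linarith))).2 with j' | j' <;> linarith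
      rw [hμ _ (Γ_mem t') k3.le, hμ _ (Γ_mem t) (k.trans (by linarith)), k5, dist_self]
      positivity
  · rw [hΛ, hH.hg _ (hg.mg hp)]
    exact congrArg Z (hg.hg p hp).symm
  · have k1 : ((Γ t).1, φ ((Γ t).2, (Γ t).1)) = Γ t := by
      rcases tri t with j | j | j
      · rw [φ3 _ _ j.le]
      · rw [j, φ1, ← j]
      · rw [j, φ2, ← j]
    have k2 := hg.gh _ (Γ_mem t)
    have k3 := H1 t 1 ⟨zero_le_one, le_rfl⟩
    rw [show ((1 : ℝ) + 1) / 2 = 1 by norm_num, one_smul, X2, xi_one, xi_one] at k3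
    have k4 := hH.gh _ (Γ_mem t)
    rw [k3] at k4
    simp only at k2 ⊢
    rw [k1] at k2
    rw [k2, k4, fb]

end Pool.Agent.Lib.MP_ecd4e3_gt
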