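import Pool.Agent.Lib.MP_ecd4e3_gt.Frame
import Pool.Agent.Lib.MP_ecd4e3_gt.Glue

/-! Opening two notches along a collapsed vertical band: definitions and tools. -/

namespace Pool.Agent.Lib.MP_ecd4e3_gt

open Set Filter Topology

/-- Upper wall of the pinched region. -/
noncomputable def nU (c x0 d y2 x : ℝ) : ℝ := min c (y2 + (c - y2) * |x - x0| / d)

/-- Lower wall of the pinched region. -/
noncomputable def nL (c x0 d y1 x : ℝ) : ℝ := max (-c) (y1 - (c + y1) * |x - x0| / d)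

/-- The height in the pinched region of the point with relative height `y`. -/
noncomputable def om (z x0 d y1 y2 : ℝ) (p : P) : ℝ :=
  af (nL (1 - z / 2) x0 d y1 p.1) (nU (1 - z / 2) x0 d y2 p.1)
    (xi z 0 p.2 / (1 - z / 2))

namespace NotchAux

/-! ### Globally Lipschitz real functions -/

/-- Globally Lipschitz real function. -/
def Gl {X : Type} [PseudoMetricSpace X] (f : X → ℝ) : Prop :=
  ∃ K : ℝ, 0 ≤ K ∧ ∀ z z', |f z - f z'| ≤ K * dist z z'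

section Gl

variable {X : Type} [PseudoMetricSpace X] {f g : X → ℝ}

lemma Gl.const (a : ℝ) : Gl fun _ : X => a := ⟨0, le_rfl, fun _ _ => by simp⟩

lemma Gl.add (hf : Gl f) (hg : Gl g) : Gl fun z => f z + g z := by
  obtain ⟨K, hK, hf⟩ := hf
  obtain ⟨L, hL, hg⟩ := hg
  refine ⟨K + L, by positivity, fun z z' => ?_⟩
  have h := abs_add_le (f z - f z') (g z - g z')
  rw [show f z - f z' + (g z - g z') = f z + g z - (f z' + g z') by ring] at h
  linarith [hf z z', hg z z']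

lemma Gl.comp {Y : Type} [PseudoMetricSpace Y] {u : Y → X} {L : ℝ} (hf : Gl f) (hL : 0 ≤ L)
    (hu : ∀ z z', dist (u z) (u z') ≤ L * dist z z') : Gl fun z => f (u z) := by
  obtain ⟨K, hK, hf⟩ := hf
  refine ⟨K * L, by positivity, fun z z' => (hf _ _).trans ?_⟩
  rw [mul_assoc]
  exact mul_le_mul_of_nonneg_left (hu z z') hK

lemma Gl.after {u : ℝ → ℝ} (hu : Gl u) (hf : Gl f) : Gl fun z => u (f z) := by
  obtain ⟨K, hK, hf⟩ := hf
  exact hu.comp hK hf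

lemma Gl.cmul (a : ℝ) (hf : Gl f) : Gl fun z => a * f z := by
  obtain ⟨K, hK, hf⟩ := hf
  refine ⟨|a| * K, by positivity, fun z z' => ?_⟩
  rw [← mul_sub, abs_mul, mul_assoc]
  exact mul_le_mul_of_nonneg_left (hf z z') (abs_nonneg a)

lemma Gl.cdiv (hf : Gl f) (a : ℝ) : Gl fun z => f z / a := by
  simpa only [div_eq_inv_mul] using hf.cmul a⁻¹

lemma Gl.neg (hf : Gl f) : Gl fun z => -f z := by
  simpa only [neg_one_mul] using hf.cmul (-1)

lemma Gl.sub (hf : Gl f) (hg : Gl g) : Gl fun z => f z - g z := by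
  simpa only [sub_eq_add_neg] using hf.add hg.neg

lemma Gl.abs (hf : Gl f) : Gl fun z => |f z| := by
  obtain ⟨K, hK, hf⟩ := hf
  exact ⟨K, hK, fun z z' => (abs_abs_sub_abs_le _ _).trans (hf z z')⟩

lemma Gl.cmin (a : ℝ) (hf : Gl f) : Gl fun z => min a (f z) := by
  obtain ⟨K, hK, hf⟩ := hf
  refine ⟨K, hK, fun z z' => le_trans ?_ (hf z z')⟩
  simpa using abs_min_sub_min_le_max a (f z) a (f z')

lemma Gl.cmax (a : ℝ) (hf : Gl f) : Gl fun z => max a (f z) := by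
  obtain ⟨K, hK, hf⟩ := hf
  refine ⟨K, hK, fun z z' => le_trans ?_ (hf z z')⟩
  simpa using abs_max_sub_max_le_max a (f z) a (f z')

lemma Gl.cl (a b : ℝ) (hf : Gl f) : Gl fun z => cl a b (f z) := (hf.cmin b).cmax a

lemma Gl.mul (hf : Gl f) (hg : Gl g) {A B : ℝ} (hA : ∀ z, |f z| ≤ A) (hB : ∀ z, |g z| ≤ B) :
    Gl fun z => f z * g z := by
  obtain ⟨K, hK, hf⟩ := hf
  obtain ⟨L, hL, hg⟩ := hg
  refine ⟨|A| * L + |B| * K, by positivity, fun z z' => ?_⟩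
  have h := abs_add_le (f z * (g z - g z')) (g z' * (f z - f z'))
  rw [show f z * (g z - g z') + g z' * (f z - f z') = f z * g z - f z' * g z' by ring, abs_mul,
    abs_mul] at h
  have h1 := mul_le_mul ((hA z).trans (le_abs_self A)) (hg z z') (abs_nonneg _) (abs_nonneg A)
  have h2 := mul_le_mul ((hB z').trans (le_abs_self B)) (hf z z') (abs_nonneg _) (abs_nonneg B)
  linarith

lemma Gl.inv (hf : Gl f) {δ : ℝ} (hδ : 0 < δ) (h : ∀ z, δ ≤ f z) : Gl fun z => (f z)⁻¹ := by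
  obtain ⟨K, hK, hf⟩ := hf
  refine ⟨K / δ ^ 2, by positivity, fun z z' => ?_⟩
  have h1 := hδ.trans_le (h z)
  have h2 := hδ.trans_le (h z')
  rw [inv_sub_inv h1.ne' h2.ne', abs_div, abs_sub_comm, abs_of_pos (mul_pos h1 h2),
    div_mul_eq_mul_div, pow_two]
  exact div_le_div₀ (by positivity) (hf z z') (by positivity)
    (mul_le_mul (h z) (h z') hδ.le h1.le)

lemma gl_id : Gl fun x : ℝ => x := ⟨1, zero_le_one, fun z z' => by rw [one_mul, Real.dist_eq]⟩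

lemma gl_fst : Gl fun z : P => z.1 :=
  ⟨1, zero_le_one, fun z z' => by rw [one_mul, Prod.dist_eq]; exact le_max_left _ _⟩

lemma gl_snd : Gl fun z : P => z.2 :=
  ⟨1, zero_le_one, fun z z' => by rw [one_mul, Prod.dist_eq]; exact le_max_right _ _⟩

lemma Gl.pair {F : P → ℝ} (hF : Gl F) (hf : Gl f) (hg : Gl g) : Gl fun z => F (f z, g z) := by
  obtain ⟨K, hK, hf⟩ := hf
  obtain ⟨L, hL, hg⟩ := hg
  refine hF.comp (L := K + L) (by positivity) fun z z' => ?_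
  have h1 := mul_nonneg hK (dist_nonneg (x := z) (y := z'))
  have h2 := mul_nonneg hL (dist_nonneg (x := z) (y := z'))
  rw [Prod.dist_eq, Real.dist_eq, Real.dist_eq]
  exact max_le (by linarith [hf z z']) (by linarith [hg z z'])

lemma Gl.up (hf : Gl f) (S : Set X) : Up S f := by
  obtain ⟨K, -, hf⟩ := hf
  exact up_of_lip (K := K) fun x _ y _ => hf x y

lemma Gl.continuous (hf : Gl f) : Continuous f :=
  continuousOn_univ.1 (hf.up univ).continuousOn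

end Gl

/-! ### Clamps -/

lemma cl_of_mem {a b x : ℝ} (h1 : a ≤ x) (h2 : x ≤ b) : cl a b x = x := by
  rw [cl, min_eq_right h2, max_eq_right h1]

lemma cl_of_le {a b x : ℝ} (h1 : x ≤ a) : cl a b x = a :=
  max_eq_left ((min_le_right _ _).trans h1)

lemma cl_of_ge {a b x : ℝ} (h : a ≤ b) (h1 : b ≤ x) : cl a b x = b := by
  rw [cl, min_eq_left h1, max_eq_right h]

lemma le_cl (a b x : ℝ) : a ≤ cl a b x := le_max_left _ _

lemma cl_le {a b : ℝ} (h : a ≤ b) (x : ℝ) : cl a b x ≤ b := max_le h (min_le_left _ _)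

lemma cl_mono (a b : ℝ) {x y : ℝ} (h : x ≤ y) : cl a b x ≤ cl a b y :=
  max_le_max le_rfl (min_le_min le_rfl h)

lemma cl_sub_le (a b : ℝ) {x y : ℝ} (h : x ≤ y) : cl a b y - cl a b x ≤ y - x := by
  simp only [cl, max_def, min_def]
  split_ifs <;> linarith

lemma abs_cl_le {a b : ℝ} (ha : -1 ≤ a) (h : a ≤ b) (hb : b ≤ 1) (x : ℝ) : |cl a b x| ≤ 1 :=
  abs_le.2 ⟨ha.trans (le_cl a b x), (cl_le h x).trans hb⟩

section xi

variable {z s x : ℝ}

lemma xi_of_mem (h1 : z - 1 ≤ x) (h2 : x ≤ 1 - z) : xi z s x = x := by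
  rw [xi, cl_of_mem h1 h2]; ring

lemma xi_of_ge (hz : z ≤ 1) (h : 1 - z ≤ x) : xi z s x = 1 - z + (1 + s) / 2 * (x - (1 - z)) := by
  rw [xi, cl_of_ge (by linarith) h]

lemma xi_of_le (h : x ≤ z - 1) : xi z s x = z - 1 + (1 + s) / 2 * (x - (z - 1)) := by
  rw [xi, cl_of_le h]

lemma xi_one (z x : ℝ) : xi z 1 x = x := by
  rw [xi]; ring

lemma xi_cases (hz : z ≤ 1) (hs0 : 0 ≤ s) (hs1 : s ≤ 1) (x : ℝ) :
    (z - 1 ≤ x ∧ x ≤ 1 - z ∧ xi z s x = x) ∨ (1 - z ≤ xi z s x ∧ xi z s x ≤ x) ∨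
      (xi z s x ≤ z - 1 ∧ x ≤ xi z s x) := by
  rcases le_total x (z - 1) with h | h
  · refine Or.inr (Or.inr ?_)
    rw [xi_of_le h]
    constructor <;> nlinarith
  rcases le_total x (1 - z) with h' | h'
  · exact Or.inl ⟨h, h', xi_of_mem h h'⟩
  · refine Or.inr (Or.inl ?_)
    rw [xi_of_ge hz h']
    constructor <;> nlinarith

lemma cl_xi (hz : z ≤ 1) (hs0 : 0 ≤ s) (hs1 : s ≤ 1) (x : ℝ) :
    cl (z - 1) (1 - z) (xi z s x) = cl (z - 1) (1 - z) x := by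
  rcases xi_cases hz hs0 hs1 x with h | h | h
  · rw [h.2.2]
  · rw [cl_of_ge (by linarith) h.1, cl_of_ge (by linarith) (h.1.trans h.2)]
  · rw [cl_of_le h.1, cl_of_le (h.2.trans h.1)]

lemma abs_xi (hz : z ≤ 1) (hs0 : 0 ≤ s) (hs1 : s ≤ 1) (hx : |x| ≤ 1) : |xi z s x| ≤ 1 := by
  obtain ⟨h1, h2⟩ := abs_le.1 hx
  rcases xi_cases hz hs0 hs1 x with h | h | h
  · rwa [h.2.2]
  · exact abs_le.2 ⟨by linarith [h.1], by linarith [h.2]⟩
  · exact abs_le.2 ⟨by linarith [h.2], by linarith [h.1]⟩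

lemma xi_zero_mem (hz0 : 0 ≤ z) (hz : z ≤ 1) (hx : |x| ≤ 1) :
    -(1 - z / 2) ≤ xi z 0 x ∧ xi z 0 x ≤ 1 - z / 2 := by
  obtain ⟨h1, h2⟩ := abs_le.1 hx
  rcases le_total x (z - 1) with h | h
  · rw [xi_of_le h]
    constructor <;> linarith
  rcases le_total x (1 - z) with h' | h'
  · rw [xi_of_mem h h']
    constructor <;> linarith
  · rw [xi_of_ge hz h']
    constructor <;> linarith

end xi

/-! ### The walls -/

section walls

variable {c x0 d y x : ℝ}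

lemma nU_le (c x0 d y x : ℝ) : nU c x0 d y x ≤ c := min_le_left _ _

lemma le_nU (hy : y ≤ c) (hd : 0 < d) (x0 x : ℝ) : y ≤ nU c x0 d y x :=
  le_min hy (le_add_of_nonneg_right (by
    have := sub_nonneg.2 hy
    positivity))

lemma nU_far (hy : y ≤ c) (hd : 0 < d) (h : d ≤ |x - x0|) : nU c x0 d y x = c := by
  refine min_eq_left ?_
  have : c - y ≤ (c - y) * |x - x0| / d := by
    rw [le_div_iff₀ hd]
    exact mul_le_mul_of_nonneg_left h (sub_nonneg.2 hy)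
  linarith

lemma nU_near (hy : y ≤ c) (hd : 0 < d) (h : |x - x0| ≤ d) :
    nU c x0 d y x = y + (c - y) * |x - x0| / d := by
  refine min_eq_right ?_
  have : (c - y) * |x - x0| / d ≤ c - y := by
    rw [div_le_iff₀ hd]
    exact mul_le_mul_of_nonneg_left h (sub_nonneg.2 hy)
  linarith

lemma nL_eq (c x0 d y x : ℝ) : nL c x0 d y x = -nU c x0 d (-y) x := by
  rw [nL, nU, ← max_neg_neg]
  congr 1
  ring

lemma gl_nU (c x0 d y : ℝ) : Gl (nU c x0 d y) :=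
  ((Gl.const y).add (((gl_id.sub (Gl.const x0)).abs.cmul (c - y)).cdiv d)).cmin c

lemma nU_lip (hy : y ≤ c) (hy' : c - y ≤ 2) (hd : 0 < d) (x x' : ℝ) :
    |nU c x0 d y x' - nU c x0 d y x| ≤ 2 / d * |x' - x| := by
  have h1 := abs_min_sub_min_le_max c (y + (c - y) * |x' - x0| / d) c (y + (c - y) * |x - x0| / d)
  rw [sub_self, abs_zero, max_eq_right (abs_nonneg _), add_sub_add_left_eq_sub, ← sub_div,
    ← mul_sub, abs_div, abs_mul, abs_of_pos hd, abs_of_nonneg (sub_nonneg.2 hy)] at h1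
  have h2 := abs_abs_sub_abs_le (x' - x0) (x - x0)
  rw [sub_sub_sub_cancel_right] at h2
  refine h1.trans ?_
  rw [div_mul_eq_mul_div]
  exact div_le_div_of_nonneg_right (mul_le_mul hy' h2 (abs_nonneg _) zero_le_two) hd.le

end walls

/-! ### The vertical change of coordinates -/

/-- Piecewise affine map sending `-1, -c, c, 1` to `-1, l, u, 1`. -/
noncomputable def vv (c l u y : ℝ) : ℝ :=
  y - cl (-1) 1 y - 1 + (l + 1) / (1 - c) * (cl (-1) (-c) y + 1) +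
    (u - l) / (2 * c) * (cl (-c) c y + c) + (1 - u) / (1 - c) * (cl c 1 y - c)

section vv

variable {c l u y s : ℝ}

lemma vv_mid (h0 : 0 < c) (h1 : c < 1) (ha : -c ≤ y) (hb : y ≤ c) :
    vv c l u y = af l u (y / c) := by
  have : 1 - c ≠ 0 := by linarith
  rw [vv, af, cl_of_mem (by linarith) (by linarith), cl_of_ge (by linarith) ha, cl_of_mem ha hb,
    cl_of_le hb]
  field_simp
  ring

lemma vv_top (h0 : 0 < c) (h1 : c < 1) (hs0 : 0 ≤ s) (hs1 : s ≤ 1) :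
    vv c l u (c + s * (1 - c)) = u + s * (1 - u) := by
  have : 1 - c ≠ 0 := by linarith
  have h2 : 0 ≤ s * (1 - c) := mul_nonneg hs0 (by linarith)
  have h3 : s * (1 - c) ≤ 1 - c := mul_le_of_le_one_left (by linarith) hs1
  rw [vv, cl_of_mem (by linarith) (by linarith), cl_of_ge (by linarith) (by linarith),
    cl_of_ge (by linarith) (by linarith), cl_of_mem (by linarith) (by linarith)]
  field_simp
  ring

lemma vv_bot (h1 : c < 1) (h0 : 0 < c) (hs0 : 0 ≤ s) (hs1 : s ≤ 1) :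
    vv c (-l) u (-(c + s * (1 - c))) = -(l + s * (1 - l)) := by
  have : 1 - c ≠ 0 := by linarith
  have h2 : 0 ≤ s * (1 - c) := mul_nonneg hs0 (by linarith)
  have h3 : s * (1 - c) ≤ 1 - c := mul_le_of_le_one_left (by linarith) hs1
  rw [vv, cl_of_mem (by linarith) (by linarith), cl_of_mem (by linarith) (by linarith),
    cl_of_le (by linarith), cl_of_le (by linarith)]
  field_simp
  ring

lemma cl_three (h0 : 0 < c) (h1 : c < 1) (y : ℝ) :
    cl (-1) (-c) y + cl (-c) c y + cl c 1 y = cl (-1) 1 y := by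
  simp only [cl, max_def, min_def]
  split_ifs <;> linarith

lemma vv_id (h0 : 0 < c) (h1 : c < 1) (y : ℝ) : vv c (-c) c y = y := by
  have : 1 - c ≠ 0 := by linarith
  rw [vv, ← cl_three h0 h1 y]
  field_simp
  ring

lemma vv_exp (h0 : 0 < c) (h1 : c < 1) {θ y' : ℝ} (hθ : θ ≤ 1) (hl : -c ≤ l) (hu : u ≤ c)
    (hm : θ * (2 * c) ≤ u - l) (hy : y ≤ y') : θ * (y' - y) ≤ vv c l u y' - vv c l u y := by
  have a1 : θ ≤ (l + 1) / (1 - c) := hθ.trans ((one_le_div (by linarith)).2 (by linarith))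
  have a2 : θ ≤ (u - l) / (2 * c) := (le_div_iff₀ (by linarith)).2 hm
  have a3 : θ ≤ (1 - u) / (1 - c) := hθ.trans ((one_le_div (by linarith)).2 (by linarith))
  have b0 := mul_le_mul_of_nonneg_right hθ (sub_nonneg.2 (cl_sub_le (-1) 1 hy))
  have b1 := mul_le_mul_of_nonneg_right a1 (sub_nonneg.2 (cl_mono (-1) (-c) hy))
  have b2 := mul_le_mul_of_nonneg_right a2 (sub_nonneg.2 (cl_mono (-c) c hy))
  have b3 := mul_le_mul_of_nonneg_right a3 (sub_nonneg.2 (cl_mono c 1 hy))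
  rw [← cl_three h0 h1 y, ← cl_three h0 h1 y'] at b0
  rw [vv, vv, ← cl_three h0 h1 y, ← cl_three h0 h1 y']
  linarith

lemma gl_vv (h0 : 0 < c) (h1 : c < 1) {f g : P → ℝ} (hf : Gl f) (hg : Gl g)
    (bf : ∀ z, |f z| ≤ 1) (bg : ∀ z, |g z| ≤ 1) : Gl fun z : P => vv c (f z) (g z) z.1 := by
  have key : ∀ {a b : P → ℝ} (k : ℝ) {r r' : ℝ} (e : ℝ), Gl a → Gl b → (∀ z, |a z| ≤ 1) →
      (∀ z, |b z| ≤ 1) → -1 ≤ r → r ≤ r' → r' ≤ 1 →
      Gl fun z : P => (a z - b z) / k * (cl r r' z.1 - e) := by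
    intro a b k r r' e ha hb ba bb e1 e2 e3
    refine ((ha.sub hb).cdiv k).mul ((gl_fst.cl r r').sub (Gl.const e)) (A := 2 / |k|)
      (B := 1 + |e|) (fun z => ?_) fun z => ?_
    · rw [abs_div]
      exact div_le_div_of_nonneg_right ((abs_sub _ _).trans (by linarith [ba z, bb z]))
        (abs_nonneg k)
    · exact (abs_sub _ _).trans (by linarith [abs_cl_le e1 e2 e3 z.1])
  have k1 := key (1 - c) (r := -1) (r' := -c) (-1) hf (Gl.const (-1)) bf (fun _ => by simp)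
    le_rfl (by linarith) (by linarith)
  have k2 := key (2 * c) (r := -c) (r' := c) (-c) hg hf bg bf (by linarith) (by linarith) h1.le
  have k3 := key (1 - c) (r := c) (r' := 1) c (Gl.const 1) hg (fun _ => by simp) bg
    (by linarith) h1.le le_rfl
  simp only [sub_neg_eq_add] at k1 k2
  exact ((((gl_fst.sub (gl_fst.cl (-1) 1)).sub (Gl.const 1)).add k1).add k2).add k3

end vv

lemma exists_hm {φ : P → ℝ} (hφ : Gl φ) {θ : ℝ} (hθ : 0 < θ)
    (he : ∀ t t' s, t ≤ t' → θ * (t' - t) ≤ φ (t', s) - φ (t, s)) (h1 : ∀ s, φ (1, s) = 1)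
    (h2 : ∀ s, φ (-1, s) = -1) : ∃ g, Hm (fun p : P => (p.1, φ (p.2, p.1))) g := by
  obtain ⟨K, hK, hφ'⟩ := hφ
  obtain ⟨ψ, K', θ', hθ', l1, l2, l3, l4⟩ := fib_inv hφ' hθ he
  have hψ : Gl ψ := ⟨|K'|, abs_nonneg _, fun z z' => (l1 z z').trans
    (mul_le_mul_of_nonneg_right (le_abs_self _) dist_nonneg)⟩
  have key : ∀ (F : P → ℝ) (η : ℝ), 0 < η →
      (∀ t t' s, t ≤ t' → η * (t' - t) ≤ F (t', s) - F (t, s)) → (∀ s, F (1, s) = 1) →
      (∀ s, F (-1, s) = -1) → MapsTo (fun p : P => (p.1, F (p.2, p.1))) sq sq := by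
    intro F η hη e e1 e2 p hp
    obtain ⟨a1, a2⟩ := abs_le.1 hp.2
    have b1 := e _ _ p.1 a1
    have b2 := e _ _ p.1 a2
    rw [e2] at b1
    rw [e1] at b2
    have c1 := mul_nonneg hη.le (sub_nonneg.2 a1)
    have c2 := mul_nonneg hη.le (sub_nonneg.2 a2)
    exact ⟨hp.1, abs_le.2 ⟨by linarith, by linarith⟩⟩
  refine ⟨fun p => (p.1, ψ (p.2, p.1)), key φ θ hθ he h1 h2, key ψ θ' hθ' l2 (fun s => ?_)
    (fun s => ?_), fun p _ => ?_, fun p _ => ?_,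
    (gl_fst.up _).prodMk ((Gl.pair ⟨K, hK, hφ'⟩ gl_snd gl_fst).up _),
    (gl_fst.up _).prodMk ((hψ.pair gl_snd gl_fst).up _)⟩
  · have := l3 1 s
    rwa [h1] at this
  · have := l3 (-1) s
    rwa [h2] at this
  · simp only [l3]
  · simp only [l4]

/-! ### The radial coordinate over one notch -/

lemma chain_abs {f S : ℝ → ℝ} {a b c : ℝ} (hab : a ≤ b) (hbc : b ≤ c)
    (h1 : ∀ x ∈ Icc a b, ∀ x' ∈ Icc a b, x ≤ x' → |f x' - f x| ≤ S x' - S x)
    (h2 : ∀ x ∈ Icc b c, ∀ x' ∈ Icc b c, x ≤ x' → |f x' - f x| ≤ S x' - S x) :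
    ∀ x ∈ Icc a c, ∀ x' ∈ Icc a c, x ≤ x' → |f x' - f x| ≤ S x' - S x := by
  intro x hx x' hx' h
  rcases le_total x' b with k | k
  · exact h1 x ⟨hx.1, h.trans k⟩ x' ⟨hx'.1, k⟩ h
  rcases le_total b x with k' | k'
  · exact h2 x ⟨k', hx.2⟩ x' ⟨k, hx'.2⟩ h
  have e1 := h1 x ⟨hx.1, k'⟩ b ⟨hab, le_rfl⟩ k'
  have e2 := h2 b ⟨le_rfl, hbc⟩ x' ⟨k, hx'.2⟩ k
  linarith [abs_sub_le (f x') (f b) (f x)]

lemma wall {U : Set P} {ν : ℝ → P} {T S : ℝ → ℝ} {c x0 d y : ℝ} (hT : Monotone T)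
    (hmin : ∀ a b S, -1 ≤ a → a ≤ b → b ≤ 1 → DomOn U ν S a b → T b - T a ≤ S b - S a)
    (hy : -1 ≤ y) (hyc : y < c) (hc : c ≤ 1) (hd : 0 < d)
    (hS : DomOn U (fun x => ν (nU c x0 d y x)) S (x0 - 2 * d) (x0 + 2 * d)) :
    ∀ x ∈ Icc (x0 - 2 * d) (x0 + 2 * d), ∀ x' ∈ Icc (x0 - 2 * d) (x0 + 2 * d), x ≤ x' →
      |T (nU c x0 d y x') - T (nU c x0 d y x)| ≤ S x' - S x := by
  have hcy : 0 < c - y := sub_pos.2 hyc
  have hq : 0 < d / (c - y) := div_pos hd hcy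
  have lo : ∀ x, -1 ≤ nU c x0 d y x := fun x => hy.trans (le_nU hyc.le hd x0 x)
  have hi : ∀ x, nU c x0 d y x ≤ 1 := fun x => (nU_le c x0 d y x).trans hc
  have flat : ∀ x ∈ Icc (x0 - 2 * d) (x0 + 2 * d), ∀ x' ∈ Icc (x0 - 2 * d) (x0 + 2 * d), x ≤ x' →
      d ≤ |x - x0| → d ≤ |x' - x0| → |T (nU c x0 d y x') - T (nU c x0 d y x)| ≤ S x' - S x := by
    intro x hx x' hx' h k k'
    rw [nU_far hyc.le hd k, nU_far hyc.le hd k', sub_self, abs_zero]
    exact sub_nonneg.2 (hS.1 hx hx' h)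
  refine chain_abs (b := x0 - d) (by linarith) (by linarith) (fun x hx x' hx' h => ?_)
    (chain_abs (b := x0) (by linarith) (by linarith) (fun x hx x' hx' h => ?_)
    (chain_abs (b := x0 + d) (by linarith) (by linarith) (fun x hx x' hx' h => ?_)
      fun x hx x' hx' h => ?_))
  · exact flat x ⟨hx.1, by linarith [hx.2]⟩ x' ⟨hx'.1, by linarith [hx'.2]⟩ h
      (le_abs.2 (Or.inr (by linarith [hx.2]))) (le_abs.2 (Or.inr (by linarith [hx'.2])))
  · have ev : ∀ w ∈ Icc (x0 - d) x0, nU c x0 d y w = y + (c - y) * (x0 - w) / d := fun w hw => by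
      rw [nU_near hyc.le hd (abs_le.2 ⟨by linarith [hw.1], by linarith [hw.2]⟩),
        abs_of_nonpos (by linarith [hw.2]), neg_sub]
    have iv : ∀ w ∈ Icc (x0 - d) x0, x0 - d / (c - y) * (nU c x0 d y w - y) = w := fun w hw => by
      rw [ev w hw]; field_simp; ring
    have an : Antitone fun v => x0 - d / (c - y) * (v - y) := fun v v' hv => by
      have := mul_le_mul_of_nonneg_left (sub_le_sub_right hv y) hq.le
      linarith
    have le : nU c x0 d y x' ≤ nU c x0 d y x := by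
      rw [ev x hx, ev x' hx']
      gcongr
    have mp : MapsTo (fun v => x0 - d / (c - y) * (v - y)) (Icc (nU c x0 d y x') (nU c x0 d y x))
        (Icc x x') := fun v hv =>
      ⟨(iv x hx).ge.trans (an hv.2), (an hv.1).trans (iv x' hx').le⟩
    have d1 := (hS.mono (c := x) (d := x') (by linarith [hx.1]) (by linarith [hx'.2])).comp_anti
      (by fun_prop) (an.antitoneOn _) mp
    have d2 := hmin _ _ _ (lo x') le (hi x) (d1.congr (m' := ν) (fun v hv => ?_) fun _ _ => rfl)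
    · rw [iv x hx, iv x' hx'] at d2
      rw [abs_of_nonpos (sub_nonpos.2 (hT le))]
      linarith
    · have := mp hv
      simp only
      rw [ev _ ⟨hx.1.trans this.1, this.2.trans hx'.2⟩]
      congr 1
      field_simp
      ring
  · have ev : ∀ w ∈ Icc x0 (x0 + d), nU c x0 d y w = y + (c - y) * (w - x0) / d := fun w hw => by
      rw [nU_near hyc.le hd (abs_le.2 ⟨by linarith [hw.1], by linarith [hw.2]⟩),
        abs_of_nonneg (by linarith [hw.1])]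
    have iv : ∀ w ∈ Icc x0 (x0 + d), x0 + d / (c - y) * (nU c x0 d y w - y) = w := fun w hw => by
      rw [ev w hw]; field_simp; ring
    have an : Monotone fun v => x0 + d / (c - y) * (v - y) := fun v v' hv => by
      have := mul_le_mul_of_nonneg_left (sub_le_sub_right hv y) hq.le
      linarith
    have le : nU c x0 d y x ≤ nU c x0 d y x' := by
      rw [ev x hx, ev x' hx']
      gcongr
    have mp : MapsTo (fun v => x0 + d / (c - y) * (v - y)) (Icc (nU c x0 d y x) (nU c x0 d y x'))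
        (Icc x x') := fun v hv =>
      ⟨(iv x hx).ge.trans (an hv.1), (an hv.2).trans (iv x' hx').le⟩
    have d1 := (hS.mono (c := x) (d := x') (by linarith [hx.1]) (by linarith [hx'.2])).comp
      (by fun_prop) (an.monotoneOn _) mp
    have d2 := hmin _ _ _ (lo x) le (hi x') (d1.congr (m' := ν) (fun v hv => ?_) fun _ _ => rfl)
    · rw [iv x hx, iv x' hx'] at d2
      rwa [abs_of_nonneg (sub_nonneg.2 (hT le))]
    · have := mp hv
      simp only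
      rw [ev _ ⟨hx.1.trans this.1, this.2.trans hx'.2⟩]
      congr 1
      field_simp
      ring
  · exact flat x ⟨by linarith [hx.1], hx.2⟩ x' ⟨by linarith [hx'.1], hx'.2⟩ h
      (le_abs.2 (Or.inl (by linarith [hx.1]))) (le_abs.2 (Or.inl (by linarith [hx'.1])))

/-- The point at relative height `s` above `n`. -/
def YY (n s : ℝ) : ℝ := n + s * (1 - n)

lemma YY_mem {n s : ℝ} (h : n ≤ 1) (hs : s ∈ Icc (0 : ℝ) 1) : n ≤ YY n s ∧ YY n s ≤ 1 := by
  have h1 := mul_nonneg hs.1 (sub_nonneg.2 h)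
  have h2 := mul_le_of_le_one_left (sub_nonneg.2 h) hs.2
  unfold YY
  constructor <;> linarith

/-- The properties of the radial coordinate over one notch. -/
structure Half (U : Set P) (ν : ℝ → P) (c x0 d y τ θ0 : ℝ) (Θ : P → ℝ) : Prop where
  gl : Gl Θ
  ex : ∃ θ : ℝ, 0 < θ ∧ ∀ n, ∀ s ∈ Icc (0 : ℝ) 1, ∀ s' ∈ Icc (0 : ℝ) 1, s ≤ s' →
    θ * (s' - s) ≤ Θ (n, s') - Θ (n, s)
  zero : ∀ n, Θ (n, 0) = 0
  one : ∀ n, Θ (n, 1) = 1
  top : ∀ s ∈ Icc (0 : ℝ) 1, Θ (c, s) = s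
  dom : ∀ S, DomOn U (fun x => ν (nU c x0 d y x)) S (x0 - 2 * d) (x0 + 2 * d) →
    ∀ x, |x - x0| < 2 * d → ∀ s ∈ Icc (0 : ℝ) 1, ν (YY (nU c x0 d y x) s) ∈ U →
      ∀ᶠ w in 𝓝[univ ×ˢ Icc (0 : ℝ) 1] ((x, s) : P),
        dist (ν (YY (nU c x0 d y w.1) w.2)) (ν (YY (nU c x0 d y x) s)) ≤
          |S w.1 - S x| + θ0 * |w.1 - x| +
            2 * τ * |Θ (nU c x0 d y w.1, w.2) - Θ (nU c x0 d y x, s)|

lemma exists_half {U : Set P} (hU : IsOpen U) {ν : ℝ → P} {c x0 d y τ θ0 : ℝ}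
    (hm : LipC ν (-1) 1) (ht : Tr U ν (-1) 1 τ) (hτ : 0 < τ) (hy : -1 ≤ y) (hyc : y < c)
    (hc : c < 1) (hd : 0 < d) (hθ0 : 0 < θ0) (hν : ∀ v ∈ Icc c 1, ν v = ν 1) :
    ∃ Θ, Half U ν c x0 d y τ θ0 Θ := by
  obtain ⟨T, K, hT, hK, hD, hmin⟩ := exists_min_on hU (by norm_num : (-1 : ℝ) ≤ 1) hm
  obtain ⟨S0, hS0, hS0'⟩ := ht
  have t1 : T 1 - T (-1) ≤ τ := (hmin _ _ _ le_rfl (by norm_num) le_rfl hS0).trans hS0'
  have hc1 : -1 ≤ c := hy.trans hyc.le
  have t2 : T 1 ≤ T c := by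
    have := hmin c 1 (fun _ => 0) hc1 hc.le le_rfl ⟨monotoneOn_const, fun t ht _ =>
      eventually_mem_nhdsWithin.mono fun t' ht' => by rw [hν t ht, hν t' ht']; simp⟩
    linarith
  obtain ⟨θ, hθ, hθ1, hθ2⟩ : ∃ θ : ℝ, 0 < θ ∧ θ ≤ τ / 2 ∧ θ ≤ θ0 * d / 2 :=
    ⟨min (τ / 2) (θ0 * d / 2), lt_min (by positivity) (by positivity), min_le_left _ _,
      min_le_right _ _⟩
  obtain ⟨Tt, hTt⟩ : ∃ Tt : ℝ → ℝ, ∀ v, Tt v = T v + θ * v := ⟨_, fun _ => rfl⟩
  have gT : Gl T := ⟨|K|, abs_nonneg _, fun a b => by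
    rw [Real.dist_eq]
    rcases le_total a b with h | h
    · rw [abs_sub_comm, abs_sub_comm a, abs_of_nonneg (sub_nonneg.2 (hT h)),
        abs_of_nonneg (sub_nonneg.2 h)]
      exact (hK _ _ h).trans (mul_le_mul_of_nonneg_right (le_abs_self _) (sub_nonneg.2 h))
    · rw [abs_of_nonneg (sub_nonneg.2 (hT h)), abs_of_nonneg (sub_nonneg.2 h)]
      exact (hK _ _ h).trans (mul_le_mul_of_nonneg_right (le_abs_self _) (sub_nonneg.2 h))⟩
  have gTt : Gl Tt := by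
    rw [show Tt = fun v => T v + θ * v from funext hTt]
    exact gT.add (gl_id.cmul θ)
  have inc : ∀ a b, a ≤ b → θ * (b - a) ≤ Tt b - Tt a := fun a b h => by
    rw [hTt, hTt]
    linarith [hT h]
  have bd : ∀ a b, -1 ≤ a → b ≤ 1 → Tt b - Tt a ≤ 2 * τ := fun a b ha hb => by
    have h1 := hT ha
    have h2 := hT hb
    have h3 := mul_le_mul_of_nonneg_left (show b - a ≤ 2 by linarith) hθ.le
    rw [hTt, hTt]
    linarith
  have hδ : 0 < θ * (1 - c) := mul_pos hθ (by linarith)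
  have den : ∀ n, n ≤ c → θ * (1 - c) ≤ Tt 1 - Tt n := fun n hn =>
    (mul_le_mul_of_nonneg_left (by linarith) hθ.le).trans (inc n 1 (by linarith))
  have m1 : ∀ n, -1 ≤ cl (-1) c n := le_cl _ _
  have m2 : ∀ n, cl (-1) c n ≤ c := cl_le hc1
  have r1 : ∀ s, cl 0 1 s ∈ Icc (0 : ℝ) 1 := fun s => ⟨le_cl _ _ _, cl_le zero_le_one _⟩
  have num : ∀ n s, -1 ≤ n → n ≤ c → s ∈ Icc (0 : ℝ) 1 → 0 ≤ Tt (YY n s) - Tt n ∧
      Tt (YY n s) - Tt n ≤ Tt 1 - Tt n := fun n s h1 h2 hs => by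
    obtain ⟨k1, k2⟩ := YY_mem (h2.trans hc.le) hs
    have k3 := inc _ _ k1
    have k4 := inc _ _ k2
    have k5 := mul_nonneg hθ.le (sub_nonneg.2 k1)
    have k6 := mul_nonneg hθ.le (sub_nonneg.2 k2)
    constructor <;> linarith
  obtain ⟨Θ, hΘ⟩ : ∃ Θ : P → ℝ, ∀ w, Θ w = (Tt (YY (cl (-1) c w.1) (cl 0 1 w.2)) -
    Tt (cl (-1) c w.1)) * (Tt 1 - Tt (cl (-1) c w.1))⁻¹ := ⟨_, fun _ => rfl⟩
  refine ⟨Θ, ?_, ⟨θ * (1 - c) / (2 * τ), by positivity, fun n s hs s' hs' h => ?_⟩, fun n => ?_,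
    fun n => ?_, fun s hs => ?_, fun S hS x hx s hs hν' => ?_⟩
  · rw [show Θ = _ from funext hΘ]
    have g1 := gl_fst.cl (-1) c
    have g2 : Gl fun w : P => YY (cl (-1) c w.1) (cl 0 1 w.2) :=
      g1.add ((gl_snd.cl 0 1).mul ((Gl.const 1).sub g1) (A := 1) (B := 2)
        (fun w => abs_cl_le (by norm_num) zero_le_one le_rfl _)
        fun w => abs_le.2 ⟨by linarith [m2 w.1], by linarith [m1 w.1]⟩)
    refine ((gTt.after g2).sub (gTt.after g1)).mul (((Gl.const _).sub (gTt.after g1)).inv hδ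
      fun w => den _ (m2 _)) (A := 2 * τ) (B := (θ * (1 - c))⁻¹) (fun w => ?_) fun w => ?_
    · obtain ⟨k1, k2⟩ := num _ _ (m1 w.1) (m2 w.1) (r1 w.2)
      rw [abs_of_nonneg k1]
      exact k2.trans (bd _ _ (m1 _) le_rfl)
    · rw [abs_of_pos (inv_pos.2 (hδ.trans_le (den _ (m2 _))))]
      exact inv_anti₀ hδ (den _ (m2 _))
  · rw [hΘ, hΘ, ← sub_mul, sub_sub_sub_cancel_right, cl_of_mem hs.1 hs.2, cl_of_mem hs'.1 hs'.2,
      ← div_eq_mul_inv, div_mul_eq_mul_div]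
    have k0 := m2 n
    have k1 : (1 - c) * (s' - s) ≤ YY (cl (-1) c n) s' - YY (cl (-1) c n) s := by
      have := mul_le_mul_of_nonneg_right (show 1 - c ≤ 1 - cl (-1) c n by linarith)
        (sub_nonneg.2 h)
      unfold YY
      linarith
    have k2 : 0 ≤ (1 - c) * (s' - s) := mul_nonneg (by linarith) (sub_nonneg.2 h)
    have k3 := inc _ _ (sub_nonneg.1 (k2.trans k1))
    have k4 := mul_le_mul_of_nonneg_left k1 hθ.le
    have k5 := mul_nonneg hθ.le k2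
    exact div_le_div₀ (by linarith) (by linarith) (hδ.trans_le (den _ k0)) (bd _ _ (m1 _) le_rfl)
  · rw [hΘ, cl_of_mem le_rfl zero_le_one, YY]
    simp
  · rw [hΘ, cl_of_mem zero_le_one le_rfl, YY, one_mul, add_sub_cancel]
    exact mul_inv_cancel₀ (hδ.trans_le (den _ (m2 _))).ne'
  · obtain ⟨k1, k2⟩ := YY_mem hc.le hs
    have k3 : T (YY c s) = T c := le_antisymm ((hT k2).trans t2) (hT k1)
    have k4 : T 1 = T c := le_antisymm t2 (hT hc.le)
    have k5 : 1 - c ≠ 0 := by linarith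
    rw [hΘ, cl_of_mem hc1 le_rfl, cl_of_mem hs.1 hs.2, hTt, hTt, hTt, k3, k4, YY, mul_one,
      add_sub_add_left_eq_sub, add_sub_add_left_eq_sub]
    field_simp
    ring
  · have lo : ∀ x, -1 ≤ nU c x0 d y x := fun x => hy.trans (le_nU hyc.le hd x0 x)
    have hi : ∀ x, nU c x0 d y x ≤ 1 := fun x => (nU_le c x0 d y x).trans hc.le
    have cn := (gl_nU c x0 d y).continuous
    have cY : Continuous fun w : P => YY (nU c x0 d y w.1) w.2 := by
      unfold YY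
      fun_prop
    have mY : MapsTo (fun w : P => YY (nU c x0 d y w.1) w.2) (univ ×ˢ Icc (0 : ℝ) 1)
        (Icc (-1) 1) := fun w hw =>
      ⟨(lo _).trans (YY_mem (hi _) hw.2).1, (YY_mem (hi _) hw.2).2⟩
    have e1 := (cY.continuousWithinAt.tendsto_nhdsWithin mY).eventually
      (hD.2 _ (mY (x := (x, s)) ⟨trivial, hs⟩) hν')
    have e2 : ∀ᶠ w in 𝓝[univ ×ˢ Icc (0 : ℝ) 1] ((x, s) : P), |w.1 - x0| < 2 * d :=
      nhdsWithin_le_nhds (ContinuousAt.eventually_lt (f := fun w : P => |w.1 - x0|)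
        (by fun_prop) continuousAt_const hx)
    have hw := wall hT hmin hy hyc hc.le hd hS
    have val : ∀ n, -1 ≤ n → n ≤ c → ∀ s ∈ Icc (0 : ℝ) 1,
        Tt (YY n s) = Tt n + Θ (n, s) * (Tt 1 - Tt n) ∧ 0 ≤ Θ (n, s) ∧ Θ (n, s) ≤ 1 := by
      intro n h1 h2 s hs
      have k := hδ.trans_le (den n h2)
      obtain ⟨k1, k2⟩ := num n s h1 h2 hs
      rw [hΘ, cl_of_mem h1 h2, cl_of_mem hs.1 hs.2, ← div_eq_mul_inv]
      exact ⟨by rw [div_mul_cancel₀ _ k.ne']; ring, div_nonneg k1 k.le, (div_le_one k).2 k2⟩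
    filter_upwards [e1, e2, self_mem_nhdsWithin] with w k1 k2 k3
    have i1 : x ∈ Icc (x0 - 2 * d) (x0 + 2 * d) :=
      ⟨by linarith [(abs_lt.1 hx).1], by linarith [(abs_lt.1 hx).2]⟩
    have i2 : w.1 ∈ Icc (x0 - 2 * d) (x0 + 2 * d) :=
      ⟨by linarith [(abs_lt.1 k2).1], by linarith [(abs_lt.1 k2).2]⟩
    have w1 : |T (nU c x0 d y w.1) - T (nU c x0 d y x)| ≤ |S w.1 - S x| := by
      rcases le_total x w.1 with h | h
      · exact (hw _ i1 _ i2 h).trans (le_abs_self _)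
      · rw [abs_sub_comm, abs_sub_comm (S w.1)]
        exact (hw _ i2 _ i1 h).trans (le_abs_self _)
    have w2 := nU_lip (x0 := x0) hyc.le (by linarith) hd x w.1
    obtain ⟨v1, -, -⟩ := val _ (lo x) (nU_le _ _ _ _ _) s hs
    obtain ⟨v2, v3, v4⟩ := val _ (lo w.1) (nU_le _ _ _ _ _) w.2 k3.2
    have b1 := bd _ _ (lo x) le_rfl
    have b2 := hδ.le.trans (den _ (nU_le c x0 d y x))
    generalize nU c x0 d y w.1 = n' at *
    generalize nU c x0 d y x = n at *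
    have w3 : |T (YY n' w.2) - T (YY n s)| ≤ |Tt (YY n' w.2) - Tt (YY n s)| := by
      rw [hTt, hTt]
      rcases le_total (YY n' w.2) (YY n s) with h | h
      · have := mul_le_mul_of_nonneg_left h hθ.le
        rw [abs_of_nonpos (sub_nonpos.2 (hT h))]
        exact le_abs.2 (Or.inr (by linarith))
      · have := mul_le_mul_of_nonneg_left h hθ.le
        rw [abs_of_nonneg (sub_nonneg.2 (hT h))]
        exact le_abs.2 (Or.inl (by linarith))
    have w4 : Tt (YY n' w.2) - Tt (YY n s) = (1 - Θ (n', w.2)) * (Tt n' - Tt n) +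
        (Θ (n', w.2) - Θ (n, s)) * (Tt 1 - Tt n) := by
      rw [v1, v2]; ring
    have w5 : |Tt n' - Tt n| ≤ |T n' - T n| + θ * |n' - n| := by
      rw [hTt, hTt, show T n' + θ * n' - (T n + θ * n) = (T n' - T n) + θ * (n' - n) by ring]
      refine (abs_add_le _ _).trans ?_
      rw [abs_mul, abs_of_pos hθ]
    have w6 : θ * |n' - n| ≤ θ0 * |w.1 - x| := by
      refine (mul_le_mul hθ2 w2 (abs_nonneg _) (by positivity)).trans (le_of_eq ?_)
      field_simp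
    have w7 := abs_add_le ((1 - Θ (n', w.2)) * (Tt n' - Tt n))
      ((Θ (n', w.2) - Θ (n, s)) * (Tt 1 - Tt n))
    rw [← w4, abs_mul, abs_mul, abs_of_nonneg (sub_nonneg.2 v4), abs_of_nonneg b2] at w7
    have w8 := mul_le_of_le_one_left (abs_nonneg (Tt n' - Tt n))
      (show 1 - Θ (n', w.2) ≤ 1 by linarith)
    have w9 := mul_le_mul_of_nonneg_left b1 (abs_nonneg (Θ (n', w.2) - Θ (n, s)))
    linarith

lemma Half.side {U : Set P} {ν : ℝ → P} {c x0 d y τ θ0 : ℝ} {Θ : P → ℝ}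
    (H : Half U ν c x0 d y τ θ0 Θ) {V : P → P} {m0 : ℝ → P} {σ : ℝ → ℝ} {ϑ : P → ℝ} {a b C : ℝ}
    (ha : a = 1 ∨ a = -1) (hσ : Monotone σ) (hC : 0 ≤ C)
    (hA : ∀ t, m0 t ∈ U → ∀ᶠ t' in 𝓝 t, dist (m0 t') (m0 t) ≤ C * |σ t' - σ t|)
    (hV : ∀ t, |a * (2 * t) + b - x0| ≤ 2 * d → m0 t = ν (nU c x0 d y (a * (2 * t) + b)) ∧
      ∀ s ∈ Icc (0 : ℝ) 1, V (t, s) = ν (YY (nU c x0 d y (a * (2 * t) + b)) s) ∧
        ϑ (t, s) = Θ (nU c x0 d y (a * (2 * t) + b), s))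
    {t s : ℝ} (ht : |a * (2 * t) + b - x0| < 2 * d) (hs : s ∈ Icc (0 : ℝ) 1)
    (hU : V (t, s) ∈ U) : ∀ᶠ w in 𝓝[univ ×ˢ Icc (0 : ℝ) 1] ((t, s) : P),
      dist (V w) (V (t, s)) ≤
        C * |σ w.1 - σ t| + 2 * θ0 * |w.1 - t| + 2 * τ * |ϑ w - ϑ (t, s)| := by
  have a1 : |a| = 1 := by rcases ha with rfl | rfl <;> simp
  have i1 : ∀ x, a * (2 * (a * (x - b) / 2)) + b = x := fun x => by
    rcases ha with rfl | rfl <;> ring
  have i2 : ∀ t, a * (a * (2 * t) + b - b) / 2 = t := fun t => by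
    rcases ha with rfl | rfl <;> ring
  have ab : ∀ u v, |a * (C * u) - a * (C * v)| = C * |u - v| := fun u v => by
    rw [← mul_sub, ← mul_sub, abs_mul, abs_mul, a1, one_mul, abs_of_nonneg hC]
  have ev : ∀ x ∈ Icc (x0 - 2 * d) (x0 + 2 * d), m0 (a * (x - b) / 2) = ν (nU c x0 d y x) :=
    fun x hx => by
      have := (hV (a * (x - b) / 2) (by
        rw [i1]
        exact abs_le.2 ⟨by linarith [hx.1], by linarith [hx.2]⟩)).1
      rwa [i1] at this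
  have hS : DomOn U (fun x => ν (nU c x0 d y x)) (fun x => a * (C * σ (a * (x - b) / 2)))
      (x0 - 2 * d) (x0 + 2 * d) := by
    refine ⟨fun x _ x' _ h => ?_, fun x hx hx' => ?_⟩
    · rcases ha with rfl | rfl
      · have := mul_le_mul_of_nonneg_left
          (hσ (show 1 * (x - b) / 2 ≤ 1 * (x' - b) / 2 by linarith)) hC
        linarith
      · have := mul_le_mul_of_nonneg_left
          (hσ (show -1 * (x' - b) / 2 ≤ -1 * (x - b) / 2 by linarith)) hC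
        linarith
    · have k := ((show Continuous fun x : ℝ => a * (x - b) / 2 by fun_prop).tendsto x).eventually
        (hA _ ((ev x hx).symm ▸ hx'))
      filter_upwards [nhdsWithin_le_nhds k, self_mem_nhdsWithin] with x' k1 k2
      rwa [ev x hx, ev x' k2, ← ab] at k1
  obtain ⟨v1, v2⟩ := (hV t ht.le).2 s hs
  have k := ((show Continuous fun w : P => ((a * (2 * w.1) + b, w.2) : P) by
    fun_prop).continuousWithinAt.tendsto_nhdsWithin (s := univ ×ˢ Icc (0 : ℝ) 1) (x := (t, s))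
    (t := univ ×ˢ Icc (0 : ℝ) 1) fun w hw => ⟨trivial, hw.2⟩).eventually
    (H.dom _ hS _ ht s hs (v1 ▸ hU))
  have e2 : ∀ᶠ w in 𝓝[univ ×ˢ Icc (0 : ℝ) 1] ((t, s) : P), |a * (2 * w.1) + b - x0| < 2 * d :=
    nhdsWithin_le_nhds (ContinuousAt.eventually_lt (f := fun w : P => |a * (2 * w.1) + b - x0|)
      (by fun_prop) continuousAt_const ht)
  filter_upwards [k, e2, self_mem_nhdsWithin] with w k1 k2 k3
  obtain ⟨v3, v4⟩ := (hV w.1 k2.le).2 w.2 k3.2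
  simp only [i2, ab] at k1
  rw [add_sub_add_right_eq_sub, ← mul_sub, ← mul_sub, abs_mul, abs_mul, a1, abs_two, ← v1, ← v2,
    ← v3, ← v4] at k1
  linarith

lemma fib_pair {σ : ℝ → ℝ} {ϑ : P → ℝ} {θ θ1 : ℝ} (hθ : 0 < θ) (hθ1 : 0 < θ1)
    (lo : ∀ t t', θ * |t' - t| ≤ |σ t' - σ t|) (gσ : Gl σ) (gϑ : Gl ϑ)
    (ex : ∀ t, ∀ s ∈ Icc (0 : ℝ) 1, ∀ s' ∈ Icc (0 : ℝ) 1, s ≤ s' →
      θ1 * (s' - s) ≤ ϑ (t, s') - ϑ (t, s)) :
    Up (univ ×ˢ Icc (0 : ℝ) 1) (fun z : P => (σ z.1, ϑ z)) ∧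
      Low (univ ×ˢ Icc (0 : ℝ) 1) (fun z : P => (σ z.1, ϑ z)) ∧
      InjOn (fun z : P => (σ z.1, ϑ z)) (univ ×ˢ Icc (0 : ℝ) 1) := by
  have hup := ((gσ.after gl_fst).up (univ ×ˢ Icc (0 : ℝ) 1)).prodMk (gϑ.up _)
  obtain ⟨K, hK, gϑ⟩ := gϑ
  have key : ∀ z ∈ (univ ×ˢ Icc (0 : ℝ) 1 : Set P), ∀ z' ∈ (univ ×ˢ Icc (0 : ℝ) 1 : Set P),
      dist z' z ≤ (1 / θ + (1 + K / θ) / θ1) * dist (σ z'.1, ϑ z') (σ z.1, ϑ z) := by
    rintro ⟨t, s⟩ hz ⟨t', s'⟩ hz'
    have d1 : |σ t' - σ t| ≤ dist (σ t', ϑ (t', s')) (σ t, ϑ (t, s)) := le_max_left _ _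
    have d2 : |ϑ (t', s') - ϑ (t, s)| ≤ dist (σ t', ϑ (t', s')) (σ t, ϑ (t, s)) :=
      le_max_right _ _
    have d0 : 0 ≤ dist (σ t', ϑ (t', s')) (σ t, ϑ (t, s)) := dist_nonneg
    simp only
    generalize dist (σ t', ϑ (t', s')) (σ t, ϑ (t, s)) = D at *
    have k1 : |t' - t| ≤ 1 / θ * D := by
      rw [div_mul_eq_mul_div, le_div_iff₀ hθ]
      linarith [lo t t']
    have k2 : θ1 * |s' - s| ≤ |ϑ (t, s') - ϑ (t, s)| := by
      rcases le_total s s' with h | h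
      · rw [abs_of_nonneg (sub_nonneg.2 h)]
        exact (ex t s hz.2 s' hz'.2 h).trans (le_abs_self _)
      · rw [abs_sub_comm, abs_sub_comm (ϑ _), abs_of_nonneg (sub_nonneg.2 h)]
        exact (ex t s' hz'.2 s hz.2 h).trans (le_abs_self _)
    have k3 := gϑ (t, s') (t', s')
    rw [dist_prod_same_right, Real.dist_eq, abs_sub_comm t] at k3
    have k4 := abs_sub_le (ϑ (t, s')) (ϑ (t', s')) (ϑ (t, s))
    have k5 := mul_le_mul_of_nonneg_left k1 hK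
    have k6 : |s' - s| ≤ (1 + K / θ) / θ1 * D := by
      rw [div_mul_eq_mul_div, le_div_iff₀ hθ1]
      have : K * (1 / θ * D) = K / θ * D := by ring
      linarith
    have k7 : 0 ≤ 1 / θ * D := by positivity
    have k8 : 0 ≤ (1 + K / θ) / θ1 * D := by positivity
    rw [Prod.dist_eq, Real.dist_eq, Real.dist_eq]
    exact max_le (by linarith) (by linarith)
  refine ⟨hup, ⟨(1 / θ + (1 + K / θ) / θ1)⁻¹, by positivity, fun z hz =>
    eventually_mem_nhdsWithin.mono fun z' hz' => ?_⟩, fun z hz z' hz' h => ?_⟩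
  · rw [inv_mul_le_iff₀ (by positivity)]
    exact key z hz z' hz'
  · have := key z' hz' z hz
    simp only at h
    rw [h, dist_self, mul_zero] at this
    exact dist_le_zero.1 this

lemma lift_bounds {σ : ℝ → ℝ} (h : IsLift σ) :
    Gl σ ∧ ∃ θ : ℝ, 0 < θ ∧ ∀ t t', θ * |t' - t| ≤ |σ t' - σ t| := by
  obtain ⟨θ, K, hθ, hb⟩ := h.1
  have key : ∀ t t', θ * |t' - t| ≤ |σ t' - σ t| ∧ |σ t' - σ t| ≤ |K| * |t' - t| := by
    intro t t'
    wlog hh : t ≤ t' generalizing t t'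
    · rw [abs_sub_comm, abs_sub_comm (σ t')]
      exact this t' t (not_le.1 hh).le
    obtain ⟨k1, k2⟩ := hb t trivial t' trivial hh
    have k3 := mul_nonneg hθ.le (sub_nonneg.2 hh)
    rw [abs_of_nonneg (sub_nonneg.2 hh), abs_of_nonneg (k3.trans k1)]
    exact ⟨k1, k2.trans (mul_le_mul_of_nonneg_right (le_abs_self K) (sub_nonneg.2 hh))⟩
  exact ⟨⟨|K|, abs_nonneg _, fun t t' => (key t' t).2⟩, θ, hθ, fun t t' => (key t t').1⟩

/-! ### The boundary loop -/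

lemma Γ_bot {t : ℝ} (h0 : 0 ≤ t) (h1 : t ≤ 1) : Γ t = (1 * (2 * t) + -1, -1) := by
  have := (Γ_eval (u := 1 * (2 * t) + -1) ⟨by linarith, by linarith⟩).1
  rwa [show (1 * (2 * t) + -1 + 1) / 2 = t by ring] at this

lemma Γ_right {t : ℝ} (h0 : 1 ≤ t) (h1 : t ≤ 2) : (Γ t).1 = 1 := by
  have := (Γ_eval (u := 2 * t - 3) ⟨by linarith, by linarith⟩).2.1
  rw [show 1 + (2 * t - 3 + 1) / 2 = t by ring] at this
  rw [this]

lemma Γ_top {t : ℝ} (h0 : 2 ≤ t) (h1 : t ≤ 3) : Γ t = (-1 * (2 * t) + 5, 1) := by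
  have := (Γ_eval (u := 2 * t - 5) ⟨by linarith, by linarith⟩).2.2.1
  rwa [show 2 + (2 * t - 5 + 1) / 2 = t by ring,
    show -(2 * t - 5) = -1 * (2 * t) + 5 by ring] at this

lemma Γ_left {t : ℝ} (h0 : 3 ≤ t) (h1 : t ≤ 4) : (Γ t).1 = -1 := by
  have := (Γ_eval (u := 2 * t - 7) ⟨by linarith, by linarith⟩).2.2.2
  rw [show 3 + (2 * t - 7 + 1) / 2 = t by ring] at this
  rw [this]

lemma Γ_snd {t : ℝ} (h : |(Γ t).1| < 1) : (Γ t).2 = 1 ∨ (Γ t).2 = -1 := by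
  have h1 := norm_Γ t
  rw [Prod.norm_def, Real.norm_eq_abs, Real.norm_eq_abs] at h1
  rcases max_eq_iff.1 h1 with k | k
  · exact absurd k.1 h.ne
  · exact (abs_eq zero_le_one).1 k.1

end NotchAux

end Pool.Agent.Lib.MP_ecd4e3_gt
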