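import Pool.Agent.Lib.MP_ecd4e3_gt.Gain

/-! Pure numerical lemmas for the refinement step. -/

namespace Pool.Agent.Lib.MP_ecd4e3_gt

theorem C0_pos : 0 < C0 := by unfold C0; positivity
theorem hk1 : k1 = 1 / 10 ^ 26 := by rw [k1]
theorem hk2 : k2 = 1 / 10 ^ 28 := by rw [k2]
theorem hd0 : d0 = 1 / 10 ^ 9 := by rw [d0]
theorem hBB : BB = 10 ^ 8 := by rw [BB]
theorem k1_pos : 0 < k1 := by rw [hk1]; positivity
theorem k2_pos : 0 < k2 := by rw [hk2]; positivity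
theorem BB_pos : 0 < BB := by rw [hBB]; positivity

theorem sqrt_C0 {ν : ℝ} : √(C0 * ν) = sC * √ν := by
  have : C0 = sC * sC := by unfold C0 sC; norm_num
  rw [Real.sqrt_mul C0_pos.le, this, Real.sqrt_mul_self (by unfold sC; positivity)]

theorem rt_small {ν W : ℝ} (h : 0 < ν) (hW : C0 * ν / 10 ≤ W) : 10 ^ 49 * √ν ≤ √W := by
  have h1 : √(C0 * (ν / 16)) ≤ √W := Real.sqrt_le_sqrt (by have := mul_pos C0_pos h; linarith)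
  rw [sqrt_C0, Real.sqrt_div' _ (by norm_num)] at h1
  have h2 : √(16 : ℝ) = 4 := by
    rw [show (16 : ℝ) = 4 * 4 by norm_num, Real.sqrt_mul_self (by norm_num)]
  rw [h2] at h1
  have h3 : 0 ≤ √ν := Real.sqrt_nonneg _
  unfold sC at h1
  linarith

/-- The trace term of a cell is negligible against the square root of its credit. -/
theorem ta_small {m : ℕ} {ν W : ℝ} (h : 0 < ν) (h' : ν ≤ 2 ^ m) (hW : C0 * ν / 10 ≤ W) :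
    10 ^ 40 * ta m ν ≤ √W := by
  obtain ⟨-, -, -, -, -, c6⟩ := cr_bd m h h'
  have h1 := rt_small h hW
  have h3 : 0 ≤ √ν := Real.sqrt_nonneg _
  linarith

theorem sq_gap {a c : ℝ} (hν : 0 < a + c) (hd : d0 * (a + c) ≤ |a - c|) :
    1 / 10 ^ 18 ≤ ((a - c) / (a + c)) ^ 2 := by
  have h1 : d0 ≤ |(a - c) / (a + c)| := by
    rw [abs_div, abs_of_pos hν, le_div_iff₀ hν]; exact hd
  have h0 : 0 ≤ d0 := by rw [hd0]; positivity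
  have h2 : d0 ^ 2 = 1 / 10 ^ 18 := by rw [hd0]; norm_num
  calc 1 / 10 ^ 18 = d0 ^ 2 := h2.symm
    _ ≤ |(a - c) / (a + c)| ^ 2 := by gcongr
    _ = _ := sq_abs _

theorem imb_num {C X Xa Xc x S ba bc oa oc n1 n2 ca cc cb φ W0 δ : ℝ} (hC : 0 < C) (hX : 0 < X)
    (ha : 0 < Xa) (hc : 0 < Xc) (hn1 : n1 ≤ 1) (hn2 : n2 ≤ 1)
    (q1 : ba + (1 + n1) * oa ≤ ca + (1 + (1 + n1)) * (k1 * C * Xa))
    (q2 : bc + (1 + n2) * oc ≤ cc + (1 + (1 + n2)) * (k1 * C * Xc))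
    (hcr : ca + cc = cb - C * (Xa + Xc - X)) (g1 : X * (1 + δ / 64) ≤ Xa + Xc)
    (g2 : Xa + Xc ≤ 2 * X) (hδ : 1 / 10 ^ 18 ≤ δ) (hφ : φ ≤ 16 / 3)
    (hw : S + cb + k2 * C * x * φ ≤ W0) :
    S + ba + (1 + n1) * oa + (bc + (1 + n2) * oc) + k2 * C * (x + Xa + Xc) * φ ≤
      W0 - C * X / 10 ^ 33 := by
  have p1 := mul_pos hC hX
  have p2 := mul_pos hC ha
  have p3 := mul_pos hC hc
  have r1 := mul_le_mul_of_nonneg_right hn1 p2.le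
  have r2 := mul_le_mul_of_nonneg_right hn2 p3.le
  have r3 := mul_le_mul_of_nonneg_left g1 hC.le
  have r4 := mul_le_mul_of_nonneg_left g2 hC.le
  have r5 := mul_le_mul_of_nonneg_left hδ p1.le
  have r6 := mul_le_mul_of_nonneg_left hφ p2.le
  have r7 := mul_le_mul_of_nonneg_left hφ p3.le
  rw [hk1] at q1 q2
  rw [hk2] at hw ⊢
  linarith

theorem bal_num {C ν X Xa Xc x1 x2 S1 S2 u1 u2 n1 n2 ca cc cb φ dr φ1 φ2 W0 e : ℝ} (hC : 0 < C)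
    (hX : 0 < X) (hXν : X ≤ ν) (hx1 : 0 ≤ x1) (hx2 : 0 ≤ x2)
    (hn1 : 0 ≤ n1) (hn1' : n1 ≤ 1) (hn2 : 0 ≤ n2) (hn2' : n2 ≤ 1)
    (q1 : u1 ≤ ca + (1 + n1) * (k1 * C * Xa)) (q2 : u2 ≤ cc + (1 + n2) * (k1 * C * Xc))
    (hcr : ca + cc = cb - C * (Xa + Xc - X)) (g1 : X ≤ Xa + Xc) (g2 : Xa + Xc ≤ 2 * X)
    (b1 : X / 4 ≤ Xa) (b2 : X / 4 ≤ Xc) (cd : |ca - cc| ≤ 2 / 10 ^ 9 * (C * ν))
    (hφ0 : 0 ≤ φ) (hφ : φ ≤ 16 / 3) (hdr : 0 ≤ dr) (f1 : φ1 ≤ 16 / 3)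
    (f2 : φ2 ≤ 16 / 3)
    (hf : φ1 * (x1 + Xa) + φ2 * (x2 + Xc) ≤ (φ - dr) * (x1 + Xa + (x2 + Xc)))
    (z1 : C / 10 * x1 ≤ S1) (z2 : C / 10 * x2 ≤ S2) (hlo : C * ν ≤ W0)
    (hS : S1 + S2 ≤ 31 / 100 * W0) (he : 0 ≤ e)
    (hw : S1 + S2 + cb + (1 + n1 + n2) * (k1 * C * X) + k2 * C * (x1 + x2 + X) * φ + e ≤ W0)
    (hp : C * X / 10 ^ 33 ≤ e + (n1 + n2) * (k1 * C * X) / 4 + k2 * C * X * dr) :
    S1 + u1 + k2 * C * (x1 + Xa) * φ1 + (S2 + u2 + k2 * C * (x2 + Xc) * φ2) ≤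
        W0 - C * X / 10 ^ 33 ∧
      S1 + u1 + k2 * C * (x1 + Xa) * φ1 ≤ 7 / 8 * (W0 - C * X / 10 ^ 33) ∧
      S2 + u2 + k2 * C * (x2 + Xc) * φ2 ≤ 7 / 8 * (W0 - C * X / 10 ^ 33) := by
  obtain ⟨Y, hY⟩ : ∃ Y, Y = C * X := ⟨_, rfl⟩
  obtain ⟨Ya, hYa⟩ : ∃ Y, Y = C * Xa := ⟨_, rfl⟩
  obtain ⟨Yc, hYc⟩ : ∃ Y, Y = C * Xc := ⟨_, rfl⟩
  obtain ⟨Z1, hZ1⟩ : ∃ Y, Y = C * x1 := ⟨_, rfl⟩
  obtain ⟨Z2, hZ2⟩ : ∃ Y, Y = C * x2 := ⟨_, rfl⟩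
  have pY : 0 < Y := hY ▸ mul_pos hC hX
  have pZ1 : 0 ≤ Z1 := hZ1 ▸ mul_nonneg hC.le hx1
  have pZ2 : 0 ≤ Z2 := hZ2 ▸ mul_nonneg hC.le hx2
  have YW : Y ≤ W0 := le_trans (hY ▸ mul_le_mul_of_nonneg_left hXν hC.le) hlo
  have G1 : Y ≤ Ya + Yc := by
    have := mul_le_mul_of_nonneg_left g1 hC.le
    rw [hY, hYa, hYc]; linarith
  have G2 : Ya + Yc ≤ 2 * Y := by
    have := mul_le_mul_of_nonneg_left g2 hC.le
    rw [hY, hYa, hYc]; linarith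
  have B1 : Y / 4 ≤ Ya := by
    have := mul_le_mul_of_nonneg_left b1 hC.le
    rw [hY, hYa]; linarith
  have B2 : Y / 4 ≤ Yc := by
    have := mul_le_mul_of_nonneg_left b2 hC.le
    rw [hY, hYc]; linarith
  have HF : φ1 * (Z1 + Ya) + φ2 * (Z2 + Yc) ≤ (φ - dr) * (Z1 + Ya + (Z2 + Yc)) := by
    have := mul_le_mul_of_nonneg_left hf hC.le
    rw [hZ1, hZ2, hYa, hYc]; linarith
  have e1 : k1 * C * Xa = k1 * Ya := by rw [hYa]; ring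
  have e2 : k1 * C * Xc = k1 * Yc := by rw [hYc]; ring
  have e3 : k1 * C * X = k1 * Y := by rw [hY]; ring
  have e4 : k2 * C * (x1 + x2 + X) = k2 * (Z1 + Z2 + Y) := by rw [hY, hZ1, hZ2]; ring
  have e5 : k2 * C * X = k2 * Y := by rw [hY]; ring
  have e6 : k2 * C * (x1 + Xa) = k2 * (Z1 + Ya) := by rw [hYa, hZ1]; ring
  have e7 : k2 * C * (x2 + Xc) = k2 * (Z2 + Yc) := by rw [hYc, hZ2]; ring
  have e8 : C * (Xa + Xc - X) = Ya + Yc - Y := by rw [hY, hYa, hYc]; ring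
  have e9 : C / 10 * x1 = Z1 / 10 := by rw [hZ1]; ring
  have e10 : C / 10 * x2 = Z2 / 10 := by rw [hZ2]; ring
  rw [e1] at q1
  rw [e2] at q2
  rw [e3, e4] at hw
  rw [e3, e5, ← hY] at hp
  rw [e8] at hcr
  rw [e9] at z1
  rw [e10] at z2
  rw [e6, e7, ← hY]
  obtain ⟨cd1, cd2⟩ := abs_le.mp cd
  clear e1 e2 e3 e4 e5 e6 e7 e8 e9 e10 hY hYa hYc hZ1 hZ2 hf cd g1 g2 b1 b2
  have a1 := mul_le_mul_of_nonneg_left hφ (sub_nonneg.mpr G1)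
  have a2 : 0 ≤ dr * (Z1 + Z2 + (Ya + Yc - Y)) := mul_nonneg hdr (by linarith)
  have a3 := mul_le_mul_of_nonneg_left B1 hn2
  have a4 := mul_le_mul_of_nonneg_left B2 hn1
  have a5 := mul_le_mul_of_nonneg_right hn1' (sub_nonneg.mpr G1)
  have a6 := mul_le_mul_of_nonneg_right hn2' (sub_nonneg.mpr G1)
  have a7 := mul_le_mul_of_nonneg_left f1 (show 0 ≤ Z1 + Ya by linarith)
  have a8 := mul_le_mul_of_nonneg_left f2 (show 0 ≤ Z2 + Yc by linarith)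
  have a9 := mul_le_mul_of_nonneg_right hn1' (show 0 ≤ Ya by linarith)
  have a10 := mul_le_mul_of_nonneg_right hn2' (show 0 ≤ Yc by linarith)
  have a11 : 0 ≤ (Z1 + Z2 + Y) * φ := mul_nonneg (by linarith) hφ0
  have a12 := mul_nonneg hn1 pY.le
  have a13 := mul_nonneg hn2 pY.le
  rw [hk1] at q1 q2 hw hp
  rw [hk2] at hw hp ⊢
  refine ⟨by linarith, by linarith, by linarith⟩

end Pool.Agent.Lib.MP_ecd4e3_gt
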