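import Pool.Agent.Lib.MP_ecd4e3_gt.Notch

/-! Pinching one side of a chart to a subinterval. -/

namespace Pool.Agent.Lib.MP_ecd4e3_gt

open Set Filter Topology

theorem pin_Γ_eq {t t' : ℝ} (h : Γ t = Γ t') (h1 : t - t' < 4) (h2 : t' - t < 4) : t = t' := by
  obtain ⟨k, rfl⟩ := Γ_inj h
  have a1 : (-1 : ℝ) < k := by linarith
  have a2 : (k : ℝ) < 1 := by linarith
  obtain rfl : k = 0 := by
    have : -1 < k := by exact_mod_cast a1
    have : k < 1 := by exact_mod_cast a2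
    omega
  simp

theorem pin_Γ_right {t : ℝ} (ht : t ∈ Icc (1 : ℝ) 2) : Γ t = (1, 2 * t - 3) := by
  rw [← (Γ_eval (u := 2 * t - 3) ⟨by linarith [ht.1], by linarith [ht.2]⟩).2.1]
  congr 1; ring

theorem pin_Γ_left {t : ℝ} (ht : t ∈ Icc (3 : ℝ) 4) : Γ t = (-1, 7 - 2 * t) := by
  rw [← neg_sub, ← (Γ_eval (u := 2 * t - 7) ⟨by linarith [ht.1], by linarith [ht.2]⟩).2.2.2]
  congr 1; ring

/-- A global bi-Lipschitz map preserving the square and fixing its left side has a lift. -/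
theorem pin_lift {h g : P → P} (lh : LocallyLipschitz h) (lg : LocallyLipschitz g)
    (gh : ∀ p, g (h p) = p) (hg : ∀ p, h (g p) = p) (mh : MapsTo h sq sq) (mg : MapsTo g sq sq)
    (hf : ∀ y ∈ Icc (-1 : ℝ) 1, h (-1, y) = (-1, y)) :
    Hm h g ∧ ∃ χ, IsLift χ ∧ (∀ t, h (Γ t) = Γ (χ t)) ∧ (∀ t ∈ Icc (3 : ℝ) 4, χ t = t) ∧
      ∀ t ∈ Icc (1 : ℝ) 2, ∀ u ∈ Icc (1 : ℝ) 2, h (Γ t) = Γ u → χ t = u := by
  have H : Hm h g := ⟨mh, mg, fun p _ => gh p, fun p _ => hg p,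
    up_of_locallyLipschitz isCompact_sq lh, up_of_locallyLipschitz isCompact_sq lg⟩
  have h1 : ∀ t ∈ Icc (3 : ℝ) 4, h (Γ t) = Γ t := fun t ht => by
    rw [pin_Γ_left ht, hf _ ⟨by linarith [ht.2], by linarith [ht.1]⟩]
  have h2 : ∀ t, ‖h (Γ t)‖ = 1 := fun t => by
    refine le_antisymm (mem_sq.1 (mh (Γ_mem t))) (not_lt.1 fun hl => ?_)
    have a1 : Metric.closedBall (0 : P) 1 ∈ 𝓝 (Γ t) := by
      filter_upwards [(lh.continuous.norm.continuousAt (x := Γ t)).eventually (ge_mem_nhds hl)]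
        with q hq
      rw [mem_closedBall_zero_iff, ← gh q]
      exact mem_sq.1 (mg (mem_sq.2 hq))
    rw [← mem_interior_iff_mem_nhds, interior_closedBall _ one_ne_zero, mem_ball_zero_iff,
      norm_Γ] at a1
    exact a1.false
  obtain ⟨χ, c1, c2, c3, c4⟩ := exists_lift_arcs H (k := 3) (k' := 4) (by norm_num) (by norm_num)
    (h1 _ (by norm_num)) (h1 _ (by norm_num)) (fun t ht => ⟨t, ht, h1 t ht⟩) fun t ht => by
      obtain ⟨u, hu, e⟩ := exists_Γ (h2 t) 4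
      refine ⟨u, ⟨hu.1, not_lt.1 fun h7 => ?_⟩, e.symm⟩
      have a1 := h1 (u - 4) ⟨by linarith, by linarith [hu.2]⟩
      rw [← Γ_add_four (u - 4), sub_add_cancel] at a1
      have a2 : Γ t = Γ u := by rw [← gh (Γ t), ← e, ← a1, gh, a1]
      linarith [pin_Γ_eq a2 (by linarith [ht.2]) (by linarith [ht.1, hu.2]), ht.2]
  have hm := c1.strictMono.monotone
  have c0 : χ 0 = 0 := by have := c1.2 0; rw [zero_add, c4] at this; linarith
  refine ⟨H, χ, c1, c2, fun t ht => pin_Γ_eq ((c2 t).symm.trans (h1 t ht)) ?_ ?_,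
    fun t ht u hu e => pin_Γ_eq ((c2 t).symm.trans e) ?_ ?_⟩
  · linarith [hm ht.2, ht.1]
  · linarith [hm ht.1, ht.2]
  · linarith [hm (show t ≤ 3 by linarith [ht.2]), hu.1]
  · linarith [hm (show 0 ≤ t by linarith [ht.1]), hu.2]

/-- The inverse of the compression of the end zones. -/
noncomputable def pin_pxi (z y : ℝ) : ℝ := 2 * y - cl (z - 1) (1 - z) y

/-- The horizontal gap at the height `y`. -/
noncomputable def pin_pbe (c d y1 y2 y : ℝ) : ℝ :=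
  min d (max 0 (max (d * (y - y2) / (c - y2)) (d * (y1 - y) / (c + y1))))

/-- Horizontal stretching. -/
noncomputable def pin_pst (d x β : ℝ) : ℝ := x + β * max 0 (x - (1 - 2 * d)) / (2 * d - β)

/-- Horizontal shrinking. -/
noncomputable def pin_psh (d x β : ℝ) : ℝ := x - β * max 0 (x - (1 - 2 * d)) / (2 * d)

variable {z d β c y1 y2 : ℝ}

theorem pin_cl_xi (hz : z ≤ 1) (y : ℝ) : cl (z - 1) (1 - z) (xi z 0 y) = cl (z - 1) (1 - z) y := by
  simp only [xi, cl, max_def, min_def]; split_ifs <;> linarith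

theorem pin_cl_pxi (hz : z ≤ 1) (y : ℝ) : cl (z - 1) (1 - z) (pin_pxi z y) = cl (z - 1) (1 - z) y := by
  simp only [pin_pxi, cl, max_def, min_def]; split_ifs <;> linarith

theorem pin_pxi_xi (hz : z ≤ 1) (y : ℝ) : pin_pxi z (xi z 0 y) = y := by
  rw [pin_pxi, pin_cl_xi hz, xi]; ring

theorem pin_xi_pxi (hz : z ≤ 1) (y : ℝ) : xi z 0 (pin_pxi z y) = y := by
  rw [xi, pin_cl_pxi hz, pin_pxi]; ring

theorem pin_abs_xi_le (hz0 : 0 ≤ z) (hz : z ≤ 1) {y : ℝ} (h : |y| ≤ 1) : |xi z 0 y| ≤ 1 - z / 2 := by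
  rw [abs_le] at h ⊢
  simp only [xi, cl, max_def, min_def]; split_ifs <;> constructor <;> linarith [h.1, h.2]

theorem pin_abs_pxi_le (hz0 : 0 ≤ z) (hz : z ≤ 1) {y : ℝ} (h : |y| ≤ 1 - z / 2) : |pin_pxi z y| ≤ 1 := by
  rw [abs_le] at h ⊢
  simp only [pin_pxi, cl, max_def, min_def]; split_ifs <;> constructor <;> linarith [h.1, h.2]

theorem pin_xi_neg (hz : z ≤ 1) (y : ℝ) : xi z 0 (-y) = -xi z 0 y := by
  simp only [xi, cl, max_def, min_def]; split_ifs <;> linarith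

theorem pin_pbe_mem (hd : 0 < d) (y : ℝ) : pin_pbe c d y1 y2 y ∈ Icc 0 d :=
  ⟨le_min hd.le (le_max_left _ _), min_le_left _ _⟩

theorem pin_pst_of_le {x : ℝ} (h : x ≤ 1 - 2 * d) : pin_pst d x β = x := by
  simp [pin_pst, max_eq_left (sub_nonpos.2 h)]

theorem pin_psh_of_le {x : ℝ} (h : x ≤ 1 - 2 * d) : pin_psh d x β = x := by
  simp [pin_psh, max_eq_left (sub_nonpos.2 h)]

theorem pin_pst_of_ge (hd : 0 < d) (hβ : β ∈ Icc 0 d) {x : ℝ} (h : 1 - 2 * d ≤ x) :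
    (pin_pst d x β - (1 - 2 * d)) * (2 * d - β) = (x - (1 - 2 * d)) * (2 * d) := by
  have : 2 * d - β ≠ 0 := by linarith [hβ.2]
  rw [pin_pst, max_eq_right (sub_nonneg.2 h)]; field_simp; ring

theorem pin_psh_of_ge (hd : 0 < d) {x : ℝ} (h : 1 - 2 * d ≤ x) :
    (pin_psh d x β - (1 - 2 * d)) * (2 * d) = (x - (1 - 2 * d)) * (2 * d - β) := by
  rw [pin_psh, max_eq_right (sub_nonneg.2 h)]; field_simp; ring

theorem pin_le_pst (hd : 0 < d) (hβ : β ∈ Icc 0 d) (x : ℝ) : x ≤ pin_pst d x β :=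
  le_add_of_nonneg_right (div_nonneg (mul_nonneg hβ.1 (le_max_left _ _)) (by linarith [hβ.2]))

theorem pin_le_psh (hd : 0 < d) (hβ : β ∈ Icc 0 d) {x : ℝ} (h : 1 - 2 * d ≤ x) :
    1 - 2 * d ≤ pin_psh d x β := by
  refine sub_nonneg.1 (nonneg_of_mul_nonneg_left ?_ (show 0 < 2 * d by linarith))
  rw [pin_psh_of_ge hd h]
  exact mul_nonneg (sub_nonneg.2 h) (by linarith [hβ.2])

theorem pin_psh_pst (hd : 0 < d) (hβ : β ∈ Icc 0 d) (x : ℝ) : pin_psh d (pin_pst d x β) β = x := by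
  rcases le_total x (1 - 2 * d) with h | h
  · rw [pin_pst_of_le h, pin_psh_of_le h]
  · have := pin_psh_of_ge (β := β) hd (h.trans (pin_le_pst hd hβ x))
    rw [pin_pst_of_ge hd hβ h] at this
    linarith [mul_right_cancel₀ (show 2 * d ≠ 0 by linarith) this]

theorem pin_pst_psh (hd : 0 < d) (hβ : β ∈ Icc 0 d) (x : ℝ) : pin_pst d (pin_psh d x β) β = x := by
  rcases le_total x (1 - 2 * d) with h | h
  · rw [pin_psh_of_le h, pin_pst_of_le h]
  · have := pin_pst_of_ge hd hβ (pin_le_psh hd hβ h)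
    rw [pin_psh_of_ge hd h] at this
    linarith [mul_right_cancel₀ (show 2 * d - β ≠ 0 by linarith [hβ.2]) this]

theorem pin_pst_le_iff (hd : 0 < d) (hβ : β ∈ Icc 0 d) {x : ℝ} : pin_pst d x β ≤ 1 ↔ β ≤ 1 - x := by
  rcases le_total x (1 - 2 * d) with h | h
  · rw [pin_pst_of_le h]; constructor <;> intro <;> linarith [hβ.2]
  · have := pin_pst_of_ge hd hβ h
    constructor <;> intro <;> nlinarith [hβ.2]

theorem pin_nL_lt_nU (hd : 0 < d) (h1 : -c < y1) (h12 : y1 < y2) (h2 : y2 < c) (x0 x : ℝ) :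
    nL c x0 d y1 x < nU c x0 d y2 x := by
  have a1 : 0 ≤ (c + y1) * |x - x0| / d := by have : 0 < c + y1 := by linarith
                                              positivity
  have a2 : 0 ≤ (c - y2) * |x - x0| / d := by have : 0 < c - y2 := by linarith
                                              positivity
  exact (max_le h1.le (by linarith)).trans_lt (h12.trans_le (le_min h2.le (by linarith)))

theorem pin_pbe_le_iff (hd : 0 < d) (h1 : -c < y1) (h2 : y2 < c) {x y : ℝ} (hx : x ≤ 1)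
    (hy : |y| ≤ c) : pin_pbe c d y1 y2 y ≤ 1 - x ↔ y ∈ Icc (nL c 1 d y1 x) (nU c 1 d y2 x) := by
  rw [abs_le] at hy
  have a1 : 0 < c + y1 := by linarith
  have a2 : 0 < c - y2 := by linarith
  rw [pin_pbe, min_eq_right (max_le hd.le (max_le ((div_le_iff₀ a2).2 (by gcongr; exact hy.2))
    ((div_le_iff₀ a1).2 (by gcongr; linarith))))]
  simp only [nL, nU, mem_Icc, max_le_iff, le_min_iff, hy, sub_nonneg, hx, true_and, div_le_iff₀ a1,
    div_le_iff₀ a2, abs_sub_comm x 1, abs_of_nonneg (sub_nonneg.2 hx)]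
  rw [sub_le_comm, ← sub_le_iff_le_add', le_div_iff₀ hd, le_div_iff₀ hd, and_comm]
  constructor <;> rintro ⟨h, h'⟩ <;> constructor <;> linarith

theorem pin_om_mem (hz : 0 < z) (hz' : z ≤ 1) (hd : 0 < d) (h1 : z - 1 < y1) (h12 : y1 < y2)
    (h2 : y2 < 1 - z) (x0 : ℝ) {p : P} (hp : |p.2| ≤ 1) :
    om z x0 d y1 y2 p ∈ Icc (nL (1 - z / 2) x0 d y1 p.1) (nU (1 - z / 2) x0 d y2 p.1) := by
  refine af_mem (pin_nL_lt_nU hd (by linarith) h12 (by linarith) _ _).le (abs_le.1 ?_)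
  rw [abs_div, abs_of_pos (show 0 < 1 - z / 2 by linarith), div_le_one (by linarith)]
  exact pin_abs_xi_le hz.le hz' hp

theorem pin_abs_om_le (hz : 0 < z) (hz' : z ≤ 1) (hd : 0 < d) (h1 : z - 1 < y1) (h12 : y1 < y2)
    (h2 : y2 < 1 - z) (x0 : ℝ) {p : P} (hp : |p.2| ≤ 1) : |om z x0 d y1 y2 p| ≤ 1 - z / 2 :=
  abs_le.2 ⟨(le_max_left _ _).trans (pin_om_mem hz hz' hd h1 h12 h2 x0 hp).1,
    (pin_om_mem hz hz' hd h1 h12 h2 x0 hp).2.trans (min_le_left _ _)⟩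

theorem pin_om_far (hz : 0 < z) (hz' : z ≤ 1) (hd : 0 < d) (h1 : z - 1 < y1) (h2 : y2 < 1 - z)
    {x0 : ℝ} {p : P} (hp : d ≤ |p.1 - x0|) : om z x0 d y1 y2 p = xi z 0 p.2 := by
  have a0 : 1 ≤ |p.1 - x0| / d := (one_le_div hd).2 hp
  have a1 := div_mul_cancel₀ (xi z 0 p.2) (show 1 - z / 2 ≠ 0 by linarith)
  rw [om, nL, nU, max_eq_left, min_eq_left, af]
  · linarith
  · rw [mul_div_assoc]; nlinarith
  · rw [mul_div_assoc]; nlinarith

theorem pin_ll_abs {f : P → ℝ} (hf : LocallyLipschitz f) : LocallyLipschitz fun p => |f p| :=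
  lipschitzWith_one_norm.locallyLipschitz.comp hf

theorem pin_ll_div {f : P → ℝ} (hf : LocallyLipschitz f) (a : ℝ) :
    LocallyLipschitz fun p => f p / a := by
  simp only [div_eq_mul_inv]; exact locallyLipschitz_mul hf (.const _)

theorem pin_ll_cl {f : P → ℝ} (hf : LocallyLipschitz f) (a b : ℝ) :
    LocallyLipschitz fun p => cl a b (f p) := (hf.const_min b).const_max a

theorem pin_ll_xi {f : P → ℝ} (hf : LocallyLipschitz f) : LocallyLipschitz fun p => xi z 0 (f p) :=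
  (pin_ll_cl hf _ _).add (locallyLipschitz_mul (.const _) (hf.sub (pin_ll_cl hf _ _)))

theorem pin_ll_pxi {f : P → ℝ} (hf : LocallyLipschitz f) : LocallyLipschitz fun p => pin_pxi z (f p) :=
  (locallyLipschitz_mul (.const _) hf).sub (pin_ll_cl hf _ _)

theorem pin_ll_pbe {f : P → ℝ} (hf : LocallyLipschitz f) :
    LocallyLipschitz fun p => pin_pbe c d y1 y2 (f p) :=
  (((pin_ll_div (locallyLipschitz_mul (.const _) (hf.sub (.const _))) _).max
    (pin_ll_div (locallyLipschitz_mul (.const _) ((LocallyLipschitz.const _).sub hf))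
      _)).const_max 0).const_min d

theorem pin_ll_nL {f : P → ℝ} (hf : LocallyLipschitz f) (x0 : ℝ) :
    LocallyLipschitz fun p => nL c x0 d y1 (f p) :=
  ((LocallyLipschitz.const _).sub (pin_ll_div (locallyLipschitz_mul (.const _)
    (pin_ll_abs (hf.sub (.const _)))) _)).const_max _

theorem pin_ll_nU {f : P → ℝ} (hf : LocallyLipschitz f) (x0 : ℝ) :
    LocallyLipschitz fun p => nU c x0 d y2 (f p) :=
  ((LocallyLipschitz.const _).add (pin_ll_div (locallyLipschitz_mul (.const _)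
    (pin_ll_abs (hf.sub (.const _)))) _)).const_min _

theorem pinch_left {K : P → P} {z d y1 y2 : ℝ} (hz : 0 < z) (hz' : z ≤ 1 / 2) (hd : 0 < d)
    (hd' : d ≤ 1 / 2) (hv : ∀ p ∈ sq, K p = K (p.1, cl (z - 1) (1 - z) p.2))
    (hh : ∀ p ∈ sq, 1 - 2 * d ≤ p.1 → K p = K (1, p.2))
    (h1 : z - 1 < y1) (h12 : y1 < y2) (h2 : y2 < 1 - z) :
    ∃ χ, Eqv (fun p => K (p.1, om z 1 d y1 y2 p)) K χ ∧ (∀ t ∈ Icc (3 : ℝ) 4, χ t = t) ∧
      χ 1 = 1 + (y1 + 1) / 2 ∧ χ 2 = 1 + (y2 + 1) / 2 := by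
  have z1 : z ≤ 1 := by linarith
  have c0 : 0 < 1 - z / 2 := by linarith
  have c1 : -(1 - z / 2) < y1 := by linarith
  have c2 : y2 < 1 - z / 2 := by linarith
  have lt := pin_nL_lt_nU hd c1 h12 c2 1
  have hβ := pin_pbe_mem (c := 1 - z / 2) (y1 := y1) (y2 := y2) hd
  have l1 : LocallyLipschitz fun p : P => p.1 := LipschitzWith.prod_fst.locallyLipschitz
  have l2 : LocallyLipschitz fun p : P => p.2 := LipschitzWith.prod_snd.locallyLipschitz
  let h : P → P := fun p =>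
    (pin_pst d p.1 (pin_pbe (1 - z / 2) d y1 y2 (om z 1 d y1 y2 p)), pin_pxi z (om z 1 d y1 y2 p))
  let X : P → ℝ := fun p => pin_psh d p.1 (pin_pbe (1 - z / 2) d y1 y2 (xi z 0 p.2))
  let g : P → P := fun p => (X p, pin_pxi z ((1 - z / 2) *
    ia (nL (1 - z / 2) 1 d y1 (X p)) (nU (1 - z / 2) 1 d y2 (X p)) (xi z 0 p.2)))
  have l3 : LocallyLipschitz (om z 1 d y1 y2) := (pin_ll_nL l1 1).add (locallyLipschitz_mul
    (pin_ll_div ((pin_ll_div (pin_ll_xi l2) _).add (.const _)) _)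
    ((pin_ll_nU l1 1).sub (pin_ll_nL l1 1)))
  have l4 := (l1.sub (.const (1 - 2 * d))).const_max 0
  have lh : LocallyLipschitz h := (l1.add (locallyLipschitz_div
    (locallyLipschitz_mul (pin_ll_pbe l3) l4) ((LocallyLipschitz.const _).sub (pin_ll_pbe l3))
    fun p => by linarith [(hβ (om z 1 d y1 y2 p)).2])).prodMk (pin_ll_pxi l3)
  have lX : LocallyLipschitz X :=
    l1.sub (pin_ll_div (locallyLipschitz_mul (pin_ll_pbe (pin_ll_xi l2)) l4) _)
  have lg : LocallyLipschitz g := lX.prodMk (pin_ll_pxi (locallyLipschitz_mul (.const _)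
    ((locallyLipschitz_div (locallyLipschitz_mul (.const _) ((pin_ll_xi l2).sub (pin_ll_nL lX 1)))
      ((pin_ll_nU lX 1).sub (pin_ll_nL lX 1)) fun p => (sub_pos.2 (lt _)).ne').sub (.const _))))
  have mh : MapsTo h sq sq := fun p hp => by
    have a1 := pin_abs_om_le hz z1 hd h1 h12 h2 1 hp.2
    have a2 := abs_le.1 hp.1
    exact ⟨abs_le.2 ⟨a2.1.trans (pin_le_pst hd (hβ _) _), (pin_pst_le_iff hd (hβ _)).2
      ((pin_pbe_le_iff hd c1 c2 a2.2 a1).2 (pin_om_mem hz z1 hd h1 h12 h2 1 hp.2))⟩, pin_abs_pxi_le hz.le z1 a1⟩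
  have gh : ∀ p, g (h p) = p := fun p => by
    simp only [g, X, h, pin_xi_pxi z1, pin_psh_pst hd (hβ _)]
    rw [om, ia_af (lt _), mul_div_cancel₀ _ c0.ne', pin_pxi_xi z1]
  have hg : ∀ p, h (g p) = p := fun p => by
    have : om z 1 d y1 y2 (g p) = xi z 0 p.2 := by
      simp only [om, g, pin_xi_pxi z1, mul_div_cancel_left₀ _ c0.ne', af_ia (lt _)]
    simp only [h, this, pin_pxi_xi z1]
    simp only [g, X, pin_pst_psh hd (hβ _)]
  have mg : MapsTo g sq sq := fun p hp => by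
    have b1 := pin_abs_xi_le hz.le z1 hp.2
    have b2 := abs_le.1 hp.1
    have b3 := (pin_pst_le_iff hd (hβ _)).1 ((pin_pst_psh hd (hβ (xi z 0 p.2)) p.1).trans_le b2.2)
    have b4 : X p ≤ 1 := by linarith [(hβ (xi z 0 p.2)).1]
    refine ⟨abs_le.2 ⟨?_, b4⟩, pin_abs_pxi_le hz.le z1 ?_⟩
    · rcases le_total p.1 (1 - 2 * d) with b5 | b5
      · simpa only [g, X, pin_psh_of_le b5] using b2.1
      · exact le_trans (by linarith) (pin_le_psh hd (hβ _) b5)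
    · rw [abs_mul, abs_of_pos c0]
      exact mul_le_of_le_one_right c0.le
        (abs_le.2 (ia_mem (lt _) ((pin_pbe_le_iff hd c1 c2 b4 b1).1 b3)))
  have hf : ∀ y ∈ Icc (-1 : ℝ) 1, h (-1, y) = (-1, y) := fun y hy => by
    simp only [h]
    rw [pin_pst_of_le (by linarith), pin_om_far hz z1 hd h1 h2 (by norm_num; linarith), pin_pxi_xi z1]
  obtain ⟨H, χ, a1, a2, a3, a4⟩ := pin_lift lh lg gh hg mh mg hf
  have key : ∀ y u, y ∈ Icc y1 y2 → om z 1 d y1 y2 (1, u) = y → h (1, u) = (1, y) := by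
    intro y u hy e
    have b1 : pin_pbe (1 - z / 2) d y1 y2 y = 0 := le_antisymm (by
      refine le_of_le_of_eq ((pin_pbe_le_iff hd c1 c2 le_rfl
        (abs_le.2 ⟨by linarith [hy.1], by linarith [hy.2]⟩)).2 ?_) (sub_self 1)
      simpa [nL, nU, hy.1, hy.2] using ⟨by linarith [hy.1], by linarith [hy.2]⟩) (hβ y).1
    simp only [h, e, b1, pin_pst, pin_pxi, cl]
    rw [min_eq_right (by linarith [hy.2]), max_eq_right (a := z - 1) (by linarith [hy.1])]
    ext <;> simp; ring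
  have e1 : xi z 0 1 = 1 - z / 2 := by
    rw [xi, cl, min_eq_left (by linarith), max_eq_right (by linarith)]; ring
  refine ⟨χ, ⟨h, g, H, fun p hp => ?_, a1, a2⟩, a3,
    a4 _ (by norm_num) _ ⟨by linarith, by linarith⟩ ?_,
    a4 _ (by norm_num) _ ⟨by linarith, by linarith⟩ ?_⟩
  · have b1 : |om z 1 d y1 y2 p| ≤ 1 := (pin_abs_om_le hz z1 hd h1 h12 h2 1 hp.2).trans (by linarith)
    have b2 : ((h p).1, om z 1 d y1 y2 p) ∈ sq := ⟨(mh hp).1, b1⟩
    rw [hv _ (mh hp), pin_cl_pxi z1, ← hv _ b2]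
    rcases le_total p.1 (1 - 2 * d) with b3 | b3
    · simp only [h, pin_pst_of_le b3]
    · exact (hh (p.1, om z 1 d y1 y2 p) ⟨hp.1, b1⟩ b3).trans
        (hh _ b2 (b3.trans (pin_le_pst hd (hβ _) _))).symm
  · rw [pin_Γ_right (by norm_num), pin_Γ_right ⟨by linarith, by linarith⟩,
      key y1 _ ⟨le_rfl, h12.le⟩ ?_]
    · congr 1; ring
    · rw [om, show (2 * 1 - 3 : ℝ) = -1 by norm_num, pin_xi_neg z1, e1, neg_div, div_self c0.ne']
      simp [af, nL]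
      linarith
  · rw [pin_Γ_right (by norm_num), pin_Γ_right ⟨by linarith, by linarith⟩,
      key y2 _ ⟨h12.le, le_rfl⟩ ?_]
    · congr 1; ring
    · rw [om, show (2 * 2 - 3 : ℝ) = 1 by norm_num, e1, div_self c0.ne']
      simp [af, nU, c2.le]

theorem pin_om_neg (hz : z ≤ 1) (x0 : ℝ) (p : P) :
    om z (-x0) d y1 y2 (-p.1, -p.2) = -om z x0 d (-y2) (-y1) p := by
  have e : |-p.1 - -x0| = |p.1 - x0| := by rw [← abs_neg]; congr 1; ring
  have e1 : nL (1 - z / 2) (-x0) d y1 (-p.1) = -nU (1 - z / 2) x0 d (-y1) p.1 := by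
    rw [nL, nU, e, ← max_neg_neg]; congr 1; ring
  have e2 : nU (1 - z / 2) (-x0) d y2 (-p.1) = -nL (1 - z / 2) x0 d (-y2) p.1 := by
    rw [nL, nU, e, ← min_neg_neg]; congr 1 <;> ring
  simp only [om, af, pin_xi_neg hz, e1, e2]
  ring

theorem pinch_right {K : P → P} {z d y1 y2 : ℝ} (hz : 0 < z) (hz' : z ≤ 1 / 2) (hd : 0 < d)
    (hd' : d ≤ 1 / 2) (hv : ∀ p ∈ sq, K p = K (p.1, cl (z - 1) (1 - z) p.2))
    (hh : ∀ p ∈ sq, p.1 ≤ 2 * d - 1 → K p = K (-1, p.2))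
    (h1 : z - 1 < y1) (h12 : y1 < y2) (h2 : y2 < 1 - z) :
    ∃ χ, Eqv (fun p => K (p.1, om z (-1) d y1 y2 p)) K χ ∧ (∀ t ∈ Icc (1 : ℝ) 2, χ t = t) ∧
      χ 3 = 3 + (1 - y2) / 2 ∧ χ 4 = 3 + (1 - y1) / 2 := by
  have hs : ∀ p ∈ sq, ((-p.1, -p.2) : P) ∈ sq := fun p hp => J_mem_sq.2 (J_mem_sq.2 hp)
  obtain ⟨χ, a1, a2, a3, a4⟩ := pinch_left (K := (K ∘ J) ∘ J) (y1 := -y2) (y2 := -y1) hz hz' hd hd'
    (fun p hp => (hv _ (hs p hp)).trans (by
      simp only [Function.comp, J, cl, max_def, min_def]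
      congr 2; split_ifs <;> linarith))
    (fun p hp h => hh _ (hs p hp) (by show -p.1 ≤ _; linarith)) (by linarith) (by linarith) (by linarith)
  have b1 := (eqv_rot' fun p => K (p.1, om z (-1) d y1 y2 p)).trans (eqv_rot' _)
  have b2 := (b1.trans (a1.congr (fun p _ => by
    simp only [Function.comp, J, pin_om_neg (show z ≤ 1 by linarith)]) fun _ _ => rfl)).trans
    ((eqv_rot _).trans (eqv_rot K))
  refine ⟨_, b2, fun t ht => ?_, ?_, ?_⟩
  · have := a1.isLift.2 (t - 1 - 1)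
    rw [a2 _ ⟨by linarith [ht.1], by linarith [ht.2]⟩] at this
    linarith
  · rw [show (3 - 1 - 1 : ℝ) = 1 by norm_num, a3]; ring
  · rw [show (4 - 1 - 1 : ℝ) = 2 by norm_num, a4]; ring

end Pool.Agent.Lib.MP_ecd4e3_gt
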