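import Pool.Agent.Lib.MP_ecd4e3_gt.XRayA

/-! A maximal inequality for averages along a random family of parallel digital lines. -/

namespace Pool.Agent.Lib.MP_ecd4e3_gt

open Finset

namespace XR

variable {E : Finset (ℤ × ℤ)} {B : ℕ}

lemma card_ball (S : Finset (ℤ × ℤ)) (b : ℤ × ℤ) {ρ : ℝ} (hρ : 0 ≤ ρ)
    (h : ∀ z ∈ S, z ∈ Metric.closedBall b ρ) : (S.card : ℝ) ≤ (2 * ρ + 1) ^ 2 := by
  have h1 : ((S.image Prod.fst).card : ℝ) ≤ 2 * ρ + 1 := card_near _ (x := b.1) hρ fun u hu => by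
    obtain ⟨z, hz, rfl⟩ := mem_image.1 hu
    rw [← Int.dist_eq]
    exact (le_max_left _ _).trans (h z hz)
  have h2 : ((S.image Prod.snd).card : ℝ) ≤ 2 * ρ + 1 := card_near _ (x := b.2) hρ fun u hu => by
    obtain ⟨z, hz, rfl⟩ := mem_image.1 hu
    rw [← Int.dist_eq]
    exact (le_max_right _ _).trans (h z hz)
  have h3 : (S.card : ℝ) ≤ (S.image Prod.fst).card * (S.image Prod.snd).card := by
    rw [← Nat.cast_mul, ← card_product]
    exact_mod_cast card_le_card fun z hz =>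
      mem_product.2 ⟨mem_image_of_mem _ hz, mem_image_of_mem _ hz⟩
  rw [pow_two]
  exact h3.trans (mul_le_mul h1 h2 (by positivity) (by positivity))

open Classical in
/-- Number of points of `E` in the square of size `8 * 2 ^ k` around `z`. -/
noncomputable def bl (E : Finset (ℤ × ℤ)) (z : ℤ × ℤ) (k : ℕ) : ℝ :=
  (E.filter fun w => w ∈ Metric.closedBall z (8 * 2 ^ k)).card

lemma weak (n : ℕ) (Z : Finset (ℤ × ℤ)) {μ : ℝ} (hμ : 0 ≤ μ)
    (h : ∀ z ∈ Z, ∃ k ≤ n, μ * 4 ^ k ≤ bl E z k) : μ * Z.card ≤ 4225 * E.card := by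
  classical
  choose! kk hk1 hk2 using h
  obtain ⟨u, hu, hd, hc⟩ := Vitali.exists_disjoint_subfamily_covering_enlargement_closedBall
    (Z : Set (ℤ × ℤ)) id (fun z => (8 * 2 ^ kk z : ℝ)) (8 * 2 ^ n)
    (fun z hz => by gcongr; exacts [one_le_two, hk1 z hz]) 4 (by norm_num)
  set U := Z.filter fun b => b ∈ u with hU
  have h1 : Z ⊆ U.biUnion fun b =>
      Z.filter fun z => z ∈ Metric.closedBall b (4 * (8 * 2 ^ kk b)) := fun z hz => by
    obtain ⟨b, hb, hs⟩ := hc z hz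
    exact mem_biUnion.2 ⟨b, mem_filter.2 ⟨hu hb, hb⟩,
      mem_filter.2 ⟨hz, hs (Metric.mem_closedBall_self (by positivity))⟩⟩
  have h2 : (Z.card : ℝ) ≤ ∑ b ∈ U, 4225 * 4 ^ kk b := by
    have h3 : (Z.card : ℝ) ≤ ∑ b ∈ U,
        ((Z.filter fun z => z ∈ Metric.closedBall b (4 * (8 * 2 ^ kk b))).card : ℝ) := by
      exact_mod_cast (card_le_card h1).trans card_biUnion_le
    refine h3.trans (sum_le_sum fun b _ => ?_)
    refine (card_ball _ b (by positivity) fun z hz => (mem_filter.1 hz).2).trans ?_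
    have h4 : (1 : ℝ) ≤ 2 ^ kk b := one_le_pow₀ one_le_two
    rw [show (4 : ℝ) ^ kk b = 2 ^ kk b * 2 ^ kk b by rw [← mul_pow]; norm_num]
    nlinarith
  have h5 : ∑ b ∈ U, bl E b (kk b) ≤ E.card := by
    unfold bl
    rw [← Nat.cast_sum, ← card_biUnion]
    · exact_mod_cast card_le_card (biUnion_subset.2 fun b _ => filter_subset _ _)
    · intro b hb b' hb' hne
      refine disjoint_filter.2 fun w _ hw hw' => ?_
      exact Set.disjoint_left.1 (hd (mem_filter.1 hb).2 (mem_filter.1 hb').2 hne) hw hw'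
  calc μ * Z.card ≤ μ * ∑ b ∈ U, 4225 * 4 ^ kk b := mul_le_mul_of_nonneg_left h2 hμ
    _ = 4225 * ∑ b ∈ U, μ * 4 ^ kk b := by
        rw [mul_sum, mul_sum]
        exact sum_congr rfl fun _ _ => by ring
    _ ≤ 4225 * ∑ b ∈ U, bl E b (kk b) := by
        gcongr with b hb
        exact hk2 b (mem_filter.1 hb).1
    _ ≤ _ := by linarith

lemma av_sum_le {a x : ℝ} (ha : |a| ≤ 1 / 4) {z : ℤ × ℤ} {k m : ℕ} (hm : m ≤ k)
    (hz : |(z.1 : ℝ) - (x - a * z.2)| ≤ 5 * 2 ^ k) :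
    ∑ y ∈ Wd k z.2, av E y m ⌊(x - a * y) / 2 ^ m⌋ ≤ bl E z k / 2 ^ m := by
  classical
  unfold av bl
  rw [← sum_div, sum_comm, card_filter]
  push_cast
  gcongr with w _
  split_ifs with hw
  · calc _ ≤ ∑ y ∈ Wd k z.2, if w.2 = y then (1 : ℝ) else 0 := by
          refine sum_le_sum fun y _ => ?_
          by_cases h : w.2 = y
          · simp only [h, true_and, if_true]
            split_ifs <;> norm_num
          · simp [h]
      _ ≤ 1 := by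
          rw [sum_ite_eq]
          split_ifs <;> norm_num
  · refine le_of_eq (sum_eq_zero fun y hy => if_neg ?_)
    rintro ⟨rfl, h⟩
    refine hw ?_
    have h0 : (0 : ℝ) < 2 ^ m := by positivity
    have h1 : ⌊(w.1 : ℝ) / 2 ^ m⌋ = w.1 / 2 ^ m := by
      have := Int.floor_div_natCast (w.1 : ℝ) (2 ^ m)
      rw [Int.floor_intCast] at this
      exact_mod_cast this
    have h2 := (floor_eq_iff' h0 _).1 h1
    have h3 := (floor_eq_iff' h0 _).1 h.symm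
    have h4 := mem_Wd hy
    have h5 : (2 : ℝ) ^ m ≤ 2 ^ k := pow_le_pow_right₀ one_le_two hm
    have h6 : |a * ((w.2 : ℝ) - z.2)| ≤ 1 / 4 * (5 * 2 ^ k) := by
      rw [abs_mul]
      exact mul_le_mul ha h4 (abs_nonneg _) (by norm_num)
    rw [Metric.mem_closedBall, Prod.dist_eq, Int.dist_eq, Int.dist_eq, max_le_iff]
    refine ⟨?_, by linarith⟩
    rw [abs_le] at hz h6 ⊢
    constructor <;> linarith [h2.1, h2.2, h3.1, h3.2, hz.1, hz.2, h6.1, h6.2]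

lemma TT_sum_sq (a : ℝ) (k L : ℕ) (v : ℤ) (x : ℝ) :
    (∑ l ∈ range (k - L), TT E a k l v x) ^ 2 ≤ 5 * (4 / 5) ^ L * YY E a k v x := by
  have h := sum_sq_le_sum_mul_sum_of_sq_le_mul (range (k - L)) (r := fun l => TT E a k l v x)
    (f := fun l => (4 / 5 : ℝ) ^ (k - l)) (g := fun l => (5 / 4) ^ (k - l) * TT E a k l v x ^ 2)
    (fun _ _ => by positivity) (fun _ _ => by positivity) fun l _ => by
      rw [← mul_assoc, ← mul_pow]
      norm_num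
  refine h.trans (mul_le_mul ?_ ?_ (sum_nonneg fun _ _ => by positivity) (by positivity))
  · have h1 := geo (range (k - L)) (fun l => k - L - l) (fun a ha b hb hab => by
      have h1 := mem_range.1 ha
      have h2 := mem_range.1 hb
      simp only at hab
      omega) (q := 4 / 5) (by norm_num) (by norm_num)
    have h2 : ∑ l ∈ range (k - L), (4 / 5 : ℝ) ^ (k - l) =
        (∑ l ∈ range (k - L), (4 / 5 : ℝ) ^ (k - L - l)) * (4 / 5) ^ L := by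
      rw [sum_mul]
      refine sum_congr rfl fun l hl => ?_
      rw [← pow_add, show k - L - l + L = k - l by have := mem_range.1 hl; omega]
    rw [h2]
    refine mul_le_mul_of_nonneg_right (h1.trans ?_) (by positivity)
    norm_num
  · exact sum_le_sum_of_subset_of_nonneg (range_subset_range.2 (Nat.sub_le _ _))
      fun _ _ _ => by positivity

lemma cover {α ι : Type*} (Z : Finset α) (S : Finset ι) (P : ι → α → Prop)
    [∀ t z, Decidable (P t z)] (wt M : ι → ℝ) (h0 : ∀ t ∈ S, 0 ≤ wt t)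
    (h1 : ∀ z ∈ Z, ∃ t ∈ S, P t z ∧ 1 ≤ wt t) (h2 : ∀ t ∈ S, ((Z.filter (P t)).card : ℝ) ≤ M t) :
    (Z.card : ℝ) ≤ ∑ t ∈ S, M t * wt t := by
  calc (Z.card : ℝ) = ∑ _z ∈ Z, 1 := by simp
    _ ≤ ∑ z ∈ Z, ∑ t ∈ S, if P t z then wt t else 0 := by
        refine sum_le_sum fun z hz => ?_
        obtain ⟨t, ht, hp, hw⟩ := h1 z hz
        refine le_trans ?_ (single_le_sum (f := fun t => if P t z then wt t else 0)
          (fun t ht => ?_) ht)
        · rw [if_pos hp]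
          exact hw
        · split_ifs
          exacts [h0 t ht, le_rfl]
    _ ≤ _ := by
        rw [sum_comm]
        refine sum_le_sum fun t ht => ?_
        rw [← sum_filter, sum_const, nsmul_eq_mul]
        exact mul_le_mul_of_nonneg_right (h2 t ht) (h0 t ht)

end XR

/-- Number of points of `E` on the digital line through `(x, 0)` with direction `(-a, 1)` in the
rows at distance at most `r` from row `v`. -/
noncomputable def cnt (E : Finset (ℤ × ℤ)) (a x : ℝ) (v r : ℤ) : ℕ :=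
  ((Finset.Icc (v - r) (v + r)).filter fun y : ℤ => (⌊x - a * (y : ℝ)⌋, y) ∈ E).card

namespace XR

variable {E : Finset (ℤ × ℤ)} {B : ℕ}

lemma cnt_le (a x : ℝ) (v : ℤ) (k : ℕ) : (cnt E a x v (5 * 2 ^ k) : ℝ) ≤ 11 * 2 ^ k :=
  card_le_of_near _ (x := v) k fun _ hu => mem_Wd (mem_filter.1 hu).1

lemma cnt_eq (a x : ℝ) (v : ℤ) (k m : ℕ) : (cnt E a x v (5 * 2 ^ k) : ℝ) =
    ∑ y ∈ Wd k v, av E y m ⌊(x - a * y) / 2 ^ m⌋ + ∑ l ∈ range m, TT E a k l v x := by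
  unfold cnt TT
  rw [card_filter, sum_comm, ← sum_add_distrib]
  push_cast
  exact sum_congr rfl fun y _ => D_tele y _ m

lemma mem_box (hB : ∀ w ∈ E, |w.1| < B ∧ |w.2| < B) {n k : ℕ} (hk : k ≤ n) {a c : ℝ}
    (ha : |a| ≤ 1 / 4) (hc : |c| ≤ 2 ^ n) {i v : ℤ}
    (h : 0 < cnt E a (c + 2 ^ k * i) v (5 * 2 ^ k)) :
    v ∈ Icc (-(2 * B + 1 + 5 * 2 ^ n : ℤ)) (2 * B + 1 + 5 * 2 ^ n) ∧
      i ∈ Icc (-(2 * B + 1 + 5 * 2 ^ n : ℤ)) (2 * B + 1 + 5 * 2 ^ n) := by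
  obtain ⟨y, hy⟩ := card_pos.1 h
  obtain ⟨h1, h2⟩ := mem_filter.1 hy
  have h3 := abs_le.1 (mem_Wd h1)
  have h4 : |((⌊c + 2 ^ k * i - a * y⌋ : ℤ) : ℝ)| < B := by exact_mod_cast (hB _ h2).1
  have h5 : |(y : ℝ)| < B := by exact_mod_cast (hB _ h2).2
  have h6 : (2 : ℝ) ^ k ≤ 2 ^ n := pow_le_pow_right₀ one_le_two hk
  have h7 : |a * y| ≤ 1 / 4 * B := by
    rw [abs_mul]
    exact mul_le_mul ha h5.le (abs_nonneg _) (by norm_num)
  have h8 : |(i : ℝ)| ≤ |2 ^ k * (i : ℝ)| := by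
    rw [abs_mul, abs_of_pos (a := (2 : ℝ) ^ k) (by positivity)]
    exact le_mul_of_one_le_left (abs_nonneg _) (one_le_pow₀ one_le_two)
  have h9 : (0 : ℝ) < 2 ^ n := by positivity
  have hB0 : (0 : ℝ) ≤ B := by positivity
  have f1 := Int.floor_le (c + 2 ^ k * i - a * y)
  have f2 := Int.lt_floor_add_one (c + 2 ^ k * i - a * y)
  rw [abs_lt] at h4 h5
  rw [abs_le] at h7 hc
  have g1 : |(v : ℝ)| ≤ 2 * B + 1 + 5 * 2 ^ n :=
    abs_le.2 ⟨by linarith [h3.2, h5.1], by linarith [h3.1, h5.2]⟩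
  have g2 : |(i : ℝ)| ≤ 2 * B + 1 + 5 * 2 ^ n := h8.trans
    (abs_le.2 ⟨by linarith [h4.1, h7.1, hc.2], by linarith [h4.2, h7.2, hc.1]⟩)
  rw [mem_Icc, mem_Icc, ← abs_le, ← abs_le]
  exact ⟨by exact_mod_cast g1, by exact_mod_cast g2⟩

lemma level (hB : ∀ w ∈ E, |w.1| < B ∧ |w.2| < B) {n : ℕ} {a c : ℝ}
    (ha : |a| ≤ 1 / 4) (hc : |c| ≤ 2 ^ n) {lam : ℝ} (hl : 0 < lam) (L : ℕ) (Z : Finset (ℤ × ℤ))
    (h : ∀ z ∈ Z, ∃ k ≤ n, ∃ i : ℤ, |(z.1 : ℝ) - (c + 2 ^ k * i - a * z.2)| ≤ 5 * 2 ^ k ∧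
      lam * 2 ^ k < cnt E a (c + 2 ^ k * i) z.2 (5 * 2 ^ k)) :
    (Z.card : ℝ) ≤ 8450 * 2 ^ L / lam * E.card + 220 * (4 / 5) ^ L / lam ^ 2 *
      XX E n (Icc (-(2 * B + 1 + 5 * 2 ^ n : ℤ)) (2 * B + 1 + 5 * 2 ^ n)) a c := by
  classical
  set I := Icc (-(2 * B + 1 + 5 * 2 ^ n : ℤ)) (2 * B + 1 + 5 * 2 ^ n) with hI
  rw [← card_filter_add_card_filter_not (s := Z)
    fun z => ∃ k ≤ n, lam / (2 * 2 ^ L) * 4 ^ k ≤ bl E z k, Nat.cast_add]
  refine add_le_add ?_ ?_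
  · have := weak (E := E) n _ (μ := lam / (2 * 2 ^ L)) (by positivity)
      fun z hz => (mem_filter.1 (show z ∈ Z.filter
        fun z => ∃ k ≤ n, lam / (2 * 2 ^ L) * 4 ^ k ≤ bl E z k from hz)).2
    rw [div_mul_eq_mul_div, div_le_iff₀ (by positivity)] at this
    rw [div_mul_eq_mul_div, le_div_iff₀ hl]
    linarith
  · refine (cover _ (range (n + 1) ×ˢ I ×ˢ I)
      (fun t z => z.2 = t.2.1 ∧ |(z.1 : ℝ) - (c + 2 ^ t.1 * t.2.2 - a * t.2.1)| ≤ 5 * 2 ^ t.1)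
      (fun t => 20 * (4 / 5) ^ L / lam ^ 2 * ((4 : ℝ) ^ t.1)⁻¹ *
        YY E a t.1 t.2.1 (c + 2 ^ t.1 * t.2.2)) (fun t => 11 * 2 ^ t.1)
      (fun t _ => mul_nonneg (by positivity) (YY_nonneg _ _ _ _)) (fun z hz => ?_)
      fun t _ => ?_).trans (le_of_eq ?_)
    · obtain ⟨hz1, hz2⟩ := mem_filter.1 hz
      obtain ⟨k, hk, i, hi, hcnt⟩ := h z hz1
      have hpos : 0 < cnt E a (c + 2 ^ k * i) z.2 (5 * 2 ^ k) := by
        have : (0 : ℝ) < cnt E a (c + 2 ^ k * i) z.2 (5 * 2 ^ k) := lt_trans (by positivity) hcnt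
        exact_mod_cast this
      obtain ⟨m1, m2⟩ := mem_box hB hk ha hc hpos
      refine ⟨(k, z.2, i), mem_product.2 ⟨mem_range.2 (Nat.lt_succ_of_le hk),
        mem_product.2 ⟨m1, m2⟩⟩, ⟨rfl, hi⟩, ?_⟩
      push Not at hz2
      have h1 := hz2 k hk
      have h2 := av_sum_le (E := E) ha (Nat.sub_le k L) hi
      have h3 := TT_sum_sq (E := E) a k L z.2 (c + 2 ^ k * i)
      rw [cnt_eq _ _ _ _ (k - L)] at hcnt
      have h4 : (2 : ℝ) ^ k ≤ 2 ^ (k - L) * 2 ^ L := by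
        rw [← pow_add]
        exact pow_le_pow_right₀ one_le_two (by omega)
      have e4 : (4 : ℝ) ^ k = 2 ^ k * 2 ^ k := by rw [← mul_pow]; norm_num
      have h5 : bl E z k / 2 ^ (k - L) ≤ lam * 2 ^ k / 2 := by
        rw [div_le_iff₀ (by positivity)]
        refine h1.le.trans ?_
        rw [e4, div_mul_eq_mul_div, div_le_iff₀ (by positivity)]
        have : 0 ≤ lam * 2 ^ k := by positivity
        nlinarith [mul_le_mul_of_nonneg_left h4 this]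
      have h6 : (lam * 2 ^ k / 2) ^ 2 ≤ (∑ l ∈ range (k - L), TT E a k l z.2 (c + 2 ^ k * i)) ^ 2 :=
        pow_le_pow_left₀ (by positivity) (by linarith) 2
      change 1 ≤ 20 * (4 / 5) ^ L / lam ^ 2 * ((4 : ℝ) ^ k)⁻¹ * YY E a k z.2 (c + 2 ^ k * i)
      rw [← div_eq_mul_inv, div_div, div_mul_eq_mul_div, le_div_iff₀ (by positivity), e4]
      nlinarith
    · rw [← card_image_of_injOn (f := Prod.fst)]
      · refine card_le_of_near _ (x := c + 2 ^ t.1 * t.2.2 - a * t.2.1) t.1 fun u hu => ?_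
        obtain ⟨z, hz, rfl⟩ := mem_image.1 hu
        exact (mem_filter.1 hz).2.2
      · intro z hz z' hz' e
        exact Prod.ext e ((mem_filter.1 hz).2.1.trans (mem_filter.1 hz').2.1.symm)
    · unfold XX
      rw [sum_product, mul_sum]
      refine sum_congr rfl fun k _ => ?_
      rw [sum_product, mul_sum]
      refine sum_congr rfl fun v _ => ?_
      rw [mul_sum, mul_sum]
      refine sum_congr rfl fun i _ => ?_
      rw [show (4 : ℝ) ^ k = 2 ^ k * 2 ^ k by rw [← mul_pow]; norm_num]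
      field_simp
      ring

lemma rho_lt : 5 * (2 / 5 : ℝ) ^ (16 / 9 : ℝ) < 1 := by
  refine lt_of_pow_lt_pow_left₀ 9 zero_le_one ?_
  rw [mul_pow, ← Real.rpow_natCast ((2 / 5 : ℝ) ^ (16 / 9 : ℝ)), ← Real.rpow_mul (by norm_num),
    show (16 / 9 : ℝ) * (9 : ℕ) = (16 : ℕ) by norm_num, Real.rpow_natCast]
  norm_num

lemma layer {N : ℤ × ℤ → ℝ} {K : ℝ} (hK : 0 ≤ K) (h0 : ∀ z, 0 ≤ N z) (h1 : ∀ z, N z ≤ 11)
    (h : ∀ (m : ℕ) (Z : Finset (ℤ × ℤ)), (∀ z ∈ Z, 11 * (2 / 5) ^ (m + 1) < N z) →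
      (Z.card : ℝ) ≤ K * 5 ^ m) (Z : Finset (ℤ × ℤ)) :
    ∑ z ∈ Z, N z ^ (16 / 9 : ℝ) ≤ 121 * (1 - 5 * (2 / 5 : ℝ) ^ (16 / 9 : ℝ))⁻¹ * K := by
  classical
  have hm : ∀ z, 0 < N z → ∃ m : ℕ, 11 * (2 / 5) ^ (m + 1) < N z ∧ N z ≤ 11 * (2 / 5) ^ m := by
    intro z hz
    obtain ⟨m, a, b⟩ := exists_nat_pow_near_of_lt_one (x := N z / 11) (y := 2 / 5) (by positivity)
      (by linarith [h1 z]) (by norm_num) (by norm_num)
    exact ⟨m, by linarith, by linarith⟩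
  choose! mm hm1 hm2 using hm
  set ρ := (2 / 5 : ℝ) ^ (16 / 9 : ℝ) with hρ
  have hρ0 : 0 ≤ ρ := by positivity
  set Z' := Z.filter fun z => 0 < N z with hZ'
  calc _ = ∑ z ∈ Z', N z ^ (16 / 9 : ℝ) := by
        refine (sum_filter_of_ne fun z _ hz => ?_).symm
        refine (h0 z).lt_of_ne fun e => hz ?_
        rw [← e, Real.zero_rpow (by norm_num)]
    _ ≤ ∑ z ∈ Z', 121 * ρ ^ mm z := by
        refine sum_le_sum fun z hz => ?_
        refine (Real.rpow_le_rpow (h0 z) (hm2 z (mem_filter.1 hz).2) (by norm_num)).trans ?_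
        rw [Real.mul_rpow (by norm_num) (by positivity), hρ, Real.rpow_pow_comm (by norm_num)]
        refine mul_le_mul_of_nonneg_right ?_ (by positivity)
        refine (Real.rpow_le_rpow_of_exponent_le (by norm_num) (y := 16 / 9) (z := 2)
          (by norm_num)).trans ?_
        norm_num
    _ ≤ ∑ m ∈ Z'.image mm, 121 * K * (5 * ρ) ^ m := by
        rw [sum_comp (fun m => 121 * ρ ^ m) mm]
        refine sum_le_sum fun m _ => ?_
        rw [nsmul_eq_mul]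
        refine (mul_le_mul_of_nonneg_right (h m _ fun z hz => ?_) (by positivity)).trans
          (le_of_eq ?_)
        · obtain ⟨hz1, rfl⟩ := mem_filter.1 hz
          exact hm1 z (mem_filter.1 hz1).2
        · rw [mul_pow]
          ring
    _ ≤ _ := by
        rw [← mul_sum, mul_right_comm 121 _⁻¹]
        exact mul_le_mul_of_nonneg_left (geo _ id (Set.injOn_id _) (by positivity) rho_lt)
          (by positivity)

end XR

theorem xray : ∃ C : ℝ, 0 ≤ C ∧ ∀ (E : Finset (ℤ × ℤ)) (n : ℕ), ∃ (a c : ℝ) (N : ℤ × ℤ → ℝ),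
    |a| ≤ 1 / 4 ∧ 3 / 8 * 2 ^ n ≤ c ∧ c ≤ 5 / 8 * 2 ^ n ∧ (∀ z, 0 ≤ N z) ∧
    (∀ k ≤ n, ∀ (i : ℤ) (z : ℤ × ℤ), |(z.1 : ℝ) - (c + 2 ^ k * i - a * z.2)| ≤ 5 * 2 ^ k →
      (cnt E a (c + 2 ^ k * i) z.2 (5 * 2 ^ k) : ℝ) ≤ 2 ^ k * N z) ∧
    ∀ Z : Finset (ℤ × ℤ), ∑ z ∈ Z, N z ^ (16 / 9 : ℝ) ≤ C * E.card := by
  refine ⟨121 * (1 - 5 * (2 / 5 : ℝ) ^ (16 / 9 : ℝ))⁻¹ * 1500000,
    by have := sub_pos.2 XR.rho_lt; positivity, fun E n => ?_⟩
  obtain ⟨B, hB⟩ : ∃ B : ℕ, ∀ w ∈ E, |w.1| < B ∧ |w.2| < B := by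
    refine ⟨(E.sup fun w => w.1.natAbs + w.2.natAbs) + 1, fun w hw => ?_⟩
    have := le_sup (f := fun w : ℤ × ℤ => w.1.natAbs + w.2.natAbs) hw
    simp only [Int.abs_eq_natAbs]
    constructor <;> omega
  obtain ⟨a, c, ha, hc1, hc2, hX⟩ := XR.choose_ac hB n
    (Icc (-(2 * B + 1 + 5 * 2 ^ n : ℤ)) (2 * B + 1 + 5 * 2 ^ n))
  have hn : (0 : ℝ) < 2 ^ n := by positivity
  have hc : |c| ≤ 2 ^ n := abs_le.2 ⟨by linarith, by linarith⟩
  set S : ℤ × ℤ → Set ℝ := fun z => {t | t = 0 ∨ ∃ k ≤ n, ∃ i : ℤ,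
    |(z.1 : ℝ) - (c + 2 ^ k * i - a * z.2)| ≤ 5 * 2 ^ k ∧
      t = cnt E a (c + 2 ^ k * i) z.2 (5 * 2 ^ k) / 2 ^ k} with hS
  have hub : ∀ z, ∀ t ∈ S z, t ≤ 11 := by
    rintro z t (rfl | ⟨k, -, i, -, rfl⟩)
    · norm_num
    · rw [div_le_iff₀ (by positivity)]
      exact XR.cnt_le _ _ _ _
  have hne : ∀ z, (0 : ℝ) ∈ S z := fun z => Or.inl rfl
  have h0 : ∀ z, 0 ≤ sSup (S z) := fun z => le_csSup ⟨11, hub z⟩ (hne z)
  refine ⟨a, c, fun z => sSup (S z), ha, hc1, hc2, h0, fun k hk i z hz => ?_, fun Z => ?_⟩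
  · rw [← div_le_iff₀' (by positivity)]
    exact le_csSup ⟨11, hub z⟩ (Or.inr ⟨k, hk, i, hz, rfl⟩)
  · rw [mul_assoc]
    refine XR.layer (by positivity) h0 (fun z => csSup_le ⟨0, hne z⟩ (hub z)) (fun m Z hZ => ?_) Z
    have hl : (0 : ℝ) < 11 * (2 / 5) ^ (m + 1) := by positivity
    refine (XR.level hB ha hc hl m Z fun z hz => ?_).trans ?_
    · obtain ⟨t, rfl | ⟨k, hk, i, hi, rfl⟩, ht⟩ := exists_lt_of_lt_csSup ⟨0, hne z⟩ (hZ z hz)
      · exact absurd ht hl.not_gt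
      · exact ⟨k, hk, i, hi, (lt_div_iff₀ (by positivity)).1 ht⟩
    · have e1 : (8450 : ℝ) * 2 ^ m / (11 * (2 / 5) ^ (m + 1)) = 21125 / 11 * 5 ^ m := by
        rw [pow_succ, div_pow]
        field_simp
        norm_num
      have e2 : (220 : ℝ) * (4 / 5) ^ m / (11 * (2 / 5) ^ (m + 1)) ^ 2 = 125 / 11 * 5 ^ m := by
        rw [pow_succ (2 / 5 : ℝ), div_pow, div_pow,
          show (4 : ℝ) ^ m = 2 ^ m * 2 ^ m by rw [← mul_pow]; norm_num]
        field_simp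
        norm_num
      rw [e1, e2]
      have h5 : (0 : ℝ) < 5 ^ m := by positivity
      have hE : (0 : ℝ) ≤ E.card := by positivity
      nlinarith [mul_le_mul_of_nonneg_left hX h5.le, mul_nonneg h5.le hE]

end Pool.Agent.Lib.MP_ecd4e3_gt
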