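import Pool.Agent.Lib.MP_ecd4e3_gt.GDefs
import Pool.Agent.Lib.MP_ecd4e3_gt.XRay

/-! Choice of a sheared grid with small total weight. -/

namespace Pool.Agent.Lib.MP_ecd4e3_gt

open Set MeasureTheory

namespace ShearAux

/-- first coordinate of the inverse shear -/
noncomputable def px (a b : ℝ) (v : P) (z : ℤ × ℤ) : ℝ :=
  (((z.1 : ℝ) - v.1) - a * ((z.2 : ℝ) - v.2)) / (1 - a * b)

/-- lattice point below the inverse shear of `z` -/
noncomputable def zt (a b : ℝ) (v : P) (z : ℤ × ℤ) : ℤ × ℤ :=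
  (⌊px a b v z⌋, ⌊px b a v.swap z.swap⌋)

lemma zt_swap (a b : ℝ) (v : P) (z : ℤ × ℤ) : zt b a v.swap z.swap = (zt a b v z).swap := by
  simp [zt]

lemma det_bd {a b : ℝ} (ha : |a| ≤ 1 / 4) (hb : |b| ≤ 1 / 4) :
    15 / 16 ≤ 1 - a * b ∧ 1 - a * b ≤ 17 / 16 := by
  have : |a * b| ≤ 1 / 4 * (1 / 4) := by rw [abs_mul]; gcongr
  rw [abs_le] at this
  constructor <;> linarith [this.1, this.2]

lemma px_eq {a b : ℝ} (ha : |a| ≤ 1 / 4) (hb : |b| ≤ 1 / 4) (v : P) (z : ℤ × ℤ) :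
    px a b v z + a * px b a v.swap z.swap = z.1 - v.1 := by
  have h := (det_bd ha hb).1
  have h1 : 1 - a * b ≠ 0 := by linarith
  have h2 : 1 - b * a ≠ 0 := by rw [mul_comm]; exact h1
  simp only [px, Prod.fst_swap, Prod.snd_swap]
  rw [mul_comm b a]
  field_simp
  ring

lemma solve {a b x y r : ℝ} (ha : |a| ≤ 1 / 4) (hb : |b| ≤ 1 / 4) (h1 : |x + a * y| ≤ r)
    (h2 : |y + b * x| ≤ r) : |x| ≤ 4 / 3 * r ∧ |y| ≤ 4 / 3 * r := by
  have e1 : |x| ≤ r + 1 / 4 * |y| := by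
    have : |a * y| ≤ 1 / 4 * |y| := by rw [abs_mul]; gcongr
    have h3 := abs_sub (x + a * y) (a * y)
    rw [add_sub_cancel_right] at h3
    linarith
  have e2 : |y| ≤ r + 1 / 4 * |x| := by
    have : |b * x| ≤ 1 / 4 * |x| := by rw [abs_mul]; gcongr
    have h3 := abs_sub (y + b * x) (b * x)
    rw [add_sub_cancel_right] at h3
    linarith
  constructor <;> linarith

lemma px_near {a b : ℝ} (ha : |a| ≤ 1 / 4) (hb : |b| ≤ 1 / 4) {v p : P} {z : ℤ × ℤ}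
    (h : shear a b v p ∈ uc z) :
    |px a b v z - p.1| ≤ 4 / 3 ∧ |px b a v.swap z.swap - p.2| ≤ 4 / 3 := by
  have e1 := px_eq ha hb v z
  have e2 := px_eq hb ha v.swap z.swap
  simp only [Prod.swap_swap, Prod.fst_swap] at e2
  obtain ⟨⟨h1, h2⟩, h3, h4⟩ := h
  simp only [shear] at h1 h2 h3 h4
  have := solve (x := px a b v z - p.1) (y := px b a v.swap z.swap - p.2) (r := 1) ha hb
    (by rw [abs_le]; constructor <;> linarith) (by rw [abs_le]; constructor <;> linarith)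
  simpa using this

lemma floor_near {x y r : ℝ} (h : |x - y| ≤ r) : |(⌊x⌋ : ℝ) - y| ≤ r + 1 := by
  have h1 := Int.floor_le x
  have h2 := Int.lt_floor_add_one x
  rw [abs_le] at h ⊢
  constructor <;> linarith [h.1, h.2]

lemma zt_fiber {a b : ℝ} (ha : |a| ≤ 1 / 4) (hb : |b| ≤ 1 / 4) (v : P) {z z' : ℤ × ℤ}
    (h : zt a b v z = zt a b v z') : |z.1 - z'.1| ≤ 1 := by
  have e1 := px_eq ha hb v z
  have e2 := px_eq ha hb v z'
  simp only [zt, Prod.mk.injEq] at h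
  have h1 := Int.abs_sub_lt_one_of_floor_eq_floor h.1
  have h2 := Int.abs_sub_lt_one_of_floor_eq_floor h.2
  have h3 : |a * (px b a v.swap z.swap - px b a v.swap z'.swap)| ≤ 1 / 4 * 1 := by
    rw [abs_mul]; gcongr
  have h4 : |((z.1 - z'.1 : ℤ) : ℝ)| < 2 := by
    rw [abs_lt] at h1 ⊢
    rw [abs_le] at h3
    push_cast
    constructor <;> linarith [h1.1, h1.2, h3.1, h3.2]
  have : |z.1 - z'.1| < 2 := by exact_mod_cast h4
  omega

lemma sum_zt {a b : ℝ} (ha : |a| ≤ 1 / 4) (hb : |b| ≤ 1 / 4) (v : P) (s : Finset (ℤ × ℤ))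
    (f : ℤ × ℤ → ℝ) (hf : ∀ u, 0 ≤ f u) :
    ∑ z ∈ s, f (zt a b v z) ≤ 9 * ∑ u ∈ s.image (zt a b v), f u := by
  rw [Finset.sum_comp, Finset.mul_sum]
  refine Finset.sum_le_sum fun u hu => ?_
  obtain ⟨z0, -, rfl⟩ := Finset.mem_image.1 hu
  rw [nsmul_eq_mul]
  have : (s.filter fun z => zt a b v z = zt a b v z0).card ≤ 9 := by
    refine (Finset.card_le_card (t := Finset.Icc (z0.1 - 1) (z0.1 + 1) ×ˢ
      Finset.Icc (z0.2 - 1) (z0.2 + 1)) fun z hz => ?_).trans ?_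
    · have h := (Finset.mem_filter.1 hz).2
      have h1 := abs_le.1 (zt_fiber ha hb v h)
      have h2 := abs_le.1 (zt_fiber hb ha v.swap (z := z.swap) (z' := z0.swap)
        (by rw [zt_swap, zt_swap, h]))
      simp only [Prod.fst_swap] at h2
      simp only [Finset.mem_product, Finset.mem_Icc]
      omega
    · rw [Finset.card_product, Int.card_Icc, Int.card_Icc]
      rw [show z0.1 + 1 + 1 - (z0.1 - 1) = 3 by ring, show z0.2 + 1 + 1 - (z0.2 - 1) = 3 by ring]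
      rfl
  have h9 : ((s.filter fun z => zt a b v z = zt a b v z0).card : ℝ) ≤ 9 := by exact_mod_cast this
  exact mul_le_mul_of_nonneg_right h9 (hf _)

lemma mem_dq {k : ℕ} {i j : ℤ} {z : ℤ × ℤ} : z ∈ dq k i j ↔
    (2 ^ k * i ≤ z.1 ∧ z.1 < 2 ^ k * (i + 1)) ∧ 2 ^ k * j ≤ z.2 ∧ z.2 < 2 ^ k * (j + 1) := by
  simp [dq]

lemma card_dq (k : ℕ) (i j : ℤ) : ((dq k i j).card : ℝ) = 4 ^ k := by
  rw [dq, Finset.card_product, Int.card_Ico, Int.card_Ico,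
    show (2 : ℤ) ^ k * (i + 1) - 2 ^ k * i = ((2 ^ k : ℕ) : ℤ) by push_cast; ring,
    show (2 : ℤ) ^ k * (j + 1) - 2 ^ k * j = ((2 ^ k : ℕ) : ℤ) by push_cast; ring,
    Int.toNat_natCast]
  push_cast
  rw [← mul_pow]; norm_num

lemma col {a b c : ℝ} (ha : |a| ≤ 1 / 4) (hb : |b| ≤ 1 / 4) {v : P} {n : ℕ}
    (hv : v.1 = 2 ^ n - c) {K : Set P} {E : Finset (ℤ × ℤ)}
    (hE : ∀ u : ℤ × ℤ, ∀ p ∈ K, |(u.1 : ℝ) - p.1| ≤ 3 → |(u.2 : ℝ) - p.2| ≤ 3 → u ∈ E)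
    {N : ℤ × ℤ → ℝ}
    (hN : ∀ k ≤ n, ∀ (i : ℤ) (z : ℤ × ℤ), |(z.1 : ℝ) - (c + 2 ^ k * i - a * z.2)| ≤ 5 * 2 ^ k →
      (cnt E a (c + 2 ^ k * i) z.2 (5 * 2 ^ k) : ℝ) ≤ 2 ^ k * N z)
    {k : ℕ} (hk : k ≤ n) {i j x : ℤ} (hx : x = 2 ^ k * i ∨ x = 2 ^ k * (i + 1) - 1)
    (S : Finset (ℤ × ℤ)) (hS : ∀ z ∈ S, z ∈ dq k i j ∧ z.1 = x ∧ ∃ p ∈ K, shear a b v p ∈ uc z)
    {z : ℤ × ℤ} (hz : z ∈ dq k i j) : (S.card : ℝ) ≤ 2 ^ k * (3 * N (zt a b v z)) := by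
  obtain ⟨i', h1, h2⟩ : ∃ i' : ℤ, |(x : ℝ) + 1 / 2 - v.1 - (c + 2 ^ k * i')| ≤ 1 / 2 ∧
      |(z.1 : ℝ) - v.1 - (c + 2 ^ k * i')| ≤ 2 ^ k := by
    obtain ⟨d, rfl⟩ : ∃ d, n = k + d := ⟨n - k, by omega⟩
    have g1 : (2 : ℝ) ^ k * i ≤ z.1 := by exact_mod_cast (mem_dq.1 hz).1.1
    have g2 : (z.1 : ℝ) < 2 ^ k * (i + 1) := by exact_mod_cast (mem_dq.1 hz).1.2
    rw [hv, pow_add]
    rcases hx with rfl | rfl
    · refine ⟨i - 2 ^ d, ?_, ?_⟩ <;> rw [abs_le] <;> push_cast <;> constructor <;> linarith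
    · refine ⟨i + 1 - 2 ^ d, ?_, ?_⟩ <;> rw [abs_le] <;> push_cast <;> constructor <;> linarith
  have hk1 : (1 : ℝ) ≤ 2 ^ k := one_le_pow₀ (by norm_num)
  have e1 := px_eq ha hb v z
  have e2 := px_eq hb ha v.swap z.swap
  simp only [Prod.swap_swap, Prod.fst_swap] at e2
  have h3 := hN k hk i' (zt a b v z) (by
    have f1 := floor_near (x := px a b v z) (y := px a b v z) (r := 0) (by simp)
    have f2 := floor_near (x := px b a v.swap z.swap) (y := px b a v.swap z.swap) (r := 0)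
      (by simp)
    have f3 : |a * ((⌊px b a v.swap z.swap⌋ : ℝ) - px b a v.swap z.swap)| ≤ 1 / 4 * (0 + 1) := by
      rw [abs_mul]; gcongr
    simp only [zt]
    rw [abs_le] at f1 f3 h2 ⊢
    constructor <;> linarith [f1.1, f1.2, f3.1, f3.2, h2.1, h2.2])
  have h4 : S.card ≤ 3 * cnt E a (c + 2 ^ k * i') (zt a b v z).2 (5 * 2 ^ k) := by
    unfold cnt
    refine Finset.card_le_mul_card_image_of_maps_to (f := fun z' => (zt a b v z').2)
      (fun z' hz' => ?_) 3 fun y _ => ?_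
    · obtain ⟨g1, g2, p, hp, g3⟩ := hS z' hz'
      obtain ⟨g4, g5⟩ := px_near ha hb g3
      have g6 := floor_near g5
      rw [Finset.mem_filter, Finset.mem_Icc]
      refine ⟨?_, hE _ p hp ?_ (g6.trans (by norm_num))⟩
      · have e3 := px_eq ha hb v z'
        have e4 := px_eq hb ha v.swap z'.swap
        simp only [Prod.swap_swap, Prod.fst_swap] at e4
        have m1 := mem_dq.1 hz
        have m2 := mem_dq.1 g1
        have m3 : |((z'.1 - z.1 : ℤ) : ℝ)| ≤ ((2 ^ k : ℤ) : ℝ) := by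
          have : |z'.1 - z.1| ≤ 2 ^ k := by
            rw [abs_le]; constructor <;> linarith [m1.1.1, m1.1.2, m2.1.1, m2.1.2]
          exact_mod_cast this
        have m4 : |((z'.2 - z.2 : ℤ) : ℝ)| ≤ ((2 ^ k : ℤ) : ℝ) := by
          have : |z'.2 - z.2| ≤ 2 ^ k := by
            rw [abs_le]; constructor <;> linarith [m1.2.1, m1.2.2, m2.2.1, m2.2.2]
          exact_mod_cast this
        push_cast at m3 m4
        have m5 := (solve (x := px a b v z' - px a b v z)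
          (y := px b a v.swap z'.swap - px b a v.swap z.swap) (r := 2 ^ k) ha hb
          (by convert m3 using 2; linarith) (by convert m4 using 2; linarith)).2
        have m6 := floor_near m5
        have m7 := Int.floor_le (px b a v.swap z.swap)
        have m8 := Int.lt_floor_add_one (px b a v.swap z.swap)
        have m9 : |(((zt a b v z').2 - (zt a b v z).2 : ℤ) : ℝ)| ≤ ((5 * 2 ^ k : ℤ) : ℝ) := by
          simp only [zt]
          push_cast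
          rw [abs_le] at m6 ⊢
          constructor <;> linarith [m6.1, m6.2]
        have m10 : |(zt a b v z').2 - (zt a b v z).2| ≤ 5 * 2 ^ k := by exact_mod_cast m9
        rw [abs_le] at m10
        constructor <;> linarith [m10.1, m10.2]
      · have f3 : |a * ((⌊px b a v.swap z'.swap⌋ : ℝ) - p.2)| ≤ 1 / 4 * (4 / 3 + 1) := by
          rw [abs_mul]; gcongr
        obtain ⟨⟨k1, k2⟩, -⟩ := g3
        simp only [shear, g2] at k1 k2
        refine (floor_near (r := 2) ?_).trans (by norm_num)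
        simp only [zt]
        rw [abs_le] at f3 h1 ⊢
        constructor <;> linarith [f3.1, f3.2, h1.1, h1.2]
    · rcases (S.filter fun z' => (zt a b v z').2 = y).eq_empty_or_nonempty with h | ⟨z0, h0⟩
      · rw [h]; simp
      refine (Finset.card_le_card (t := {x} ×ˢ Finset.Icc (z0.2 - 1) (z0.2 + 1))
        fun z' hz' => ?_).trans ?_
      · obtain ⟨g1, g2⟩ := Finset.mem_filter.1 hz'
        obtain ⟨g3, g4⟩ := Finset.mem_filter.1 h0
        have g5 := (hS z' g1).2.1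
        have g6 := (hS z0 g3).2.1
        have g7 := Int.abs_sub_lt_one_of_floor_eq_floor (g2.trans g4.symm)
        have g8 : px b a v.swap z'.swap - px b a v.swap z0.swap
            = ((z'.2 - z0.2 : ℤ) : ℝ) / (1 - b * a) := by
          simp only [px, Prod.fst_swap, Prod.snd_swap, g5, g6]
          push_cast
          ring
        have g9 := det_bd hb ha
        rw [g8, abs_div, abs_of_pos (show 0 < 1 - b * a by linarith [g9.1]),
          div_lt_one (by linarith [g9.1])] at g7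
        have g10 : |((z'.2 - z0.2 : ℤ) : ℝ)| < 2 := by linarith [g9.2]
        have g11 : |z'.2 - z0.2| < 2 := by exact_mod_cast g10
        rw [abs_lt] at g11
        simp only [Finset.mem_product, Finset.mem_singleton, Finset.mem_Icc]
        omega
      · rw [Finset.card_product, Int.card_Icc, show z0.2 + 1 + 1 - (z0.2 - 1) = 3 by ring]
        rfl
  have h5 : (S.card : ℝ) ≤ 3 * cnt E a (c + 2 ^ k * i') (zt a b v z).2 (5 * 2 ^ k) := by
    exact_mod_cast h4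
  linarith

lemma col_card {k : ℕ} {i j x : ℤ} (S : Finset (ℤ × ℤ)) (hS : ∀ z ∈ S, z ∈ dq k i j ∧ z.1 = x) :
    (S.card : ℝ) ≤ 2 ^ k := by
  have : S.card ≤ 2 ^ k := by
    refine (Finset.card_le_card (t := {x} ×ˢ Finset.Ico (2 ^ k * j) (2 ^ k * (j + 1)))
      fun z hz => ?_).trans ?_
    · simp only [Finset.mem_product, Finset.mem_singleton, Finset.mem_Ico]
      exact ⟨(hS z hz).2, (mem_dq.1 (hS z hz).1).2⟩
    · rw [Finset.card_product, Int.card_Ico,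
        show (2 : ℤ) ^ k * (j + 1) - 2 ^ k * j = ((2 ^ k : ℕ) : ℤ) by push_cast; ring,
        Int.toNat_natCast]
      simp
  exact_mod_cast this

lemma trace {k : ℕ} {i j : ℤ} {m : ℝ} (hm : 0 ≤ m) (hm1 : m ≤ 2 ^ k) {w g : ℤ × ℤ → ℝ}
    (hg : ∀ z ∈ dq k i j, m ≤ 2 ^ k * g z)
    (hw : ∀ z, min 1 (g z ^ (16 / 9 : ℝ)) ≤ w z) :
    m ≤ 2 ^ k * ((∑ z ∈ dq k i j, w z) / 4 ^ k) ^ (9 / 16 : ℝ) := by
  have h2 : (0 : ℝ) < 2 ^ k := by positivity
  have h0 : 0 ≤ m / 2 ^ k := by positivity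
  have h1 : (m / 2 ^ k) ^ (16 / 9 : ℝ) ≤ (∑ z ∈ dq k i j, w z) / 4 ^ k := by
    rw [le_div_iff₀ (by positivity), ← card_dq k i j, mul_comm, ← nsmul_eq_mul]
    refine Finset.card_nsmul_le_sum _ _ _ fun z hz => le_trans (le_min ?_ ?_) (hw z)
    · exact Real.rpow_le_one h0 ((div_le_one h2).2 hm1) (by norm_num)
    · exact Real.rpow_le_rpow h0 ((div_le_iff₀' h2).2 (hg z hz)) (by norm_num)
  have h3 := Real.rpow_le_rpow (by positivity) h1 (show (0 : ℝ) ≤ 9 / 16 by norm_num)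
  rw [← Real.rpow_mul h0, show (16 / 9 * (9 / 16) : ℝ) = 1 by norm_num, Real.rpow_one,
    div_le_iff₀' h2] at h3
  exact h3

lemma card_le_vol {K : Set P} (hK : Bornology.IsBounded K) (E : Finset (ℤ × ℤ))
    (hE : ∀ u ∈ E, ∃ p ∈ K, |(u.1 : ℝ) - p.1| ≤ 3 ∧ |(u.2 : ℝ) - p.2| ≤ 3) :
    (E.card : ℝ) ≤ (volume (Metric.cthickening 4 K)).toReal := by
  have h1 : volume (⋃ u ∈ E, Ico (u.1 : ℝ) (u.1 + 1) ×ˢ Ico (u.2 : ℝ) (u.2 + 1)) = E.card := by
    rw [measure_biUnion_finset]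
    · simp [Measure.volume_eq_prod]
    · intro u _ u' _ huu
      refine Set.disjoint_left.2 fun p h h' => huu ?_
      have e1 : ⌊p.1⌋ = u.1 := Int.floor_eq_iff.2 h.1
      have e2 : ⌊p.1⌋ = u'.1 := Int.floor_eq_iff.2 h'.1
      have e3 : ⌊p.2⌋ = u.2 := Int.floor_eq_iff.2 h.2
      have e4 : ⌊p.2⌋ = u'.2 := Int.floor_eq_iff.2 h'.2
      exact Prod.ext (e1.symm.trans e2) (e3.symm.trans e4)
    · exact fun u _ => measurableSet_Ico.prod measurableSet_Ico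
  have h2 : (⋃ u ∈ E, Ico (u.1 : ℝ) (u.1 + 1) ×ˢ Ico (u.2 : ℝ) (u.2 + 1)) ⊆
      Metric.cthickening 4 K := by
    intro q hq
    simp only [mem_iUnion] at hq
    obtain ⟨u, hu, ⟨q1, q2⟩, q3, q4⟩ := hq
    obtain ⟨p, hp, p1, p2⟩ := hE u hu
    refine Metric.mem_cthickening_of_dist_le q p 4 K hp ?_
    rw [Prod.dist_eq, Real.dist_eq, Real.dist_eq, max_le_iff, abs_le, abs_le]
    rw [abs_le] at p1 p2
    refine ⟨⟨?_, ?_⟩, ?_, ?_⟩ <;> linarith [p1.1, p1.2, p2.1, p2.2]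
  have h3 := ENNReal.toReal_mono hK.cthickening.measure_lt_top.ne (h1 ▸ measure_mono h2)
  simpa using h3

lemma cell1 {x x' : ℝ} {L : ℤ} (h0 : 0 < x) (h1 : x < L) (h2 : x' ∈ Ioo ((⌈x⌉ : ℝ) - 1) (⌊x⌋ + 1)) :
    ∃ z : ℤ, 0 ≤ z ∧ z < L ∧ x ∈ Icc (z : ℝ) (z + 1) ∧ x' ∈ Icc (z : ℝ) (z + 1) := by
  have e1 := Int.floor_le x
  have e2 := Int.lt_floor_add_one x
  have e3 := Int.le_ceil x
  have e4 := Int.ceil_lt_add_one x
  rcases le_total x x' with h | h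
  · exact ⟨⌊x⌋, Int.floor_nonneg.2 h0.le, Int.floor_lt.2 h1, ⟨e1, e2.le⟩, by linarith, h2.2.le⟩
  · refine ⟨⌈x⌉ - 1, by have := Int.ceil_pos.2 h0; omega, ?_, ?_, ?_⟩
    · have := Int.ceil_le.2 h1.le; omega
    · push_cast; constructor <;> linarith
    · push_cast; constructor <;> linarith [h2.1]

end ShearAux

open ShearAux in
theorem weights : ∃ C : ℝ, 0 ≤ C ∧ ∀ (K : Set P) (n : ℕ), (∀ p ∈ K, ‖p‖ ≤ 2 ^ n / 4) →
    ∃ (a b : ℝ) (v : P) (M : Finset (ℤ × ℤ)) (w : ℤ × ℤ → ℝ), |a| ≤ 1 / 4 ∧ |b| ≤ 1 / 4 ∧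
      Wts n M w ∧
      (∀ p ∈ K, shear a b v p ∈ uo M ∧ shear a b v p ∈ Ioo (0 : ℝ) (2 ^ n) ×ˢ Ioo (0 : ℝ) (2 ^ n)) ∧
      ∑ z ∈ dq n 0 0, w z ≤ C * ((volume (Metric.cthickening 4 K)).toReal + 1) := by
  classical
  obtain ⟨C, hC, hx⟩ := xray
  refine ⟨9 + 162 * C, by positivity, fun K n hK => ?_⟩
  have hK1 : ∀ p ∈ K, |p.1| ≤ 2 ^ n / 4 ∧ |p.2| ≤ 2 ^ n / 4 := fun p hp =>
    ⟨(norm_fst_le p).trans (hK p hp), (norm_snd_le p).trans (hK p hp)⟩
  have hpos : (0 : ℝ) < 2 ^ n := by positivity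
  obtain ⟨E, hE1, hE2⟩ : ∃ E : Finset (ℤ × ℤ),
      (∀ u ∈ E, ∃ p ∈ K, |(u.1 : ℝ) - p.1| ≤ 3 ∧ |(u.2 : ℝ) - p.2| ≤ 3) ∧
      ∀ u : ℤ × ℤ, ∀ p ∈ K, |(u.1 : ℝ) - p.1| ≤ 3 → |(u.2 : ℝ) - p.2| ≤ 3 → u ∈ E := by
    refine ⟨(Finset.Icc (-(2 ^ n + 3)) (2 ^ n + 3) ×ˢ Finset.Icc (-(2 ^ n + 3)) (2 ^ n + 3)).filter
      fun u : ℤ × ℤ => ∃ p ∈ K, |(u.1 : ℝ) - p.1| ≤ 3 ∧ |(u.2 : ℝ) - p.2| ≤ 3,
      fun u hu => (Finset.mem_filter.1 hu).2, fun u p hp h1 h2 =>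
        Finset.mem_filter.2 ⟨?_, p, hp, h1, h2⟩⟩
    obtain ⟨h3, h4⟩ := hK1 p hp
    have h5 : |(u.1 : ℝ)| ≤ ((2 ^ n + 3 : ℤ) : ℝ) := by
      push_cast; rw [abs_le] at h1 h3 ⊢; constructor <;> linarith [h1.1, h1.2, h3.1, h3.2]
    have h6 : |(u.2 : ℝ)| ≤ ((2 ^ n + 3 : ℤ) : ℝ) := by
      push_cast; rw [abs_le] at h2 h4 ⊢; constructor <;> linarith [h2.1, h2.2, h4.1, h4.2]
    have h7 : |u.1| ≤ 2 ^ n + 3 := by exact_mod_cast h5
    have h8 : |u.2| ≤ 2 ^ n + 3 := by exact_mod_cast h6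
    simp only [Finset.mem_product, Finset.mem_Icc]
    exact ⟨abs_le.1 h7, abs_le.1 h8⟩
  have hvol := card_le_vol (isBounded_iff_forall_norm_le.2 ⟨_, hK⟩) E hE1
  obtain ⟨a, c1, N1, ha, c11, c12, n11, n12, n13⟩ := hx E n
  obtain ⟨b, c2, N2, hb, c21, c22, n21, n22, n23⟩ := hx (E.image Prod.swap) n
  have hE3 : ∀ u : ℤ × ℤ, ∀ p ∈ Prod.swap '' K, |(u.1 : ℝ) - p.1| ≤ 3 → |(u.2 : ℝ) - p.2| ≤ 3 →
      u ∈ E.image Prod.swap := by
    rintro u _ ⟨p, hp, rfl⟩ h1 h2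
    exact Finset.mem_image.2 ⟨u.swap, hE2 u.swap p hp h2 h1, rfl⟩
  obtain ⟨v, hv1, hv2⟩ : ∃ v : P, v.1 = 2 ^ n - c1 ∧ v.swap.1 = 2 ^ n - c2 :=
    ⟨(2 ^ n - c1, 2 ^ n - c2), rfl, rfl⟩
  obtain ⟨M, hM⟩ : ∃ M : Finset (ℤ × ℤ), ∀ z, z ∈ M ↔
      z ∈ dq n 0 0 ∧ ∃ p ∈ K, shear a b v p ∈ uc z :=
    ⟨(dq n 0 0).filter fun z => ∃ p ∈ K, shear a b v p ∈ uc z, fun z => Finset.mem_filter⟩
  let g0 : ℤ × ℤ → ℝ := fun z => if z ∈ M then 1 else 0
  let g1 : ℤ × ℤ → ℝ := fun z => (3 * N1 (zt a b v z)) ^ (16 / 9 : ℝ)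
  let g2 : ℤ × ℤ → ℝ := fun z => (3 * N2 (zt a b v z).swap) ^ (16 / 9 : ℝ)
  have p0 : ∀ z, 0 ≤ g0 z := fun z => by simp only [g0]; split_ifs <;> norm_num
  have p1 : ∀ z, 0 ≤ g1 z := fun z => Real.rpow_nonneg (by linarith [n11 (zt a b v z)]) _
  have p2 : ∀ z, 0 ≤ g2 z := fun z => Real.rpow_nonneg (by linarith [n21 (zt a b v z).swap]) _
  have p3 : (0 : ℝ) < 1 / 4 ^ n := by positivity
  refine ⟨a, b, v, M, fun z => min 1 (g0 z + g1 z + g2 z + 1 / 4 ^ n), ha, hb,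
    ⟨fun z => lt_min one_pos (by linarith [p0 z, p1 z, p2 z]), fun z => min_le_left _ _,
      fun z hz => min_eq_left (by
        have : g0 z = 1 := if_pos hz
        linarith [p1 z, p2 z]), fun k hk i j _ x => ⟨fun h => ?_, fun h => ?_⟩⟩,
    fun p hp => ?_, ?_⟩
  · refine trace (g := fun z => 3 * N1 (zt a b v z)) (by positivity)
      (col_card (i := i) (j := j) (x := x) _ fun z hz => ?_) (fun z hz => ?_) fun z => ?_
    · have := Finset.mem_filter.1 hz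
      exact ⟨this.1, this.2.1⟩
    · refine col ha hb hv1 hE2 n12 hk h _ (fun z' hz' => ?_) hz
      have := Finset.mem_filter.1 hz'
      exact ⟨this.1, this.2.1, ((hM z').1 this.2.2).2⟩
    · exact min_le_min le_rfl (by linarith [p0 z, p2 z, le_refl (g1 z)])
  · have hsw : ∀ z : ℤ × ℤ, z ∈ dq k i j → z.swap ∈ dq k j i := fun z hz =>
      mem_dq.2 (mem_dq.1 hz).symm
    rw [← Finset.card_image_of_injective _ Prod.swap_injective]
    refine trace (g := fun z => 3 * N2 (zt a b v z).swap) (by positivity)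
      (col_card (i := j) (j := i) (x := x) _ fun z hz => ?_) (fun z hz => ?_) fun z => ?_
    · obtain ⟨z', h1, rfl⟩ := Finset.mem_image.1 hz
      have := Finset.mem_filter.1 h1
      exact ⟨hsw _ this.1, this.2.1⟩
    · rw [← zt_swap]
      refine col hb ha hv2 hE3 n22 hk h _ (fun z' hz' => ?_) (hsw z hz)
      obtain ⟨z'', h1, rfl⟩ := Finset.mem_image.1 hz'
      have := Finset.mem_filter.1 h1
      obtain ⟨p, hp, h2⟩ := ((hM z'').1 this.2.2).2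
      exact ⟨hsw _ this.1, this.2.1, p.swap, ⟨p, hp, rfl⟩, h2.2, h2.1⟩
    · exact min_le_min le_rfl (by linarith [p0 z, p1 z, le_refl (g2 z)])
  · obtain ⟨h3, h4⟩ := hK1 p hp
    have h5 : |a * p.2| ≤ 1 / 4 * (2 ^ n / 4) := by rw [abs_mul]; gcongr
    have h6 : |b * p.1| ≤ 1 / 4 * (2 ^ n / 4) := by rw [abs_mul]; gcongr
    have hv3 : v.2 = 2 ^ n - c2 := hv2
    rw [abs_le] at h3 h4 h5 h6
    have h7 : shear a b v p ∈ Ioo (0 : ℝ) (2 ^ n) ×ˢ Ioo (0 : ℝ) (2 ^ n) := by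
      simp only [shear, mem_prod, mem_Ioo]
      refine ⟨⟨?_, ?_⟩, ?_, ?_⟩ <;> linarith [h3.1, h3.2, h4.1, h4.2, h5.1, h5.2, h6.1, h6.2]
    refine ⟨?_, h7⟩
    generalize hq : shear a b v p = q at h7
    refine interior_maximal (t := Ioo ((⌈q.1⌉ : ℝ) - 1) (⌊q.1⌋ + 1) ×ˢ
      Ioo ((⌈q.2⌉ : ℝ) - 1) (⌊q.2⌋ + 1)) (fun q' hq' => ?_) (isOpen_Ioo.prod isOpen_Ioo) ?_
    · obtain ⟨z1, a1, a2, a3, a4⟩ := cell1 (L := 2 ^ n) h7.1.1 (by push_cast; exact h7.1.2) hq'.1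
      obtain ⟨z2, b1, b2, b3, b4⟩ := cell1 (L := 2 ^ n) h7.2.1 (by push_cast; exact h7.2.2) hq'.2
      simp only [mem_iUnion]
      refine ⟨(z1, z2), (hM _).2 ⟨mem_dq.2 (by simp [a1, a2, b1, b2]), p, hp, ?_⟩, a4, b4⟩
      rw [hq]; exact ⟨a3, b3⟩
    · exact ⟨⟨by linarith [Int.ceil_lt_add_one q.1], Int.lt_floor_add_one q.1⟩,
        by linarith [Int.ceil_lt_add_one q.2], Int.lt_floor_add_one q.2⟩
  · have h3 : (3 : ℝ) ^ (16 / 9 : ℝ) ≤ 9 := by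
      calc (3 : ℝ) ^ (16 / 9 : ℝ) ≤ 3 ^ ((2 : ℕ) : ℝ) :=
            Real.rpow_le_rpow_of_exponent_le (by norm_num) (by norm_num)
        _ = 9 := by rw [Real.rpow_natCast]; norm_num
    have s0 : ∑ z ∈ dq n 0 0, g0 z ≤ 9 * E.card := by
      have e1 := sum_zt ha hb v (dq n 0 0) (fun u => if u ∈ E then 1 else 0)
        fun u => by split_ifs <;> norm_num
      have e2 : ∑ u ∈ (dq n 0 0).image (zt a b v), (if u ∈ E then (1 : ℝ) else 0) ≤ E.card := by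
        rw [Finset.sum_boole]
        exact_mod_cast Finset.card_le_card fun u hu => (Finset.mem_filter.1 hu).2
      refine le_trans (Finset.sum_le_sum fun z _ => ?_) (e1.trans (by linarith))
      simp only [g0]
      split_ifs with h1 h2
      · exact le_rfl
      · obtain ⟨p, hp, h4⟩ := ((hM z).1 h1).2
        obtain ⟨h5, h6⟩ := px_near ha hb h4
        exact absurd (hE2 _ p hp ((floor_near h5).trans (by norm_num))
          ((floor_near h6).trans (by norm_num))) h2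
      · norm_num
      · exact le_rfl
    have s1 : ∑ z ∈ dq n 0 0, g1 z ≤ 81 * (C * E.card) := by
      have e1 := sum_zt ha hb v (dq n 0 0) (fun u => N1 u ^ (16 / 9 : ℝ))
        fun u => Real.rpow_nonneg (n11 u) _
      have e2 := n13 ((dq n 0 0).image (zt a b v))
      calc _ ≤ ∑ z ∈ dq n 0 0, 9 * N1 (zt a b v z) ^ (16 / 9 : ℝ) :=
            Finset.sum_le_sum fun z _ => by
              simp only [g1]
              rw [Real.mul_rpow (by norm_num) (n11 _)]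
              exact mul_le_mul_of_nonneg_right h3 (Real.rpow_nonneg (n11 _) _)
        _ ≤ _ := by rw [← Finset.mul_sum]; linarith
    have s2 : ∑ z ∈ dq n 0 0, g2 z ≤ 81 * (C * E.card) := by
      have e1 := sum_zt ha hb v (dq n 0 0) (fun u => N2 u.swap ^ (16 / 9 : ℝ))
        fun u => Real.rpow_nonneg (n21 _) _
      have e2 := n23 (((dq n 0 0).image (zt a b v)).image Prod.swap)
      rw [Finset.sum_image fun _ _ _ _ h => Prod.swap_injective h,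
        Finset.card_image_of_injective _ Prod.swap_injective] at e2
      calc _ ≤ ∑ z ∈ dq n 0 0, 9 * N2 (zt a b v z).swap ^ (16 / 9 : ℝ) :=
            Finset.sum_le_sum fun z _ => by
              simp only [g2]
              rw [Real.mul_rpow (by norm_num) (n21 _)]
              exact mul_le_mul_of_nonneg_right h3 (Real.rpow_nonneg (n21 _) _)
        _ ≤ _ := by rw [← Finset.mul_sum]; linarith
    have s3 : ∑ _z ∈ dq n 0 0, (1 / 4 ^ n : ℝ) = 1 := by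
      rw [Finset.sum_const, nsmul_eq_mul, card_dq]; field_simp
    have s4 : C * E.card ≤ C * (volume (Metric.cthickening 4 K)).toReal := by gcongr
    calc _ ≤ ∑ z ∈ dq n 0 0, (g0 z + g1 z + g2 z + 1 / 4 ^ n) :=
          Finset.sum_le_sum fun z _ => min_le_right _ _
      _ ≤ _ := by
          rw [Finset.sum_add_distrib, Finset.sum_add_distrib, Finset.sum_add_distrib]
          linarith

end Pool.Agent.Lib.MP_ecd4e3_gt
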