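import Pool.Agent.Lib.MP_ecd4e3_gt.Main
import Pool.Agent.Lib.MP_ecd4e3_gt.Grid
import Pool.Agent.Lib.MP_ecd4e3_gt.Shear

/-! Assembly in the plane with the sup norm. -/

namespace Pool.Agent.Lib.MP_ecd4e3_gt

open Set Filter Topology MeasureTheory

theorem pc_int (i : ℤ) : pc (i : ℝ) = i := by
  simp [pc, cl]

/-- Undoing the collapse. -/
theorem decollapse {V S K : Set P} {N : ℝ} {f Λ : P → P} (hV : IsOpen V) (hN : 0 < N)
    (hp : pc N = N) (hΛ : ∀ p, Λ p = (pc (N / 2 + p.1 * (N / 2)), pc (N / 2 + p.2 * (N / 2))))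
    (hf : Emb V Λ S f) (hK : IsCompact K) (h1 : K ⊆ V) (h2 : K ⊆ Ioo (0 : ℝ) N ×ˢ Ioo (0 : ℝ) N) :
    ∃ (g : P → P) (L : ℝ), InjOn g K ∧ MapsTo g K S ∧ ∀ q ∈ K, ∀ᶠ q' in 𝓝 q,
      dist q' q ≤ 2 * dist (g q') (g q) ∧ dist (g q') (g q) ≤ L * dist q' q := by
  obtain ⟨θf, hθf, hlow⟩ := hf.low
  obtain ⟨Kf, hup⟩ := hf.up
  obtain ⟨r, hr, hrV⟩ := hK.exists_cthickening_subset_open hV h1
  obtain ⟨θ, hθ, θ1, θ2, θ3⟩ : ∃ θ : ℝ, 0 < θ ∧ θ ≤ 1 / 2 ∧ θ ≤ r ∧ θ * (N / 2) ≤ θf := by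
    refine ⟨min (min (1 / 2) r) (θf / (N / 2)), by positivity,
      (min_le_left _ _).trans (min_le_left _ _), (min_le_left _ _).trans (min_le_right _ _), ?_⟩
    exact (le_div_iff₀ (by positivity)).mp (min_le_right _ _)
  have hπ : IncOn (fun x => (1 - θ) * pc x + θ * x) univ := by
    refine ⟨θ, 2, hθ, fun t _ t' _ h => ?_⟩
    obtain ⟨a, b⟩ := pc_mono h
    have a1 := mul_nonneg (show 0 ≤ 1 - θ by linarith) a
    have a2 := mul_le_mul_of_nonneg_left b (show 0 ≤ 1 - θ by linarith)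
    have a3 := mul_nonneg hθ.le (sub_nonneg.mpr h)
    constructor <;> nlinarith
  obtain ⟨ρ, hρ, ρ1, ρ2⟩ := hπ.exists_inv
  have ρm : StrictMono ρ := strictMonoOn_univ.mp hρ.strictMonoOn
  have ρc : Continuous ρ := continuousOn_univ.mp hρ.continuousOn
  obtain ⟨θρ, Kρ, hθρ, hρ'⟩ := hρ
  have ρl : ∀ x y, |ρ x - ρ y| ≤ |Kρ| * |x - y| := by
    have key : ∀ x y, x ≤ y → |ρ x - ρ y| ≤ |Kρ| * |x - y| := by
      intro x y h
      have a := (hρ' x trivial y trivial h).2
      have b := ρm.monotone h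
      rw [abs_sub_comm, abs_of_nonneg (sub_nonneg.mpr b), abs_sub_comm x y,
        abs_of_nonneg (sub_nonneg.mpr h)]
      exact a.trans (mul_le_mul_of_nonneg_right (le_abs_self _) (sub_nonneg.mpr h))
    intro x y
    rcases le_total x y with h | h
    · exact key x y h
    · rw [abs_sub_comm, abs_sub_comm x y]; exact key y x h
  have ρ0 : ρ 0 = 0 := by
    have := ρ1 0
    have e : pc 0 = 0 := by simpa using pc_int 0
    simpa [e] using this
  have ρN : ρ N = N := by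
    have := ρ1 N
    rw [hp, show (1 - θ) * N + θ * N = N by ring] at this
    exact this
  obtain ⟨h, hh⟩ : ∃ h : P → P, ∀ q, h q = (ρ q.1 / (N / 2) - 1, ρ q.2 / (N / 2) - 1) :=
    ⟨_, fun _ => rfl⟩
  have hc : Continuous h := by
    rw [show h = fun q => (ρ q.1 / (N / 2) - 1, ρ q.2 / (N / 2) - 1) from funext hh]
    fun_prop
  have hN2 : 0 < N / 2 := by positivity
  have hΛh : ∀ q, Λ (h q) = (pc (ρ q.1), pc (ρ q.2)) := by
    intro q
    have e : ∀ x : ℝ, N / 2 + (x / (N / 2) - 1) * (N / 2) = x := fun x => by field_simp; ring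
    rw [hΛ, hh, e, e]
  have hin : ∀ x ∈ Ioo (0 : ℝ) N, |ρ x / (N / 2) - 1| ≤ 1 := by
    intro x hx
    have a := ρm hx.1
    have b := ρm hx.2
    rw [ρ0] at a
    rw [ρN] at b
    have c : 0 ≤ ρ x / (N / 2) := by positivity
    have d : ρ x / (N / 2) ≤ 2 := by rw [div_le_iff₀ hN2]; linarith
    rw [abs_le]; constructor <;> linarith
  have hsq : ∀ q ∈ Ioo (0 : ℝ) N ×ˢ Ioo (0 : ℝ) N, h q ∈ sq := fun q hq => by
    rw [hh]; exact ⟨hin _ hq.1, hin _ hq.2⟩
  have hd : ∀ x y : ℝ, |(ρ x / (N / 2) - 1) - (ρ y / (N / 2) - 1)| = |ρ x - ρ y| / (N / 2) := by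
    intro x y
    rw [show (ρ x / (N / 2) - 1) - (ρ y / (N / 2) - 1) = (ρ x - ρ y) / (N / 2) by ring, abs_div,
      abs_of_pos hN2]
  have hx : ∀ x y : ℝ, |x - y| ≤ |pc (ρ x) - pc (ρ y)| + θ * |ρ x - ρ y| := by
    intro x y
    have e : x - y = (1 - θ) * (pc (ρ x) - pc (ρ y)) + θ * (ρ x - ρ y) := by
      have a := ρ2 x
      have b := ρ2 y
      linarith
    rw [e]
    refine (abs_add_le _ _).trans ?_
    rw [abs_mul, abs_mul, abs_of_pos hθ, abs_of_nonneg (show 0 ≤ 1 - θ by linarith)]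
    have := mul_nonneg hθ.le (abs_nonneg (pc (ρ x) - pc (ρ y)))
    linarith
  refine ⟨fun q => f (h q), |Kf| * (|Kρ| / (N / 2)), ?_, fun q hq => hf.maps (hsq q (h2 hq)), ?_⟩
  · intro q hq q' hq' e
    have e' := hf.inj (hsq q (h2 hq)) (hsq q' (h2 hq')) e
    rw [hh, hh, Prod.mk.injEq] at e'
    have k : ∀ x y : ℝ, ρ x / (N / 2) - 1 = ρ y / (N / 2) - 1 → x = y := by
      intro x y e
      have : ρ x = ρ y := by
        have := sub_left_injective e
        exact (div_left_inj' hN2.ne').mp this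
      exact ρm.injective this
    exact Prod.ext (k _ _ e'.1) (k _ _ e'.2)
  intro q hq
  have hq2 := h2 hq
  have ht : Tendsto h (𝓝 q) (𝓝[sq] (h q)) := by
    refine tendsto_nhdsWithin_iff.mpr ⟨hc.continuousAt, ?_⟩
    filter_upwards [(isOpen_Ioo.prod isOpen_Ioo).mem_nhds hq2] with q' hq' using hsq q' hq'
  have hU : Λ (h q) ∈ V := by
    refine hrV (Metric.mem_cthickening_of_dist_le _ q _ _ hq ?_)
    have k : ∀ x : ℝ, |pc (ρ x) - x| ≤ r := by
      intro x
      have a := ρ2 x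
      have b := pc_sub (ρ x)
      rw [show pc (ρ x) - x = θ * (pc (ρ x) - ρ x) by linarith, abs_mul, abs_of_pos hθ]
      nlinarith
    rw [hΛh, Prod.dist_eq, Real.dist_eq, Real.dist_eq]
    exact max_le (k _) (k _)
  filter_upwards [ht.eventually (hlow _ (hsq q hq2)), ht.eventually (hup _ (hsq q hq2)),
    ht.eventually (hf.dom _ (hsq q hq2) hU)] with q' a1 a2 a3
  have d1 : dist (h q') (h q) = max |ρ q'.1 - ρ q.1| |ρ q'.2 - ρ q.2| / (N / 2) := by
    rw [hh, hh, Prod.dist_eq, Real.dist_eq, Real.dist_eq, hd, hd, max_div_div_right hN2.le]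
  constructor
  · rw [hΛh, hΛh, Prod.dist_eq, Real.dist_eq, Real.dist_eq] at a3
    have b1 : θ * max |ρ q'.1 - ρ q.1| |ρ q'.2 - ρ q.2| ≤ dist (f (h q')) (f (h q)) := by
      refine le_trans ?_ a1
      have e : max |ρ q'.1 - ρ q.1| |ρ q'.2 - ρ q.2| = N / 2 * dist (h q') (h q) := by
        rw [d1]; field_simp
      rw [e, ← mul_assoc]
      exact mul_le_mul_of_nonneg_right θ3 dist_nonneg
    have b2 := mul_le_mul_of_nonneg_left (le_max_left |ρ q'.1 - ρ q.1| |ρ q'.2 - ρ q.2|) hθ.le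
    have b3 := mul_le_mul_of_nonneg_left (le_max_right |ρ q'.1 - ρ q.1| |ρ q'.2 - ρ q.2|) hθ.le
    have b4 := (le_max_left _ _).trans a3
    have b5 := (le_max_right _ _).trans a3
    have b6 := hx q'.1 q.1
    have b7 := hx q'.2 q.2
    rw [Prod.dist_eq (x := q'), Real.dist_eq, Real.dist_eq]
    exact max_le (by linarith) (by linarith)
  · have b1 : dist (h q') (h q) ≤ |Kρ| / (N / 2) * dist q' q := by
      rw [d1, div_mul_eq_mul_div]
      refine div_le_div_of_nonneg_right ?_ hN2.le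
      rw [Prod.dist_eq, Real.dist_eq, Real.dist_eq]
      exact max_le ((ρl _ _).trans (mul_le_mul_of_nonneg_left (le_max_left _ _) (abs_nonneg _)))
        ((ρl _ _).trans (mul_le_mul_of_nonneg_left (le_max_right _ _) (abs_nonneg _)))
    calc dist (f (h q')) (f (h q)) ≤ Kf * dist (h q') (h q) := a2
      _ ≤ |Kf| * dist (h q') (h q) := mul_le_mul_of_nonneg_right (le_abs_self _) dist_nonneg
      _ ≤ |Kf| * (|Kρ| / (N / 2) * dist q' q) := mul_le_mul_of_nonneg_left b1 (abs_nonneg _)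
      _ = _ := by ring

theorem shear_dist {a b : ℝ} (ha : |a| ≤ 1 / 4) (hb : |b| ≤ 1 / 4) (v p q : P) :
    3 / 4 * dist p q ≤ dist (shear a b v p) (shear a b v q) ∧
      dist (shear a b v p) (shear a b v q) ≤ 5 / 4 * dist p q := by
  simp only [shear, Prod.dist_eq, Real.dist_eq]
  have e1 : p.1 + a * p.2 + v.1 - (q.1 + a * q.2 + v.1) = (p.1 - q.1) + a * (p.2 - q.2) := by ring
  have e2 : p.2 + b * p.1 + v.2 - (q.2 + b * q.1 + v.2) = (p.2 - q.2) + b * (p.1 - q.1) := by ring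
  rw [e1, e2]
  generalize p.1 - q.1 = x
  generalize p.2 - q.2 = y
  have h1 : |a * y| ≤ 1 / 4 * |y| := by
    rw [abs_mul]; exact mul_le_mul_of_nonneg_right ha (abs_nonneg _)
  have h2 : |b * x| ≤ 1 / 4 * |x| := by
    rw [abs_mul]; exact mul_le_mul_of_nonneg_right hb (abs_nonneg _)
  have h3 := abs_add_le x (a * y)
  have h4 := abs_add_le y (b * x)
  have h5 := abs_add_le (x + a * y) (-(a * y))
  have h6 := abs_add_le (y + b * x) (-(b * x))
  rw [add_neg_cancel_right, abs_neg] at h5 h6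
  have m1 := le_max_left |x| |y|
  have m2 := le_max_right |x| |y|
  have m3 := le_max_left |x + a * y| |y + b * x|
  have m4 := le_max_right |x + a * y| |y + b * x|
  constructor
  · rcases le_total |x| |y| with h | h
    · rw [max_eq_right h]; linarith
    · rw [max_eq_left h]; linarith
  · exact max_le (by linarith) (by linarith)

theorem plane_emb : ∃ C : ℝ, 0 < C ∧ ∀ K : Set P, IsCompact K → ∃ (g : P → P) (L : ℝ),
    InjOn g K ∧ (∀ p ∈ K, ‖g p‖ ≤ C * √((volume (Metric.cthickening 4 K)).toReal + 1)) ∧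
    ∀ p ∈ K, ∀ᶠ p' in 𝓝 p,
      dist p' p ≤ 3 * dist (g p') (g p) ∧ dist (g p') (g p) ≤ L * dist p' p := by
  obtain ⟨C, hC, hw⟩ := weights
  have hs : 0 < sC := by unfold sC; positivity
  refine ⟨sC * √(C + 1), by positivity, fun K hK => ?_⟩
  obtain ⟨B, hB⟩ := hK.isBounded.exists_norm_le
  obtain ⟨n, hn⟩ := pow_unbounded_of_one_lt (4 * B) (show (1 : ℝ) < 2 by norm_num)
  obtain ⟨a, b, v, M, w, ha, hb, hW, hm, hsum⟩ :=
    hw K n fun p hp => (hB p hp).trans (by linarith)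
  obtain ⟨E, e1, e2, e3, e4⟩ := grid hW
  have hwd : (root n).Wd := by
    simp [Fr.Wd, root, Prod.norm_def, le_total]
  obtain ⟨f, hf⟩ := root_emb e3 hwd
  have sc : Continuous (shear a b v) := by unfold shear; fun_prop
  have hN : pc (2 ^ n) = 2 ^ n := by simpa using pc_int (2 ^ n)
  obtain ⟨g, L, g1, g2, g3⟩ := decollapse (K := shear a b v '' K) (N := 2 ^ n) E.hU (by positivity)
    hN (fun p => by simp [Env.ch, e2, Fr.W, root]) hf (hK.image sc)
    (by rintro _ ⟨p, hp, rfl⟩; rw [e1]; exact (hm p hp).1)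
    (by rintro _ ⟨p, hp, rfl⟩; exact (hm p hp).2)
  refine ⟨fun p => g (shear a b v p), |L| * (5 / 4), ?_, ?_, ?_⟩
  · intro p hp q hq e
    have e' := g1 (mem_image_of_mem _ hp) (mem_image_of_mem _ hq) e
    have := (shear_dist ha hb v p q).1
    rw [e', dist_self] at this
    exact dist_le_zero.mp (by linarith)
  · intro p hp
    have := g2 (mem_image_of_mem _ hp)
    rw [sbox_set] at this
    have h1 : ‖g (shear a b v p)‖ ≤ sC * √(E.nu (root n)) := by
      rw [Prod.norm_def]; exact max_le this.1 this.2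
    refine h1.trans ?_
    rw [mul_assoc, ← Real.sqrt_mul (by positivity)]
    refine mul_le_mul_of_nonneg_left (Real.sqrt_le_sqrt ?_) hs.le
    rw [e4]
    refine hsum.trans (mul_le_mul_of_nonneg_right (by linarith) (by positivity))
  · intro p hp
    filter_upwards [sc.continuousAt.eventually (g3 _ (mem_image_of_mem _ hp))] with p' h
    obtain ⟨s1, s2⟩ := shear_dist ha hb v p' p
    have d0 : 0 ≤ dist (g (shear a b v p')) (g (shear a b v p)) := dist_nonneg
    refine ⟨by linarith [h.1], h.2.trans ?_⟩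
    calc L * dist (shear a b v p') (shear a b v p)
        ≤ |L| * dist (shear a b v p') (shear a b v p) :=
          mul_le_mul_of_nonneg_right (le_abs_self _) dist_nonneg
      _ ≤ |L| * (5 / 4 * dist p' p) := mul_le_mul_of_nonneg_left s2 (abs_nonneg _)
      _ = _ := by ring

/-- Scale invariant form. -/
theorem plane_small : ∃ C : ℝ, 0 < C ∧ ∀ (K : Set P) (ε : ℝ), IsCompact K → 0 < ε →
    volume K ≤ ENNReal.ofReal ε → ∃ (g : P → P) (L : ℝ),
    InjOn g K ∧ (∀ p ∈ K, ‖g p‖ ≤ C * √ε) ∧ ∀ p ∈ K, ∀ᶠ p' in 𝓝 p,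
      dist p' p ≤ dist (g p') (g p) ∧ dist (g p') (g p) ≤ L * dist p' p := by
  obtain ⟨C, hC, h⟩ := plane_emb
  refine ⟨6 * C, by positivity, fun K ε hK hε hv => ?_⟩
  have t1 := tendsto_measure_cthickening_of_isCompact (μ := volume) hK
  have lt : volume K < ENNReal.ofReal (2 * ε) :=
    hv.trans_lt ((ENNReal.ofReal_lt_ofReal_iff (by positivity)).mpr (by linarith))
  have t2 : ∀ᶠ r in 𝓝 (0 : ℝ), volume (Metric.cthickening r K) < ENNReal.ofReal (2 * ε) :=
    t1.eventually (gt_mem_nhds lt)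
  have t3 : ∀ᶠ r in 𝓝 (0 : ℝ), r ^ 2 < ε := by
    have : Tendsto (fun r : ℝ => r ^ 2) (𝓝 0) (𝓝 (0 ^ 2)) := (continuous_pow 2).tendsto 0
    exact this.eventually (gt_mem_nhds (by simpa using hε))
  obtain ⟨r, ⟨r1, r2⟩, hr⟩ :=
    (((t2.and t3).filter_mono nhdsWithin_le_nhds).and (self_mem_nhdsWithin (s := Ioi 0))).exists
  have hr : 0 < r := hr
  obtain ⟨δ, hδ, rfl⟩ : ∃ δ : ℝ, 0 < δ ∧ r = 4 * δ := ⟨r / 4, by positivity, by ring⟩
  have sc : Continuous fun p : P => δ⁻¹ • p := by fun_prop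
  have ds : ∀ p q : P, dist (δ⁻¹ • p) (δ⁻¹ • q) = δ⁻¹ * dist p q := fun p q => by
    rw [dist_smul₀, Real.norm_eq_abs, abs_of_pos (inv_pos.mpr hδ)]
  have ds' : ∀ p q : P, dist ((3 * δ) • p) ((3 * δ) • q) = 3 * δ * dist p q := fun p q => by
    rw [dist_smul₀, Real.norm_eq_abs, abs_of_pos (by positivity)]
  obtain ⟨g, L, g1, g2, g3⟩ := h ((fun p : P => δ⁻¹ • p) '' K) (hK.image sc)
  have hvol : (volume (Metric.cthickening 4 ((fun p : P => δ⁻¹ • p) '' K))).toReal ≤
      (δ ^ 2)⁻¹ * (2 * ε) := by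
    have e : Metric.cthickening 4 ((fun p : P => δ⁻¹ • p) '' K) ⊆
        (fun p : P => δ • p) ⁻¹' Metric.cthickening (4 * δ) K := by
      rw [(hK.image sc).cthickening_eq_biUnion_closedBall (by norm_num)]
      intro p hp
      simp only [mem_iUnion, exists_prop] at hp
      obtain ⟨_, ⟨q, hq, rfl⟩, hp⟩ := hp
      refine Metric.mem_cthickening_of_dist_le _ q _ _ hq ?_
      have h1 := ds (δ • p) q
      rw [inv_smul_smul₀ hδ.ne'] at h1
      have h2 : dist p (δ⁻¹ • q) ≤ 4 := hp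
      rw [h1, inv_mul_le_iff₀ hδ] at h2
      linarith
    refine ENNReal.toReal_le_of_le_ofReal (by positivity) ((measure_mono e).trans ?_)
    rw [Measure.addHaar_preimage_smul _ hδ.ne', ENNReal.ofReal_mul (by positivity)]
    have e2 : |(δ ^ Module.finrank ℝ P)⁻¹| = (δ ^ 2)⁻¹ := by
      rw [show Module.finrank ℝ P = 2 by simp, abs_of_pos (by positivity)]
    rw [e2]
    exact mul_le_mul_right r1.le _
  refine ⟨fun p => (3 * δ) • g (δ⁻¹ • p), 3 * L, ?_, ?_, ?_⟩
  · intro p hp q hq e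
    have e1 : g (δ⁻¹ • p) = g (δ⁻¹ • q) := smul_right_injective P (by positivity) e
    have e2 := g1 (mem_image_of_mem _ hp) (mem_image_of_mem _ hq) e1
    exact smul_right_injective P (inv_ne_zero hδ.ne') e2
  · intro p hp
    rw [norm_smul, Real.norm_eq_abs, abs_of_pos (by positivity)]
    have a1 := g2 _ (mem_image_of_mem _ hp)
    have a2 : δ * √((volume (Metric.cthickening 4 ((fun p : P => δ⁻¹ • p) '' K))).toReal + 1) ≤
        2 * √ε := by
      rw [← Real.sqrt_sq hδ.le, ← Real.sqrt_mul (by positivity), Real.sqrt_sq hδ.le,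
        ← Real.sqrt_sq (show (0 : ℝ) ≤ 2 by norm_num), ← Real.sqrt_mul (by positivity)]
      refine Real.sqrt_le_sqrt ?_
      have a3 := mul_le_mul_of_nonneg_left hvol (sq_nonneg δ)
      rw [← mul_assoc, mul_inv_cancel₀ (by positivity)] at a3
      nlinarith
    have a3 := mul_le_mul_of_nonneg_left a1 (show 0 ≤ 3 * δ by positivity)
    have a4 := mul_le_mul_of_nonneg_left a2 hC.le
    linarith
  · intro p hp
    filter_upwards [sc.continuousAt.eventually (g3 _ (mem_image_of_mem _ hp))] with p' h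
    rw [ds] at h
    rw [ds']
    have b1 := mul_le_mul_of_nonneg_left h.1 hδ.le
    have b2 := mul_le_mul_of_nonneg_left h.2 hδ.le
    have e : δ * δ⁻¹ = 1 := mul_inv_cancel₀ hδ.ne'
    constructor
    · rw [← mul_assoc, e] at b1; linarith
    · have : δ * (L * (δ⁻¹ * dist p' p)) = L * dist p' p := by field_simp
      rw [this] at b2; linarith

end Pool.Agent.Lib.MP_ecd4e3_gt
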