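import Pool.Agent.Lib.MP_ecd4e3_gt.Defs

/-! One-dimensional tools: increasing bi-Lipschitz maps, lifts, dominating functions. -/

namespace Pool.Agent.Lib.MP_ecd4e3_gt

open Set Filter Topology

/-- Pointwise domination at every point gives domination between the end points. -/
theorem chain_le {Y : Type} [PseudoMetricSpace Y] {m : ℝ → Y} {T : ℝ → ℝ} {a b : ℝ}
    (hab : a ≤ b) (hT : MonotoneOn T (Icc a b))
    (h : ∀ t ∈ Icc a b, ∀ᶠ t' in 𝓝[Icc a b] t, dist (m t') (m t) ≤ |T t' - T t|) :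
    dist (m b) (m a) ≤ T b - T a := by
  set S : Set ℝ := {t | t ∈ Icc a b ∧ dist (m t) (m a) ≤ T t - T a} with hS
  have ha : a ∈ S := ⟨left_mem_Icc.2 hab, by simp⟩
  have hb : BddAbove S := ⟨b, fun t ht => ht.1.2⟩
  have hc : sSup S ∈ Icc a b := ⟨le_csSup hb ha, csSup_le ⟨a, ha⟩ fun t ht => ht.1.2⟩
  have hcS : sSup S ∈ S := by
    have h1 : (𝓝[S] (sSup S)).NeBot :=
      mem_closure_iff_nhdsWithin_neBot.1 (csSup_mem_closure ⟨a, ha⟩ hb)
    obtain ⟨t, ht1, ht2⟩ := (((h _ hc).filter_mono (nhdsWithin_mono _ fun t (ht : t ∈ S) => ht.1)).and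
      self_mem_nhdsWithin).exists
    have h2 := hT ht2.1 hc (le_csSup hb ht2)
    rw [abs_of_nonpos (by linarith)] at ht1
    refine ⟨hc, ?_⟩
    have h3 := dist_triangle (m (sSup S)) (m t) (m a)
    rw [dist_comm (m (sSup S)) (m t)] at h3
    linarith [ht2.2]
  rcases hc.2.eq_or_lt with e | hlt
  · exact e ▸ hcS.2
  · exfalso
    have h1 : (𝓝[Ioc (sSup S) b] (sSup S)).NeBot := left_nhdsWithin_Ioc_neBot hlt
    obtain ⟨t, ht1, ht2⟩ := (((h _ hc).filter_mono (nhdsWithin_mono _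
      fun t (ht : t ∈ Ioc (sSup S) b) => mem_Icc.2 ⟨hc.1.trans ht.1.le, ht.2⟩)).and
      self_mem_nhdsWithin).exists
    have ht3 : t ∈ Icc a b := ⟨hc.1.trans ht2.1.le, ht2.2⟩
    have h2 := hT hc ht3 ht2.1.le
    rw [abs_of_nonneg (by linarith)] at ht1
    have h3 := dist_triangle (m t) (m (sSup S)) (m a)
    have h4 : t ∈ S := ⟨ht3, by linarith [hcS.2]⟩
    exact absurd (le_csSup hb h4) (not_le.2 ht2.1)

theorem IncOn.mono {σ : ℝ → ℝ} {s t : Set ℝ} (h : IncOn σ s) (hts : t ⊆ s) : IncOn σ t := by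
  obtain ⟨θ, K, hθ, h⟩ := h
  exact ⟨θ, K, hθ, fun x hx y hy => h x (hts hx) y (hts hy)⟩

theorem IncOn.congr {σ τ : ℝ → ℝ} {s : Set ℝ} (h : IncOn σ s) (he : EqOn σ τ s) : IncOn τ s := by
  obtain ⟨θ, K, hθ, h⟩ := h
  exact ⟨θ, K, hθ, fun x hx y hy hxy => he hx ▸ he hy ▸ h x hx y hy hxy⟩

theorem IncOn.strictMonoOn {σ : ℝ → ℝ} {s : Set ℝ} (h : IncOn σ s) : StrictMonoOn σ s := by
  obtain ⟨θ, K, hθ, h⟩ := h
  intro x hx y hy hxy
  have := (h x hx y hy hxy.le).1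
  nlinarith

theorem IncOn.continuousOn {σ : ℝ → ℝ} {s : Set ℝ} (h : IncOn σ s) : ContinuousOn σ s := by
  obtain ⟨θ, K, hθ, h⟩ := h
  refine (LipschitzOnWith.of_le_add_mul' (max K 0) fun x hx y hy => ?_).continuousOn
  rw [Real.dist_eq]
  have k1 := le_max_left K 0
  have k2 := le_max_right K 0
  rcases le_total x y with hxy | hxy
  · have := (h x hx y hy hxy).1
    have := mul_nonneg k2 (abs_nonneg (x - y))
    nlinarith
  · have := (h y hy x hx hxy).2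
    rw [abs_of_nonneg (by linarith)]
    nlinarith

theorem IncOn.comp {σ τ : ℝ → ℝ} {s t : Set ℝ} (hσ : IncOn σ t) (hτ : IncOn τ s)
    (hm : MapsTo τ s t) : IncOn (fun x => σ (τ x)) s := by
  obtain ⟨θ, K, hθ, h⟩ := hσ
  obtain ⟨θ', K', hθ', h'⟩ := hτ
  refine ⟨θ * θ', max K 0 * K', mul_pos hθ hθ', fun x hx y hy hxy => ?_⟩
  obtain ⟨a1, a2⟩ := h' x hx y hy hxy
  have a3 : τ x ≤ τ y := by nlinarith
  obtain ⟨b1, b2⟩ := h _ (hm hx) _ (hm hy) a3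
  have k1 := le_max_left K 0
  have k2 := le_max_right K 0
  constructor
  · nlinarith [mul_le_mul_of_nonneg_left a1 hθ.le]
  · nlinarith [mul_le_mul_of_nonneg_left a2 k2, mul_le_mul_of_nonneg_right k1 (sub_nonneg.2 a3)]

theorem IncOn.union {σ : ℝ → ℝ} {a b c : ℝ} (h1 : IncOn σ (Icc a b)) (h2 : IncOn σ (Icc b c)) :
    IncOn σ (Icc a c) := by
  obtain ⟨θ, K, hθ, h⟩ := h1
  obtain ⟨θ', K', hθ', h'⟩ := h2
  have g : ∀ x ∈ Icc a b, ∀ y ∈ Icc a b, x ≤ y →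
      min θ θ' * (y - x) ≤ σ y - σ x ∧ σ y - σ x ≤ max K K' * (y - x) := fun x hx y hy hxy =>
    ⟨(mul_le_mul_of_nonneg_right (min_le_left _ _) (sub_nonneg.2 hxy)).trans (h x hx y hy hxy).1,
      (h x hx y hy hxy).2.trans (mul_le_mul_of_nonneg_right (le_max_left _ _) (sub_nonneg.2 hxy))⟩
  have g' : ∀ x ∈ Icc b c, ∀ y ∈ Icc b c, x ≤ y →
      min θ θ' * (y - x) ≤ σ y - σ x ∧ σ y - σ x ≤ max K K' * (y - x) := fun x hx y hy hxy =>
    ⟨(mul_le_mul_of_nonneg_right (min_le_right _ _) (sub_nonneg.2 hxy)).trans (h' x hx y hy hxy).1,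
      (h' x hx y hy hxy).2.trans (mul_le_mul_of_nonneg_right (le_max_right _ _) (sub_nonneg.2 hxy))⟩
  refine ⟨min θ θ', max K K', lt_min hθ hθ', fun x hx y hy hxy => ?_⟩
  rcases le_total y b with hy' | hy'
  · exact g x ⟨hx.1, hxy.trans hy'⟩ y ⟨hy.1, hy'⟩ hxy
  rcases le_total b x with hx' | hx'
  · exact g' x ⟨hx', hx.2⟩ y ⟨hy', hy.2⟩ hxy
  obtain ⟨a1, a2⟩ := g x ⟨hx.1, hx'⟩ b ⟨hx.1.trans hx', le_rfl⟩ hx'
  obtain ⟨b1, b2⟩ := g' b ⟨le_rfl, hy'.trans hy.2⟩ y ⟨hy', hy.2⟩ hy'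
  constructor <;> linarith

theorem incOn_affine {α β : ℝ} (hα : 0 < α) (s : Set ℝ) : IncOn (fun x => α * x + β) s := by
  exact ⟨α, α, hα, fun x _ y _ _ => ⟨by linarith, by linarith⟩⟩

/-- Gluing two increasing bi-Lipschitz maps. -/
theorem r1_glue {f g : ℝ → ℝ} {a b c : ℝ} (hf : IncOn f (Icc a b)) (hg : IncOn g (Icc b c))
    (h : f b = g b) :
    ∃ w, IncOn w (Icc a c) ∧ (∀ t, t ≤ b → w t = f t) ∧ ∀ t, b ≤ t → w t = g t := by
  have e1 : ∀ t, t ≤ b → (if t ≤ b then f t else g t) = f t := fun t ht => if_pos ht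
  have e2 : ∀ t, b ≤ t → (if t ≤ b then f t else g t) = g t := fun t ht => by
    split_ifs with h'
    · rw [le_antisymm h' ht, h]
    · rfl
  exact ⟨fun t => if t ≤ b then f t else g t, (hf.congr fun t ht => (e1 t ht.2).symm).union
    (hg.congr fun t ht => (e2 t ht.1).symm), e1, e2⟩

theorem r1_inc_af {a b : ℝ} (hab : a < b) (s : Set ℝ) : IncOn (af a b) s :=
  (incOn_affine (α := (b - a) / 2) (β := (a + b) / 2) (by linarith) s).congr fun t _ => by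
    simp only [af]
    ring

theorem r1_inc_ia {a b : ℝ} (hab : a < b) (s : Set ℝ) : IncOn (ia a b) s :=
  (incOn_affine (α := 2 / (b - a)) (β := -(2 * a / (b - a)) - 1)
    (div_pos two_pos (by linarith)) s).congr fun t _ => by
    simp only [ia]
    ring

theorem r1_mem_af {a b u : ℝ} (hab : a ≤ b) (hu : u ∈ Icc (-1 : ℝ) 1) : af a b u ∈ Icc a b := by
  obtain ⟨h1, h2⟩ := hu
  unfold af
  constructor <;> nlinarith

theorem r1_mem_ia {a b u : ℝ} (hab : a < b) (hu : u ∈ Icc a b) : ia a b u ∈ Icc (-1 : ℝ) 1 := by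
  obtain ⟨h1, h2⟩ := hu
  have h : 0 < b - a := by linarith
  have a1 : 0 ≤ 2 * (u - a) / (b - a) := div_nonneg (by linarith) h.le
  have a2 : 2 * (u - a) / (b - a) ≤ 2 := (div_le_iff₀ h).2 (by linarith)
  unfold ia
  constructor <;> linarith

theorem IncOn.surj {σ : ℝ → ℝ} {a b : ℝ} (hab : a ≤ b) (h : IncOn σ (Icc a b)) {y : ℝ}
    (hy : y ∈ Icc (σ a) (σ b)) : ∃ x ∈ Icc a b, σ x = y := by
  exact intermediate_value_Icc hab h.continuousOn hy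

theorem IncOn.exists_inv {σ : ℝ → ℝ} (h : IncOn σ univ) :
    ∃ τ, IncOn τ univ ∧ (∀ t, τ (σ t) = t) ∧ ∀ t, σ (τ t) = t := by
  have hs : Function.Surjective σ := by
    intro y
    obtain ⟨θ, K, hθ, h'⟩ := h
    have hR : 0 ≤ |y - σ 0| / θ := by positivity
    have e : θ * (|y - σ 0| / θ) = |y - σ 0| := by field_simp
    have a1 := (h' 0 trivial _ trivial hR).1
    have a2 := (h' (-(|y - σ 0| / θ)) trivial 0 trivial (by linarith)).1
    obtain ⟨x, -, hx⟩ := IncOn.surj (σ := σ) (a := -(|y - σ 0| / θ)) (b := |y - σ 0| / θ)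
      (by linarith) (IncOn.mono ⟨θ, K, hθ, h'⟩ (subset_univ _)) (y := y)
      ⟨by linarith [neg_abs_le (y - σ 0)], by linarith [le_abs_self (y - σ 0)]⟩
    exact ⟨x, hx⟩
  have hm : StrictMono σ := strictMonoOn_univ.1 h.strictMonoOn
  choose τ hτ using hs
  refine ⟨τ, ?_, fun t => hm.injective (hτ _), hτ⟩
  obtain ⟨θ, K, hθ, h'⟩ := h
  have hK : 0 < K := by
    obtain ⟨a1, a2⟩ := h' 0 trivial 1 trivial zero_le_one
    linarith
  refine ⟨K⁻¹, θ⁻¹, inv_pos.2 hK, fun x _ y _ hxy => ?_⟩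
  have a0 : τ x ≤ τ y := hm.le_iff_le.1 (by rwa [hτ, hτ])
  obtain ⟨a1, a2⟩ := h' _ trivial _ trivial a0
  rw [hτ, hτ] at a1 a2
  exact ⟨(inv_mul_le_iff₀ hK).2 a2, (le_inv_mul_iff₀ hθ).2 a1⟩

theorem isLift_add (c : ℝ) : IsLift (fun t => t + c) := by
  exact ⟨⟨1, 1, one_pos, fun x _ y _ _ => ⟨by linarith, by linarith⟩⟩, fun t => by ring⟩

theorem isLift_id : IsLift (fun t => t) := by
  exact ⟨⟨1, 1, one_pos, fun x _ y _ _ => ⟨by linarith, by linarith⟩⟩, fun t => rfl⟩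

theorem IsLift.comp {σ τ : ℝ → ℝ} (hσ : IsLift σ) (hτ : IsLift τ) : IsLift (fun t => σ (τ t)) := by
  exact ⟨hσ.1.comp hτ.1 (mapsTo_univ _ _), fun t => by beta_reduce; rw [hτ.2, hσ.2]⟩

theorem IsLift.inv {σ : ℝ → ℝ} (h : IsLift σ) :
    ∃ τ, IsLift τ ∧ (∀ t, τ (σ t) = t) ∧ ∀ t, σ (τ t) = t := by
  obtain ⟨τ, h1, h2, h3⟩ := h.1.exists_inv
  refine ⟨τ, ⟨h1, fun t => ?_⟩, h2, h3⟩
  have := h2 (τ t + 4)
  rwa [h.2, h3] at this

theorem IsLift.continuous {σ : ℝ → ℝ} (h : IsLift σ) : Continuous σ := by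
  exact continuousOn_univ.1 h.1.continuousOn

theorem IsLift.strictMono {σ : ℝ → ℝ} (h : IsLift σ) : StrictMono σ := by
  exact strictMonoOn_univ.1 h.1.strictMonoOn

theorem IsLift.surjective {σ : ℝ → ℝ} (h : IsLift σ) : Function.Surjective σ := by
  obtain ⟨τ, -, -, h3⟩ := h.1.exists_inv
  exact fun y => ⟨τ y, h3 y⟩

theorem IsLift.add_int {σ : ℝ → ℝ} (h : IsLift σ) (t : ℝ) (k : ℤ) :
    σ (t + 4 * k) = σ t + 4 * k := by
  induction k using Int.induction_on with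
  | zero => simp
  | succ i ih =>
    have := h.2 (t + 4 * (i : ℤ))
    push_cast at this ih ⊢
    rw [show t + 4 * ((i : ℝ) + 1) = t + 4 * i + 4 by ring, this, ih]
    ring
  | pred i ih =>
    have := h.2 (t + 4 * (-(i : ℝ) - 1))
    push_cast at this ih ⊢
    rw [show t + 4 * (-(i : ℝ) - 1) + 4 = t + 4 * -i by ring, ih] at this
    linarith

/-- Periodic extension. -/
theorem exists_lift_ext {σ : ℝ → ℝ} {a : ℝ} (h : IncOn σ (Icc a (a + 4)))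
    (hp : σ (a + 4) = σ a + 4) : ∃ χ, IsLift χ ∧ EqOn χ σ (Icc a (a + 4)) := by
  obtain ⟨θ, K, hθ, h⟩ := h
  have ha : a ∈ Icc a (a + 4) := ⟨le_rfl, by linarith⟩
  have hb : a + 4 ∈ Icc a (a + 4) := ⟨by linarith, le_rfl⟩
  obtain ⟨c1, c2⟩ := h a ha _ hb (by linarith)
  have hr : ∀ t : ℝ, a ≤ t - 4 * ⌊(t - a) / 4⌋ ∧ t - 4 * ⌊(t - a) / 4⌋ < a + 4 := fun t =>
    ⟨by linarith [Int.floor_le ((t - a) / 4)], by linarith [Int.lt_floor_add_one ((t - a) / 4)]⟩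
  refine ⟨fun t => σ (t - 4 * ⌊(t - a) / 4⌋) + 4 * ⌊(t - a) / 4⌋, ⟨⟨θ, K, hθ, fun x _ y _ hxy => ?_⟩,
    fun t => ?_⟩, fun t ht => ?_⟩
  · have hk : ⌊(x - a) / 4⌋ ≤ ⌊(y - a) / 4⌋ := Int.floor_mono (by linarith)
    obtain ⟨x1, x2⟩ := hr x
    obtain ⟨y1, y2⟩ := hr y
    beta_reduce
    generalize ⌊(x - a) / 4⌋ = k at *
    generalize ⌊(y - a) / 4⌋ = l at *
    rcases hk.eq_or_lt with rfl | hlt
    · obtain ⟨a1, a2⟩ := h _ ⟨x1, x2.le⟩ _ ⟨y1, y2.le⟩ (by linarith)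
      constructor <;> linarith
    · have e : (0 : ℝ) ≤ l - k - 1 := by
        have : (0 : ℤ) ≤ l - k - 1 := by omega
        exact_mod_cast this
      obtain ⟨a1, a2⟩ := h _ ⟨x1, x2.le⟩ _ hb x2.le
      obtain ⟨b1, b2⟩ := h _ ha _ ⟨y1, y2.le⟩ y1
      have d1 : θ * (l - k - 1) ≤ 1 * (l - k - 1) := mul_le_mul_of_nonneg_right (by linarith) e
      have d2 : 1 * (l - k - 1) ≤ K * (l - k - 1) := mul_le_mul_of_nonneg_right (by linarith) e
      constructor <;> linarith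
  · have e : ⌊(t + 4 - a) / 4⌋ = ⌊(t - a) / 4⌋ + 1 := by
      rw [← Int.floor_add_one]
      congr 1
      ring
    beta_reduce
    rw [e]
    push_cast
    rw [show t + 4 - 4 * ((⌊(t - a) / 4⌋ : ℝ) + 1) = t - 4 * ⌊(t - a) / 4⌋ by ring]
    ring
  · beta_reduce
    rcases ht.2.eq_or_lt with rfl | hlt
    · have e : ⌊(a + 4 - a) / 4⌋ = 1 := by
        rw [Int.floor_eq_iff]
        constructor <;> push_cast <;> linarith
      rw [e, hp]
      simp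
    · have e : ⌊(t - a) / 4⌋ = 0 := by
        rw [Int.floor_eq_iff]
        constructor <;> push_cast <;> linarith [ht.1]
      rw [e]
      simp

/-- A lift with prescribed behaviour on the right and on the left side. -/
theorem exists_lift_two {u v : ℝ → ℝ} (hu : IncOn u (Icc 1 2)) (hv : IncOn v (Icc 3 4))
    (h1 : u 2 < v 3) (h2 : v 4 < u 1 + 4) :
    ∃ χ, IsLift χ ∧ EqOn χ u (Icc 1 2) ∧ EqOn χ v (Icc 3 4) := by
  obtain ⟨f, f1, f2, f3⟩ := r1_glue hu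
    (incOn_affine (α := v 3 - u 2) (β := u 2 - 2 * (v 3 - u 2)) (by linarith) (Icc 2 3)) (by ring)
  obtain ⟨g, g1, g2, g3⟩ := r1_glue f1 hv (by rw [f3 _ (by norm_num)]; ring)
  obtain ⟨w, w1, w2, w3⟩ := r1_glue g1 (incOn_affine (α := u 1 + 4 - v 4)
    (β := v 4 - 4 * (u 1 + 4 - v 4)) (by linarith) (Icc 4 (1 + 4)))
    (by rw [g3 _ (by norm_num)]; ring)
  obtain ⟨χ, h3, h4⟩ := exists_lift_ext w1 (by
    rw [w3 _ (by norm_num), w2 1 (by norm_num), g2 1 (by norm_num), f2 1 (by norm_num)]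
    ring)
  refine ⟨χ, h3, fun t ht => ?_, fun t ht => ?_⟩
  · obtain ⟨t1, t2⟩ := ht
    rw [h4 ⟨t1, by linarith⟩, w2 t (by linarith), g2 t (by linarith), f2 t t2]
  · obtain ⟨t1, t2⟩ := ht
    rw [h4 ⟨by linarith, by linarith⟩, w2 t t2, g3 t t1]

/-- A corner preserving lift made of four side parametrisations. -/
theorem exists_lift_four {σ0 σ1 σ2 σ3 : ℝ → ℝ} (h0 : Par σ0) (h1 : Par σ1) (h2 : Par σ2)
    (h3 : Par σ3) : ∃ χ, IsLift χ ∧ ∀ u ∈ Icc (-1 : ℝ) 1,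
      χ ((u + 1) / 2) = (σ0 u + 1) / 2 ∧ χ (1 + (u + 1) / 2) = 1 + (σ1 u + 1) / 2 ∧
      χ (2 + (u + 1) / 2) = 2 + (σ2 u + 1) / 2 ∧ χ (3 + (u + 1) / 2) = 3 + (σ3 u + 1) / 2 := by
  have key : ∀ {σ : ℝ → ℝ} (_ : Par σ) (i j : ℝ), j = i + 1 →
      IncOn (fun t => i + (σ (2 * (t - i) - 1) + 1) / 2) (Icc i j) := by
    rintro σ h i _ rfl
    refine ((incOn_affine (α := 1 / 2) (β := i + 1 / 2) (by norm_num) univ).comp
      (h.1.comp (incOn_affine (α := 2) (β := -2 * i - 1) two_pos (Icc i (i + 1)))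
        fun t ht => ⟨by linarith [ht.1], by linarith [ht.2]⟩) (mapsTo_univ _ _)).congr fun t _ => ?_
    beta_reduce
    rw [show 2 * t + (-2 * i - 1) = 2 * (t - i) - 1 by ring]
    ring
  obtain ⟨f, f1, f2, f3⟩ := r1_glue (key h0 0 1 (by norm_num)) (key h1 1 2 (by norm_num))
    (by norm_num [h0.2.2, h1.2.1])
  obtain ⟨g, g1, g2, g3⟩ := r1_glue f1 (key h2 2 3 (by norm_num))
    (by rw [f3 _ (by norm_num)]; norm_num [h1.2.2, h2.2.1])
  obtain ⟨w, w1, w2, w3⟩ := r1_glue g1 (key h3 3 (0 + 4) (by norm_num))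
    (by rw [g3 _ (by norm_num)]; norm_num [h2.2.2, h3.2.1])
  obtain ⟨χ, h4, h5⟩ := exists_lift_ext w1 (by
    rw [w3 _ (by norm_num), w2 0 (by norm_num), g2 0 (by norm_num), f2 0 (by norm_num)]
    norm_num [h3.2.2, h0.2.1])
  refine ⟨χ, h4, fun u hu => ?_⟩
  obtain ⟨u1, u2⟩ := hu
  refine ⟨?_, ?_, ?_, ?_⟩
  · rw [h5 ⟨by linarith, by linarith⟩, w2 _ (by linarith), g2 _ (by linarith), f2 _ (by linarith),
      show 2 * ((u + 1) / 2 - 0) - 1 = u by ring, zero_add]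
  · rw [h5 ⟨by linarith, by linarith⟩, w2 _ (by linarith), g2 _ (by linarith), f3 _ (by linarith),
      show 2 * (1 + (u + 1) / 2 - 1) - 1 = u by ring]
  · rw [h5 ⟨by linarith, by linarith⟩, w2 _ (by linarith), g3 _ (by linarith),
      show 2 * (2 + (u + 1) / 2 - 2) - 1 = u by ring]
  · rw [h5 ⟨by linarith, by linarith⟩, w3 _ (by linarith),
      show 2 * (3 + (u + 1) / 2 - 3) - 1 = u by ring]

theorem Par.mem {σ : ℝ → ℝ} (h : Par σ) {u : ℝ} (hu : u ∈ Icc (-1 : ℝ) 1) :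
    σ u ∈ Icc (-1 : ℝ) 1 := by
  have hm := h.1.strictMonoOn.monotoneOn
  have a1 := hm (left_mem_Icc.2 (by norm_num)) hu hu.1
  have a2 := hm hu (right_mem_Icc.2 (by norm_num)) hu.2
  rw [h.2.1] at a1
  rw [h.2.2] at a2
  exact ⟨a1, a2⟩

theorem Par.surj {σ : ℝ → ℝ} (h : Par σ) {y : ℝ} (hy : y ∈ Icc (-1 : ℝ) 1) :
    ∃ u ∈ Icc (-1 : ℝ) 1, σ u = y := by
  exact h.1.surj (by norm_num) (by rwa [h.2.1, h.2.2])

theorem Par.rv {σ : ℝ → ℝ} (h : Par σ) : Par (rv σ) := by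
  obtain ⟨⟨θ, K, hθ, h1⟩, h2, h3⟩ := h
  refine ⟨⟨θ, K, hθ, fun x hx y hy hxy => ?_⟩, ?_, ?_⟩
  · obtain ⟨a1, a2⟩ := h1 (-y) ⟨by linarith [hy.2], by linarith [hy.1]⟩ (-x)
      ⟨by linarith [hx.2], by linarith [hx.1]⟩ (by linarith)
    unfold MP_ecd4e3_gt.rv
    constructor <;> linarith
  · simp [MP_ecd4e3_gt.rv, h3]
  · simp [MP_ecd4e3_gt.rv, h2]

theorem Par.rs {σ : ℝ → ℝ} (h : Par σ) {a b c d : ℝ} (ha : -1 ≤ a) (hab : a < b) (hb : b ≤ 1)
    (hc : σ a = c) (hd : σ b = d) : Par (rs a b c d σ) := by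
  have hcd : c < d := hc ▸ hd ▸ h.1.strictMonoOn ⟨ha, by linarith⟩ ⟨by linarith, hb⟩ hab
  refine ⟨(r1_inc_ia hcd univ).comp (h.1.comp (r1_inc_af hab _) fun u hu => ?_) (mapsTo_univ _ _),
    ?_, ?_⟩
  · exact Icc_subset_Icc ha hb (r1_mem_af hab.le hu)
  · simp [MP_ecd4e3_gt.rs, af, ia, hc]
  · have : d - c ≠ 0 := by linarith
    simp only [MP_ecd4e3_gt.rs, af, ia]
    rw [show a + (1 + 1) / 2 * (b - a) = b by ring, hd]
    field_simp
    ring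

theorem DomOn.mono {U : Set P} {m : ℝ → P} {T : ℝ → ℝ} {a b c d : ℝ} (h : DomOn U m T a b)
    (hc : a ≤ c) (hd : d ≤ b) : DomOn U m T c d := by
  exact ⟨h.1.mono (Icc_subset_Icc hc hd), fun t ht hU => (h.2 t (Icc_subset_Icc hc hd ht) hU).filter_mono
    (nhdsWithin_mono _ (Icc_subset_Icc hc hd))⟩

theorem DomOn.congr {U : Set P} {m m' : ℝ → P} {T T' : ℝ → ℝ} {a b : ℝ} (h : DomOn U m T a b)
    (hm : EqOn m m' (Icc a b)) (hT : EqOn T T' (Icc a b)) : DomOn U m' T' a b := by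
  refine ⟨h.1.congr hT, fun t ht hU => ?_⟩
  filter_upwards [h.2 t ht (hm ht ▸ hU), self_mem_nhdsWithin] with t' h1 h2
  rwa [← hm ht, ← hm h2, ← hT ht, ← hT h2]

/-- A function with larger increments also dominates. -/
theorem DomOn.of_le {U : Set P} {m : ℝ → P} {T T' : ℝ → ℝ} {a b : ℝ} (h : DomOn U m T a b)
    (hT : ∀ s ∈ Icc a b, ∀ t ∈ Icc a b, s ≤ t → T t - T s ≤ T' t - T' s) : DomOn U m T' a b := by
  refine ⟨fun s hs t ht hst => by linarith [hT s hs t ht hst, h.1 hs ht hst], fun t ht hU => ?_⟩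
  filter_upwards [h.2 t ht hU, self_mem_nhdsWithin] with t' h1 h2
  refine h1.trans ?_
  rcases le_total t t' with e | e
  · have a1 := hT t ht t' h2 e
    have a2 := h.1 ht h2 e
    rw [abs_of_nonneg (by linarith)]
    exact a1.trans (le_abs_self _)
  · have a1 := hT t' h2 t ht e
    have a2 := h.1 h2 ht e
    rw [abs_of_nonpos (by linarith)]
    linarith [neg_abs_le (T' t' - T' t)]

theorem DomOn.union {U : Set P} {m : ℝ → P} {T : ℝ → ℝ} {a b c : ℝ} (hab : a ≤ b) (hbc : b ≤ c)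
    (h1 : DomOn U m T a b) (h2 : DomOn U m T b c) : DomOn U m T a c := by
  have key : ∀ {x y : ℝ}, DomOn U m T x y → ∀ t, m t ∈ U →
      ∀ᶠ t' in 𝓝[Icc x y] t, dist (m t') (m t) ≤ |T t' - T t| := fun {x y} h t hU => by
    by_cases ht : t ∈ Icc x y
    · exact h.2 t ht hU
    · rw [← closure_Icc, notMem_closure_iff_nhdsWithin_eq_bot] at ht
      rw [ht]
      exact eventually_bot
  refine ⟨fun x hx y hy hxy => ?_, fun t _ hU => ?_⟩
  · rcases le_total y b with hy' | hy'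
    · exact h1.1 ⟨hx.1, hxy.trans hy'⟩ ⟨hy.1, hy'⟩ hxy
    rcases le_total b x with hx' | hx'
    · exact h2.1 ⟨hx', hx.2⟩ ⟨hy', hy.2⟩ hxy
    exact (h1.1 ⟨hx.1, hx'⟩ ⟨hab, le_rfl⟩ hx').trans (h2.1 ⟨le_rfl, hbc⟩ ⟨hy', hy.2⟩ hy')
  · rw [← Icc_union_Icc_eq_Icc hab hbc, nhdsWithin_union, eventually_sup]
    exact ⟨key h1 t hU, key h2 t hU⟩

theorem DomOn.comp {U : Set P} {m : ℝ → P} {T α : ℝ → ℝ} {a b c d : ℝ} (h : DomOn U m T c d)
    (hc : ContinuousOn α (Icc a b)) (hm : MonotoneOn α (Icc a b))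
    (hmap : MapsTo α (Icc a b) (Icc c d)) :
    DomOn U (fun t => m (α t)) (fun t => T (α t)) a b := by
  exact ⟨fun x hx y hy hxy => h.1 (hmap hx) (hmap hy) (hm hx hy hxy), fun t ht hU =>
    ((hc t ht).tendsto_nhdsWithin hmap).eventually (h.2 _ (hmap ht) hU)⟩

theorem DomOn.comp_anti {U : Set P} {m : ℝ → P} {T α : ℝ → ℝ} {a b c d : ℝ} (h : DomOn U m T c d)
    (hc : ContinuousOn α (Icc a b)) (hm : AntitoneOn α (Icc a b))
    (hmap : MapsTo α (Icc a b) (Icc c d)) :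
    DomOn U (fun t => m (α t)) (fun t => -T (α t)) a b := by
  refine ⟨fun x hx y hy hxy => neg_le_neg (h.1 (hmap hy) (hmap hx) (hm hx hy hxy)), fun t ht hU => ?_⟩
  filter_upwards [((hc t ht).tendsto_nhdsWithin hmap).eventually (h.2 _ (hmap ht) hU)] with t' h1
  rwa [← neg_sub', abs_neg]

theorem Tr.le {U : Set P} {m : ℝ → P} {a b τ τ' : ℝ} (h : Tr U m a b τ) (hτ : τ ≤ τ') :
    Tr U m a b τ' := by
  obtain ⟨T, h1, h2⟩ := h
  exact ⟨T, h1, h2.trans hτ⟩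

theorem Tr.sub {U : Set P} {m : ℝ → P} {a b c d τ : ℝ} (h : Tr U m a b τ) (hc : a ≤ c)
    (hcd : c ≤ d) (hd : d ≤ b) : Tr U m c d τ := by
  obtain ⟨T, h1, h2⟩ := h
  have a1 := h1.1 ⟨le_rfl, by linarith⟩ ⟨hc, by linarith⟩ hc
  have a2 := h1.1 ⟨by linarith, hd⟩ ⟨by linarith, le_rfl⟩ hd
  exact ⟨T, h1.mono hc hd, by linarith⟩

theorem Tr.congr {U : Set P} {m m' : ℝ → P} {a b τ : ℝ} (h : Tr U m a b τ)
    (hm : EqOn m m' (Icc a b)) : Tr U m' a b τ := by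
  obtain ⟨T, h1, h2⟩ := h
  exact ⟨T, h1.congr hm fun _ _ => rfl, h2⟩

theorem Tr.add {U : Set P} {m : ℝ → P} {a b c τ1 τ2 : ℝ} (hab : a ≤ b) (hbc : b ≤ c)
    (h1 : Tr U m a b τ1) (h2 : Tr U m b c τ2) : Tr U m a c (τ1 + τ2) := by
  obtain ⟨T, h1, g1⟩ := h1
  obtain ⟨S, h2, g2⟩ := h2
  have e1 : ∀ t, t ≤ b → (if t ≤ b then T t else S t - S b + T b) = T t := fun t ht => if_pos ht
  have e2 : ∀ t, b ≤ t → (if t ≤ b then T t else S t - S b + T b) = S t - S b + T b := fun t ht => by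
    split_ifs with h
    · rw [le_antisymm h ht]
      ring
    · rfl
  refine ⟨fun t => if t ≤ b then T t else S t - S b + T b, DomOn.union hab hbc
    (h1.congr (fun _ _ => rfl) fun t ht => (e1 t ht.2).symm)
    (h2.of_le fun s hs t ht _ => ?_), ?_⟩
  · rw [e2 s hs.1, e2 t ht.1]
    linarith
  · beta_reduce
    rw [e1 a hab, e2 c hbc]
    linarith

theorem Tr.comp {U : Set P} {m : ℝ → P} {α : ℝ → ℝ} {a b c d τ : ℝ} (h : Tr U m c d τ)
    (hab : a ≤ b) (hc : ContinuousOn α (Icc a b)) (hm : MonotoneOn α (Icc a b))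
    (hmap : MapsTo α (Icc a b) (Icc c d)) : Tr U (fun t => m (α t)) a b τ := by
  obtain ⟨T, h1, h2⟩ := h
  have ha := hmap (left_mem_Icc.2 hab)
  have hb := hmap (right_mem_Icc.2 hab)
  have a1 := h1.1 ⟨le_rfl, ha.1.trans ha.2⟩ ha ha.1
  have a2 := h1.1 hb ⟨ha.1.trans ha.2, le_rfl⟩ hb.2
  exact ⟨_, h1.comp hc hm hmap, by linarith⟩

theorem Tr.comp_anti {U : Set P} {m : ℝ → P} {α : ℝ → ℝ} {a b c d τ : ℝ} (h : Tr U m c d τ)
    (hab : a ≤ b) (hc : ContinuousOn α (Icc a b)) (hm : AntitoneOn α (Icc a b))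
    (hmap : MapsTo α (Icc a b) (Icc c d)) : Tr U (fun t => m (α t)) a b τ := by
  obtain ⟨T, h1, h2⟩ := h
  have ha := hmap (left_mem_Icc.2 hab)
  have hb := hmap (right_mem_Icc.2 hab)
  have a1 := h1.1 ⟨le_rfl, ha.1.trans ha.2⟩ hb hb.1
  have a2 := h1.1 ha ⟨ha.1.trans ha.2, le_rfl⟩ ha.2
  exact ⟨_, h1.comp_anti hc hm hmap, by linarith⟩

/-- The minimal dominating function of a Lipschitz curve. -/
theorem exists_min {U : Set P} (hU : IsOpen U) {m : ℝ → P} {K : ℝ}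
    (hm : ∀ t t', dist (m t) (m t') ≤ K * |t - t'|) :
    ∃ T : ℝ → ℝ, Monotone T ∧ (∀ a b, a ≤ b → T b - T a ≤ K * (b - a)) ∧
      (∀ t, m t ∈ U → ∀ᶠ t' in 𝓝 t, dist (m t') (m t) ≤ |T t' - T t|) ∧
      ∀ a b S, a ≤ b → DomOn U m S a b → T b - T a ≤ S b - S a := by
  have hK : 0 ≤ K := by
    have := hm 1 0
    simp only [sub_zero, abs_one, mul_one] at this
    exact dist_nonneg.trans this
  have t0 : ∀ a b, Tr U m a b (K * (b - a)) := fun a b =>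
    ⟨fun t => K * t, ⟨fun x _ y _ hxy => mul_le_mul_of_nonneg_left hxy hK, fun t _ _ =>
      Eventually.of_forall fun t' => by
        rw [← mul_sub, abs_mul, abs_of_nonneg hK]
        exact hm _ _⟩, by beta_reduce; linarith⟩
  have t1 : ∀ a b, a ≤ b → ∀ τ, Tr U m a b τ → 0 ≤ τ := by
    rintro a b hab τ ⟨T, h1, h2⟩
    linarith [h1.1 (left_mem_Icc.2 hab) (right_mem_Icc.2 hab) hab]
  obtain ⟨V, v1, v2⟩ : ∃ V : ℝ → ℝ → ℝ, (∀ a b, a ≤ b → ∀ τ, Tr U m a b τ → V a b ≤ τ) ∧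
      ∀ a b x, (∀ τ, Tr U m a b τ → x ≤ τ) → x ≤ V a b :=
    ⟨fun a b => sInf {τ | Tr U m a b τ}, fun a b hab τ h => csInf_le ⟨0, t1 a b hab⟩ h,
      fun a b x h => le_csInf ⟨_, t0 a b⟩ h⟩
  have v3 : ∀ a b c, a ≤ b → b ≤ c → V a c = V a b + V b c := fun a b c hab hbc => by
    refine le_antisymm ?_ (v2 _ _ _ ?_)
    · have : V a c - V a b ≤ V b c := v2 _ _ _ fun τ2 h2 => by
        have : V a c - τ2 ≤ V a b := v2 _ _ _ fun τ1 h1 => by
          linarith [v1 a c (hab.trans hbc) _ (h1.add hab hbc h2)]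
        linarith
      linarith
    · rintro τ ⟨T, h1, h2⟩
      linarith [v1 a b hab _ ⟨T, h1.mono le_rfl hbc, le_rfl⟩,
        v1 b c hbc _ ⟨T, h1.mono hab le_rfl, le_rfl⟩]
  obtain ⟨T, hT⟩ : ∃ T : ℝ → ℝ, ∀ a b, a ≤ b → T b - T a = V a b := by
    refine ⟨fun t => if 0 ≤ t then V 0 t else -V t 0, fun a b hab => ?_⟩
    beta_reduce
    split_ifs with h1 h2 h2
    · linarith [v3 0 a b h2 hab]
    · linarith [v3 a 0 b (not_le.1 h2).le h1]
    · exact absurd (h2.trans hab) h1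
    · linarith [v3 a b 0 hab (not_le.1 h1).le]
  have hmono : Monotone T := fun a b hab => by
    linarith [hT a b hab, v2 a b 0 (t1 a b hab)]
  have v4 : ∀ a b, a ≤ b → (∀ t ∈ Icc a b, m t ∈ U) → dist (m b) (m a) ≤ T b - T a :=
    fun a b hab h => by
    rw [hT a b hab]
    refine v2 _ _ _ ?_
    rintro τ ⟨S, h1, h2⟩
    exact (chain_le hab h1.1 fun t ht => h1.2 t ht (h t ht)).trans h2
  have hc : Continuous m := (LipschitzWith.of_dist_le' (K := K) fun x y => hm x y).continuous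
  refine ⟨T, hmono, fun a b hab => hT a b hab ▸ v1 a b hab _ (t0 a b), fun t ht => ?_,
    fun a b S hab h => hT a b hab ▸ v1 a b hab _ ⟨S, h, le_rfl⟩⟩
  obtain ⟨l, u, h1, h2⟩ := mem_nhds_iff_exists_Ioo_subset.1 ((hU.preimage hc).mem_nhds ht)
  filter_upwards [Ioo_mem_nhds h1.1 h1.2] with t' h3
  rcases le_total t t' with e | e
  · exact (v4 t t' e fun s hs => h2 ⟨h1.1.trans_le hs.1, hs.2.trans_lt h3.2⟩).trans (le_abs_self _)
  · rw [dist_comm, abs_sub_comm]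
    exact (v4 t' t e fun s hs => h2 ⟨h3.1.trans_le hs.1, hs.2.trans_lt h1.2⟩).trans (le_abs_self _)

/-- The minimal dominating function on an interval. -/
theorem exists_min_on {U : Set P} (hU : IsOpen U) {m : ℝ → P} {a b : ℝ} (hab : a ≤ b)
    (hm : LipC m a b) :
    ∃ (T : ℝ → ℝ) (K : ℝ), Monotone T ∧ (∀ s t, s ≤ t → T t - T s ≤ K * (t - s)) ∧
      DomOn U m T a b ∧
      ∀ c d S, a ≤ c → c ≤ d → d ≤ b → DomOn U m S c d → T d - T c ≤ S d - S c := by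
  obtain ⟨K, hK⟩ := hm
  have c1 : ∀ t, cl a b t ∈ Icc a b := fun t => ⟨le_max_left _ _, max_le hab (min_le_left _ _)⟩
  have c2 : ∀ t ∈ Icc a b, cl a b t = t := fun t ht => by
    rw [cl, min_eq_right ht.2, max_eq_right ht.1]
  have c3 : ∀ t t', |cl a b t - cl a b t'| ≤ |t - t'| := fun t t' => by
    refine (abs_max_sub_max_le_max _ _ _ _).trans (max_le (by simp) ?_)
    exact (abs_min_sub_min_le_max _ _ _ _).trans (max_le (by simp) le_rfl)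
  obtain ⟨T, h1, h2, h3, h4⟩ := exists_min hU (m := fun t => m (cl a b t)) (K := max K 0)
    fun t t' => (hK _ (c1 t) _ (c1 t')).trans (mul_le_mul (le_max_left _ _) (c3 t t')
      (abs_nonneg _) (le_max_right _ _))
  refine ⟨T, _, h1, h2, ⟨h1.monotoneOn _, fun t ht hU => ?_⟩, fun c d S hc hcd hd h =>
    h4 c d S hcd (h.congr (fun t ht => ?_) fun _ _ => rfl)⟩
  · filter_upwards [nhdsWithin_le_nhds (h3 t (by rwa [c2 t ht])), self_mem_nhdsWithin] with t' a1 a2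
    rwa [c2 t ht, c2 t' a2] at a1
  · rw [c2 t (Icc_subset_Icc hc hd ht)]

end Pool.Agent.Lib.MP_ecd4e3_gt
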