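import Pool.Agent.Lib.MP_ecd4e3_gt.Lists
import Pool.Agent.Lib.MP_ecd4e3_gt.Num

/-! The refinement step for a heavy cell. -/

namespace Pool.Agent.Lib.MP_ecd4e3_gt

open Set Filter Topology

theorem sqrt_near {W0 Y : ℝ} (hY : Y ≤ W0) (h0 : 0 ≤ W0) :
    √W0 ≤ 11 / 10 * √(W0 - Y / 10 ^ 33) := by
  have h1 : W0 ≤ (11 / 10) ^ 2 * (W0 - Y / 10 ^ 33) := by linarith
  have h2 := Real.sqrt_le_sqrt h1
  rwa [Real.sqrt_mul (by positivity), Real.sqrt_sq (by norm_num)] at h2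

theorem refine_go {E : Env} {Λ : P → P} {l1 l2 : List It} {b : It} {m : ℕ} (hm : b.m = m + 1)
    (hc : Chain E Λ (-1) 1 (l1 ++ b :: l2)) (ho : ∀ i ∈ l1 ++ b :: l2, Ok E i)
    (ih : ∀ l, l ≠ [] → (∀ i ∈ l, Ok E i) → ms l < ms (l1 ++ b :: l2) → E.HC l)
    {R : Box} (hR : R.Valid) {W0 : ℝ}
    (hsz : √W0 + BB * (E.ts l1 + E.ts l2) - 1000 * ta (m + 1) (E.nu b.F) ≤ R.sz)
    (hτ : BB * (E.ts l1 + E.ts l2) ≤ √W0 / 2) (hlo : C0 * E.nu b.F ≤ W0)
    (hhi : W0 ≤ 4 * C0 * E.nu b.F) (hS : E.Sl l1 + E.Sr l2 ≤ 31 / 100 * W0)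
    (hcase : (d0 * E.nu b.F ≤ |E.nu b.F.left - E.nu b.F.right| ∧
        E.Sl l1 + E.Sr l2 + cr (m + 1) (E.nu b.F) + k2 * C0 * (E.xs l1 + E.xs l2) * R.phi ≤ W0) ∨
      (|E.nu b.F.left - E.nu b.F.right| ≤ d0 * E.nu b.F ∧ ∃ e : ℝ, 0 ≤ e ∧
        E.Sl l1 + E.Sr l2 + cr (m + 1) (E.nu b.F)
          + (1 + ne l1 + ne l2) * (k1 * C0 * xx (m + 1) (E.nu b.F))
          + k2 * C0 * (E.xs l1 + E.xs l2 + xx (m + 1) (E.nu b.F)) * R.phi + e ≤ W0 ∧
        C0 * xx (m + 1) (E.nu b.F) / 10 ^ 33 ≤ e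
          + (ne l1 + ne l2) * (k1 * C0 * xx (m + 1) (E.nu b.F)) / 4
          + k2 * C0 * xx (m + 1) (E.nu b.F) * R.drop)) :
    EC E.U Λ R := by
  obtain ⟨i1, i2, Λ', o1, o2, m1, m2, e1, e2, hc', hz⟩ := refine_chain hc ho hm
  have ob : Ok E b := ho b (by simp)
  have ol1 : ∀ i ∈ l1, Ok E i := fun i hi => ho i (by simp [hi])
  have ol2 : ∀ i ∈ l2, Ok E i := fun i hi => ho i (by simp [hi])
  obtain ⟨hν, hν'⟩ := Env.ok_nu ob
  obtain ⟨pa, pa'⟩ := Env.ok_nu o1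
  obtain ⟨pb, pb'⟩ := Env.ok_nu o2
  have hsum : E.nu b.F = E.nu b.F.left + E.nu b.F.right :=
    (E.half m b.F (hm ▸ ob.1) ob.2.1).2.2
  rw [hm] at hν'
  rw [e1, m1] at pa'
  rw [e2, m2] at pb'
  rw [e1] at pa
  rw [e2] at pb
  generalize ha : E.nu b.F.left = a at *
  generalize hb : E.nu b.F.right = c at *
  generalize hn : E.nu b.F = ν at *
  subst hsum
  obtain ⟨t1, t2⟩ := ta_child m pa pb
  have g1 := xx_gain m pa pb
  have g2 := xx_sum_le m pa pb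
  obtain ⟨c1, c2, c3, c4, c5, -⟩ := cr_bd (m + 1) hν hν'
  obtain ⟨-, -, a3, -, a5, -⟩ := cr_bd m pa pa'
  obtain ⟨-, -, b3, -, b5, -⟩ := cr_bd m pb pb'
  obtain ⟨-, -, ba⟩ := base_bd m pa pa'
  obtain ⟨-, -, bb⟩ := base_bd m pb pb'
  have hC := C0_pos
  have hCν := mul_pos hC hν
  have sm := ta_small (W := W0) hν hν' (by linarith only [hCν, hlo])
  obtain ⟨x1, τ1, cr1, cr1', -, -, -, -, -⟩ := Env.cred_bd ol1
  obtain ⟨x2, τ2, cr2, -, cr2', -, -, -, -⟩ := Env.cred_bd ol2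
  obtain ⟨n1, n1'⟩ := ne_bd l1
  obtain ⟨n2, n2'⟩ := ne_bd l2
  obtain ⟨ph0, ph1⟩ := hR.phi_bd
  have hBτ : 0 ≤ BB * (E.ts l1 + E.ts l2) := mul_nonneg BB_pos.le (add_nonneg τ1 τ2)
  have hs2 : 2000 * ta m a ≤ R.sz := by linarith only [hsz, hBτ, sm, t1, c5]
  refine hz R hR hs2 ?_
  obtain ⟨v', s', p', d'⟩ := hR.shr (d := 1000 * ta m a) (by positivity) (by linarith only [hs2])
  have hYW : C0 * xx (m + 1) (a + c) ≤ W0 :=
    le_trans (mul_le_mul_of_nonneg_left c4 hC.le) hlo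
  have hYp := mul_pos hC c3
  have n3 := num3 (m + 1) (W := W0) (W' := W0 - C0 * xx (m + 1) (a + c) / 10 ^ 33) hν hhi
    (by linarith only [hYW, hYp]) le_rfl
  have hts : E.ts (l1 ++ i1 :: i2 :: l2) = E.ts l1 + E.ts l2 + ta m a + ta m c := by
    rw [E.ts_append, E.ts_cons, E.ts_cons, m1, m2, e1, e2]; ring
  have hxs : E.xs (l1 ++ i1 :: i2 :: l2) = E.xs l1 + E.xs l2 + xx m a + xx m c := by
    rw [E.xs_append, E.xs_cons, E.xs_cons, m1, m2, e1, e2]; ring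
  have key : √(W0 - C0 * xx (m + 1) (a + c) / 10 ^ 33)
      + BB * (E.ts l1 + E.ts l2 + ta m a + ta m c) ≤ (R.shr (1000 * ta m a)).sz := by
    rw [s']
    rw [hBB] at n3 hsz ⊢
    linarith only [n3, hsz, t1, t2, c5]
  have o' : ∀ i ∈ l1 ++ i1 :: i2 :: l2, Ok E i := by
    intro i hi
    simp only [List.mem_append, List.mem_cons] at hi
    rcases hi with hi | rfl | rfl | hi
    exacts [ol1 i hi, o1, o2, ol2 i hi]
  have hms : ms (l1 ++ i1 :: i2 :: l2) < ms (l1 ++ b :: l2) := by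
    rw [ms_append, ms_append, ms_cons, ms_cons, ms_cons, m1, m2, hm, pow_succ]
    have : 0 < 4 ^ m := by positivity
    omega
  have hcr : cr m a + cr m c =
      cr (m + 1) (a + c) - C0 * (xx m a + xx m c - xx (m + 1) (a + c)) := by
    simp only [cr]; ring
  have hsp : l1 ++ i1 :: i2 :: l2 = (l1 ++ [i1]) ++ (i2 :: l2) := by simp
  rcases hcase with ⟨hd, hw⟩ | ⟨hd, e, he, hw, hp⟩
  · refine ih _ (by simp) o' hms Λ' _ hc' v' (fun h => by simp at h; omega) ?_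
    unfold Env.need
    rw [hts, hxs, p']
    refine le_trans ?_ key
    refine add_le_add_left (Real.sqrt_le_sqrt ?_) _
    rw [hsp, E.Cr_append (by simp) (by simp), E.Sl_snoc, E.Sr_cons, m1, m2, e1, e2]
    have q1 := ba (1 + ne l1) (by linarith only [n1]) (by linarith only [n1'])
    have q2 := bb (1 + ne l2) (by linarith only [n2]) (by linarith only [n2'])
    have := imb_num hC c3 a3 b3 n1' n2' q1 q2 hcr g1 g2 (sq_gap hν hd) ph1 hw
    linarith only [this]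
  · rw [hsp] at hc' o' hms
    have o1' : ∀ i ∈ l1 ++ [i1], Ok E i := fun i hi => o' i (List.mem_append_left _ hi)
    have o2' : ∀ i ∈ i2 :: l2, Ok E i := fun i hi => o' i (List.mem_append_right _ hi)
    have z1 := ms_pos (l := l1 ++ [i1]) (by simp)
    have z2 := ms_pos (l := i2 :: l2) (by simp)
    rw [ms_append (l1 ++ [i1])] at hms
    refine cut_lists (by simp) (by simp) hc' o' (ih _ (by simp) o1' (by omega))
      (ih _ (by simp) o2' (by omega)) v' ?_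
    intro φ1 φ2 f1 f1' f2 f2' hφ
    obtain ⟨y1, u1, w1, -⟩ := Env.cred_bd o1'
    obtain ⟨y2, u2, w2, -⟩ := Env.cred_bd o2'
    have hX1 : E.xs (l1 ++ [i1]) = E.xs l1 + xx m a := by
      rw [E.xs_append, E.xs_cons, E.xs_nil, m1, e1]; ring
    have hX2 : E.xs (i2 :: l2) = E.xs l2 + xx m c := by rw [E.xs_cons, m2, e2]; ring
    have hT : E.ts (l1 ++ [i1]) + E.ts (i2 :: l2) = E.ts l1 + E.ts l2 + ta m a + ta m c := by
      rw [← E.ts_append, ← hsp, hts]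
    have hC1 : E.Cr (l1 ++ [i1]) = E.Sl l1 + (base m a + ne l1 * bonus m a) := by
      rw [E.Cr_split, E.Sr_nil, ne_nil, m1, e1]; ring
    have hC2 : E.Cr (i2 :: l2) = E.Sr l2 + (base m c + ne l2 * bonus m c) := by
      have := E.Cr_split [] l2 i2
      rw [List.nil_append, E.Sl_nil, ne_nil, m2, e2] at this
      rw [this]; ring
    have q1 := ba (ne l1) n1 (by linarith only [n1'])
    have q2 := bb (ne l2) n2 (by linarith only [n2'])
    obtain ⟨bl1, bl2⟩ := xx_bal m pa pb hd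
    have cd' : |cr m a - cr m c| ≤ 2 / 10 ^ 9 * (C0 * (a + c)) := by
      refine (cr_diff m pa pb pa' pb').trans ?_
      have := mul_le_mul_of_nonneg_left hd hC.le
      rw [hd0] at this
      linarith only [this]
    rw [p', d', hX1, hX2] at hφ
    have dr0 : 0 ≤ R.drop := by unfold Box.drop; split_ifs <;> norm_num
    have g1' : xx (m + 1) (a + c) ≤ xx m a + xx m c := by
      have : 0 ≤ xx (m + 1) (a + c) * (((a - c) / (a + c)) ^ 2 / 64) := by positivity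
      linarith only [this, g1]
    obtain ⟨N1, N2, N3⟩ := bal_num hC c3 c4 x1 x2 n1 n1' n2 n2' q1 q2 hcr g1' g2 bl1 bl2 cd' ph0
      ph1 dr0 f1' f2' hφ (cr1.trans cr1') (cr2.trans cr2') hlo hS he hw hp
    have sW := sqrt_near hYW (hYp.le.trans hYW)
    rw [← hC1, ← hX1] at N1 N2
    rw [← hC2, ← hX2] at N1 N3
    have k2p := k2_pos
    refine num1 (τ := E.ts l1 + E.ts l2 + ta m a + ta m c) ?_ ?_ u1 u2 N1 N2 N3 hT.le ?_ key
    · have h1 := mul_nonneg hC.le y1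
      have h2 := mul_nonneg (mul_nonneg (mul_pos k2p hC).le y1) f1
      linarith only [h1, h2, w1]
    · have h1 := mul_nonneg hC.le y2
      have h2 := mul_nonneg (mul_nonneg (mul_pos k2p hC).le y2) f2
      linarith only [h1, h2, w2]
    · rw [hBB] at hτ ⊢
      have := Real.sqrt_nonneg W0
      linarith only [this, hτ, sW, sm, t1, t2]

end Pool.Agent.Lib.MP_ecd4e3_gt
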