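import Pool.Agent.Lib.MP_ecd4e3_gt.BoxG

/-! Polar coordinates on the model square, ring maps, fan maps, polar twists. -/

namespace Pool.Agent.Lib.MP_ecd4e3_gt

open Set Filter Topology

namespace RingAux

theorem norm_pol {s : ℝ} (hs : 0 ≤ s) (t : ℝ) : ‖s • Γ t‖ = s := by
  rw [norm_smul, norm_Γ, mul_one, Real.norm_of_nonneg hs]

theorem exists_pol (p : P) (a : ℝ) : ∃ t ∈ Ico a (a + 4), p = ‖p‖ • Γ t := by
  by_cases hp : p = 0
  · exact ⟨a, ⟨le_rfl, by linarith⟩, by simp [hp]⟩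
  have h0 : ‖p‖ ≠ 0 := norm_ne_zero_iff.2 hp
  obtain ⟨t, ht, h⟩ := exists_Γ (p := ‖p‖⁻¹ • p)
    (by rw [norm_smul, norm_inv, norm_norm, inv_mul_cancel₀ h0]) a
  exact ⟨t, ht, by rw [h, smul_smul, mul_inv_cancel₀ h0, one_smul]⟩

theorem exists_pol' (p : P) (t : ℝ) : ∃ t', |t' - t| ≤ 2 ∧ p = ‖p‖ • Γ t' := by
  obtain ⟨t', ht, h⟩ := exists_pol p (t - 2)
  exact ⟨t', abs_le.2 ⟨by linarith [ht.1], by linarith [ht.2]⟩, h⟩

theorem pol_rad {s s' : ℝ} (hs : 0 ≤ s) (hs' : 0 ≤ s') (t t' : ℝ) :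
    |s' - s| ≤ dist (s' • Γ t') (s • Γ t) := by
  have := abs_norm_sub_norm_le (s' • Γ t') (s • Γ t)
  rwa [norm_pol hs, norm_pol hs', ← dist_eq_norm] at this

theorem dist_ray (s s' t : ℝ) : dist (s' • Γ t) (s • Γ t) = |s' - s| := by
  rw [dist_eq_norm, ← sub_smul, norm_smul, norm_Γ, mul_one, Real.norm_eq_abs]

theorem dist_circ {s : ℝ} (hs : 0 ≤ s) (t t' : ℝ) :
    dist (s • Γ t') (s • Γ t) = s * dist (Γ t') (Γ t) := by
  rw [dist_smul₀, Real.norm_of_nonneg hs]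

theorem pol_ang {s s' t t' : ℝ} (hs : 0 ≤ s) (hs' : 0 ≤ s') (h : |t' - t| ≤ 2) :
    s * |t' - t| ≤ 4 * dist (s' • Γ t') (s • Γ t) := by
  have h1 := mul_le_mul_of_nonneg_left (Γ_low h) hs
  have h2 := dist_triangle (s • Γ t') (s' • Γ t') (s • Γ t)
  rw [dist_circ hs, dist_ray, abs_sub_comm] at h2
  linarith [pol_rad hs hs' t t']

theorem pol_up {s : ℝ} (hs : 0 ≤ s) (s' t t' : ℝ) :
    dist (s' • Γ t') (s • Γ t) ≤ |s' - s| + 2 * (s * |t' - t|) := by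
  have h1 := mul_le_mul_of_nonneg_left (Γ_lip t' t) hs
  have h2 := dist_triangle (s' • Γ t') (s • Γ t') (s • Γ t)
  rw [dist_circ hs, dist_ray] at h2
  linarith

theorem per_int {Y : Type} {F : ℝ → Y} (hF : ∀ t, F (t + 4) = F t) (t : ℝ) (k : ℤ) :
    F (t + 4 * k) = F t := by
  have := Function.Periodic.int_mul (f := F) (c := 4) hF k t
  rwa [mul_comm] at this

theorem fst_le (z z' : P) : |z.1 - z'.1| ≤ dist z z' := by
  rw [Prod.dist_eq, ← Real.dist_eq]; exact le_max_left _ _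

theorem snd_le (z z' : P) : |z.2 - z'.2| ≤ dist z z' := by
  rw [Prod.dist_eq, ← Real.dist_eq]; exact le_max_right _ _

theorem dist_le {z z' : P} {d : ℝ} (h1 : |z.1 - z'.1| ≤ d) (h2 : |z.2 - z'.2| ≤ d) :
    dist z z' ≤ d := by
  rw [Prod.dist_eq, Real.dist_eq, Real.dist_eq]; exact max_le h1 h2

section Cone

variable {γ : ℝ → P} {o : P} {S : Set P} {μ : ℝ}

theorem cone_ray (hF : Fan γ o S μ) (r r' a : ℝ) :
    dist (o + r' • (γ a - o)) (o + r • (γ a - o)) ≤ 25 * μ * |r' - r| := by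
  rw [dist_add_left, dist_eq_norm, ← sub_smul, norm_smul, Real.norm_eq_abs, ← dist_eq_norm,
    mul_comm]
  exact mul_le_mul_of_nonneg_right (hF.bdd a) (abs_nonneg _)

theorem cone_circ {r : ℝ} (hr : 0 ≤ r) (a a' : ℝ) :
    dist (o + r • (γ a' - o)) (o + r • (γ a - o)) = r * dist (γ a') (γ a) := by
  rw [dist_add_left, dist_smul₀, Real.norm_of_nonneg hr, dist_sub_right]

theorem cone_up (hF : Fan γ o S μ) {r : ℝ} (hr : 0 ≤ r) (r' a a' : ℝ) :
    dist (o + r' • (γ a' - o)) (o + r • (γ a - o)) ≤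
      25 * μ * |r' - r| + 25 * μ * (r * |a' - a|) := by
  have h1 := mul_le_mul_of_nonneg_left (hF.lip a' a) hr
  have h2 := dist_triangle (o + r' • (γ a' - o)) (o + r • (γ a' - o)) (o + r • (γ a - o))
  rw [cone_circ hr] at h2
  linarith [cone_ray hF r r' a']

theorem cone_mem (hF : Fan γ o S μ) {r : ℝ} (hr : 0 < r) (a : ℝ) :
    o + r • (γ a - o) ∈ hs o r S := by
  have := hF.mem a 1 zero_le_one le_rfl
  rw [one_smul] at this
  rwa [hs, mem_ofPred_eq, add_sub_cancel_left, inv_smul_smul₀ hr.ne']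

theorem cone_mem' (hF : Fan γ o S μ) {r : ℝ} (hr : 0 ≤ r) (hr' : r ≤ 1) (a : ℝ) :
    o + r • (γ a - o) ∈ S := by
  rcases hr.eq_or_lt with rfl | hr
  · have := hF.mem a 0 le_rfl zero_le_one
    rwa [zero_smul] at this ⊢
  · exact hF.sub r hr hr' (cone_mem hF hr a)

theorem cone_rad' (hF : Fan γ o S μ) {r r' : ℝ} (hr : 0 ≤ r) (h : r ≤ r') (a a' : ℝ) :
    μ / 4 * (r' - r) ≤ dist (o + r • (γ a - o)) (o + r' • (γ a' - o)) := by
  rcases hr.eq_or_lt with rfl | hr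
  · rw [zero_smul, add_zero, dist_self_add_right, norm_smul, Real.norm_of_nonneg h, ← dist_eq_norm,
      sub_zero, mul_comm]
    exact mul_le_mul_of_nonneg_left (hF.rad a') h
  · exact hF.sep a' r r' hr h _ (cone_mem hF hr a)

theorem cone_rad (hF : Fan γ o S μ) {r r' : ℝ} (hr : 0 ≤ r) (hr' : 0 ≤ r') (a a' : ℝ) :
    μ * |r' - r| ≤ 4 * dist (o + r' • (γ a' - o)) (o + r • (γ a - o)) := by
  rcases le_total r r' with h | h
  · rw [abs_of_nonneg (sub_nonneg.2 h), dist_comm]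
    linarith [cone_rad' hF hr h a a']
  · rw [abs_sub_comm, abs_of_nonneg (sub_nonneg.2 h)]
    linarith [cone_rad' hF hr' h a' a]

theorem cone_ang (hF : Fan γ o S μ) {r r' a a' : ℝ} (hr : 0 ≤ r) (hr' : 0 ≤ r')
    (h : |a' - a| ≤ 2) :
    μ * (r * |a' - a|) ≤ 404 * dist (o + r' • (γ a' - o)) (o + r • (γ a - o)) := by
  have h1 := mul_le_mul_of_nonneg_left (hF.low a' a h) hr
  have h2 := dist_triangle (o + r • (γ a' - o)) (o + r' • (γ a' - o)) (o + r • (γ a - o))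
  rw [cone_circ hr] at h2
  have h3 := cone_ray hF r' r a'
  rw [abs_sub_comm] at h3
  linarith [cone_rad hF hr hr' a a']

end Cone

/-- The inner square. -/
def Bi : Set P := {p | ‖p‖ ≤ 1 / 2}

/-- The ring. -/
def Ri : Set P := {p | ‖p‖ ∈ Icc (1 / 2 : ℝ) 1}

theorem isClosed_Bi : IsClosed Bi := isClosed_le continuous_norm continuous_const

theorem isClosed_Ri : IsClosed Ri := isClosed_Icc.preimage continuous_norm

theorem sq_eq : sq = Bi ∪ Ri := by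
  ext p
  simp only [mem_sq, Bi, Ri, mem_union, mem_ofPred_eq, mem_Icc]
  constructor
  · intro h
    rcases le_total ‖p‖ (1 / 2) with h' | h'
    exacts [Or.inl h', Or.inr ⟨h', h⟩]
  · rintro (h | h)
    exacts [by linarith, h.2]

theorem two_mem {p : P} (hp : p ∈ Bi) : (2 : ℝ) • p ∈ sq := by
  rw [mem_sq, norm_smul, Real.norm_two]
  have : ‖p‖ ≤ 1 / 2 := hp
  linarith

theorem exists_ri {p : P} (hp : p ∈ Ri) :
    ∃ t ∈ Ico (0 : ℝ) 4, ∃ s ∈ Icc (0 : ℝ) 1, p = ((1 + s) / 2) • Γ t := by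
  obtain ⟨t, ht, h⟩ := exists_pol p 0
  refine ⟨t, by simpa using ht, 2 * ‖p‖ - 1, ⟨by linarith [hp.1], by linarith [hp.2]⟩, ?_⟩
  rw [show (1 + (2 * ‖p‖ - 1)) / 2 = ‖p‖ by ring]
  exact h

end RingAux

open RingAux

/-- Lifting of neighbourhoods to polar coordinates. -/
theorem pol_eventually {a b : ℝ} (ha : 0 < a) {t s : ℝ} (hs : s ∈ Icc a b) {Q : P → Prop}
    (h : ∀ᶠ z in 𝓝[univ ×ˢ Icc a b] ((t, s) : P), Q z) :
    ∀ᶠ p in 𝓝[{p : P | ‖p‖ ∈ Icc a b}] (s • Γ t), ∃ z : P, z.2 ∈ Icc a b ∧ p = z.2 • Γ z.1 ∧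
      dist z (t, s) ≤ (4 / a + 1) * dist p (s • Γ t) ∧ Q z := by
  obtain ⟨ε, hε, hQ⟩ := Metric.mem_nhdsWithin_iff.1 h
  have hc : 0 < 4 / a + 1 := by positivity
  refine Metric.mem_nhdsWithin_iff.2 ⟨ε / (4 / a + 1), by positivity, fun p hp => ?_⟩
  obtain ⟨t', ht, e⟩ := exists_pol' p t
  have hs0 : 0 ≤ s := ha.le.trans hs.1
  have h1 := pol_rad hs0 (norm_nonneg p) t t'
  have h2 := pol_ang hs0 (norm_nonneg p) ht
  rw [← e] at h1 h2
  have h0 : 0 ≤ dist p (s • Γ t) := dist_nonneg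
  have h3 : |t' - t| ≤ 4 / a * dist p (s • Γ t) := by
    rw [div_mul_eq_mul_div, le_div_iff₀ ha]
    linarith [mul_le_mul_of_nonneg_right hs.1 (abs_nonneg (t' - t))]
  have h4 : 0 ≤ 4 / a * dist p (s • Γ t) := by positivity
  have h5 : dist ((t', ‖p‖) : P) (t, s) ≤ (4 / a + 1) * dist p (s • Γ t) :=
    dist_le (by dsimp only; linarith) (by dsimp only; linarith)
  refine ⟨(t', ‖p‖), hp.2, e, h5, hQ ⟨h5.trans_lt ?_, trivial, hp.2⟩⟩
  have := hp.1
  rw [Metric.mem_ball, lt_div_iff₀ hc] at this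
  linarith

/-- Descent of periodic functions. -/
theorem exists_desc {Y : Type} (F : P → Y) (hF : ∀ t s, F (t + 4, s) = F (t, s)) :
    ∃ f : P → Y, ∀ t s, 0 < s → f (s • Γ t) = F (t, s) := by
  choose τ _ hτ using fun p => exists_pol p 0
  refine ⟨fun p => F (τ p, ‖p‖), fun t s hs => ?_⟩
  have h := hτ (s • Γ t)
  rw [norm_pol hs.le] at h
  obtain ⟨k, hk⟩ := Γ_inj (smul_right_injective P hs.ne' h)
  simp only [norm_pol hs.le, hk]
  exact per_int (F := fun t => F (t, s)) (fun t => hF t s) t k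

namespace RingAux

theorem ring_eventually {t s : ℝ} (hs : s ∈ Icc (0 : ℝ) 1) {Q : P → Prop}
    (h : ∀ᶠ z in 𝓝[univ ×ˢ Icc (0 : ℝ) 1] ((t, s) : P), Q z) :
    ∀ᶠ p in 𝓝[Ri] (((1 + s) / 2) • Γ t), ∃ z : P, z.2 ∈ Icc (0 : ℝ) 1 ∧
      p = ((1 + z.2) / 2) • Γ z.1 ∧ dist z (t, s) ≤ 18 * dist p (((1 + s) / 2) • Γ t) ∧
      dist p (((1 + s) / 2) • Γ t) ≤ 3 * dist z (t, s) ∧ Q z := by
  have hc : Continuous fun z : P => ((z.1, 2 * z.2 - 1) : P) := by fun_prop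
  have ht := (hc.continuousWithinAt (s := univ ×ˢ Icc (1 / 2 : ℝ) 1)
    (x := ((t, (1 + s) / 2) : P))).tendsto_nhdsWithin (t := univ ×ˢ Icc (0 : ℝ) 1)
    fun z hz => ⟨trivial, by dsimp only; linarith [hz.2.1], by dsimp only; linarith [hz.2.2]⟩
  dsimp only at ht
  rw [show 2 * ((1 + s) / 2) - 1 = s by ring] at ht
  filter_upwards [pol_eventually (a := 1 / 2) (b := 1) (by norm_num) (s := (1 + s) / 2)
    ⟨by linarith [hs.1], by linarith [hs.2]⟩ (ht.eventually h)] with p ⟨z, h1, h2, h3, h4⟩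
  have e : (1 + (2 * z.2 - 1)) / 2 = z.2 := by ring
  have h5 := fst_le z (t, (1 + s) / 2)
  have h6 := snd_le z (t, (1 + s) / 2)
  have h0 : 0 ≤ dist p (((1 + s) / 2) • Γ t) := dist_nonneg
  have e2 : |2 * z.2 - 1 - s| = 2 * |z.2 - (1 + s) / 2| := by
    rw [show 2 * z.2 - 1 - s = 2 * (z.2 - (1 + s) / 2) by ring, abs_mul, abs_two]
  dsimp only at h5 h6
  refine ⟨(z.1, 2 * z.2 - 1), ⟨by dsimp only; linarith [h1.1], by dsimp only; linarith [h1.2]⟩,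
    by dsimp only; rw [e]; exact h2,
    dist_le (by dsimp only; linarith) (by dsimp only; linarith), ?_, h4⟩
  have h7 := pol_up (s := (1 + s) / 2) (by linarith [hs.1]) z.2 t z.1
  have h8 := fst_le ((z.1, 2 * z.2 - 1) : P) (t, s)
  have h9 := snd_le ((z.1, 2 * z.2 - 1) : P) (t, s)
  dsimp only at h8 h9
  rw [← h2] at h7
  have h10 : (1 + s) / 2 * |z.1 - t| ≤ |z.1 - t| :=
    mul_le_of_le_one_left (abs_nonneg _) (by linarith [hs.2])
  linarith [abs_nonneg (z.2 - (1 + s) / 2)]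

end RingAux

/-- Adding a ring around a solution. -/
theorem ring_emb {U : Set P} {Λ : P → P} {γ : ℝ → P} {o : P} {S : Set P} {μ e : ℝ}
    (hF : Fan γ o S μ) (he : 0 < e) (he' : e ≤ 1 / 2) {fi : P → P}
    (hfi : Emb U (fun p => Λ ((1 / 2 : ℝ) • p)) (hs o (1 - e) S) fi) {σ' : ℝ → ℝ}
    (hσ : Function.Surjective σ') (hb : ∀ t, fi (Γ t) = o + (1 - e) • (γ (σ' t) - o))
    {φ ϑ : P → ℝ} (hup : Up (univ ×ˢ Icc (0 : ℝ) 1) (fun z : P => (φ z, ϑ z)))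
    (hlow : Low (univ ×ˢ Icc (0 : ℝ) 1) (fun z : P => (φ z, ϑ z)))
    (hinj : InjOn (fun z : P => (φ z, ϑ z)) (univ ×ˢ Icc (0 : ℝ) 1))
    (hper : ∀ t s, φ (t + 4, s) = φ (t, s) + 4 ∧ ϑ (t + 4, s) = ϑ (t, s))
    (hrange : ∀ t, ∀ s ∈ Icc (0 : ℝ) 1, ϑ (t, s) ∈ Icc (0 : ℝ) 1)
    (h0 : ∀ t, φ (t, 0) = σ' t ∧ ϑ (t, 0) = 0) (h1 : ∀ t, ϑ (t, 1) = 1)
    (hdom : ∀ t ∈ Ico (0 : ℝ) 4, ∀ s ∈ Icc (0 : ℝ) 1, Λ (((1 + s) / 2) • Γ t) ∈ U →
      ∀ᶠ z in 𝓝[univ ×ˢ Icc (0 : ℝ) 1] ((t, s) : P),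
        dist (Λ (((1 + z.2) / 2) • Γ z.1)) (Λ (((1 + s) / 2) • Γ t)) ≤
          μ / 1616 * |φ z - φ (t, s)| + e * μ / 8 * |ϑ z - ϑ (t, s)|) :
    ∃ f, Emb U Λ S f ∧ (∀ t, f (Γ t) = γ (φ (t, 1))) ∧
      ∀ p ∈ sq, f ((1 / 2 : ℝ) • p) = fi p := by
  classical
  have hμ := hF.pos
  obtain ⟨r, hr⟩ : ∃ r : P → ℝ, r = fun z => 1 - e + e * ϑ z := ⟨_, rfl⟩
  obtain ⟨G, hG⟩ : ∃ G : P → P, G = fun z => o + r z • (γ (φ z) - o) := ⟨_, rfl⟩
  have hG' : ∀ z, G z = o + r z • (γ (φ z) - o) := fun z => by rw [hG]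
  have hr1 : ∀ z : P, z.2 ∈ Icc (0 : ℝ) 1 → 1 - e ≤ r z ∧ r z ≤ 1 := fun z hz => by
    obtain ⟨a1, a2⟩ := hrange z.1 z.2 hz
    rw [hr]
    exact ⟨by dsimp only; linarith [mul_nonneg he.le a1],
      by dsimp only; linarith [mul_le_mul_of_nonneg_left a2 he.le]⟩
  have hr0 : ∀ z : P, z.2 ∈ Icc (0 : ℝ) 1 → 0 ≤ r z := fun z hz => by linarith [(hr1 z hz).1]
  have hr2 : ∀ z z' : P, |r z - r z'| = e * |ϑ z - ϑ z'| := fun z z' => by
    rw [hr]
    dsimp only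
    rw [show 1 - e + e * ϑ z - (1 - e + e * ϑ z') = e * (ϑ z - ϑ z') by ring, abs_mul,
      abs_of_pos he]
  obtain ⟨fd, hfd⟩ := exists_desc (fun z => G (z.1, 2 * z.2 - 1)) fun t s => by
    simp only [hG, hr, (hper t _).1, (hper t _).2, hF.per]
  obtain ⟨f, hf⟩ : ∃ f : P → P, f = fun p => if ‖p‖ ≤ 1 / 2 then fi ((2 : ℝ) • p) else fd p :=
    ⟨_, rfl⟩
  have hfB : ∀ p ∈ Bi, f p = fi ((2 : ℝ) • p) := fun p hp => by rw [hf]; exact if_pos hp
  have hfR : ∀ t, ∀ s ∈ Icc (0 : ℝ) 1, f (((1 + s) / 2) • Γ t) = G (t, s) := fun t s hs => by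
    have hp : 0 < (1 + s) / 2 := by linarith [hs.1]
    rcases hs.1.eq_or_lt with rfl | h
    · rw [hfB _ (by rw [Bi, mem_ofPred_eq, norm_pol hp.le]; norm_num), smul_smul]
      norm_num
      rw [hb, hG', hr, (h0 t).1]
      simp [(h0 t).2]
    · rw [hf]
      dsimp only
      rw [if_neg (by rw [norm_pol hp.le]; linarith), hfd _ _ hp]
      congr 2
      ring
  have ang : ∀ z z' : P, z.2 ∈ Icc (0 : ℝ) 1 → z'.2 ∈ Icc (0 : ℝ) 1 → |φ z' - φ z| ≤ 2 →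
      μ * |φ z' - φ z| ≤ 808 * dist (G z') (G z) := fun z z' hz hz' h => by
    have a1 := cone_ang hF (hr0 z hz) (hr0 z' hz') h
    have a2 : 1 / 2 * |φ z' - φ z| ≤ r z * |φ z' - φ z| :=
      mul_le_mul_of_nonneg_right (by linarith [(hr1 z hz).1]) (abs_nonneg _)
    rw [hG', hG']
    linarith [mul_le_mul_of_nonneg_left a2 hμ.le]
  have rad : ∀ z z' : P, z.2 ∈ Icc (0 : ℝ) 1 → z'.2 ∈ Icc (0 : ℝ) 1 →
      μ * (e * |ϑ z' - ϑ z|) ≤ 4 * dist (G z') (G z) := fun z z' hz hz' => by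
    rw [← hr2, hG', hG']
    exact cone_rad hF (hr0 z hz) (hr0 z' hz') _ _
  have near : ∀ t, ∀ s ∈ Icc (0 : ℝ) 1,
      ∀ᶠ z in 𝓝[univ ×ˢ Icc (0 : ℝ) 1] ((t, s) : P), |φ z - φ (t, s)| ≤ 2 := fun t s hs => by
    filter_upwards [Metric.tendsto_nhds.1 (hup.continuousOn (t, s) ⟨trivial, hs⟩) 2 two_pos]
      with z hz
    exact (fst_le (φ z, ϑ z) (φ (t, s), ϑ (t, s))).trans hz.le
  have up2 : Up Bi fun p : P => (2 : ℝ) • p :=
    up_of_lip (K := 2) fun x _ y _ => by rw [dist_smul₀, Real.norm_two]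
  have low2 : Low Bi fun p : P => (2 : ℝ) • p :=
    ⟨2, two_pos, fun x _ => Eventually.of_forall fun y => by rw [dist_smul₀, Real.norm_two]⟩
  have injR : InjOn f Ri := fun p hp p' hp' h => by
    obtain ⟨t, -, s, hs, rfl⟩ := exists_ri hp
    obtain ⟨t', -, s', hs', rfl⟩ := exists_ri hp'
    rw [hfR t s hs, hfR t' s' hs'] at h
    have a1 := rad (t, s) (t', s') hs hs'
    rw [h, dist_self, mul_zero] at a1
    have a2 : ϑ (t', s') = ϑ (t, s) := by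
      by_contra hne
      have : 0 < μ * (e * |ϑ (t', s') - ϑ (t, s)|) :=
        mul_pos hμ (mul_pos he (abs_pos.2 (sub_ne_zero.2 hne)))
      linarith
    have a3 : r (t', s') = r (t, s) := by rw [hr]; dsimp only; rw [a2]
    rw [hG', hG', a3, add_right_inj] at h
    have a4 : r (t, s) ≠ 0 := ne_of_gt (by linarith [(hr1 (t, s) hs).1])
    obtain ⟨k, hk⟩ := hF.inj (sub_left_injective (smul_right_injective P a4 h))
    have a5 : φ (t + 4 * k, s) = φ (t, s) + 4 * k := by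
      have := per_int (F := fun t => φ (t, s) - t) (fun t => by rw [(hper t s).1]; ring) t k
      linarith
    have a6 : ϑ (t + 4 * k, s) = ϑ (t, s) :=
      per_int (F := fun t => ϑ (t, s)) (fun t => (hper t s).2) t k
    have a7 := hinj (x₁ := (t + 4 * k, s)) ⟨trivial, hs⟩ (x₂ := (t', s')) ⟨trivial, hs'⟩
      (by dsimp only; rw [a5, a6, hk, a2])
    obtain ⟨rfl, rfl⟩ := Prod.mk.inj a7
    rw [Γ_add_int]
  have mix : ∀ p ∈ Bi, ∀ p' ∈ Ri, f p = f p' → p ∈ Ri := fun p hp p' hp' h => by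
    obtain ⟨t', -, s', hs', rfl⟩ := exists_ri hp'
    rw [hfB p hp, hfR t' s' hs', hG'] at h
    have a1 := hF.sep (φ (t', s')) (1 - e) (r (t', s')) (by linarith) (hr1 _ hs').1 _
      (hfi.maps (two_mem hp))
    rw [h, dist_self] at a1
    have a2 : r (t', s') = 1 - e := le_antisymm (by nlinarith) (hr1 _ hs').1
    obtain ⟨t, ht⟩ := hσ (φ (t', s'))
    rw [a2, ← ht, ← hb] at h
    have a3 := congrArg norm (hfi.inj (two_mem hp) (Γ_mem t) h)
    rw [norm_smul, Real.norm_two, norm_Γ] at a3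
    exact ⟨by linarith, by linarith⟩
  refine ⟨f, ⟨?_, ?_, ?_, ?_, ?_⟩, fun t => ?_, fun p hp => ?_⟩
  · rw [sq_eq]
    refine Up.union isClosed_Bi isClosed_Ri
      ((hfi.up.comp up2 fun _ => two_mem).congr fun p hp => (hfB p hp).symm) ?_
    obtain ⟨K, hK⟩ := hup
    refine ⟨50 * μ * (max K 0 * 18), fun p hp => ?_⟩
    obtain ⟨t, -, s, hs, rfl⟩ := exists_ri hp
    filter_upwards [ring_eventually hs (hK (t, s) ⟨trivial, hs⟩)] with p' ⟨z, z1, z2, z3, _, z5⟩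
    have a0 : f p' = G z := by rw [z2]; exact hfR z.1 z.2 z1
    have a1 := cone_up hF (hr0 (t, s) hs) (r z) (φ (t, s)) (φ z)
    have a2 := fst_le (φ z, ϑ z) (φ (t, s), ϑ (t, s))
    have a3 := snd_le (φ z, ϑ z) (φ (t, s), ϑ (t, s))
    have a4 : K * dist z (t, s) ≤ max K 0 * (18 * dist p' (((1 + s) / 2) • Γ t)) :=
      (mul_le_mul_of_nonneg_right (le_max_left _ _) dist_nonneg).trans
        (mul_le_mul_of_nonneg_left z3 (le_max_right _ _))
    have a5 : r (t, s) * |φ z - φ (t, s)| ≤ |φ z - φ (t, s)| :=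
      mul_le_of_le_one_left (abs_nonneg _) (hr1 _ hs).2
    have a6 : e * |ϑ z - ϑ (t, s)| ≤ |ϑ z - ϑ (t, s)| :=
      mul_le_of_le_one_left (abs_nonneg _) (by linarith)
    rw [hr2, ← hG', ← hG'] at a1
    dsimp only at a2 a3 z5
    have a7 : e * |ϑ z - ϑ (t, s)| + r (t, s) * |φ z - φ (t, s)| ≤
        2 * (max K 0 * (18 * dist p' (((1 + s) / 2) • Γ t))) := by linarith
    rw [a0, hfR t s hs]
    linarith [mul_le_mul_of_nonneg_left a7 hμ.le]
  · rw [sq_eq]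
    refine Low.union isClosed_Bi isClosed_Ri
      ((hfi.low.comp low2 up2.continuousOn fun _ => two_mem).congr fun p hp => (hfB p hp).symm) ?_
    obtain ⟨θ, hθ, hK⟩ := hlow
    refine ⟨θ * (μ * e) / 2424, by positivity, fun p hp => ?_⟩
    obtain ⟨t, -, s, hs, rfl⟩ := exists_ri hp
    filter_upwards [ring_eventually hs ((hK (t, s) ⟨trivial, hs⟩).and (near t s hs))]
      with p' ⟨z, z1, z2, _, z4, z5, z6⟩
    have a0 : f p' = G z := by rw [z2]; exact hfR z.1 z.2 z1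
    have a1 := ang (t, s) z hs z1 z6
    have a2 := rad (t, s) z hs z1
    have a3 : 0 ≤ dist (G z) (G (t, s)) := dist_nonneg
    have a4 : μ * e * |φ z - φ (t, s)| ≤ μ * |φ z - φ (t, s)| :=
      mul_le_mul_of_nonneg_right (mul_le_of_le_one_right hμ.le (by linarith)) (abs_nonneg _)
    have hme : 0 < μ * e := by positivity
    have a5 : dist ((φ z, ϑ z) : P) (φ (t, s), ϑ (t, s)) ≤ 808 * dist (G z) (G (t, s)) / (μ * e) :=
      dist_le (by rw [le_div_iff₀ hme]; dsimp only; linarith)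
        (by rw [le_div_iff₀ hme]; dsimp only; linarith)
    have a6 := z5.trans a5
    rw [le_div_iff₀ hme] at a6
    rw [a0, hfR t s hs]
    linarith [mul_le_mul_of_nonneg_left z4 (mul_pos hθ hme).le]
  · rw [sq_eq]
    rintro p (hp | hp) p' (hp' | hp') h
    · rw [hfB p hp, hfB p' hp'] at h
      exact smul_right_injective P two_ne_zero (hfi.inj (two_mem hp) (two_mem hp') h)
    · exact injR (mix p hp p' hp' h) hp' h
    · exact injR hp (mix p' hp' p hp h.symm) h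
    · exact injR hp hp' h
  · rw [sq_eq]
    rintro p (hp | hp)
    · rw [hfB p hp]
      exact hF.sub (1 - e) (by linarith) (by linarith) (hfi.maps (two_mem hp))
    · obtain ⟨t, -, s, hs, rfl⟩ := exists_ri hp
      rw [hfR t s hs, hG']
      exact cone_mem' hF (hr0 (t, s) hs) (hr1 (t, s) hs).2 _
  · rw [sq_eq]
    refine Dom.union isClosed_Bi isClosed_Ri
      ((hfi.dom.comp up2.continuousOn fun _ => two_mem).congr (fun p _ => ?_)
        fun p hp => (hfB p hp).symm) fun p hp hU => ?_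
    · simp [smul_smul]
    obtain ⟨t, ht, s, hs, rfl⟩ := exists_ri hp
    filter_upwards [ring_eventually hs ((hdom t ht s hs hU).and (near t s hs))]
      with p' ⟨z, z1, z2, _, _, z5, z6⟩
    have a0 : f p' = G z := by rw [z2]; exact hfR z.1 z.2 z1
    rw [← z2] at z5
    rw [a0, hfR t s hs]
    linarith [ang (t, s) z hs z1 z6, rad (t, s) z hs z1]
  · have := hfR t 1 ⟨zero_le_one, le_rfl⟩
    rw [hG', hr] at this
    simpa [h1 t] using this
  · rw [hfB _ (by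
      rw [Bi, mem_ofPred_eq, norm_smul, Real.norm_of_nonneg (by norm_num)]
      linarith [mem_sq.1 hp]), smul_smul]
    norm_num

/-- The cone over the boundary loop. -/
theorem fan_emb {U : Set P} {Λ : P → P} {γ : ℝ → P} {o : P} {S : Set P} {μ K : ℝ}
    (hF : Fan γ o S μ) (hK0 : 0 ≤ K) (hK : 1000 * K ≤ μ)
    (hΛ : ∀ p ∈ sq, Λ p ∈ U → ∀ᶠ p' in 𝓝[sq] p, dist (Λ p') (Λ p) ≤ K * dist p' p) :
    ∃ f, Emb U Λ S f ∧ ∀ t, f (Γ t) = γ t := by
  have hμ := hF.pos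
  obtain ⟨g, hg⟩ := exists_desc (fun z => γ z.1) fun t _ => hF.per t
  obtain ⟨f, hf⟩ : ∃ f : P → P, f = fun p => o + ‖p‖ • (g p - o) := ⟨_, rfl⟩
  have hf1 : ∀ p t, p = ‖p‖ • Γ t → f p = o + ‖p‖ • (γ t - o) := fun p t h => by
    rw [hf]
    dsimp only
    rcases (norm_nonneg p).eq_or_lt with h0 | h0
    · rw [← h0, zero_smul, zero_smul]
    · have := hg t _ h0
      rw [← h] at this
      rw [this]
  have key : ∀ p p' : P, dist (f p') (f p) ≤ 125 * μ * dist p' p ∧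
      μ * dist p' p ≤ 812 * dist (f p') (f p) := fun p p' => by
    obtain ⟨t, -, e⟩ := exists_pol p 0
    obtain ⟨t', ht, e'⟩ := exists_pol' p' t
    have h0 := norm_nonneg p
    have h0' := norm_nonneg p'
    have a1 := mul_le_mul_of_nonneg_left (pol_rad h0 h0' t t') hμ.le
    have a2 := mul_le_mul_of_nonneg_left (pol_ang h0 h0' ht) hμ.le
    have a3 := mul_le_mul_of_nonneg_left (pol_up h0 ‖p'‖ t t') hμ.le
    rw [← e, ← e'] at a1 a2 a3
    rw [hf1 p t e, hf1 p' t' e']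
    exact ⟨by linarith [cone_up hF h0 ‖p'‖ t t'],
      by linarith [cone_rad hF h0 h0' t t', cone_ang hF h0 h0' ht]⟩
  refine ⟨f, ⟨up_of_lip fun x _ y _ => (key y x).1,
    ⟨μ / 812, by positivity, fun x _ => Eventually.of_forall fun y => by linarith [(key x y).2]⟩,
    fun x _ y _ h => ?_, fun p hp => ?_, fun p hp hU => ?_⟩, fun t => ?_⟩
  · have := (key y x).2
    rw [h, dist_self, mul_zero] at this
    exact dist_le_zero.1 (le_of_mul_le_mul_left (by rwa [mul_zero]) hμ)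
  · obtain ⟨t, -, e⟩ := exists_pol p 0
    rw [hf1 p t e]
    exact cone_mem' hF (norm_nonneg p) (mem_sq.1 hp) _
  · filter_upwards [hΛ p hp hU] with p' h
    have a1 := mul_le_mul_of_nonneg_right hK (dist_nonneg (x := p') (y := p))
    have a2 : 0 ≤ dist (f p') (f p) := dist_nonneg
    linarith [(key p p').2]
  · rw [hf1 _ t (by rw [norm_Γ, one_smul]), norm_Γ]
    simp

namespace RingAux

theorem polar_map {φ : P → ℝ} {K : ℝ} (hφ : ∀ z z', |φ z - φ z'| ≤ K * dist z z')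
    (hper : ∀ t s, φ (t + 4, s) = φ (t, s) + 4) (h0 : ∀ t, φ (t, 1 / 2) = t) :
    ∃ h, Up sq h ∧ (∀ t s, 1 / 2 ≤ s → h (s • Γ t) = s • Γ (φ (t, s))) ∧ ∀ p ∈ Bi, h p = p := by
  classical
  obtain ⟨g, hg⟩ := exists_desc (fun z => z.2 • Γ (φ z)) fun t s => by rw [hper, Γ_add_four]
  obtain ⟨h, hh⟩ : ∃ h : P → P, h = fun p => if ‖p‖ ≤ 1 / 2 then p else g p := ⟨_, rfl⟩
  have hB : ∀ p ∈ Bi, h p = p := fun p hp => by rw [hh]; exact if_pos hp
  have hR : ∀ t s, 1 / 2 ≤ s → h (s • Γ t) = s • Γ (φ (t, s)) := fun t s hs => by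
    have hp : 0 < s := by linarith
    rcases hs.eq_or_lt with rfl | h
    · rw [h0, hB _ (by rw [Bi, mem_ofPred_eq, norm_pol hp.le])]
    · rw [hh]
      dsimp only
      rw [if_neg (by rw [norm_pol hp.le]; linarith), hg _ _ hp]
  refine ⟨h, ?_, hR, hB⟩
  rw [sq_eq]
  refine Up.union isClosed_Bi isClosed_Ri
    (up_of_lip (K := 1) fun x hx y hy => by rw [hB x hx, hB y hy, one_mul])
    (up_of_lip (K := 1 + 16 * max K 0) fun p' hp' p hp => ?_)
  obtain ⟨t, -, e⟩ := exists_pol p 0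
  obtain ⟨t', ht, e'⟩ := exists_pol' p' t
  have a1 := pol_rad (norm_nonneg p) (norm_nonneg p') t t'
  have a2 := pol_ang (norm_nonneg p) (norm_nonneg p') ht
  have a3 := hR t _ hp.1
  have a4 := hR t' _ hp'.1
  rw [← e] at a1 a2 a3
  rw [← e'] at a1 a2 a4
  have a0 : 0 ≤ dist p' p := dist_nonneg
  have a5 : dist ((t', ‖p'‖) : P) (t, ‖p‖) ≤ 8 * dist p' p :=
    dist_le (by dsimp only; linarith [mul_le_mul_of_nonneg_right hp.1 (abs_nonneg (t' - t))])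
      (by dsimp only; linarith)
  have a6 : |φ (t', ‖p'‖) - φ (t, ‖p‖)| ≤ max K 0 * (8 * dist p' p) :=
    (hφ _ _).trans ((mul_le_mul_of_nonneg_right (le_max_left _ _) dist_nonneg).trans
      (mul_le_mul_of_nonneg_left a5 (le_max_right _ _)))
  have a7 := pol_up (norm_nonneg p) ‖p'‖ (φ (t, ‖p‖)) (φ (t', ‖p'‖))
  have a8 : ‖p‖ * |φ (t', ‖p'‖) - φ (t, ‖p‖)| ≤ |φ (t', ‖p'‖) - φ (t, ‖p‖)| :=
    mul_le_of_le_one_left (abs_nonneg _) hp.2
  rw [a3, a4]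
  linarith

theorem polar_inv {φ ψ : P → ℝ} {h g : P → P}
    (h1 : ∀ t s, 1 / 2 ≤ s → h (s • Γ t) = s • Γ (φ (t, s))) (h2 : ∀ p ∈ Bi, h p = p)
    (g1 : ∀ t s, 1 / 2 ≤ s → g (s • Γ t) = s • Γ (ψ (t, s))) (g2 : ∀ p ∈ Bi, g p = p)
    (hi : ∀ t s, ψ (φ (t, s), s) = t) : MapsTo h sq sq ∧ ∀ p ∈ sq, g (h p) = p := by
  have : ∀ p ∈ sq, h p ∈ sq ∧ g (h p) = p := fun p hp => by
    rcases le_total ‖p‖ (1 / 2) with h' | h'
    · rw [h2 p h', g2 p h']
      exact ⟨hp, rfl⟩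
    · obtain ⟨t, -, e⟩ := exists_pol p 0
      have a1 := h1 t _ h'
      rw [← e] at a1
      rw [a1, g1 _ _ h', hi, ← e, mem_sq, norm_pol (norm_nonneg p)]
      exact ⟨mem_sq.1 hp, rfl⟩
  exact ⟨fun p hp => (this p hp).1, fun p hp => (this p hp).2⟩

end RingAux

/-- Twisting the outer ring of the model square. -/
theorem polar_hm {φ ψ : P → ℝ} {K : ℝ} (hφ : ∀ z z', |φ z - φ z'| ≤ K * dist z z')
    (hψ : ∀ z z', |ψ z - ψ z'| ≤ K * dist z z') (hper : ∀ t s, φ (t + 4, s) = φ (t, s) + 4)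
    (h1 : ∀ t s, ψ (φ (t, s), s) = t) (h2 : ∀ t s, φ (ψ (t, s), s) = t)
    (h0 : ∀ t, φ (t, 1 / 2) = t) :
    ∃ h g, Hm h g ∧ (∀ t, ∀ s ∈ Icc (1 / 2 : ℝ) 1, h (s • Γ t) = s • Γ (φ (t, s))) ∧
      ∀ p : P, ‖p‖ ≤ 1 / 2 → h p = p := by
  obtain ⟨h, a1, a2, a3⟩ := polar_map hφ hper h0
  obtain ⟨g, b1, b2, b3⟩ := polar_map hψ
    (fun t s => by have := h1 (ψ (t, s) + 4) s; rwa [hper, h2] at this)
    (fun t => by have := h1 t (1 / 2); rwa [h0] at this)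
  obtain ⟨c1, c2⟩ := polar_inv a2 a3 b2 b3 h1
  obtain ⟨d1, d2⟩ := polar_inv b2 b3 a2 a3 h2
  exact ⟨h, g, ⟨c1, d1, c2, d2, a1, b1⟩, fun t s hs => a2 t s hs.1, a3⟩

namespace RingAux

/-- Scaling of the end zones. -/
noncomputable def xr (z N x : ℝ) : ℝ := cl (z - 1) (1 - z) x + N * (x - cl (z - 1) (1 - z) x)

/-- Product scaling of the end zones. -/
noncomputable def XR (z N : ℝ) (p : P) : P := (xr z N p.1, xr z N p.2)

variable {z N : ℝ}

theorem xr_mid {x : ℝ} (h1 : z - 1 ≤ x) (h2 : x ≤ 1 - z) (N : ℝ) : xr z N x = x := by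
  rw [xr, cl, min_eq_right h2, max_eq_right h1]; ring

theorem xr_hi (hz : z ≤ 1) {x : ℝ} (h : 1 - z ≤ x) (N : ℝ) :
    xr z N x = 1 - z + N * (x - (1 - z)) := by
  rw [xr, cl, min_eq_left h, max_eq_right (by linarith)]

theorem xr_lo (hz : z ≤ 1) {x : ℝ} (h : x ≤ z - 1) (N : ℝ) :
    xr z N x = z - 1 + N * (x - (z - 1)) := by
  rw [xr, cl, min_eq_right (by linarith), max_eq_left h]

theorem xr_xr (hz : z ≤ 1) (hN : 0 < N) (x : ℝ) : xr z N⁻¹ (xr z N x) = x := by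
  rcases le_total x (z - 1) with h | h
  · rw [xr_lo hz h, xr_lo hz (by nlinarith)]
    field_simp
    ring
  rcases le_total x (1 - z) with h' | h'
  · rw [xr_mid h h', xr_mid h h']
  · rw [xr_hi hz h', xr_hi hz (by nlinarith)]
    field_simp
    ring

theorem xr_neg (hz : z ≤ 1) (N x : ℝ) : xr z N (-x) = -xr z N x := by
  rcases le_total x (z - 1) with h | h
  · rw [xr_lo hz h, xr_hi hz (by linarith)]; ring
  rcases le_total x (1 - z) with h' | h'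
  · rw [xr_mid h h', xr_mid (by linarith) (by linarith)]
  · rw [xr_hi hz h', xr_lo hz (by linarith)]; ring

theorem xr_mono (hz : z ≤ 1) (hN : 0 ≤ N) : Monotone (xr z N) := by
  intro x y hxy
  have h1 : cl (z - 1) (1 - z) x ≤ cl (z - 1) (1 - z) y :=
    max_le_max le_rfl (min_le_min le_rfl hxy)
  have h2 : x - cl (z - 1) (1 - z) x ≤ y - cl (z - 1) (1 - z) y := by
    unfold cl
    simp only [max_def, min_def]
    split_ifs <;> linarith
  unfold xr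
  linarith [mul_le_mul_of_nonneg_left h2 hN]

theorem abs_xr (hz : z ≤ 1) (hN : 0 ≤ N) (x : ℝ) : |xr z N x| = xr z N |x| := by
  have h0 : ∀ x, 0 ≤ x → 0 ≤ xr z N x := fun x hx => by
    have := xr_mono hz hN hx
    rwa [xr_mid (by linarith) (by linarith)] at this
  rcases le_total 0 x with h | h
  · rw [abs_of_nonneg h, abs_of_nonneg (h0 x h)]
  · rw [abs_of_nonpos h, ← abs_neg, ← xr_neg hz, abs_of_nonneg (h0 _ (by linarith))]

theorem norm_XR (hz : z ≤ 1) (hN : 0 ≤ N) (p : P) : ‖XR z N p‖ = xr z N ‖p‖ := by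
  simp only [Prod.norm_def, XR, Real.norm_eq_abs, abs_xr hz hN]
  exact ((xr_mono hz hN).map_max).symm

theorem XR_XR (hz : z ≤ 1) (hN : 0 < N) (p : P) : XR z N⁻¹ (XR z N p) = p := by
  simp only [XR, xr_xr hz hN]

theorem ll_xr {n x : P → ℝ} (hn : LocallyLipschitz n) (hx : LocallyLipschitz x) :
    LocallyLipschitz fun p => xr z (n p) (x p) := by
  have h : LocallyLipschitz fun p => cl (z - 1) (1 - z) (x p) := (hx.const_min _).const_max _
  exact h.add (locallyLipschitz_mul hn (hx.sub h))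

end RingAux

/-- Straightening of the product collar to a radial collar. -/
theorem exists_hz {z : ℝ} (hz : 0 < z) (hz' : z ≤ 1 / 2) :
    ∃ H G, Hm H G ∧
      (∀ t, ∀ s ∈ Icc (0 : ℝ) 1, H (((1 + s) / 2) • Γ t) = X2 z s (Γ t)) ∧
      ∀ p ∈ sq, H ((1 / 2 : ℝ) • p) = X2 z 0 p := by
  have hz1 : z ≤ 1 := by linarith
  obtain ⟨n, hn⟩ : ∃ n : P → ℝ, n = fun p => max ‖p‖ (1 / 2) := ⟨_, rfl⟩
  obtain ⟨m, hm⟩ : ∃ m : P → ℝ, m = fun q => max ((‖q‖ - (1 - z)) / z) (1 / 2) := ⟨_, rfl⟩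
  have n0 : ∀ p, 0 < n p := fun p => by rw [hn]; exact lt_max_of_lt_right (by norm_num)
  have m0 : ∀ p, 0 < m p := fun p => by rw [hm]; exact lt_max_of_lt_right (by norm_num)
  have top : ∀ N, xr z N 1 = 1 - z + N * z := fun N => by rw [xr_hi hz1 (by linarith)]; ring
  have A1 : ∀ (N : ℝ) (y : P), 1 / 2 ≤ N → ‖y‖ ≤ 1 → ‖y‖ = 1 ∨ N = 1 / 2 →
      n (N • y) = N ∧ m (XR z N y) = N ∧ ‖XR z N y‖ ≤ 1 - z + N * z := fun N y h1 h2 h3 => by
    have hN : 0 ≤ N := by linarith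
    have a1 : ‖XR z N y‖ ≤ 1 - z + N * z := by
      rw [norm_XR hz1 hN, ← top]
      exact xr_mono hz1 hN h2
    refine ⟨?_, ?_, a1⟩
    · rw [hn]
      dsimp only
      rw [norm_smul, Real.norm_of_nonneg hN]
      rcases h3 with h3 | h3
      · rw [h3, mul_one, max_eq_left h1]
      · rw [h3, max_eq_right (by linarith)]
    · rw [hm]
      dsimp only
      rcases h3 with h3 | h3
      · rw [norm_XR hz1 hN, h3, top, show (1 - z + N * z - (1 - z)) / z = N by field_simp; ring,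
          max_eq_left h1]
      · rw [h3] at a1 ⊢
        rw [max_eq_right (by rw [div_le_iff₀ hz]; linarith)]
  have A2 : ∀ p : P, 1 / 2 ≤ n p ∧ ‖(n p)⁻¹ • p‖ ≤ 1 ∧ (‖(n p)⁻¹ • p‖ = 1 ∨ n p = 1 / 2) :=
    fun p => by
      rw [norm_smul, norm_inv, Real.norm_of_nonneg (n0 p).le, inv_mul_le_iff₀ (n0 p), mul_one,
        inv_mul_eq_one₀ (n0 p).ne', hn]
      exact ⟨le_max_right _ _, le_max_left _ _, max_choice _ _⟩
  have A3 : ∀ q : P, 1 / 2 ≤ m q ∧ ‖XR z (m q)⁻¹ q‖ ≤ 1 ∧ (‖XR z (m q)⁻¹ q‖ = 1 ∨ m q = 1 / 2) :=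
    fun q => by
      have a0 := (inv_pos.2 (m0 q)).le
      have a1 : (‖q‖ - (1 - z)) / z ≤ m q := by rw [hm]; exact le_max_left _ _
      have a2 : m q = (‖q‖ - (1 - z)) / z ∨ m q = 1 / 2 := by rw [hm]; exact max_choice _ _
      rw [norm_XR hz1 a0]
      refine ⟨by rw [hm]; exact le_max_right _ _, ?_, a2.imp_left fun a2 => ?_⟩
      · rw [div_le_iff₀ hz] at a1
        refine (xr_mono hz1 a0 (show ‖q‖ ≤ xr z (m q) 1 by rw [top]; linarith)).trans ?_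
        rw [xr_xr hz1 (m0 q)]
      · rw [eq_div_iff hz.ne'] at a2
        rw [show ‖q‖ = xr z (m q) 1 by rw [top]; linarith, xr_xr hz1 (m0 q)]
  have L1 : LocallyLipschitz fun p : P => p.1 := LipschitzWith.prod_fst.locallyLipschitz
  have L2 : LocallyLipschitz fun p : P => p.2 := LipschitzWith.prod_snd.locallyLipschitz
  have L0 : LocallyLipschitz fun p : P => ‖p‖ := lipschitzWith_one_norm.locallyLipschitz
  have Ln : LocallyLipschitz n := hn ▸ L0.max_const _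
  have Lm : LocallyLipschitz m := hm ▸ (locallyLipschitz_div (L0.sub (.const _)) (.const z)
    fun _ => hz.ne').max_const _
  have Ln' : LocallyLipschitz fun p => (n p)⁻¹ := by
    simpa only [one_div] using locallyLipschitz_div (.const 1) Ln fun p => (n0 p).ne'
  have Lm' : LocallyLipschitz fun p => (m p)⁻¹ := by
    simpa only [one_div] using locallyLipschitz_div (.const 1) Lm fun p => (m0 p).ne'
  refine ⟨fun p => XR z (n p) ((n p)⁻¹ • p), fun q => m q • XR z (m q)⁻¹ q,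
    ⟨fun p hp => ?_, fun q hq => ?_, fun p _ => ?_, fun q _ => ?_,
      up_of_locallyLipschitz isCompact_sq ?_, up_of_locallyLipschitz isCompact_sq ?_⟩,
    fun t s hs => ?_, fun p hp => ?_⟩
  · obtain ⟨a1, a2, a3⟩ := A2 p
    have a4 : n p ≤ 1 := by rw [hn]; exact max_le (mem_sq.1 hp) (by norm_num)
    rw [mem_sq]
    linarith [(A1 _ _ a1 a2 a3).2.2, mul_le_mul_of_nonneg_right a4 hz.le]
  · have a4 : m q ≤ 1 := by
      rw [hm]
      exact max_le (by rw [div_le_one hz]; linarith [mem_sq.1 hq]) (by norm_num)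
    rw [mem_sq, norm_smul, Real.norm_of_nonneg (m0 q).le]
    exact mul_le_one₀ a4 (norm_nonneg _) (A3 q).2.1
  · obtain ⟨a1, a2, a3⟩ := A2 p
    rw [(A1 _ _ a1 a2 a3).2.1, XR_XR hz1 (n0 p), smul_inv_smul₀ (n0 p).ne']
  · obtain ⟨a1, a2, a3⟩ := A3 q
    have := XR_XR hz1 (inv_pos.2 (m0 q)) q
    rw [inv_inv] at this
    rw [(A1 _ _ a1 a2 a3).1, inv_smul_smul₀ (m0 q).ne', this]
  · exact (ll_xr Ln (locallyLipschitz_mul Ln' L1)).prodMk (ll_xr Ln (locallyLipschitz_mul Ln' L2))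
  · exact (locallyLipschitz_mul Lm (ll_xr Lm' L1)).prodMk (locallyLipschitz_mul Lm (ll_xr Lm' L2))
  · have a1 : 1 / 2 ≤ (1 + s) / 2 := by linarith [hs.1]
    dsimp only
    rw [(A1 _ (Γ t) a1 (norm_Γ t).le (Or.inl (norm_Γ t))).1, inv_smul_smul₀ (by linarith)]
    rfl
  · dsimp only
    rw [(A1 _ p le_rfl (mem_sq.1 hp) (Or.inr rfl)).1, inv_smul_smul₀ (by norm_num)]
    simp [X2, XR, xi, xr]

end Pool.Agent.Lib.MP_ecd4e3_gt
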