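import Mathlib

/-! Row-wise Haar decomposition and the second moment bound along random digital lines. -/

namespace Pool.Agent.Lib.MP_ecd4e3_gt

open Finset

namespace XR

open MeasureTheory

lemma card_near (S : Finset ℤ) {x ρ : ℝ} (hρ : 0 ≤ ρ) (h : ∀ u ∈ S, |(u : ℝ) - x| ≤ ρ) :
    (S.card : ℝ) ≤ 2 * ρ + 1 := by
  have hs : S ⊆ Icc ⌈x - ρ⌉ ⌊x + ρ⌋ := fun u hu => by
    have := abs_le.1 (h u hu)
    rw [mem_Icc, Int.ceil_le, Int.le_floor]
    constructor <;> linarith [this.1, this.2]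
  have h1 : (S.card : ℝ) ≤ ((⌊x + ρ⌋ + 1 - ⌈x - ρ⌉).toNat : ℝ) := by
    rw [← Int.card_Icc]
    exact_mod_cast card_le_card hs
  refine h1.trans ?_
  rcases le_total 0 (⌊x + ρ⌋ + 1 - ⌈x - ρ⌉) with h0 | h0
  · have : (((⌊x + ρ⌋ + 1 - ⌈x - ρ⌉).toNat : ℤ) : ℝ) = ((⌊x + ρ⌋ + 1 - ⌈x - ρ⌉ : ℤ) : ℝ) := by
      rw [Int.toNat_of_nonneg h0]
    push_cast at this
    rw [this]
    linarith [Int.floor_le (x + ρ), Int.le_ceil (x - ρ)]
  · rw [Int.toNat_of_nonpos h0]
    push_cast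
    linarith

lemma geo {ι : Type*} (S : Finset ι) (e : ι → ℕ) (he : Set.InjOn e S) {q : ℝ} (h0 : 0 ≤ q)
    (h1 : q < 1) : ∑ i ∈ S, q ^ e i ≤ (1 - q)⁻¹ := by
  rw [← sum_image (f := fun m => q ^ m) he, ← tsum_geometric_of_lt_one h0 h1]
  exact (summable_geometric_of_lt_one h0 h1).sum_le_tsum _ fun _ _ => by positivity

lemma pick {f : ℝ → ℝ} {a b : ℝ} (hab : a < b) (hf : IntegrableOn f (Set.Ioc a b)) :
    ∃ x ∈ Set.Ioc a b, f x * (b - a) ≤ ∫ x in Set.Ioc a b, f x := by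
  obtain ⟨x, hx, h⟩ := exists_le_setAverage (μ := volume) (s := Set.Ioc a b)
    (by simp [hab]) (by simp) hf
  refine ⟨x, hx, ?_⟩
  rw [setAverage_eq, Real.volume_real_Ioc_of_le hab.le, smul_eq_mul,
    le_inv_mul_iff₀ (sub_pos.2 hab), mul_comm] at h
  exact h

/-- Step function with steps of length `r`. -/
noncomputable def st (r : ℝ) (φ : ℤ → ℝ) (x : ℝ) : ℝ := φ ⌊x / r⌋

lemma st_meas (r : ℝ) (φ : ℤ → ℝ) : Measurable (st r φ) :=
  (measurable_of_countable φ).comp (Int.measurable_floor.comp (measurable_id.div_const r))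

lemma floor_eq_iff' {r x : ℝ} (hr : 0 < r) (p : ℤ) :
    ⌊x / r⌋ = p ↔ x ∈ Set.Ico (r * p) (r * (p + 1)) := by
  rw [Int.floor_eq_iff, le_div_iff₀ hr, div_lt_iff₀ hr, mul_comm r, mul_comm r]
  rfl

lemma st_int {r : ℝ} (hr : 0 < r) {φ : ℤ → ℝ} (S : Finset ℤ) (hS : ∀ p ∉ S, φ p = 0) :
    Integrable (st r φ) ∧ ∫ x, st r φ x = r * ∑ p ∈ S, φ p := by
  have e : st r φ = fun x => ∑ p ∈ S,
      (Set.Ico (r * p) (r * (p + 1))).indicator (fun _ => φ p) x := by
    funext x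
    have : ∀ p ∈ S, (Set.Ico (r * p) (r * (p + 1))).indicator (fun _ => φ p) x =
        if ⌊x / r⌋ = p then φ p else 0 := fun p _ => by
      rw [Set.indicator_apply]
      simp only [floor_eq_iff' hr]
    rw [sum_congr rfl this, sum_ite_eq]
    unfold st
    split_ifs with h
    · rfl
    · exact hS _ h
  have hi : ∀ p ∈ S, Integrable ((Set.Ico (r * p) (r * (p + 1))).indicator fun _ : ℝ => φ p) :=
    fun p _ => (integrable_indicator_iff measurableSet_Ico).2 (integrableOn_const (by simp))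
  rw [e]
  refine ⟨integrable_finsetSum _ hi, ?_⟩
  rw [integral_finsetSum _ hi, mul_sum]
  refine sum_congr rfl fun p _ => ?_
  rw [integral_indicator_const _ measurableSet_Ico, Real.volume_real_Ico_of_le (by nlinarith),
    smul_eq_mul]
  ring

lemma st_cell {r : ℝ} (hr : 0 < r) (φ : ℤ → ℝ) (p : ℤ) :
    ∫ x in (r * p)..(r * (p + 1)), st r φ x = r * φ p := by
  have h : r * p ≤ r * (p + 1) := by nlinarith
  rw [intervalIntegral.integral_of_le h, integral_Ioc_eq_integral_Ioo,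
    setIntegral_congr_fun (g := fun _ => φ p) measurableSet_Ioo fun x hx => ?_]
  · rw [setIntegral_const, Real.volume_real_Ioo_of_le h, smul_eq_mul]
    ring
  · unfold st
    rw [(floor_eq_iff' hr p).2 ⟨hx.1.le, hx.2⟩]

lemma st_prim {r : ℝ} (hr : 0 < r) {φ : ℤ → ℝ} (hφ : ∀ q, φ (2 * q + 1) = -φ (2 * q))
    (hi : Integrable (st r φ)) (x : ℝ) : |∫ t in (0 : ℝ)..x, st r φ t| ≤ 2 * r * |st r φ x| := by
  have ii : ∀ a b, IntervalIntegrable (st r φ) volume a b := fun _ _ => hi.intervalIntegrable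
  have step : ∀ q : ℤ, ∫ t in (0 : ℝ)..(r * (2 * (q + 1))), st r φ t =
      ∫ t in (0 : ℝ)..(r * (2 * q)), st r φ t := fun q => by
    have h1 := st_cell hr φ (2 * q)
    have h2 := st_cell hr φ (2 * q + 1)
    push_cast at h1 h2
    rw [← intervalIntegral.integral_add_adjacent_intervals (ii 0 (r * (2 * q))) (ii _ _),
      ← intervalIntegral.integral_add_adjacent_intervals (ii (r * (2 * q)) (r * (2 * q + 1)))
        (ii _ _), h1, show r * (2 * ((q : ℝ) + 1)) = r * (2 * q + 1 + 1) by ring, h2, hφ]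
    ring
  have zero : ∀ q : ℤ, ∫ t in (0 : ℝ)..(r * (2 * q)), st r φ t = 0 := fun q => by
    induction q using Int.induction_on with
    | zero => simp
    | succ i ih =>
      have := step i
      push_cast at this ih ⊢
      rw [this, ih]
    | pred i ih =>
      have := step (-i - 1)
      push_cast at this ih ⊢
      rw [← this, ← ih]
      congr 1
      ring
  set p := ⌊x / r⌋ with hp
  set q := p / 2 with hq
  have hx := (floor_eq_iff' hr p).1 hp.symm
  have habs : ∀ p' : ℤ, 2 * q ≤ p' → p' ≤ 2 * q + 1 → |φ p'| = |φ (2 * q)| := fun p' h1 h2 => by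
    obtain h | h : p' = 2 * q ∨ p' = 2 * q + 1 := by omega
    · rw [h]
    · rw [h, hφ, abs_neg]
  have h1 : 2 * q ≤ p := by omega
  have h2 : p ≤ 2 * q + 1 := by omega
  have h1' : (2 * q : ℝ) ≤ p := by exact_mod_cast h1
  have h2' : (p : ℝ) ≤ 2 * q + 1 := by exact_mod_cast h2
  have h3 : r * (2 * q) ≤ x := by nlinarith [hx.1]
  have h4 : x - r * (2 * q) ≤ 2 * r := by nlinarith [hx.2]
  rw [← intervalIntegral.integral_add_adjacent_intervals (ii 0 (r * (2 * q))) (ii _ x), zero,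
    zero_add]
  have := intervalIntegral.norm_integral_le_of_norm_le_const (a := r * (2 * q)) (b := x)
    (f := st r φ) (C := |φ (2 * q)|) fun t ht => by
      rw [Set.uIoc_of_le h3] at ht
      refine le_of_eq (habs _ ?_ (le_trans ?_ h2))
      · rw [Int.le_floor, le_div_iff₀ hr]
        push_cast
        linarith [ht.1]
      · exact Int.floor_mono (div_le_div_of_nonneg_right ht.2 hr.le)
  rw [Real.norm_eq_abs, abs_of_nonneg (sub_nonneg.2 h3)] at this
  refine this.trans ?_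
  change _ ≤ 2 * r * |φ p|
  rw [habs p h1 h2, mul_comm]
  exact mul_le_mul_of_nonneg_right h4 (abs_nonneg _)

/-- Bounded integrable functions with cancellation at scale `r`. -/
structure Nice (g : ℝ → ℝ) (r : ℝ) : Prop where
  m : Measurable g
  i : Integrable g
  b : ∀ x, |g x| ≤ 1
  p : ∀ s t, |∫ x in s..t, g x| ≤ 2 * r * (|g s| + |g t|)

lemma st_nice {r : ℝ} (hr : 0 < r) {φ : ℤ → ℝ} (hφ : ∀ q, φ (2 * q + 1) = -φ (2 * q))
    (hb : ∀ p, |φ p| ≤ 1) (S : Finset ℤ) (hS : ∀ p ∉ S, φ p = 0) : Nice (st r φ) r := by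
  have hi := (st_int hr S hS).1
  refine ⟨st_meas r φ, hi, fun x => hb _, fun s t => ?_⟩
  rw [← intervalIntegral.integral_interval_sub_left (a := 0) hi.intervalIntegrable
    hi.intervalIntegrable]
  refine (abs_sub _ _).trans ?_
  linarith [st_prim hr hφ hi s, st_prim hr hφ hi t]

variable {g h : ℝ → ℝ} {r : ℝ}

lemma Nice.mul (hg : Nice g r) (hh : Nice h r) (s t : ℝ) :
    Integrable fun x => g (x + s) * h (x + t) :=
  (hg.i.comp_add_right s).mul_bdd (c := 1)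
    (hh.m.comp (measurable_id.add_const t)).aestronglyMeasurable (.of_forall fun _ => hh.b _)

lemma Nice.sq (hg : Nice g r) (t : ℝ) : Integrable fun x => g (x + t) ^ 2 := by
  simpa only [pow_two] using hg.mul hg t t

lemma Nice.amgm (hg : Nice g r) (hh : Nice h r) (t : ℝ) :
    Integrable (fun x => |g x| * |h (x + t)|) ∧
      ∫ x, |g x| * |h (x + t)| ≤ ((∫ x, g x ^ 2) + ∫ x, h x ^ 2) / 2 := by
  have i1 : Integrable fun x => |g x| * |h (x + t)| := by
    simpa only [add_zero, abs_mul] using (hg.mul hh 0 t).abs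
  have i2 : Integrable fun x => g x ^ 2 := by simpa only [add_zero] using hg.sq 0
  refine ⟨i1, ?_⟩
  rw [← integral_add_right_eq_self (fun x => h x ^ 2) t, ← integral_add i2 (hh.sq t),
    ← integral_div]
  refine integral_mono i1 ((i2.add (hh.sq t)).div_const 2) fun x => ?_
  nlinarith [sq_nonneg (|g x| - |h (x + t)|), sq_abs (g x), sq_abs (h (x + t))]

/-- The interval of slopes. -/
abbrev SI : Set ℝ := Set.Ioc (-(1 / 4)) (1 / 4)

lemma core (hg : Nice g r) (hh : Nice h r) (hr : 0 ≤ r) (v : ℝ) {T : ℝ} (hT : 0 < T) :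
    IntegrableOn (fun a => ∫ x, g x * h (x + v * a)) SI ∧
      ∫ a in SI, ∫ x, g x * h (x + v * a) ≤
        ((if |v| ≤ T then 1 / 4 else 0) + 2 * r / T) * ((∫ x, g x ^ 2) + ∫ x, h x ^ 2) := by
  have hi : Integrable (Function.uncurry fun a x => g x * h (x + v * a))
      ((volume.restrict SI).prod volume) := by
    refine (hg.i.comp_snd _).mul_bdd (c := 1) ?_ (.of_forall fun _ => hh.b _)
    exact (hh.m.comp (by fun_prop)).aestronglyMeasurable
  have i0 : IntegrableOn (fun a => ∫ x, g x * h (x + v * a)) SI := hi.integral_prod_left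
  refine ⟨i0, ?_⟩
  set G := (∫ x, g x ^ 2) + ∫ x, h x ^ 2 with hG
  have G0 : 0 ≤ G := add_nonneg (integral_nonneg fun _ => sq_nonneg _)
    (integral_nonneg fun _ => sq_nonneg _)
  split_ifs with hv
  · have : ∫ a in SI, ∫ x, g x * h (x + v * a) ≤ ∫ a in SI, G / 2 := by
      refine setIntegral_mono_on i0 (integrableOn_const (by simp)) measurableSet_Ioc fun a _ => ?_
      refine le_trans ?_ (hg.amgm hh (v * a)).2
      refine integral_mono (by simpa only [add_zero] using hg.mul hh 0 (v * a))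
        (hg.amgm hh (v * a)).1 fun x => ?_
      exact (le_abs_self _).trans (abs_mul _ _).le
    rw [setIntegral_const, Real.volume_real_Ioc_of_le (by norm_num), smul_eq_mul] at this
    have h2 : 0 ≤ 2 * r / T * G := by positivity
    linarith
  · push Not at hv
    have hv0 : 0 < |v| := hT.trans hv
    have hv1 : v ≠ 0 := abs_pos.1 hv0
    rw [integral_integral_swap hi, zero_add]
    obtain ⟨i1, e1⟩ := hg.amgm hh (v * -(1 / 4))
    obtain ⟨i2, e2⟩ := hg.amgm hh (v * (1 / 4))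
    have key : ∀ x, ‖∫ a in SI, g x * h (x + v * a)‖ ≤
        2 * r / T * (|g x| * |h (x + v * -(1 / 4))| + |g x| * |h (x + v * (1 / 4))|) := fun x => by
      rw [integral_const_mul, ← intervalIntegral.integral_of_le (by norm_num),
        intervalIntegral.integral_comp_add_mul h hv1 x, Real.norm_eq_abs, smul_eq_mul, abs_mul,
        abs_mul, abs_inv]
      calc _ ≤ |g x| * (T⁻¹ * (2 * r * (|h (x + v * -(1 / 4))| + |h (x + v * (1 / 4))|))) := by
            gcongr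
            exact hh.p _ _
        _ = _ := by ring
    refine (le_abs_self _).trans ((norm_integral_le_of_norm_le
      ((i1.add i2).const_mul (2 * r / T)) (.of_forall key)).trans ?_)
    rw [integral_const_mul]
    refine mul_le_mul_of_nonneg_left ?_ (by positivity)
    have : ∫ x, (|g x| * |h (x + v * -(1 / 4))| + |g x| * |h (x + v * (1 / 4))|) ≤ G := by
      rw [integral_add i1 i2]
      linarith
    exact this

lemma win_int (W : Finset ℤ) {g : ℤ → ℝ → ℝ} (hg : ∀ y, Nice (g y) r) (a : ℝ) :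
    Integrable (fun x => (∑ y ∈ W, g y (x - a * y)) ^ 2) ∧
      ∫ x, (∑ y ∈ W, g y (x - a * y)) ^ 2 =
        ∑ y ∈ W, ∑ y' ∈ W, ∫ x, g y x * g y' (x + ((y : ℝ) - y') * a) := by
  have e : (fun x => (∑ y ∈ W, g y (x - a * y)) ^ 2) =
      fun x => ∑ y ∈ W, ∑ y' ∈ W, g y (x + -(a * y)) * g y' (x + -(a * y')) := by
    funext x
    rw [pow_two, sum_mul_sum]
    simp only [sub_eq_add_neg]
  have hi : ∀ y ∈ W, Integrable fun x => ∑ y' ∈ W, g y (x + -(a * y)) * g y' (x + -(a * y')) :=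
    fun y _ => integrable_finsetSum _ fun y' _ => (hg y).mul (hg y') _ _
  rw [e]
  refine ⟨integrable_finsetSum _ hi, ?_⟩
  rw [integral_finsetSum _ hi]
  refine sum_congr rfl fun y _ => ?_
  rw [integral_finsetSum _ fun y' _ => (hg y).mul (hg y') _ _]
  refine sum_congr rfl fun y' _ => ?_
  rw [← integral_add_right_eq_self _ (a * y)]
  refine integral_congr_ae (.of_forall fun x => ?_)
  simp only []
  congr 2 <;> ring

lemma win (W : Finset ℤ) {g : ℤ → ℝ → ℝ} (hg : ∀ y, Nice (g y) r) (hr : 0 ≤ r) {T : ℝ}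
    (hT : 0 < T) : IntegrableOn (fun a => ∫ x, (∑ y ∈ W, g y (x - a * y)) ^ 2) SI ∧
      ∫ a in SI, ∫ x, (∑ y ∈ W, g y (x - a * y)) ^ 2 ≤
        ((2 * T + 1) / 2 + W.card * (4 * r / T)) * ∑ y ∈ W, ∫ x, g y x ^ 2 := by
  simp only [(win_int W hg _).2]
  have hi : ∀ y ∈ W, IntegrableOn
      (fun a => ∑ y' ∈ W, ∫ x, g y x * g y' (x + ((y : ℝ) - y') * a)) SI :=
    fun y _ => integrable_finsetSum _ fun y' _ => (core (hg y) (hg y') hr _ hT).1
  refine ⟨integrable_finsetSum _ hi, ?_⟩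
  rw [integral_finsetSum _ hi]
  set m : ℤ → ℤ → ℝ := fun y y' => (if |(y : ℝ) - y'| ≤ T then 1 / 4 else 0) + 2 * r / T with hm
  set e : ℤ → ℝ := fun y => ∫ x, g y x ^ 2 with he
  have e0 : ∀ y, 0 ≤ e y := fun y => integral_nonneg fun _ => sq_nonneg _
  have hs : ∀ y y', m y y' = m y' y := fun y y' => by simp only [hm, abs_sub_comm]
  have hrow : ∀ y, ∑ y' ∈ W, m y' y ≤ (2 * T + 1) / 4 + W.card * (2 * r / T) := fun y => by
    simp only [hm]
    rw [sum_add_distrib, sum_const, nsmul_eq_mul, ← sum_filter, sum_const, nsmul_eq_mul]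
    have := card_near (W.filter fun y' : ℤ => |(y' : ℝ) - y| ≤ T) hT.le
      fun u hu => (mem_filter.1 hu).2
    linarith
  calc _ ≤ ∑ y ∈ W, ∑ y' ∈ W, m y y' * (e y + e y') := by
        refine sum_le_sum fun y _ => ?_
        rw [integral_finsetSum _ fun y' _ => (core (hg y) (hg y') hr _ hT).1]
        exact sum_le_sum fun y' _ => (core (hg y) (hg y') hr _ hT).2
    _ = 2 * ∑ y ∈ W, (∑ y' ∈ W, m y' y) * e y := by
        simp only [mul_add, sum_add_distrib, sum_mul, two_mul]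
        congr 1
        · exact sum_congr rfl fun y _ => sum_congr rfl fun y' _ => by rw [hs]
        · exact sum_comm
    _ ≤ 2 * ∑ y ∈ W, ((2 * T + 1) / 4 + W.card * (2 * r / T)) * e y := by
        refine mul_le_mul_of_nonneg_left (sum_le_sum fun y _ => ?_) zero_le_two
        exact mul_le_mul_of_nonneg_right (hrow y) (e0 y)
    _ = _ := by rw [← mul_sum]; ring

lemma unfold_le {F : ℝ → ℝ} (hF : Integrable F) (h0 : ∀ x, 0 ≤ F x) (I : Finset ℤ) {ρ c0 c1 : ℝ}
    (hρ : 0 < ρ) (hc : c0 ≤ c1) :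
    ∑ i ∈ I, ∫ c in Set.Ioc c0 c1, F (c + ρ * i) ≤ ((c1 - c0) / ρ + 1) * ∫ x, F x := by
  have e : ∀ i ∈ I, ∫ c in Set.Ioc c0 c1, F (c + ρ * i) =
      ∫ x, (Set.Ioc (c0 + ρ * i) (c1 + ρ * i)).indicator F x := fun i _ => by
    rw [integral_indicator measurableSet_Ioc, ← intervalIntegral.integral_of_le hc,
      ← intervalIntegral.integral_of_le (by linarith), intervalIntegral.integral_comp_add_right]
  have hi : ∀ i ∈ I, Integrable ((Set.Ioc (c0 + ρ * i) (c1 + ρ * i)).indicator F) :=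
    fun i _ => hF.indicator measurableSet_Ioc
  rw [sum_congr rfl e, ← integral_finsetSum _ hi, ← integral_const_mul]
  refine integral_mono (integrable_finsetSum _ hi) (hF.const_mul _) fun x => ?_
  classical
  simp only [Set.indicator_apply]
  rw [← sum_filter, sum_const, nsmul_eq_mul]
  refine mul_le_mul_of_nonneg_right ?_ (h0 x)
  have := card_near (I.filter fun i : ℤ => x ∈ Set.Ioc (c0 + ρ * i) (c1 + ρ * i))
    (x := (x - (c0 + c1) / 2) / ρ) (ρ := (c1 - c0) / 2 / ρ)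
    (div_nonneg (by linarith) hρ.le) fun u hu => by
      obtain ⟨h1, h2⟩ := (mem_filter.1 hu).2
      rw [show (u : ℝ) - (x - (c0 + c1) / 2) / ρ = (ρ * u - (x - (c0 + c1) / 2)) / ρ by
        field_simp, abs_div, abs_of_pos hρ]
      refine div_le_div_of_nonneg_right (abs_le.2 ⟨?_, ?_⟩) hρ.le <;> linarith
  refine this.trans (le_of_eq ?_)
  ring

/-- Density of `E` in the row `y` on the dyadic interval of length `2 ^ l` and index `p`. -/
noncomputable def av (E : Finset (ℤ × ℤ)) (y : ℤ) (l : ℕ) (p : ℤ) : ℝ :=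
  (∑ w ∈ E, if w.2 = y ∧ w.1 / 2 ^ l = p then 1 else 0) / 2 ^ l

variable (E : Finset (ℤ × ℤ))

lemma av_zero (y p : ℤ) : av E y 0 p = if (p, y) ∈ E then 1 else 0 := by
  unfold av
  rw [pow_zero (2 : ℝ), div_one, ← sum_ite_eq E (p, y) fun _ => (1 : ℝ)]
  refine sum_congr rfl fun w _ => ?_
  simp only [pow_zero, Int.ediv_one, Prod.ext_iff, eq_comm, and_comm]

lemma av_succ (y : ℤ) (l : ℕ) (q : ℤ) :
    av E y (l + 1) q = (av E y l (2 * q) + av E y l (2 * q + 1)) / 2 := by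
  unfold av
  rw [← add_div, ← sum_add_distrib, div_div, ← pow_succ]
  congr 1
  refine sum_congr rfl fun w _ => ?_
  rw [pow_succ, ← Int.ediv_ediv_of_nonneg (by positivity)]
  generalize w.1 / 2 ^ l = t
  by_cases h : w.2 = y
  · simp only [h, true_and]
    split_ifs <;> first | omega | norm_num
  · simp [h]

lemma av_nonneg (y : ℤ) (l : ℕ) (p : ℤ) : 0 ≤ av E y l p :=
  div_nonneg (sum_nonneg fun _ _ => by split_ifs <;> norm_num) (by positivity)

lemma av_le (y : ℤ) (l : ℕ) (p : ℤ) : av E y l p ≤ 1 := by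
  induction l generalizing p with
  | zero => rw [av_zero]; split_ifs <;> norm_num
  | succ l ih => rw [av_succ]; linarith [ih (2 * p), ih (2 * p + 1)]

variable {E} {B : ℕ}

lemma av_supp (hB : ∀ w ∈ E, |w.1| < B ∧ |w.2| < B) (y : ℤ) (l : ℕ) (p : ℤ)
    (hp : p ∉ Ico (-B : ℤ) B) : av E y l p = 0 := by
  induction l generalizing p with
  | zero =>
    rw [av_zero, if_neg]
    intro h
    have := abs_lt.1 (hB _ h).1
    exact hp (mem_Ico.2 ⟨this.1.le, this.2⟩)
  | succ l ih =>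
    rw [mem_Ico] at hp
    rw [av_succ, ih, ih] <;> first | (rw [mem_Ico]; omega) | norm_num

lemma pair_sum (B : ℕ) (F : ℤ → ℝ) : ∑ p ∈ Ico (-(2 * B) : ℤ) (2 * B), F p =
    ∑ q ∈ Ico (-B : ℤ) B, (F (2 * q) + F (2 * q + 1)) := by
  have e : Ico (-(2 * B) : ℤ) (2 * B) = (Ico (-B : ℤ) B).image (fun q => 2 * q) ∪
      (Ico (-B : ℤ) B).image fun q => 2 * q + 1 := by
    ext p
    simp only [mem_union, mem_image, mem_Ico]
    constructor
    · intro h
      rcases Int.emod_two_eq_zero_or_one p with h1 | h1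
      · exact Or.inl ⟨p / 2, by omega, by omega⟩
      · exact Or.inr ⟨p / 2, by omega, by omega⟩
    · rintro (⟨q, h, rfl⟩ | ⟨q, h, rfl⟩) <;> omega
  rw [e, sum_union, sum_image, sum_image, sum_add_distrib]
  · intro a _ b _ h
    simp only at h
    omega
  · intro a _ b _ h
    simp only at h
    omega
  · rw [disjoint_left]
    simp only [mem_image]
    rintro p ⟨a, _, rfl⟩ ⟨b, _, h⟩
    omega

/-- Haar coefficients. -/
noncomputable def hc (E : Finset (ℤ × ℤ)) (y : ℤ) (l : ℕ) (p : ℤ) : ℝ :=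
  av E y l p - av E y (l + 1) (p / 2)

/-- Martingale differences in the row `y`. -/
noncomputable def D (E : Finset (ℤ × ℤ)) (l : ℕ) (y : ℤ) : ℝ → ℝ := st (2 ^ l) (hc E y l)

lemma hc_supp (hB : ∀ w ∈ E, |w.1| < B ∧ |w.2| < B) (y : ℤ) (l : ℕ) :
    ∀ p ∉ Ico (-(2 * B) : ℤ) (2 * B), hc E y l p = 0 := fun p hp => by
  rw [mem_Ico] at hp
  unfold hc
  rw [av_supp hB, av_supp hB, sub_zero] <;> rw [mem_Ico] <;> omega

lemma D_nice (hB : ∀ w ∈ E, |w.1| < B ∧ |w.2| < B) (l : ℕ) (y : ℤ) : Nice (D E l y) (2 ^ l) := by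
  refine st_nice (by positivity) (fun q => ?_) (fun p => ?_) _ (hc_supp hB y l)
  · unfold hc
    rw [show (2 * q + 1) / 2 = q by omega, show 2 * q / 2 = q by omega, av_succ]
    ring
  · unfold hc
    rw [abs_le]
    constructor <;> linarith [av_nonneg E y l p, av_le E y l p, av_nonneg E y (l + 1) (p / 2),
      av_le E y (l + 1) (p / 2)]

lemma D_energy (hB : ∀ w ∈ E, |w.1| < B ∧ |w.2| < B) (y : ℤ) (n : ℕ) :
    ∑ l ∈ range n, ∫ x, D E l y x ^ 2 ≤
      ∑ p ∈ Ico (-B : ℤ) B, if (p, y) ∈ E then (1 : ℝ) else 0 := by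
  set e : ℕ → ℝ := fun l => 2 ^ l * ∑ p ∈ Ico (-B : ℤ) B, av E y l p ^ 2 with he
  have key : ∀ l, ∫ x, D E l y x ^ 2 = e l - e (l + 1) := fun l => by
    have h1 := (st_int (r := 2 ^ l) (φ := fun p => hc E y l p ^ 2) (by positivity) _
      fun p hp => by rw [hc_supp hB y l p hp]; norm_num).2
    have h2 : ∑ p ∈ Ico (-B : ℤ) B, av E y l p ^ 2 =
        ∑ p ∈ Ico (-(2 * B) : ℤ) (2 * B), av E y l p ^ 2 :=
      sum_subset (Ico_subset_Ico (by omega) (by omega)) fun p _ hp => by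
        rw [av_supp hB y l p hp]; norm_num
    refine h1.trans ?_
    simp only [he]
    rw [h2, pair_sum, pair_sum, pow_succ, mul_assoc, ← mul_sub, mul_sum _ _ (2 : ℝ),
      ← sum_sub_distrib]
    congr 1
    refine sum_congr rfl fun q _ => ?_
    unfold hc
    rw [show (2 * q + 1) / 2 = q by omega, show 2 * q / 2 = q by omega, av_succ]
    ring
  simp only [key]
  rw [sum_range_sub']
  have h0 : 0 ≤ e n := mul_nonneg (by positivity) (sum_nonneg fun _ _ => sq_nonneg _)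
  have h1 : e 0 = ∑ p ∈ Ico (-B : ℤ) B, if (p, y) ∈ E then (1 : ℝ) else 0 := by
    simp only [he, pow_zero, one_mul, av_zero]
    refine sum_congr rfl fun p _ => ?_
    split_ifs <;> norm_num
  linarith

lemma D_total (hB : ∀ w ∈ E, |w.1| < B ∧ |w.2| < B) (Y : Finset ℤ) (n : ℕ) :
    ∑ l ∈ range n, ∑ y ∈ Y, ∫ x, D E l y x ^ 2 ≤ E.card := by
  rw [sum_comm]
  refine (sum_le_sum fun y _ => D_energy hB y n).trans ?_
  rw [← sum_product_right' (f := fun p y => if (p, y) ∈ E then (1 : ℝ) else 0), sum_boole]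
  exact_mod_cast card_le_card fun w hw => (mem_filter.1 hw).2

lemma D_tele (y : ℤ) (x : ℝ) (m : ℕ) : (if (⌊x⌋, y) ∈ E then (1 : ℝ) else 0) =
    av E y m ⌊x / 2 ^ m⌋ + ∑ l ∈ range m, D E l y x := by
  induction m with
  | zero => simp [av_zero]
  | succ m ih =>
    rw [ih, sum_range_succ]
    unfold D st hc
    have : ⌊x / 2 ^ (m + 1)⌋ = ⌊x / 2 ^ m⌋ / 2 := by
      rw [pow_succ, ← div_div]
      exact_mod_cast Int.floor_div_natCast (x / 2 ^ m) 2
    rw [this]
    ring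

/-- The rows at distance at most `5 * 2 ^ k` from row `v`. -/
noncomputable abbrev Wd (k : ℕ) (v : ℤ) : Finset ℤ := Icc (v - 5 * 2 ^ k) (v + 5 * 2 ^ k)

lemma mem_Wd {k : ℕ} {v y : ℤ} (h : y ∈ Wd k v) : |(y : ℝ) - v| ≤ 5 * 2 ^ k := by
  rw [mem_Icc] at h
  have : |y - v| ≤ 5 * 2 ^ k := abs_le.2 ⟨by linarith [h.1], by linarith [h.2]⟩
  exact_mod_cast this

lemma card_le_of_near (S : Finset ℤ) {x : ℝ} (k : ℕ) (h : ∀ u ∈ S, |(u : ℝ) - x| ≤ 5 * 2 ^ k) :
    (S.card : ℝ) ≤ 11 * 2 ^ k := by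
  have h1 : (1 : ℝ) ≤ 2 ^ k := one_le_pow₀ one_le_two
  linarith [card_near S (by positivity) h]

/-- Sum of a martingale difference along a segment of a line. -/
noncomputable def TT (E : Finset (ℤ × ℤ)) (a : ℝ) (k l : ℕ) (v : ℤ) (x : ℝ) : ℝ :=
  ∑ y ∈ Wd k v, D E l y (x - a * y)

lemma TT_int (hB : ∀ w ∈ E, |w.1| < B ∧ |w.2| < B) {k l : ℕ} (hl : l < k) (v : ℤ) :
    IntegrableOn (fun a => ∫ x, TT E a k l v x ^ 2) SI ∧
      ∫ a in SI, ∫ x, TT E a k l v x ^ 2 ≤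
        46 * 2 ^ k * (3 / 4) ^ (k - l) * ∑ y ∈ Wd k v, ∫ x, D E l y x ^ 2 := by
  obtain ⟨s, rfl⟩ := Nat.exists_eq_add_of_le hl.le
  obtain ⟨i, e⟩ := win (Wd (l + s) v) (D_nice hB l) (by positivity)
    (T := 2 ^ l * (3 / 2) ^ s) (by positivity)
  refine ⟨i, e.trans (mul_le_mul_of_nonneg_right ?_
    (sum_nonneg fun _ _ => integral_nonneg fun _ => sq_nonneg _))⟩
  have h1 := card_le_of_near (Wd (l + s) v) (l + s) fun _ => mem_Wd
  have h2 : (1 : ℝ) ≤ 2 ^ l * (3 / 2) ^ s :=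
    one_le_mul_of_one_le_of_one_le (one_le_pow₀ one_le_two) (one_le_pow₀ (by norm_num))
  have h3 : (2 : ℝ) ^ l * (3 / 2) ^ s = 2 ^ (l + s) * (3 / 4) ^ s := by
    rw [pow_add, mul_assoc, ← mul_pow]
    norm_num
  have h4 : 4 * (2 : ℝ) ^ l / (2 ^ l * (3 / 2) ^ s) ≤ 4 * (3 / 4) ^ s := by
    rw [div_le_iff₀ (by positivity)]
    have : (1 : ℝ) ≤ (3 / 4) ^ s * (3 / 2) ^ s := by
      rw [← mul_pow]
      exact one_le_pow₀ (by norm_num)
    have h5 : (0 : ℝ) < 2 ^ l := by positivity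
    nlinarith
  have h6 := mul_le_mul h1 h4 (by positivity) (by positivity)
  rw [Nat.add_sub_cancel_left]
  nlinarith

/-- The weighted square sum attached to a segment. -/
noncomputable def YY (E : Finset (ℤ × ℤ)) (a : ℝ) (k : ℕ) (v : ℤ) (x : ℝ) : ℝ :=
  ∑ l ∈ range k, (5 / 4) ^ (k - l) * TT E a k l v x ^ 2

lemma YY_nonneg (a : ℝ) (k : ℕ) (v : ℤ) (x : ℝ) : 0 ≤ YY E a k v x :=
  sum_nonneg fun _ _ => by positivity

lemma YY_int (hB : ∀ w ∈ E, |w.1| < B ∧ |w.2| < B) (a : ℝ) (k : ℕ) (v : ℤ) :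
    Integrable (YY E a k v) ∧
      ∫ x, YY E a k v x = ∑ l ∈ range k, (5 / 4) ^ (k - l) * ∫ x, TT E a k l v x ^ 2 := by
  have hi : ∀ l ∈ range k, Integrable fun x => (5 / 4 : ℝ) ^ (k - l) * TT E a k l v x ^ 2 :=
    fun l _ => (win_int _ (D_nice hB l) a).1.const_mul _
  refine ⟨integrable_finsetSum _ hi, ?_⟩
  unfold YY
  rw [integral_finsetSum _ hi]
  simp only [integral_const_mul]

lemma choose_a (hB : ∀ w ∈ E, |w.1| < B ∧ |w.2| < B) (n : ℕ) (I : Finset ℤ) : ∃ a ∈ SI,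
    ∑ k ∈ range (n + 1), ∑ v ∈ I, ((4 : ℝ) ^ k)⁻¹ * ∫ x, YY E a k v x ≤ 16192 * E.card := by
  simp only [(YY_int hB _ _ _).2]
  have i1 : ∀ k v, IntegrableOn
      (fun a => ∑ l ∈ range k, (5 / 4 : ℝ) ^ (k - l) * ∫ x, TT E a k l v x ^ 2) SI := fun k v =>
    integrable_finsetSum _ fun l hl => (TT_int hB (mem_range.1 hl) v).1.const_mul _
  have i2 : ∀ k, IntegrableOn (fun a => ∑ v ∈ I, ((4 : ℝ) ^ k)⁻¹ *
      ∑ l ∈ range k, (5 / 4 : ℝ) ^ (k - l) * ∫ x, TT E a k l v x ^ 2) SI := fun k =>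
    integrable_finsetSum _ fun v _ => (i1 k v).const_mul _
  obtain ⟨a, ha, h⟩ := pick (by norm_num) (integrable_finsetSum (range (n + 1)) fun k _ => i2 k)
  refine ⟨a, ha, ?_⟩
  set Y := (range (n + 1)).biUnion fun k => I.biUnion (Wd k) with hY
  set e : ℕ → ℤ → ℝ := fun l y => ∫ x, D E l y x ^ 2 with he
  have e0 : ∀ l y, 0 ≤ e l y := fun l y => integral_nonneg fun _ => sq_nonneg _
  have b1 : ∀ k ∈ range (n + 1), ∀ l, ∑ v ∈ I, ∑ y ∈ Wd k v, e l y ≤ 11 * 2 ^ k * ∑ y ∈ Y, e l y := by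
    intro k hk l
    rw [sum_comm' (t' := Y) (s' := fun y => I.filter fun v => y ∈ Wd k v), mul_sum]
    · refine sum_le_sum fun y _ => ?_
      rw [sum_const, nsmul_eq_mul]
      refine mul_le_mul_of_nonneg_right (card_le_of_near _ (x := y) k fun v hv => ?_) (e0 l y)
      rw [abs_sub_comm]
      exact mem_Wd (mem_filter.1 hv).2
    · intro v y
      simp only [hY, mem_filter, mem_biUnion]
      exact ⟨fun h => ⟨h, k, hk, v, h⟩, fun h => h.1⟩
  have b2 : ∀ k ∈ range (n + 1), ∫ a in SI, ∑ v ∈ I, ((4 : ℝ) ^ k)⁻¹ *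
      ∑ l ∈ range k, (5 / 4 : ℝ) ^ (k - l) * ∫ x, TT E a k l v x ^ 2 ≤
      ∑ l ∈ range k, 506 * (15 / 16 : ℝ) ^ (k - l) * ∑ y ∈ Y, e l y := by
    intro k hk
    rw [integral_finsetSum _ fun v _ => (i1 k v).const_mul _]
    calc _ ≤ ∑ v ∈ I, ∑ l ∈ range k, ((4 : ℝ) ^ k)⁻¹ * (5 / 4 : ℝ) ^ (k - l) *
          (46 * 2 ^ k * (3 / 4) ^ (k - l)) * ∑ y ∈ Wd k v, e l y := by
          refine sum_le_sum fun v _ => ?_
          rw [integral_const_mul, integral_finsetSum _ fun l hl =>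
            (TT_int hB (mem_range.1 hl) v).1.const_mul _, mul_sum]
          refine sum_le_sum fun l hl => ?_
          rw [integral_const_mul, mul_assoc, mul_assoc]
          gcongr
          exact (TT_int hB (mem_range.1 hl) v).2
      _ ≤ _ := by
          rw [sum_comm]
          refine sum_le_sum fun l _ => ?_
          rw [← mul_sum]
          refine (mul_le_mul_of_nonneg_left (b1 k hk l) (by positivity)).trans (le_of_eq ?_)
          rw [show (15 / 16 : ℝ) = 5 / 4 * (3 / 4) by norm_num, mul_pow,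
            show (4 : ℝ) ^ k = 2 ^ k * 2 ^ k by rw [← mul_pow]; norm_num]
          field_simp
          ring
  have b3 : ∑ k ∈ range (n + 1), ∑ l ∈ range k, 506 * (15 / 16 : ℝ) ^ (k - l) * ∑ y ∈ Y, e l y ≤
      ∑ l ∈ range n, 8096 * ∑ y ∈ Y, e l y := by
    rw [sum_comm' (t' := range n) (s' := fun l => (range (n + 1)).filter fun k => l < k)]
    · refine sum_le_sum fun l _ => ?_
      rw [← sum_mul, ← mul_sum]
      refine mul_le_mul_of_nonneg_right ?_ (sum_nonneg fun y _ => e0 l y)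
      have := geo ((range (n + 1)).filter fun k => l < k) (fun k => k - l)
        (fun a ha b hb hab => by
          have h1 := (mem_filter.1 ha).2
          have h2 := (mem_filter.1 hb).2
          simp only at hab
          omega) (q := 15 / 16) (by norm_num) (by norm_num)
      norm_num at this ⊢
      linarith
    · intro k l
      simp only [mem_filter, mem_range]
      omega
  rw [integral_finsetSum _ fun k _ => i2 k] at h
  have b4 := D_total hB Y n
  rw [← mul_sum] at b3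
  have b5 := (h.trans (sum_le_sum b2)).trans b3
  linarith

/-- The total weighted square sum. -/
noncomputable def XX (E : Finset (ℤ × ℤ)) (n : ℕ) (I : Finset ℤ) (a c : ℝ) : ℝ :=
  ∑ k ∈ range (n + 1), ∑ v ∈ I, ((2 : ℝ) ^ k)⁻¹ * ∑ i ∈ I, YY E a k v (c + 2 ^ k * i)

lemma choose_ac (hB : ∀ w ∈ E, |w.1| < B ∧ |w.2| < B) (n : ℕ) (I : Finset ℤ) : ∃ a c : ℝ,
    |a| ≤ 1 / 4 ∧ 3 / 8 * 2 ^ n ≤ c ∧ c ≤ 5 / 8 * 2 ^ n ∧ XX E n I a c ≤ 130000 * E.card := by
  obtain ⟨a, ha, h⟩ := choose_a hB n I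
  have hn : (0 : ℝ) < 2 ^ n := by positivity
  have hlt : (3 / 8 * 2 ^ n : ℝ) < 5 / 8 * 2 ^ n := by linarith
  have i0 : ∀ k v (i : ℤ), IntegrableOn (fun c => YY E a k v (c + 2 ^ k * i))
      (Set.Ioc (3 / 8 * 2 ^ n) (5 / 8 * 2 ^ n)) := fun k v i =>
    ((YY_int hB a k v).1.comp_add_right _).integrableOn
  have i1 : ∀ k v, IntegrableOn (fun c => ((2 : ℝ) ^ k)⁻¹ * ∑ i ∈ I, YY E a k v (c + 2 ^ k * i))
      (Set.Ioc (3 / 8 * 2 ^ n) (5 / 8 * 2 ^ n)) := fun k v =>
    (integrable_finsetSum _ fun i _ => i0 k v i).const_mul _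
  have i2 : ∀ k, IntegrableOn
      (fun c => ∑ v ∈ I, ((2 : ℝ) ^ k)⁻¹ * ∑ i ∈ I, YY E a k v (c + 2 ^ k * i))
      (Set.Ioc (3 / 8 * 2 ^ n) (5 / 8 * 2 ^ n)) := fun k =>
    integrable_finsetSum _ fun v _ => i1 k v
  obtain ⟨c, hc, h'⟩ := pick hlt (integrable_finsetSum (range (n + 1)) fun k _ => i2 k)
  refine ⟨a, c, abs_le.2 ⟨ha.1.le, ha.2⟩, hc.1.le, hc.2, ?_⟩
  rw [integral_finsetSum _ fun k _ => i2 k] at h'
  have b1 : ∀ k ∈ range (n + 1), ∫ c in Set.Ioc (3 / 8 * 2 ^ n : ℝ) (5 / 8 * 2 ^ n),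
      ∑ v ∈ I, ((2 : ℝ) ^ k)⁻¹ * ∑ i ∈ I, YY E a k v (c + 2 ^ k * i) ≤
      2 * 2 ^ n * ∑ v ∈ I, ((4 : ℝ) ^ k)⁻¹ * ∫ x, YY E a k v x := by
    intro k hk
    rw [integral_finsetSum _ fun v _ => i1 k v, mul_sum]
    refine sum_le_sum fun v _ => ?_
    rw [integral_const_mul, integral_finsetSum _ fun i _ => i0 k v i]
    have hk0 : (0 : ℝ) < 2 ^ k := by positivity
    refine (mul_le_mul_of_nonneg_left (unfold_le (YY_int hB a k v).1 (YY_nonneg a k v) I hk0 hlt.le)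
      (by positivity)).trans ?_
    rw [← mul_assoc, ← mul_assoc]
    refine mul_le_mul_of_nonneg_right ?_ (integral_nonneg (YY_nonneg a k v))
    have hkn : (2 : ℝ) ^ k ≤ 2 ^ n :=
      pow_le_pow_right₀ one_le_two (Nat.lt_succ_iff.1 (mem_range.1 hk))
    rw [show (4 : ℝ) ^ k = 2 ^ k * 2 ^ k by rw [← mul_pow]; norm_num]
    field_simp
    linarith
  have b2 := h'.trans (sum_le_sum b1)
  rw [← mul_sum] at b2
  have b3 : XX E n I a c * (5 / 8 * 2 ^ n - 3 / 8 * 2 ^ n) ≤ 2 * 2 ^ n * (16192 * E.card) :=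
    b2.trans (mul_le_mul_of_nonneg_left h (by positivity))
  have b4 : (0 : ℝ) ≤ E.card := by positivity
  refine le_of_mul_le_mul_right ?_ hn
  nlinarith [mul_nonneg b4 hn.le]

end XR

end Pool.Agent.Lib.MP_ecd4e3_gt
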