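import Pool.Agent.Lib.MP_ecd4e3_gt.Pinch

/-! Refinement of a block into two blocks touching along a short bridge. -/

namespace Pool.Agent.Lib.MP_ecd4e3_gt

open Set Filter Topology

/-- Boundary parameter of the left half in terms of the boundary parameter of the cell. -/
noncomputable def al1 (t : ℝ) : ℝ := t + min (t - 3) 0 + max (t - 4) 0

/-- Boundary parameter of the right half in terms of the boundary parameter of the cell. -/
noncomputable def al2 (t : ℝ) : ℝ := t + min (t - 1) 0 + max (t - 2) 0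

theorem zip_top {t : ℝ} (ht : t ∈ Icc (2 : ℝ) 3) : Γ t = (5 - 2 * t, 1) := by
  rw [← neg_sub, ← (Γ_eval (u := 2 * t - 5) ⟨by linarith [ht.1], by linarith [ht.2]⟩).2.2.1]
  congr 1; ring

theorem zip_bot {t : ℝ} (ht : t ∈ Icc (0 : ℝ) 1) : Γ t = (2 * t - 1, -1) := by
  rw [← (Γ_eval (u := 2 * t - 1) ⟨by linarith [ht.1], by linarith [ht.2]⟩).1]
  congr 1; ring

theorem zip_bot' {t : ℝ} (ht : t ∈ Icc (4 : ℝ) 5) : Γ t = (2 * t - 9, -1) := by
  rw [← sub_add_cancel t 4, Γ_add_four, zip_bot ⟨by linarith [ht.1], by linarith [ht.2]⟩]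
  congr 1; ring

theorem zip_al1 {t : ℝ} (ht : t ∈ Ioo (5 / 2 : ℝ) (9 / 2)) : A (-1) 0 (Γ (al1 t)) = Γ t := by
  obtain ⟨h1, h2⟩ := ht
  rcases le_total t 3 with h | h
  · rw [al1, min_eq_left (by linarith), max_eq_right (by linarith),
      zip_top ⟨by linarith, by linarith⟩, zip_top ⟨by linarith, h⟩, A, af]
    congr 1; ring
  rcases le_total t 4 with h' | h'
  · rw [al1, min_eq_right (by linarith), max_eq_right (by linarith), add_zero, add_zero,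
      pin_Γ_left ⟨h, h'⟩, A, af]
    congr 1; ring
  · rw [al1, min_eq_right (by linarith), max_eq_left (by linarith),
      zip_bot' ⟨by linarith, by linarith⟩, zip_bot' ⟨h', by linarith⟩, A, af]
    congr 1; ring

theorem zip_al2 {t : ℝ} (ht : t ∈ Ioo (1 / 2 : ℝ) (5 / 2)) : A 0 1 (Γ (al2 t)) = Γ t := by
  obtain ⟨h1, h2⟩ := ht
  rcases le_total t 1 with h | h
  · rw [al2, min_eq_left (by linarith), max_eq_right (by linarith),
      zip_bot ⟨by linarith, by linarith⟩, zip_bot ⟨by linarith, h⟩, A, af]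
    congr 1; ring
  rcases le_total t 2 with h' | h'
  · rw [al2, min_eq_right (by linarith), max_eq_right (by linarith), add_zero, add_zero,
      pin_Γ_right ⟨h, h'⟩, A, af]
    congr 1; ring
  · rw [al2, min_eq_right (by linarith), max_eq_left (by linarith),
      zip_top ⟨by linarith, by linarith⟩, zip_top ⟨h', by linarith⟩, A, af]
    congr 1; ring

theorem zip_inc (a b : ℝ) : IncOn (fun t => t + min (t - a) 0 + max (t - b) 0) univ :=
  ⟨1, 3, one_pos, fun t _ t' _ h => by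
    simp only [max_def, min_def]; split_ifs <;> constructor <;> linarith⟩

theorem zip_flat {K C D : P → P} {χ α : ℝ → ℝ} {a b : ℝ} (hK : Fib K) (he : Eqv K C χ)
    (hα : IncOn α univ) (h : ∀ s ∈ Ioo a b, D (Γ (α s)) = C (Γ s)) (i : ℤ) (hi : χ i ∈ Ioo a b) :
    ∀ᶠ t in 𝓝 (α (χ i)), D (Γ t) = D (Γ (α (χ i))) := by
  obtain ⟨ρ, h1, h2, h3⟩ := (hα.comp he.isLift.1 (mapsTo_univ _ _)).exists_inv
  have h4 : Tendsto ρ (𝓝 (α (χ i))) (𝓝 i) := by
    simpa only [h2] using (continuousOn_univ.1 h1.continuousOn).tendsto (α (χ i))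
  filter_upwards [h4.eventually ((hK.corner i).and
    (he.isLift.continuous.continuousAt.eventually (isOpen_Ioo.mem_nhds hi)))] with t ht
  rw [← h3 t, h _ ht.2, h _ hi, ← he.loop, ← he.loop, ht.1]

theorem zip_flat' {f μ : ℝ → P} {e : ℝ → ℝ} {a b t y : ℝ} (he : Continuous e)
    (h : ∀ t ∈ Ioo a b, f t = μ (e t)) (ht : t ∈ Ioo a b) (hy : e t = y)
    (hl : ∀ᶠ u in 𝓝 y, μ u = μ y) : ∀ᶠ s in 𝓝 t, f s = f t := by
  subst hy
  filter_upwards [he.continuousAt.eventually hl, isOpen_Ioo.mem_nhds ht] with s h1 h2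
  rw [h s h2, h t ht, h1]

theorem zip_repl {Λ C K : P → P} {xa xb : ℝ} (ha : -1 ≤ xa) (hab : xa < xb) (hb : xb ≤ 1)
    {χ ψ : ℝ → ℝ} (he : Eqv (Λ ∘ A xa xb) C χ) (hk : Eqv K C ψ)
    (f1 : ∀ t ∈ Icc (1 : ℝ) 2, Γ (χ t) = Γ (ψ t)) (f2 : ∀ t ∈ Icc (3 : ℝ) 4, Γ (χ t) = Γ (ψ t)) :
    ∃ Λ' : P → P, (∀ p ∈ sq, p.1 ≤ xa ∨ xb ≤ p.1 → Λ' p = Λ p) ∧ EqOn (Λ' ∘ A xa xb) K sq ∧
      ∀ U R, EC U Λ' R → EC U Λ R := by
  obtain ⟨Λ', h1, h2⟩ := exists_patch Λ K hab (fun y hy => by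
    have ht : (7 - y) / 2 ∈ Icc (3 : ℝ) 4 := ⟨by linarith [hy.2], by linarith [hy.1]⟩
    have := (hk.loop _).trans ((congrArg C (f2 _ ht)).symm.trans (he.loop _).symm)
    rw [pin_Γ_left ht, show 7 - 2 * ((7 - y) / 2) = y by ring] at this
    simpa [A, af] using this) fun y hy => by
      have ht : (y + 3) / 2 ∈ Icc (1 : ℝ) 2 := ⟨by linarith [hy.1], by linarith [hy.2]⟩
      have := (hk.loop _).trans ((congrArg C (f1 _ ht)).symm.trans (he.loop _).symm)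
      rw [pin_Γ_right ht, show 2 * ((y + 3) / 2) - 3 = y by ring] at this
      simpa [A, af] using this
  obtain ⟨ρ, h3, h4⟩ := he.rel hk
  obtain ⟨Ψ, h5⟩ := eqv_ctx ha hab hb (fun p hp h => (h1 p hp.2 h).symm)
    (h3.congr (fun _ _ => rfl) h2.symm) (fun t ht => h4 t (f1 t ht)) fun t ht => h4 t (f2 t ht)
  exact ⟨Λ', fun p hp => h1 p hp.2, h2, fun U R => h5.ec⟩

theorem zip_band {K : P → P} (h : Fib K) : ∃ δ, 0 < δ ∧ δ ≤ 1 / 2 ∧ ∀ p ∈ sq,
    (1 - δ ≤ p.1 → K p = K (1, p.2)) ∧ (p.1 ≤ δ - 1 → K p = K (-1, p.2)) := by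
  obtain ⟨z, h0, h1, h2⟩ := h
  refine ⟨z, h0, h1, fun p hp => ⟨fun h => ?_, fun h => ?_⟩⟩
  · rw [h2 p hp, h2 (1, p.2) ⟨by simp, hp.2⟩]
    simp only [cl]
    rw [min_eq_left h, min_eq_left (a := 1 - z) (b := 1) (by linarith)]
  · rw [h2 p hp, h2 (-1, p.2) ⟨by simp, hp.2⟩]
    simp only [cl]
    rw [max_eq_left ((min_le_right _ _).trans h),
      max_eq_left (a := z - 1) ((min_le_right _ (-1)).trans (by linarith))]

theorem zip_om {z x0 d x0' d' y1 y2 x x' y : ℝ} (h : |x - x0| / d = |x' - x0'| / d') :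
    om z x0 d y1 y2 (x, y) = om z x0' d' y1 y2 (x', y) := by
  simp only [om, nL, nU, mul_div_assoc, h]

theorem zip {U : Set P} (hU : IsOpen U) {Λ C : P → P} {xa xb : ℝ} (ha : -1 ≤ xa) (hab : xa < xb)
    (hb : xb ≤ 1) (hΛ : Fib Λ) (hK : Fib (Λ ∘ A xa xb)) (hC : Up sq C)
    (hC1 : Fib (C ∘ A (-1) 0)) (hC2 : Fib (C ∘ A 0 1)) {χ : ℝ → ℝ}
    (he : Eqv (Λ ∘ A xa xb) C χ) (c1 : 1 / 2 < χ 1) (c2 : χ 2 < 5 / 2) (c3 : 5 / 2 < χ 3)
    (c4 : χ 4 < 9 / 2) {y1 y2 τ : ℝ} (h1 : -1 < y1) (h12 : y1 < y2) (h2 : y2 < 1)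
    (l1 : ∀ᶠ y in 𝓝 y1, C (0, y) = C (0, y1)) (l2 : ∀ᶠ y in 𝓝 y2, C (0, y) = C (0, y2))
    (ht : Tr U (fun y => C (0, y)) (-1) 1 τ) (hτ : 0 < τ) :
    ∃ (Λ' : P → P) (xm : ℝ) (χ1 χ2 : ℝ → ℝ), xa < xm ∧ xm < xb ∧
      (∀ p ∈ sq, p.1 ≤ xa ∨ xb ≤ p.1 → Λ' p = Λ p) ∧
      Fib (Λ' ∘ A xa xm) ∧ Eqv (Λ' ∘ A xa xm) (C ∘ A (-1) 0) χ1 ∧
      χ1 1 = 1 + (y1 + 1) / 2 ∧ χ1 2 = 1 + (y2 + 1) / 2 ∧ χ1 3 = al1 (χ 3) ∧
      χ1 4 = al1 (χ 4) ∧
      Fib (Λ' ∘ A xm xb) ∧ Eqv (Λ' ∘ A xm xb) (C ∘ A 0 1) χ2 ∧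
      χ2 1 = al2 (χ 1) ∧ χ2 2 = al2 (χ 2) ∧ χ2 3 = 3 + (1 - y2) / 2 ∧
      χ2 4 = 3 + (1 - y1) / 2 ∧
      ∀ R : Box, R.Valid → 2000 * τ ≤ R.sz → EC U Λ' (R.shr (1000 * τ)) → EC U Λ R := by
  have hm := he.isLift.strictMono.monotone
  have m1 : ∀ t ∈ Icc (1 : ℝ) 2, χ t ∈ Ioo (1 / 2 : ℝ) (5 / 2) := fun t ht =>
    ⟨c1.trans_le (hm ht.1), (hm ht.2).trans_lt c2⟩
  have m2 : ∀ t ∈ Icc (3 : ℝ) 4, χ t ∈ Ioo (5 / 2 : ℝ) (9 / 2) := fun t ht =>
    ⟨c3.trans_le (hm ht.1), (hm ht.2).trans_lt c4⟩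
  have i1 : IncOn al1 univ := zip_inc 3 4
  have i2 : IncOn al2 univ := zip_inc 1 2
  obtain ⟨ψ1, p1, p2, p3⟩ := exists_lift_two (u := fun t => t) (isLift_id.1.mono (subset_univ _))
    ((i1.comp he.isLift.1 (mapsTo_univ _ _)).mono (subset_univ _))
    (by simp only [al1, max_def, min_def]; split_ifs <;> linarith)
    (by simp only [al1, max_def, min_def]; split_ifs <;> linarith)
  obtain ⟨ψ2, q1, q2, q3⟩ := exists_lift_two (v := fun t => t)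
    ((i2.comp he.isLift.1 (mapsTo_univ _ _)).mono (subset_univ _)) (isLift_id.1.mono (subset_univ _))
    (by simp only [al2, max_def, min_def]; split_ifs <;> linarith)
    (by simp only [al2, max_def, min_def]; split_ifs <;> linarith)
  have n1 : (1 : ℝ) ∈ Icc (1 : ℝ) 2 := by norm_num
  have n2 : (2 : ℝ) ∈ Icc (1 : ℝ) 2 := by norm_num
  have n3 : (3 : ℝ) ∈ Icc (3 : ℝ) 4 := by norm_num
  have n4 : (4 : ℝ) ∈ Icc (3 : ℝ) 4 := by norm_num
  have f1 := zip_flat (D := C ∘ A (-1) 0) hK he i1 fun s hs => congrArg C (zip_al1 hs)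
  have f2 := zip_flat (D := C ∘ A 0 1) hK he i2 fun s hs => congrArg C (zip_al2 hs)
  have f13 := f1 3 (by exact_mod_cast m2 3 n3)
  have f14 := f1 4 (by exact_mod_cast m2 4 n4)
  have f21 := f2 1 (by exact_mod_cast m1 1 n1)
  have f22 := f2 2 (by exact_mod_cast m1 2 n2)
  push_cast at f13 f14 f21 f22
  obtain ⟨K1, k1, k1'⟩ := twist hC1 p1 (by
    rintro x (rfl | rfl | rfl | rfl)
    · rw [p2 n1]; exact_mod_cast hC1.corner 1
    · rw [p2 n2]; exact_mod_cast hC1.corner 2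
    · rw [p3 n3]; exact f13
    · rw [p3 n4]; exact f14)
  obtain ⟨K2, k2, k2'⟩ := twist hC2 q1 (by
    rintro x (rfl | rfl | rfl | rfl)
    · rw [q2 n1]; exact f21
    · rw [q2 n2]; exact f22
    · rw [q3 n3]; exact_mod_cast hC2.corner 3
    · rw [q3 n4]; exact_mod_cast hC2.corner 4)
  have s1 : ∀ y ∈ Icc (-1 : ℝ) 1, K1 (1, y) = C (0, y) := fun y hy => by
    have ht : (y + 3) / 2 ∈ Icc (1 : ℝ) 2 := ⟨by linarith [hy.1], by linarith [hy.2]⟩
    have := k1'.loop ((y + 3) / 2)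
    rw [p2 ht, pin_Γ_right ht, show 2 * ((y + 3) / 2) - 3 = y by ring] at this
    simpa [A, af] using this
  have s2 : ∀ y ∈ Icc (-1 : ℝ) 1, K2 (-1, y) = C (0, y) := fun y hy => by
    have ht : (7 - y) / 2 ∈ Icc (3 : ℝ) 4 := ⟨by linarith [hy.2], by linarith [hy.1]⟩
    have := k2'.loop ((7 - y) / 2)
    rw [q3 ht, pin_Γ_left ht, show 7 - 2 * ((7 - y) / 2) = y by ring] at this
    simpa [A, af] using this
  obtain ⟨K0, j1, j2⟩ := exists_join K1 K2 (x := 0) (by norm_num) one_pos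
    fun y hy => (s1 y hy).trans (s2 y hy).symm
  obtain ⟨Ψ, g1, g2, g3⟩ := eqv_glue (Λ' := C) (by norm_num) one_pos
    (k1'.congr j1.symm fun _ _ => rfl) (k2'.congr j2.symm fun _ _ => rfl)
    (fun t ht => by rw [p2 ht]) fun t ht => by rw [q3 ht]
  obtain ⟨Z, z1, z2, z3⟩ := zip_repl ha hab hb he g1
    (fun t ht => by rw [g3 t ht, q2 ht, zip_al2 (m1 t ht)])
    fun t ht => by rw [g2 t ht, p3 ht, zip_al1 (m2 t ht)]
  have hZ : Fib Z := hΛ.patch ha hab hb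
    ((Fib.glue (by norm_num) one_pos (k1.congr j1.symm) (k2.congr j2.symm)).congr z2.symm) z1
  obtain ⟨L, hL, rfl⟩ : ∃ L, 0 < L ∧ xb = xa + 2 * L := ⟨(xb - xa) / 2, by linarith, by ring⟩
  have w1 : ∀ p ∈ sq, Z (A xa (xa + L) p) = K1 p := fun p hp => by
    rw [← j1 hp, Function.comp, ← z2 (A_mem le_rfl (by norm_num) zero_le_one hp), Function.comp, A_A]
    congr 2 <;> simp only [af] <;> ring
  have w2 : ∀ p ∈ sq, Z (A (xa + L) (xa + 2 * L) p) = K2 p := fun p hp => by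
    rw [← j2 hp, Function.comp, ← z2 (A_mem (by norm_num) zero_le_one le_rfl hp), Function.comp, A_A]
    congr 2 <;> simp only [af] <;> ring
  obtain ⟨δ1, d1, d1', b1⟩ := zip_band k1
  obtain ⟨δ2, d2, -, b2⟩ := zip_band k2
  obtain ⟨d, hd, e1, e2⟩ : ∃ d, 0 < d ∧ 2 * d ≤ δ1 ∧ 2 * d ≤ δ2 :=
    ⟨min δ1 δ2 / 2, by positivity, by linarith [min_le_left δ1 δ2], by linarith [min_le_right δ1 δ2]⟩
  have hdL : d * L ≤ L / 4 := by nlinarith
  have hdL' : 0 < d * L / 2 := by positivity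
  obtain ⟨z0, hz0, hz0', hf⟩ := hZ.small
  obtain ⟨z, hz, hz'⟩ := exists_between (show 0 < min (min z0 (L / 2)) (min (y1 + 1) (1 - y2)) from
    lt_min (lt_min hz0 (by linarith)) (lt_min (by linarith) (by linarith)))
  simp only [lt_min_iff] at hz'
  obtain ⟨⟨u1, u2⟩, u3, u4⟩ := hz'
  replace hf := hf z hz u1.le
  have u5 : z ≤ 1 := by linarith
  have u6 : z - 1 < y1 := by linarith
  have u7 : y2 < 1 - z := by linarith
  have hcl : ∀ p ∈ sq, (p.1, cl (z - 1) (1 - z) p.2) ∈ sq := fun p hp => ⟨hp.1, abs_le.2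
    ⟨le_max_of_le_left (by linarith), max_le (by linarith) (min_le_of_left_le (by linarith))⟩⟩
  have hv : ∀ p ∈ sq, Z p = Z (p.1, cl (z - 1) (1 - z) p.2) := fun p hp => by
    rw [hf p hp, hf _ (hcl p hp)]
    congr 2
    simp only [cl, max_def, min_def]; split_ifs <;> linarith
  have a1 := A_mem ha (show xa ≤ xa + L by linarith) (by linarith)
  have a2 := A_mem (show -1 ≤ xa + L by linarith) (show xa + L ≤ xa + 2 * L by linarith) hb
  obtain ⟨χ1, r1, r2, r3, r4⟩ := pinch_left (K := K1) hz (by linarith) hd (by linarith)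
    (fun p hp => by rw [← w1 p hp, hv _ (a1 hp), ← w1 _ (hcl p hp)]; rfl)
    (fun p hp h => (b1 p hp).1 (by linarith)) u6 h12 u7
  obtain ⟨χ2, t1, t2, t3, t4⟩ := pinch_right (K := K2) hz (by linarith) hd (by linarith)
    (fun p hp => by rw [← w2 p hp, hv _ (a2 hp), ← w2 _ (hcl p hp)]; rfl)
    (fun p hp h => (b2 p hp).2 (by linarith)) u6 h12 u7
  have o1 : 1 + (y1 + 1) / 2 ∈ Ioo (1 : ℝ) 2 := ⟨by linarith, by linarith⟩
  have o2 : 1 + (y2 + 1) / 2 ∈ Ioo (1 : ℝ) 2 := ⟨by linarith, by linarith⟩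
  have o3 : 3 + (1 - y2) / 2 ∈ Ioo (3 : ℝ) 4 := ⟨by linarith, by linarith⟩
  have o4 : 3 + (1 - y1) / 2 ∈ Ioo (3 : ℝ) 4 := ⟨by linarith, by linarith⟩
  have v1 : ψ1 (χ1 1) = 1 + (y1 + 1) / 2 := by rw [r3, p2 (Ioo_subset_Icc_self o1)]
  have v2 : ψ1 (χ1 2) = 1 + (y2 + 1) / 2 := by rw [r4, p2 (Ioo_subset_Icc_self o2)]
  have v3 : ψ1 (χ1 3) = al1 (χ 3) := by rw [r2 3 n3, p3 n3]
  have v4 : ψ1 (χ1 4) = al1 (χ 4) := by rw [r2 4 n4, p3 n4]
  have v5 : ψ2 (χ2 1) = al2 (χ 1) := by rw [t2 1 n1, q2 n1]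
  have v6 : ψ2 (χ2 2) = al2 (χ 2) := by rw [t2 2 n2, q2 n2]
  have v7 : ψ2 (χ2 3) = 3 + (1 - y2) / 2 := by rw [t3, q3 (Ioo_subset_Icc_self o3)]
  have v8 : ψ2 (χ2 4) = 3 + (1 - y1) / 2 := by rw [t4, q3 (Ioo_subset_Icc_self o4)]
  have x1 : ∀ t ∈ Ioo (1 : ℝ) 2, (C ∘ A (-1) 0) (Γ t) = C (0, 2 * t - 3) := fun t ht => by
    simp [pin_Γ_right (Ioo_subset_Icc_self ht), A, af]
  have x2 : ∀ t ∈ Ioo (3 : ℝ) 4, (C ∘ A 0 1) (Γ t) = C (0, 7 - 2 * t) := fun t ht => by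
    simp [pin_Γ_left (Ioo_subset_Icc_self ht), A, af]
  obtain ⟨K3, k3, k3'⟩ := twist hC1 (r1.trans k1').isLift (by
    rintro x (rfl | rfl | rfl | rfl)
    · rw [v1]; exact zip_flat' (μ := fun y => C (0, y)) (by fun_prop) x1 o1 (by ring) l1
    · rw [v2]; exact zip_flat' (μ := fun y => C (0, y)) (by fun_prop) x1 o2 (by ring) l2
    · rw [v3]; exact f13
    · rw [v4]; exact f14)
  obtain ⟨K4, k4, k4'⟩ := twist hC2 (t1.trans k2').isLift (by
    rintro x (rfl | rfl | rfl | rfl)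
    · rw [v5]; exact f21
    · rw [v6]; exact f22
    · rw [v7]; exact zip_flat' (μ := fun y => C (0, y)) (by fun_prop) x2 o3 (by ring) l2
    · rw [v8]; exact zip_flat' (μ := fun y => C (0, y)) (by fun_prop) x2 o4 (by ring) l1)
  have hs : ∀ x0, ∀ p ∈ sq, (p.1, om z x0 d y1 y2 p) ∈ sq := fun x0 p hp =>
    ⟨hp.1, (pin_abs_om_le hz u5 hd u6 h12 u7 x0 hp.2).trans (by linarith)⟩
  let Z' : P → P := fun p => Z (p.1, om z (xa + L) (d * L / 2) y1 y2 p)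
  obtain ⟨Z1, y1', y2', y3'⟩ := zip_repl (Λ := Z') ha (show xa < xa + L by linarith) (by linarith)
    ((r1.trans k1').congr (fun p hp => by
      refine (w1 _ (hs 1 p hp)).symm.trans ?_
      refine congrArg (fun y => Z (_, y)) (zip_om ?_)
      rw [af, show xa + (p.1 + 1) / 2 * (xa + L - xa) - (xa + L) = (p.1 - 1) * (L / 2) by ring,
        abs_mul, abs_of_pos (half_pos hL)]
      field_simp) fun _ _ => rfl) k3' (fun _ _ => rfl) fun _ _ => rfl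
  obtain ⟨Z2, y4', y5', y6'⟩ := zip_repl (Λ := Z1) (show -1 ≤ xa + L by linarith)
    (show xa + L < xa + 2 * L by linarith) hb
    ((t1.trans k2').congr (fun p hp => by
      refine (w2 _ (hs (-1) p hp)).symm.trans (Eq.trans ?_
        (y1' _ (a2 hp) (.inr (af_mem (by linarith) (abs_le.1 hp.1)).1)).symm)
      refine congrArg (fun y => Z (_, y)) (zip_om ?_)
      rw [af, show xa + L + (p.1 + 1) / 2 * (xa + 2 * L - (xa + L)) - (xa + L) =
        (p.1 - -1) * (L / 2) by ring, abs_mul, abs_of_pos (half_pos hL)]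
      field_simp) fun _ _ => rfl) k4' (fun _ _ => rfl) fun _ _ => rfl
  have y7' : EqOn K3 (Z2 ∘ A xa (xa + L)) sq := fun p hp => by
    rw [Function.comp, y4' _ (a1 hp) (.inl (af_mem (by linarith) (abs_le.1 hp.1)).2)]
    exact (y2' hp).symm
  refine ⟨Z2, xa + L, _, _, by linarith, by linarith, fun p hp h => ?_, k3.congr y7',
    k3'.congr y7' fun _ _ => rfl, v1, v2, v3, v4, k4.congr y5'.symm,
    k4'.congr y5'.symm fun _ _ => rfl, v5, v6, v7, v8, fun R hR hs h => z3 U R (notch_ec hU hz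
      (by linarith) hf hdL' (by linarith) (by linarith) (fun p hp h => ?_) ?_ u6 h12 u7 ht hτ hR hs
      (y3' U _ (y6' U _ h)))⟩
  · rw [y4' p hp (h.imp_left fun h => by linarith), y1' p hp (h.imp_right fun h => by linarith),
      ← z1 p hp h, hv p hp, ← pin_cl_xi u5]
    simp only [Z']
    rw [pin_om_far hz u5 hdL' u6 u7 (by
      rcases h with h | h
      · linarith [neg_le_abs (p.1 - (xa + L))]
      · linarith [le_abs_self (p.1 - (xa + L))])]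
    exact hv _ ⟨hp.1, (pin_abs_xi_le hz.le u5 hp.2).trans (by linarith)⟩
  · rw [abs_le] at h
    rcases le_total p.1 (xa + L) with h' | h'
    · have hq : (ia xa (xa + L) p.1, p.2) ∈ sq :=
        ⟨abs_le.2 (ia_mem (by linarith) ⟨by linarith, h'⟩), hp.2⟩
      rw [← s1 _ (abs_le.1 hp.2), ← (b1 _ hq).1 ?_, ← w1 _ hq, A, af_ia (by linarith)]
      simp only [ia, add_sub_cancel_left]
      rw [le_sub_iff_add_le, le_div_iff₀ hL]
      nlinarith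
    · have hq : (ia (xa + L) (xa + 2 * L) p.1, p.2) ∈ sq :=
        ⟨abs_le.2 (ia_mem (by linarith) ⟨h', by linarith⟩), hp.2⟩
      rw [← s2 _ (abs_le.1 hp.2), ← (b2 _ hq).2 ?_, ← w2 _ hq, A, af_ia (by linarith)]
      simp only [ia]
      rw [sub_le_sub_iff_right, div_le_iff₀ (by linarith)]
      nlinarith
  · obtain ⟨k, -, hk⟩ := hC.lip convex_sq
    refine ⟨k, fun t ht t' ht' => ?_⟩
    simpa [Real.dist_eq] using hk (0, t) ⟨by simp, abs_le.2 ht⟩ (0, t') ⟨by simp, abs_le.2 ht'⟩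

end Pool.Agent.Lib.MP_ecd4e3_gt
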